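import Pool.Agent.PLS.StD

set_option autoImplicit false
set_option linter.unusedVariables false

open Finset

noncomputable section

namespace PLS

namespace D1x

variable {α : Type} [DecidableEq α]

theorem BE_empty (r : α → ℝ) (h : Finset α → ℝ) : BE ∅ r h = h ∅ := by
  unfold BE
  simp

theorem BE_insert (Θ : Finset α) (r : α → ℝ) (T : α) (h : Finset α → ℝ) (hT : T ∉ Θ) :
    BE (insert T Θ) r h = Real.exp (-r T) * BE Θ r h +
      (1 - Real.exp (-r T)) * BE Θ r (fun B => h (insert T B)) := by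
  unfold BE
  rw [Finset.sum_powerset_insert hT, Finset.mul_sum, Finset.mul_sum]
  congr 1
  · refine Finset.sum_congr rfl fun B hB => ?_
    rw [mem_powerset] at hB
    have hTB : T ∉ B := fun h => hT (hB h)
    rw [Finset.insert_sdiff_of_notMem Θ hTB, Finset.prod_insert (fun h => hT (mem_sdiff.1 h).1)]
    ring
  · refine Finset.sum_congr rfl fun B hB => ?_
    rw [mem_powerset] at hB
    have hTB : T ∉ B := fun h => hT (hB h)
    rw [Finset.prod_insert hTB, Finset.insert_sdiff_insert, Finset.sdiff_insert_of_notMem hT]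
    ring

theorem BE_lin (Θ : Finset α) (r : α → ℝ) (a b : ℝ) (h h' : Finset α → ℝ) :
    BE Θ r (fun B => a * h B + b * h' B) = a * BE Θ r h + b * BE Θ r h' := by
  unfold BE
  rw [Finset.mul_sum, Finset.mul_sum, ← Finset.sum_add_distrib]
  refine Finset.sum_congr rfl fun B _ => ?_
  ring

theorem BE_congr {Θ : Finset α} {r r' : α → ℝ}
    {h h' : Finset α → ℝ} (hr : ∀ T ∈ Θ, r T = r' T) (hh : ∀ B ⊆ Θ, h B = h' B) :
    BE Θ r h = BE Θ r' h' := by
  unfold BE
  refine Finset.sum_congr rfl fun B hB => ?_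
  rw [mem_powerset] at hB
  rw [hh B hB]
  congr 1
  congr 1
  · exact Finset.prod_congr rfl fun T hT => by rw [hr T (hB hT)]
  · exact Finset.prod_congr rfl fun T hT => by rw [hr T (mem_sdiff.1 hT).1]

theorem BE_const (Θ : Finset α) (r : α → ℝ) (a : ℝ) : BE Θ r (fun _ => a) = a := by
  induction Θ using Finset.induction_on with
  | empty => rw [BE_empty]
  | insert T Θ hT ih =>
    rw [BE_insert Θ r T _ hT, ih]
    ring

theorem wt_nonneg {r : ℝ} (hr : 0 ≤ r) : 0 ≤ 1 - Real.exp (-r) := by
  have := Real.exp_le_one_iff.2 (neg_nonpos.2 hr)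
  linarith

theorem BE_mono {Θ : Finset α} {r : α → ℝ} (hr : ∀ T ∈ Θ, 0 ≤ r T) {h h' : Finset α → ℝ}
    (hh : ∀ B ⊆ Θ, h B ≤ h' B) : BE Θ r h ≤ BE Θ r h' := by
  unfold BE
  refine Finset.sum_le_sum fun B hB => ?_
  rw [mem_powerset] at hB
  refine mul_le_mul_of_nonneg_left (hh B hB) (mul_nonneg ?_ ?_)
  · exact Finset.prod_nonneg fun T hT => wt_nonneg (hr T (hB hT))
  · exact Finset.prod_nonneg fun T _ => (Real.exp_pos _).le

theorem BE_mem (Θ : Finset α) (r : α → ℝ) (T : α) (h : Finset α → ℝ) (hT : T ∈ Θ) :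
    BE Θ r (fun B => if T ∈ B then h B else 0) =
      (1 - Real.exp (-r T)) * BE Θ r (fun B => h (insert T B)) := by
  have e : Θ = insert T (Θ.erase T) := (Finset.insert_erase hT).symm
  have hT' : T ∉ Θ.erase T := Finset.notMem_erase T Θ
  rw [e, BE_insert _ r T _ hT', BE_insert _ r T _ hT']
  have a1 : BE (Θ.erase T) r (fun B => if T ∈ B then h B else 0) = 0 := by
    have : BE (Θ.erase T) r (fun B => if T ∈ B then h B else 0) =
        BE (Θ.erase T) r (fun _ => 0) :=
      BE_congr (fun _ _ => rfl) fun B hB => if_neg fun h => hT' (hB h)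
    rw [this, BE_const]
  have a2 : BE (Θ.erase T) r (fun B => if T ∈ insert T B then h (insert T B) else 0) =
      BE (Θ.erase T) r (fun B => h (insert T B)) :=
    BE_congr (fun _ _ => rfl) fun B _ => if_pos (Finset.mem_insert_self T B)
  have a3 : BE (Θ.erase T) r (fun B => h (insert T (insert T B))) =
      BE (Θ.erase T) r (fun B => h (insert T B)) :=
    BE_congr (fun _ _ => rfl) fun B _ => by rw [Finset.insert_idem]
  rw [a1, a2, a3]
  ring

theorem BE_pow {Θ Θ' : Finset α} {r : α → ℝ} {z : ℝ} (hr : ∀ T ∈ Θ, 0 ≤ r T) (hs : Θ' ⊆ Θ)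
    (hz : 1 ≤ z) :
    BE Θ r (fun B => z ^ (B ∩ Θ').card) ≤ Real.exp ((z - 1) * ∑ T ∈ Θ', r T) := by
  have key : ∀ Θ : Finset α, (∀ T ∈ Θ, 0 ≤ r T) →
      BE Θ r (fun B => z ^ (B ∩ Θ').card) ≤ Real.exp ((z - 1) * ∑ T ∈ Θ ∩ Θ', r T) := by
    intro Θ
    induction Θ using Finset.induction_on with
    | empty =>
      intro _
      rw [BE_empty]
      simp
    | insert T Θ hT ih =>
      intro hr
      have hr' : ∀ T ∈ Θ, 0 ≤ r T := fun T h => hr T (mem_insert_of_mem h)
      have ih' := ih hr'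
      rw [BE_insert Θ r T _ hT]
      by_cases hT' : T ∈ Θ'
      · have a1 : BE Θ r (fun B => z ^ (insert T B ∩ Θ').card) =
            z * BE Θ r (fun B => z ^ (B ∩ Θ').card) := by
          have : BE Θ r (fun B => z ^ (insert T B ∩ Θ').card) =
              BE Θ r (fun B => z * z ^ (B ∩ Θ').card + 0 * 0) := by
            refine BE_congr (fun _ _ => rfl) fun B hB => ?_
            rw [Finset.insert_inter_of_mem hT', Finset.card_insert_of_notMem, pow_succ]
            · ring
            · intro h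
              exact hT (hB (mem_inter.1 h).1)
          rw [this, BE_lin Θ r z 0 (fun B => z ^ (B ∩ Θ').card) (fun _ => 0)]
          ring
        rw [a1, Finset.insert_inter_of_mem hT', Finset.sum_insert
          (fun h => hT (mem_inter.1 h).1), mul_add, Real.exp_add]
        have a2 : Real.exp (-r T) * BE Θ r (fun B => z ^ (B ∩ Θ').card) +
            (1 - Real.exp (-r T)) * (z * BE Θ r (fun B => z ^ (B ∩ Θ').card)) =
            (1 + (z - 1) * (1 - Real.exp (-r T))) * BE Θ r (fun B => z ^ (B ∩ Θ').card) := by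
          ring
        rw [a2]
        have hrT : 0 ≤ r T := hr T (mem_insert_self _ _)
        have a3 : 1 + (z - 1) * (1 - Real.exp (-r T)) ≤ Real.exp ((z - 1) * r T) := by
          have b1 : 1 - Real.exp (-r T) ≤ r T := by
            have := Real.add_one_le_exp (-r T)
            linarith
          have b2 := mul_le_mul_of_nonneg_left b1 (sub_nonneg.2 hz)
          have b3 := Real.add_one_le_exp ((z - 1) * r T)
          linarith
        have a4 : 0 ≤ BE Θ r (fun B => z ^ (B ∩ Θ').card) := by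
          have := BE_mono hr' (h := fun _ => 0) (h' := fun B => z ^ (B ∩ Θ').card)
            fun B _ => by positivity
          rwa [BE_const] at this
        exact mul_le_mul a3 ih' a4 (Real.exp_pos _).le
      · have a1 : BE Θ r (fun B => z ^ (insert T B ∩ Θ').card) =
            BE Θ r (fun B => z ^ (B ∩ Θ').card) :=
          BE_congr (fun _ _ => rfl) fun B _ => by rw [Finset.insert_inter_of_notMem hT']
        rw [a1, Finset.insert_inter_of_notMem hT']
        refine le_trans (le_of_eq ?_) ih'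
        ring
  have := key Θ hr
  rwa [Finset.inter_eq_right.2 hs] at this

theorem BE_prod {Θ Θ' : Finset α} (r : α → ℝ) (h h' : Finset α → ℝ) (hd : Disjoint Θ Θ') :
    BE (Θ ∪ Θ') r (fun B => h (B ∩ Θ) * h' (B ∩ Θ')) = BE Θ r h * BE Θ' r h' := by
  induction Θ using Finset.induction_on generalizing h with
  | empty =>
    rw [Finset.empty_union, BE_empty]
    have : BE Θ' r (fun B => h (B ∩ ∅) * h' (B ∩ Θ')) =
        BE Θ' r (fun B => h ∅ * h' B + 0 * 0) :=
      BE_congr (fun _ _ => rfl) fun B hB => by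
        rw [Finset.inter_empty, Finset.inter_eq_left.2 hB]; ring
    rw [this, BE_lin Θ' r (h ∅) 0 h' (fun _ => 0)]
    ring
  | insert T Θ hT ih =>
    rw [Finset.disjoint_insert_left] at hd
    have hT2 : T ∉ Θ ∪ Θ' := by
      rw [mem_union]
      rintro (h | h)
      · exact hT h
      · exact hd.1 h
    rw [Finset.insert_union, BE_insert _ r T _ hT2, BE_insert _ r T _ hT]
    have a1 : BE (Θ ∪ Θ') r (fun B => h (B ∩ insert T Θ) * h' (B ∩ Θ')) =
        BE (Θ ∪ Θ') r (fun B => h (B ∩ Θ) * h' (B ∩ Θ')) :=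
      BE_congr (fun _ _ => rfl) fun B hB => by
        rw [Finset.inter_insert_of_notMem fun h => hT2 (hB h)]
    have a2 : BE (Θ ∪ Θ') r (fun B => h (insert T B ∩ insert T Θ) * h' (insert T B ∩ Θ')) =
        BE (Θ ∪ Θ') r (fun B => h (insert T (B ∩ Θ)) * h' (B ∩ Θ')) :=
      BE_congr (fun _ _ => rfl) fun B hB => by
        rw [Finset.insert_inter_of_notMem hd.1, ← Finset.insert_inter_distrib]
    rw [a1, a2, ih h hd.2, ih (fun B => h (insert T B)) hd.2]
    ring

theorem BE_zero {Θ Θ' : Finset α} {r : α → ℝ} (h : Finset α → ℝ) (hs : Θ' ⊆ Θ)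
    (hr : ∀ T ∈ Θ \ Θ', r T = 0) : BE Θ r h = BE Θ' r h := by
  have e : Θ = (Θ \ Θ') ∪ Θ' := (Finset.sdiff_union_of_subset hs).symm
  have key : ∀ D : Finset α, Disjoint D Θ' → (∀ T ∈ D, r T = 0) →
      BE (D ∪ Θ') r h = BE Θ' r h := by
    intro D
    induction D using Finset.induction_on with
    | empty =>
      intro _ _
      rw [Finset.empty_union]
    | insert T D hT ih =>
      intro hd hr
      rw [Finset.disjoint_insert_left] at hd
      have hT2 : T ∉ D ∪ Θ' := by
        rw [mem_union]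
        rintro (h | h)
        · exact hT h
        · exact hd.1 h
      rw [Finset.insert_union, BE_insert _ r T _ hT2, hr T (mem_insert_self _ _),
        ih hd.2 fun T h => hr T (mem_insert_of_mem h)]
      simp
  rw [e]
  exact key _ Finset.sdiff_disjoint hr

theorem BE_void (Θ : Finset α) (r : α → ℝ) (Q : α → Prop) [DecidablePred Q] :
    BE Θ r (fun B => if ∀ T ∈ B, ¬ Q T then 1 else 0) =
      Real.exp (-∑ T ∈ Θ with Q T, r T) := by
  induction Θ using Finset.induction_on with
  | empty =>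
    rw [BE_empty]
    simp
  | insert T Θ hT ih =>
    rw [BE_insert Θ r T _ hT, ih]
    by_cases hQ : Q T
    · have a1 : BE Θ r (fun B => if ∀ T' ∈ insert T B, ¬ Q T' then (1 : ℝ) else 0) = 0 := by
        have z : BE Θ r (fun B => if ∀ T' ∈ insert T B, ¬ Q T' then (1 : ℝ) else 0) =
            BE Θ r (fun _ => 0) := by
          refine BE_congr (fun _ _ => rfl) fun B _ => if_neg fun h => ?_
          exact h T (mem_insert_self _ _) hQ
        rw [z, BE_const]
      rw [a1, Finset.filter_insert, if_pos hQ, Finset.sum_insert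
        (fun h => hT (mem_filter.1 h).1), neg_add, Real.exp_add]
      ring
    · have a1 : BE Θ r (fun B => if ∀ T' ∈ insert T B, ¬ Q T' then (1 : ℝ) else 0) =
          BE Θ r (fun B => if ∀ T' ∈ B, ¬ Q T' then 1 else 0) := by
        refine BE_congr (fun _ _ => rfl) fun B _ => ?_
        congr 1
        rw [eq_iff_iff]
        constructor
        · exact fun h T' hT' => h T' (mem_insert_of_mem hT')
        · intro h T' hT'
          rcases mem_insert.1 hT' with rfl | h'
          · exact hQ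
          · exact h T' h'
      rw [a1, ih, Finset.filter_insert, if_neg hQ]
      ring

theorem BE_harris {Θ : Finset α} {r : α → ℝ} (hr : ∀ T ∈ Θ, 0 ≤ r T) (h h' : Finset α → ℝ)
    (hh : ∀ B ⊆ Θ, ∀ B' ⊆ B, h B ≤ h B') (hh' : ∀ B ⊆ Θ, ∀ B' ⊆ B, h' B ≤ h' B') :
    BE Θ r h * BE Θ r h' ≤ BE Θ r (fun B => h B * h' B) := by
  induction Θ using Finset.induction_on generalizing h h' with
  | empty =>
    rw [BE_empty, BE_empty, BE_empty]
  | insert T Θ hT ih =>
    have hr' : ∀ T ∈ Θ, 0 ≤ r T := fun T h => hr T (mem_insert_of_mem h)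
    rw [BE_insert Θ r T _ hT, BE_insert Θ r T _ hT, BE_insert Θ r T _ hT]
    have s1 : ∀ B ⊆ Θ, B ⊆ insert T Θ := fun B hB => hB.trans (subset_insert _ _)
    have s2 : ∀ B ⊆ Θ, insert T B ⊆ insert T Θ := fun B hB => insert_subset_insert _ hB
    have i0 := ih hr' h h' (fun B hB => hh B (s1 B hB)) (fun B hB => hh' B (s1 B hB))
    have i1 := ih hr' (fun B => h (insert T B)) (fun B => h' (insert T B))
      (fun B hB B' hB' => hh _ (s2 B hB) _ (insert_subset_insert _ hB'))
      (fun B hB B' hB' => hh' _ (s2 B hB) _ (insert_subset_insert _ hB'))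
    have m0 : BE Θ r (fun B => h (insert T B)) ≤ BE Θ r h :=
      BE_mono hr' fun B hB => hh _ (s2 B hB) _ (subset_insert _ _)
    have m1 : BE Θ r (fun B => h' (insert T B)) ≤ BE Θ r h' :=
      BE_mono hr' fun B hB => hh' _ (s2 B hB) _ (subset_insert _ _)
    set a0 := BE Θ r h
    set b0 := BE Θ r h'
    set a1 := BE Θ r (fun B => h (insert T B))
    set b1 := BE Θ r (fun B => h' (insert T B))
    set c0 := BE Θ r (fun B => h B * h' B)
    set c1 := BE Θ r (fun B => h (insert T B) * h' (insert T B))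
    have e0 : 0 ≤ 1 - Real.exp (-r T) := wt_nonneg (hr T (mem_insert_self _ _))
    have e1 : 0 < Real.exp (-r T) := Real.exp_pos _
    set e := Real.exp (-r T)
    have k1 : e * (a0 * b0) ≤ e * c0 := mul_le_mul_of_nonneg_left i0 e1.le
    have k2 : (1 - e) * (a1 * b1) ≤ (1 - e) * c1 := mul_le_mul_of_nonneg_left i1 e0
    have k3 : 0 ≤ e * (1 - e) * ((a0 - a1) * (b0 - b1)) :=
      mul_nonneg (mul_nonneg e1.le e0) (mul_nonneg (sub_nonneg.2 m0) (sub_nonneg.2 m1))
    nlinarith [k1, k2, k3]

end D1x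

open D1x in
theorem D1 : St_D1 := by
  intro α _ Θ r
  refine ⟨fun T h hT => BE_insert Θ r T h hT, BE_const Θ r 1, fun a b h h' => BE_lin Θ r a b h h',
    fun hr h h' hh => BE_mono hr hh, fun T h hT => BE_mem Θ r T h hT,
    fun Θ' z hr hs hz => BE_pow hr hs hz, fun Θ' h h' hd => BE_prod r h h' hd,
    fun Θ' h hs hr => BE_zero h hs hr, fun Q _ => BE_void Θ r Q,
    fun hr h h' hh hh' => BE_harris hr h h' hh hh'⟩

end PLS
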