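import Pool.Agent.PLS.D5

set_option autoImplicit false
set_option linter.unusedVariables false

open Finset MeasureTheory RInt

noncomputable section

namespace PLS

namespace D10x

open D4x D5x

variable {S : Type} [DecidableEq S]

theorem disj_un {B : Finset (Finset S)} {K' : Finset S} :
    Disjoint (un B) K' ↔ ∀ T ∈ B, Disjoint T K' := by
  unfold un
  rw [Finset.disjoint_sup_left]
  rfl

theorem un_sub {K : Finset S} {B : Finset (Finset S)} (hB : B ⊆ ne K) : un B ⊆ K := by
  intro x hx
  rw [mem_un] at hx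
  obtain ⟨T, hT, hx⟩ := hx
  exact (mem_ne.1 (hB hT)).2 hx

theorem un_mono {B B' : Finset (Finset S)} (h : B' ⊆ B) : un B' ⊆ un B := by
  intro x hx
  rw [mem_un] at hx ⊢
  obtain ⟨T, hT, hx⟩ := hx
  exact ⟨T, h hT, hx⟩

end D10x

open D4x D5x D10x in
open Classical in
theorem D10 (h1 : St_D1) : St_D10 := by
  intro S _ c μ hV hc0
  have part1 : ∀ (K : Finset S) (w : Finset S → ℝ), (∀ T, 0 ≤ w T) →
      (∀ K' ⊆ K, ∑ T ∈ K.powerset with ¬ Disjoint T K', w T = c K') →
      ∀ (u : ℝ) (A : Set (Set S)), 0 < u → Local K A → (μ u).real A =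
        BE (ne K) (fun T => u * w T) (fun B => if (un B : Set S) ∈ A then 1 else 0) := by
    intro K w hw hwc u A hu hA
    have := hV.prob u hu
    set p : Finset S → ℝ := fun T => BE (ne K) (fun T => u * w T)
      (fun B => if un B = T then 1 else 0) with hp
    have e1 : ∀ T ⊆ K, (μ u).real (cell K T) = p T := by
      apply semi_unique
      intro K' hK'
      rw [hV.sum K u hu K' hK']
      have a1 : ∑ T ∈ K.powerset with Disjoint T K', p T =
          BE (ne K) (fun T => u * w T) (fun B => if ∀ T ∈ B, ¬ ¬ Disjoint T K' then 1 else 0) := by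
        rw [hp]
        simp only
        rw [← BE_sum]
        refine BE_congr (fun _ _ => rfl) fun B hB => ?_
        rw [Finset.sum_ite_eq]
        have hm : un B ∈ (K.powerset.filter fun T => Disjoint T K') ↔
            ∀ T ∈ B, ¬ ¬ Disjoint T K' := by
          rw [mem_filter, mem_powerset, disj_un]
          constructor
          · rintro ⟨_, h⟩ T hT
            exact not_not.2 (h T hT)
          · intro h
            exact ⟨un_sub hB, fun T hT => not_not.1 (h T hT)⟩
        by_cases h : un B ∈ (K.powerset.filter fun T => Disjoint T K')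
        · rw [if_pos h, if_pos (hm.1 h)]
        · rw [if_neg h, if_neg fun h' => h (hm.2 h')]
      rw [a1]
      have a2 := (h1 (Finset S) (ne K) (fun T => u * w T)).2.2.2.2.2.2.2.2.1
        (fun T => ¬ Disjoint T K')
      rw [a2]
      congr 1
      rw [← hwc K' hK', ← Finset.mul_sum, neg_inj]
      congr 1
      apply Finset.sum_congr _ (fun _ _ => rfl)
      ext T
      rw [mem_filter, mem_filter, mem_ne, mem_powerset]
      constructor
      · rintro ⟨h, h'⟩
        refine ⟨⟨?_, h⟩, h'⟩
        rintro rfl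
        exact h' (Finset.disjoint_empty_left _)
      · rintro ⟨⟨_, h⟩, h'⟩
        exact ⟨h, h'⟩
    rw [local_real K A hA]
    have e2 : ∑ T ∈ K.powerset.filter (fun T : Finset S => (T : Set S) ∈ A),
        (μ u).real (cell K T) =
        ∑ T ∈ K.powerset.filter (fun T : Finset S => (T : Set S) ∈ A), p T := by
      refine Finset.sum_congr rfl fun T hT => ?_
      rw [mem_filter, mem_powerset] at hT
      exact e1 T hT.1
    rw [e2, hp]
    simp only
    rw [← BE_sum]
    refine BE_congr (fun _ _ => rfl) fun B hB => ?_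
    rw [Finset.sum_ite_eq]
    have hm : un B ∈ (K.powerset.filter fun T : Finset S => (T : Set S) ∈ A) ↔
        (un B : Set S) ∈ A := by
      rw [mem_filter, mem_powerset]
      exact ⟨fun h => h.2, fun h => ⟨un_sub hB, h⟩⟩
    by_cases h : un B ∈ (K.powerset.filter fun T : Finset S => (T : Set S) ∈ A)
    · rw [if_pos h, if_pos (hm.1 h)]
    · rw [if_neg h, if_neg fun h' => h (hm.2 h')]
  refine ⟨part1, ?_⟩
  intro u K A A' hu hA hA' hdA hdA'
  have := hV.prob u hu
  obtain ⟨w, hw0, hw⟩ := semi_weights K c (fun u T => (μ u).real (cell K T))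
    (fun _ _ _ => measureReal_nonneg) (hV.sum K) hc0
  have hAA : Local K (A ∩ A') := by
    intro I J hIJ
    constructor
    · rintro ⟨a, b⟩
      exact ⟨(hA I J hIJ).1 a, (hA' I J hIJ).1 b⟩
    · rintro ⟨a, b⟩
      exact ⟨(hA I J hIJ).2 a, (hA' I J hIJ).2 b⟩
  rw [part1 K w hw0 hw u A hu hA, part1 K w hw0 hw u A' hu hA', part1 K w hw0 hw u _ hu hAA]
  have har := (h1 (Finset S) (ne K) (fun T => u * w T)).2.2.2.2.2.2.2.2.2
    (fun T _ => mul_nonneg hu.le (hw0 T))
    (fun B => if (un B : Set S) ∈ A then 1 else 0) (fun B => if (un B : Set S) ∈ A' then 1 else 0)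
  have mono : ∀ A : Set (Set S), Dn A → ∀ B ⊆ ne K, ∀ B' ⊆ B,
      (if (un B : Set S) ∈ A then (1 : ℝ) else 0) ≤ if (un B' : Set S) ∈ A then 1 else 0 := by
    intro A hd B _ B' hB'
    by_cases h : (un B : Set S) ∈ A
    · rw [if_pos h, if_pos (hd _ h _ (by exact_mod_cast un_mono hB'))]
    · rw [if_neg h]
      split_ifs
      · exact zero_le_one
      · exact le_rfl
  refine (har (mono A hdA) (mono A' hdA')).trans (le_of_eq ?_)
  refine BE_congr (fun _ _ => rfl) fun B _ => ?_
  by_cases h : (un B : Set S) ∈ A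
  · by_cases h' : (un B : Set S) ∈ A'
    · rw [if_pos h, if_pos h', if_pos ⟨h, h'⟩, mul_one]
    · rw [if_neg h', if_neg (fun h'' : (un B : Set S) ∈ A ∩ A' => h' h''.2), mul_zero]
  · rw [if_neg h, if_neg (fun h'' : (un B : Set S) ∈ A ∩ A' => h h''.1), zero_mul]

end PLS
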