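import Pool.Agent.PLS.D5
import Pool.Agent.PLS.D1

set_option autoImplicit false
set_option linter.unusedVariables false

open Finset

noncomputable section

namespace PLS

namespace D9x

open D4x D5x

variable {S : Type} [DecidableEq S]

theorem Bo_mo {K : Finset S} {w : Finset S → ℝ} {ch : ℝ} {f : Finset S → ℝ}
    (hw : ∀ T, 0 ≤ w T) (hs : ∑ P ∈ ne K, w P ≤ ch) (hch : 0 < ch) (hf : Mo f) :
    Mo (Bo K w ch f) := by
  have e : ∀ ω, Bo K w ch f ω = ((ch - ∑ P ∈ ne K, w P) * f ω +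
      ∑ P ∈ ne K, w P * f (ω ∪ P)) / ch := by
    intro ω
    unfold Bo
    rw [eq_div_iff hch.ne', add_mul, div_mul_cancel₀ _ hch.ne']
    have : ∑ P ∈ ne K, w P * (f (ω ∪ P) - f ω) = ∑ P ∈ ne K, w P * f (ω ∪ P) -
        (∑ P ∈ ne K, w P) * f ω := by
      rw [Finset.sum_mul, ← Finset.sum_sub_distrib]
      exact Finset.sum_congr rfl fun P _ => by ring
    rw [this]
    ring
  have h0 : 0 ≤ ch - ∑ P ∈ ne K, w P := sub_nonneg.2 hs
  refine ⟨fun A B hAB => ?_, fun A => ⟨?_, ?_⟩⟩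
  · rw [e, e]
    refine div_le_div_of_nonneg_right (add_le_add (mul_le_mul_of_nonneg_left (hf.1 A B hAB) h0)
      (Finset.sum_le_sum fun P _ => mul_le_mul_of_nonneg_left (hf.1 _ _
        (Finset.union_subset_union_left hAB)) (hw P))) hch.le
  · rw [e]
    refine div_nonneg (add_nonneg (mul_nonneg h0 (hf.2 A).1)
      (Finset.sum_nonneg fun P _ => mul_nonneg (hw P) (hf.2 _).1)) hch.le
  · rw [e, div_le_one hch]
    have h1 : (ch - ∑ P ∈ ne K, w P) * f A ≤ (ch - ∑ P ∈ ne K, w P) * 1 :=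
      mul_le_mul_of_nonneg_left (hf.2 A).2 h0
    have h2 : ∑ P ∈ ne K, w P * f (A ∪ P) ≤ ∑ P ∈ ne K, w P * 1 :=
      Finset.sum_le_sum fun P _ => mul_le_mul_of_nonneg_left (hf.2 _).2 (hw P)
    rw [← Finset.sum_mul] at h2
    linarith

theorem Bo_iter {K : Finset S} {w : Finset S → ℝ} {ch : ℝ} {f : Finset S → ℝ}
    (hw : ∀ T, 0 ≤ w T) (hs : ∑ P ∈ ne K, w P ≤ ch) (hch : 0 < ch) (hf : Mo f) (n : ℕ) :
    Mo ((Bo K w ch)^[n] f) := by
  induction n with
  | zero => exact hf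
  | succ n ih =>
    rw [Function.iterate_succ_apply']
    exact Bo_mo hw hs hch ih

/-- the parameters -/
theorem params {κ u L : ℝ} (hκ : 0 < κ) (hu : 0 < u) (hL : 1 ≤ L) (hκL : κ * L ≤ u / 10 ^ 11) :
    ∃ (lam : ℝ) (J : ℕ), 0 < lam ∧ lam ^ 2 = L / (60 * u * κ) ∧
      ((1 / 2000000 / κ) / (lam + 1 / 2000000 / κ)) ^ J ≤ Real.exp (-(2 * L)) ∧
      8 * (J : ℝ) ≤ u * (1 / 2000000 / κ) ∧
      64 * (J : ℝ) ^ 2 / (u * (1 / 2000000 / κ)) ≤ L / 16 := by
  set ch : ℝ := 1 / 2000000 / κ with hch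
  have hch0 : 0 < ch := by positivity
  have hκch : κ * ch = 1 / 2000000 := by
    rw [hch]
    field_simp
  have hL0 : 0 < L := by linarith
  set lam := √(L / (60 * u * κ)) with hlam
  have hlam2 : lam ^ 2 = L / (60 * u * κ) := Real.sq_sqrt (by positivity)
  have hlam0 : 0 < lam := Real.sqrt_pos.2 (by positivity)
  have n1 : lam ≤ ch := by
    refine le_of_sq_le_sq ?_ hch0.le
    rw [hlam2, div_le_iff₀ (by positivity)]
    -- L ≤ ch^2 * (60 u κ)
    have e1 : ch ^ 2 * (60 * u * κ) = 60 * u * (κ * ch) * ch := by ring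
    rw [e1, hκch]
    have e2 : 60 * u * (1 / 2000000) * ch = 60 * u * (1 / 2000000) * (1 / 2000000) / κ := by
      rw [hch]
      ring
    rw [e2, le_div_iff₀ hκ]
    have : L * κ ≤ u / 10 ^ 11 := by linarith [mul_comm κ L]
    norm_num at this ⊢
    linarith
  have n2 : 40 * L / u ≤ lam := by
    refine le_of_sq_le_sq ?_ hlam0.le
    rw [hlam2, div_pow, div_le_div_iff₀ (by positivity) (by positivity)]
    have h1 : 96000 * (κ * L) ≤ u := by
      have : (u / 10 ^ 11) * 96000 ≤ u := by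
        rw [div_mul_eq_mul_div, div_le_iff₀ (by positivity)]
        nlinarith
      linarith
    have h2 : 0 ≤ L * u := by positivity
    have h3 := mul_le_mul_of_nonneg_left h1 h2
    nlinarith [h3]
  set x : ℝ := 2 * L * (lam + ch) / lam with hx
  have hx0 : 0 ≤ x := by positivity
  refine ⟨lam, ⌈x⌉₊, hlam0, hlam2, ?_, ?_⟩
  · have hJ : x ≤ (⌈x⌉₊ : ℝ) := Nat.le_ceil x
    have hs : 0 < lam + ch := by positivity
    have e1 : ch / (lam + ch) ≤ Real.exp (-(lam / (lam + ch))) := by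
      have := Real.add_one_le_exp (-(lam / (lam + ch)))
      refine le_trans (le_of_eq ?_) this
      field_simp
      ring
    have e2 : (ch / (lam + ch)) ^ ⌈x⌉₊ ≤ Real.exp (-(lam / (lam + ch))) ^ ⌈x⌉₊ :=
      pow_le_pow_left₀ (by positivity) e1 _
    refine e2.trans ?_
    rw [← Real.exp_nat_mul]
    refine Real.exp_le_exp.2 ?_
    have e3 : x * (lam / (lam + ch)) = 2 * L := by
      rw [hx]
      field_simp
    have e4 : x * (lam / (lam + ch)) ≤ (⌈x⌉₊ : ℝ) * (lam / (lam + ch)) :=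
      mul_le_mul_of_nonneg_right hJ (by positivity)
    linarith
  · have hJ : (⌈x⌉₊ : ℝ) < x + 1 := Nat.ceil_lt_add_one hx0
    have n4 : (⌈x⌉₊ : ℝ) ≤ 5 * L * (ch / lam) := by
      have r1 : 1 ≤ ch / lam := (one_le_div hlam0).2 n1
      have e1 : x = 2 * L + 2 * L * (ch / lam) := by
        rw [hx]
        field_simp
      have e2 : L ≤ L * (ch / lam) := le_mul_of_one_le_right hL0.le r1
      nlinarith
    have hJ0 : (0 : ℝ) ≤ (⌈x⌉₊ : ℝ) := Nat.cast_nonneg _
    constructor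
    · have e1 : 8 * (⌈x⌉₊ : ℝ) ≤ 40 * L / lam * ch := by
        have : 40 * L / lam * ch = 8 * (5 * L * (ch / lam)) := by ring
        rw [this]
        linarith
      have e2 : 40 * L / lam ≤ u := by
        rw [div_le_iff₀ hlam0]
        rw [div_le_iff₀ hu] at n2
        linarith [mul_comm lam u]
      exact e1.trans (mul_le_mul_of_nonneg_right e2 hch0.le)
    · have e1 : (⌈x⌉₊ : ℝ) ^ 2 ≤ (5 * L * (ch / lam)) ^ 2 := pow_le_pow_left₀ hJ0 n4 2
      rw [div_le_iff₀ (by positivity)]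
      have e2 : (5 * L * (ch / lam)) ^ 2 = 25 * L ^ 2 * ch ^ 2 / lam ^ 2 := by
        field_simp
        norm_num
      have e3 : 25 * L ^ 2 * ch ^ 2 / lam ^ 2 = 1500 * u * L * (κ * ch) * ch := by
        rw [hlam2]
        field_simp
        ring
      rw [e2, e3, hκch] at e1
      have e4 : 0 ≤ u * L * ch := by positivity
      nlinarith

/-- one side -/
theorem side (h6 : St_D6) (h7 : St_D7) (h8 : St_D8) {Ka Kb : Finset S} (hd : Disjoint Ka Kb)
    {w : Finset S → ℝ} {κ u L : ℝ} (hw : ∀ T, 0 ≤ w T) (hκ : 0 < κ) (hu : 0 < u) (hL : 1 ≤ L)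
    (hκc : κ * ∑ T ∈ ne (Ka ∪ Kb), w T ≤ 1 / 2000000)
    {lam : ℝ} {J : ℕ} (hlam : 0 < lam)
    (hq : ((1 / 2000000 / κ) / (lam + 1 / 2000000 / κ)) ^ J ≤ Real.exp (-(2 * L)))
    (hJ : 8 * (J : ℝ) ≤ u * (1 / 2000000 / κ))
    (hJ2 : 64 * (J : ℝ) ^ 2 / (u * (1 / 2000000 / κ)) ≤ L / 16)
    (A : Finset S → Prop) [DecidablePred A] (hA : ∀ X Y : Finset S, X ⊆ Y → A X → A Y)
    (hp : BE (ne Ka) (fun P => u * wm w Kb P) (fun B => if A (un B) then 1 else 0) ≤
      Real.exp (-L)) :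
    ∃ F : Finset S → ℝ, Mo F ∧ (∀ ω, (if A ω then 1 else 0) ≤ F ω) ∧
      (∀ ω ⊆ Ka, ∑ P ∈ ne Ka, w P * (F (ω ∪ P) - F ω) ≤ lam * F ω) ∧
      BE (ne Ka) (fun P => u * wm w Kb P) (fun B => F (un B)) ≤
        3 * Real.exp (-(13 * L / 16)) := by
  set ch : ℝ := 1 / 2000000 / κ with hch
  have hch0 : 0 < ch := by positivity
  set w1 : Finset S → ℝ := fun P => wm w Kb P with hw1d
  have hw1 : ∀ T, 0 ≤ w1 T := fun T => Finset.sum_nonneg fun Q _ => hw _
  have hle : ∀ P, w P ≤ w1 P := by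
    intro P
    show w P ≤ wm w Kb P
    rw [wm_eq]
    have : 0 ≤ ∑ Q ∈ ne Kb, w (P ∪ Q) := Finset.sum_nonneg fun Q _ => hw _
    linarith
  have hsum : ∑ P ∈ ne Ka, w1 P ≤ ch := by
    have e1 : ∑ P ∈ ne Ka, w1 P = ∑ P ∈ ne Ka, w P + ∑ T ∈ Mx Ka Kb, w T := by
      rw [bij hd, ← Finset.sum_add_distrib]
      refine Finset.sum_congr rfl fun P _ => ?_
      show wm w Kb P = _
      rw [wm_eq]
    have e2 : ∑ P ∈ ne Ka, w1 P ≤ ∑ T ∈ ne (Ka ∪ Kb), w T := by
      rw [e1, sum_ne hd]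
      have : 0 ≤ ∑ Q ∈ ne Kb, w Q := Finset.sum_nonneg fun Q _ => hw _
      linarith
    refine e2.trans ?_
    rw [hch, le_div_iff₀ hκ]
    linarith [mul_comm κ (∑ T ∈ ne (Ka ∪ Kb), w T)]
  set f : Finset S → ℝ := fun ω => if A ω then 1 else 0 with hf
  have hfm : Mo f := by
    refine ⟨fun X Y hXY => ?_, fun X => ?_⟩
    · show (if A X then (1 : ℝ) else 0) ≤ if A Y then 1 else 0
      by_cases h : A X
      · rw [if_pos h, if_pos (hA X Y hXY h)]
      · rw [if_neg h]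
        split_ifs
        · exact zero_le_one
        · exact le_rfl
    · show 0 ≤ (if A X then (1 : ℝ) else 0) ∧ (if A X then (1 : ℝ) else 0) ≤ 1
      split_ifs
      · exact ⟨zero_le_one, le_rfl⟩
      · exact ⟨le_rfl, zero_le_one⟩
  obtain ⟨F, hFm, hfF, hFl, hFJ⟩ := h6 S Ka w1 ch lam f hw1 hsum hch0 hlam hfm
  refine ⟨F, hFm, hfF, ?_, ?_⟩
  · intro ω _
    refine le_trans (Finset.sum_le_sum fun P _ => ?_) (hFl ω)
    exact mul_le_mul_of_nonneg_right (hle P)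
      (sub_nonneg.2 (hFm.1 _ _ Finset.subset_union_left))
  · set r : Finset S → ℝ := fun P => u * w1 P with hr
    have hr0 : ∀ T ∈ ne Ka, 0 ≤ r T := fun T _ => mul_nonneg hu.le (hw1 T)
    set a : ℕ → ℝ := fun n => (Bo Ka w1 ch)^[n] f ∅ with ha
    have s1 := h7 S Ka w1 ch u f hw1 hsum hch0 hu hfm
    have s2 := h7 S Ka w1 ch u ((Bo Ka w1 ch)^[J] f) hw1 hsum hch0 hu
      (Bo_iter hw1 hsum hch0 hfm J)
    have s2' : HasSum (fun n : ℕ => Real.exp (-(u * ch)) * (u * ch) ^ n / n.factorial *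
        a (n + J)) (BE (ne Ka) r (fun B => (Bo Ka w1 ch)^[J] f (un B))) := by
      have e : (fun n : ℕ => Real.exp (-(u * ch)) * (u * ch) ^ n / n.factorial *
        a (n + J)) = fun n : ℕ => Real.exp (-(u * ch)) * (u * ch) ^ n / n.factorial *
          (Bo Ka w1 ch)^[n] ((Bo Ka w1 ch)^[J] f) ∅ := by
        funext n
        show _ * (Bo Ka w1 ch)^[n + J] f ∅ = _
        rw [Function.iterate_add_apply]
      rw [e]
      exact s2
    have s3 := h8 a (u * ch) (Real.exp (L / 8)) _ _ J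
      (fun n => (Bo_iter hw1 hsum hch0 hfm n).2 ∅) (by positivity) hJ (Real.exp_pos _) s1 s2'
    have s4 : BE (ne Ka) r (fun B => F (un B)) ≤
        BE (ne Ka) r (fun B => (Bo Ka w1 ch)^[J] f (un B)) + Real.exp (-(2 * L)) := by
      have m1 := D1x.BE_mono hr0 (h := fun B => F (un B))
        (h' := fun B => 1 * (Bo Ka w1 ch)^[J] f (un B) + Real.exp (-(2 * L)) * 1) fun B _ => by
          have := hFJ J (un B)
          linarith
      refine m1.trans (le_of_eq ?_)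
      rw [D1x.BE_lin (ne Ka) r 1 (Real.exp (-(2 * L))) (fun B => (Bo Ka w1 ch)^[J] f (un B))
        (fun _ => 1), D1x.BE_const]
      ring
    have s5 : Real.exp (L / 8) * BE (ne Ka) r (fun B => f (un B)) ≤
        Real.exp (-(13 * L / 16)) := by
      have := mul_le_mul_of_nonneg_left hp (Real.exp_pos (L / 8)).le
      refine this.trans ?_
      rw [← Real.exp_add]
      exact Real.exp_le_exp.2 (by linarith)
    have s6 : Real.exp (64 * J ^ 2 / (u * ch)) / Real.exp (L / 8) ^ 7 ≤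
        Real.exp (-(13 * L / 16)) := by
      rw [← Real.exp_nat_mul, ← Real.exp_sub]
      refine Real.exp_le_exp.2 ?_
      push_cast
      linarith
    have s7 : Real.exp (-(2 * L)) ≤ Real.exp (-(13 * L / 16)) :=
      Real.exp_le_exp.2 (by linarith)
    linarith

end D9x

open D4x D5x D9x in
theorem D9 (h5 : St_D5) (h6 : St_D6) (h7 : St_D7) (h8 : St_D8) : St_D9 := by
  intro S _ K1 K2 w κ u L A1 A2 _ _ hd hw hκ hu hL hsplit hκc hκL hA hp1 hp2
  obtain ⟨lam, J, hlam, hlam2, hq, hJ, hJ2⟩ := params hκ hu hL hκL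
  obtain ⟨F1, hF1, hf1, hl1, hb1⟩ := side h6 h7 h8 hd hw hκ hu hL hκc hlam hq hJ hJ2 A1
    (fun X Y h => (hA X Y h).1) hp1
  obtain ⟨F2, hF2, hf2, hl2, hb2⟩ := side h6 h7 h8 hd.symm hw hκ hu hL
    (by rwa [Finset.union_comm]) hlam hq hJ hJ2 A2 (fun X Y h => (hA X Y h).2) hp2
  have hL0 : 0 < L := by linarith
  have main := h5 S K1 K2 w κ u (2 * L) lam F1 F2 hd hw hκ.le hu (by positivity) hlam.le hsplit
    (hκc.trans (by norm_num)) (by
      rw [div_le_iff₀ hu]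
      have : κ * (2 * L) = 2 * (κ * L) := by ring
      rw [this]
      have : u / 10 ^ 11 * 2 ≤ 1 / 50 * u := by
        norm_num
        linarith
      linarith) hF1 hF2 hl1 hl2
  have hγ : 3 * u * κ * lam ^ 2 = L / 20 := by
    rw [hlam2]
    field_simp
    ring
  rw [hγ] at main
  have r0 : ∀ T ∈ ne (K1 ∪ K2), 0 ≤ u * w T := fun T _ => mul_nonneg hu.le (hw T)
  have low : BE (ne (K1 ∪ K2)) (fun T => u * w T)
      (fun B => if A1 (un B ∩ K1) ∧ A2 (un B ∩ K2) then 1 else 0) ≤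
      BE (ne (K1 ∪ K2)) (fun T => u * w T) (fun B => F1 (un B ∩ K1) * F2 (un B ∩ K2)) := by
    refine D1x.BE_mono r0 fun B _ => ?_
    have a1 := hf1 (un B ∩ K1)
    have a2 := hf2 (un B ∩ K2)
    by_cases h : A1 (un B ∩ K1) ∧ A2 (un B ∩ K2)
    · rw [if_pos h]
      rw [if_pos h.1] at a1
      rw [if_pos h.2] at a2
      exact one_le_mul_of_one_le_of_one_le a1 a2
    · rw [if_neg h]
      exact mul_nonneg (hF1.2 _).1 (hF2.2 _).1
  refine low.trans (main.trans ?_)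
  set b1 := BE (ne K1) (fun P => u * wm w K2 P) (fun B => F1 (un B))
  set b2 := BE (ne K2) (fun P => u * wm w K1 P) (fun B => F2 (un B)) with hb2d
  have b20 : 0 ≤ b2 := by
    have := D1x.BE_mono (Θ := ne K2) (r := fun P => u * wm w K1 P)
      (fun T _ => mul_nonneg hu.le (Finset.sum_nonneg fun Q _ => hw _))
      (h := fun _ => 0) (h' := fun B => F2 (un B)) fun B _ => (hF2.2 _).1
    rwa [D1x.BE_const] at this
  have m1 : b1 * b2 ≤ (3 * Real.exp (-(13 * L / 16))) * (3 * Real.exp (-(13 * L / 16))) :=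
    mul_le_mul hb1 hb2 b20 (by positivity)
  have m2 : (3 * Real.exp (-(13 * L / 16))) * (3 * Real.exp (-(13 * L / 16))) =
      9 * Real.exp (-(13 * L / 8)) := by
    have : Real.exp (-(13 * L / 8)) = Real.exp (-(13 * L / 16)) * Real.exp (-(13 * L / 16)) := by
      rw [← Real.exp_add]
      congr 1
      ring
    rw [this]
    ring
  rw [m2] at m1
  have m3 := mul_le_mul_of_nonneg_left (add_le_add_left m1 (Real.exp (-(2 * L))))
    (Real.exp_pos (L / 20)).le
  have m4 : Real.exp (L / 20) * Real.exp (-(13 * L / 8)) ≤ Real.exp (-(3 * L / 2)) := by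
    rw [← Real.exp_add]
    exact Real.exp_le_exp.2 (by linarith)
  have m5 : Real.exp (L / 20) * Real.exp (-(2 * L)) ≤ Real.exp (-(3 * L / 2)) := by
    rw [← Real.exp_add]
    exact Real.exp_le_exp.2 (by linarith)
  nlinarith [m1, m4, m5, Real.exp_pos (L / 20)]

end PLS
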