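import Pool.Agent.PLS.StD

/-!
# PLS [D12]: the planar section is a family `PF`
-/

set_option autoImplicit false
set_option linter.unusedVariables false

open Finset Filter Topology MeasureTheory RInt

noncomputable section

namespace PLS

namespace D12x

variable {d : ℕ}

theorem emb_add (x z : Pt) : emb d (x + z) = emb d x + emb d z := by
  funext i
  simp only [emb, Pi.add_apply, Prod.fst_add, Prod.snd_add]
  split_ifs <;> simp

/-- the preimage in the plane -/
def pre (d : ℕ) (I : Set (Fin d → ℤ)) : Set Pt := {x : Pt | emb d x ∈ I}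

theorem measurable_pre : Measurable (pre d) := by
  rw [measurable_set_iff]
  intro a
  exact measurable_set_mem (emb d a)

theorem image_image_eq (K : Finset Pt) (τ : Pt → Pt) (σ : (Fin d → ℤ) → (Fin d → ℤ))
    (h : ∀ x, emb d (τ x) = σ (emb d x)) :
    (K.image τ).image (emb d) = (K.image (emb d)).image σ := by
  rw [Finset.image_image, Finset.image_image]
  exact Finset.image_congr fun x _ => h x

theorem uvec_apply (j : Fin d) (b : Bool) (i : Fin d) :
    uvec (j, b) i = if i = j then (if b then 1 else -1) else 0 := by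
  unfold uvec
  cases b <;> simp [Pi.single_apply]
  split_ifs <;> simp

/-- the sign change of the coordinate `0` -/
def s0 (y : Fin d → ℤ) : Fin d → ℤ := fun i => if i.val = 0 then -(y i) else y i

theorem s0_inv : Function.Involutive (s0 : (Fin d → ℤ) → (Fin d → ℤ)) := by
  intro y
  funext i
  simp only [s0]
  split_ifs <;> simp

def p0 (j : Fin d × Bool) : Fin d × Bool := if j.1.val = 0 then (j.1, !j.2) else j

theorem p0_inv : Function.Involutive (p0 : Fin d × Bool → Fin d × Bool) := by
  rintro ⟨j, b⟩
  simp only [p0]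
  by_cases h : j.val = 0
  · simp [h]
  · simp [h]

theorem s0_uvec (x : Fin d → ℤ) (j : Fin d × Bool) :
    s0 (x + uvec j) = s0 x + uvec (p0 j) := by
  obtain ⟨j, b⟩ := j
  funext i
  by_cases hj : j.val = 0
  · have h1 : p0 (j, b) = (j, !b) := by simp [p0, hj]
    rw [h1]
    simp only [s0, Pi.add_apply, uvec_apply]
    by_cases hi : i.val = 0
    · have hij : i = j := Fin.ext (hi.trans hj.symm)
      rw [if_pos hi, if_pos hi, if_pos hij, if_pos hij]
      cases b
      · simp [add_comm]
      · simp [add_comm]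
    · have hij : i ≠ j := fun h => hi (h ▸ hj)
      rw [if_neg hi, if_neg hi, if_neg hij, if_neg hij]
  · have h1 : p0 (j, b) = (j, b) := by simp [p0, hj]
    rw [h1]
    simp only [s0, Pi.add_apply, uvec_apply]
    by_cases hi : i.val = 0
    · have hij : i ≠ j := fun h => hj (h ▸ hi)
      rw [if_pos hi, if_pos hi, if_neg hij]
      ring
    · rw [if_neg hi, if_neg hi]

theorem emb_refl (x : Pt) : emb d ((-x.1, x.2) : Pt) = s0 (emb d x) := by
  funext i
  simp only [emb, s0]
  split_ifs <;> rfl

/-- the exchange of two coordinates -/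
def sw (a b : Fin d) (y : Fin d → ℤ) : Fin d → ℤ := fun i => y (Equiv.swap a b i)

theorem sw_inv (a b : Fin d) : Function.Involutive (sw a b) := by
  intro y
  funext i
  simp [sw]

theorem sw_uvec (a b : Fin d) (x : Fin d → ℤ) (j : Fin d × Bool) :
    sw a b (x + uvec j) = sw a b x +
      uvec ((Equiv.prodCongr (Equiv.swap a b) (Equiv.refl Bool)) j) := by
  obtain ⟨j, c⟩ := j
  funext i
  simp only [sw, Pi.add_apply, Equiv.prodCongr_apply, Prod.map_apply, Equiv.refl_apply,
    uvec_apply]
  congr 1
  have h1 : (Equiv.swap a b i = j) ↔ (i = Equiv.swap a b j) := by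
    constructor
    · rintro rfl; simp
    · rintro rfl; simp
  simp only [h1]

theorem emb_swap (a b : Fin d) (ha : a.val = 0) (hb : b.val = 1) (x : Pt) :
    emb d x.swap = sw a b (emb d x) := by
  funext i
  simp only [emb, sw, Prod.fst_swap, Prod.snd_swap]
  by_cases h0 : i.val = 0
  · have hi : i = a := Fin.ext (h0.trans ha.symm)
    subst hi
    rw [Equiv.swap_apply_left, if_pos h0, if_neg (by omega), if_pos hb]
  · by_cases h1 : i.val = 1
    · have hi : i = b := Fin.ext (h1.trans hb.symm)
      subst hi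
      rw [Equiv.swap_apply_right, if_neg h0, if_pos h1, if_pos ha]
    · have hia : i ≠ a := fun h => h0 (h ▸ ha)
      have hib : i ≠ b := fun h => h1 (h ▸ hb)
      rw [Equiv.swap_apply_of_ne_of_ne hia hib, if_neg h0, if_neg h1, if_neg h0, if_neg h1]

theorem emb_single (i : Fin d) (hi : i.val = 0) (k : ℤ) :
    emb d ((k, 0) : Pt) = Pi.single i k := by
  funext j
  simp only [emb, Pi.single_apply]
  by_cases h : j.val = 0
  · have hj : j = i := Fin.ext (h.trans hi.symm)
    rw [if_pos h, if_pos hj]
  · have hj : j ≠ i := fun h' => h (h' ▸ hi)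
    rw [if_neg h, if_neg hj]
    split_ifs <;> rfl

theorem local_pre (n : ℕ) (z : Pt) (A : Set (Set Pt)) (hA : Local (Bx z n) A) :
    Local ((box d n).image fun x => x + emb d z) (pre d ⁻¹' A) := by
  intro I J hIJ
  refine hA _ _ fun x hx => ?_
  refine hIJ (emb d x) (Finset.mem_image.2 ⟨emb d x - emb d z, ?_, sub_add_cancel _ _⟩)
  simp only [Bx, Rc, Finset.mem_product, Finset.mem_Icc] at hx
  show emb d x - emb d z ∈ Fintype.piFinset fun _ : Fin d => Finset.Icc (-(n : ℤ)) n
  rw [Fintype.mem_piFinset]
  intro i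
  rw [Finset.mem_Icc]
  simp only [Pi.sub_apply, emb]
  split_ifs
  · omega
  · omega
  · omega

theorem up_pre (A : Set (Set Pt)) (hA : Up A) : Up (pre d ⁻¹' A) :=
  fun I hI J hIJ => hA _ hI _ fun x hx => hIJ hx

end D12x

open D12x in
theorem D12 (h11 : St_D11) (h1 : St_G1) (h8 : St_G8) (h9 : St_G9) : St_D12 := by
  intro d μ hd hμ
  obtain ⟨hc1, -⟩ := h8 d hd
  obtain ⟨g, C, c, hPot⟩ := h1 d hd
  have h9' := h9 d g C c hd hPot
  obtain ⟨M, a, ha, hdec⟩ := h11 d hd
  let a0 : Fin d := ⟨0, by omega⟩
  let a1 : Fin d := ⟨1, by omega⟩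
  have hmap : ∀ u, (μ u).map (fun I => {x : Pt | emb d x ∈ I}) = (μ u).map (pre d) := fun u => rfl
  have hreal : ∀ u, 0 < u → ∀ A : Set (Set Pt), MeasurableSet A →
      ((μ u).map (fun I => {x : Pt | emb d x ∈ I})).real A = (μ u).real (pre d ⁻¹' A) := by
    intro u hu A hA
    rw [hmap, map_measureReal_apply measurable_pre hA]
  refine
    { void := ⟨?_, ?_⟩
      c0 := ?_
      shift := ?_
      refl := ?_
      swap := ?_
      mix := ?_
      dec := ⟨M, a, ha, ?_⟩ }
  · intro u hu
    have := (hμ u hu).prob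
    rw [hmap]
    exact Measure.isProbabilityMeasure_map measurable_pre.aemeasurable
  · intro u hu K
    have hmeas : MeasurableSet {I : Set Pt | ∀ x ∈ K, x ∉ I} := by
      refine local_measurable K _ fun I J hIJ => ?_
      constructor
      · intro h x hx hxJ
        exact h x hx ((hIJ x hx).2 hxJ)
      · intro h x hx hxI
        exact h x hx ((hIJ x hx).1 hxI)
    rw [hmap, Measure.map_apply measurable_pre hmeas, ← (hμ u hu).void (K.image (emb d))]
    congr 1
    ext I
    simp only [Set.mem_preimage, pre, Set.mem_ofPred_eq, Finset.forall_mem_image]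
  · show cap ((∅ : Finset Pt).image (emb d)) = 0
    rw [Finset.image_empty]
    exact cap_empty
  · intro K z
    show cap ((K.image fun x => x + z).image (emb d)) = cap (K.image (emb d))
    rw [image_image_eq K (fun x => x + z) (fun y => y + emb d z) fun x => emb_add x z]
    exact hc1 (Equiv.addRight (emb d z)) (Equiv.refl _) (fun x i => by
      simp only [Equiv.coe_addRight, Equiv.refl_apply]
      abel) _
  · intro K
    show cap ((K.image fun x => ((-x.1, x.2) : Pt)).image (emb d)) = cap (K.image (emb d))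
    rw [image_image_eq K (fun x => ((-x.1, x.2) : Pt)) s0 emb_refl]
    exact hc1 s0_inv.toPerm p0_inv.toPerm (fun x i => s0_uvec x i) _
  · intro K
    show cap ((K.image Prod.swap).image (emb d)) = cap (K.image (emb d))
    rw [image_image_eq K Prod.swap (D12x.sw a0 a1) (emb_swap a0 a1 rfl rfl)]
    exact hc1 (sw_inv a0 a1).toPerm (Equiv.prodCongr (Equiv.swap a0 a1) (Equiv.refl Bool))
      (fun x i => sw_uvec a0 a1 x i) _
  · intro K K'
    have h2 := h9' (K.image (emb d)) (K'.image (emb d)) a0
    refine h2.congr fun k => ?_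
    show _ = cap ((K ∪ K'.image fun x => x + (((k : ℤ), 0) : Pt)).image (emb d))
    rw [Finset.image_union, image_image_eq K' (fun x => x + (((k : ℤ), 0) : Pt))
      (fun y => y + Pi.single a0 (k : ℤ)) fun x => by rw [emb_add, emb_single a0 rfl]]
  · intro u hu n hn z z' hz A A' hA hA' hU hU' L hL hL' h3 h4
    have hAm : MeasurableSet A := local_measurable _ _ hA
    have hAm' : MeasurableSet A' := local_measurable _ _ hA'
    rw [hreal u hu A hAm] at h3
    rw [hreal u hu A' hAm'] at h4
    rw [hreal u hu _ (hAm.inter hAm')]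
    refine hdec μ hμ u hu n hn (emb d z) (emb d z') ?_ (pre d ⁻¹' A) (pre d ⁻¹' A')
      (local_pre _ z A hA) (local_pre _ z' A' hA') (up_pre A hU) (up_pre A' hU') L hL hL' h3 h4
    rcases hz with hz | hz
    · exact ⟨a0, hz⟩
    · exact ⟨a1, hz⟩

end PLS
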