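import Pool.Agent.PLS.StP

/-!
# PLS, P1: locality and monotonicity of the events, the infinite cluster as a limit
-/

set_option autoImplicit false
set_option linter.unusedVariables false

open Finset Filter Topology MeasureTheory RInt

noncomputable section

namespace PLS

namespace P1x

theorem con_mono {V W : Set Pt} (h : V ⊆ W) {x y : Pt} (hc : Con V x y) : Con W x y := by
  obtain ⟨hx, h2⟩ := hc
  refine ⟨h hx, ?_⟩
  induction h2 with
  | refl => exact Relation.ReflTransGen.refl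
  | tail _ hab ih => exact ih.tail ⟨h hab.1, h hab.2.1, hab.2.2⟩

theorem scon_mono {V W : Set Pt} (h : V ⊆ W) {x y : Pt} (hc : SCon V x y) : SCon W x y := by
  obtain ⟨hx, h2⟩ := hc
  refine ⟨h hx, ?_⟩
  induction h2 with
  | refl => exact Relation.ReflTransGen.refl
  | tail _ hab ih => exact ih.tail ⟨h hab.1, h hab.2.1, hab.2.2⟩

theorem inter_eq {I J : Set Pt} {K K' : Finset Pt} (hK : K' ⊆ K) (h : ∀ x ∈ K, x ∈ I ↔ x ∈ J) :
    Iᶜ ∩ (K' : Set Pt) = Jᶜ ∩ (K' : Set Pt) := by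
  ext x
  simp only [Set.mem_inter_iff, Set.mem_compl_iff, mem_coe]
  constructor
  · rintro ⟨h1, h2⟩
    exact ⟨fun h3 => h1 ((h x (hK h2)).2 h3), h2⟩
  · rintro ⟨h1, h2⟩
    exact ⟨fun h3 => h1 ((h x (hK h2)).1 h3), h2⟩

theorem inter_eq' {I J : Set Pt} {K : Finset Pt} (h : ∀ x ∈ K, x ∈ I ↔ x ∈ J) :
    I ∩ (K : Set Pt) = J ∩ (K : Set Pt) := by
  ext x
  simp only [Set.mem_inter_iff, mem_coe]
  constructor
  · rintro ⟨h1, h2⟩
    exact ⟨(h x h2).1 h1, h2⟩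
  · rintro ⟨h1, h2⟩
    exact ⟨(h x h2).2 h1, h2⟩

theorem lr_mono {V W : Set Pt} (h : V ⊆ W) {a b c d : ℤ} (hc : LR V a b c d) : LR W a b c d := by
  obtain ⟨x, y, hx, hy, hxy⟩ := hc
  exact ⟨x, y, hx, hy, con_mono (Set.inter_subset_inter_left _ h) hxy⟩

theorem tb_mono {V W : Set Pt} (h : V ⊆ W) {a b c d : ℤ} (hc : TB V a b c d) : TB W a b c d := by
  obtain ⟨x, y, hx, hy, hxy⟩ := hc
  exact ⟨x, y, hx, hy, con_mono (Set.inter_subset_inter_left _ h) hxy⟩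

theorem lr_local {K : Finset Pt} {a b c d : ℤ} (hK : Rc a b c d ⊆ K) :
    Local K {I : Set Pt | LR Iᶜ a b c d} := by
  intro I J hIJ
  simp only [Set.mem_ofPred_eq, LR, inter_eq hK hIJ]

theorem tb_local {K : Finset Pt} {a b c d : ℤ} (hK : Rc a b c d ⊆ K) :
    Local K {I : Set Pt | TB Iᶜ a b c d} := by
  intro I J hIJ
  simp only [Set.mem_ofPred_eq, TB, inter_eq hK hIJ]

theorem lr_dn (a b c d : ℤ) : Dn {I : Set Pt | LR Iᶜ a b c d} :=
  fun _ hI _ hJ => lr_mono (Set.compl_subset_compl.2 hJ) hI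

theorem tb_dn (a b c d : ℤ) : Dn {I : Set Pt | TB Iᶜ a b c d} :=
  fun _ hI _ hJ => tb_mono (Set.compl_subset_compl.2 hJ) hI

theorem mem_Rc {a b c d : ℤ} {x : Pt} :
    x ∈ Rc a b c d ↔ (a ≤ x.1 ∧ x.1 ≤ b) ∧ c ≤ x.2 ∧ x.2 ≤ d := by
  simp [Rc, Finset.mem_product, Finset.mem_Icc]

theorem mem_Bx {z : Pt} {n : ℕ} {x : Pt} :
    x ∈ Bx z n ↔ (z.1 - n ≤ x.1 ∧ x.1 ≤ z.1 + n) ∧ z.2 - n ≤ x.2 ∧ x.2 ≤ z.2 + n := mem_Rc

theorem Rc_sub {z : Pt} {n : ℕ} {a b c d : ℤ} (h1 : z.1 - 3 * n ≤ a) (h2 : b ≤ z.1 + 3 * n)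
    (h3 : z.2 - 3 * n ≤ c) (h4 : d ≤ z.2 + 3 * n) : Rc a b c d ⊆ Bx z (3 * n) := by
  intro x hx
  rw [mem_Rc] at hx
  rw [mem_Bx]
  push_cast
  omega

theorem Bx_mono {z : Pt} {m n : ℕ} (h : m ≤ n) : Bx z m ⊆ Bx z n := by
  intro x hx
  rw [mem_Bx] at hx ⊢
  omega

theorem not_mem_of_Sp {n N : ℕ} (h : N < n) {y : Pt} (hy : y ∈ Sp 0 n) : y ∉ Bx 0 N := by
  intro hB
  rw [mem_Bx] at hB
  have h2 := (Finset.mem_filter.1 hy).2
  simp only [Prod.fst_zero, Prod.snd_zero, sub_zero, zero_add, zero_sub] at hB h2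
  rcases h2 with h2 | h2
  · have : |y.1| ≤ N := abs_le.2 ⟨hB.1.1, hB.1.2⟩
    rw [h2] at this
    exact absurd this (by omega)
  · have : |y.2| ≤ N := abs_le.2 ⟨hB.2.1, hB.2.2⟩
    rw [h2] at this
    exact absurd this (by omega)

theorem exists_box {S : Set Pt} (hS : S.Finite) : ∃ N : ℕ, ∀ y ∈ S, y ∈ Bx 0 N := by
  refine ⟨hS.toFinset.sup fun y => y.1.natAbs + y.2.natAbs, fun y hy => ?_⟩
  have h1 : y.1.natAbs + y.2.natAbs ≤ hS.toFinset.sup fun y => y.1.natAbs + y.2.natAbs :=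
    Finset.le_sup (f := fun y : Pt => y.1.natAbs + y.2.natAbs) (hS.mem_toFinset.2 hy)
  rw [mem_Bx]
  simp only [Prod.fst_zero, Prod.snd_zero, zero_add, zero_sub]
  omega

/-- the arm event -/
def E (m n : ℕ) : Set (Set Pt) := {I : Set Pt | Ar Iᶜ 0 m n (Sp 0 n)}

/-- the event that the cluster of some point is infinite -/
def EI (m : ℕ) : Set (Set Pt) := {I : Set Pt | ∃ x ∈ Bx 0 m, {y | Con Iᶜ x y}.Infinite}

theorem arm_local (z : Pt) (m n : ℕ) (F : Set Pt) :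
    Local (Bx z n) {I : Set Pt | Ar Iᶜ z m n F} := by
  intro I J hIJ
  simp only [Set.mem_ofPred_eq, Ar, inter_eq (Finset.Subset.refl _) hIJ]

theorem E_succ (hT0 : St_T0) {m n : ℕ} (h : m ≤ n) : E m (n + 1) ⊆ E m n := by
  rintro I ⟨x, hx, y, hy, hxy⟩
  have h9 := hT0.2.2.2.2.2.2.2.2.1 (Iᶜ ∩ Bx 0 (n + 1)) 0 x y n (Bx_mono h hx)
    (Or.inl (not_mem_of_Sp (Nat.lt_succ_self n) hy)) hxy
  obtain ⟨y', hy', hc⟩ := h9
  refine ⟨x, hx, y', hy', con_mono ?_ hc⟩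
  intro w hw
  exact ⟨hw.1.1, hw.2⟩

theorem EI_sub (hT0 : St_T0) {m n : ℕ} (h : m ≤ n) : EI m ⊆ E m n := by
  rintro I ⟨x, hx, hinf⟩
  obtain ⟨y, hy, hyB⟩ := hinf.exists_notMem_finset (Bx 0 n)
  obtain ⟨y', hy', hc⟩ := hT0.2.2.2.2.2.2.2.2.1 Iᶜ 0 x y n (Bx_mono h hx) (Or.inl hyB) hy
  exact ⟨x, hx, y', hy', hc⟩

theorem EI_eq (hT0 : St_T0) (m : ℕ) : EI m = ⋂ n : ℕ, E m (m + n) := by
  apply Set.Subset.antisymm
  · exact Set.subset_iInter fun n => EI_sub hT0 (Nat.le_add_right m n)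
  · intro I hI
    rw [Set.mem_iInter] at hI
    by_contra hcon
    have hfin : ∀ x ∈ Bx 0 m, {y | Con Iᶜ x y}.Finite := by
      intro x hx
      by_contra hx2
      exact hcon ⟨x, hx, hx2⟩
    have hU : (⋃ x ∈ (Bx 0 m : Finset Pt), {y | Con Iᶜ x y}).Finite :=
      Set.Finite.biUnion (Bx 0 m).finite_toSet fun x hx => hfin x hx
    obtain ⟨N, hN⟩ := exists_box hU
    obtain ⟨x, hx, y, hy, hxy⟩ := hI (N + 1)
    refine not_mem_of_Sp (by omega : N < m + (N + 1)) hy (hN y ?_)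
    rw [Set.mem_iUnion₂]
    exact ⟨x, hx, con_mono Set.inter_subset_left hxy⟩

end P1x

open P1x

theorem P1 (hT0 : St_T0) : St_P1 := by
  refine ⟨?_, ?_, ?_, ?_, ?_, ?_, ?_⟩
  · intro z m n F
    refine ⟨arm_local z m n F, ?_⟩
    rintro I ⟨x, hx, y, hy, hxy⟩ J hJ
    exact ⟨x, hx, y, hy, con_mono (Set.inter_subset_inter_left _ (Set.compl_subset_compl.2 hJ)) hxy⟩
  · exact fun a b c d => ⟨lr_local (Finset.Subset.refl _), lr_dn a b c d⟩
  · exact fun a b c d => ⟨tb_local (Finset.Subset.refl _), tb_dn a b c d⟩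
  · intro z m n I J hIJ
    simp only [Set.mem_ofPred_eq, Hub, inter_eq (Finset.Subset.refl _) hIJ]
  · intro z n
    have s1 : Rc (z.1 - 3 * n) (z.1 + 3 * n) (z.2 + n + 1) (z.2 + 3 * n) ⊆ Bx z (3 * n) :=
      Rc_sub (by omega) (by omega) (by omega) (by omega)
    have s2 : Rc (z.1 - 3 * n) (z.1 + 3 * n) (z.2 - 3 * n) (z.2 - n - 1) ⊆ Bx z (3 * n) :=
      Rc_sub (by omega) (by omega) (by omega) (by omega)
    have s3 : Rc (z.1 + n + 1) (z.1 + 3 * n) (z.2 - 3 * n) (z.2 + 3 * n) ⊆ Bx z (3 * n) :=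
      Rc_sub (by omega) (by omega) (by omega) (by omega)
    have s4 : Rc (z.1 - 3 * n) (z.1 - n - 1) (z.2 - 3 * n) (z.2 + 3 * n) ⊆ Bx z (3 * n) :=
      Rc_sub (by omega) (by omega) (by omega) (by omega)
    constructor
    · intro I J hIJ
      have e1 := lr_local s1 I J hIJ
      have e2 := lr_local s2 I J hIJ
      have e3 := tb_local s3 I J hIJ
      have e4 := tb_local s4 I J hIJ
      exact and_congr e1 (and_congr e2 (and_congr e3 e4))
    · rintro I ⟨h1, h2, h3, h4⟩ J hJ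
      exact ⟨lr_dn _ _ _ _ I h1 J hJ, lr_dn _ _ _ _ I h2 J hJ, tb_dn _ _ _ _ I h3 J hJ,
        tb_dn _ _ _ _ I h4 J hJ⟩
  · intro z n
    constructor
    · intro I J hIJ
      simp only [Set.mem_ofPred_eq, An, inter_eq' hIJ]
    · rintro I ⟨x, hx, y, hy, hxy⟩ J hJ
      exact ⟨x, hx, y, hy, scon_mono (Set.inter_subset_inter_left _ hJ) hxy⟩
  · intro ν hν m
    have hanti : Antitone fun n => E m (m + n) :=
      antitone_nat_of_succ_le fun n => E_succ hT0 (Nat.le_add_right m n)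
    refine ⟨?_, ?_, ?_⟩
    · intro a b hab
      exact measureReal_mono (hanti hab)
    · have hmeas : ∀ n, MeasurableSet (E m (m + n)) := fun n =>
        local_measurable _ _ (arm_local 0 m (m + n) _)
      have h1 : Tendsto (fun n => ν (E m (m + n))) atTop (𝓝 (ν (⋂ n : ℕ, E m (m + n)))) :=
        tendsto_measure_iInter_atTop (fun n => (hmeas n).nullMeasurableSet) hanti
          ⟨0, measure_ne_top ν _⟩
      rw [← EI_eq hT0 m] at h1
      have h2 : Tendsto (fun n => ν.real (E m (m + n))) atTop (𝓝 (ν.real (EI m))) :=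
        (ENNReal.tendsto_toReal (measure_ne_top ν _)).comp h1
      rw [← tendsto_add_atTop_iff_nat m]
      refine h2.congr fun n => ?_
      rw [add_comm m n]
      rfl
    · intro n hn
      exact measureReal_mono (EI_sub hT0 hn)

end PLS
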