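import Pool.Agent.PLS.StT

/-!
PLS T0: elementary facts on paths.
-/

set_option autoImplicit false
set_option linter.unusedVariables false

open Finset Filter Topology MeasureTheory RInt

noncomputable section

namespace PLS

namespace T0x

/-- a path in `V` with steps `R` -/
def P (R : Pt → Pt → Prop) (V : Set Pt) (x y : Pt) : Prop :=
  x ∈ V ∧ Relation.ReflTransGen (fun a b => a ∈ V ∧ b ∈ V ∧ R a b) x y

lemma con_eq : Con = P nn := rfl

lemma scon_eq : SCon = P st := rfl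

variable {R : Pt → Pt → Prop}

lemma P.right {V : Set Pt} {x y : Pt} (h : P R V x y) : y ∈ V := by
  obtain ⟨h1, h2⟩ := h
  cases h2 with
  | refl => exact h1
  | tail _ h3 => exact h3.2.1

lemma P.symm (hR : ∀ a b, R a b → R b a) {V : Set Pt} {x y : Pt} (h : P R V x y) : P R V y x := by
  refine ⟨h.right, ?_⟩
  obtain ⟨_, h2⟩ := h
  induction h2 with
  | refl => exact Relation.ReflTransGen.refl
  | tail _ h4 ih => exact Relation.ReflTransGen.head ⟨h4.2.1, h4.1, hR _ _ h4.2.2⟩ ih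

lemma P.trans {V : Set Pt} {x y z : Pt} (h : P R V x y) (h' : P R V y z) : P R V x z :=
  ⟨h.1, h.2.trans h'.2⟩

lemma P.mono {V W : Set Pt} (hVW : V ⊆ W) {x y : Pt} (h : P R V x y) : P R W x y :=
  ⟨hVW h.1, Relation.ReflTransGen.mono
    (fun a b (hab : a ∈ V ∧ b ∈ V ∧ R a b) => ⟨hVW hab.1, hVW hab.2.1, hab.2.2⟩) _ _ h.2⟩

lemma P.own {V : Set Pt} {x y : Pt} (h : P R V x y) : P R {z | P R V x z} x y := by
  obtain ⟨h1, h2⟩ := h
  refine ⟨⟨h1, Relation.ReflTransGen.refl⟩, ?_⟩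
  induction h2 with
  | refl => exact Relation.ReflTransGen.refl
  | tail h3 h4 ih => exact ih.tail ⟨⟨h1, h3⟩, ⟨h1, h3.tail h4⟩, h4.2.2⟩

lemma P.exit {V D : Set Pt} {x y : Pt} (hx : x ∈ D) (h : P R V x y) : P R (V ∩ D) x y ∨
    ∃ a b, P R (V ∩ D) x a ∧ b ∉ D ∧ R a b ∧ P R V b y := by
  obtain ⟨h1, h2⟩ := h
  induction h2 with
  | refl => exact Or.inl ⟨⟨h1, hx⟩, Relation.ReflTransGen.refl⟩
  | @tail b c h3 h4 ih =>
    rcases ih with h5 | ⟨a, b', h5, h6, h7, h8⟩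
    · by_cases hc : c ∈ D
      · exact Or.inl ⟨h5.1, h5.2.tail ⟨h5.right, ⟨h4.2.1, hc⟩, h4.2.2⟩⟩
      · exact Or.inr ⟨b, c, h5, hc, h4.2.2, h4.2.1, Relation.ReflTransGen.refl⟩
    · exact Or.inr ⟨a, b', h5, h6, h7, h8.1, h8.2.tail h4⟩

lemma mem_Bx {z x : Pt} {n : ℕ} : x ∈ Bx z n ↔
    (z.1 - n ≤ x.1 ∧ x.1 ≤ z.1 + n) ∧ (z.2 - n ≤ x.2 ∧ x.2 ≤ z.2 + n) := by
  unfold Bx Rc
  rw [Finset.mem_product, Finset.mem_Icc, Finset.mem_Icc]

lemma mem_Sp {z x : Pt} {n : ℕ} : x ∈ Sp z n ↔ x ∈ Bx z n ∧ (|x.1 - z.1| = n ∨ |x.2 - z.2| = n) := by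
  unfold Sp
  rw [Finset.mem_filter]

lemma sp_of_exit {z a b : Pt} {n : ℕ} (ha : a ∈ Bx z n) (hb : b ∉ Bx z n) (h : st a b) :
    a ∈ Sp z n := by
  rw [mem_Sp]
  refine ⟨ha, ?_⟩
  rw [mem_Bx] at ha hb
  obtain ⟨h1, h2⟩ := h
  rw [abs_le] at h1 h2
  by_contra hcon
  push Not at hcon
  apply hb
  obtain ⟨h3, h4⟩ := hcon
  rcases abs_cases (a.1 - z.1) with h5 | h5 <;> rcases abs_cases (a.2 - z.2) with h6 | h6 <;>
    refine ⟨⟨?_, ?_⟩, ?_, ?_⟩ <;> omega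

lemma nn_st {a b : Pt} (h : nn a b) : st a b := by
  unfold st
  rw [abs_le, abs_le]
  unfold nn at h
  omega

lemma nn_symm (a b : Pt) (h : nn a b) : nn b a := by
  unfold nn at h ⊢
  omega

lemma st_symm (a b : Pt) (h : st a b) : st b a := by
  unfold st at h ⊢
  rw [abs_le, abs_le] at h ⊢
  omega

lemma P.sphere (hR : ∀ a b, R a b → st a b) {V : Set Pt} {z x y : Pt} {n : ℕ} (hx : x ∈ Bx z n)
    (hy : y ∉ Bx z n ∨ y ∈ Sp z n) (h : P R V x y) :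
    ∃ y' ∈ Sp z n, P R (V ∩ Bx z n) x y' := by
  rcases h.exit (D := (Bx z n : Set Pt)) (Finset.mem_coe.2 hx) with h1 | ⟨a, b, h1, h2, h3, _⟩
  · rcases hy with hy | hy
    · exact absurd (Finset.mem_coe.1 h1.right.2) hy
    · exact ⟨y, hy, h1⟩
  · exact ⟨a, sp_of_exit (Finset.mem_coe.1 h1.right.2) (fun h4 => h2 (Finset.mem_coe.2 h4))
      (hR _ _ h3), h1⟩

end T0x

open T0x in
theorem T0 : St_T0 := by
  refine ⟨?_, ?_, ?_, ?_, ?_, ?_, ?_, ?_, ?_, ?_⟩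
  · intro V x y h
    rw [con_eq] at *
    exact ⟨h.right, h.symm nn_symm, h.own⟩
  · intro V x y h
    rw [scon_eq] at *
    exact ⟨h.right, h.symm st_symm, h.own⟩
  · intro V x y z h h'
    rw [con_eq] at *
    exact P.trans h h'
  · intro V x y z h h'
    rw [scon_eq] at *
    exact P.trans h h'
  · intro V W x y hVW
    rw [con_eq, scon_eq]
    exact ⟨P.mono hVW, P.mono hVW⟩
  · rintro V x y ⟨h1, h2⟩
    exact ⟨h1, Relation.ReflTransGen.mono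
      (fun a b (hab : a ∈ V ∧ b ∈ V ∧ nn a b) => ⟨hab.1, hab.2.1, nn_st hab.2.2⟩) _ _ h2⟩
  · intro V D x y hx h
    rw [con_eq] at *
    exact P.exit hx h
  · intro V D x y hx h
    rw [scon_eq] at *
    exact P.exit hx h
  · intro V z x y n hx hy h
    rw [con_eq] at *
    exact P.sphere (fun a b h => nn_st h) hx hy h
  · intro V z x y n hx hy h
    rw [scon_eq] at *
    exact P.sphere (fun a b h => h) hx hy h

end PLS
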