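import Pool.Agent.PLS.StD
import Pool.Agent.PLS.P1
import Pool.Agent.PLS.T0

/-!
# PLS [D13]: the clusters of the plane (helper74 for helper47)
-/

set_option autoImplicit false
set_option linter.unusedVariables false

open Finset Filter Topology MeasureTheory RInt

noncomputable section

namespace PLS

namespace D13x

variable {d : ℕ}

/-- the plane -/
def Pl (d : ℕ) : Set (Fin d → ℤ) := {x : Fin d → ℤ | ∀ i : Fin d, 2 ≤ i.val → x i = 0}

/-- the preimage in the plane -/
def pre (d : ℕ) (I : Set (Fin d → ℤ)) : Set Pt := {x : Pt | emb d x ∈ I}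

theorem measurable_pre : Measurable (pre d) := by
  rw [measurable_set_iff]
  intro a
  exact measurable_set_mem (emb d a)

theorem emb_zero : emb d 0 = 0 := by
  funext i
  simp [emb]

theorem emb_mem (x : Pt) : emb d x ∈ Pl d := by
  intro i hi
  have h0 : i.val ≠ 0 := by omega
  have h1 : i.val ≠ 1 := by omega
  simp [emb, h0, h1]

theorem uvec_apply (j : Fin d) (b : Bool) (i : Fin d) :
    uvec (j, b) i = if i = j then (if b then 1 else -1) else 0 := by
  unfold uvec
  cases b <;> by_cases h : i = j <;> simp [h, Pi.single_apply]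

theorem nn_emb (h2 : 2 ≤ d) (a b : Pt) : nn a b ↔ ∃ i, emb d b = emb d a + uvec i := by
  have h0d : 0 < d := by omega
  have h1d : 1 < d := by omega
  constructor
  · intro h
    have key : ∀ (j : Fin d) (s : Bool),
        (∀ i : Fin d, emb d b i = emb d a i + if i = j then (if s then 1 else -1) else 0) →
        ∃ i, emb d b = emb d a + uvec i := by
      intro j s hj
      refine ⟨(j, s), ?_⟩
      funext i
      rw [Pi.add_apply, uvec_apply]
      exact hj i
    rcases h with ⟨h1, h2 | h2⟩ | ⟨h1, h2 | h2⟩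
    · refine key ⟨1, h1d⟩ false fun i => ?_
      simp only [emb, Fin.ext_iff]
      split_ifs <;> first | omega | simp_all
    · refine key ⟨1, h1d⟩ true fun i => ?_
      simp only [emb, Fin.ext_iff]
      split_ifs <;> first | omega | simp_all
    · refine key ⟨0, h0d⟩ false fun i => ?_
      simp only [emb, Fin.ext_iff]
      split_ifs <;> first | omega | simp_all
    · refine key ⟨0, h0d⟩ true fun i => ?_
      simp only [emb, Fin.ext_iff]
      split_ifs <;> first | omega | simp_all
  · rintro ⟨⟨j, s⟩, h⟩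
    have hk : ∀ i : Fin d, emb d b i = emb d a i + if i = j then (if s then 1 else -1) else 0 := by
      intro i
      rw [← uvec_apply, h, Pi.add_apply]
    have e0 := hk ⟨0, h0d⟩
    have e1 := hk ⟨1, h1d⟩
    have ej := hk j
    simp only [emb, Fin.ext_iff] at e0 e1 ej
    rcases Nat.lt_or_ge j.val 2 with hj | hj
    · have hj' : j.val = 0 ∨ j.val = 1 := by omega
      rcases hj' with hj' | hj'
      · rw [hj'] at e0 e1
        cases s
        · simp at e0 e1
          exact Or.inr ⟨e1.symm, Or.inl (by omega)⟩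
        · simp at e0 e1
          exact Or.inr ⟨e1.symm, Or.inr (by omega)⟩
      · rw [hj'] at e0 e1
        cases s
        · simp at e0 e1
          exact Or.inl ⟨e0.symm, Or.inl (by omega)⟩
        · simp at e0 e1
          exact Or.inl ⟨e0.symm, Or.inr (by omega)⟩
    · exfalso
      have h0 : j.val ≠ 0 := by omega
      have h1 : j.val ≠ 1 := by omega
      cases s <;> simp [h0, h1] at ej

/-- the coordinates in the plane -/
def pr (h2 : 2 ≤ d) (x : Fin d → ℤ) : Pt := (x ⟨0, by omega⟩, x ⟨1, by omega⟩)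

theorem emb_pr (h2 : 2 ≤ d) (x : Fin d → ℤ) (hx : x ∈ Pl d) : emb d (pr h2 x) = x := by
  funext i
  unfold emb pr
  split_ifs with h0 h1
  · exact congrArg x (Fin.ext h0.symm)
  · exact congrArg x (Fin.ext h1.symm)
  · exact (hx i (by omega)).symm

theorem pr_emb (h2 : 2 ≤ d) (y : Pt) : pr h2 (emb d y) = y := by
  simp [emb, pr]

theorem clus_eq (h2 : 2 ≤ d) (I : Set (Fin d → ℤ)) :
    clus (Pl d \ I) = emb d '' {y | Con (pre d I)ᶜ 0 y} := by
  ext x
  constructor
  · rintro ⟨h0, hx⟩
    have hxP : x ∈ Pl d := by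
      induction hx with
      | refl => exact h0.1
      | tail _ h _ => exact h.2.1.1
    refine ⟨pr h2 x, ⟨?_, ?_⟩, emb_pr h2 x hxP⟩
    · show ¬ emb d 0 ∈ I
      rw [emb_zero]
      exact h0.2
    · have h1 : pr h2 0 = (0 : Pt) := rfl
      rw [← h1]
      refine Relation.ReflTransGen.lift (pr h2) ?_ _ _ hx
      rintro a b ⟨ha, hb, i, hi⟩
      refine ⟨?_, ?_, (nn_emb h2 _ _).2 ⟨i, ?_⟩⟩
      · show ¬ emb d (pr h2 a) ∈ I
        rw [emb_pr h2 a ha.1]
        exact ha.2
      · show ¬ emb d (pr h2 b) ∈ I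
        rw [emb_pr h2 b hb.1]
        exact hb.2
      · rw [emb_pr h2 a ha.1, emb_pr h2 b hb.1]
        exact hi
  · rintro ⟨y, ⟨h0, hy⟩, rfl⟩
    have h0' : (0 : Fin d → ℤ) ∈ Pl d \ I := by
      refine ⟨fun i _ => rfl, ?_⟩
      rw [← emb_zero (d := d)]
      exact h0
    refine ⟨h0', ?_⟩
    rw [← emb_zero (d := d)]
    refine Relation.ReflTransGen.lift (emb d) ?_ _ _ hy
    rintro a b ⟨ha, hb, hn⟩
    exact ⟨⟨emb_mem a, ha⟩, ⟨emb_mem b, hb⟩, (nn_emb h2 a b).1 hn⟩

theorem emb_inj (h2 : 2 ≤ d) : Function.Injective (emb d) := fun x y h => by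
  rw [← pr_emb h2 x, ← pr_emb h2 y, h]

theorem meas_inf : MeasurableSet {J : Set Pt | {y | Con Jᶜ 0 y}.Infinite} := by
  have h1 : {J : Set Pt | {y | Con Jᶜ 0 y}.Infinite} = P1x.EI 0 := by
    ext J
    constructor
    · intro h
      refine ⟨0, ?_, h⟩
      rw [P1x.mem_Bx]
      simp
    · rintro ⟨x, hx, h⟩
      rw [P1x.mem_Bx] at hx
      have : x = 0 := by
        simp only [Prod.fst_zero, Prod.snd_zero, Nat.cast_zero, sub_zero, add_zero] at hx
        ext
        · simp only [Prod.fst_zero]; omega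
        · simp only [Prod.snd_zero]; omega
      rw [this] at h
      exact h
  rw [h1, P1x.EI_eq T0 0]
  exact MeasurableSet.iInter fun n => local_measurable _ _ (P1x.arm_local 0 0 (0 + n) _)

end D13x

open D13x

theorem D13 : St_D13 := by
  intro d μ u hd
  have h2 : 2 ≤ d := by omega
  have h1 : {I : Set (Fin d → ℤ) |
      (clus ({x : Fin d → ℤ | ∀ i : Fin d, 2 ≤ i.val → x i = 0} \ I)).Infinite} =
      pre d ⁻¹' {J : Set Pt | {y | Con Jᶜ 0 y}.Infinite} := by
    ext I
    show (clus (Pl d \ I)).Infinite ↔ {y | Con (pre d I)ᶜ 0 y}.Infinite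
    rw [clus_eq h2]
    exact Set.infinite_image_iff (emb_inj h2).injOn
  rw [h1]
  show _ = ((μ u).map (pre d)).real {J : Set Pt | {y | Con Jᶜ 0 y}.Infinite}
  rw [map_measureReal_apply measurable_pre meas_inf]

end PLS
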