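import Pool.Agent.PLS.D1

set_option autoImplicit false
set_option linter.unusedVariables false

open Finset

noncomputable section

namespace PLS

open D1x in
theorem D2 : St_D2 := by
  intro α _ Θ r s h t
  induction Θ using Finset.induction_on generalizing h with
  | empty =>
    rw [Finset.sum_empty]
    have : (fun t : ℝ => BE ∅ (fun T => r T + t * s T) h) = fun _ => h ∅ := by
      funext t
      rw [BE_empty]
    rw [this]
    exact hasDerivAt_const t _
  | insert T Θ hT ih =>
    have e : (fun t : ℝ => BE (insert T Θ) (fun T => r T + t * s T) h) = fun t : ℝ =>
        Real.exp (-(r T + t * s T)) * BE Θ (fun T => r T + t * s T) h +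
          (1 - Real.exp (-(r T + t * s T))) *
            BE Θ (fun T => r T + t * s T) (fun B => h (insert T B)) := by
      funext t
      rw [BE_insert Θ _ T _ hT]
    rw [e]
    have d0 : HasDerivAt (fun t : ℝ => Real.exp (-(r T + t * s T)))
        (Real.exp (-(r T + t * s T)) * (-s T)) t := by
      have := (((hasDerivAt_id t).mul_const (s T)).const_add (r T)).neg.exp
      simpa using this
    have d1 := (d0.mul (ih h)).add ((d0.const_sub 1).mul (ih fun B => h (insert T B)))
    refine d1.congr_deriv ?_
    rw [Finset.sum_insert hT, BE_insert Θ _ T _ hT]
    have a1 : BE Θ (fun T => r T + t * s T)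
        (fun B => h (insert T (insert T B)) - h (insert T B)) = 0 := by
      have : BE Θ (fun T => r T + t * s T)
          (fun B => h (insert T (insert T B)) - h (insert T B)) =
          BE Θ (fun T => r T + t * s T) (fun _ => 0) :=
        BE_congr (fun _ _ => rfl) fun B _ => by rw [Finset.insert_idem, sub_self]
      rw [this, BE_const]
    have sub : ∀ f g : Finset α → ℝ, BE Θ (fun T => r T + t * s T) (fun B => f B - g B) =
        BE Θ (fun T => r T + t * s T) f - BE Θ (fun T => r T + t * s T) g := by
      intro f g
      have := BE_lin Θ (fun T => r T + t * s T) 1 (-1) f g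
      have e' : (fun B => 1 * f B + -1 * g B) = fun B => f B - g B := by
        funext B
        ring
      rw [e'] at this
      rw [this]
      ring
    have a2 : ∀ T' ∈ Θ, s T' * BE (insert T Θ) (fun T => r T + t * s T)
        (fun B => h (insert T' B) - h B) =
        Real.exp (-(r T + t * s T)) * (s T' * BE Θ (fun T => r T + t * s T)
          (fun B => h (insert T' B) - h B)) +
        (1 - Real.exp (-(r T + t * s T))) * (s T' * BE Θ (fun T => r T + t * s T)
          (fun B => h (insert T (insert T' B)) - h (insert T B))) := by
      intro T' _
      rw [BE_insert Θ _ T _ hT]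
      have : (fun B => h (insert T' (insert T B)) - h (insert T B)) =
          fun B => h (insert T (insert T' B)) - h (insert T B) := by
        funext B
        rw [Finset.insert_comm]
      rw [this]
      ring
    rw [Finset.sum_congr rfl a2, Finset.sum_add_distrib, ← Finset.mul_sum, ← Finset.mul_sum, a1,
      sub (fun B => h (insert T B)) h]
    ring

end PLS
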