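import Pool.Agent.PLS.D1

set_option autoImplicit false
set_option linter.unusedVariables false

open Finset

noncomputable section

namespace PLS

namespace D3x

theorem ratio {x : ℝ} (hx : 0 < x) : x / (1 - Real.exp (-x)) ≤ 1 + x := by
  have h0 : 0 < 1 - Real.exp (-x) := by
    have := Real.exp_lt_one_iff.2 (neg_neg_of_pos hx)
    linarith
  rw [div_le_iff₀ h0]
  -- x ≤ (1+x)(1 - e^{-x}) iff (1+x) e^{-x} ≤ 1
  have h1 : (1 + x) * Real.exp (-x) ≤ 1 := by
    have a := Real.add_one_le_exp x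
    have b := mul_le_mul_of_nonneg_right a (Real.exp_pos (-x)).le
    rw [← Real.exp_add, add_neg_cancel, Real.exp_zero] at b
    linarith
  nlinarith

theorem coef {w r u : ℝ} (hu : 0 < u) (hw : 0 ≤ w) (hr : u * w ≤ r) (y : ℝ) (hy : 0 ≤ y)  :
    w * y ≤ (w + 1 / u) * ((1 - Real.exp (-r)) * y) := by
  rcases hw.eq_or_lt with h | h
  · rw [← h, zero_mul, zero_add]
    have hr0 : 0 ≤ r := by
      have : u * w = 0 := by rw [← h, mul_zero]
      linarith
    have := Real.exp_le_one_iff.2 (neg_nonpos.2 hr0)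
    have h1 : 0 ≤ 1 - Real.exp (-r) := by linarith
    positivity
  · have hx : 0 < u * w := mul_pos hu h
    have h1 := ratio hx
    have h0 : 0 < 1 - Real.exp (-(u * w)) := by
      have := Real.exp_lt_one_iff.2 (neg_neg_of_pos hx)
      linarith
    rw [div_le_iff₀ h0] at h1
    have h2 : 1 - Real.exp (-(u * w)) ≤ 1 - Real.exp (-r) := by
      have := Real.exp_le_exp.2 (neg_le_neg hr)
      linarith
    have h3 : w ≤ (w + 1 / u) * (1 - Real.exp (-(u * w))) := by
      have e : (w + 1 / u) * (1 - Real.exp (-(u * w))) =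
          (1 + u * w) * (1 - Real.exp (-(u * w))) / u := by
        field_simp
        ring
      rw [e, le_div_iff₀ hu]
      linarith
    have h4 : 0 ≤ w + 1 / u := by positivity
    have h5 : w ≤ (w + 1 / u) * (1 - Real.exp (-r)) :=
      h3.trans (mul_le_mul_of_nonneg_left h2 h4)
    calc w * y ≤ ((w + 1 / u) * (1 - Real.exp (-r))) * y := mul_le_mul_of_nonneg_right h5 hy
      _ = _ := by ring

theorem exp_two_le : Real.exp 2 ≤ 8 := by
  have h := Real.exp_one_lt_d9
  have e : Real.exp 2 = Real.exp 1 * Real.exp 1 := by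
    rw [← Real.exp_add]
    norm_num
  rw [e]
  have h0 := Real.exp_pos 1
  nlinarith

end D3x

open D1x D3x in
theorem D3 : St_D3 := by
  intro α _ Θ Θ' r w u k g hs hu hk hr hw hg
  have g0 : ∀ B, 0 ≤ g B := fun B => (hg B).1
  have BEsum : ∀ (s : Finset α) (h : α → Finset α → ℝ),
      BE Θ r (fun B => ∑ i ∈ s, h i B) = ∑ i ∈ s, BE Θ r (h i) := by
    intro s h
    unfold BE
    rw [Finset.sum_comm]
    exact Finset.sum_congr rfl fun B _ => by rw [Finset.mul_sum]
  have BEmul : ∀ (a : ℝ) (h : Finset α → ℝ), BE Θ r (fun B => a * h B) = a * BE Θ r h := by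
    intro a h
    unfold BE
    rw [Finset.mul_sum]
    exact Finset.sum_congr rfl fun B _ => by ring
  have nn : ∀ h : Finset α → ℝ, (∀ B, 0 ≤ h B) → 0 ≤ BE Θ r h := by
    intro h hh
    have := BE_mono hr (h := fun _ => 0) (h' := h) fun B _ => hh B
    rwa [BE_const] at this
  -- each type
  have s1 : ∀ T ∈ Θ', w T * BE Θ r (fun B => g (insert T B)) ≤
      (w T + 1 / u) * BE Θ r (fun B => if T ∈ B then g B else 0) := by
    intro T hT
    rw [BE_mem Θ r T g (hs hT)]
    exact coef hu (hw T hT).1 (hw T hT).2 _ (nn _ fun B => g0 _)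
  have s2 : ∑ T ∈ Θ', (w T + 1 / u) * BE Θ r (fun B => if T ∈ B then g B else 0) ≤
      BE Θ r (fun B => (∑ T ∈ Θ', w T + k / u) * g B +
        Real.exp (-k) / u * (Real.exp 2) ^ (B ∩ Θ').card) := by
    rw [← Finset.sum_congr rfl fun T _ => BEmul (w T + 1 / u) _, ← BEsum]
    refine BE_mono hr fun B _ => ?_
    have a1 : ∑ T ∈ Θ', (w T + 1 / u) * (if T ∈ B then g B else 0) =
        (∑ T ∈ B ∩ Θ', w T + (B ∩ Θ').card / u) * g B := by
      have : ∑ T ∈ Θ', (w T + 1 / u) * (if T ∈ B then g B else 0) =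
          ∑ T ∈ Θ', if T ∈ B then (w T + 1 / u) * g B else 0 :=
        Finset.sum_congr rfl fun T _ => by split_ifs <;> ring
      rw [this, ← Finset.sum_filter]
      have e2 : Θ'.filter (fun T => T ∈ B) = B ∩ Θ' := by
        ext T
        rw [mem_filter, mem_inter]
        tauto
      rw [e2, ← Finset.sum_mul, Finset.sum_add_distrib, Finset.sum_const, nsmul_eq_mul]
      ring
    rw [a1]
    have a2 : ∑ T ∈ B ∩ Θ', w T ≤ ∑ T ∈ Θ', w T :=
      Finset.sum_le_sum_of_subset_of_nonneg inter_subset_right fun T hT _ => (hw T hT).1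
    set N : ℕ := (B ∩ Θ').card
    have a3 : (N : ℝ) * g B ≤ k * g B + Real.exp (-k) * (Real.exp 2) ^ N := by
      by_cases hN : (N : ℝ) ≤ k
      · have := mul_le_mul_of_nonneg_right hN (g0 B)
        have : 0 ≤ Real.exp (-k) * (Real.exp 2) ^ N := by positivity
        linarith
      · push Not at hN
        have b1 : (N : ℝ) * g B ≤ N := mul_le_of_le_one_right (Nat.cast_nonneg _) (hg B).2
        have b2 : (N : ℝ) ≤ Real.exp N := by
          have := Real.add_one_le_exp (N : ℝ)
          linarith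
        have b3 : (Real.exp 2) ^ N = Real.exp N * Real.exp N := by
          rw [← Real.exp_nat_mul, ← Real.exp_add]
          congr 1
          ring
        have b4 : 1 ≤ Real.exp (-k) * Real.exp N := by
          rw [← Real.exp_add]
          exact Real.one_le_exp (by linarith)
        have b5 : Real.exp N ≤ Real.exp (-k) * (Real.exp 2) ^ N := by
          rw [b3, ← mul_assoc]
          exact le_mul_of_one_le_left (Real.exp_pos _).le b4
        have b6 : 0 ≤ k * g B := mul_nonneg hk (g0 B)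
        linarith
    have a4 : (N : ℝ) / u * g B ≤ k / u * g B + Real.exp (-k) / u * (Real.exp 2) ^ N := by
      have := div_le_div_of_nonneg_right a3 hu.le
      calc (N : ℝ) / u * g B = (N * g B) / u := by ring
        _ ≤ (k * g B + Real.exp (-k) * (Real.exp 2) ^ N) / u := this
        _ = _ := by ring
    have a5 := mul_le_mul_of_nonneg_right a2 (g0 B)
    calc (∑ T ∈ B ∩ Θ', w T + (N : ℝ) / u) * g B
        = (∑ T ∈ B ∩ Θ', w T) * g B + (N : ℝ) / u * g B := by ring
      _ ≤ (∑ T ∈ Θ', w T) * g B + (k / u * g B + Real.exp (-k) / u * (Real.exp 2) ^ N) :=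
        add_le_add a5 a4
      _ = _ := by ring
  have s3 : BE Θ r (fun B => (∑ T ∈ Θ', w T + k / u) * g B +
        Real.exp (-k) / u * (Real.exp 2) ^ (B ∩ Θ').card) =
      (∑ T ∈ Θ', w T + k / u) * BE Θ r g +
        Real.exp (-k) / u * BE Θ r (fun B => (Real.exp 2) ^ (B ∩ Θ').card) :=
    BE_lin Θ r _ _ g fun B => (Real.exp 2) ^ (B ∩ Θ').card
  have s4 : Real.exp (-k) / u * BE Θ r (fun B => (Real.exp 2) ^ (B ∩ Θ').card) ≤
      Real.exp (-k + 7 * ∑ T ∈ Θ', r T) / u := by
    have c1 := BE_pow hr hs (Real.one_le_exp (show (0 : ℝ) ≤ 2 by norm_num))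
    have c2 : 0 ≤ ∑ T ∈ Θ', r T := Finset.sum_nonneg fun T hT => hr T (hs hT)
    have c3 : Real.exp ((Real.exp 2 - 1) * ∑ T ∈ Θ', r T) ≤ Real.exp (7 * ∑ T ∈ Θ', r T) := by
      refine Real.exp_le_exp.2 (mul_le_mul_of_nonneg_right ?_ c2)
      have := exp_two_le
      linarith
    have c4 : 0 ≤ Real.exp (-k) / u := by positivity
    refine (mul_le_mul_of_nonneg_left (c1.trans c3) c4).trans (le_of_eq ?_)
    rw [Real.exp_add]
    ring
  have s5 := (Finset.sum_le_sum s1).trans s2
  rw [s3] at s5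
  linarith

end PLS
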