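import Pool.Agent.PLS.StD

set_option autoImplicit false
set_option linter.unusedVariables false

open Finset

noncomputable section

namespace PLS

namespace D4x

variable {S : Type} [DecidableEq S]

theorem un_insert (T : Finset S) (B : Finset (Finset S)) : un (insert T B) = un B ∪ T := by
  unfold un
  rw [Finset.sup_insert]
  exact Finset.union_comm _ _

theorem inter_un (K A T : Finset S) : (A ∪ T) ∩ K = (A ∩ K) ∪ (T ∩ K) :=
  Finset.union_inter_distrib_right A T K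

theorem dd_congr (f : Finset S → ℝ) (K T T' : Finset S) (B : Finset (Finset S))
    (h : T ∩ K = T' ∩ K) : dd f K T B = dd f K T' B := by
  unfold dd
  rw [inter_un, inter_un, h]

theorem dd_zero (f : Finset S → ℝ) (K T : Finset S) (B : Finset (Finset S))
    (h : T ∩ K = ∅) : dd f K T B = 0 := by
  unfold dd
  rw [inter_un, h, Finset.union_empty, sub_self]

theorem dd_nonneg {f : Finset S → ℝ} (hf : Mo f) (K T : Finset S) (B : Finset (Finset S)) :
    0 ≤ dd f K T B := by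
  unfold dd
  have := hf.1 (un B ∩ K) ((un B ∪ T) ∩ K)
    (Finset.inter_subset_inter_right Finset.subset_union_left)
  linarith

theorem dd_le_one {f : Finset S → ℝ} (hf : Mo f) (K T : Finset S) (B : Finset (Finset S)) :
    dd f K T B ≤ 1 := by
  unfold dd
  have h1 := (hf.2 ((un B ∪ T) ∩ K)).2
  have h2 := (hf.2 (un B ∩ K)).1
  linarith

theorem dd_union (f : Finset S → ℝ) (K P R : Finset S) (B : Finset (Finset S)) :
    dd f K (P ∪ R) B = dd f K R (insert P B) + dd f K P B := by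
  unfold dd
  rw [un_insert, Finset.union_assoc]
  ring

theorem dd_insert (f : Finset S → ℝ) (K Q T : Finset S) (B : Finset (Finset S))
    (h : Q ∩ K = ∅) : dd f K T (insert Q B) = dd f K T B := by
  unfold dd
  rw [un_insert, inter_un, inter_un, inter_un, h, Finset.union_empty]

/-- the properties of the expectation which are used -/
structure Fn (E : (Finset (Finset S) → ℝ) → ℝ) (K1 K2 : Finset S) (w : Finset S → ℝ)
    (b τ : ℝ) : Prop where
  add : ∀ h h' : Finset (Finset S) → ℝ, E (fun B => h B + h' B) = E h + E h'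
  nonneg : ∀ h : Finset (Finset S) → ℝ, (∀ B, 0 ≤ h B) → 0 ≤ E h
  m1 : ∀ g : Finset (Finset S) → ℝ, (∀ B, 0 ≤ g B ∧ g B ≤ 1) →
    ∑ P ∈ ne K1, w P * E (fun B => g (insert P B)) ≤ b * E g + τ
  m2 : ∀ g : Finset (Finset S) → ℝ, (∀ B, 0 ≤ g B ∧ g B ≤ 1) →
    ∑ P ∈ ne K2, w P * E (fun B => g (insert P B)) ≤ b * E g + τ

theorem Fn.symm {E : (Finset (Finset S) → ℝ) → ℝ} {K1 K2 : Finset S} {w : Finset S → ℝ}
    {b τ : ℝ} (h : Fn E K1 K2 w b τ) : Fn E K2 K1 w b τ := ⟨h.add, h.nonneg, h.m2, h.m1⟩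

/-- the mixed types -/
def Mx (K1 K2 : Finset S) : Finset (Finset S) :=
  (K1 ∪ K2).powerset.filter fun T => ¬ Disjoint T K1 ∧ ¬ Disjoint T K2

/-- the types which meet `K2` -/
def Rt (K1 K2 : Finset S) : Finset (Finset S) :=
  (K1 ∪ K2).powerset.filter fun T => ¬ Disjoint T K2

theorem mem_ne {K T : Finset S} : T ∈ ne K ↔ T ≠ ∅ ∧ T ⊆ K := by
  unfold ne
  rw [mem_erase, mem_powerset]

theorem mem_Mx {K1 K2 T : Finset S} :
    T ∈ Mx K1 K2 ↔ T ⊆ K1 ∪ K2 ∧ ¬ Disjoint T K1 ∧ ¬ Disjoint T K2 := by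
  unfold Mx
  rw [mem_filter, mem_powerset]

theorem Mx_symm (K1 K2 : Finset S) : Mx K2 K1 = Mx K1 K2 := by
  ext T
  rw [mem_Mx, mem_Mx, Finset.union_comm]
  tauto

theorem inter_empty {K1 K2 T : Finset S} (hd : Disjoint K1 K2) (hT : T ⊆ K1) : T ∩ K2 = ∅ := by
  rw [← Finset.disjoint_iff_inter_eq_empty]
  exact Finset.disjoint_of_subset_left hT hd

theorem Rt_eq {K1 K2 : Finset S} (hd : Disjoint K1 K2) :
    Rt K1 K2 = ne K2 ∪ Mx K1 K2 := by
  ext T
  unfold Rt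
  rw [mem_union, mem_filter, mem_powerset, mem_ne, mem_Mx]
  constructor
  · rintro ⟨h1, h2⟩
    by_cases h3 : Disjoint T K1
    · left
      refine ⟨?_, ?_⟩
      · rintro rfl
        exact h2 (Finset.disjoint_empty_left _)
      · intro x hx
        rcases mem_union.1 (h1 hx) with h | h
        · exact absurd h (Finset.disjoint_left.1 h3 hx)
        · exact h
    · exact Or.inr ⟨h1, h3, h2⟩
  · rintro (⟨h1, h2⟩ | ⟨h1, h2, h3⟩)
    · refine ⟨h2.trans Finset.subset_union_right, ?_⟩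
      intro h
      apply h1
      have := Finset.disjoint_of_subset_right h2 h
      exact Finset.disjoint_self_iff_empty T |>.1 this
    · exact ⟨h1, h3⟩

theorem Rt_disj {K1 K2 : Finset S} (hd : Disjoint K1 K2) : Disjoint (ne K2) (Mx K1 K2) := by
  rw [Finset.disjoint_left]
  intro T h1 h2
  rw [mem_ne] at h1
  rw [mem_Mx] at h2
  exact h2.2.1 (Finset.disjoint_of_subset_left h1.2 hd.symm)

theorem sum_Rt {K1 K2 : Finset S} (hd : Disjoint K1 K2) (F : Finset S → ℝ) :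
    ∑ R ∈ Rt K1 K2, F R = ∑ R ∈ ne K2, F R + ∑ R ∈ Mx K1 K2, F R := by
  rw [Rt_eq hd, Finset.sum_union (Rt_disj hd)]

/-- the use of the splitting inequality -/
theorem split_use {K1 K2 : Finset S} {w : Finset S → ℝ} {κ : ℝ} (hκ : 0 ≤ κ)
    (hw : ∀ T, 0 ≤ w T) (h : Split K1 K2 κ w) (φ : Finset S → ℝ) (hφ : ∀ T, 0 ≤ φ T) :
    ∑ T ∈ Mx K1 K2, w T * φ T ≤
      κ * (∑ P ∈ ne K1, ∑ R ∈ Rt K1 K2, w P * w R * φ (P ∪ R) +
        ∑ P ∈ ne K2, ∑ R ∈ Rt K2 K1, w P * w R * φ (P ∪ R)) := by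
  have key : ∀ (A : Finset (Finset S)) (C : Finset (Finset S)),
      ∑ T ∈ Mx K1 K2, (∑ P ∈ A, ∑ R ∈ C, (if P ∪ R = T then w P * w R else 0)) * φ T ≤
        ∑ P ∈ A, ∑ R ∈ C, w P * w R * φ (P ∪ R) := by
    intro A C
    have e1 : ∑ T ∈ Mx K1 K2, (∑ P ∈ A, ∑ R ∈ C, (if P ∪ R = T then w P * w R else 0)) * φ T =
        ∑ P ∈ A, ∑ R ∈ C, ∑ T ∈ Mx K1 K2, (if P ∪ R = T then w P * w R * φ T else 0) := by
      rw [Finset.sum_congr rfl fun T _ => Finset.sum_mul _ _ _, Finset.sum_comm]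
      refine Finset.sum_congr rfl fun P _ => ?_
      rw [Finset.sum_congr rfl fun T _ => Finset.sum_mul _ _ _, Finset.sum_comm]
      refine Finset.sum_congr rfl fun R _ => Finset.sum_congr rfl fun T _ => ?_
      split_ifs
      · rfl
      · rw [zero_mul]
    rw [e1]
    refine Finset.sum_le_sum fun P _ => Finset.sum_le_sum fun R _ => ?_
    rw [Finset.sum_ite_eq]
    split_ifs
    · exact le_rfl
    · exact mul_nonneg (mul_nonneg (hw P) (hw R)) (hφ _)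
  have h1 : ∑ T ∈ Mx K1 K2, w T * φ T ≤ ∑ T ∈ Mx K1 K2,
      κ * ((∑ P ∈ ne K1, ∑ R ∈ Rt K1 K2, (if P ∪ R = T then w P * w R else 0)) * φ T +
        (∑ P ∈ ne K2, ∑ R ∈ Rt K2 K1, (if P ∪ R = T then w P * w R else 0)) * φ T) := by
    refine Finset.sum_le_sum fun T hT => ?_
    rw [mem_Mx] at hT
    have h2 := h T hT.1 hT.2.1 hT.2.2
    have h3 := mul_le_mul_of_nonneg_right h2 (hφ T)
    refine h3.trans (le_of_eq ?_)
    unfold ne Rt
    rw [Finset.union_comm K2 K1]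
    ring
  refine h1.trans ?_
  rw [← Finset.mul_sum, Finset.sum_add_distrib]
  exact mul_le_mul_of_nonneg_left (add_le_add (key _ _) (key _ _)) hκ

/-- the cross terms -/
def cr (E : (Finset (Finset S) → ℝ) → ℝ) (f1 f2 : Finset S → ℝ) (K1 K2 P R : Finset S) : ℝ :=
  E (fun B => dd f1 K1 P B * dd f2 K2 R B)

theorem cr_symm (E : (Finset (Finset S) → ℝ) → ℝ) (f1 f2 : Finset S → ℝ) (K1 K2 P R : Finset S) :
    cr E f2 f1 K2 K1 R P = cr E f1 f2 K1 K2 P R := by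
  unfold cr
  congr 1
  funext B
  ring

section

variable {E : (Finset (Finset S) → ℝ) → ℝ} {K1 K2 : Finset S} {w : Finset S → ℝ} {b τ c : ℝ}
  {f1 f2 : Finset S → ℝ}

theorem cr_nonneg (hE : Fn E K1 K2 w b τ) (hf1 : Mo f1) (hf2 : Mo f2) (P R : Finset S) :
    0 ≤ cr E f1 f2 K1 K2 P R :=
  hE.nonneg _ fun B => mul_nonneg (dd_nonneg hf1 _ _ _) (dd_nonneg hf2 _ _ _)

theorem cr_congr {P P' R R' : Finset S} (h1 : P ∩ K1 = P' ∩ K1) (h2 : R ∩ K2 = R' ∩ K2) :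
    cr E f1 f2 K1 K2 P R = cr E f1 f2 K1 K2 P' R' := by
  unfold cr
  congr 1
  funext B
  rw [dd_congr f1 K1 P P' B h1, dd_congr f2 K2 R R' B h2]

/-- the first piece is pure in `K1` -/
theorem stepX (hd : Disjoint K1 K2) (hE : Fn E K1 K2 w b τ) (hw : ∀ T, 0 ≤ w T)
    (hf1 : Mo f1) (hf2 : Mo f2) (hτ : 0 ≤ τ) (hc : ∑ T ∈ Mx K1 K2, w T ≤ c) :
    ∑ P ∈ ne K1, ∑ R ∈ Rt K1 K2, w P * w R * cr E f1 f2 K1 K2 (P ∪ R) (P ∪ R) ≤
      ∑ P ∈ ne K1, ∑ Q ∈ ne K2, w P * w Q * cr E f1 f2 K1 K2 P Q +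
      b * ∑ T ∈ Mx K1 K2, w T * cr E f1 f2 K1 K2 T T + c * τ +
      ∑ R ∈ Mx K1 K2, w R * ∑ P ∈ ne K1, w P * cr E f1 f2 K1 K2 P R := by
  have e1 : ∀ P ∈ ne K1, ∑ R ∈ Rt K1 K2, w P * w R * cr E f1 f2 K1 K2 (P ∪ R) (P ∪ R) =
      ∑ Q ∈ ne K2, w P * w Q * cr E f1 f2 K1 K2 P Q +
      ∑ R ∈ Mx K1 K2, w P * w R * cr E f1 f2 K1 K2 (P ∪ R) (P ∪ R) := by
    intro P hP
    rw [mem_ne] at hP
    rw [sum_Rt hd]
    congr 1
    refine Finset.sum_congr rfl fun Q hQ => ?_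
    rw [mem_ne] at hQ
    rw [cr_congr (P' := P) (R' := Q)]
    · rw [inter_un, inter_empty hd.symm hQ.2, Finset.union_empty]
    · rw [inter_un, inter_empty hd hP.2, Finset.empty_union]
  rw [Finset.sum_congr rfl e1, Finset.sum_add_distrib]
  have e2 : ∀ P ∈ ne K1, ∀ R : Finset S, cr E f1 f2 K1 K2 (P ∪ R) (P ∪ R) =
      E (fun B => dd f1 K1 R (insert P B) * dd f2 K2 R (insert P B)) +
        cr E f1 f2 K1 K2 P R := by
    intro P hP R
    rw [mem_ne] at hP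
    unfold cr
    rw [← hE.add]
    congr 1
    funext B
    have hP2 : P ∩ K2 = ∅ := inter_empty hd hP.2
    rw [dd_union f1 K1 P R B, dd_insert f2 K2 P R B hP2,
      dd_congr f2 K2 (P ∪ R) R B (by rw [inter_un, hP2, Finset.empty_union])]
    ring
  have e3 : ∑ P ∈ ne K1, ∑ R ∈ Mx K1 K2, w P * w R * cr E f1 f2 K1 K2 (P ∪ R) (P ∪ R) =
      ∑ R ∈ Mx K1 K2, w R * (∑ P ∈ ne K1, w P *
        E (fun B => dd f1 K1 R (insert P B) * dd f2 K2 R (insert P B)) +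
        ∑ P ∈ ne K1, w P * cr E f1 f2 K1 K2 P R) := by
    rw [Finset.sum_comm]
    refine Finset.sum_congr rfl fun R _ => ?_
    rw [← Finset.sum_add_distrib, Finset.mul_sum]
    refine Finset.sum_congr rfl fun P hP => ?_
    rw [e2 P hP R]
    ring
  rw [e3]
  have e4 : ∀ R ∈ Mx K1 K2, w R * (∑ P ∈ ne K1, w P *
        E (fun B => dd f1 K1 R (insert P B) * dd f2 K2 R (insert P B)) +
        ∑ P ∈ ne K1, w P * cr E f1 f2 K1 K2 P R) ≤
      b * (w R * cr E f1 f2 K1 K2 R R) + w R * τ +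
        w R * ∑ P ∈ ne K1, w P * cr E f1 f2 K1 K2 P R := by
    intro R _
    have h1 := hE.m1 (fun B => dd f1 K1 R B * dd f2 K2 R B) fun B =>
      ⟨mul_nonneg (dd_nonneg hf1 _ _ _) (dd_nonneg hf2 _ _ _),
        mul_le_one₀ (dd_le_one hf1 _ _ _) (dd_nonneg hf2 _ _ _) (dd_le_one hf2 _ _ _)⟩
    have h2 := mul_le_mul_of_nonneg_left h1 (hw R)
    have h3 : cr E f1 f2 K1 K2 R R = E (fun B => dd f1 K1 R B * dd f2 K2 R B) := rfl
    rw [h3]
    nlinarith [h2]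
  have e5 := Finset.sum_le_sum e4
  rw [Finset.sum_add_distrib, Finset.sum_add_distrib, ← Finset.mul_sum, ← Finset.sum_mul] at e5
  have e6 : (∑ T ∈ Mx K1 K2, w T) * τ ≤ c * τ := mul_le_mul_of_nonneg_right hc hτ
  linarith

/-- the second closing inequality -/
theorem stepY {κ : ℝ} (hκ : 0 ≤ κ) (hd : Disjoint K1 K2) (hE : Fn E K1 K2 w b τ)
    (hw : ∀ T, 0 ≤ w T) (hb : 0 ≤ b)
    (hf1 : Mo f1) (hf2 : Mo f2) (hτ : 0 ≤ τ) (hc : ∑ T ∈ Mx K1 K2, w T ≤ c)
    (hc1 : ∑ T ∈ ne K1, w T ≤ c) (hsplit : Split K1 K2 κ w) :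
    ∑ R ∈ Mx K1 K2, w R * ∑ P ∈ ne K1, w P * cr E f1 f2 K1 K2 P R ≤
      κ * (3 * c * ∑ P ∈ ne K1, ∑ Q ∈ ne K2, w P * w Q * cr E f1 f2 K1 K2 P Q +
        (c + b) * (∑ R ∈ Mx K1 K2, w R * ∑ P ∈ ne K1, w P * cr E f1 f2 K1 K2 P R) +
        c ^ 2 * τ) := by
  set φ : Finset S → ℝ := fun R => ∑ P ∈ ne K1, w P * cr E f1 f2 K1 K2 P R with hφ
  set M := ∑ P ∈ ne K1, ∑ Q ∈ ne K2, w P * w Q * cr E f1 f2 K1 K2 P Q with hM
  set Y := ∑ R ∈ Mx K1 K2, w R * φ R with hY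
  have hcn : 0 ≤ c := (Finset.sum_nonneg fun T _ => hw T).trans hc
  have hφ0 : ∀ T, 0 ≤ φ T := fun T =>
    Finset.sum_nonneg fun P _ => mul_nonneg (hw P) (cr_nonneg hE hf1 hf2 _ _)
  have hM0 : 0 ≤ M := Finset.sum_nonneg fun P _ => Finset.sum_nonneg fun Q _ =>
    mul_nonneg (mul_nonneg (hw P) (hw Q)) (cr_nonneg hE hf1 hf2 _ _)
  have hY0 : 0 ≤ Y := Finset.sum_nonneg fun R _ => mul_nonneg (hw R) (hφ0 R)
  have hφc : ∀ R R' : Finset S, R ∩ K2 = R' ∩ K2 → φ R = φ R' := by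
    intro R R' h
    exact Finset.sum_congr rfl fun P _ => by rw [cr_congr (P' := P) rfl h]
  have hMφ : M = ∑ Q ∈ ne K2, w Q * φ Q := by
    rw [hM, Finset.sum_comm]
    refine Finset.sum_congr rfl fun Q _ => ?_
    rw [hφ, Finset.mul_sum]
    refine Finset.sum_congr rfl fun P _ => ?_
    ring
  have hs := split_use hκ hw hsplit φ hφ0
  -- first sum
  have h1 : ∑ P ∈ ne K1, ∑ R ∈ Rt K1 K2, w P * w R * φ (P ∪ R) ≤ c * (M + Y) := by
    have a1 : ∀ P ∈ ne K1, ∑ R ∈ Rt K1 K2, w P * w R * φ (P ∪ R) = w P * (M + Y) := by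
      intro P hP
      rw [mem_ne] at hP
      have a2 : ∀ R ∈ Rt K1 K2, w P * w R * φ (P ∪ R) = w P * (w R * φ R) := by
        intro R _
        rw [hφc (P ∪ R) R (by rw [inter_un, inter_empty hd hP.2, Finset.empty_union])]
        ring
      rw [Finset.sum_congr rfl a2, ← Finset.mul_sum, sum_Rt hd, ← hMφ]
    rw [Finset.sum_congr rfl a1, ← Finset.sum_mul]
    exact mul_le_mul_of_nonneg_right hc1 (by linarith)
  -- second sum
  have h2 : ∑ P ∈ ne K2, ∑ R ∈ Rt K2 K1, w P * w R * φ (P ∪ R) ≤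
      c * M + (b * Y + c * (c * τ) + c * M) := by
    have a1 : ∑ P ∈ ne K2, ∑ R ∈ Rt K2 K1, w P * w R * φ (P ∪ R) =
        ∑ P ∈ ne K2, ∑ R ∈ ne K1, w P * w R * φ (P ∪ R) +
          ∑ R ∈ Mx K1 K2, w R * ∑ P ∈ ne K2, w P * φ (P ∪ R) := by
      have a2 : ∀ P ∈ ne K2, ∑ R ∈ Rt K2 K1, w P * w R * φ (P ∪ R) =
          ∑ R ∈ ne K1, w P * w R * φ (P ∪ R) + ∑ R ∈ Mx K1 K2, w P * w R * φ (P ∪ R) := by
        intro P _
        rw [sum_Rt hd.symm, Mx_symm]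
      rw [Finset.sum_congr rfl a2, Finset.sum_add_distrib]
      congr 1
      rw [Finset.sum_comm]
      refine Finset.sum_congr rfl fun R _ => ?_
      rw [Finset.mul_sum]
      refine Finset.sum_congr rfl fun P _ => ?_
      ring
    have a3 : ∑ P ∈ ne K2, ∑ R ∈ ne K1, w P * w R * φ (P ∪ R) ≤ c * M := by
      have a4 : ∀ P ∈ ne K2, ∑ R ∈ ne K1, w P * w R * φ (P ∪ R) =
          (∑ R ∈ ne K1, w R) * (w P * φ P) := by
        intro P _
        rw [Finset.sum_mul]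
        refine Finset.sum_congr rfl fun R hR => ?_
        rw [mem_ne] at hR
        rw [hφc (P ∪ R) P (by rw [inter_un, inter_empty hd hR.2, Finset.union_empty])]
        ring
      rw [Finset.sum_congr rfl a4, ← Finset.mul_sum, ← hMφ]
      exact mul_le_mul_of_nonneg_right hc1 hM0
    have a5 : ∀ R ∈ Mx K1 K2, w R * ∑ P ∈ ne K2, w P * φ (P ∪ R) ≤
        b * (w R * φ R) + w R * (c * τ) + w R * M := by
      intro R _
      have b1 : ∀ Q ∈ ne K2, ∀ P ∈ ne K1, cr E f1 f2 K1 K2 P (Q ∪ R) =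
          E (fun B => dd f1 K1 P (insert Q B) * dd f2 K2 R (insert Q B)) +
            cr E f1 f2 K1 K2 P Q := by
        intro Q hQ P _
        rw [mem_ne] at hQ
        unfold cr
        rw [← hE.add]
        congr 1
        funext B
        rw [dd_union f2 K2 Q R B, dd_insert f1 K1 Q P B (inter_empty hd.symm hQ.2)]
        ring
      have b2 : ∑ Q ∈ ne K2, w Q * φ (Q ∪ R) =
          ∑ P ∈ ne K1, w P * (∑ Q ∈ ne K2, w Q *
            E (fun B => dd f1 K1 P (insert Q B) * dd f2 K2 R (insert Q B))) + M := by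
        have b3 : ∑ Q ∈ ne K2, w Q * φ (Q ∪ R) = ∑ Q ∈ ne K2, ∑ P ∈ ne K1,
            (w P * (w Q * E (fun B => dd f1 K1 P (insert Q B) * dd f2 K2 R (insert Q B))) +
              w P * w Q * cr E f1 f2 K1 K2 P Q) := by
          refine Finset.sum_congr rfl fun Q hQ => ?_
          rw [hφ, Finset.mul_sum]
          refine Finset.sum_congr rfl fun P hP => ?_
          rw [b1 Q hQ P hP]
          ring
        rw [b3, Finset.sum_comm]
        rw [Finset.sum_congr rfl fun P _ => Finset.sum_add_distrib, Finset.sum_add_distrib]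
        congr 1
        exact Finset.sum_congr rfl fun P _ => (Finset.mul_sum _ _ _).symm
      have b4 : ∑ P ∈ ne K1, w P * (∑ Q ∈ ne K2, w Q *
            E (fun B => dd f1 K1 P (insert Q B) * dd f2 K2 R (insert Q B))) ≤
          b * φ R + c * τ := by
        have b5 : ∀ P ∈ ne K1, w P * (∑ Q ∈ ne K2, w Q *
            E (fun B => dd f1 K1 P (insert Q B) * dd f2 K2 R (insert Q B))) ≤
            b * (w P * cr E f1 f2 K1 K2 P R) + w P * τ := by
          intro P _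
          have b6 := hE.m2 (fun B => dd f1 K1 P B * dd f2 K2 R B) fun B =>
            ⟨mul_nonneg (dd_nonneg hf1 _ _ _) (dd_nonneg hf2 _ _ _),
              mul_le_one₀ (dd_le_one hf1 _ _ _) (dd_nonneg hf2 _ _ _) (dd_le_one hf2 _ _ _)⟩
          have b7 := mul_le_mul_of_nonneg_left b6 (hw P)
          have b8 : cr E f1 f2 K1 K2 P R = E (fun B => dd f1 K1 P B * dd f2 K2 R B) := rfl
          rw [b8]
          nlinarith [b7]
        have b9 := Finset.sum_le_sum b5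
        rw [Finset.sum_add_distrib, ← Finset.mul_sum, ← Finset.sum_mul] at b9
        have b10 : (∑ T ∈ ne K1, w T) * τ ≤ c * τ := mul_le_mul_of_nonneg_right hc1 hτ
        have b11 : ∑ P ∈ ne K1, w P * cr E f1 f2 K1 K2 P R = φ R := rfl
        rw [b11] at b9
        linarith
      have b12 := mul_le_mul_of_nonneg_left b4 (hw R)
      rw [b2]
      nlinarith [b12]
    have a6 := Finset.sum_le_sum a5
    rw [Finset.sum_add_distrib, Finset.sum_add_distrib, ← Finset.mul_sum, ← Finset.sum_mul,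
      ← Finset.sum_mul, ← hY] at a6
    have a7 : (∑ T ∈ Mx K1 K2, w T) * (c * τ) ≤ c * (c * τ) :=
      mul_le_mul_of_nonneg_right hc (mul_nonneg hcn hτ)
    have a8 : (∑ T ∈ Mx K1 K2, w T) * M ≤ c * M := mul_le_mul_of_nonneg_right hc hM0
    rw [a1]
    linarith
  have h3 : κ * (∑ P ∈ ne K1, ∑ R ∈ Rt K1 K2, w P * w R * φ (P ∪ R) +
        ∑ P ∈ ne K2, ∑ R ∈ Rt K2 K1, w P * w R * φ (P ∪ R)) ≤
      κ * (c * (M + Y) + (c * M + (b * Y + c * (c * τ) + c * M))) :=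
    mul_le_mul_of_nonneg_left (add_le_add h1 h2) hκ
  refine hs.trans (h3.trans (le_of_eq ?_))
  ring

end

end D4x

open D4x in
theorem D4 (h1 : St_D1) (h3 : St_D3) : St_D4 := by
  intro S _ K1 K2 w r κ u k₁ f1 f2 hd hw hκ hu hk hsplit hκc hκk hr hr1 hr2 hR hf1 hf2
  set Θ := ne (K1 ∪ K2) with hΘ
  set c := ∑ T ∈ Θ, w T with hc
  set E := BE Θ r with hEd
  have hc0 : 0 ≤ c := Finset.sum_nonneg fun T _ => hw T
  have hN1 : ne K1 ⊆ Θ := by
    intro T hT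
    rw [mem_ne] at hT
    rw [hΘ, mem_ne]
    exact ⟨hT.1, hT.2.trans Finset.subset_union_left⟩
  have hN2 : ne K2 ⊆ Θ := by
    intro T hT
    rw [mem_ne] at hT
    rw [hΘ, mem_ne]
    exact ⟨hT.1, hT.2.trans Finset.subset_union_right⟩
  have hMx : Mx K1 K2 ⊆ Θ := by
    intro T hT
    rw [mem_Mx] at hT
    rw [hΘ, mem_ne]
    refine ⟨?_, hT.1⟩
    rintro rfl
    exact hT.2.1 (Finset.disjoint_empty_left _)
  have hcm : ∑ T ∈ Mx K1 K2, w T ≤ c :=
    Finset.sum_le_sum_of_subset_of_nonneg hMx fun T _ _ => hw T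
  have hc1 : ∑ T ∈ ne K1, w T ≤ c :=
    Finset.sum_le_sum_of_subset_of_nonneg hN1 fun T _ _ => hw T
  have hc2 : ∑ T ∈ ne K2, w T ≤ c :=
    Finset.sum_le_sum_of_subset_of_nonneg hN2 fun T _ _ => hw T
  set τ := Real.exp (-k₁) / u with hτd
  have hτ : 0 ≤ τ := by positivity
  set b := 22 * c + k₁ / u with hbd
  have hb : 0 ≤ b := by positivity
  have hD := h1 (Finset S) Θ r
  obtain ⟨-, -, hlin, hmono, -, -, -, -, -, -⟩ := hD
  have mecke : ∀ Θ' : Finset (Finset S), Θ' ⊆ Θ → (∀ T ∈ Θ', u * w T ≤ r T) →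
      ∑ T ∈ Θ', w T ≤ c →
      ∀ g : Finset (Finset S) → ℝ, (∀ B, 0 ≤ g B ∧ g B ≤ 1) →
      ∑ P ∈ Θ', w P * E (fun B => g (insert P B)) ≤ b * E g + τ := by
    intro Θ' hs hw' hc' g hg
    have a1 := h3 (Finset S) Θ Θ' r w u (21 * u * c + k₁) g hs hu (by positivity) hr
      (fun T hT => ⟨hw T, hw' T hT⟩) hg
    have a2 : ∑ T ∈ Θ', r T ≤ 3 * u * c :=
      (Finset.sum_le_sum_of_subset_of_nonneg hs fun T hT _ => hr T hT).trans hR
    have a3 : Real.exp (-(21 * u * c + k₁) + 7 * ∑ T ∈ Θ', r T) / u ≤ τ := by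
      rw [hτd]
      refine div_le_div_of_nonneg_right (Real.exp_le_exp.2 ?_) hu.le
      linarith
    have a4 : 0 ≤ E g := by
      have := hmono hr (fun _ => 0) g fun B _ => (hg B).1
      have z : BE Θ r (fun _ => (0 : ℝ)) = 0 := by
        unfold BE
        exact Finset.sum_eq_zero fun B _ => mul_zero _
      rw [z] at this
      exact this
    have a5 : (∑ T ∈ Θ', w T + (21 * u * c + k₁) / u) * E g ≤ b * E g := by
      refine mul_le_mul_of_nonneg_right ?_ a4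
      have a6 : (21 * u * c + k₁) / u = 21 * c + k₁ / u := by
        field_simp
      rw [a6, hbd]
      linarith
    linarith
  have hE : Fn E K1 K2 w b τ := by
    refine ⟨?_, ?_, mecke _ hN1 hr1 hc1, mecke _ hN2 hr2 hc2⟩
    · intro h h'
      have := hlin 1 1 h h'
      simpa using this
    · intro h hh
      have := hmono hr (fun _ => 0) h fun B _ => hh B
      have z : BE Θ r (fun _ => (0 : ℝ)) = 0 := by
        unfold BE
        exact Finset.sum_eq_zero fun B _ => mul_zero _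
      rw [z] at this
      exact this
  -- the left side
  have hX : ∑ T ∈ Θ, w T * BE Θ r (fun B => dd f1 K1 T B * dd f2 K2 T B) =
      ∑ T ∈ Mx K1 K2, w T * cr E f1 f2 K1 K2 T T := by
    symm
    refine Finset.sum_subset hMx fun T hT hnT => ?_
    rw [hΘ, mem_ne] at hT
    rw [mem_Mx] at hnT
    have z : (fun B => dd f1 K1 T B * dd f2 K2 T B) = fun _ => (0 : ℝ) := by
      funext B
      by_cases a1 : Disjoint T K1
      · rw [dd_zero f1 K1 T B (Finset.disjoint_iff_inter_eq_empty.1 a1), zero_mul]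
      · by_cases a2 : Disjoint T K2
        · rw [dd_zero f2 K2 T B (Finset.disjoint_iff_inter_eq_empty.1 a2), mul_zero]
        · exact absurd ⟨hT.2, a1, a2⟩ hnT
    have z' : cr E f1 f2 K1 K2 T T = 0 := by
      show BE Θ r (fun B => dd f1 K1 T B * dd f2 K2 T B) = 0
      rw [z]
      unfold BE
      exact Finset.sum_eq_zero fun B _ => mul_zero _
    rw [z', mul_zero]
  rw [hX]
  have hMd : ∑ P ∈ ne K1, ∑ Q ∈ ne K2, w P * w Q *
        BE Θ r (fun B => dd f1 K1 P B * dd f2 K2 Q B) =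
      ∑ P ∈ ne K1, ∑ Q ∈ ne K2, w P * w Q * cr E f1 f2 K1 K2 P Q := rfl
  rw [hMd]
  set X := ∑ T ∈ Mx K1 K2, w T * cr E f1 f2 K1 K2 T T with hXd
  set M := ∑ P ∈ ne K1, ∑ Q ∈ ne K2, w P * w Q * cr E f1 f2 K1 K2 P Q with hM
  set Y := ∑ R ∈ Mx K1 K2, w R * ∑ P ∈ ne K1, w P * cr E f1 f2 K1 K2 P R with hY
  set Z := ∑ R ∈ Mx K1 K2, w R * ∑ Q ∈ ne K2, w Q * cr E f1 f2 K1 K2 R Q with hZ
  have hX0 : 0 ≤ X := Finset.sum_nonneg fun T _ => mul_nonneg (hw T) (cr_nonneg hE hf1 hf2 _ _)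
  have hM0 : 0 ≤ M := Finset.sum_nonneg fun P _ => Finset.sum_nonneg fun Q _ =>
    mul_nonneg (mul_nonneg (hw P) (hw Q)) (cr_nonneg hE hf1 hf2 _ _)
  have hY0 : 0 ≤ Y := Finset.sum_nonneg fun R _ => mul_nonneg (hw R)
    (Finset.sum_nonneg fun P _ => mul_nonneg (hw P) (cr_nonneg hE hf1 hf2 _ _))
  have hZ0 : 0 ≤ Z := Finset.sum_nonneg fun R _ => mul_nonneg (hw R)
    (Finset.sum_nonneg fun P _ => mul_nonneg (hw P) (cr_nonneg hE hf1 hf2 _ _))
  have sX := split_use hκ hw hsplit (fun T => cr E f1 f2 K1 K2 T T)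
    fun T => cr_nonneg hE hf1 hf2 _ _
  have sX1 := stepX (f1 := f1) (f2 := f2) hd hE hw hf1 hf2 hτ hcm
  have hcm' : ∑ T ∈ Mx K2 K1, w T ≤ c := by rw [Mx_symm]; exact hcm
  have sX2 := stepX (f1 := f2) (f2 := f1) hd.symm hE.symm hw hf2 hf1 hτ hcm'
  have hsplit' : Split K2 K1 κ w := by
    intro T hT t1 t2
    have := hsplit T (by rwa [Finset.union_comm]) t2 t1
    rw [Finset.union_comm K2 K1]
    refine this.trans (le_of_eq ?_)
    ring
  have sY := stepY (f1 := f1) (f2 := f2) hκ hd hE hw hb hf1 hf2 hτ hcm hc1 hsplit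
  have sZ := stepY (f1 := f2) (f2 := f1) hκ hd.symm hE.symm hw hb hf2 hf1 hτ hcm' hc2 hsplit'
  have c1 : ∑ P ∈ ne K2, ∑ R ∈ Rt K2 K1, w P * w R * cr E f2 f1 K2 K1 (P ∪ R) (P ∪ R) =
      ∑ P ∈ ne K2, ∑ R ∈ Rt K2 K1, w P * w R * cr E f1 f2 K1 K2 (P ∪ R) (P ∪ R) :=
    Finset.sum_congr rfl fun P _ => Finset.sum_congr rfl fun R _ => by rw [cr_symm]
  have c2 : ∑ P ∈ ne K2, ∑ Q ∈ ne K1, w P * w Q * cr E f2 f1 K2 K1 P Q = M := by
    rw [hM, Finset.sum_comm]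
    exact Finset.sum_congr rfl fun P _ => Finset.sum_congr rfl fun R _ => by
      rw [cr_symm]; ring
  have c3 : ∑ T ∈ Mx K2 K1, w T * cr E f2 f1 K2 K1 T T = X := by
    rw [hXd, Mx_symm]
    exact Finset.sum_congr rfl fun P _ => by rw [cr_symm]
  have c4 : ∑ R ∈ Mx K2 K1, w R * ∑ P ∈ ne K2, w P * cr E f2 f1 K2 K1 P R = Z := by
    rw [hZ, Mx_symm]
    exact Finset.sum_congr rfl fun P _ => by
      congr 1
      exact Finset.sum_congr rfl fun R _ => by rw [cr_symm]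
  rw [c1, c2, c3, c4] at sX2
  rw [c2, c4] at sZ
  have sX' : X ≤ κ * (2 * M + 2 * b * X + 2 * c * τ + Y + Z) := by
    refine sX.trans (mul_le_mul_of_nonneg_left ?_ hκ)
    linarith
  have hκb : κ * b ≤ 1 / 20 := by
    have : κ * b = 22 * (κ * c) + κ * k₁ / u := by
      rw [hbd]
      ring
    rw [this]
    linarith
  have hκc' : κ * c ≤ 1 / 1000 := hκc
  have hcτ : 0 ≤ c * τ := mul_nonneg hc0 hτ
  have hκcb0 : 0 ≤ κ * b := mul_nonneg hκ hb
  have hκc0 : 0 ≤ κ * c := mul_nonneg hκ hc0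
  have small : ∀ W : ℝ, 0 ≤ W → W ≤ κ * (3 * c * M + (c + b) * W + c ^ 2 * τ) →
      W ≤ 0.004 * M + 0.002 * (c * τ) := by
    intro W hW0 hW
    have e1 : κ * (3 * c * M + (c + b) * W + c ^ 2 * τ) =
        3 * (κ * c) * M + (κ * c + κ * b) * W + (κ * c) * (c * τ) := by ring
    rw [e1] at hW
    have e2 : 3 * (κ * c) * M ≤ 3 * (1 / 1000) * M := by
      apply mul_le_mul_of_nonneg_right _ hM0
      linarith
    have e3 : (κ * c + κ * b) * W ≤ (1 / 1000 + 1 / 20) * W :=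
      mul_le_mul_of_nonneg_right (by linarith) hW0
    have e4 : (κ * c) * (c * τ) ≤ 1 / 1000 * (c * τ) := mul_le_mul_of_nonneg_right hκc' hcτ
    linarith
  have hY' := small Y hY0 sY
  have hZ' := small Z hZ0 sZ
  have f1' : κ * (2 * M + 2 * b * X + 2 * c * τ + Y + Z) ≤
      κ * (2.008 * M + 2.004 * (c * τ)) + 2 * (κ * b) * X := by
    have : κ * (2 * M + 2 * b * X + 2 * c * τ + Y + Z) =
        κ * (2 * M + 2 * (c * τ) + Y + Z) + 2 * (κ * b) * X := by ring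
    rw [this]
    have := mul_le_mul_of_nonneg_left (show 2 * M + 2 * (c * τ) + Y + Z ≤
      2.008 * M + 2.004 * (c * τ) by linarith) hκ
    linarith
  have f2' : 2 * (κ * b) * X ≤ 2 * (1 / 20) * X :=
    mul_le_mul_of_nonneg_right (by linarith) hX0
  have f3' : 0 ≤ κ * M := mul_nonneg hκ hM0
  have f4' : 0 ≤ κ * (c * τ) := mul_nonneg hκ hcτ
  nlinarith [sX', f1', f2', f3', f4']

end PLS
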