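import Pool.Agent.PLS.D4

set_option autoImplicit false
set_option linter.unusedVariables false

open Finset

noncomputable section

namespace PLS

namespace D5x

open D4x

variable {S : Type} [DecidableEq S]

theorem BE_congr {α : Type} [DecidableEq α] {Θ : Finset α} {r r' : α → ℝ}
    {h h' : Finset α → ℝ} (hr : ∀ T ∈ Θ, r T = r' T) (hh : ∀ B ⊆ Θ, h B = h' B) :
    BE Θ r h = BE Θ r' h' := by
  unfold BE
  refine Finset.sum_congr rfl fun B hB => ?_
  rw [mem_powerset] at hB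
  rw [hh B hB]
  congr 1
  congr 1
  · exact Finset.prod_congr rfl fun T hT => by rw [hr T (hB hT)]
  · exact Finset.prod_congr rfl fun T hT => by rw [hr T (mem_sdiff.1 hT).1]

theorem BE_sum {α ι : Type} [DecidableEq α] (Θ : Finset α) (r : α → ℝ) (s : Finset ι)
    (h : ι → Finset α → ℝ) :
    BE Θ r (fun B => ∑ i ∈ s, h i B) = ∑ i ∈ s, BE Θ r (h i) := by
  unfold BE
  rw [Finset.sum_comm]
  refine Finset.sum_congr rfl fun B _ => ?_
  rw [Finset.mul_sum]

theorem BE_smul {α : Type} [DecidableEq α] (Θ : Finset α) (r : α → ℝ) (a : ℝ)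
    (h : Finset α → ℝ) : BE Θ r (fun B => a * h B) = a * BE Θ r h := by
  unfold BE
  rw [Finset.mul_sum]
  refine Finset.sum_congr rfl fun B _ => ?_
  ring

theorem mem_un {B : Finset (Finset S)} {x : S} : x ∈ un B ↔ ∃ T ∈ B, x ∈ T := by
  unfold un
  rw [Finset.mem_sup]
  rfl

theorem inter_self {K1 K2 P Q : Finset S} (hd : Disjoint K1 K2) (hP : P ⊆ K1) (hQ : Q ⊆ K2) :
    (P ∪ Q) ∩ K1 = P := by
  rw [inter_un, inter_empty hd.symm hQ, Finset.union_empty]
  exact Finset.inter_eq_left.2 hP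

theorem inter_self' {K1 K2 P Q : Finset S} (hd : Disjoint K1 K2) (hP : P ⊆ K1) (hQ : Q ⊆ K2) :
    (P ∪ Q) ∩ K2 = Q := by
  rw [inter_un, inter_empty hd hP, Finset.empty_union]
  exact Finset.inter_eq_left.2 hQ

theorem bij {K1 K2 : Finset S} (hd : Disjoint K1 K2) (F : Finset S → ℝ) :
    ∑ T ∈ Mx K1 K2, F T = ∑ P ∈ ne K1, ∑ Q ∈ ne K2, F (P ∪ Q) := by
  rw [← Finset.sum_product']
  symm
  refine Finset.sum_nbij' (fun p => p.1 ∪ p.2) (fun T => (T ∩ K1, T ∩ K2)) ?_ ?_ ?_ ?_ ?_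
  · intro p hp
    rw [mem_product, mem_ne, mem_ne] at hp
    rw [mem_Mx]
    refine ⟨Finset.union_subset_union hp.1.2 hp.2.2, ?_, ?_⟩
    · rw [Finset.disjoint_iff_inter_eq_empty, inter_self hd hp.1.2 hp.2.2]
      exact hp.1.1
    · rw [Finset.disjoint_iff_inter_eq_empty, inter_self' hd hp.1.2 hp.2.2]
      exact hp.2.1
  · intro T hT
    rw [mem_Mx] at hT
    rw [mem_product, mem_ne, mem_ne]
    exact ⟨⟨fun h => hT.2.1 (Finset.disjoint_iff_inter_eq_empty.2 h), Finset.inter_subset_right⟩,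
      ⟨fun h => hT.2.2 (Finset.disjoint_iff_inter_eq_empty.2 h), Finset.inter_subset_right⟩⟩
  · intro p hp
    rw [mem_product, mem_ne, mem_ne] at hp
    show ((p.1 ∪ p.2) ∩ K1, (p.1 ∪ p.2) ∩ K2) = p
    rw [inter_self hd hp.1.2 hp.2.2, inter_self' hd hp.1.2 hp.2.2]
  · intro T hT
    rw [mem_Mx] at hT
    show T ∩ K1 ∪ T ∩ K2 = T
    rw [← Finset.inter_union_distrib_left]
    exact Finset.inter_eq_left.2 hT.1
  · intro p _
    rfl

theorem ne_spl {K1 K2 : Finset S} (hd : Disjoint K1 K2) :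
    ne (K1 ∪ K2) = (ne K1 ∪ ne K2) ∪ Mx K1 K2 := by
  ext T
  rw [mem_union, mem_union, mem_ne, mem_ne, mem_ne, mem_Mx]
  constructor
  · rintro ⟨h1, h2⟩
    by_cases h3 : Disjoint T K1
    · left; right
      refine ⟨h1, fun x hx => ?_⟩
      rcases mem_union.1 (h2 hx) with h | h
      · exact absurd h (Finset.disjoint_left.1 h3 hx)
      · exact h
    · by_cases h4 : Disjoint T K2
      · left; left
        refine ⟨h1, fun x hx => ?_⟩
        rcases mem_union.1 (h2 hx) with h | h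
        · exact h
        · exact absurd h (Finset.disjoint_left.1 h4 hx)
      · right
        exact ⟨h2, h3, h4⟩
  · rintro ((⟨h1, h2⟩ | ⟨h1, h2⟩) | ⟨h1, h2, h3⟩)
    · exact ⟨h1, h2.trans Finset.subset_union_left⟩
    · exact ⟨h1, h2.trans Finset.subset_union_right⟩
    · refine ⟨?_, h1⟩
      rintro rfl
      exact h2 (Finset.disjoint_empty_left _)

theorem disj12 {K1 K2 : Finset S} (hd : Disjoint K1 K2) : Disjoint (ne K1) (ne K2) := by
  rw [Finset.disjoint_left]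
  intro T h1 h2
  rw [mem_ne] at h1 h2
  apply h1.1
  have := Finset.disjoint_of_subset_left h1.2 (Finset.disjoint_of_subset_right h2.2 hd)
  exact Finset.disjoint_self_iff_empty T |>.1 this

theorem disj3 {K1 K2 : Finset S} (hd : Disjoint K1 K2) :
    Disjoint (ne K1 ∪ ne K2) (Mx K1 K2) := by
  rw [Finset.disjoint_union_left]
  refine ⟨?_, Rt_disj hd⟩
  have := Rt_disj hd.symm
  rwa [Mx_symm] at this

theorem sum_ne {K1 K2 : Finset S} (hd : Disjoint K1 K2) (F : Finset S → ℝ) :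
    ∑ T ∈ ne (K1 ∪ K2), F T =
      ∑ P ∈ ne K1, F P + ∑ Q ∈ ne K2, F Q + ∑ T ∈ Mx K1 K2, F T := by
  rw [ne_spl hd, Finset.sum_union (disj3 hd), Finset.sum_union (disj12 hd)]

theorem wm_eq (w : Finset S → ℝ) (K2 P : Finset S) :
    wm w K2 P = w P + ∑ Q ∈ ne K2, w (P ∪ Q) := by
  unfold wm ne
  rw [← Finset.add_sum_erase _ _ (empty_mem_powerset K2), Finset.union_empty]

/-- the rate at time `0` -/
def r0 (K1 K2 : Finset S) (w : Finset S → ℝ) (u : ℝ) (T : Finset S) : ℝ :=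
  if T ∈ ne K1 then u * wm w K2 T else if T ∈ ne K2 then u * wm w K1 T else 0

/-- the slope -/
def sl (K1 K2 : Finset S) (w : Finset S → ℝ) (u : ℝ) (T : Finset S) : ℝ :=
  if T ∈ ne K1 then -(u * ∑ Q ∈ ne K2, w (T ∪ Q)) else
    if T ∈ ne K2 then -(u * ∑ P ∈ ne K1, w (T ∪ P)) else u * w T

end D5x

open D4x D5x in
theorem D5 (h1 : St_D1) (h2 : St_D2) (h4 : St_D4) : St_D5 := by
  intro S _ K1 K2 w κ u k₁ lam f1 f2 hd hw hκ hu hk hlam hsplit hκc hκk hf1 hf2 hA1 hA2
  set Θ := ne (K1 ∪ K2) with hΘ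
  set c := ∑ T ∈ Θ, w T with hc
  have hc0 : 0 ≤ c := Finset.sum_nonneg fun T _ => hw T
  set R0 := r0 K1 K2 w u with hR0
  set s := sl K1 K2 w u with hs
  set F : Finset (Finset S) → ℝ := fun B => f1 (un B ∩ K1) * f2 (un B ∩ K2) with hF
  set rt : ℝ → Finset S → ℝ := fun t T => R0 T + t * s T with hrt
  set Φ : ℝ → ℝ := fun t => BE Θ (rt t) F with hΦ
  have d12 := disj12 hd
  have n1 : ∀ T ∈ ne K1, R0 T = u * wm w K2 T ∧ s T = -(u * ∑ Q ∈ ne K2, w (T ∪ Q)) := by
    intro T hT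
    rw [hR0, hs]
    unfold r0 sl
    exact ⟨if_pos hT, if_pos hT⟩
  have n2 : ∀ T ∈ ne K2, R0 T = u * wm w K1 T ∧ s T = -(u * ∑ Q ∈ ne K1, w (T ∪ Q)) := by
    intro T hT
    have hT' : T ∉ ne K1 := fun h => Finset.disjoint_left.1 d12 h hT
    rw [hR0, hs]
    unfold r0 sl
    rw [if_neg hT', if_neg hT', if_pos hT, if_pos hT]
    exact ⟨rfl, rfl⟩
  have n3 : ∀ T ∈ Mx K1 K2, R0 T = 0 ∧ s T = u * w T := by
    intro T hT
    have d := disj3 hd
    have hT' : T ∉ ne K1 := fun h => Finset.disjoint_left.1 d (mem_union_left _ h) hT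
    have hT'' : T ∉ ne K2 := fun h => Finset.disjoint_left.1 d (mem_union_right _ h) hT
    rw [hR0, hs]
    unfold r0 sl
    rw [if_neg hT', if_neg hT', if_neg hT'', if_neg hT'']
    exact ⟨rfl, rfl⟩
  -- the rates
  have q1 : ∀ t, ∀ T ∈ ne K1, rt t T = u * w T + (1 - t) * (u * ∑ Q ∈ ne K2, w (T ∪ Q)) := by
    intro t T hT
    show R0 T + t * s T = _
    rw [(n1 T hT).1, (n1 T hT).2, wm_eq]
    ring
  have q2 : ∀ t, ∀ T ∈ ne K2, rt t T = u * w T + (1 - t) * (u * ∑ Q ∈ ne K1, w (T ∪ Q)) := by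
    intro t T hT
    show R0 T + t * s T = _
    rw [(n2 T hT).1, (n2 T hT).2, wm_eq]
    ring
  have q3 : ∀ t, ∀ T ∈ Mx K1 K2, rt t T = t * (u * w T) := by
    intro t T hT
    show R0 T + t * s T = _
    rw [(n3 T hT).1, (n3 T hT).2]
    ring
  have sn : ∀ (K T : Finset S), 0 ≤ ∑ Q ∈ ne K, w (T ∪ Q) := fun K T =>
    Finset.sum_nonneg fun Q _ => hw _
  -- derivative
  have hder : ∀ t, HasDerivAt Φ (∑ T ∈ Θ, s T * BE Θ (rt t)
      (fun B => F (insert T B) - F B)) t := fun t => h2 (Finset S) Θ R0 s F t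
  have hX : ∀ t, ∑ T ∈ Θ, s T * BE Θ (rt t) (fun B => F (insert T B) - F B) =
      u * ∑ P ∈ ne K1, ∑ Q ∈ ne K2, w (P ∪ Q) *
        BE Θ (rt t) (fun B => dd f1 K1 P B * dd f2 K2 Q B) := by
    intro t
    set X : Finset S → ℝ := fun T => BE Θ (rt t) (fun B => F (insert T B) - F B) with hXd
    have e0 : ∑ T ∈ Θ, s T * X T = ∑ P ∈ ne K1, s P * X P + ∑ Q ∈ ne K2, s Q * X Q +
        ∑ T ∈ Mx K1 K2, s T * X T := sum_ne hd _
    have e1 : ∑ P ∈ ne K1, s P * X P = -(u * ∑ P ∈ ne K1, ∑ Q ∈ ne K2, w (P ∪ Q) * X P) := by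
      rw [Finset.mul_sum, ← Finset.sum_neg_distrib]
      refine Finset.sum_congr rfl fun P hP => ?_
      rw [(n1 P hP).2, ← Finset.sum_mul]
      ring
    have e2 : ∑ Q ∈ ne K2, s Q * X Q = -(u * ∑ P ∈ ne K1, ∑ Q ∈ ne K2, w (P ∪ Q) * X Q) := by
      rw [Finset.sum_comm, Finset.mul_sum, ← Finset.sum_neg_distrib]
      refine Finset.sum_congr rfl fun Q hQ => ?_
      rw [(n2 Q hQ).2, ← Finset.sum_mul]
      have : ∑ P ∈ ne K1, w (Q ∪ P) = ∑ P ∈ ne K1, w (P ∪ Q) :=
        Finset.sum_congr rfl fun P _ => by rw [Finset.union_comm]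
      rw [this]
      ring
    have e3 : ∑ T ∈ Mx K1 K2, s T * X T =
        u * ∑ P ∈ ne K1, ∑ Q ∈ ne K2, w (P ∪ Q) * X (P ∪ Q) := by
      rw [← bij hd (fun T => w T * X T), Finset.mul_sum]
      refine Finset.sum_congr rfl fun T hT => ?_
      rw [(n3 T hT).2]
      ring
    rw [e0, e1, e2, e3]
    have e4 : ∀ P ∈ ne K1, ∀ Q ∈ ne K2, X (P ∪ Q) - X P - X Q =
        BE Θ (rt t) (fun B => dd f1 K1 P B * dd f2 K2 Q B) := by
      intro P hP Q hQ
      rw [mem_ne] at hP hQ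
      have hlin := (h1 (Finset S) Θ (rt t)).2.2.1
      have b1 : X (P ∪ Q) - X P - X Q = BE Θ (rt t) (fun B =>
          (F (insert (P ∪ Q) B) - F B) - (F (insert P B) - F B) - (F (insert Q B) - F B)) := by
        have c1 := hlin 1 (-1) (fun B => F (insert (P ∪ Q) B) - F B)
          (fun B => F (insert P B) - F B)
        have c2 := hlin 1 (-1) (fun B => 1 * (F (insert (P ∪ Q) B) - F B) +
          -1 * (F (insert P B) - F B)) (fun B => F (insert Q B) - F B)
        have c3 : (fun B => 1 * (1 * (F (insert (P ∪ Q) B) - F B) +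
            -1 * (F (insert P B) - F B)) + -1 * (F (insert Q B) - F B)) =
            (fun B => (F (insert (P ∪ Q) B) - F B) - (F (insert P B) - F B) -
              (F (insert Q B) - F B)) := by
          funext B
          ring
        rw [c3, c1] at c2
        rw [c2]
        show BE Θ (rt t) _ - BE Θ (rt t) _ - BE Θ (rt t) _ = _
        ring
      rw [b1]
      congr 1
      funext B
      have p1 : (un B ∪ (P ∪ Q)) ∩ K1 = (un B ∪ P) ∩ K1 := by
        rw [inter_un, inter_un (K1) (un B) P, inter_self hd hP.2 hQ.2,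
          Finset.inter_eq_left.2 hP.2]
      have p2 : (un B ∪ (P ∪ Q)) ∩ K2 = (un B ∪ Q) ∩ K2 := by
        rw [inter_un, inter_un (K2) (un B) Q, inter_self' hd hP.2 hQ.2,
          Finset.inter_eq_left.2 hQ.2]
      have p3 : (un B ∪ P) ∩ K2 = un B ∩ K2 := by
        rw [inter_un, inter_empty hd hP.2, Finset.union_empty]
      have p4 : (un B ∪ Q) ∩ K1 = un B ∩ K1 := by
        rw [inter_un, inter_empty hd.symm hQ.2, Finset.union_empty]
      show f1 (un (insert (P ∪ Q) B) ∩ K1) * f2 (un (insert (P ∪ Q) B) ∩ K2) -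
          f1 (un B ∩ K1) * f2 (un B ∩ K2) -
          (f1 (un (insert P B) ∩ K1) * f2 (un (insert P B) ∩ K2) -
            f1 (un B ∩ K1) * f2 (un B ∩ K2)) -
          (f1 (un (insert Q B) ∩ K1) * f2 (un (insert Q B) ∩ K2) -
            f1 (un B ∩ K1) * f2 (un B ∩ K2)) = dd f1 K1 P B * dd f2 K2 Q B
      unfold dd
      rw [un_insert, un_insert, un_insert, p1, p2, p3, p4]
      ring
    have e5 : ∑ P ∈ ne K1, ∑ Q ∈ ne K2, w (P ∪ Q) *
        BE Θ (rt t) (fun B => dd f1 K1 P B * dd f2 K2 Q B) =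
        ∑ P ∈ ne K1, ∑ Q ∈ ne K2, w (P ∪ Q) * X (P ∪ Q) -
        ∑ P ∈ ne K1, ∑ Q ∈ ne K2, w (P ∪ Q) * X P -
        ∑ P ∈ ne K1, ∑ Q ∈ ne K2, w (P ∪ Q) * X Q := by
      rw [← Finset.sum_sub_distrib, ← Finset.sum_sub_distrib]
      refine Finset.sum_congr rfl fun P hP => ?_
      rw [← Finset.sum_sub_distrib, ← Finset.sum_sub_distrib]
      refine Finset.sum_congr rfl fun Q hQ => ?_
      rw [← e4 P hP Q hQ]
      ring
    rw [e5]
    ring
  set γ := 3 * u * κ * lam ^ 2 with hγ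
  have hγ0 : 0 ≤ γ := by positivity
  -- the differential inequality
  have hineq : ∀ t, 0 ≤ t → t ≤ 1 →
      u * ∑ P ∈ ne K1, ∑ Q ∈ ne K2, w (P ∪ Q) *
        BE Θ (rt t) (fun B => dd f1 K1 P B * dd f2 K2 Q B) ≤ γ * Φ t + Real.exp (-k₁) := by
    intro t ht0 ht1
    have r1 : ∀ P ∈ ne K1, u * w P ≤ rt t P := by
      intro P hP
      rw [q1 t P hP]
      have := mul_nonneg (sub_nonneg.2 ht1) (mul_nonneg hu.le (sn K2 P))
      linarith
    have r2 : ∀ P ∈ ne K2, u * w P ≤ rt t P := by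
      intro P hP
      rw [q2 t P hP]
      have := mul_nonneg (sub_nonneg.2 ht1) (mul_nonneg hu.le (sn K1 P))
      linarith
    have r3 : ∀ T ∈ Θ, 0 ≤ rt t T := by
      intro T hT
      rw [hΘ, ne_spl hd, mem_union, mem_union] at hT
      rcases hT with (hT | hT) | hT
      · exact (mul_nonneg hu.le (hw T)).trans (r1 T hT)
      · exact (mul_nonneg hu.le (hw T)).trans (r2 T hT)
      · rw [q3 t T hT]
        exact mul_nonneg ht0 (mul_nonneg hu.le (hw T))
    have cs : c = ∑ P ∈ ne K1, w P + ∑ Q ∈ ne K2, w Q + ∑ T ∈ Mx K1 K2, w T := sum_ne hd _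
    have r4 : ∑ T ∈ Θ, rt t T ≤ 3 * u * c := by
      have e0 : ∑ T ∈ Θ, rt t T = ∑ P ∈ ne K1, rt t P + ∑ Q ∈ ne K2, rt t Q +
        ∑ T ∈ Mx K1 K2, rt t T := sum_ne hd _
      have e1 : ∑ P ∈ ne K1, rt t P = u * ∑ P ∈ ne K1, w P +
          (1 - t) * (u * ∑ T ∈ Mx K1 K2, w T) := by
        rw [Finset.sum_congr rfl fun P hP => q1 t P hP, Finset.sum_add_distrib,
          ← Finset.mul_sum, ← Finset.mul_sum, ← Finset.mul_sum, ← bij hd]
      have e2 : ∑ P ∈ ne K2, rt t P = u * ∑ P ∈ ne K2, w P +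
          (1 - t) * (u * ∑ T ∈ Mx K1 K2, w T) := by
        rw [Finset.sum_congr rfl fun P hP => q2 t P hP, Finset.sum_add_distrib,
          ← Finset.mul_sum, ← Finset.mul_sum, ← Finset.mul_sum, bij hd, Finset.sum_comm]
        congr 3
        exact Finset.sum_congr rfl fun P _ => Finset.sum_congr rfl fun Q _ => by
          rw [Finset.union_comm]
      have e3 : ∑ T ∈ Mx K1 K2, rt t T = t * (u * ∑ T ∈ Mx K1 K2, w T) := by
        rw [Finset.sum_congr rfl fun P hP => q3 t P hP, ← Finset.mul_sum, ← Finset.mul_sum]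
      rw [e0, e1, e2, e3, cs]
      have a1 : 0 ≤ ∑ P ∈ ne K1, w P := Finset.sum_nonneg fun T _ => hw T
      have a2 : 0 ≤ ∑ P ∈ ne K2, w P := Finset.sum_nonneg fun T _ => hw T
      have a3 : 0 ≤ ∑ P ∈ Mx K1 K2, w P := Finset.sum_nonneg fun T _ => hw T
      have a4 : 0 ≤ u * ∑ P ∈ ne K1, w P := mul_nonneg hu.le a1
      have a5 : 0 ≤ u * ∑ P ∈ ne K2, w P := mul_nonneg hu.le a2
      have a6 : 0 ≤ u * ∑ P ∈ Mx K1 K2, w P := mul_nonneg hu.le a3
      have a7 : 0 ≤ t * (u * ∑ P ∈ Mx K1 K2, w P) := mul_nonneg ht0 a6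
      nlinarith
    have main := h4 S K1 K2 w (rt t) κ u k₁ f1 f2 hd hw hκ hu hk hsplit hκc hκk r3 r1 r2 r4
      hf1 hf2
    -- the left side of D4
    have l1 : ∑ T ∈ ne (K1 ∪ K2), w T * BE (ne (K1 ∪ K2)) (rt t)
        (fun B => dd f1 K1 T B * dd f2 K2 T B) = ∑ P ∈ ne K1, ∑ Q ∈ ne K2, w (P ∪ Q) *
        BE Θ (rt t) (fun B => dd f1 K1 P B * dd f2 K2 Q B) := by
      rw [sum_ne hd, bij hd]
      have z1 : ∀ T ∈ ne K1, w T * BE (ne (K1 ∪ K2)) (rt t)
          (fun B => dd f1 K1 T B * dd f2 K2 T B) = 0 := by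
        intro T hT
        rw [mem_ne] at hT
        have : (fun B => dd f1 K1 T B * dd f2 K2 T B) = fun _ => (0 : ℝ) := by
          funext B
          rw [dd_zero f2 K2 T B (inter_empty hd hT.2), mul_zero]
        rw [this]
        unfold BE
        rw [Finset.sum_eq_zero fun B _ => mul_zero _, mul_zero]
      have z2 : ∀ T ∈ ne K2, w T * BE (ne (K1 ∪ K2)) (rt t)
          (fun B => dd f1 K1 T B * dd f2 K2 T B) = 0 := by
        intro T hT
        rw [mem_ne] at hT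
        have : (fun B => dd f1 K1 T B * dd f2 K2 T B) = fun _ => (0 : ℝ) := by
          funext B
          rw [dd_zero f1 K1 T B (inter_empty hd.symm hT.2), zero_mul]
        rw [this]
        unfold BE
        rw [Finset.sum_eq_zero fun B _ => mul_zero _, mul_zero]
      rw [Finset.sum_eq_zero z1, Finset.sum_eq_zero z2, zero_add, zero_add]
      refine Finset.sum_congr rfl fun P hP => Finset.sum_congr rfl fun Q hQ => ?_
      rw [mem_ne] at hP hQ
      congr 2
      funext B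
      rw [dd_congr f1 K1 (P ∪ Q) P B (by
          rw [inter_self hd hP.2 hQ.2, Finset.inter_eq_left.2 hP.2]),
        dd_congr f2 K2 (P ∪ Q) Q B (by
          rw [inter_self' hd hP.2 hQ.2, Finset.inter_eq_left.2 hQ.2])]
    rw [l1] at main
    -- the bound for M₀
    have m1 : ∑ P ∈ ne K1, ∑ Q ∈ ne K2, w P * w Q *
        BE (ne (K1 ∪ K2)) (rt t) (fun B => dd f1 K1 P B * dd f2 K2 Q B) ≤ lam ^ 2 * Φ t := by
      have a1 : ∑ P ∈ ne K1, ∑ Q ∈ ne K2, w P * w Q *
          BE (ne (K1 ∪ K2)) (rt t) (fun B => dd f1 K1 P B * dd f2 K2 Q B) =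
          BE Θ (rt t) (fun B => (∑ P ∈ ne K1, w P * dd f1 K1 P B) *
            (∑ Q ∈ ne K2, w Q * dd f2 K2 Q B)) := by
        have a2 : (fun B => (∑ P ∈ ne K1, w P * dd f1 K1 P B) *
            (∑ Q ∈ ne K2, w Q * dd f2 K2 Q B)) = fun B => ∑ P ∈ ne K1, ∑ Q ∈ ne K2,
              w P * w Q * (dd f1 K1 P B * dd f2 K2 Q B) := by
          funext B
          rw [Finset.sum_mul_sum]
          refine Finset.sum_congr rfl fun P _ => Finset.sum_congr rfl fun Q _ => ?_
          ring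
        rw [a2, BE_sum]
        refine Finset.sum_congr rfl fun P _ => ?_
        rw [BE_sum]
        refine Finset.sum_congr rfl fun Q _ => ?_
        rw [BE_smul]
      have hmono := (h1 (Finset S) Θ (rt t)).2.2.2.1 r3
      rw [a1]
      show _ ≤ lam ^ 2 * BE Θ (rt t) F
      rw [← BE_smul]
      refine hmono _ _ fun B _ => ?_
      have b1 : ∑ P ∈ ne K1, w P * dd f1 K1 P B ≤ lam * f1 (un B ∩ K1) := by
        refine le_trans (le_of_eq ?_) (hA1 (un B ∩ K1) Finset.inter_subset_right)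
        refine Finset.sum_congr rfl fun P hP => ?_
        rw [mem_ne] at hP
        unfold dd
        rw [inter_un, Finset.inter_eq_left.2 hP.2]
      have b2 : ∑ P ∈ ne K2, w P * dd f2 K2 P B ≤ lam * f2 (un B ∩ K2) := by
        refine le_trans (le_of_eq ?_) (hA2 (un B ∩ K2) Finset.inter_subset_right)
        refine Finset.sum_congr rfl fun P hP => ?_
        rw [mem_ne] at hP
        unfold dd
        rw [inter_un, Finset.inter_eq_left.2 hP.2]
      have b3 : 0 ≤ ∑ P ∈ ne K2, w P * dd f2 K2 P B :=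
        Finset.sum_nonneg fun P _ => mul_nonneg (hw P) (dd_nonneg hf2 _ _ _)
      have b4 : 0 ≤ lam * f1 (un B ∩ K1) := mul_nonneg hlam (hf1.2 _).1
      refine (mul_le_mul b1 b2 b3 b4).trans (le_of_eq ?_)
      show _ = lam ^ 2 * (f1 (un B ∩ K1) * f2 (un B ∩ K2))
      ring
    have m2 := mul_le_mul_of_nonneg_left main hu.le
    refine m2.trans ?_
    have m3 : u * (3 * κ * (∑ P ∈ ne K1, ∑ Q ∈ ne K2, w P * w Q *
        BE (ne (K1 ∪ K2)) (rt t) (fun B => dd f1 K1 P B * dd f2 K2 Q B) +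
        (∑ T ∈ ne (K1 ∪ K2), w T) * (Real.exp (-k₁) / u))) =
        3 * u * κ * (∑ P ∈ ne K1, ∑ Q ∈ ne K2, w P * w Q *
        BE (ne (K1 ∪ K2)) (rt t) (fun B => dd f1 K1 P B * dd f2 K2 Q B)) +
        3 * (κ * c) * Real.exp (-k₁) := by
      rw [hc, hΘ]
      field_simp
    rw [m3]
    have m4 : 3 * u * κ * (∑ P ∈ ne K1, ∑ Q ∈ ne K2, w P * w Q *
        BE (ne (K1 ∪ K2)) (rt t) (fun B => dd f1 K1 P B * dd f2 K2 Q B)) ≤
        3 * u * κ * (lam ^ 2 * Φ t) := mul_le_mul_of_nonneg_left m1 (by positivity)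
    have m5 : 3 * (κ * c) * Real.exp (-k₁) ≤ 1 * Real.exp (-k₁) := by
      refine mul_le_mul_of_nonneg_right ?_ (Real.exp_pos _).le
      have : κ * c ≤ 1 / 1000 := hκc
      linarith
    have m6 : 3 * u * κ * (lam ^ 2 * Φ t) = γ * Φ t := by
      rw [hγ]
      ring
    linarith
  -- Gronwall
  set G : ℝ → ℝ := fun t => Real.exp (-(γ * t)) * Φ t - Real.exp (-k₁) * t with hG
  have hGd : ∀ t, HasDerivAt G (Real.exp (-(γ * t)) * (-γ) * Φ t + Real.exp (-(γ * t)) *
      (u * ∑ P ∈ ne K1, ∑ Q ∈ ne K2, w (P ∪ Q) *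
        BE Θ (rt t) (fun B => dd f1 K1 P B * dd f2 K2 Q B)) - Real.exp (-k₁) * 1) t := by
    intro t
    have a1 : HasDerivAt (fun t : ℝ => Real.exp (-(γ * t))) (Real.exp (-(γ * t)) * (-γ)) t := by
      have := ((hasDerivAt_id t).const_mul γ).neg.exp
      simpa using this
    have a2 := hder t
    rw [hX t] at a2
    exact (a1.mul a2).sub ((hasDerivAt_id t).const_mul _)
  have hanti : AntitoneOn G (Set.Icc 0 1) := by
    refine antitoneOn_of_deriv_nonpos (convex_Icc 0 1)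
      (fun t _ => (hGd t).continuousAt.continuousWithinAt)
      (fun t _ => (hGd t).differentiableAt.differentiableWithinAt) fun t ht => ?_
    rw [interior_Icc] at ht
    rw [(hGd t).deriv]
    have a1 := hineq t ht.1.le ht.2.le
    have a2 := mul_le_mul_of_nonneg_left a1 (Real.exp_pos (-(γ * t))).le
    have a3 : Real.exp (-(γ * t)) ≤ 1 := by
      rw [Real.exp_le_one_iff]
      have := mul_nonneg hγ0 ht.1.le
      linarith
    have a4 : Real.exp (-(γ * t)) * Real.exp (-k₁) ≤ 1 * Real.exp (-k₁) :=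
      mul_le_mul_of_nonneg_right a3 (Real.exp_pos _).le
    nlinarith [a2, a4]
  have hfin := hanti (Set.left_mem_Icc.2 zero_le_one) (Set.right_mem_Icc.2 zero_le_one)
    zero_le_one
  have g1 : G 1 = Real.exp (-γ) * Φ 1 - Real.exp (-k₁) := by
    show Real.exp (-(γ * 1)) * Φ 1 - Real.exp (-k₁) * 1 = _
    rw [mul_one, mul_one]
  have g0 : G 0 = Φ 0 := by
    show Real.exp (-(γ * 0)) * Φ 0 - Real.exp (-k₁) * 0 = _
    rw [mul_zero, neg_zero, Real.exp_zero, one_mul, mul_zero, sub_zero]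
  rw [g1, g0] at hfin
  have hfin' : Φ 1 ≤ Real.exp γ * (Φ 0 + Real.exp (-k₁)) := by
    have a1 : Real.exp (-γ) * Φ 1 ≤ Φ 0 + Real.exp (-k₁) := by linarith
    have a2 := mul_le_mul_of_nonneg_left a1 (Real.exp_pos γ).le
    rw [← mul_assoc, ← Real.exp_add, add_neg_cancel, Real.exp_zero, one_mul] at a2
    exact a2
  -- the end points
  have p1 : Φ 1 = BE (ne (K1 ∪ K2)) (fun T => u * w T)
      (fun B => f1 (un B ∩ K1) * f2 (un B ∩ K2)) := by
    refine BE_congr (fun T hT => ?_) fun B _ => rfl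
    rw [hΘ, ne_spl hd, mem_union, mem_union] at hT
    rcases hT with (hT | hT) | hT
    · rw [q1 1 T hT]; ring
    · rw [q2 1 T hT]; ring
    · rw [q3 1 T hT]; ring
  have p0 : Φ 0 = BE (ne K1) (fun P => u * wm w K2 P) (fun B => f1 (un B)) *
      BE (ne K2) (fun P => u * wm w K1 P) (fun B => f2 (un B)) := by
    have a0 := (h1 (Finset S) Θ (rt 0)).2.2.2.2.2.2.2.1 (ne K1 ∪ ne K2) F (by
      rw [hΘ, ne_spl hd]; exact Finset.subset_union_left) (by
      intro T hT
      have hT' : T ∈ Mx K1 K2 := by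
        rw [hΘ, ne_spl hd, mem_sdiff, mem_union] at hT
        rcases hT.1 with h | h
        · exact absurd h hT.2
        · exact h
      rw [q3 0 T hT', zero_mul])
    show BE Θ (rt 0) F = _
    rw [a0]
    have a1 := (h1 (Finset S) (ne K1) (rt 0)).2.2.2.2.2.2.1 (ne K2) (fun B => f1 (un B))
      (fun B => f2 (un B)) d12
    have a2 : BE (ne K1 ∪ ne K2) (rt 0) F = BE (ne K1 ∪ ne K2) (rt 0)
        (fun B => f1 (un (B ∩ ne K1)) * f2 (un (B ∩ ne K2))) := by
      refine BE_congr (fun _ _ => rfl) fun B hB => ?_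
      have b1 : un B ∩ K1 = un (B ∩ ne K1) := by
        ext x
        rw [mem_inter, mem_un, mem_un]
        constructor
        · rintro ⟨⟨T, hT, hx⟩, hx1⟩
          refine ⟨T, ?_, hx⟩
          rw [mem_inter]
          refine ⟨hT, ?_⟩
          rcases mem_union.1 (hB hT) with h | h
          · exact h
          · rw [mem_ne] at h
            exact absurd (h.2 hx) (Finset.disjoint_left.1 hd hx1)
        · rintro ⟨T, hT, hx⟩
          rw [mem_inter, mem_ne] at hT
          exact ⟨⟨T, hT.1, hx⟩, hT.2.2 hx⟩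
      have b2 : un B ∩ K2 = un (B ∩ ne K2) := by
        ext x
        rw [mem_inter, mem_un, mem_un]
        constructor
        · rintro ⟨⟨T, hT, hx⟩, hx1⟩
          refine ⟨T, ?_, hx⟩
          rw [mem_inter]
          refine ⟨hT, ?_⟩
          rcases mem_union.1 (hB hT) with h | h
          · rw [mem_ne] at h
            exact absurd hx1 (Finset.disjoint_left.1 hd (h.2 hx))
          · exact h
        · rintro ⟨T, hT, hx⟩
          rw [mem_inter, mem_ne] at hT
          exact ⟨⟨T, hT.1, hx⟩, hT.2.2 hx⟩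
      show f1 (un B ∩ K1) * f2 (un B ∩ K2) = _
      rw [b1, b2]
    rw [a2, a1]
    congr 1
    · refine BE_congr (fun T hT => ?_) fun B _ => rfl
      show R0 T + 0 * s T = _
      rw [(n1 T hT).1]
      ring
    · refine BE_congr (fun T hT => ?_) fun B _ => rfl
      show R0 T + 0 * s T = _
      rw [(n2 T hT).1]
      ring
  rw [p1, p0] at hfin'
  exact hfin'

end PLS
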