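import Pool.Agent.PLS.StD

/-!
# PLS D6: the resolvent function
-/

set_option autoImplicit false
set_option linter.unusedVariables false

open Finset Filter Topology MeasureTheory RInt

noncomputable section

namespace PLS

namespace D6x

variable {S : Type} [DecidableEq S]

theorem Bo_apply (K : Finset S) (w : Finset S → ℝ) (ch : ℝ) (f : Finset S → ℝ) (ω : Finset S) :
    Bo K w ch f ω = f ω + (∑ P ∈ ne K, w P * (f (ω ∪ P) - f ω)) / ch := rfl

theorem Bo_conv (K : Finset S) (w : Finset S → ℝ) {ch : ℝ} (hch : 0 < ch) (f : Finset S → ℝ)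
    (ω : Finset S) :
    Bo K w ch f ω = (1 - (∑ P ∈ ne K, w P) / ch) * f ω +
      ∑ P ∈ ne K, w P / ch * f (ω ∪ P) := by
  rw [Bo_apply]
  have h1 : ∑ P ∈ ne K, w P * (f (ω ∪ P) - f ω) =
      ∑ P ∈ ne K, w P * f (ω ∪ P) - (∑ P ∈ ne K, w P) * f ω := by
    rw [Finset.sum_mul, ← Finset.sum_sub_distrib]
    exact Finset.sum_congr rfl fun P _ => by ring
  have h2 : ∑ P ∈ ne K, w P / ch * f (ω ∪ P) = (∑ P ∈ ne K, w P * f (ω ∪ P)) / ch := by
    rw [Finset.sum_div]
    exact Finset.sum_congr rfl fun P _ => by ring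
  rw [h1, h2]
  ring

theorem Bo_mo (K : Finset S) (w : Finset S → ℝ) {ch : ℝ} (hch : 0 < ch) (hw : ∀ T, 0 ≤ w T)
    (hc : ∑ P ∈ ne K, w P ≤ ch) {f : Finset S → ℝ} (hf : Mo f) : Mo (Bo K w ch f) := by
  have h0 : 0 ≤ 1 - (∑ P ∈ ne K, w P) / ch := by
    rw [sub_nonneg, div_le_one hch]
    exact hc
  refine ⟨?_, ?_⟩
  · intro A B hAB
    rw [Bo_conv K w hch, Bo_conv K w hch]
    refine add_le_add (mul_le_mul_of_nonneg_left (hf.1 A B hAB) h0) ?_
    refine Finset.sum_le_sum fun P _ => ?_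
    exact mul_le_mul_of_nonneg_left (hf.1 _ _ (Finset.union_subset_union_left hAB))
      (div_nonneg (hw P) hch.le)
  · intro A
    rw [Bo_conv K w hch]
    constructor
    · refine add_nonneg (mul_nonneg h0 (hf.2 A).1) ?_
      exact Finset.sum_nonneg fun P _ => mul_nonneg (div_nonneg (hw P) hch.le) (hf.2 _).1
    · have h1 : (1 - (∑ P ∈ ne K, w P) / ch) * f A ≤ (1 - (∑ P ∈ ne K, w P) / ch) * 1 :=
        mul_le_mul_of_nonneg_left (hf.2 A).2 h0
      have h2 : ∑ P ∈ ne K, w P / ch * f (A ∪ P) ≤ ∑ P ∈ ne K, w P / ch :=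
        Finset.sum_le_sum fun P _ => by
          have := mul_le_mul_of_nonneg_left (hf.2 (A ∪ P)).2 (div_nonneg (hw P) hch.le)
          linarith
      have h3 : ∑ P ∈ ne K, w P / ch = (∑ P ∈ ne K, w P) / ch := by rw [Finset.sum_div]
      linarith

theorem le_Bo (K : Finset S) (w : Finset S → ℝ) {ch : ℝ} (hch : 0 < ch) (hw : ∀ T, 0 ≤ w T)
    {f : Finset S → ℝ} (hf : Mo f) (ω : Finset S) : f ω ≤ Bo K w ch f ω := by
  rw [Bo_apply]
  have h1 : 0 ≤ ∑ P ∈ ne K, w P * (f (ω ∪ P) - f ω) :=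
    Finset.sum_nonneg fun P _ => mul_nonneg (hw P)
      (sub_nonneg.2 (hf.1 _ _ Finset.subset_union_left))
  have := div_nonneg h1 hch.le
  linarith

end D6x

open D6x

theorem D6 : St_D6 := by
  intro S _ K w ch lam f hw hc hch hlam hf
  set q : ℝ := ch / (lam + ch) with hq
  have hlc : 0 < lam + ch := by linarith
  have hq0 : 0 < q := div_pos hch hlc
  have hq1 : q < 1 := by
    rw [hq, div_lt_one hlc]
    linarith
  set g : ℕ → Finset S → ℝ := fun j => (Bo K w ch)^[j] f with hg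
  have hgs : ∀ j, g (j + 1) = Bo K w ch (g j) := fun j => Function.iterate_succ_apply' _ _ _
  have hgm : ∀ j, Mo (g j) := by
    intro j
    induction j with
    | zero => exact hf
    | succ j ih =>
      rw [hgs]
      exact Bo_mo K w hch hw hc ih
  have hgle : ∀ j ω, g j ω ≤ g (j + 1) ω := by
    intro j ω
    rw [hgs]
    exact le_Bo K w hch hw (hgm j) ω
  have hmono : ∀ ω, Monotone fun j => g j ω := fun ω => monotone_nat_of_le_succ fun j => hgle j ω
  -- the geometric series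
  have hgeo : HasSum (fun j : ℕ => (1 - q) * q ^ j) 1 := by
    have h := (hasSum_geometric_of_lt_one hq0.le hq1).mul_left (1 - q)
    rwa [mul_inv_cancel₀ (by linarith)] at h
  have hnn : ∀ j : ℕ, 0 ≤ (1 - q) * q ^ j := fun j =>
    mul_nonneg (by linarith) (pow_nonneg hq0.le j)
  have hsum : ∀ ω, Summable fun j : ℕ => (1 - q) * q ^ j * g j ω := by
    intro ω
    refine Summable.of_nonneg_of_le (fun j => mul_nonneg (hnn j) ((hgm j).2 ω).1) (fun j => ?_)
      hgeo.summable
    have := mul_le_mul_of_nonneg_left ((hgm j).2 ω).2 (hnn j)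
    linarith
  set F : Finset S → ℝ := fun ω => ∑' j : ℕ, (1 - q) * q ^ j * g j ω with hF
  have hFs : ∀ ω, HasSum (fun j : ℕ => (1 - q) * q ^ j * g j ω) (F ω) := fun ω =>
    (hsum ω).hasSum
  refine ⟨F, ⟨?_, ?_⟩, ?_, ?_, ?_⟩
  · intro A B hAB
    exact hasSum_le (fun j => mul_le_mul_of_nonneg_left ((hgm j).1 A B hAB) (hnn j)) (hFs A)
      (hFs B)
  · intro A
    refine ⟨tsum_nonneg fun j => mul_nonneg (hnn j) ((hgm j).2 A).1,
      hasSum_le (fun j => ?_) (hFs A) hgeo⟩
    · have := mul_le_mul_of_nonneg_left ((hgm j).2 A).2 (hnn j)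
      linarith
  · intro ω
    have h1 := hgeo.mul_right (f ω)
    rw [one_mul] at h1
    exact hasSum_le (fun j => mul_le_mul_of_nonneg_left (hmono ω (Nat.zero_le j)) (hnn j)) h1
      (hFs ω)
  · intro ω
    -- the value of `Bo F`
    have h1 : HasSum (fun j : ℕ => (1 - q) * q ^ j * g (j + 1) ω) (Bo K w ch F ω) := by
      rw [Bo_apply]
      have h2 : HasSum (fun j : ℕ => ∑ P ∈ ne K, w P * ((1 - q) * q ^ j * g j (ω ∪ P) -
          (1 - q) * q ^ j * g j ω)) (∑ P ∈ ne K, w P * (F (ω ∪ P) - F ω)) :=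
        hasSum_sum fun P _ => ((hFs (ω ∪ P)).sub (hFs ω)).mul_left (w P)
      have h3 := (hFs ω).add (h2.div_const ch)
      refine h3.congr_fun ?_
      intro j
      rw [hgs, Bo_apply]
      have h4 : ∑ P ∈ ne K, w P * ((1 - q) * q ^ j * g j (ω ∪ P) - (1 - q) * q ^ j * g j ω) =
          (1 - q) * q ^ j * ∑ P ∈ ne K, w P * (g j (ω ∪ P) - g j ω) := by
        rw [Finset.mul_sum]
        exact Finset.sum_congr rfl fun P _ => by ring
      rw [h4]
      ring
    have h5 : HasSum (fun j : ℕ => (1 - q) * q ^ (j + 1) * g (j + 1) ω) (q * Bo K w ch F ω) := by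
      refine (h1.mul_left q).congr_fun ?_
      intro j
      rw [pow_succ]
      ring
    have h6 : F ω = (1 - q) * f ω + q * Bo K w ch F ω := by
      have h7 := (hasSum_nat_add_iff' 1).2 (hFs ω)
      have h8 := h7.unique h5
      simp only [Finset.range_one, Finset.sum_singleton, pow_zero, mul_one] at h8
      have h9 : g 0 ω = f ω := rfl
      rw [h9] at h8
      linarith
    have h10 : q * Bo K w ch F ω ≤ F ω := by
      have := mul_nonneg (by linarith : 0 ≤ 1 - q) (hf.2 ω).1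
      linarith
    have h11 : ∑ P ∈ ne K, w P * (F (ω ∪ P) - F ω) = ch * (Bo K w ch F ω - F ω) := by
      rw [Bo_apply]
      field_simp
      ring
    rw [h11]
    have h12 : q * (lam + ch) = ch := by
      rw [hq]
      field_simp
    have h13 : ch * Bo K w ch F ω ≤ (lam + ch) * F ω := by
      calc ch * Bo K w ch F ω = (lam + ch) * (q * Bo K w ch F ω) := by
            rw [← mul_assoc, mul_comm (lam + ch) q, h12]
        _ ≤ (lam + ch) * F ω := mul_le_mul_of_nonneg_left h10 hlc.le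
    linarith
  · intro J ω
    have h1 := (hsum ω).sum_add_tsum_nat_add J
    have h2 : ∑ j ∈ Finset.range J, (1 - q) * q ^ j * g j ω ≤ (1 - q ^ J) * g J ω := by
      have h3 : ∑ j ∈ Finset.range J, (1 - q) * q ^ j * g j ω ≤
          ∑ j ∈ Finset.range J, (1 - q) * q ^ j * g J ω :=
        Finset.sum_le_sum fun j hj => mul_le_mul_of_nonneg_left
          (hmono ω (Finset.mem_range.1 hj).le) (hnn j)
      refine h3.trans (le_of_eq ?_)
      rw [← Finset.sum_mul, ← Finset.mul_sum, mul_neg_geom_sum]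
    have h4 : HasSum (fun j : ℕ => (1 - q) * q ^ (j + J)) (q ^ J) := by
      have h5 := hgeo.mul_left (q ^ J)
      rw [mul_one] at h5
      refine h5.congr_fun ?_
      intro j
      rw [pow_add]
      ring
    have h6 : ∑' j : ℕ, (1 - q) * q ^ (j + J) * g (j + J) ω ≤ q ^ J := by
      refine hasSum_le (fun j => ?_) ((summable_nat_add_iff J).2 (hsum ω)).hasSum h4
      have := mul_le_mul_of_nonneg_left ((hgm (j + J)).2 ω).2 (hnn (j + J))
      linarith
    have h7 : F ω = ∑ j ∈ Finset.range J, (1 - q) * q ^ j * g j ω +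
        ∑' j : ℕ, (1 - q) * q ^ (j + J) * g (j + J) ω := h1.symm
    rw [h7]
    have h8 : (1 - q ^ J) * g J ω ≤ g J ω := by
      have := mul_nonneg (pow_nonneg hq0.le J) ((hgm J).2 ω).1
      linarith
    have h9 : g J ω = (Bo K w ch)^[J] f ω := rfl
    rw [← h9]
    linarith

end PLS
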