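import Pool.Agent.PLS.StD

/-!
# PLS, D7: the law of the union of the clumps as a compound Poisson law
-/

set_option autoImplicit false

open Finset Filter Topology MeasureTheory RInt

noncomputable section

namespace PLS

namespace D7x

variable {S : Type} [DecidableEq S]

/-- Moebius inversion -/
def mob (g : Finset S → ℝ) (A : Finset S) : ℝ :=
  g A - ∑ B ∈ A.ssubsets.attach, mob g B.1
termination_by A.card
decreasing_by exact Finset.card_lt_card (Finset.mem_ssubsets.1 B.2)

lemma mob_sum (g : Finset S → ℝ) (A : Finset S) : g A = ∑ B ∈ A.powerset, mob g B := by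
  have h1 : A.powerset = insert A A.ssubsets := by
    unfold Finset.ssubsets
    rw [Finset.insert_erase (Finset.mem_powerset_self A)]
  have h2 : A ∉ A.ssubsets := by
    rw [Finset.mem_ssubsets]
    exact fun h => (ssubset_irrefl A) h
  rw [h1, Finset.sum_insert h2, mob, Finset.sum_attach A.ssubsets (fun B => mob g B)]
  ring

/-- void indicator -/
def v (B ω : Finset S) : ℝ := if Disjoint ω B then 1 else 0

lemma f_eq (K : Finset S) (f : Finset S → ℝ) (ω : Finset S) (hω : ω ⊆ K) :
    f ω = ∑ B ∈ K.powerset, mob (fun A => f (K \ A)) B * v B ω := by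
  have h1 := mob_sum (fun A => f (K \ A)) (K \ ω)
  beta_reduce at h1
  rw [Finset.sdiff_sdiff_eq_self hω] at h1
  rw [h1]
  have h2 : (K \ ω).powerset = K.powerset.filter (fun B => Disjoint ω B) := by
    ext B
    rw [Finset.mem_powerset, Finset.mem_filter, Finset.mem_powerset, Finset.subset_sdiff,
      disjoint_comm]
  rw [h2, Finset.sum_filter]
  refine Finset.sum_congr rfl fun B _ => ?_
  unfold v
  split_ifs
  · rw [mul_one]
  · rw [mul_zero]

/-- the rate of the types which meet `B` -/
def a (K : Finset S) (w : Finset S → ℝ) (B : Finset S) : ℝ :=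
  ∑ P ∈ ne K with ¬ Disjoint P B, w P

lemma v_union (B ω P : Finset S) : v B (ω ∪ P) - v B ω = -(if ¬ Disjoint P B then v B ω else 0) := by
  unfold v
  by_cases h1 : Disjoint ω B
  · by_cases h2 : Disjoint P B
    · have h3 : Disjoint (ω ∪ P) B := Finset.disjoint_union_left.2 ⟨h1, h2⟩
      rw [if_pos h1, if_pos h3, if_neg (not_not.2 h2)]
      ring
    · have h3 : ¬ Disjoint (ω ∪ P) B := fun h => h2 (Finset.disjoint_union_left.1 h).2
      rw [if_pos h1, if_neg h3, if_pos h2]
      ring
  · have h3 : ¬ Disjoint (ω ∪ P) B := fun h => h1 (Finset.disjoint_union_left.1 h).1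
    rw [if_neg h1, if_neg h3]
    split_ifs <;> ring

lemma v_step (K : Finset S) (w : Finset S → ℝ) (ch : ℝ) (B ω : Finset S) :
    v B ω + (∑ P ∈ ne K, w P * (v B (ω ∪ P) - v B ω)) / ch = (1 - a K w B / ch) * v B ω := by
  have h1 : ∑ P ∈ ne K, w P * (v B (ω ∪ P) - v B ω) = -(a K w B * v B ω) := by
    unfold a
    rw [Finset.sum_mul, ← Finset.sum_neg_distrib, Finset.sum_filter]
    refine Finset.sum_congr rfl fun P _ => ?_
    rw [v_union]
    split_ifs <;> ring
  rw [h1]
  ring

lemma iter (K : Finset S) (w : Finset S → ℝ) (ch : ℝ) (f c : Finset S → ℝ)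
    (hf : ∀ ω ⊆ K, f ω = ∑ B ∈ K.powerset, c B * v B ω) (n : ℕ) : ∀ ω ⊆ K,
    (Bo K w ch)^[n] f ω = ∑ B ∈ K.powerset, c B * (1 - a K w B / ch) ^ n * v B ω := by
  induction n with
  | zero =>
    intro ω hω
    rw [Function.iterate_zero, id, hf ω hω]
    refine Finset.sum_congr rfl fun B _ => ?_
    rw [pow_zero, mul_one]
  | succ n ih =>
    intro ω hω
    rw [Function.iterate_succ_apply']
    have h1 : Bo K w ch ((Bo K w ch)^[n] f) ω = (Bo K w ch)^[n] f ω +
        (∑ P ∈ ne K, w P * ((Bo K w ch)^[n] f (ω ∪ P) - (Bo K w ch)^[n] f ω)) / ch := rfl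
    rw [h1, ih ω hω]
    have h2 : ∑ P ∈ ne K, w P * ((Bo K w ch)^[n] f (ω ∪ P) -
        ∑ B ∈ K.powerset, c B * (1 - a K w B / ch) ^ n * v B ω) =
        ∑ B ∈ K.powerset, c B * (1 - a K w B / ch) ^ n *
          ∑ P ∈ ne K, w P * (v B (ω ∪ P) - v B ω) := by
      have h3 : ∀ P ∈ ne K, w P * ((Bo K w ch)^[n] f (ω ∪ P) -
          ∑ B ∈ K.powerset, c B * (1 - a K w B / ch) ^ n * v B ω) =
          ∑ B ∈ K.powerset, c B * (1 - a K w B / ch) ^ n *
            (w P * (v B (ω ∪ P) - v B ω)) := by
        intro P hP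
        unfold ne at hP
        rw [Finset.mem_erase, Finset.mem_powerset] at hP
        rw [ih (ω ∪ P) (Finset.union_subset hω hP.2), ← Finset.sum_sub_distrib, Finset.mul_sum]
        refine Finset.sum_congr rfl fun B _ => ?_
        ring
      rw [Finset.sum_congr rfl h3, Finset.sum_comm]
      refine Finset.sum_congr rfl fun B _ => ?_
      rw [Finset.mul_sum]
    rw [h2, Finset.sum_div, ← Finset.sum_add_distrib]
    refine Finset.sum_congr rfl fun B _ => ?_
    have h4 := v_step K w ch B ω
    linear_combination (c B * (1 - a K w B / ch) ^ n) * h4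

lemma un_sub (K : Finset S) (B : Finset (Finset S)) (hB : B ⊆ ne K) : un B ⊆ K := by
  unfold un
  rw [Finset.sup_le_iff]
  intro P hP
  have h1 := hB hP
  unfold ne at h1
  rw [Finset.mem_erase, Finset.mem_powerset] at h1
  exact h1.2

lemma v_un (K' : Finset S) (B : Finset (Finset S)) :
    v K' (un B) = if ∀ T ∈ B, ¬ ¬ Disjoint T K' then 1 else 0 := by
  unfold v un
  simp only [Finset.disjoint_sup_left, not_not, id]

lemma BE_eq (h1 : St_D1) (K : Finset S) (w : Finset S → ℝ) (u : ℝ) (f c : Finset S → ℝ)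
    (hf : ∀ ω ⊆ K, f ω = ∑ B ∈ K.powerset, c B * v B ω) :
    BE (ne K) (fun P => u * w P) (fun B => f (un B)) =
      ∑ B ∈ K.powerset, c B * Real.exp (-(u * a K w B)) := by
  have h2 : ∀ K' : Finset S, BE (ne K) (fun P => u * w P) (fun B => v K' (un B)) =
      Real.exp (-(u * a K w K')) := by
    intro K'
    obtain ⟨-, -, -, -, -, -, -, -, h3, -⟩ := h1 (Finset S) (ne K) (fun P => u * w P)
    have h4 := h3 (fun T => ¬ Disjoint T K')
    have h5 : (fun B : Finset (Finset S) => v K' (un B)) =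
        fun B => if ∀ T ∈ B, ¬ ¬ Disjoint T K' then 1 else 0 := by
      funext B
      exact v_un K' B
    rw [h5, h4]
    unfold a
    rw [Finset.mul_sum]
  have h6 : BE (ne K) (fun P => u * w P) (fun B => f (un B)) =
      ∑ K' ∈ K.powerset, c K' * BE (ne K) (fun P => u * w P) (fun B => v K' (un B)) := by
    unfold BE
    simp only [Finset.mul_sum]
    rw [Finset.sum_comm]
    refine Finset.sum_congr rfl fun B hB => ?_
    rw [hf (un B) (un_sub K B (Finset.mem_powerset.1 hB)), Finset.mul_sum]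
    refine Finset.sum_congr rfl fun K' _ => ?_
    ring
  rw [h6]
  exact Finset.sum_congr rfl fun K' _ => by rw [h2]

lemma hs (x z c : ℝ) : HasSum (fun n : ℕ => Real.exp (-x) * x ^ n / n.factorial * (c * z ^ n))
    (c * Real.exp (x * z - x)) := by
  have h1 : HasSum (fun n : ℕ => (x * z) ^ n / n.factorial) (Real.exp (x * z)) := by
    rw [Real.exp_eq_exp_ℝ]
    exact NormedSpace.expSeries_div_hasSum_exp (x * z)
  have h2 := h1.mul_left (c * Real.exp (-x))
  have h3 : c * Real.exp (-x) * Real.exp (x * z) = c * Real.exp (x * z - x) := by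
    rw [mul_assoc, ← Real.exp_add]
    ring_nf
  rw [h3] at h2
  refine h2.congr_fun ?_
  intro n
  rw [mul_pow]
  ring

end D7x

open D7x in
theorem D7 (h1 : St_D1) : St_D7 := by
  intro S _ K w ch u f _ _ hch _ _
  let c : Finset S → ℝ := mob (fun A => f (K \ A))
  have hf : ∀ ω ⊆ K, f ω = ∑ B ∈ K.powerset, c B * v B ω := fun ω hω => f_eq K f ω hω
  rw [BE_eq h1 K w u f c hf]
  have h2 : ∀ n : ℕ, Real.exp (-(u * ch)) * (u * ch) ^ n / n.factorial * (Bo K w ch)^[n] f ∅ =
      ∑ B ∈ K.powerset, Real.exp (-(u * ch)) * (u * ch) ^ n / n.factorial *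
        (c B * (1 - a K w B / ch) ^ n) := by
    intro n
    rw [iter K w ch f c hf n ∅ (Finset.empty_subset K), Finset.mul_sum]
    refine Finset.sum_congr rfl fun B _ => ?_
    unfold v
    rw [if_pos (Finset.disjoint_empty_left B), mul_one]
  simp only [h2]
  refine hasSum_sum fun B _ => ?_
  have h3 := hs (u * ch) (1 - a K w B / ch) (c B)
  have h4 : u * ch * (1 - a K w B / ch) - u * ch = -(u * a K w B) := by
    field_simp
    ring
  rw [h4] at h3
  exact h3

end PLS
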