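import Pool.Agent.PLS.StD

set_option autoImplicit false
set_option linter.unusedVariables false

open Finset

noncomputable section

namespace PLS

namespace D8x

theorem exp_quad {x : ℝ} (h0 : 0 ≤ x) (h1 : x ≤ 1) : Real.exp x - 1 - x ≤ x ^ 2 := by
  have h := Real.abs_exp_sub_one_sub_id_le (x := x) (by rwa [abs_of_nonneg h0])
  have := le_abs_self (Real.exp x - 1 - x)
  linarith

theorem le_of_pow {y a s : ℝ} (ha0 : 0 ≤ a) (ha1 : a ≤ 1) (hy : 0 ≤ y) (hs : 0 < s) :
    y * a ≤ s * a + y ^ 8 / s ^ 7 := by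
  by_cases h : y ≤ s
  · have h1 := mul_le_mul_of_nonneg_right h ha0
    have h2 : 0 ≤ y ^ 8 / s ^ 7 := by positivity
    linarith
  · push Not at h
    have h1 : y * a ≤ y := mul_le_of_le_one_right hy ha1
    have h2 : y ≤ y ^ 8 / s ^ 7 := by
      rw [le_div_iff₀ (by positivity)]
      have : s ^ 7 ≤ y ^ 7 := pow_le_pow_left₀ hs.le h.le 7
      calc y * s ^ 7 ≤ y * y ^ 7 := mul_le_mul_of_nonneg_left this hy
        _ = y ^ 8 := by ring
    have h3 : 0 ≤ s * a := mul_nonneg hs.le ha0
    linarith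

end D8x

open D8x in
theorem D8 : St_D8 := by
  intro a Λ s p p' J ha hΛ hJ hs hp hp'
  set y : ℕ → ℝ := fun N => Real.exp (J * (N / Λ - 1)) with hy
  set x : ℝ := 8 * J / Λ with hx
  have hx0 : 0 ≤ x := by positivity
  have hx1 : x ≤ 1 := by
    rw [hx, div_le_one hΛ]
    exact hJ
  -- the exponential moment
  have hM : HasSum (fun n : ℕ => Real.exp (-Λ) * Λ ^ n / n.factorial * (y n) ^ 8)
      (Real.exp (Λ * (Real.exp x - 1 - x))) := by
    have h1 : ∀ z : ℝ, HasSum (fun n : ℕ => z ^ n / (n.factorial : ℝ)) (Real.exp z) := by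
      intro z
      rw [Real.exp_eq_exp_ℝ]
      exact NormedSpace.expSeries_div_hasSum_exp z
    have h2 := (h1 (Λ * Real.exp x)).mul_left (Real.exp (-Λ - 8 * J))
    rw [← Real.exp_add] at h2
    have hΛx : Λ * x = 8 * J := by
      rw [hx]
      field_simp
    have e1 : -Λ - 8 * J + Λ * Real.exp x = Λ * (Real.exp x - 1 - x) := by
      linarith
    rw [e1] at h2
    have e2 : (fun n : ℕ => Real.exp (-Λ) * Λ ^ n / n.factorial * (y n) ^ 8) =
        fun n : ℕ => Real.exp (-Λ - 8 * J) * ((Λ * Real.exp x) ^ n / (n.factorial : ℝ)) := by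
      funext n
      have e3 : (y n) ^ 8 = Real.exp (-(8 * J)) * (Real.exp x) ^ n := by
        show Real.exp (J * (n / Λ - 1)) ^ 8 = _
        rw [← Real.exp_nat_mul, ← Real.exp_nat_mul, ← Real.exp_add]
        congr 1
        rw [hx]
        push_cast
        field_simp
        ring
      rw [e3, mul_pow, sub_eq_add_neg, Real.exp_add]
      ring
    rw [e2]
    exact h2
  set M := Real.exp (Λ * (Real.exp x - 1 - x)) with hMd
  have hMle : M ≤ Real.exp (64 * J ^ 2 / Λ) := by
    refine Real.exp_le_exp.2 ?_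
    have h1 := mul_le_mul_of_nonneg_left (exp_quad hx0 hx1) hΛ.le
    refine h1.trans (le_of_eq ?_)
    rw [hx]
    field_simp
    ring
  -- the dominating series
  set T : ℕ → ℝ := fun n => s * (Real.exp (-Λ) * Λ ^ n / n.factorial * a n) +
    Real.exp (-Λ) * Λ ^ n / n.factorial * (y n) ^ 8 / s ^ 7 with hT
  have hTs : HasSum T (s * p + M / s ^ 7) := (hp.mul_left s).add (hM.div_const _)
  have hT0 : ∀ n, 0 ≤ T n := by
    intro n
    have := (ha n).1
    show 0 ≤ s * (Real.exp (-Λ) * Λ ^ n / n.factorial * a n) +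
      Real.exp (-Λ) * Λ ^ n / n.factorial * (y n) ^ 8 / s ^ 7
    positivity
  have key : ∀ n, Real.exp (-Λ) * Λ ^ n / n.factorial * a (n + J) ≤ T (n + J) := by
    intro n
    have k1 : Real.exp (-Λ) * Λ ^ n / n.factorial ≤
        Real.exp (-Λ) * Λ ^ (n + J) / (n + J).factorial * y (n + J) := by
      have c1 : (((n + J).factorial : ℕ) : ℝ) ≤ (n.factorial : ℝ) * ((n + J : ℕ) : ℝ) ^ J := by
        have d1 : (n + J - J).factorial * (n + J).descFactorial J = (n + J).factorial :=
          Nat.factorial_mul_descFactorial (Nat.le_add_left J n)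
        rw [Nat.add_sub_cancel] at d1
        have d2 := Nat.descFactorial_le_pow (n + J) J
        rw [← d1]
        push_cast
        exact mul_le_mul_of_nonneg_left (by exact_mod_cast d2) (Nat.cast_nonneg _)
      have c2 : (((n + J : ℕ) : ℝ) / Λ) ^ J ≤ y (n + J) := by
        have d1 := Real.add_one_le_exp (((n + J : ℕ) : ℝ) / Λ - 1)
        rw [sub_add_cancel] at d1
        have d2 := pow_le_pow_left₀ (by positivity) d1 J
        rw [← Real.exp_nat_mul] at d2
        exact d2
      have c3 : Λ ^ n / (n.factorial : ℝ) ≤ Λ ^ (n + J) / ((n + J).factorial : ℝ) *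
          (((n + J : ℕ) : ℝ) / Λ) ^ J := by
        have f1 : (0 : ℝ) < (n.factorial : ℝ) := by exact_mod_cast Nat.factorial_pos n
        have f2 : (0 : ℝ) < ((n + J).factorial : ℝ) := by
          exact_mod_cast Nat.factorial_pos (n + J)
        have f3 : Λ ^ (n + J) / ((n + J).factorial : ℝ) * (((n + J : ℕ) : ℝ) / Λ) ^ J =
            Λ ^ n * ((n + J : ℕ) : ℝ) ^ J / ((n + J).factorial : ℝ) := by
          rw [div_pow, pow_add]
          field_simp
        rw [f3, div_le_div_iff₀ f1 f2]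
        calc Λ ^ n * ((n + J).factorial : ℝ) ≤
            Λ ^ n * ((n.factorial : ℝ) * ((n + J : ℕ) : ℝ) ^ J) :=
              mul_le_mul_of_nonneg_left c1 (by positivity)
          _ = _ := by ring
      have c4 : Λ ^ (n + J) / ((n + J).factorial : ℝ) * (((n + J : ℕ) : ℝ) / Λ) ^ J ≤
          Λ ^ (n + J) / ((n + J).factorial : ℝ) * y (n + J) :=
        mul_le_mul_of_nonneg_left c2 (by positivity)
      have c5 := mul_le_mul_of_nonneg_left (c3.trans c4) (Real.exp_pos (-Λ)).le
      calc _ = Real.exp (-Λ) * (Λ ^ n / n.factorial) := by ring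
        _ ≤ _ := c5
        _ = _ := by ring
    have k2 := mul_le_mul_of_nonneg_right k1 (ha (n + J)).1
    have k3 := le_of_pow (ha (n + J)).1 (ha (n + J)).2 (Real.exp_pos (J * (((n + J : ℕ) : ℝ) /
      Λ - 1))).le hs
    have k4 : 0 ≤ Real.exp (-Λ) * Λ ^ (n + J) / ((n + J).factorial : ℝ) := by positivity
    have k5 := mul_le_mul_of_nonneg_left k3 k4
    refine k2.trans ?_
    calc Real.exp (-Λ) * Λ ^ (n + J) / (n + J).factorial * y (n + J) * a (n + J)
        = Real.exp (-Λ) * Λ ^ (n + J) / (n + J).factorial * (y (n + J) * a (n + J)) := by ring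
      _ ≤ Real.exp (-Λ) * Λ ^ (n + J) / (n + J).factorial *
          (s * a (n + J) + (y (n + J)) ^ 8 / s ^ 7) := k5
      _ = T (n + J) := by
          show _ = s * (Real.exp (-Λ) * Λ ^ (n + J) / (n + J).factorial * a (n + J)) +
            Real.exp (-Λ) * Λ ^ (n + J) / (n + J).factorial * (y (n + J)) ^ 8 / s ^ 7
          ring
  have hTJ : Summable fun n => T (n + J) := (summable_nat_add_iff J).2 hTs.summable
  have l1 : p' ≤ ∑' n, T (n + J) := by
    rw [← hp'.tsum_eq]
    exact hp'.summable.tsum_le_tsum key hTJ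
  have l2 := hTs.summable.sum_add_tsum_nat_add J
  rw [hTs.tsum_eq] at l2
  have l3 : 0 ≤ ∑ i ∈ Finset.range J, T i := Finset.sum_nonneg fun i _ => hT0 i
  have l4 : M / s ^ 7 ≤ Real.exp (64 * J ^ 2 / Λ) / s ^ 7 :=
    div_le_div_of_nonneg_right hMle (by positivity)
  linarith

end PLS
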