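import Pool.Agent.Helper55.RI.Cap

/-!
# PLS: planar sections of the vacant set of random interlacements

The plane is `ℤ × ℤ`; the events are sets `A` of subsets `I` of the plane (`I` the occupied set), the vacant set is `Iᶜ`.
-/

set_option autoImplicit false
set_option linter.unusedVariables false

open Finset Filter Topology MeasureTheory RInt

noncomputable section

namespace PLS

/-- the points of the plane -/
abbrev Pt := ℤ × ℤ

/-- nearest neighbours -/
def nn (x y : Pt) : Prop :=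
  (x.1 = y.1 ∧ (x.2 = y.2 + 1 ∨ y.2 = x.2 + 1)) ∨ (x.2 = y.2 ∧ (x.1 = y.1 + 1 ∨ y.1 = x.1 + 1))

/-- equal, or neighbours in the star graph -/
def st (x y : Pt) : Prop := |x.1 - y.1| ≤ 1 ∧ |x.2 - y.2| ≤ 1

/-- `x` and `y` are connected by a nearest neighbour path of `V` -/
def Con (V : Set Pt) (x y : Pt) : Prop :=
  x ∈ V ∧ Relation.ReflTransGen (fun a b => a ∈ V ∧ b ∈ V ∧ nn a b) x y

/-- `x` and `y` are connected by a star path of `V` -/
def SCon (V : Set Pt) (x y : Pt) : Prop :=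
  x ∈ V ∧ Relation.ReflTransGen (fun a b => a ∈ V ∧ b ∈ V ∧ st a b) x y

/-- the rectangle `[a,b] × [c,d]` -/
def Rc (a b c d : ℤ) : Finset Pt := Finset.Icc a b ×ˢ Finset.Icc c d

/-- the box of radius `n` around `z` -/
def Bx (z : Pt) (n : ℕ) : Finset Pt := Rc (z.1 - n) (z.1 + n) (z.2 - n) (z.2 + n)

/-- the inner boundary of the box of radius `n` around `z` -/
def Sp (z : Pt) (n : ℕ) : Finset Pt :=
  (Bx z n).filter fun x => |x.1 - z.1| = n ∨ |x.2 - z.2| = n

/-- left-right crossing of the rectangle `[a,b] × [c,d]` by a nearest neighbour path of `V` -/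
def LR (V : Set Pt) (a b c d : ℤ) : Prop :=
  ∃ x y : Pt, x.1 = a ∧ y.1 = b ∧ Con (V ∩ Rc a b c d) x y

/-- bottom-top crossing of the rectangle `[a,b] × [c,d]` by a nearest neighbour path of `V` -/
def TB (V : Set Pt) (a b c d : ℤ) : Prop :=
  ∃ x y : Pt, x.2 = c ∧ y.2 = d ∧ Con (V ∩ Rc a b c d) x y

/-- the box of radius `m` around `z` is connected to `F` by a path of `V` in the box of radius `n`
around `z` -/
def Ar (V : Set Pt) (z : Pt) (m n : ℕ) (F : Set Pt) : Prop :=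
  ∃ x ∈ Bx z m, ∃ y ∈ F, Con (V ∩ Bx z n) x y

/-- all arms of the box of radius `m` around `z` to distance `n` are connected inside the box of radius
`n` around `z` -/
def Hub (V : Set Pt) (z : Pt) (m n : ℕ) : Prop :=
  ∀ x ∈ Bx z m, ∀ y ∈ Bx z m, (∃ x' ∈ Sp z n, Con (V ∩ Bx z n) x x') →
    (∃ y' ∈ Sp z n, Con (V ∩ Bx z n) y y') → Con (V ∩ Bx z n) x y

/-- the four rectangles around the box of radius `h` are crossed in the long direction -/
def Rg (V : Set Pt) (z : Pt) (h : ℕ) : Prop :=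
  LR V (z.1 - 3 * h) (z.1 + 3 * h) (z.2 + h + 1) (z.2 + 3 * h) ∧
  LR V (z.1 - 3 * h) (z.1 + 3 * h) (z.2 - 3 * h) (z.2 - h - 1) ∧
  TB V (z.1 + h + 1) (z.1 + 3 * h) (z.2 - 3 * h) (z.2 + 3 * h) ∧
  TB V (z.1 - 3 * h) (z.1 - h - 1) (z.2 - 3 * h) (z.2 + 3 * h)

/-- the annulus of radii `h`, `3h` around `z` is crossed by a star path of `I` -/
def An (I : Set Pt) (z : Pt) (h : ℕ) : Prop :=
  ∃ x ∈ Bx z h, ∃ y ∈ Sp z (3 * h), SCon (I ∩ Bx z (3 * h)) x y

/-- decreasing events -/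
def Dn {S : Type} (A : Set (Set S)) : Prop := ∀ I ∈ A, ∀ J ⊆ I, J ∈ A

/-- increasing events -/
def Up {S : Type} (A : Set (Set S)) : Prop := ∀ I ∈ A, ∀ J, I ⊆ J → J ∈ A

/-- A law of a random subset of the plane which is positively associated, invariant under the symmetries of the plane and ergodic. -/
structure PM (ν : Measure (Set Pt)) : Prop where
  prob : IsProbabilityMeasure ν
  fkg : ∀ (K : Finset Pt) (A B : Set (Set Pt)), Local K A → Local K B → Dn A → Dn B →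
    ν.real A * ν.real B ≤ ν.real (A ∩ B)
  shift : ∀ z : Pt, ν.map (fun I => {x : Pt | x + z ∈ I}) = ν
  refl : ν.map (fun I => {x : Pt | ((-x.1, x.2) : Pt) ∈ I}) = ν
  swap : ν.map (fun I => {x : Pt | x.swap ∈ I}) = ν
  erg : ∀ T : Set (Set Pt), MeasurableSet T → (∀ z : Pt, ∀ I ∈ T, {x : Pt | x + z ∈ I} ∈ T) →
    ν.real T = 0 ∨ ν.real T = 1

/-- A family of laws with void probabilities `exp (-u c(K))`, `c` invariant and mixing. -/
structure PF0 (c : Finset Pt → ℝ) (μ : ℝ → Measure (Set Pt)) : Prop where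
  void : VoidFam c μ
  c0 : c ∅ = 0
  shift : ∀ (K : Finset Pt) (z : Pt), c (K.image fun x => x + z) = c K
  refl : ∀ K : Finset Pt, c (K.image fun x => ((-x.1, x.2) : Pt)) = c K
  swap : ∀ K : Finset Pt, c (K.image Prod.swap) = c K
  mix : ∀ K K' : Finset Pt,
    Tendsto (fun k : ℕ => c (K ∪ K'.image fun x => x + (((k : ℤ), 0) : Pt))) atTop (𝓝 (c K + c K'))

/-- ... with the decoupling inequality without sprinkling -/
structure PF (c : Finset Pt → ℝ) (μ : ℝ → Measure (Set Pt)) : Prop extends PF0 c μ where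
  dec : ∃ M : ℕ, ∃ a : ℝ, 0 < a ∧ ∀ u : ℝ, 0 < u → ∀ n : ℕ, 1 ≤ n → ∀ z z' : Pt,
    ((M * n : ℤ) ≤ |z.1 - z'.1| ∨ (M * n : ℤ) ≤ |z.2 - z'.2|) →
    ∀ A A' : Set (Set Pt), Local (Bx z (3 * n)) A → Local (Bx z' (3 * n)) A' → Up A → Up A' →
    ∀ L : ℝ, 1 ≤ L → L ≤ a * u * n → (μ u).real A ≤ Real.exp (-L) →
      (μ u).real A' ≤ Real.exp (-L) → (μ u).real (A ∩ A') ≤ 10 * Real.exp (-(3 * L / 2))

/-- the percolation function of the vacant set in the plane -/
def th (μ : ℝ → Measure (Set Pt)) (u : ℝ) : ℝ :=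
  (μ u).real {I : Set Pt | {y | Con Iᶜ 0 y}.Infinite}

end PLS
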