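import Pool.Agent.PLS.StE

/-!
# PLS, module E1: superposition of two independent systems of types
-/

set_option autoImplicit false

open Finset Filter Topology MeasureTheory RInt

noncomputable section

namespace PLS

/-- **E1** Superposition. -/
theorem E1 (hD : St_D1) : St_E1 := by
  intro α _ Θ r s h
  induction Θ using Finset.induction_on generalizing h with
  | empty => simp [BE]
  | insert T Θ hT ih =>
    have i1 := (hD α Θ (fun T => r T + s T)).1 T
    have i2 := (hD α Θ r).1 T
    have i3 := (hD α Θ s).1 T
    have lin := (hD α Θ r).2.2.1
    rw [i1 _ hT, i2 _ hT, ih h, ih (fun B => h (insert T B))]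
    have e1 : (fun B => BE (insert T Θ) s (fun B' => h (B ∪ B'))) =
        fun B => Real.exp (-s T) * BE Θ s (fun B' => h (B ∪ B')) +
          (1 - Real.exp (-s T)) * BE Θ s (fun B' => h (insert T (B ∪ B'))) := by
      funext B
      rw [i3 _ hT]
      simp only [Finset.union_insert]
    have e2 : (fun B => BE (insert T Θ) s (fun B' => h (insert T B ∪ B'))) =
        fun B => Real.exp (-s T) * BE Θ s (fun B' => h (insert T (B ∪ B'))) +
          (1 - Real.exp (-s T)) * BE Θ s (fun B' => h (insert T (B ∪ B'))) := by
      funext B
      rw [i3 _ hT]
      simp only [Finset.union_insert, Finset.insert_union, Finset.insert_idem]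
    rw [e1, e2, lin, lin]
    have e3 : Real.exp (-(r T + s T)) = Real.exp (-r T) * Real.exp (-s T) := by
      rw [← Real.exp_add]
      congr 1
      ring
    rw [e3]
    ring

end PLS
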