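import Pool.Agent.PLS.StE

/-!
# PLS, E10: the recursion, and decay at all scales from one scale
-/

set_option autoImplicit false

open Finset Filter Topology MeasureTheory RInt

noncomputable section

namespace PLS

namespace E10x

variable {d : ℕ}

lemma box_ne (m : ℕ) : 1 ≤ (box d m).card :=
  Finset.card_pos.2 ⟨0, (mem_box m 0).2 fun i => by simp⟩

lemma box_mono {m m' : ℕ} (h : m ≤ m') : box d m ⊆ box d m' := by
  intro x hx
  rw [mem_box] at hx ⊢
  intro i
  exact (hx i).trans (by exact_mod_cast h)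

/-- the recursion -/
lemma step (M : ℕ) (a : ℝ)
    (h7 : ∀ μ : ℝ → Measure (Set (Fin d → ℤ)), (∀ u : ℝ, 0 < u → IsInterlacement u (μ u)) →
      ∀ u : ℝ, 0 < u → ∀ n : ℕ, 1 ≤ n → ∀ z z' : Fin d → ℤ, (∃ i, (M * n : ℤ) ≤ |z i - z' i|) →
      ∀ A A' : Set (Set (Fin d → ℤ)), Local ((box d (3 * n)).image fun x => x + z) A →
      Local ((box d (3 * n)).image fun x => x + z') A' → Dn A → Dn A' →
      ∀ L : ℝ, 1 ≤ L → L ≤ a * u * n → (μ u).real A ≤ Real.exp (-L) →
        (μ u).real A' ≤ Real.exp (-L) → (μ u).real (A ∩ A') ≤ 10 * Real.exp (-(3 * L / 2)))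
    (hloc : ∀ (z : Fin d → ℤ) (n : ℕ), Local ((box d (3 * n)).image fun x => x + z) (Xc d z n) ∧
      Dn (Xc d z n))
    (hcov : ∀ (n Q : ℕ) (I : Set (Fin d → ℤ)), 1 ≤ n → 2 ≤ Q → I ∈ Xc d 0 (Q * n) →
      ∃ i ∈ box d Q, ∃ j ∈ box d (3 * Q), I ∈ Xc d (fun k => n * i k) n ∧
        I ∈ Xc d (fun k => n * j k) n ∧ ∃ k, ((2 * Q - 1) * n : ℤ) ≤ |(n * i k : ℤ) - n * j k|)
    (μ : ℝ → Measure (Set (Fin d → ℤ))) (hμ : ∀ u : ℝ, 0 < u → IsInterlacement u (μ u))
    (hinv : ∀ u : ℝ, 0 < u → ∀ (z : Fin d → ℤ) (n : ℕ),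
      (μ u).real (Xc d z n) = (μ u).real (Xc d 0 n))
    (u : ℝ) (hu : 0 < u) (n : ℕ) (hn : 1 ≤ n) (L : ℝ)
    (hL0 : 100 * (((box d (M + 2)).card : ℝ) * (box d (3 * (M + 2))).card) ≤ L)
    (hL : L ≤ a * u * n) (hp : (μ u).real (Xc d 0 n) ≤ Real.exp (-L)) :
    (μ u).real (Xc d 0 ((M + 2) * n)) ≤ Real.exp (-(6 * L / 5)) := by
  classical
  have hprob := (hμ u hu).prob
  set Q := M + 2 with hQ
  set N : ℝ := ((box d Q).card : ℝ) * (box d (3 * Q)).card with hN
  have hN1 : 1 ≤ N := by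
    have h1 : (1 : ℝ) ≤ (box d Q).card := by exact_mod_cast box_ne Q
    have h2 : (1 : ℝ) ≤ (box d (3 * Q)).card := by exact_mod_cast box_ne (3 * Q)
    rw [hN]
    nlinarith
  have hL1 : 1 ≤ L := by linarith
  let Far : (Fin d → ℤ) → (Fin d → ℤ) → Prop := fun i j =>
    ∃ k, ((2 * Q - 1) * n : ℤ) ≤ |(n * i k : ℤ) - n * j k|
  let W : (Fin d → ℤ) → (Fin d → ℤ) → Set (Set (Fin d → ℤ)) := fun i j =>
    {I | Far i j ∧ I ∈ Xc d (fun k => n * i k) n ∧ I ∈ Xc d (fun k => n * j k) n}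
  have hsub : Xc d 0 (Q * n) ⊆ ⋃ i ∈ box d Q, ⋃ j ∈ box d (3 * Q), W i j := by
    intro I hI
    obtain ⟨i, hi, j, hj, h1, h2, h3⟩ := hcov n Q I hn (by omega) hI
    simp only [Set.mem_iUnion]
    exact ⟨i, hi, j, hj, h3, h1, h2⟩
  have hW : ∀ i j, (μ u).real (W i j) ≤ 10 * Real.exp (-(3 * L / 2)) := by
    intro i j
    by_cases hf : Far i j
    · have h1 : W i j ⊆ Xc d (fun k => n * i k) n ∩ Xc d (fun k => n * j k) n :=
        fun I hI => ⟨hI.2.1, hI.2.2⟩
      refine (measureReal_mono h1 (measure_ne_top _ _)).trans ?_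
      refine h7 μ hμ u hu n hn _ _ ?_ _ _ (hloc _ n).1 (hloc _ n).1 (hloc _ n).2 (hloc _ n).2
        L hL1 hL ?_ ?_
      · obtain ⟨k, hk⟩ := hf
        refine ⟨k, le_trans ?_ hk⟩
        have hn0 : (0 : ℤ) ≤ n := by positivity
        have hQM : (M : ℤ) ≤ 2 * Q - 1 := by rw [hQ]; push_cast; omega
        exact mul_le_mul_of_nonneg_right hQM hn0
      · rw [hinv u hu]
        exact hp
      · rw [hinv u hu]
        exact hp
    · have h1 : W i j = ∅ := by
        ext I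
        simp only [Set.mem_empty_iff_false, iff_false]
        exact fun h => hf h.1
      rw [h1, measureReal_empty]
      positivity
  have h1 : (μ u).real (Xc d 0 (Q * n)) ≤ N * (10 * Real.exp (-(3 * L / 2))) := by
    refine (measureReal_mono hsub (measure_ne_top _ _)).trans ?_
    refine (measureReal_biUnion_finset_le _ _).trans ?_
    have h2 : ∀ i ∈ box d Q, (μ u).real (⋃ j ∈ box d (3 * Q), W i j) ≤
        ((box d (3 * Q)).card : ℝ) * (10 * Real.exp (-(3 * L / 2))) := by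
      intro i _
      refine (measureReal_biUnion_finset_le _ _).trans ?_
      refine (Finset.sum_le_sum fun j _ => hW i j).trans ?_
      rw [Finset.sum_const, nsmul_eq_mul]
    refine (Finset.sum_le_sum h2).trans ?_
    rw [Finset.sum_const, nsmul_eq_mul, hN, mul_assoc]
  refine h1.trans ?_
  have h2 : 10 * N ≤ Real.exp (3 * L / 10) := by
    have h3 := Real.add_one_le_exp (3 * L / 10)
    linarith
  calc N * (10 * Real.exp (-(3 * L / 2))) = 10 * N * Real.exp (-(3 * L / 2)) := by ring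
    _ ≤ Real.exp (3 * L / 10) * Real.exp (-(3 * L / 2)) :=
        mul_le_mul_of_nonneg_right h2 (Real.exp_pos _).le
    _ = Real.exp (-(6 * L / 5)) := by
        rw [← Real.exp_add]
        congr 1
        ring

end E10x

open E10x in
theorem E10 (h7 : St_E7) (h8 : St_E8) (h9 : St_E9) : St_E10 := by
  intro d hd
  obtain ⟨M, a, ha, h7⟩ := h7 d hd
  obtain ⟨hloc, hall, hcov, -⟩ := h8 d (by omega)
  set Q := M + 2 with hQ
  set N : ℝ := ((box d Q).card : ℝ) * (box d (3 * Q)).card with hN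
  have hN1 : 1 ≤ N := by
    have h1 : (1 : ℝ) ≤ (box d Q).card := by exact_mod_cast box_ne Q
    have h2 : (1 : ℝ) ≤ (box d (3 * Q)).card := by exact_mod_cast box_ne (3 * Q)
    rw [hN]
    nlinarith
  have hQ2 : (2 : ℝ) ≤ Q := by
    rw [hQ]
    push_cast
    have : (0 : ℝ) ≤ M := Nat.cast_nonneg M
    linarith
  have hlogQ : 0 < Real.log Q := Real.log_pos (by linarith)
  have hlog65 : 0 < Real.log (6 / 5) := Real.log_pos (by norm_num)
  set L₀ := 100 * N with hL₀
  set α := Real.log (6 / 5) / Real.log Q with hα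
  have hα0 : 0 < α := div_pos hlog65 hlogQ
  refine ⟨a, L₀, α, ha, by linarith, hα0, ?_⟩
  intro μ hμ u n hu hn hLn hp
  have hprob := (hμ u hu).prob
  have hinv : ∀ u : ℝ, 0 < u → ∀ (z : Fin d → ℤ) (n : ℕ),
      (μ u).real (Xc d z n) = (μ u).real (Xc d 0 n) :=
    fun u hu z n => (h9 d hd u (μ u) (hμ u hu) z).2.1 n
  have hL₀0 : 0 < L₀ := by linarith
  -- iteration
  have hit : ∀ k : ℕ, (μ u).real (Xc d 0 (Q ^ k * n)) ≤ Real.exp (-((6 / 5) ^ k * L₀)) ∧
      (6 / 5) ^ k * L₀ ≤ a * u * ((Q ^ k * n : ℕ) : ℝ) := by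
    intro k
    induction k with
    | zero =>
      rw [pow_zero, pow_zero, one_mul, one_mul]
      exact ⟨hp, hLn⟩
    | succ k ih =>
      have h1 : 1 ≤ Q ^ k * n := Nat.one_le_iff_ne_zero.2
        (mul_ne_zero (pow_ne_zero _ (by omega)) (by omega))
      have h2 : L₀ ≤ (6 / 5) ^ k * L₀ := by
        have h3 : (1 : ℝ) ≤ (6 / 5) ^ k := one_le_pow₀ (by norm_num)
        nlinarith
      have h3 := step M a h7 hloc hcov μ hμ hinv u hu (Q ^ k * n) h1 ((6 / 5) ^ k * L₀) h2 ih.2 ih.1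
      have h4 : Q ^ (k + 1) * n = (M + 2) * (Q ^ k * n) := by
        rw [← hQ, pow_succ]
        ring
      rw [h4]
      constructor
      · have h5 : -(6 * ((6 / 5) ^ k * L₀) / 5) = -((6 / 5 : ℝ) ^ (k + 1) * L₀) := by
          rw [pow_succ]
          ring
        rw [← h5]
        exact h3
      · have h5 := ih.2
        have h6 : (0 : ℝ) ≤ (6 / 5) ^ k * L₀ := by positivity
        rw [← hQ, Nat.cast_mul Q]
        calc (6 / 5 : ℝ) ^ (k + 1) * L₀ = (6 / 5) * ((6 / 5) ^ k * L₀) := by rw [pow_succ]; ring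
          _ ≤ Q * ((6 / 5) ^ k * L₀) := mul_le_mul_of_nonneg_right (by linarith) h6
          _ ≤ Q * (a * u * ((Q ^ k * n : ℕ) : ℝ)) := mul_le_mul_of_nonneg_left h5 (by linarith)
          _ = a * u * (Q * ((Q ^ k * n : ℕ) : ℝ)) := by ring
  set B : ℝ := ((box d (2 * Q + 1)).card : ℝ) with hB
  have hB1 : 1 ≤ B := by
    rw [hB]
    exact_mod_cast box_ne (2 * Q + 1)
  have hn0 : (1 : ℝ) ≤ n := by exact_mod_cast hn
  have hden : 0 < 2 * (Q : ℝ) * n := by positivity
  set c : ℝ := L₀ / (2 * Q * n) ^ α with hc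
  have hc0 : 0 < c := div_pos hL₀0 (Real.rpow_pos_of_pos hden α)
  refine ⟨B * Real.exp (c * (2 * n : ℝ) ^ α), c, by positivity, hc0, ?_⟩
  intro m hm
  have hm0 : (1 : ℝ) ≤ m := by exact_mod_cast hm
  have hexp1 : 1 ≤ Real.exp (c * (2 * n : ℝ) ^ α) := Real.one_le_exp (by positivity)
  by_cases hmn : m < 2 * n
  · refine (measureReal_le_one).trans ?_
    have h1 : (m : ℝ) ^ α ≤ (2 * n : ℝ) ^ α :=
      Real.rpow_le_rpow (by positivity) (by exact_mod_cast hmn.le) hα0.le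
    have h2 : 1 ≤ Real.exp (c * (2 * n : ℝ) ^ α) * Real.exp (-(c * (m : ℝ) ^ α)) := by
      rw [← Real.exp_add]
      apply Real.one_le_exp
      have := mul_le_mul_of_nonneg_left h1 hc0.le
      linarith
    calc (1 : ℝ) ≤ B * 1 := by linarith
      _ ≤ B * (Real.exp (c * (2 * n : ℝ) ^ α) * Real.exp (-(c * (m : ℝ) ^ α))) :=
          mul_le_mul_of_nonneg_left h2 (by linarith)
      _ = B * Real.exp (c * (2 * n : ℝ) ^ α) * Real.exp (-(c * (m : ℝ) ^ α)) := by ring
  · push Not at hmn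
    -- the scale
    have hex : ∃ k : ℕ, m < 2 * (Q ^ (k + 1) * n) := by
      refine ⟨m, ?_⟩
      have h1 : m < 2 ^ m := Nat.lt_two_pow_self
      have h2 : 2 ^ m ≤ Q ^ m := Nat.pow_le_pow_left (by omega) m
      have h3 : Q ^ m ≤ Q ^ (m + 1) := Nat.pow_le_pow_right (by omega) (by omega)
      nlinarith
    obtain ⟨k, hk, hkmin⟩ : ∃ k : ℕ, m < 2 * (Q ^ (k + 1) * n) ∧ 2 * (Q ^ k * n) ≤ m := by
      classical
      refine ⟨Nat.find hex, Nat.find_spec hex, ?_⟩
      rcases Nat.eq_zero_or_pos (Nat.find hex) with h0 | h0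
      · rw [h0, pow_zero, one_mul]
        exact hmn
      · have h1 := Nat.find_min hex (Nat.sub_lt h0 one_pos)
        have h2 : Nat.find hex - 1 + 1 = Nat.find hex := by omega
        rw [h2] at h1
        exact not_lt.1 h1
    set n' := Q ^ k * n with hn'
    have hn'1 : 1 ≤ n' := Nat.one_le_iff_ne_zero.2
      (mul_ne_zero (pow_ne_zero _ (by omega)) (by omega))
    have hdiv : m / n' + 1 ≤ 2 * Q + 1 := by
      have h1 : m < n' * (2 * Q) := by
        have h2 : 2 * (Q ^ (k + 1) * n) = n' * (2 * Q) := by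
          rw [hn', pow_succ]
          ring
        omega
      have h2 : m / n' < 2 * Q := Nat.div_lt_of_lt_mul h1
      omega
    have hsub : Xc d 0 m ⊆ ⋃ j ∈ box d (2 * Q + 1), Xc d (fun k => n' * j k) n' := by
      intro I hI
      obtain ⟨j, hj, hj'⟩ := hall n' m I hn'1 hkmin hI
      simp only [Set.mem_iUnion]
      exact ⟨j, box_mono hdiv hj, hj'⟩
    have h1 : (μ u).real (Xc d 0 m) ≤ B * Real.exp (-((6 / 5) ^ k * L₀)) := by
      refine (measureReal_mono hsub (measure_ne_top _ _)).trans ?_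
      refine (measureReal_biUnion_finset_le _ _).trans ?_
      have h2 : ∀ j ∈ box d (2 * Q + 1), (μ u).real (Xc d (fun k => n' * j k) n') ≤
          Real.exp (-((6 / 5) ^ k * L₀)) := by
        intro j _
        rw [hinv u hu]
        exact (hit k).1
      refine (Finset.sum_le_sum h2).trans ?_
      rw [Finset.sum_const, nsmul_eq_mul]
    have h2 : c * (m : ℝ) ^ α ≤ (6 / 5) ^ k * L₀ := by
      have h3 : (m : ℝ) ≤ (2 * Q * n) * (Q : ℝ) ^ k := by
        have h4 : (m : ℝ) ≤ 2 * ((Q : ℝ) ^ (k + 1) * n) := by exact_mod_cast hk.le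
        rw [pow_succ] at h4
        linarith
      have h4 : (m : ℝ) ^ α ≤ (2 * Q * n : ℝ) ^ α * ((Q : ℝ) ^ k) ^ α := by
        rw [← Real.mul_rpow hden.le (by positivity)]
        exact Real.rpow_le_rpow (by positivity) h3 hα0.le
      have h5 : ((Q : ℝ) ^ k) ^ α = (6 / 5) ^ k := by
        have hQ0 : (0 : ℝ) < Q := by linarith
        rw [← Real.rpow_natCast, ← Real.rpow_mul hQ0.le, mul_comm, Real.rpow_mul hQ0.le,
          Real.rpow_natCast]
        congr 1
        rw [Real.rpow_def_of_pos hQ0, hα, mul_div_cancel₀ _ hlogQ.ne', Real.exp_log (by norm_num)]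
      have hpos : (0 : ℝ) < (2 * Q * n : ℝ) ^ α := Real.rpow_pos_of_pos hden α
      calc c * (m : ℝ) ^ α ≤ c * ((2 * Q * n : ℝ) ^ α * ((Q : ℝ) ^ k) ^ α) :=
            mul_le_mul_of_nonneg_left h4 hc0.le
        _ = (6 / 5) ^ k * L₀ := by
            rw [h5, hc]
            field_simp
    calc (μ u).real (Xc d 0 m) ≤ B * Real.exp (-((6 / 5) ^ k * L₀)) := h1
      _ ≤ B * Real.exp (-(c * (m : ℝ) ^ α)) := by
          refine mul_le_mul_of_nonneg_left ?_ (by linarith)
          apply Real.exp_le_exp.2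
          linarith
      _ = B * 1 * Real.exp (-(c * (m : ℝ) ^ α)) := by ring
      _ ≤ B * Real.exp (c * (2 * n : ℝ) ^ α) * Real.exp (-(c * (m : ℝ) ^ α)) := by
          refine mul_le_mul_of_nonneg_right ?_ (Real.exp_pos _).le
          exact mul_le_mul_of_nonneg_left hexp1 (by linarith)

end PLS
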