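import Pool.Agent.PLS.StE
import Pool.Agent.Helper55.RI.Arm

/-!
# PLS, E11: the dichotomy and the critical level
-/

set_option autoImplicit false
set_option linter.unusedVariables false

open Finset Filter Topology MeasureTheory RInt

noncomputable section

namespace PLS

namespace E11x

variable {d : ℕ}

theorem decay {C c α : ℝ} (hc : 0 < c) (hα : 0 < α) :
    Tendsto (fun n : ℕ => C * Real.exp (-(c * (n : ℝ) ^ α))) atTop (𝓝 0) := by
  have h1 : Tendsto (fun n : ℕ => (n : ℝ) ^ α) atTop atTop :=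
    (tendsto_rpow_atTop hα).comp tendsto_natCast_atTop_atTop
  have h2 : Tendsto (fun n : ℕ => c * (n : ℝ) ^ α) atTop atTop := h1.const_mul_atTop hc
  have h3 : Tendsto (fun n : ℕ => Real.exp (-(c * (n : ℝ) ^ α))) atTop (𝓝 0) :=
    Real.tendsto_exp_neg_atTop_nhds_zero.comp h2
  simpa using h3.const_mul C

/-- the straight path -/
theorem path (V : Set (Fin d → ℤ)) (i : Fin d) (m : ℕ)
    (h : ∀ k : ℕ, k ≤ m → (Pi.single i (k : ℤ) : Fin d → ℤ) ∈ V) :
    Relation.ReflTransGen (VAdj V) 0 (Pi.single i (m : ℤ)) := by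
  induction m with
  | zero =>
    rw [Nat.cast_zero, Pi.single_zero]
  | succ m ih =>
    refine (ih fun k hk => h k (by omega)).tail ⟨h m (by omega), h (m + 1) le_rfl, (i, true), ?_⟩
    have h1 : (uvec (i, true) : Fin d → ℤ) = Pi.single i 1 := if_pos rfl
    rw [h1, ← Pi.single_add]
    push_cast
    rfl

theorem void_sub (hd : 0 < d) (n : ℕ) (I : Set (Fin d → ℤ)) (h : ∀ x ∈ box d (3 * n), x ∉ I) :
    I ∈ Xc d 0 n := by
  have hb : ∀ k : ℕ, k ≤ 3 * n → (Pi.single (⟨0, hd⟩ : Fin d) (k : ℤ) : Fin d → ℤ) ∈ Iᶜ := by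
    intro k hk
    refine h _ ((mem_box _ _).2 fun j => ?_)
    by_cases hj : j = ⟨0, hd⟩
    · subst hj
      rw [Pi.single_eq_same, Nat.abs_cast]
      exact_mod_cast hk
    · rw [Pi.single_eq_of_ne hj, abs_zero]
      positivity
  refine ⟨0, Pi.single ⟨0, hd⟩ ((3 * n : ℕ) : ℤ), fun i => ?_, ⟨⟨0, hd⟩, ?_⟩, ?_, ?_⟩
  · simp
  · rw [Pi.single_eq_same, Pi.zero_apply, sub_zero, Nat.abs_cast]
    push_cast
    exact le_rfl
  · have h0 := hb 0 (Nat.zero_le _)
    rwa [Nat.cast_zero, Pi.single_zero] at h0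
  · exact path _ _ _ hb

theorem arm_Xc (n : ℕ) : (Arm (3 * n) : Set (Set (Fin d → ℤ))) ⊆ Xc d 0 n := by
  rintro I ⟨y, hy, i, hi⟩
  refine ⟨0, y, fun j => by simp, ⟨i, ?_⟩, hy⟩
  rw [Pi.zero_apply, sub_zero]
  push_cast at hi
  exact hi

theorem card_face (n : ℕ) (i : Fin d) (s : ℤ) :
    ((box d n).filter fun x => x i = s).card ≤ (2 * n + 1) ^ (d - 1) := by
  classical
  have h1 : ((box d n).filter fun x => x i = s) ⊆
      Fintype.piFinset fun j => if j = i then ({s} : Finset ℤ) else Finset.Icc (-(n : ℤ)) n := by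
    intro x hx
    rw [mem_filter] at hx
    rw [Fintype.mem_piFinset]
    intro j
    by_cases hj : j = i
    · rw [if_pos hj, mem_singleton, hj]
      exact hx.2
    · rw [if_neg hj]
      exact Fintype.mem_piFinset.1 hx.1 j
  refine (card_le_card h1).trans ?_
  rw [Fintype.card_piFinset, ← Finset.mul_prod_erase univ _ (mem_univ i), if_pos rfl,
    card_singleton, one_mul]
  rw [Finset.prod_congr rfl fun j hj => by rw [if_neg (Finset.ne_of_mem_erase hj)], prod_const,
    card_erase_of_mem (mem_univ i), card_univ, Fintype.card_fin, Int.card_Icc]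
  refine Nat.pow_le_pow_left ?_ _
  omega

open Classical in
/-- the sphere of the radius `n` -/
def sph (d n : ℕ) : Finset (Fin d → ℤ) := (box d n).filter fun x => ∃ i, |x i| = (n : ℤ)

theorem card_sph (n : ℕ) : (sph d n).card ≤ 2 * d * (2 * n + 1) ^ (d - 1) := by
  classical
  have h1 : sph d n ⊆
      (univ : Finset (Fin d)).biUnion fun i => ((box d n).filter fun x => x i = (n : ℤ)) ∪
        ((box d n).filter fun x => x i = -(n : ℤ)) := by
    intro x hx
    unfold sph at hx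
    rw [mem_filter] at hx
    obtain ⟨hx, i, hi⟩ := hx
    rw [mem_biUnion]
    refine ⟨i, mem_univ i, ?_⟩
    rw [mem_union, mem_filter, mem_filter]
    rcases abs_choice (x i) with h | h
    · left
      exact ⟨hx, by rw [← hi, h]⟩
    · right
      exact ⟨hx, by rw [← hi, h, neg_neg]⟩
  refine (card_le_card h1).trans (card_biUnion_le.trans ?_)
  have h2 : ∀ i ∈ (univ : Finset (Fin d)), (((box d n).filter fun x => x i = (n : ℤ)) ∪
        ((box d n).filter fun x => x i = -(n : ℤ))).card ≤ 2 * (2 * n + 1) ^ (d - 1) := by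
    intro i _
    refine (card_union_le _ _).trans ?_
    have := card_face n i n
    have := card_face n i (-n)
    omega
  refine (Finset.sum_le_sum h2).trans ?_
  rw [sum_const, card_univ, Fintype.card_fin, smul_eq_mul]
  exact (by ring : d * (2 * (2 * n + 1) ^ (d - 1)) = 2 * d * (2 * n + 1) ^ (d - 1)).le

end E11x

open E11x in
theorem E11 (h8 : St_E8) (h9 : St_E9) (h10 : St_E10) : St_E11 := by
  classical
  intro d hd μ hμ
  obtain ⟨a, L₀, α, ha, hL, hα, h10⟩ := h10 d hd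
  obtain ⟨h8a, -, -, h8d⟩ := h8 d (by omega)
  have hprob : ∀ u, 0 < u → IsProbabilityMeasure (μ u) := fun u hu => (hμ u hu).prob
  have hV : VoidFam (cap : Finset (Fin d → ℤ) → ℝ) μ := ⟨hprob, fun u hu => (hμ u hu).void⟩
  have hL0 : 0 < L₀ := by linarith
  -- positivity
  have hpos : ∀ u : ℝ, 0 < u → ∀ n : ℕ, 0 < (μ u).real (Xc d 0 n) := by
    intro u hu n
    have := hprob u hu
    have h1 : (μ u).real {I | ∀ x ∈ box d (3 * n), x ∉ I} =
        Real.exp (-(u * cap (box d (3 * n)))) := by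
      unfold Measure.real
      rw [(hμ u hu).void, ENNReal.toReal_ofReal (Real.exp_pos _).le]
    refine lt_of_lt_of_le ?_ (measureReal_mono (μ := μ u)
      (s₁ := {I | ∀ x ∈ box d (3 * n), x ∉ I}) (fun I hI => void_sub (by omega) n I hI)
      (measure_ne_top _ _))
    rw [h1]
    exact Real.exp_pos _
  have key1 : ∀ u : ℝ, 0 < u → (∃ δ : ℝ, 0 < δ ∧ ∀ n : ℕ, 1 ≤ n → δ ≤ (μ u).real (Xc d 0 n)) ∨
      ∃ C c α : ℝ, 0 < C ∧ 0 < c ∧ 0 < α ∧ ∀ n : ℕ, 1 ≤ n →
        (μ u).real (Xc d 0 n) ≤ C * Real.exp (-(c * (n : ℝ) ^ α)) := by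
    intro u hu
    by_cases hex : ∃ n : ℕ, 1 ≤ n ∧ L₀ ≤ a * u * n ∧ (μ u).real (Xc d 0 n) ≤ Real.exp (-L₀)
    · right
      obtain ⟨n, hn, h1, h2⟩ := hex
      obtain ⟨C, c, hC, hc, h3⟩ := h10 μ hμ u n hu hn h1 h2
      exact ⟨C, c, α, hC, hc, hα, h3⟩
    · left
      push Not at hex
      have hau : 0 < a * u := mul_pos ha hu
      obtain ⟨N, hN⟩ := exists_nat_ge (L₀ / (a * u))
      obtain ⟨δ, hδ, hmin⟩ : ∃ δ : ℝ, 0 < δ ∧ ∀ n ∈ range N, δ ≤ (μ u).real (Xc d 0 n) := by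
        rcases (range N).eq_empty_or_nonempty with h0 | h0
        · exact ⟨1, one_pos, fun n hn => by rw [h0] at hn; exact absurd hn (notMem_empty n)⟩
        · obtain ⟨m, hm, h1⟩ := exists_min_image (range N) (fun n => (μ u).real (Xc d 0 n)) h0
          exact ⟨_, hpos u hu m, h1⟩
      refine ⟨min δ (Real.exp (-L₀)), lt_min hδ (Real.exp_pos _), fun n hn => ?_⟩
      by_cases hnN : n < N
      · exact (min_le_left _ _).trans (hmin n (mem_range.2 hnN))
      · refine (min_le_right _ _).trans (hex n hn ?_).le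
        have h1 : (N : ℝ) ≤ n := by exact_mod_cast not_lt.1 hnN
        have h2 := hN.trans h1
        rwa [div_le_iff₀ hau, mul_comm] at h2
  -- decay excludes the first alternative
  have key0 : ∀ v : ℝ, (∃ C c α : ℝ, 0 < C ∧ 0 < c ∧ 0 < α ∧ ∀ n : ℕ, 1 ≤ n →
        (μ v).real (Xc d 0 n) ≤ C * Real.exp (-(c * (n : ℝ) ^ α))) →
      ∀ η : ℝ, 0 < η → ∀ᶠ n : ℕ in atTop, (μ v).real (Xc d 0 n) < η := by
    rintro v ⟨C, c, α, hC, hc, hα, h⟩ η hη
    filter_upwards [(decay (C := C) hc hα).eventually_lt_const hη, eventually_ge_atTop 1]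
      with n hn h1
    exact (h n h1).trans_lt hn
  have key2 : ∀ u : ℝ, 0 < u → (¬ ∃ δ : ℝ, 0 < δ ∧ ∀ n : ℕ, 1 ≤ n →
        δ ≤ (μ u).real (Xc d 0 n)) →
      ∃ ε : ℝ, 0 < ε ∧ ε < u ∧ ∀ v : ℝ, |v - u| < ε →
        ¬ ∃ δ : ℝ, 0 < δ ∧ ∀ n : ℕ, 1 ≤ n → δ ≤ (μ v).real (Xc d 0 n) := by
    intro u hu hno
    have hau : 0 < a * u := mul_pos ha hu
    have hη : 0 < Real.exp (-L₀) / 2 := half_pos (Real.exp_pos _)
    have hev := key0 u ((key1 u hu).resolve_left hno) _ hη
    obtain ⟨N, hN⟩ := exists_nat_ge (2 * L₀ / (a * u))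
    obtain ⟨n, hn1, hn2, hn3⟩ := (hev.and ((eventually_ge_atTop 1).and
      (eventually_ge_atTop N))).exists
    have h2L : 2 * L₀ ≤ a * u * n := by
      have h1 : (N : ℝ) ≤ n := by exact_mod_cast hn3
      have h2 := hN.trans h1
      rw [div_le_iff₀ hau] at h2
      linarith
    set K : Finset (Fin d → ℤ) := (box d (3 * n)).image fun x => x + 0 with hK
    have hcont : ContinuousAt (fun v : ℝ => √(cap K) * |√u - √v|) u := by
      refine Continuous.continuousAt ?_
      exact continuous_const.mul (continuous_const.sub Real.continuous_sqrt).abs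
    have hnear : ∀ᶠ v in 𝓝 u, √(cap K) * |√u - √v| < Real.exp (-L₀) / 2 := by
      refine hcont.eventually_lt_const ?_
      simpa using hη
    obtain ⟨ε₁, hε₁, h3⟩ := Metric.eventually_nhds_iff.1 hnear
    refine ⟨min ε₁ (u / 2), lt_min hε₁ (half_pos hu),
      (min_le_right _ _).trans_lt (half_lt_self hu), fun v hv => ?_⟩
    have hv1 : |v - u| < ε₁ := hv.trans_le (min_le_left _ _)
    have hv2 : |v - u| < u / 2 := hv.trans_le (min_le_right _ _)
    have hv3 : u / 2 < v := by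
      have := (abs_lt.1 hv2).1
      linarith
    have hv0 : 0 < v := (half_pos hu).trans hv3
    have h4 := hV.main cap_empty K (Xc d 0 n) ((h8a 0 n).1) u v hu hv0
    have h5 := h3 (y := v) (by rwa [Real.dist_eq])
    have h6 : (μ v).real (Xc d 0 n) ≤ Real.exp (-L₀) := by
      have h7 := (abs_lt.1 (h4.trans_lt h5)).1
      linarith
    have h7 : L₀ ≤ a * v * n := by
      have h8 : a * u * n ≤ 2 * (a * v * n) := by
        have h9 : (0 : ℝ) ≤ a * n := by positivity
        nlinarith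
      linarith
    obtain ⟨C, c, hC, hc, h8⟩ := h10 μ hμ v n hv0 hn2 h7 h6
    rintro ⟨δ, hδ, h9⟩
    obtain ⟨m, hm1, hm2⟩ := ((key0 v ⟨C, c, α, hC, hc, hα, h8⟩ δ hδ).and
      (eventually_ge_atTop 1)).exists
    exact absurd (h9 m hm2) (not_le.2 hm1)
  refine ⟨key1, key2, fun u hu hth => ?_⟩
  have hex : ∃ δ : ℝ, 0 < δ ∧ ∀ n : ℕ, 1 ≤ n → δ ≤ (μ u).real (Xc d 0 n) := by
    by_contra hno
    obtain ⟨ε, hε, hεu, h1⟩ := key2 u hu hno
    have hv0 : 0 < u - ε / 2 := by linarith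
    have h2 := h1 (u - ε / 2) (by
      rw [abs_lt]
      constructor <;> linarith)
    have h3 := (key1 _ hv0).resolve_left h2
    have h4 := hth _ hv0 (by linarith)
    obtain ⟨n, hn⟩ := (key0 _ h3 _ h4).exists
    have := hprob _ hv0
    have h5 := theta_le μ (u - ε / 2) (3 * n)
    have h6 := measureReal_mono (μ := μ (u - ε / 2)) (arm_Xc (d := d) n)
      (measure_ne_top _ _)
    linarith
  obtain ⟨δ', hδ', hp⟩ := hex
  have := hprob u hu
  have hd' : (1 : ℝ) ≤ 2 * d * 3 ^ (d - 1) := by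
    have h1 : 1 ≤ 2 * d * 3 ^ (d - 1) := Nat.one_le_iff_ne_zero.2 (by positivity)
    exact_mod_cast h1
  have hd0 : (0 : ℝ) < 2 * d * 3 ^ (d - 1) := by linarith
  refine ⟨δ' / (2 * d * 3 ^ (d - 1)), by positivity, fun n hn => ⟨?_, ?_⟩⟩
  · exact (div_le_self hδ'.le hd').trans (hp n hn)
  · have hn' : (1 : ℝ) ≤ n := by exact_mod_cast hn
    have hn0 : (0 : ℝ) < (n : ℝ) ^ (d - 1) := by positivity
    -- union bound
    have h1 : (μ u).real (Xc d 0 n) ≤
        ∑ x ∈ sph d n, (μ u).real (Ax d x (2 * n)) := by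
      refine (measureReal_mono (μ := μ u) (s₂ := ⋃ x ∈ sph d n,
        Ax d x (2 * n)) ?_ (measure_ne_top _ _)).trans (measureReal_biUnion_finset_le _ _)
      intro I hI
      obtain ⟨x, hx, hi, hA⟩ := h8d n I hI
      exact Set.mem_biUnion (Finset.mem_coe.2 (mem_filter.2 ⟨hx, hi⟩)) hA
    have h2 : ∀ x : Fin d → ℤ, (μ u).real (Ax d x (2 * n)) ≤ (μ u).real (Arm n) := by
      intro x
      rw [((h9 d hd u (μ u) (hμ u hu)) x).2.2 (2 * n)]
      exact measureReal_mono (arm_anti (by omega)) (measure_ne_top _ _)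
    have h3 : (μ u).real (Xc d 0 n) ≤
        ((sph d n).card : ℝ) * (μ u).real (Arm n) := by
      refine h1.trans ((Finset.sum_le_sum fun x _ => h2 x).trans ?_)
      rw [sum_const, nsmul_eq_mul]
    have h4 : ((sph d n).card : ℝ) ≤
        2 * d * 3 ^ (d - 1) * (n : ℝ) ^ (d - 1) := by
      have h5 : ((sph d n).card : ℝ) ≤
          2 * d * (2 * n + 1) ^ (d - 1) := by exact_mod_cast card_sph (d := d) n
      refine h5.trans ?_
      rw [mul_assoc (2 * (d : ℝ)), ← mul_pow]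
      refine mul_le_mul_of_nonneg_left ?_ (by positivity)
      exact pow_le_pow_left₀ (by positivity) (by linarith) _
    have h5 : δ' ≤ 2 * d * 3 ^ (d - 1) * (n : ℝ) ^ (d - 1) * (μ u).real (Arm n) :=
      ((hp n hn).trans h3).trans (mul_le_mul_of_nonneg_right h4 measureReal_nonneg)
    rw [div_div, div_le_iff₀ (mul_pos hd0 hn0)]
    linarith

end PLS
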