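import Pool.Agent.PLS.StD

/-!
# PLS, part E: decreasing events, and the crossing probabilities of the vacant set in `ℤ^d`

Each `def St_X : Prop` is a module: prove it in `Pool/Agent/PLS/X.lean` as `theorem X : St_X` (namespace `PLS`). A module may take other `St_`s as hypotheses.
-/

set_option autoImplicit false
set_option linter.unusedVariables false

open Finset Filter Topology MeasureTheory RInt

noncomputable section

namespace PLS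

/-- **E1** (0.6 h). Superposition: a type is present at the rate `r T + s T` iff it is present in one of two independent systems.

Proof. Induction on `Θ` for all `h`, by D1(0). With `e = exp (-r T)`, `e' = exp (-s T)`, `X = BE Θ r (fun B => BE Θ s (fun B' => h (B ∪ B')))`, `Y = BE Θ r (fun B => BE Θ s (fun B' => h (insert T (B ∪ B'))))`
both sides for `insert T Θ` are `e e' X + (1 - e e') Y` (on the right: `e e' X + (e (1-e') + (1-e) e' + (1-e)(1-e')) Y`; `insert T B ∪ B' = B ∪ insert T B' = insert T B ∪ insert T B' = insert T (B ∪ B')`). -/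
def St_E1 : Prop := ∀ (α : Type) [DecidableEq α] (Θ : Finset α) (r s : α → ℝ)
  (h : Finset α → ℝ),
  BE Θ (fun T => r T + s T) h = BE Θ r (fun B => BE Θ s (fun B' => h (B ∪ B')))

/-- antitone functions with values in `[0,1]` -/
def Mi {S : Type} (f : Finset S → ℝ) : Prop := (∀ A B : Finset S, A ⊆ B → f B ≤ f A) ∧
  ∀ A, 0 ≤ f A ∧ f A ≤ 1

/-- the average of `f (ω ∪ ·)` over the clumps of `K` of the level `s` -/
def Ts {S : Type} [DecidableEq S] (K : Finset S) (w : Finset S → ℝ) (s : ℝ)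
    (f : Finset S → ℝ) (ω : Finset S) : ℝ := BE (ne K) (fun P => s * w P) (fun B => f (ω ∪ un B))

/-- **E2** (0.8 h). The clumps of the levels between `v` and `v + A`, without the common ones.

Proof. `Θ = ne (K1 ∪ K2)`. E1 with `r = v w`, `s = A w`: the left side is `BE Θ (v w) (fun B => BE Θ (A w) (fun B' => f1 ((un B ∪ un B') ∩ K1) * f2 ((un B ∪ un B') ∩ K2)))` (`un (B ∪ B') = un B ∪ un B'`). For every `B`:
`(un B ∪ un B') ∩ K1 ⊇ (un B ∩ K1) ∪ un (B' ∩ ne K1)`, so the inner integrand is `≤ h1 (B' ∩ ne K1) * h2 (B' ∩ ne K2)`, `h1 C = f1 ((un B ∩ K1) ∪ un C)`, `h2 C = f2 ((un B ∩ K2) ∪ un C)` (`f1, f2` antitone and `≥ 0`). `Θ` is the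
disjoint union of `ne K1`, `ne K2` and the rest `Mx`; by D1(6) (twice; for `Mx` with the function `1` and D1(1)) `BE Θ (A w) (fun B' => h1 (B' ∩ ne K1) * h2 (B' ∩ ne K2)) = BE (ne K1) (A w) h1 * BE (ne K2) (A w) h2`
`= Ts K1 w A f1 (un B ∩ K1) * Ts K2 w A f2 (un B ∩ K2)`. Monotonicity D1(3) twice. -/
def St_E2 : Prop := ∀ (S : Type) [DecidableEq S] (K1 K2 : Finset S) (w : Finset S → ℝ)
  (v A : ℝ) (f1 f2 : Finset S → ℝ), Disjoint K1 K2 → (∀ T, 0 ≤ w T) → 0 ≤ v → 0 ≤ A →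
  Mi f1 → Mi f2 →
  BE (ne (K1 ∪ K2)) (fun T => (v + A) * w T) (fun B => f1 (un B ∩ K1) * f2 (un B ∩ K2)) ≤
    BE (ne (K1 ∪ K2)) (fun T => v * w T)
      (fun B => Ts K1 w A f1 (un B ∩ K1) * Ts K2 w A f2 (un B ∩ K2))

/-- **E3** (1 h). The interpolation for antitone functions: `Pool/Agent/PLS/D5.lean` with the signs changed.

Proof. As D5 (copy its proof). D4 is applied to `1 - f1`, `1 - f2` (they are `Mo`, and `dd (1 - f) K T B = - dd f K T B`, so the products `dd f1 K1 T B * dd f2 K2 T B` are unchanged). The derivative formula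
`Φ' t = u ∑_{T∈Mx} w T E_t [dd f1 K1 T * dd f2 K2 T]` does not use monotonicity. `M₀ = E_t [(∑_P w P dd f1 K1 P)(∑_Q w Q dd f2 K2 Q)] = E_t [(∑_P w P (f1 ω1 - f1 (ω1 ∪ P))) (∑_Q w Q (f2 ω2 - f2 (ω2 ∪ Q)))] ≤ lam² Φ t`: both factors are
nonnegative and at most `lam f1 ω1`, `lam f2 ω2` (`ω_i = un B ∩ K_i`). The rest is the same. -/
def St_E3 : Prop := ∀ (S : Type) [DecidableEq S] (K1 K2 : Finset S) (w : Finset S → ℝ)
  (κ u k₁ lam : ℝ) (f1 f2 : Finset S → ℝ), Disjoint K1 K2 → (∀ T, 0 ≤ w T) → 0 ≤ κ → 0 < u →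
  0 ≤ k₁ → 0 ≤ lam → Split K1 K2 κ w → κ * ∑ T ∈ ne (K1 ∪ K2), w T ≤ 1 / 1000 →
  κ * k₁ / u ≤ 1 / 50 → Mi f1 → Mi f2 →
  (∀ ω ⊆ K1, ∑ P ∈ ne K1, w P * (f1 ω - f1 (ω ∪ P)) ≤ lam * f1 ω) →
  (∀ ω ⊆ K2, ∑ P ∈ ne K2, w P * (f2 ω - f2 (ω ∪ P)) ≤ lam * f2 ω) →
  BE (ne (K1 ∪ K2)) (fun T => u * w T) (fun B => f1 (un B ∩ K1) * f2 (un B ∩ K2)) ≤
    Real.exp (3 * u * κ * lam ^ 2) *
      (BE (ne K1) (fun P => u * wm w K2 P) (fun B => f1 (un B)) *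
        BE (ne K2) (fun P => u * wm w K1 P) (fun B => f2 (un B)) + Real.exp (-k₁))

/-- **E4** (1.3 h). The smoothed function.

Proof. `F ω = ∫ s in 0..A, lam * exp (-(lam * (A - s))) * Ts K w s f ω + exp (-(lam * A))`. `Ts K w s f ω` is continuous in `s` (D2 with `r = 0`), antitone in `ω`, between `0` and `f ω ≤ 1` (D1(3), D1(1): `f (ω ∪ un B) ≤ f ω`), and
antitone in `s` (the derivative, see below, is `≤ 0`; or E1), `∫_0^A lam exp (-(lam (A - s))) ds = 1 - exp (-(lam A))`. So `F` is antitone, `0 ≤ F ≤ 1`, `F ω ≤ (1 - exp (-lam A)) f ω + exp (-lam A)`,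
`F ω ≥ (1 - exp (-lam A)) Ts K w A f ω`. By D2 (`r = 0`, `s T = w T`, `h B = f (ω ∪ un B)`; `ω ∪ un (insert P B) = (ω ∪ P) ∪ un B`): `d/ds Ts K w s f ω = ∑_{P∈ne K} w P * (Ts K w s f (ω ∪ P) - Ts K w s f ω)`. So
`∑_P w P (F ω - F (ω ∪ P)) = -∫_0^A lam exp (-(lam (A - s))) (d/ds) Ts K w s f ω ds`, and by parts this is `-lam Ts K w A f ω + lam exp (-lam A) f ω + lam ∫_0^A lam exp (-(lam (A - s))) Ts K w s f ω ds`
`≤ lam exp (-lam A) + lam (F ω - exp (-lam A)) = lam F ω` (`Ts K w 0 f ω = f ω ≤ 1`, `Ts ≥ 0`). -/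
def St_E4 : Prop := ∀ (S : Type) [DecidableEq S] (K : Finset S) (w : Finset S → ℝ) (A lam : ℝ)
  (f : Finset S → ℝ), (∀ T, 0 ≤ w T) → 0 < A → 0 < lam → Mi f →
  ∃ F : Finset S → ℝ, Mi F ∧ (∀ ω, (1 - Real.exp (-(lam * A))) * Ts K w A f ω ≤ F ω) ∧
    (∀ ω, F ω ≤ (1 - Real.exp (-(lam * A))) * f ω + Real.exp (-(lam * A))) ∧
    ∀ ω, ∑ P ∈ ne K, w P * (F ω - F (ω ∪ P)) ≤ lam * F ω

/-- **E5** (0.6 h). Two Poisson variables.

Proof. With `π n = exp (-Λ) Λ^n/n!`: the second series is `∑ π n y n a n`, `y n = exp (x Λ) (1-x)^n ≥ 0`. `y a ≤ s a + y^8/s^7` for `0 ≤ a ≤ 1`, `y ≥ 0` (if `y > s` then `y ≤ y^8/s^7`).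
`∑ π n (y n)^8 = exp (-Λ + 8 x Λ) ∑ ((1-x)^8 Λ)^n/n! = exp (Λ ((1-x)^8 - 1 + 8x)) ≤ exp (28 x² Λ)` (`(1-x)^8 ≤ 1 - 8x + 28x²` on `[0,1]`). -/
def St_E5 : Prop := ∀ (a : ℕ → ℝ) (Λ x s p p' : ℝ), (∀ n, 0 ≤ a n ∧ a n ≤ 1) → 0 < Λ →
  0 ≤ x → x ≤ 1 → 0 < s →
  HasSum (fun n : ℕ => Real.exp (-Λ) * Λ ^ n / n.factorial * a n) p →
  HasSum (fun n : ℕ => Real.exp (-((1 - x) * Λ)) * ((1 - x) * Λ) ^ n / n.factorial * a n) p' →
  p' ≤ s * p + Real.exp (28 * x ^ 2 * Λ) / s ^ 7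

/-- **E6** (1.3 h). The decoupling inequality for the clumps and decreasing events (compare `D9`).

Proof. `ρ = 1/2000000`, `c = ∑_{ne (K1∪K2)} w`, `ch = ρ/κ ≥ c`, `lam = √(L/(60uκ))`, `A = 2L/lam`, `x = A/u`: `x² = 240 κL/u ≤ 240/10^11`, so `x ≤ 1/4`; `v = u - A ≥ 3u/4 > 0`. `η = exp (-(lam A)) = exp (-2L)`, `b = 1 - η`.
For `i = 1`: `f = 1_{A1}` (`Mi`), `w₁ = wm w K2` on `ne K1`, `w ≤ w₁`, `∑_{ne K1} w₁ ≤ c ≤ ch`. *Two levels:* D7 for the `Mo` function `1 - f`, `w₁`, and the levels `u` and `v` (the same `ch`, so the same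
`a n = 1 - (Bo)^[n] (1 - f) ∅ ∈ [0,1]`; `∑ π n = 1`), and E5 with `Λ = u ch`, `(1-x) Λ = v ch`, `s = exp (L/8)`: `28 x² Λ = 6720 ρ L ≤ L/16`, so
`p₁ := BE (ne K1) (v w₁) (f ∘ un) ≤ exp (L/8) exp (-L) + exp (L/16 - 7L/8) ≤ 2 exp (-13L/16)`. E4 (`K1`, `w`, `A`, `lam`, `f`): `F1`; D1(3): `BE (ne K1) (v w₁) (F1 ∘ un) ≤ b p₁ + η`. The same for `i = 2`.
*Assembly:* E2 (`u = v + A`), `b Ts K1 w A f1 ≤ F1`, `b Ts K2 w A f2 ≤ F2` (everything `≥ 0`) and E3 at the level `v` with `k₁ = 2L` (`κ k₁/v ≤ (4/3) 2 κL/u ≤ 1/50`; `3 v κ lam² ≤ L/20`):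
`b² (left side) ≤ exp (L/20) ((b p₁ + η)(b p₂ + η) + exp (-2L))`. As `b ≥ 86/100` (`exp (-2) ≤ 14/100`) and `L ≥ 1`: `p_i + η/b ≤ 3 exp (-13L/16)`, left side `≤ exp (L/20) (9 exp (-13L/8) + (7/5) exp (-2L)) ≤ 10 exp (-3L/2)`
(`9 exp (-0.075) + 1.4 exp (-0.45) ≤ 10`). -/
def St_E6 : Prop := ∀ (S : Type) [DecidableEq S] (K1 K2 : Finset S) (w : Finset S → ℝ)
  (κ u L : ℝ) (A1 A2 : Finset S → Prop) [DecidablePred A1] [DecidablePred A2], Disjoint K1 K2 →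
  (∀ T, 0 ≤ w T) → 0 < κ → 0 < u → 1 ≤ L → Split K1 K2 κ w →
  κ * ∑ T ∈ ne (K1 ∪ K2), w T ≤ 1 / 2000000 → κ * L ≤ u / 10 ^ 11 →
  (∀ A B : Finset S, A ⊆ B → (A1 B → A1 A) ∧ (A2 B → A2 A)) →
  BE (ne K1) (fun P => u * wm w K2 P) (fun B => if A1 (un B) then 1 else 0) ≤ Real.exp (-L) →
  BE (ne K2) (fun P => u * wm w K1 P) (fun B => if A2 (un B) then 1 else 0) ≤ Real.exp (-L) →
  BE (ne (K1 ∪ K2)) (fun T => u * w T)
    (fun B => if A1 (un B ∩ K1) ∧ A2 (un B ∩ K2) then 1 else 0) ≤ 10 * Real.exp (-(3 * L / 2))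

/-- **E7** (0.5 h). The decoupling inequality without sprinkling for random interlacements on `ℤ^d`, `d ≥ 3`, decreasing events. The proof is `Pool/Agent/PLS/D11.lean` with E6 instead of D9 (copy it). -/
def St_E7 : Prop := ∀ d : ℕ, 3 ≤ d → ∃ (M : ℕ) (a : ℝ), 0 < a ∧
  ∀ μ : ℝ → Measure (Set (Fin d → ℤ)), (∀ u : ℝ, 0 < u → IsInterlacement u (μ u)) →
  ∀ u : ℝ, 0 < u → ∀ n : ℕ, 1 ≤ n → ∀ z z' : Fin d → ℤ, (∃ i, (M * n : ℤ) ≤ |z i - z' i|) →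
  ∀ A A' : Set (Set (Fin d → ℤ)), Local ((box d (3 * n)).image fun x => x + z) A →
    Local ((box d (3 * n)).image fun x => x + z') A' → Dn A → Dn A' →
    ∀ L : ℝ, 1 ≤ L → L ≤ a * u * n → (μ u).real A ≤ Real.exp (-L) →
      (μ u).real A' ≤ Real.exp (-L) → (μ u).real (A ∩ A') ≤ 10 * Real.exp (-(3 * L / 2))

/-- `x ∈ V` and `y` is in the component of `x` in `V` -/
def Jn {d : ℕ} (V : Set (Fin d → ℤ)) (x y : Fin d → ℤ) : Prop :=
  x ∈ V ∧ Relation.ReflTransGen (VAdj V) x y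

/-- a point of the box of radius `n` around `z` is joined in the vacant set to a point at distance
at least `3n` from `z` -/
def Xc (d : ℕ) (z : Fin d → ℤ) (n : ℕ) : Set (Set (Fin d → ℤ)) :=
  {I | ∃ x y : Fin d → ℤ, (∀ i, |x i - z i| ≤ n) ∧ (∃ i, (3 * n : ℤ) ≤ |y i - z i|) ∧ Jn Iᶜ x y}

/-- the point `x` is joined in the vacant set to a point at distance at least `m` from `x` -/
def Ax (d : ℕ) (x : Fin d → ℤ) (m : ℕ) : Set (Set (Fin d → ℤ)) :=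
  {I | ∃ y : Fin d → ℤ, (∃ i, (m : ℤ) ≤ |y i - x i|) ∧ Jn Iᶜ x y}

/-- **E8** (1.3 h). Locality and covering (deterministic).

Proof. *First exit:* if `Jn V x y`, `|x i - z i| ≤ m` for all `i` and `m ≤ |y i - z i|` for some `i` then there is `y'` with `|y' i - z i| ≤ m` for all `i`, `|y' i - z i| = m` for some `i`, and `Jn (V ∩ {v | ∀ i, |v i - z i| ≤ m}) x y'`, `Jn V y' y`
(`Relation.ReflTransGen.head_induction_on`; if `x` itself has distance `m` take `y' = x`; neighbours differ by `1` in one coordinate; the last point of the path in the box of radius `m` instead of the first one is also possible).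
(1) by the first exit with `m = 3n` the event `Xc d z n` is equal to the same event with a path in the box of radius `3n` (`d ≥ 1` as there is an `i`), and this one only depends on `I` in the box. `Dn`: `Jn` is monotone in `V`.
(2) `x` in the box of radius `m`, `j i = x i / n` (floor): `|x i - n j i| ≤ n`, `|j i| ≤ m / n + 1`, and `|y i - n j i| ≥ 3m - (m + n) ≥ 3n`.
(3) let `x, y` be the end points for `Xc d 0 (Q n)`, `y'` the first exit from the box of radius `3Qn`; `i k = x k / n ∈ [-Q, Q]`, `j k = y' k / n ∈ [-3Q, 3Q]` (floor). With the coordinate `k` with `|y' k| = 3Qn`: `|y' k - n i k| ≥ 3Qn - Qn ≥ 3n`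
(as `|n i k| ≤ Q n`, `Q ≥ 2`), so `Xc d (n i) n` holds (`x` to `y'`); `|x k - n j k| ≥ (3Q - 1) n - Q n ≥ 3n` (`|y' k - n j k| ≤ n`), so `Xc d (n j) n` holds (`y'` to `x`: `Jn` is symmetric, `VAdj` is symmetric);
`|n i k - n j k| ≥ (3Q - 1) n - Q n = (2Q - 1) n`.
(4) the last point `x'` of the path in the box of radius `n` (or: the first exit from the box of radius `n`, then `Jn V x' y`): `|x' i| = n` for some `i`, and `|y i - x' i| ≥ 3n - n` for the coordinate `i` with `|y i| ≥ 3n`. -/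
def St_E8 : Prop := ∀ d : ℕ, 1 ≤ d →
  (∀ (z : Fin d → ℤ) (n : ℕ), Local ((box d (3 * n)).image fun x => x + z) (Xc d z n) ∧
    Dn (Xc d z n)) ∧
  (∀ (n m : ℕ) (I : Set (Fin d → ℤ)), 1 ≤ n → 2 * n ≤ m → I ∈ Xc d 0 m →
    ∃ j ∈ box d (m / n + 1), I ∈ Xc d (fun k => n * j k) n) ∧
  (∀ (n Q : ℕ) (I : Set (Fin d → ℤ)), 1 ≤ n → 2 ≤ Q → I ∈ Xc d 0 (Q * n) →
    ∃ i ∈ box d Q, ∃ j ∈ box d (3 * Q), I ∈ Xc d (fun k => n * i k) n ∧
      I ∈ Xc d (fun k => n * j k) n ∧ ∃ k, ((2 * Q - 1) * n : ℤ) ≤ |(n * i k : ℤ) - n * j k|) ∧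
  (∀ (n : ℕ) (I : Set (Fin d → ℤ)), I ∈ Xc d 0 n →
    ∃ x ∈ box d n, (∃ i, |x i| = n) ∧ I ∈ Ax d x (2 * n))

/-- **E9** (0.8 h). Translation invariance.

Proof. `cap (K.image (· + z)) = cap K` (G8(1) with `σ = Equiv.addRight z`, `π = Equiv.refl`). The void probabilities determine a law (the events `{I | ∀ x ∈ K, x ∉ I}` are a generating π-system: copy `VV`, `gen_VV`, `ext_VV`, `inv_map` of
`Pool/Agent/PLS/P7.lean` with `Fin d → ℤ` instead of `Pt`), so `ν.map (fun I => {x | x + z ∈ I}) = ν`: (1). (2) `Xc d z n` is the preimage of `Xc d 0 n` under `I ↦ {x | x + z ∈ I}` (translate the paths: `Relation.ReflTransGen.lift`), `Xc d 0 n` is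
measurable (`local_measurable`, E8(1)). (3) the same for `Ax d x m`, and `Ax d 0 m = Arm m` (`clus`; `RInt.arm_local`). -/
def St_E9 : Prop := ∀ d : ℕ, 3 ≤ d → ∀ (u : ℝ) (ν : Measure (Set (Fin d → ℤ))),
  IsInterlacement u ν → ∀ z : Fin d → ℤ,
    ν.map (fun I => {x : Fin d → ℤ | x + z ∈ I}) = ν ∧
    (∀ n : ℕ, ν.real (Xc d z n) = ν.real (Xc d 0 n)) ∧
    ∀ m : ℕ, ν.real (Ax d z m) = ν.real (Arm m)

/-- **E10** (1.3 h). The recursion, and decay at all scales from one scale.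

Proof. `M, a` from E7. Let `Q = M + 2` (so `(2Q - 1) n ≥ M n`, `2 ≤ Q`), `N = (2Q+1)^d (6Q+1)^d`, and `L₀ ≥ 1` so large that `10 N ≤ exp (3L₀/10)`. Let `p m = (μ u).real (Xc d 0 m)`. *Recursion:* if `L ≥ L₀`, `L ≤ a u n`, `n ≥ 1`, `p n ≤ exp (-L)` then
`p (Q n) ≤ N 10 exp (-3L/2) ≤ exp (-6L/5)` (E8(3), union bound over the pairs `(i,j) ∈ box Q × box (3Q)`, E7 with E8(1), E9(2)). *Iteration:* `p (Q^k n) ≤ exp (-((6/5)^k L₀))` for all `k` (`(6/5)^k L₀ ≤ a u Q^k n`).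
*All scales:* for `m ≥ 2n` take `k` with `2 Q^k n ≤ m < 2 Q^(k+1) n`; E8(2) (`m / (Q^k n) + 1 ≤ 2Q + 1`) and E9(2): `p m ≤ (4Q+3)^d exp (-((6/5)^k L₀))`. With `α = log (6/5) / log Q > 0` we have `(6/5)^k = (Q^k)^α ≥ (m/(2Qn))^α`. So
`p m ≤ C exp (-(c m^α))` with `c = L₀/(2Qn)^α`, `C = (4Q+3)^d` for `m ≥ 2n`, and enlarge `C` by the factor `exp (c (2n)^α)` for `m < 2n` (`p m ≤ 1`). -/
def St_E10 : Prop := ∀ d : ℕ, 3 ≤ d → ∃ a L₀ α : ℝ, 0 < a ∧ 1 ≤ L₀ ∧ 0 < α ∧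
  ∀ μ : ℝ → Measure (Set (Fin d → ℤ)), (∀ u : ℝ, 0 < u → IsInterlacement u (μ u)) →
  ∀ (u : ℝ) (n : ℕ), 0 < u → 1 ≤ n → L₀ ≤ a * u * n →
    (μ u).real (Xc d 0 n) ≤ Real.exp (-L₀) →
    ∃ C c : ℝ, 0 < C ∧ 0 < c ∧ ∀ m : ℕ, 1 ≤ m →
      (μ u).real (Xc d 0 m) ≤ C * Real.exp (-(c * (m : ℝ) ^ α))

/-- **E11** (1.5 h). The dichotomy.

Proof. Let `p u m = (μ u).real (Xc d 0 m)`, `a, L₀, α` from E10. (1) If some `n ≥ 1` has `L₀ ≤ a u n` and `p u n ≤ exp (-L₀)`: E10. If not: `p u n ≥ exp (-L₀)` for `n ≥ N := ⌈L₀/(a u)⌉ + 1`, and for `1 ≤ n < N`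
`Xc d 0 n ⊇ {I | ∀ x ∈ box d (3N), x ∉ I}` (the path `0, e, 2e, …, 3n e` with `e = Pi.single i 1`), of probability `exp (-(u * cap (box d (3N)))) > 0`. (2) As the first alternative fails at `u`, the second one holds by (1). Choose `n ≥ 1` with
`2 L₀ ≤ a u n` and `p u n ≤ exp (-L₀)/2` (decay). By `VoidFam.main` (continuity of the probability of the local event `Xc d 0 n`, E8(1)) there is `0 < ε ≤ u/2` with `p v n ≤ exp (-L₀)` for `|v - u| < ε`, and `L₀ ≤ a v n`; E10 at `v`: the second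
alternative holds at `v`, so the first one fails. (3) Suppose `theta μ v > 0` for all `0 < v < u`. The second alternative at `v` implies `theta μ v = 0` (`theta μ v ≤ (μ v).real (Arm (3n)) ≤ p v n → 0`, as `Arm (3n) ⊆ Xc d 0 n` with
`x = 0`; `RInt.theta_le`). So by (2) and (1) the first alternative holds at `u`: `δ' ≤ p u n` for all `n ≥ 1`. E8(4) and E9(3): `δ' ≤ p u n ≤ N_n (μ u).real (Arm (2n))` (union bound), `N_n = #{x ∈ box d n | ∃ i, |x i| = n} ≤ 2d (2n+1)^(d-1) ≤ 2d 3^(d-1) n^(d-1)`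
(for every `i` the points of the box with `x i = n`, and those with `x i = -n`, are at most `(2n+1)^(d-1)`: `Fintype.piFinset`). So `δ = δ'/(2d 3^(d-1))` works (`Arm (2n) ⊆ Arm n`). -/
def St_E11 : Prop := ∀ d : ℕ, 3 ≤ d →
  ∀ μ : ℝ → Measure (Set (Fin d → ℤ)), (∀ u : ℝ, 0 < u → IsInterlacement u (μ u)) →
  (∀ u : ℝ, 0 < u → (∃ δ : ℝ, 0 < δ ∧ ∀ n : ℕ, 1 ≤ n → δ ≤ (μ u).real (Xc d 0 n)) ∨
    ∃ C c α : ℝ, 0 < C ∧ 0 < c ∧ 0 < α ∧ ∀ n : ℕ, 1 ≤ n →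
      (μ u).real (Xc d 0 n) ≤ C * Real.exp (-(c * (n : ℝ) ^ α))) ∧
  (∀ u : ℝ, 0 < u → (¬ ∃ δ : ℝ, 0 < δ ∧ ∀ n : ℕ, 1 ≤ n → δ ≤ (μ u).real (Xc d 0 n)) →
    ∃ ε : ℝ, 0 < ε ∧ ε < u ∧ ∀ v : ℝ, |v - u| < ε →
      ¬ ∃ δ : ℝ, 0 < δ ∧ ∀ n : ℕ, 1 ≤ n → δ ≤ (μ v).real (Xc d 0 n)) ∧
  ∀ u : ℝ, 0 < u → (∀ v : ℝ, 0 < v → v < u → 0 < theta μ v) → ∃ δ : ℝ, 0 < δ ∧
    ∀ n : ℕ, 1 ≤ n → δ ≤ (μ u).real (Xc d 0 n) ∧
      δ / (n : ℝ) ^ (d - 1) ≤ (μ u).real (Arm n)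

end PLS
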