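import Pool.Agent.PLS.D11
import Pool.Agent.PLS.StE

/-!
# PLS, E13: the decoupling inequality without sprinkling in the range `L ≤ a u n^(d-2)`

The proofs are those of `D11` and `E7`; only the last estimate of `κ L` changes.
-/

set_option autoImplicit false
set_option linter.unusedVariables false

open Finset MeasureTheory RInt

noncomputable section

namespace PLS

/-- the decoupling inequality without sprinkling for the events of the kind `U` -/
def DecU (U : ∀ d : ℕ, Set (Set (Fin d → ℤ)) → Prop) : Prop :=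
  ∀ d : ℕ, 3 ≤ d → ∃ (M : ℕ) (a : ℝ), 0 < a ∧
  ∀ μ : ℝ → Measure (Set (Fin d → ℤ)), (∀ u : ℝ, 0 < u → IsInterlacement u (μ u)) →
  ∀ u : ℝ, 0 < u → ∀ n : ℕ, 1 ≤ n → ∀ z z' : Fin d → ℤ, (∃ i, (M * n : ℤ) ≤ |z i - z' i|) →
  ∀ A A' : Set (Set (Fin d → ℤ)), Local ((box d (3 * n)).image fun x => x + z) A →
    Local ((box d (3 * n)).image fun x => x + z') A' → U d A → U d A' →
    ∀ L : ℝ, 1 ≤ L → L ≤ a * u * (n : ℝ) ^ (d - 2) → (μ u).real A ≤ Real.exp (-L) →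
      (μ u).real A' ≤ Real.exp (-L) → (μ u).real (A ∩ A') ≤ 10 * Real.exp (-(3 * L / 2))

open D4x D5x D10x D11x in
theorem E13u (g1 : St_G1) (g2 : St_G2) (g4 : St_G4) (g5 : St_G5) (g6 : St_G6) (g7 : St_G7)
    (g8 : St_G8) (h9 : St_D9) (h10 : St_D10) : DecU (fun _ A => Up A) := by
  classical
  intro d hd
  obtain ⟨g, C, c, hg⟩ := g1 d hd
  obtain ⟨M0, C', hC', h7⟩ := g7 d g C c hd hg
  obtain ⟨hinv, hsub, -, hbox⟩ := g8 d hd
  set M : ℕ := max (max M0 1) ⌈4000000 * 13 ^ d * C'⌉₊ with hM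
  have hM0 : M0 ≤ M := (le_max_left _ _).trans (le_max_left _ _)
  have hM1 : 1 ≤ M := (le_max_right M0 1).trans (le_max_left _ _)
  have hM2 : 4000000 * 13 ^ d * C' ≤ (M : ℝ) := by
    have a : ((⌈4000000 * 13 ^ d * C'⌉₊ : ℕ) : ℝ) ≤ (M : ℝ) := Nat.cast_le.2 (le_max_right _ _)
    exact (Nat.le_ceil _).trans a
  have hMr : (1 : ℝ) ≤ M := by exact_mod_cast hM1
  refine ⟨M, 1 / (10 ^ 11 * C'), by positivity, ?_⟩
  intro μ hμ u hu n hn z z' hz A A' hA hA' hUA hUA' L hL hLa hp hp'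
  set K1 : Finset (Fin d → ℤ) := (box d (3 * n)).image fun x => x + z with hK1
  set K2 : Finset (Fin d → ℤ) := (box d (3 * n)).image fun x => x + z' with hK2
  set K := K1 ∪ K2 with hK
  have hnr : (1 : ℝ) ≤ n := by exact_mod_cast hn
  have m1 : ∀ x ∈ K1, x - z ∈ box d (3 * n) := by
    intro x hx
    rw [hK1, mem_image] at hx
    obtain ⟨y, hy, rfl⟩ := hx
    rwa [add_sub_cancel_right]
  have m2 : ∀ x ∈ K2, x - z' ∈ box d (3 * n) := by
    intro x hx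
    rw [hK2, mem_image] at hx
    obtain ⟨y, hy, rfl⟩ := hx
    rwa [add_sub_cancel_right]
  have hz' : ∃ i, ((M * n : ℕ) : ℤ) ≤ |z i - z' i| := by
    obtain ⟨i, hi⟩ := hz
    exact ⟨i, by push_cast; exact hi⟩
  obtain ⟨hdis, hcross⟩ := h7 n (M * n) z z' hn (Nat.mul_le_mul_right n hM0) hz' K1 K2 m1 m2
  set κ : ℝ := C' / ((M * n : ℕ) : ℝ) ^ (d - 2) with hκ
  have hMn : (1 : ℝ) ≤ ((M * n : ℕ) : ℝ) := by exact_mod_cast Nat.mul_pos hM1 hn
  have hκ0 : 0 < κ := by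
    rw [hκ]
    have : (0 : ℝ) < ((M * n : ℕ) : ℝ) := by linarith
    positivity
  have hd1 : 1 ≤ d := by omega
  obtain ⟨-, -, -, g2s, g2t, g2sym, -, g2e⟩ := g2 d hd1 K
  obtain ⟨uu, huu0, huu⟩ := g5 d g C c hd1 hg K
  obtain ⟨w, hw0, hwc, hws⟩ := g6 (Fin d → ℤ) K (Hk K) (esc K) uu (fun K' => esc K')
    (fun x hx y hy => ⟨(g2s x y hy).2, g2sym x y hy hx⟩)
    (fun x hx => ⟨(g2e x).2, by rw [g2t x]; ring⟩)
    (fun x hx => ⟨huu0 x, huu x hx⟩)
    (fun K' hK' x hx => ⟨((g2 d hd1 K').2.2.2.2.2.2.2 x).2, ((g2 d hd1 K').2.2.2.2.2.2.2 x).1,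
      g4 d hd1 K K' hK' x⟩)
  have hsplit : Split K1 K2 κ w := hws K1 K2 κ rfl hdis hκ0.le hcross
  have hwcap : ∀ K' ⊆ K, ∑ T ∈ K.powerset with ¬ Disjoint T K', w T = cap K' := hwc
  have hV : VoidFam (cap (d := d)) μ := ⟨fun u hu => (hμ u hu).prob, fun u hu K => (hμ u hu).void K⟩
  obtain ⟨part1, -⟩ := h10 (Fin d → ℤ) cap μ hV cap_empty
  -- total mass
  have htot : ∑ T ∈ ne K, w T = cap K := by
    rw [← hwcap K (Finset.Subset.refl K)]
    apply Finset.sum_congr _ (fun _ _ => rfl)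
    ext T
    rw [mem_ne, mem_filter, mem_powerset]
    constructor
    · rintro ⟨a, b⟩
      refine ⟨b, fun hdj => a ?_⟩
      have := Finset.disjoint_of_subset_right b hdj
      exact Finset.disjoint_self_iff_empty T |>.1 this
    · rintro ⟨a, b⟩
      refine ⟨?_, a⟩
      rintro rfl
      exact b (Finset.disjoint_empty_left _)
  have hpow : ∀ y : ℝ, 1 ≤ y → y ≤ y ^ (d - 2) := fun y hy => le_self_pow₀ hy (by omega)
  have hκc : κ * ∑ T ∈ ne K, w T ≤ 1 / 2000000 := by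
    rw [htot]
    have c1 := hbox n z K1 hn m1
    have c2 := hbox n z' K2 hn m2
    have c3 : cap K ≤ 2 * (13 ^ d * (n : ℝ) ^ (d - 2)) := by
      have := hsub K1 K2
      linarith
    have c4 := mul_le_mul_of_nonneg_left c3 hκ0.le
    refine c4.trans ?_
    have hMp : (0 : ℝ) < (M : ℝ) ^ (d - 2) := by positivity
    have hnp : (0 : ℝ) < (n : ℝ) ^ (d - 2) := by positivity
    have c5 : κ * (2 * (13 ^ d * (n : ℝ) ^ (d - 2))) = 2 * 13 ^ d * C' / (M : ℝ) ^ (d - 2) := by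
      rw [hκ]
      push_cast
      rw [mul_pow]
      field_simp
    rw [c5, div_le_iff₀ hMp]
    have c6 := hpow M hMr
    linarith
  have hκL : κ * L ≤ u / 10 ^ 11 := by
    have c1 : κ * L ≤ κ * (1 / (10 ^ 11 * C') * u * (n : ℝ) ^ (d - 2)) :=
      mul_le_mul_of_nonneg_left hLa hκ0.le
    refine c1.trans ?_
    have hMp : (1 : ℝ) ≤ (M : ℝ) ^ (d - 2) := one_le_pow₀ hMr
    have hnp : (0 : ℝ) < (n : ℝ) ^ (d - 2) := by positivity
    have c5 : κ * (1 / (10 ^ 11 * C') * u * (n : ℝ) ^ (d - 2)) =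
        u / 10 ^ 11 / (M : ℝ) ^ (d - 2) := by
      rw [hκ]
      push_cast
      rw [mul_pow]
      field_simp
    rw [c5]
    exact div_le_self (by positivity) hMp
  have hLA : Local K (A ∩ A') := by
    intro I J hIJ
    have a := local_mono hA Finset.subset_union_left I J hIJ
    have b := local_mono hA' Finset.subset_union_right I J hIJ
    exact ⟨fun h => ⟨a.1 h.1, b.1 h.2⟩, fun h => ⟨a.2 h.1, b.2 h.2⟩⟩
  rw [part1 K w hw0 hwcap u _ hu hLA]
  have hwm : ∀ Kb P : Finset (Fin d → ℤ), 0 ≤ wm w Kb P := fun Kb P =>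
    Finset.sum_nonneg fun Q _ => hw0 _
  rw [part1 K1 (fun P => wm w K2 P) (fun P => hwm _ _) (marg hdis w cap hwcap) u A hu hA] at hp
  rw [part1 K2 (fun P => wm w K1 P) (fun P => hwm _ _) (marg hdis.symm w cap (by
    intro K' hK'
    rw [Finset.union_comm K2 K1] at hK' ⊢
    exact hwcap K' hK')) u A' hu hA'] at hp'
  have main := h9 (Fin d → ℤ) K1 K2 w κ u L (fun T => (T : Set (Fin d → ℤ)) ∈ A)
    (fun T => (T : Set (Fin d → ℤ)) ∈ A') hdis hw0 hκ0 hu hL hsplit hκc hκL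
    (fun X Y hXY => ⟨fun h => hUA _ h _ (by exact_mod_cast hXY),
      fun h => hUA' _ h _ (by exact_mod_cast hXY)⟩) ?_ ?_
  · refine le_trans (le_of_eq ?_) main
    refine BE_congr (fun _ _ => rfl) fun B _ => ?_
    have e1 := local_inter hA (un B)
    have e2 := local_inter hA' (un B)
    by_cases h : (un B : Set (Fin d → ℤ)) ∈ A ∩ A'
    · rw [if_pos h, if_pos ⟨e1.1 h.1, e2.1 h.2⟩]
    · rw [if_neg h, if_neg fun h' => h ⟨e1.2 h'.1, e2.2 h'.2⟩]
  · refine le_trans (le_of_eq ?_) hp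
    refine BE_congr (fun _ _ => rfl) fun B _ => ?_
    by_cases h : (un B : Set (Fin d → ℤ)) ∈ A
    · rw [if_pos h]
    · rw [if_neg h]
  · refine le_trans (le_of_eq ?_) hp'
    refine BE_congr (fun _ _ => rfl) fun B _ => ?_
    by_cases h : (un B : Set (Fin d → ℤ)) ∈ A'
    · rw [if_pos h]
    · rw [if_neg h]

open D4x D5x D10x D11x in
theorem E13d (g1 : St_G1) (g2 : St_G2) (g4 : St_G4) (g5 : St_G5) (g6 : St_G6) (g7 : St_G7)
    (g8 : St_G8) (h9 : St_E6) (h10 : St_D10) : DecU (fun _ A => Dn A) := by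
  classical
  intro d hd
  obtain ⟨g, C, c, hg⟩ := g1 d hd
  obtain ⟨M0, C', hC', h7⟩ := g7 d g C c hd hg
  obtain ⟨hinv, hsub, -, hbox⟩ := g8 d hd
  set M : ℕ := max (max M0 1) ⌈4000000 * 13 ^ d * C'⌉₊ with hM
  have hM0 : M0 ≤ M := (le_max_left _ _).trans (le_max_left _ _)
  have hM1 : 1 ≤ M := (le_max_right M0 1).trans (le_max_left _ _)
  have hM2 : 4000000 * 13 ^ d * C' ≤ (M : ℝ) := by
    have a : ((⌈4000000 * 13 ^ d * C'⌉₊ : ℕ) : ℝ) ≤ (M : ℝ) := Nat.cast_le.2 (le_max_right _ _)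
    exact (Nat.le_ceil _).trans a
  have hMr : (1 : ℝ) ≤ M := by exact_mod_cast hM1
  refine ⟨M, 1 / (10 ^ 11 * C'), by positivity, ?_⟩
  intro μ hμ u hu n hn z z' hz A A' hA hA' hUA hUA' L hL hLa hp hp'
  set K1 : Finset (Fin d → ℤ) := (box d (3 * n)).image fun x => x + z with hK1
  set K2 : Finset (Fin d → ℤ) := (box d (3 * n)).image fun x => x + z' with hK2
  set K := K1 ∪ K2 with hK
  have hnr : (1 : ℝ) ≤ n := by exact_mod_cast hn
  have m1 : ∀ x ∈ K1, x - z ∈ box d (3 * n) := by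
    intro x hx
    rw [hK1, mem_image] at hx
    obtain ⟨y, hy, rfl⟩ := hx
    rwa [add_sub_cancel_right]
  have m2 : ∀ x ∈ K2, x - z' ∈ box d (3 * n) := by
    intro x hx
    rw [hK2, mem_image] at hx
    obtain ⟨y, hy, rfl⟩ := hx
    rwa [add_sub_cancel_right]
  have hz' : ∃ i, ((M * n : ℕ) : ℤ) ≤ |z i - z' i| := by
    obtain ⟨i, hi⟩ := hz
    exact ⟨i, by push_cast; exact hi⟩
  obtain ⟨hdis, hcross⟩ := h7 n (M * n) z z' hn (Nat.mul_le_mul_right n hM0) hz' K1 K2 m1 m2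
  set κ : ℝ := C' / ((M * n : ℕ) : ℝ) ^ (d - 2) with hκ
  have hMn : (1 : ℝ) ≤ ((M * n : ℕ) : ℝ) := by exact_mod_cast Nat.mul_pos hM1 hn
  have hκ0 : 0 < κ := by
    rw [hκ]
    have : (0 : ℝ) < ((M * n : ℕ) : ℝ) := by linarith
    positivity
  have hd1 : 1 ≤ d := by omega
  obtain ⟨-, -, -, g2s, g2t, g2sym, -, g2e⟩ := g2 d hd1 K
  obtain ⟨uu, huu0, huu⟩ := g5 d g C c hd1 hg K
  obtain ⟨w, hw0, hwc, hws⟩ := g6 (Fin d → ℤ) K (Hk K) (esc K) uu (fun K' => esc K')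
    (fun x hx y hy => ⟨(g2s x y hy).2, g2sym x y hy hx⟩)
    (fun x hx => ⟨(g2e x).2, by rw [g2t x]; ring⟩)
    (fun x hx => ⟨huu0 x, huu x hx⟩)
    (fun K' hK' x hx => ⟨((g2 d hd1 K').2.2.2.2.2.2.2 x).2, ((g2 d hd1 K').2.2.2.2.2.2.2 x).1,
      g4 d hd1 K K' hK' x⟩)
  have hsplit : Split K1 K2 κ w := hws K1 K2 κ rfl hdis hκ0.le hcross
  have hwcap : ∀ K' ⊆ K, ∑ T ∈ K.powerset with ¬ Disjoint T K', w T = cap K' := hwc
  have hV : VoidFam (cap (d := d)) μ := ⟨fun u hu => (hμ u hu).prob, fun u hu K => (hμ u hu).void K⟩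
  obtain ⟨part1, -⟩ := h10 (Fin d → ℤ) cap μ hV cap_empty
  -- total mass
  have htot : ∑ T ∈ ne K, w T = cap K := by
    rw [← hwcap K (Finset.Subset.refl K)]
    apply Finset.sum_congr _ (fun _ _ => rfl)
    ext T
    rw [mem_ne, mem_filter, mem_powerset]
    constructor
    · rintro ⟨a, b⟩
      refine ⟨b, fun hdj => a ?_⟩
      have := Finset.disjoint_of_subset_right b hdj
      exact Finset.disjoint_self_iff_empty T |>.1 this
    · rintro ⟨a, b⟩
      refine ⟨?_, a⟩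
      rintro rfl
      exact b (Finset.disjoint_empty_left _)
  have hpow : ∀ y : ℝ, 1 ≤ y → y ≤ y ^ (d - 2) := fun y hy => le_self_pow₀ hy (by omega)
  have hκc : κ * ∑ T ∈ ne K, w T ≤ 1 / 2000000 := by
    rw [htot]
    have c1 := hbox n z K1 hn m1
    have c2 := hbox n z' K2 hn m2
    have c3 : cap K ≤ 2 * (13 ^ d * (n : ℝ) ^ (d - 2)) := by
      have := hsub K1 K2
      linarith
    have c4 := mul_le_mul_of_nonneg_left c3 hκ0.le
    refine c4.trans ?_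
    have hMp : (0 : ℝ) < (M : ℝ) ^ (d - 2) := by positivity
    have hnp : (0 : ℝ) < (n : ℝ) ^ (d - 2) := by positivity
    have c5 : κ * (2 * (13 ^ d * (n : ℝ) ^ (d - 2))) = 2 * 13 ^ d * C' / (M : ℝ) ^ (d - 2) := by
      rw [hκ]
      push_cast
      rw [mul_pow]
      field_simp
    rw [c5, div_le_iff₀ hMp]
    have c6 := hpow M hMr
    linarith
  have hκL : κ * L ≤ u / 10 ^ 11 := by
    have c1 : κ * L ≤ κ * (1 / (10 ^ 11 * C') * u * (n : ℝ) ^ (d - 2)) :=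
      mul_le_mul_of_nonneg_left hLa hκ0.le
    refine c1.trans ?_
    have hMp : (1 : ℝ) ≤ (M : ℝ) ^ (d - 2) := one_le_pow₀ hMr
    have hnp : (0 : ℝ) < (n : ℝ) ^ (d - 2) := by positivity
    have c5 : κ * (1 / (10 ^ 11 * C') * u * (n : ℝ) ^ (d - 2)) =
        u / 10 ^ 11 / (M : ℝ) ^ (d - 2) := by
      rw [hκ]
      push_cast
      rw [mul_pow]
      field_simp
    rw [c5]
    exact div_le_self (by positivity) hMp
  have hLA : Local K (A ∩ A') := by
    intro I J hIJ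
    have a := local_mono hA Finset.subset_union_left I J hIJ
    have b := local_mono hA' Finset.subset_union_right I J hIJ
    exact ⟨fun h => ⟨a.1 h.1, b.1 h.2⟩, fun h => ⟨a.2 h.1, b.2 h.2⟩⟩
  rw [part1 K w hw0 hwcap u _ hu hLA]
  have hwm : ∀ Kb P : Finset (Fin d → ℤ), 0 ≤ wm w Kb P := fun Kb P =>
    Finset.sum_nonneg fun Q _ => hw0 _
  rw [part1 K1 (fun P => wm w K2 P) (fun P => hwm _ _) (marg hdis w cap hwcap) u A hu hA] at hp
  rw [part1 K2 (fun P => wm w K1 P) (fun P => hwm _ _) (marg hdis.symm w cap (by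
    intro K' hK'
    rw [Finset.union_comm K2 K1] at hK' ⊢
    exact hwcap K' hK')) u A' hu hA'] at hp'
  have main := h9 (Fin d → ℤ) K1 K2 w κ u L (fun T => (T : Set (Fin d → ℤ)) ∈ A)
    (fun T => (T : Set (Fin d → ℤ)) ∈ A') hdis hw0 hκ0 hu hL hsplit hκc hκL
    (fun X Y hXY => ⟨fun h => hUA _ h _ (by exact_mod_cast hXY),
      fun h => hUA' _ h _ (by exact_mod_cast hXY)⟩) ?_ ?_
  · refine le_trans (le_of_eq ?_) main
    refine BE_congr (fun _ _ => rfl) fun B _ => ?_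
    have e1 := local_inter hA (un B)
    have e2 := local_inter hA' (un B)
    by_cases h : (un B : Set (Fin d → ℤ)) ∈ A ∩ A'
    · rw [if_pos h, if_pos ⟨e1.1 h.1, e2.1 h.2⟩]
    · rw [if_neg h, if_neg fun h' => h ⟨e1.2 h'.1, e2.2 h'.2⟩]
  · refine le_trans (le_of_eq ?_) hp
    refine BE_congr (fun _ _ => rfl) fun B _ => ?_
    by_cases h : (un B : Set (Fin d → ℤ)) ∈ A
    · rw [if_pos h]
    · rw [if_neg h]
  · refine le_trans (le_of_eq ?_) hp'
    refine BE_congr (fun _ _ => rfl) fun B _ => ?_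
    by_cases h : (un B : Set (Fin d → ℤ)) ∈ A'
    · rw [if_pos h]
    · rw [if_neg h]

end PLS
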