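import Pool.Agent.PLS.D5
import Pool.Agent.PLS.StE

/-!
# PLS, E2: the clumps of the levels between `v` and `v + A`, without the common ones
-/

set_option autoImplicit false
set_option linter.unusedVariables false

open Finset

noncomputable section

namespace PLS

namespace E2x

open D4x D5x

theorem prod3 (h1 : St_D1) {α : Type} [DecidableEq α] {Θ1 Θ2 Θ3 : Finset α} (r : α → ℝ)
    (d12 : Disjoint Θ1 Θ2) (d3 : Disjoint (Θ1 ∪ Θ2) Θ3) (f g : Finset α → ℝ) :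
    BE ((Θ1 ∪ Θ2) ∪ Θ3) r (fun B => f (B ∩ Θ1) * g (B ∩ Θ2)) = BE Θ1 r f * BE Θ2 r g := by
  have e := (h1 α (Θ1 ∪ Θ2) r).2.2.2.2.2.2.1 Θ3 (fun C => f (C ∩ Θ1) * g (C ∩ Θ2))
    (fun _ => 1) d3
  have e2 := (h1 α Θ1 r).2.2.2.2.2.2.1 Θ2 f g d12
  have e3 := (h1 α Θ3 r).2.1
  rw [e2, e3, mul_one] at e
  rw [← e]
  congr 1
  funext B
  rw [Finset.inter_assoc, Finset.inter_assoc, Finset.inter_eq_right.2 Finset.subset_union_left,
    Finset.inter_eq_right.2 Finset.subset_union_right, mul_one]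

theorem sub {S : Type} [DecidableEq S] (K : Finset S) (B B' : Finset (Finset S)) :
    (un B ∩ K) ∪ un (B' ∩ ne K) ⊆ un (B ∪ B') ∩ K := by
  intro x hx
  rw [mem_union, mem_inter, mem_un, mem_un] at hx
  rw [mem_inter, mem_un]
  rcases hx with ⟨⟨T, hT, hxT⟩, hxK⟩ | ⟨T, hT, hxT⟩
  · exact ⟨⟨T, mem_union_left _ hT, hxT⟩, hxK⟩
  · rw [mem_inter, mem_ne] at hT
    exact ⟨⟨T, mem_union_right _ hT.1, hxT⟩, hT.2.2 hxT⟩

end E2x

open D4x D5x E2x in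
theorem E2 (h1 : St_D1) (he : St_E1) : St_E2 := by
  intro S _ K1 K2 w v A f1 f2 hd hw hv hA hf1 hf2
  have e0 : (fun T : Finset S => (v + A) * w T) = fun T => v * w T + A * w T := by
    funext T
    ring
  rw [e0, he (Finset S) (ne (K1 ∪ K2)) (fun T => v * w T) (fun T => A * w T)]
  refine (h1 _ (ne (K1 ∪ K2)) _).2.2.2.1 (fun T _ => mul_nonneg hv (hw T)) _ _ fun B _ => ?_
  have e2 := prod3 h1 (fun T => A * w T) (disj12 hd) (disj3 hd)
    (fun C => f1 ((un B ∩ K1) ∪ un C)) (fun C => f2 ((un B ∩ K2) ∪ un C))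
  show _ ≤ Ts K1 w A f1 (un B ∩ K1) * Ts K2 w A f2 (un B ∩ K2)
  unfold Ts
  rw [← e2, ← ne_spl hd]
  refine (h1 _ (ne (K1 ∪ K2)) _).2.2.2.1 (fun T _ => mul_nonneg hA (hw T)) _ _ fun B' _ => ?_
  exact mul_le_mul (hf1.1 _ _ (sub K1 B B')) (hf2.1 _ _ (sub K2 B B')) (hf2.2 _).1 (hf1.2 _).1

end PLS
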