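import Pool.Agent.PLS.StE

/-!
# PLS, E4: the smoothed function (Lean: helper15)
-/

set_option autoImplicit false
set_option linter.unusedVariables false

open Finset MeasureTheory

noncomputable section

namespace PLS

namespace E4x

variable {S : Type} [DecidableEq S]

theorem un_insert (P : Finset S) (B : Finset (Finset S)) : un (insert P B) = P ∪ un B := by
  unfold un
  rw [Finset.sup_insert]
  rfl

theorem Ts_zero (h1 : St_D1) (K : Finset S) (w : Finset S → ℝ) (f : Finset S → ℝ)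
    (ω : Finset S) : Ts K w 0 f ω = f ω := by
  unfold Ts
  obtain ⟨-, -, -, -, -, -, -, z, -⟩ := h1 (Finset S) (ne K) (fun P => 0 * w P)
  rw [z ∅ _ (empty_subset _) (fun T _ => zero_mul _)]
  unfold BE
  simp [un]

theorem Ts_deriv (h1 : St_D1) (h2 : St_D2) (K : Finset S) (w : Finset S → ℝ)
    (f : Finset S → ℝ) (ω : Finset S) (s : ℝ) :
    HasDerivAt (fun s => Ts K w s f ω)
      (∑ P ∈ ne K, w P * (Ts K w s f (ω ∪ P) - Ts K w s f ω)) s := by
  have h := h2 (Finset S) (ne K) (fun _ => 0) w (fun B => f (ω ∪ un B)) s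
  simp only [zero_add] at h
  refine h.congr_deriv ?_
  refine Finset.sum_congr rfl fun P _ => ?_
  congr 1
  obtain ⟨-, -, l, -⟩ := h1 (Finset S) (ne K) (fun P => s * w P)
  have h3 := l 1 (-1) (fun B => f ((ω ∪ P) ∪ un B)) (fun B => f (ω ∪ un B))
  have h4 : (fun B => f (ω ∪ un (insert P B)) - f (ω ∪ un B)) =
      fun B => 1 * f ((ω ∪ P) ∪ un B) + (-1) * f (ω ∪ un B) := by
    funext B
    rw [un_insert, union_assoc]
    ring
  rw [h4, h3]
  unfold Ts
  ring

theorem Ts_anti (h1 : St_D1) (K : Finset S) {w : Finset S → ℝ} (hw : ∀ T, 0 ≤ w T)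
    {f : Finset S → ℝ} (hf : Mi f) {s : ℝ} (hs : 0 ≤ s) {ω ω' : Finset S} (h : ω ⊆ ω') :
    Ts K w s f ω' ≤ Ts K w s f ω := by
  obtain ⟨-, -, -, m, -⟩ := h1 (Finset S) (ne K) (fun P => s * w P)
  exact m (fun T _ => mul_nonneg hs (hw T)) _ _ fun B _ =>
    hf.1 _ _ (union_subset_union h (Subset.refl _))

theorem Ts_nonneg (h1 : St_D1) (K : Finset S) {w : Finset S → ℝ} (hw : ∀ T, 0 ≤ w T)
    {f : Finset S → ℝ} (hf : Mi f) {s : ℝ} (hs : 0 ≤ s) (ω : Finset S) :
    0 ≤ Ts K w s f ω := by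
  obtain ⟨-, -, l, m, -⟩ := h1 (Finset S) (ne K) (fun P => s * w P)
  have h3 := m (fun T _ => mul_nonneg hs (hw T)) (fun _ => 0) (fun B => f (ω ∪ un B))
    fun B _ => (hf.2 _).1
  have h4 := l 0 0 (fun _ => 0) (fun _ => 0)
  simp only [zero_mul, add_zero] at h4
  rw [h4] at h3
  exact h3

theorem Ts_le (h1 : St_D1) (K : Finset S) {w : Finset S → ℝ} (hw : ∀ T, 0 ≤ w T)
    {f : Finset S → ℝ} (hf : Mi f) {s : ℝ} (hs : 0 ≤ s) (ω : Finset S) :
    Ts K w s f ω ≤ f ω := by
  obtain ⟨-, c, l, m, -⟩ := h1 (Finset S) (ne K) (fun P => s * w P)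
  have h3 := m (fun T _ => mul_nonneg hs (hw T)) (fun B => f (ω ∪ un B)) (fun _ => f ω)
    fun B _ => hf.1 _ _ subset_union_left
  have h4 := l (f ω) 0 (fun _ => 1) (fun _ => 0)
  simp only [mul_one, mul_zero, add_zero, zero_mul, c] at h4
  rw [h4] at h3
  exact h3

/-- `Ts` is antitone in the level -/
theorem Ts_lvl (h1 : St_D1) (h2 : St_D2) (K : Finset S) {w : Finset S → ℝ} (hw : ∀ T, 0 ≤ w T)
    {f : Finset S → ℝ} (hf : Mi f) {s t : ℝ} (hs : 0 ≤ s) (hst : s ≤ t) (ω : Finset S) :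
    Ts K w t f ω ≤ Ts K w s f ω := by
  have hc : ContinuousOn (fun s => Ts K w s f ω) (Set.Ici 0) := fun x _ =>
    (Ts_deriv h1 h2 K w f ω x).continuousAt.continuousWithinAt
  have hd : DifferentiableOn ℝ (fun s => Ts K w s f ω) (interior (Set.Ici 0)) := fun x _ =>
    (Ts_deriv h1 h2 K w f ω x).differentiableAt.differentiableWithinAt
  have h := antitoneOn_of_deriv_nonpos (convex_Ici 0) hc hd (fun x hx => by
    rw [(Ts_deriv h1 h2 K w f ω x).deriv]
    rw [interior_Ici, Set.mem_Ioi] at hx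
    refine Finset.sum_nonpos fun P _ => ?_
    refine mul_nonpos_of_nonneg_of_nonpos (hw P) (sub_nonpos.2 ?_)
    exact Ts_anti h1 K hw hf hx.le subset_union_left)
  exact h (Set.mem_Ici.2 hs) (Set.mem_Ici.2 (hs.trans hst)) hst

theorem G_deriv (lam A s : ℝ) :
    HasDerivAt (fun s => Real.exp (-(lam * (A - s)))) (lam * Real.exp (-(lam * (A - s)))) s := by
  have h1 : HasDerivAt (fun s : ℝ => -(lam * (A - s))) lam s := by
    have h := (((hasDerivAt_id s).const_sub A).const_mul lam).neg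
    refine h.congr_deriv ?_
    ring
  refine h1.exp.congr_deriv ?_
  ring

end E4x

open E4x

theorem E4 (h1 : St_D1) (h2 : St_D2) : St_E4 := by
  intro S _ K w A lam f hw hA hlam hf
  obtain ⟨G, hG⟩ : ∃ G : ℝ → ℝ, G = fun s => Real.exp (-(lam * (A - s))) := ⟨_, rfl⟩
  obtain ⟨η, hη⟩ : ∃ η : ℝ, η = Real.exp (-(lam * A)) := ⟨_, rfl⟩
  have hη0 : 0 < η := by rw [hη]; exact Real.exp_pos _
  have hG0 : ∀ s, 0 < G s := fun s => by rw [hG]; exact Real.exp_pos _
  have hGd : ∀ s, HasDerivAt G (lam * G s) s := fun s => by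
    rw [hG]; exact G_deriv lam A s
  have hGc : Continuous G := continuous_iff_continuousAt.2 fun s => (hGd s).continuousAt
  have hGA : G A = 1 := by rw [hG]; simp
  have hGz : G 0 = η := by rw [hG, hη]; simp
  have hTd := fun ω s => Ts_deriv h1 h2 K w f ω s
  have hTc : ∀ ω, Continuous fun s => Ts K w s f ω := fun ω =>
    continuous_iff_continuousAt.2 fun s => (hTd ω s).continuousAt
  obtain ⟨I, hI⟩ : ∃ I : Finset S → ℝ, I = fun ω => ∫ s in (0 : ℝ)..A, G s * Ts K w s f ω :=
    ⟨_, rfl⟩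
  have hii : ∀ ω, IntervalIntegrable (fun s => G s * Ts K w s f ω) volume 0 A := fun ω =>
    (hGc.mul (hTc ω)).intervalIntegrable _ _
  -- the integral of the weight
  have hG1 : lam * ∫ s in (0 : ℝ)..A, G s = 1 - η := by
    rw [← intervalIntegral.integral_const_mul,
      intervalIntegral.integral_eq_sub_of_hasDerivAt (fun s _ => hGd s)
        ((continuous_const.mul hGc).intervalIntegrable _ _), hGA, hGz]
  have hη1 : η ≤ 1 := by
    rw [hη]
    exact Real.exp_le_one_iff.2 (by nlinarith)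
  -- bounds
  have hIle : ∀ (ω : Finset S) (c : ℝ), (∀ s ∈ Set.Icc 0 A, Ts K w s f ω ≤ c) →
      lam * I ω ≤ (1 - η) * c := by
    intro ω c hc
    have h3 : I ω ≤ ∫ s in (0 : ℝ)..A, G s * c := by
      rw [hI]
      refine intervalIntegral.integral_mono_on hA.le (hii ω)
        ((hGc.mul continuous_const).intervalIntegrable _ _) fun s hs => ?_
      exact mul_le_mul_of_nonneg_left (hc s hs) (hG0 s).le
    rw [intervalIntegral.integral_mul_const] at h3
    calc lam * I ω ≤ lam * ((∫ s in (0 : ℝ)..A, G s) * c) :=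
          mul_le_mul_of_nonneg_left h3 hlam.le
      _ = (1 - η) * c := by rw [← hG1]; ring
  have hIge : ∀ (ω : Finset S) (c : ℝ), (∀ s ∈ Set.Icc 0 A, c ≤ Ts K w s f ω) →
      (1 - η) * c ≤ lam * I ω := by
    intro ω c hc
    have h3 : (∫ s in (0 : ℝ)..A, G s * c) ≤ I ω := by
      rw [hI]
      refine intervalIntegral.integral_mono_on hA.le
        ((hGc.mul continuous_const).intervalIntegrable _ _) (hii ω) fun s hs => ?_
      exact mul_le_mul_of_nonneg_left (hc s hs) (hG0 s).le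
    rw [intervalIntegral.integral_mul_const] at h3
    calc (1 - η) * c = lam * ((∫ s in (0 : ℝ)..A, G s) * c) := by rw [← hG1]; ring
      _ ≤ lam * I ω := mul_le_mul_of_nonneg_left h3 hlam.le
  refine ⟨fun ω => lam * I ω + η, ⟨?_, ?_⟩, ?_, ?_, ?_⟩
  · intro ω ω' h
    show lam * I ω' + η ≤ lam * I ω + η
    have h3 : I ω' ≤ I ω := by
      rw [hI]
      refine intervalIntegral.integral_mono_on hA.le (hii ω') (hii ω) fun s hs => ?_
      exact mul_le_mul_of_nonneg_left (Ts_anti h1 K hw hf hs.1 h) (hG0 s).le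
    have h4 := mul_le_mul_of_nonneg_left h3 hlam.le
    linarith
  · intro ω
    show 0 ≤ lam * I ω + η ∧ lam * I ω + η ≤ 1
    have h3 := hIle ω 1 fun s hs => (Ts_le h1 K hw hf hs.1 ω).trans (hf.2 ω).2
    have h4 := hIge ω 0 fun s hs => Ts_nonneg h1 K hw hf hs.1 ω
    constructor <;> linarith
  · intro ω
    show (1 - Real.exp (-(lam * A))) * Ts K w A f ω ≤ lam * I ω + η
    rw [← hη]
    have h3 := hIge ω (Ts K w A f ω) fun s hs => Ts_lvl h1 h2 K hw hf hs.1 hs.2 ω
    linarith
  · intro ω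
    show lam * I ω + η ≤ (1 - Real.exp (-(lam * A))) * f ω + Real.exp (-(lam * A))
    rw [← hη]
    have h3 := hIle ω (f ω) fun s hs => Ts_le h1 K hw hf hs.1 ω
    linarith
  · intro ω
    show ∑ P ∈ ne K, w P * ((lam * I ω + η) - (lam * I (ω ∪ P) + η)) ≤ lam * (lam * I ω + η)
    -- integration by parts
    have hp : ∀ s, HasDerivAt (fun s => G s * Ts K w s f ω)
        (lam * G s * Ts K w s f ω +
          G s * ∑ P ∈ ne K, w P * (Ts K w s f (ω ∪ P) - Ts K w s f ω)) s :=
      fun s => (hGd s).mul (hTd ω s)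
    have hc2 : Continuous fun s => G s * ∑ P ∈ ne K, w P *
        (Ts K w s f (ω ∪ P) - Ts K w s f ω) :=
      hGc.mul (continuous_finsetSum _ fun P _ => continuous_const.mul ((hTc _).sub (hTc _)))
    have hc1 : Continuous fun s => lam * G s * Ts K w s f ω :=
      (continuous_const.mul hGc).mul (hTc ω)
    have h3 := intervalIntegral.integral_eq_sub_of_hasDerivAt (a := 0) (b := A)
      (fun s _ => hp s) ((hc1.add hc2).intervalIntegrable _ _)
    rw [intervalIntegral.integral_add (hc1.intervalIntegrable _ _)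
      (hc2.intervalIntegrable _ _), hGA, hGz, Ts_zero h1, one_mul] at h3
    have h4 : (∫ s in (0 : ℝ)..A, lam * G s * Ts K w s f ω) = lam * I ω := by
      rw [hI, ← intervalIntegral.integral_const_mul]
      refine intervalIntegral.integral_congr fun s _ => ?_
      show lam * G s * Ts K w s f ω = lam * (G s * Ts K w s f ω)
      ring
    have h5 : (∫ s in (0 : ℝ)..A, G s * ∑ P ∈ ne K, w P *
        (Ts K w s f (ω ∪ P) - Ts K w s f ω)) = ∑ P ∈ ne K, w P * (I (ω ∪ P) - I ω) := by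
      have e1 : (fun s => G s * ∑ P ∈ ne K, w P * (Ts K w s f (ω ∪ P) - Ts K w s f ω)) =
          fun s => ∑ P ∈ ne K, w P * (G s * Ts K w s f (ω ∪ P) - G s * Ts K w s f ω) := by
        funext s
        rw [Finset.mul_sum]
        refine Finset.sum_congr rfl fun P _ => ?_
        ring
      have e2 : ∀ P ∈ ne K, IntervalIntegrable
          (fun s => w P * (G s * Ts K w s f (ω ∪ P) - G s * Ts K w s f ω)) volume 0 A :=
        fun P _ => ((hii _).sub (hii _)).const_mul _
      rw [e1, intervalIntegral.integral_finsetSum e2]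
      refine Finset.sum_congr rfl fun P _ => ?_
      rw [intervalIntegral.integral_const_mul, intervalIntegral.integral_sub (hii _) (hii _), hI]
    rw [h4, h5] at h3
    have h6 : ∑ P ∈ ne K, w P * ((lam * I ω + η) - (lam * I (ω ∪ P) + η)) =
        -(lam * ∑ P ∈ ne K, w P * (I (ω ∪ P) - I ω)) := by
      rw [Finset.mul_sum, ← Finset.sum_neg_distrib]
      refine Finset.sum_congr rfl fun P _ => ?_
      ring
    rw [h6, ← mul_neg]
    refine mul_le_mul_of_nonneg_left ?_ hlam.le
    have h7 := Ts_nonneg h1 K hw hf hA.le ω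
    have h8 : η * f ω ≤ η := by
      have := mul_le_mul_of_nonneg_left (hf.2 ω).2 hη0.le
      linarith
    linarith

end PLS
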