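import Pool.Agent.PLS.StE

set_option autoImplicit false

/-!
# PLS: module E5 (two Poisson variables, scalar inequality)
-/

namespace PLS
namespace E5x

theorem bonf (x : ℝ) (h0 : 0 ≤ x) (h1 : x ≤ 1) (n : ℕ) :
    (1 - x) ^ n ≤ 1 - n * x + n * (n - 1) / 2 * x ^ 2 := by
  induction n with
  | zero => simp
  | succ n ih =>
    rw [pow_succ]
    have h2 : (1 - x) ^ n * (1 - x) ≤ (1 - n * x + n * (n - 1) / 2 * x ^ 2) * (1 - x) :=
      mul_le_mul_of_nonneg_right ih (by linarith)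
    have h3 : 0 ≤ (n : ℝ) * (n - 1) / 2 * x ^ 3 := by
      rcases Nat.eq_zero_or_pos n with h | h
      · subst h; simp
      · have : (1 : ℝ) ≤ n := by exact_mod_cast h
        have h4 : (0 : ℝ) ≤ n - 1 := by linarith
        positivity
    push_cast
    nlinarith

theorem ptw (y s a : ℝ) (hy : 0 ≤ y) (hs : 0 < s) (h0 : 0 ≤ a) (h1 : a ≤ 1) :
    y * a ≤ s * a + y ^ 8 / s ^ 7 := by
  by_cases h : y ≤ s
  · have h2 : y * a ≤ s * a := mul_le_mul_of_nonneg_right h h0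
    have h3 : 0 ≤ y ^ 8 / s ^ 7 := by positivity
    linarith
  · have h' : s < y := not_le.1 h
    have h2 : y * a ≤ y := by nlinarith
    have h3 : y ≤ y ^ 8 / s ^ 7 := by
      rw [le_div_iff₀ (by positivity)]
      have h4 : s ^ 7 ≤ y ^ 7 := pow_le_pow_left₀ hs.le h'.le 7
      calc y * s ^ 7 ≤ y * y ^ 7 := mul_le_mul_of_nonneg_left h4 hy
        _ = y ^ 8 := by ring
    have h4 : 0 ≤ s * a := by positivity
    linarith

end E5x

open E5x

theorem E5 : St_E5 := by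
  intro a Λ x s p p' ha hΛ hx0 hx1 hs hp hp'
  -- the exponential series
  have hexp : ∀ z : ℝ, HasSum (fun n : ℕ => z ^ n / n.factorial) (Real.exp z) := by
    intro z
    have := NormedSpace.expSeries_div_hasSum_exp (𝔸 := ℝ) z
    rwa [← Real.exp_eq_exp_ℝ] at this
  have hS : HasSum (fun n : ℕ => Real.exp (-Λ) * Λ ^ n / n.factorial *
      (Real.exp (x * Λ) * (1 - x) ^ n) ^ 8 / s ^ 7)
      (Real.exp (-Λ) * Real.exp (x * Λ) ^ 8 / s ^ 7 * Real.exp ((1 - x) ^ 8 * Λ)) := by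
    have h := (hexp ((1 - x) ^ 8 * Λ)).mul_left (Real.exp (-Λ) * Real.exp (x * Λ) ^ 8 / s ^ 7)
    convert! h using 1
    funext n
    simp only [mul_pow, ← pow_mul]
    rw [mul_comm 8 n]
    ring
  have hR : HasSum (fun n : ℕ => s * (Real.exp (-Λ) * Λ ^ n / n.factorial * a n) +
      Real.exp (-Λ) * Λ ^ n / n.factorial * (Real.exp (x * Λ) * (1 - x) ^ n) ^ 8 / s ^ 7)
      (s * p + Real.exp (-Λ) * Real.exp (x * Λ) ^ 8 / s ^ 7 * Real.exp ((1 - x) ^ 8 * Λ)) :=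
    (hp.mul_left s).add hS
  have hle : p' ≤ s * p + Real.exp (-Λ) * Real.exp (x * Λ) ^ 8 / s ^ 7 *
      Real.exp ((1 - x) ^ 8 * Λ) := by
    refine hasSum_le (fun n => ?_) hp' hR
    obtain ⟨h0, h1⟩ := ha n
    have hy : 0 ≤ Real.exp (x * Λ) * (1 - x) ^ n := by
      have : 0 ≤ 1 - x := by linarith
      positivity
    have h2 := ptw _ s (a n) hy hs h0 h1
    have h3 : 0 ≤ Real.exp (-Λ) * Λ ^ n / n.factorial := by positivity
    have h4 := mul_le_mul_of_nonneg_left h2 h3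
    have e1 : Real.exp (-((1 - x) * Λ)) * ((1 - x) * Λ) ^ n / n.factorial * a n =
        Real.exp (-Λ) * Λ ^ n / n.factorial * (Real.exp (x * Λ) * (1 - x) ^ n * a n) := by
      have e2 : Real.exp (-((1 - x) * Λ)) = Real.exp (-Λ) * Real.exp (x * Λ) := by
        rw [← Real.exp_add]; congr 1; ring
      rw [e2, mul_pow]; ring
    rw [e1]
    calc _ ≤ _ := h4
      _ = _ := by ring
  have hfin : Real.exp (-Λ) * Real.exp (x * Λ) ^ 8 / s ^ 7 * Real.exp ((1 - x) ^ 8 * Λ) ≤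
      Real.exp (28 * x ^ 2 * Λ) / s ^ 7 := by
    have e1 : Real.exp (-Λ) * Real.exp (x * Λ) ^ 8 / s ^ 7 * Real.exp ((1 - x) ^ 8 * Λ) =
        Real.exp (-Λ + 8 * (x * Λ) + (1 - x) ^ 8 * Λ) / s ^ 7 := by
      rw [Real.exp_add, Real.exp_add, ← Real.exp_nat_mul]
      push_cast
      ring
    rw [e1]
    have h2 := bonf x hx0 hx1 8
    have h3 : -Λ + 8 * (x * Λ) + (1 - x) ^ 8 * Λ ≤ 28 * x ^ 2 * Λ := by
      have h4 : (1 - x) ^ 8 * Λ ≤ (1 - 8 * x + 28 * x ^ 2) * Λ := by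
        refine mul_le_mul_of_nonneg_right ?_ hΛ.le
        refine h2.trans (le_of_eq ?_)
        push_cast
        ring
      linarith
    gcongr
  linarith

end PLS
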