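import Pool.Agent.PLS.StE
import Pool.Agent.PLS.D9
import Pool.Agent.PLS.D7

/-!
# PLS, E6: the decoupling inequality for the clumps and decreasing events
-/

set_option autoImplicit false
set_option linter.unusedVariables false

open Finset

noncomputable section

namespace PLS

namespace E6x

open D4x D5x D9x

variable {S : Type} [DecidableEq S]

/-- the parameters -/
theorem params {κ u L : ℝ} (hκ : 0 < κ) (hu : 0 < u) (hL : 1 ≤ L) (hκL : κ * L ≤ u / 10 ^ 11) :
    ∃ lam x : ℝ, 0 < lam ∧ lam ^ 2 = L / (60 * u * κ) ∧ 0 < x ∧ x ≤ 1 / 4 ∧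
      lam * (x * u) = 2 * L ∧ 28 * x ^ 2 * (u * (1 / 2000000 / κ)) ≤ L / 16 := by
  have hL0 : 0 < L := by linarith
  set lam := √(L / (60 * u * κ)) with hlam
  have hlam2 : lam ^ 2 = L / (60 * u * κ) := Real.sq_sqrt (by positivity)
  have hlam0 : 0 < lam := Real.sqrt_pos.2 (by positivity)
  set x : ℝ := 2 * L / (lam * u) with hx
  have hx0 : 0 < x := by positivity
  have hx2 : x ^ 2 = 240 * (κ * L) / u := by
    rw [hx, div_pow, mul_pow, mul_pow, hlam2]
    field_simp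
    norm_num
  have hxs : x ^ 2 ≤ 1 / 16 := by
    rw [hx2, div_le_iff₀ hu]
    have : u / 10 ^ 11 * 240 ≤ 1 / 16 * u := by
      norm_num
      linarith
    linarith
  refine ⟨lam, x, hlam0, hlam2, hx0, ?_, ?_, ?_⟩
  · by_contra h
    push Not at h
    nlinarith
  · rw [hx]
    field_simp
  · rw [hx2]
    have : 28 * (240 * (κ * L) / u) * (u * (1 / 2000000 / κ)) = 6720 / 2000000 * L := by
      field_simp
      norm_num
    rw [this]
    linarith

/-- the two levels and the smoothed function, one side -/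
theorem side (h7 : St_D7) (h4 : St_E4) (h5 : St_E5) {Ka Kb : Finset S} (hd : Disjoint Ka Kb)
    {w : Finset S → ℝ} {κ u L : ℝ} (hw : ∀ T, 0 ≤ w T) (hκ : 0 < κ) (hu : 0 < u) (hL : 1 ≤ L)
    (hκc : κ * ∑ T ∈ ne (Ka ∪ Kb), w T ≤ 1 / 2000000)
    {lam x : ℝ} (hlam : 0 < lam) (hx0 : 0 < x) (hx1 : x ≤ 1 / 4) (hxl : lam * (x * u) = 2 * L)
    (hx2 : 28 * x ^ 2 * (u * (1 / 2000000 / κ)) ≤ L / 16)
    (hb : Real.exp (-(2 * L)) ≤ (1 - Real.exp (-(2 * L))) * Real.exp (-(13 * L / 16)))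
    (hη : Real.exp (-(2 * L)) < 1)
    (A : Finset S → Prop) [DecidablePred A] (hA : ∀ X Y : Finset S, X ⊆ Y → A Y → A X)
    (hp : BE (ne Ka) (fun P => u * wm w Kb P) (fun B => if A (un B) then 1 else 0) ≤
      Real.exp (-L)) :
    ∃ F : Finset S → ℝ, Mi F ∧
      (∀ ω, (1 - Real.exp (-(2 * L))) *
        Ts Ka w (x * u) (fun ω => if A ω then 1 else 0) ω ≤ F ω) ∧
      (∀ ω ⊆ Ka, ∑ P ∈ ne Ka, w P * (F ω - F (ω ∪ P)) ≤ lam * F ω) ∧
      BE (ne Ka) (fun P => (1 - x) * u * wm w Kb P) (fun B => F (un B)) ≤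
        3 * ((1 - Real.exp (-(2 * L))) * Real.exp (-(13 * L / 16))) := by
  set ch : ℝ := 1 / 2000000 / κ with hch
  have hch0 : 0 < ch := by positivity
  set η : ℝ := Real.exp (-(2 * L)) with hηd
  have hη0 : 0 < η := Real.exp_pos _
  set w1 : Finset S → ℝ := fun P => wm w Kb P with hw1d
  have hw1 : ∀ T, 0 ≤ w1 T := fun T => Finset.sum_nonneg fun Q _ => hw _
  have hsum : ∑ P ∈ ne Ka, w1 P ≤ ch := by
    have e1 : ∑ P ∈ ne Ka, w1 P = ∑ P ∈ ne Ka, w P + ∑ T ∈ Mx Ka Kb, w T := by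
      rw [bij hd, ← Finset.sum_add_distrib]
      refine Finset.sum_congr rfl fun P _ => ?_
      show wm w Kb P = _
      rw [wm_eq]
    have e2 : ∑ P ∈ ne Ka, w1 P ≤ ∑ T ∈ ne (Ka ∪ Kb), w T := by
      rw [e1, sum_ne hd]
      have : 0 ≤ ∑ Q ∈ ne Kb, w Q := Finset.sum_nonneg fun Q _ => hw _
      linarith
    refine e2.trans ?_
    rw [hch, le_div_iff₀ hκ]
    linarith [mul_comm κ (∑ T ∈ ne (Ka ∪ Kb), w T)]
  set f : Finset S → ℝ := fun ω => if A ω then 1 else 0 with hf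
  have hf01 : ∀ X, 0 ≤ f X ∧ f X ≤ 1 := by
    intro X
    show 0 ≤ (if A X then (1 : ℝ) else 0) ∧ (if A X then (1 : ℝ) else 0) ≤ 1
    split_ifs
    · exact ⟨zero_le_one, le_rfl⟩
    · exact ⟨le_rfl, zero_le_one⟩
  have hfa : ∀ X Y : Finset S, X ⊆ Y → f Y ≤ f X := by
    intro X Y hXY
    show (if A Y then (1 : ℝ) else 0) ≤ if A X then 1 else 0
    by_cases h : A Y
    · rw [if_pos h, if_pos (hA X Y hXY h)]
    · rw [if_neg h]
      exact (hf01 X).1
  have hfm : Mi f := ⟨hfa, hf01⟩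
  have hgm : Mo (fun X => 1 - f X) :=
    ⟨fun X Y hXY => sub_le_sub_left (hfa X Y hXY) 1, fun X => ⟨sub_nonneg.2 (hf01 X).2,
      sub_le_self 1 (hf01 X).1⟩⟩
  have hv0 : 0 < (1 - x) * u := mul_pos (by linarith) hu
  -- the series at a level
  have ser : ∀ t : ℝ, 0 < t → HasSum (fun n : ℕ => Real.exp (-(t * ch)) * (t * ch) ^ n /
      n.factorial * (1 - (Bo Ka w1 ch)^[n] (fun X => 1 - f X) ∅))
      (BE (ne Ka) (fun P => t * w1 P) (fun B => f (un B))) := by
    intro t ht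
    have s1 := h7 S Ka w1 ch t (fun X => 1 - f X) hw1 hsum hch0 ht hgm
    have s2 := D7x.hs (t * ch) 1 1
    have s3 := s2.sub s1
    have e1 : (1 : ℝ) * Real.exp (t * ch * 1 - t * ch) -
        BE (ne Ka) (fun P => t * w1 P) (fun B => 1 - f (un B)) =
        BE (ne Ka) (fun P => t * w1 P) (fun B => f (un B)) := by
      have e2 : (fun B : Finset (Finset S) => 1 - f (un B)) =
          fun B => 1 * (1 : ℝ) + (-1) * f (un B) := by
        funext B
        ring
      rw [e2, D1x.BE_lin (ne Ka) (fun P => t * w1 P) 1 (-1) (fun _ => 1) (fun B => f (un B)),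
        D1x.BE_const, mul_one (t * ch), sub_self, Real.exp_zero]
      ring
    rw [e1] at s3
    refine s3.congr_fun ?_
    intro n
    rw [one_pow]
    ring
  have s3 := h5 (fun n => 1 - (Bo Ka w1 ch)^[n] (fun X => 1 - f X) ∅) (u * ch) x
    (Real.exp (L / 8)) _ _ (fun n => by
      have := (Bo_iter hw1 hsum hch0 hgm n).2 ∅
      exact ⟨by linarith [this.2], by linarith [this.1]⟩) (by positivity) hx0.le (by linarith)
    (Real.exp_pos _) (ser u hu) (by
      have := ser ((1 - x) * u) hv0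
      have e : (1 - x) * u * ch = (1 - x) * (u * ch) := by ring
      rwa [e] at this)
  have s5 : Real.exp (L / 8) * BE (ne Ka) (fun P => u * w1 P) (fun B => f (un B)) ≤
      Real.exp (-(13 * L / 16)) := by
    have := mul_le_mul_of_nonneg_left hp (Real.exp_pos (L / 8)).le
    refine this.trans ?_
    rw [← Real.exp_add]
    exact Real.exp_le_exp.2 (by linarith)
  have s6 : Real.exp (28 * x ^ 2 * (u * ch)) / Real.exp (L / 8) ^ 7 ≤
      Real.exp (-(13 * L / 16)) := by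
    rw [← Real.exp_nat_mul, ← Real.exp_sub]
    refine Real.exp_le_exp.2 ?_
    push_cast
    linarith
  have s7 : BE (ne Ka) (fun P => (1 - x) * u * w1 P) (fun B => f (un B)) ≤
      2 * Real.exp (-(13 * L / 16)) := by linarith
  obtain ⟨F, hFm, hF1, hF2, hF3⟩ := h4 S Ka w (x * u) lam f hw (mul_pos hx0 hu) hlam hfm
  rw [hxl] at hF1 hF2
  refine ⟨F, hFm, hF1, fun ω _ => hF3 ω, ?_⟩
  have m1 := D1x.BE_mono (Θ := ne Ka) (r := fun P => (1 - x) * u * wm w Kb P)
    (fun T _ => mul_nonneg hv0.le (hw1 T)) (h := fun B => F (un B))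
    (h' := fun B => (1 - η) * f (un B) + η * 1) fun B _ => by
      have := hF2 (un B)
      show F (un B) ≤ (1 - η) * f (un B) + η * 1
      linarith
  refine m1.trans ?_
  rw [D1x.BE_lin (ne Ka) _ (1 - η) η (fun B => f (un B)) (fun _ => 1), D1x.BE_const]
  have m2 := mul_le_mul_of_nonneg_left s7 (sub_pos.2 hη).le
  linarith

end E6x

open D4x D5x D9x E6x in
theorem E6 (h7 : St_D7) (h2 : St_E2) (h3 : St_E3) (h4 : St_E4) (h5 : St_E5) : St_E6 := by
  intro S _ K1 K2 w κ u L A1 A2 _ _ hd hw hκ hu hL hsplit hκc hκL hA hp1 hp2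
  obtain ⟨lam, x, hlam, hlam2, hx0, hx1, hxl, hx2⟩ := E6x.params hκ hu hL hκL
  have hL0 : 0 < L := by linarith
  set η : ℝ := Real.exp (-(2 * L)) with hηd
  have hη0 : 0 < η := Real.exp_pos _
  have hη14 : η ≤ 14 / 100 := by
    have e1 : η ≤ Real.exp (-2) := Real.exp_le_exp.2 (by linarith)
    have e2 : (100 / 14 : ℝ) ≤ Real.exp 2 := by
      have e3 : Real.exp 2 = Real.exp 1 ^ 2 := by
        rw [← Real.exp_nat_mul]
        norm_num
      have e4 := Real.exp_one_gt_d9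
      rw [e3]
      nlinarith
    have e5 : Real.exp (-2) ≤ 14 / 100 := by
      rw [Real.exp_neg, inv_le_comm₀ (Real.exp_pos _) (by norm_num)]
      refine le_trans (le_of_eq ?_) e2
      norm_num
    exact e1.trans e5
  have hb : η ≤ (1 - η) * Real.exp (-(13 * L / 16)) := by
    have e1 : η = Real.exp (-(19 * L / 16)) * Real.exp (-(13 * L / 16)) := by
      rw [hηd, ← Real.exp_add]
      ring_nf
    have e2 : Real.exp (-(19 * L / 16)) ≤ 1 - η := by
      have e3 : Real.exp (-(19 * L / 16)) ≤ Real.exp (-1) := Real.exp_le_exp.2 (by linarith)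
      have e4 : Real.exp (-1) ≤ 1 / 2 := by
        rw [Real.exp_neg, inv_le_comm₀ (Real.exp_pos _) (by norm_num)]
        have := Real.add_one_le_exp (1 : ℝ)
        norm_num at this ⊢
        exact this
      linarith
    calc η = Real.exp (-(19 * L / 16)) * Real.exp (-(13 * L / 16)) := e1
      _ ≤ (1 - η) * Real.exp (-(13 * L / 16)) :=
        mul_le_mul_of_nonneg_right e2 (Real.exp_pos _).le
  obtain ⟨F1, hF1, hf1, hl1, hb1⟩ := E6x.side h7 h4 h5 hd hw hκ hu hL hκc hlam hx0 hx1 hxl hx2 hb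
    (by linarith) A1 (fun X Y h => (hA X Y h).1) hp1
  obtain ⟨F2, hF2, hf2, hl2, hb2⟩ := E6x.side h7 h4 h5 hd.symm hw hκ hu hL
    (by rwa [Finset.union_comm]) hlam hx0 hx1 hxl hx2 hb (by linarith) A2
    (fun X Y h => (hA X Y h).2) hp2
  set f1 : Finset S → ℝ := fun ω => if A1 ω then 1 else 0 with hf1d
  set f2 : Finset S → ℝ := fun ω => if A2 ω then 1 else 0 with hf2d
  have hMi1 : Mi f1 := by
    refine ⟨fun X Y hXY => ?_, fun X => ?_⟩
    · show (if A1 Y then (1 : ℝ) else 0) ≤ if A1 X then 1 else 0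
      by_cases h : A1 Y
      · rw [if_pos h, if_pos ((hA X Y hXY).1 h)]
      · rw [if_neg h]
        split_ifs
        · exact zero_le_one
        · exact le_rfl
    · show 0 ≤ (if A1 X then (1 : ℝ) else 0) ∧ (if A1 X then (1 : ℝ) else 0) ≤ 1
      split_ifs
      · exact ⟨zero_le_one, le_rfl⟩
      · exact ⟨le_rfl, zero_le_one⟩
  have hMi2 : Mi f2 := by
    refine ⟨fun X Y hXY => ?_, fun X => ?_⟩
    · show (if A2 Y then (1 : ℝ) else 0) ≤ if A2 X then 1 else 0
      by_cases h : A2 Y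
      · rw [if_pos h, if_pos ((hA X Y hXY).2 h)]
      · rw [if_neg h]
        split_ifs
        · exact zero_le_one
        · exact le_rfl
    · show 0 ≤ (if A2 X then (1 : ℝ) else 0) ∧ (if A2 X then (1 : ℝ) else 0) ≤ 1
      split_ifs
      · exact ⟨zero_le_one, le_rfl⟩
      · exact ⟨le_rfl, zero_le_one⟩
  have hv0 : 0 < (1 - x) * u := mul_pos (by linarith) hu
  have hvu : 3 / 4 * u ≤ (1 - x) * u := mul_le_mul_of_nonneg_right (by linarith) hu.le
  -- E2
  have q1 := h2 S K1 K2 w ((1 - x) * u) (x * u) f1 f2 hd hw hv0.le (mul_pos hx0 hu).le hMi1 hMi2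
  have qe : (fun T => ((1 - x) * u + x * u) * w T) = fun T => u * w T := by
    funext T
    ring
  rw [qe] at q1
  -- E3
  have main := h3 S K1 K2 w κ ((1 - x) * u) (2 * L) lam F1 F2 hd hw hκ.le hv0 (by positivity)
    hlam.le hsplit (hκc.trans (by norm_num)) (by
      rw [div_le_iff₀ hv0]
      have e1 : κ * (2 * L) = 2 * (κ * L) := by ring
      rw [e1]
      have e2 : u / 10 ^ 11 * 2 ≤ 1 / 50 * (3 / 4 * u) := by
        norm_num
        linarith
      linarith) hF1 hF2 hl1 hl2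
  have hγ : 3 * ((1 - x) * u) * κ * lam ^ 2 ≤ L / 20 := by
    have e1 : 3 * u * κ * lam ^ 2 = L / 20 := by
      rw [hlam2]
      field_simp
      ring
    have e2 : 3 * ((1 - x) * u) * κ * lam ^ 2 = (1 - x) * (3 * u * κ * lam ^ 2) := by ring
    rw [e2, e1]
    have : (1 - x) * (L / 20) ≤ 1 * (L / 20) :=
      mul_le_mul_of_nonneg_right (by linarith) (by positivity)
    linarith
  have r0 : ∀ T ∈ ne (K1 ∪ K2), 0 ≤ (1 - x) * u * w T := fun T _ => mul_nonneg hv0.le (hw T)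
  have hTs : ∀ (K : Finset S) (f : Finset S → ℝ) (ω : Finset S), (∀ X, 0 ≤ f X) →
      0 ≤ Ts K w (x * u) f ω := by
    intro K f ω h0
    have := D1x.BE_mono (Θ := ne K) (r := fun P => x * u * w P)
      (fun T _ => mul_nonneg (mul_pos hx0 hu).le (hw T))
      (h := fun _ => 0) (h' := fun B => f (ω ∪ un B)) fun B _ => h0 _
    rw [D1x.BE_const] at this
    exact this
  have hb0 : 0 < 1 - η := by linarith
  have low : (1 - η) ^ 2 * BE (ne (K1 ∪ K2)) (fun T => (1 - x) * u * w T)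
      (fun B => Ts K1 w (x * u) f1 (un B ∩ K1) * Ts K2 w (x * u) f2 (un B ∩ K2)) ≤
      BE (ne (K1 ∪ K2)) (fun T => (1 - x) * u * w T)
        (fun B => F1 (un B ∩ K1) * F2 (un B ∩ K2)) := by
    rw [← D5x.BE_smul]
    refine D1x.BE_mono r0 fun B _ => ?_
    have a1 := hf1 (un B ∩ K1)
    have a2 := hf2 (un B ∩ K2)
    have b1 := hTs K1 f1 (un B ∩ K1) fun X => (hMi1.2 X).1
    have b2 := hTs K2 f2 (un B ∩ K2) fun X => (hMi2.2 X).1
    calc (1 - η) ^ 2 * (Ts K1 w (x * u) f1 (un B ∩ K1) * Ts K2 w (x * u) f2 (un B ∩ K2))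
        = ((1 - η) * Ts K1 w (x * u) f1 (un B ∩ K1)) *
          ((1 - η) * Ts K2 w (x * u) f2 (un B ∩ K2)) := by ring
      _ ≤ F1 (un B ∩ K1) * F2 (un B ∩ K2) :=
        mul_le_mul a1 a2 (mul_nonneg hb0.le b2) (hF1.2 _).1
  set b1 := BE (ne K1) (fun P => (1 - x) * u * wm w K2 P) (fun B => F1 (un B)) with hb1d
  set b2 := BE (ne K2) (fun P => (1 - x) * u * wm w K1 P) (fun B => F2 (un B)) with hb2d
  have b20 : 0 ≤ b2 := by
    have := D1x.BE_mono (Θ := ne K2) (r := fun P => (1 - x) * u * wm w K1 P)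
      (fun T _ => mul_nonneg hv0.le (Finset.sum_nonneg fun Q _ => hw _))
      (h := fun _ => 0) (h' := fun B => F2 (un B)) fun B _ => (hF2.2 _).1
    rwa [D1x.BE_const] at this
  set e := Real.exp (-(13 * L / 16)) with hed
  have he0 : 0 < e := Real.exp_pos _
  have m1 : b1 * b2 ≤ (3 * ((1 - η) * e)) * (3 * ((1 - η) * e)) :=
    mul_le_mul hb1 hb2 b20 (by positivity)
  have m3 : BE (ne (K1 ∪ K2)) (fun T => (1 - x) * u * w T)
      (fun B => F1 (un B ∩ K1) * F2 (un B ∩ K2)) ≤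
      Real.exp (L / 20) * ((3 * ((1 - η) * e)) * (3 * ((1 - η) * e)) + η) := by
    refine main.trans ?_
    refine mul_le_mul (Real.exp_le_exp.2 hγ) (by linarith) ?_ (Real.exp_pos _).le
    have b10 : 0 ≤ b1 := by
      have := D1x.BE_mono (Θ := ne K1) (r := fun P => (1 - x) * u * wm w K2 P)
        (fun T _ => mul_nonneg hv0.le (Finset.sum_nonneg fun Q _ => hw _))
        (h := fun _ => 0) (h' := fun B => F1 (un B)) fun B _ => (hF1.2 _).1
      rwa [D1x.BE_const] at this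
    positivity
  have m4 : Real.exp (L / 20) * (e * e) ≤ Real.exp (-(3 * L / 2)) := by
    rw [hed, ← Real.exp_add, ← Real.exp_add]
    exact Real.exp_le_exp.2 (by linarith)
  have m5 : Real.exp (L / 20) * η ≤ (1 - η) ^ 2 * Real.exp (-(3 * L / 2)) := by
    have e1 : Real.exp (L / 20) * η = Real.exp (-(9 * L / 20)) * Real.exp (-(3 * L / 2)) := by
      rw [hηd, ← Real.exp_add, ← Real.exp_add]
      ring_nf
    rw [e1]
    refine mul_le_mul_of_nonneg_right ?_ (Real.exp_pos _).le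
    have e2 : Real.exp (-(9 * L / 20)) ≤ Real.exp (-(9 / 20)) :=
      Real.exp_le_exp.2 (by linarith)
    have e3 : Real.exp (-(9 / 20)) ≤ 20 / 29 := by
      rw [Real.exp_neg, inv_le_comm₀ (Real.exp_pos _) (by norm_num)]
      have := Real.add_one_le_exp (9 / 20 : ℝ)
      norm_num at this ⊢
      exact this
    nlinarith
  have q2 : BE (ne (K1 ∪ K2)) (fun T => u * w T)
      (fun B => if A1 (un B ∩ K1) ∧ A2 (un B ∩ K2) then 1 else 0) ≤
      BE (ne (K1 ∪ K2)) (fun T => (1 - x) * u * w T)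
      (fun B => Ts K1 w (x * u) f1 (un B ∩ K1) * Ts K2 w (x * u) f2 (un B ∩ K2)) := by
    refine le_trans (le_of_eq ?_) q1
    have : (fun B : Finset (Finset S) =>
        if A1 (un B ∩ K1) ∧ A2 (un B ∩ K2) then (1 : ℝ) else 0) =
        fun B => f1 (un B ∩ K1) * f2 (un B ∩ K2) := by
      funext B
      show _ = (if A1 (un B ∩ K1) then (1 : ℝ) else 0) * (if A2 (un B ∩ K2) then 1 else 0)
      by_cases c1 : A1 (un B ∩ K1)
      · by_cases c2 : A2 (un B ∩ K2)
        · rw [if_pos ⟨c1, c2⟩, if_pos c1, if_pos c2, one_mul]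
        · rw [if_neg (fun h => c2 h.2), if_neg c2, mul_zero]
      · rw [if_neg (fun h => c1 h.1), if_neg c1, zero_mul]
    rw [this]
  have hb2p : 0 < (1 - η) ^ 2 := by positivity
  have fin : (1 - η) ^ 2 * BE (ne (K1 ∪ K2)) (fun T => u * w T)
      (fun B => if A1 (un B ∩ K1) ∧ A2 (un B ∩ K2) then 1 else 0) ≤
      (1 - η) ^ 2 * (10 * Real.exp (-(3 * L / 2))) := by
    refine (mul_le_mul_of_nonneg_left q2 hb2p.le).trans (low.trans (m3.trans ?_))
    have e1 : Real.exp (L / 20) * ((3 * ((1 - η) * e)) * (3 * ((1 - η) * e)) + η) =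
        9 * ((1 - η) ^ 2 * (Real.exp (L / 20) * (e * e))) + Real.exp (L / 20) * η := by ring
    rw [e1]
    have e2 := mul_le_mul_of_nonneg_left m4 hb2p.le
    linarith
  exact le_of_mul_le_mul_left fin hb2p

end PLS
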