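import Pool.Agent.PLS.StE

/-!
# PLS, E8: locality and covering
-/

set_option autoImplicit false
set_option linter.unusedVariables false

open Finset Filter Topology MeasureTheory RInt

noncomputable section

namespace PLS

namespace E8x

variable {d : ℕ}

theorem vadj_mono {V W : Set (Fin d → ℤ)} (h : V ⊆ W) {x y : Fin d → ℤ} (hxy : VAdj V x y) :
    VAdj W x y := ⟨h hxy.1, h hxy.2.1, hxy.2.2⟩

theorem jn_mono {V W : Set (Fin d → ℤ)} (h : V ⊆ W) {x y : Fin d → ℤ} (hxy : Jn V x y) :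
    Jn W x y := ⟨h hxy.1, Relation.ReflTransGen.mono (fun a b hab => vadj_mono h hab) _ _ hxy.2⟩

theorem vadj_symm {V : Set (Fin d → ℤ)} {x y : Fin d → ℤ} (h : VAdj V x y) : VAdj V y x := by
  obtain ⟨hx, hy, i, hi⟩ := h
  refine ⟨hy, hx, (i.1, !i.2), ?_⟩
  rw [hi, uvec_neg]
  abel

theorem jn_mem {V : Set (Fin d → ℤ)} {x y : Fin d → ℤ} (h : Jn V x y) : y ∈ V := by
  obtain ⟨hx, h⟩ := h
  induction h with
  | refl => exact hx
  | tail _ hbc _ => exact hbc.2.1

theorem jn_symm {V : Set (Fin d → ℤ)} {x y : Fin d → ℤ} (h : Jn V x y) : Jn V y x := by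
  refine ⟨jn_mem h, ?_⟩
  obtain ⟨hx, h⟩ := h
  induction h with
  | refl => exact Relation.ReflTransGen.refl
  | tail _ hbc ih => exact Relation.ReflTransGen.head (vadj_symm hbc) ih

theorem exit {V : Set (Fin d → ℤ)} {z : Fin d → ℤ} {m : ℕ} {x y : Fin d → ℤ} (h : Jn V x y)
    (hx : ∀ i, |x i - z i| ≤ m) (hy : ∃ i, (m : ℤ) ≤ |y i - z i|) :
    ∃ y' : Fin d → ℤ, (∀ i, |y' i - z i| ≤ m) ∧ (∃ i, |y' i - z i| = m) ∧
      Jn (V ∩ {v | ∀ i, |v i - z i| ≤ m}) x y' ∧ Jn V y' y := by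
  obtain ⟨hxV, hr⟩ := h
  induction hr using Relation.ReflTransGen.head_induction_on with
  | refl =>
    obtain ⟨i, hi⟩ := hy
    exact ⟨y, hx, ⟨i, le_antisymm (hx i) hi⟩, ⟨⟨hxV, hx⟩, Relation.ReflTransGen.refl⟩,
      ⟨hxV, Relation.ReflTransGen.refl⟩⟩
  | @head a c hac hcy ih =>
    by_cases he : ∃ i, |a i - z i| = m
    · exact ⟨a, hx, he, ⟨⟨hxV, hx⟩, Relation.ReflTransGen.refl⟩,
        ⟨hxV, Relation.ReflTransGen.head hac hcy⟩⟩
    · push Not at he
      obtain ⟨haV, hcV, i, hi⟩ := hac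
      have hc : ∀ j, |c j - z j| ≤ m := by
        intro j
        have h1 := hx j
        have h2 := he j
        have h3 := uvec_le i j
        have h4 : c j - z j = (a j - z j) + uvec i j := by
          rw [hi, Pi.add_apply]
          ring
        have h5 := abs_add_le (a j - z j) (uvec i j)
        rw [← h4] at h5
        omega
      obtain ⟨y', h1, h2, h3, h4⟩ := ih hc hcV
      exact ⟨y', h1, h2, ⟨⟨hxV, hx⟩, Relation.ReflTransGen.head ⟨⟨haV, hx⟩, ⟨hcV, hc⟩, i, hi⟩ h3.2⟩,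
        h4⟩

theorem loc (z : Fin d → ℤ) (n : ℕ) (I J : Set (Fin d → ℤ))
    (h : ∀ x ∈ (box d (3 * n)).image fun x => x + z, x ∈ I ↔ x ∈ J) (hI : I ∈ Xc d z n) :
    J ∈ Xc d z n := by
  obtain ⟨x, y, hx, hy, hj⟩ := hI
  have hx3 : ∀ i, |x i - z i| ≤ ((3 * n : ℕ) : ℤ) := by
    intro i
    have := hx i
    push_cast
    omega
  have hy3 : ∃ i, ((3 * n : ℕ) : ℤ) ≤ |y i - z i| := by
    obtain ⟨i, hi⟩ := hy
    refine ⟨i, ?_⟩
    push_cast
    exact hi
  obtain ⟨y', h1, ⟨i, h2⟩, h3, -⟩ := exit hj hx3 hy3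
  refine ⟨x, y', hx, ⟨i, ?_⟩, jn_mono ?_ h3⟩
  · rw [h2]
    push_cast
    exact le_rfl
  · rintro v ⟨hv, hvb⟩ hvJ
    apply hv
    refine (h v ?_).2 hvJ
    rw [mem_image]
    refine ⟨v - z, ?_, by simp⟩
    rw [mem_box]
    intro i
    rw [Pi.sub_apply]
    exact hvb i

theorem dn (z : Fin d → ℤ) (n : ℕ) : Dn (Xc d z n) := by
  rintro I ⟨x, y, hx, hy, hj⟩ J hJ
  exact ⟨x, y, hx, hy, jn_mono (Set.compl_subset_compl.2 hJ) hj⟩

theorem fl {n : ℕ} (hn : 1 ≤ n) (t : ℤ) : (n : ℤ) * (t / n) ≤ t ∧ t < (n : ℤ) * (t / n) + n := by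
  have h0 : (0 : ℤ) < n := by exact_mod_cast hn
  have h1 := Int.emod_add_mul_ediv t n
  have h2 := Int.emod_nonneg t h0.ne'
  have h3 := Int.emod_lt_of_pos t h0
  constructor <;> linarith

theorem fb {n : ℕ} (hn : 1 ≤ n) (Q : ℕ) (t : ℤ) (ht : |t| ≤ ((Q * n : ℕ) : ℤ)) :
    |t / n| ≤ (Q : ℤ) := by
  have h0 : (0 : ℤ) < n := by exact_mod_cast hn
  rw [abs_le] at ht
  push_cast at ht
  rw [abs_le]
  constructor
  · apply (Int.le_ediv_iff_mul_le h0).2
    linarith [ht.1]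
  · have h1 := Int.ediv_le_ediv h0 ht.2
    rwa [Int.mul_ediv_cancel _ h0.ne'] at h1

end E8x

open E8x in
theorem E8 : St_E8 := by
  intro d hd
  refine ⟨fun z n => ⟨fun I J h => ⟨loc z n I J h, loc z n J I fun x hx => (h x hx).symm⟩,
    dn z n⟩, ?_, ?_, ?_⟩
  · rintro n m I hn hm ⟨x, y, hx, ⟨i, hi⟩, hj⟩
    have h0 : (0 : ℤ) < n := by exact_mod_cast hn
    refine ⟨fun k => x k / n, ?_, x, y, ?_, ⟨i, ?_⟩, hj⟩
    · rw [mem_box]
      intro k
      have h1 := hx k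
      rw [Pi.zero_apply, sub_zero] at h1
      have h2 : m ≤ (m / n + 1) * n := by
        have := Nat.lt_div_mul_add (a := m) (b := n) (by omega)
        nlinarith
      have h3 : ((m : ℕ) : ℤ) ≤ (((m / n + 1) * n : ℕ) : ℤ) := by exact_mod_cast h2
      exact fb hn (m / n + 1) (x k) (h1.trans h3)
    · intro k
      obtain ⟨h1, h2⟩ := fl hn (x k)
      rw [abs_le]
      constructor <;> linarith
    · obtain ⟨h1, h2⟩ := fl hn (x i)
      have h3 := hx i
      have hm' : (2 : ℤ) * n ≤ m := by exact_mod_cast hm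
      rw [Pi.zero_apply, sub_zero] at h3 hi
      have h4 : |y i| ≤ |y i - n * (x i / n)| + |(n : ℤ) * (x i / n)| := by
        have := abs_add_le (y i - n * (x i / n)) ((n : ℤ) * (x i / n))
        rwa [sub_add_cancel] at this
      have h5 : |(n : ℤ) * (x i / n)| ≤ |x i| + n := by
        have h6 := abs_add_le ((n : ℤ) * (x i / n) - x i) (x i)
        rw [sub_add_cancel] at h6
        have h7 : |(n : ℤ) * (x i / n) - x i| ≤ n := by
          rw [abs_le]
          constructor <;> linarith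
        linarith
      show (3 * n : ℤ) ≤ |y i - n * (x i / n)|
      linarith
  · rintro n Q I hn hQ ⟨x, y, hx, hy, hj⟩
    have h0 : (0 : ℤ) < n := by exact_mod_cast hn
    have hQ' : (2 : ℤ) ≤ Q := by exact_mod_cast hQ
    have hQn : 2 * (n : ℤ) ≤ Q * n := by nlinarith
    have hx3 : ∀ i, |x i - (0 : Fin d → ℤ) i| ≤ ((3 * (Q * n) : ℕ) : ℤ) := by
      intro i
      have := hx i
      push_cast at this ⊢
      linarith
    have hy3 : ∃ i, ((3 * (Q * n) : ℕ) : ℤ) ≤ |y i - (0 : Fin d → ℤ) i| := by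
      obtain ⟨i, hi⟩ := hy
      refine ⟨i, ?_⟩
      push_cast at hi ⊢
      exact hi
    obtain ⟨y', h1, ⟨k, h2⟩, h3, -⟩ := exit hj hx3 hy3
    have hj' : Jn Iᶜ x y' := jn_mono Set.inter_subset_left h3
    have hxk : |x k| ≤ Q * n := by
      have := hx k
      rw [Pi.zero_apply, sub_zero] at this
      push_cast at this
      exact this
    have hyk : |y' k| = 3 * (Q * n) := by
      rw [Pi.zero_apply, sub_zero] at h2
      push_cast at h2
      exact h2
    have hxf := fl hn (x k)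
    have hyf := fl hn (y' k)
    have hix : |x k / n| ≤ (Q : ℤ) := fb hn Q (x k) (by push_cast; exact hxk)
    have hix' : |(n : ℤ) * (x k / n)| ≤ Q * n := by
      rw [abs_mul, abs_of_pos h0, mul_comm]
      exact mul_le_mul_of_nonneg_right hix h0.le
    have hyd : |(n : ℤ) * (y' k / n) - y' k| ≤ n := by
      rw [abs_le]
      constructor <;> linarith [hyf.1, hyf.2]
    have hjy : 3 * (Q * n) - n ≤ |(n : ℤ) * (y' k / n)| := by
      have h6 := abs_add_le (y' k - (n : ℤ) * (y' k / n)) ((n : ℤ) * (y' k / n))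
      rw [sub_add_cancel, hyk, abs_sub_comm] at h6
      linarith
    refine ⟨fun k => x k / n, ?_, fun k => y' k / n, ?_, ⟨x, y', ?_, ⟨k, ?_⟩, hj'⟩,
      ⟨y', x, ?_, ⟨k, ?_⟩, jn_symm hj'⟩, k, ?_⟩
    · rw [mem_box]
      intro i
      have := hx i
      rw [Pi.zero_apply, sub_zero] at this
      exact fb hn Q (x i) this
    · rw [mem_box]
      intro i
      have := h1 i
      rw [Pi.zero_apply, sub_zero, ← mul_assoc] at this
      exact fb hn (3 * Q) (y' i) this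
    · intro i
      obtain ⟨h4, h5⟩ := fl hn (x i)
      rw [abs_le]
      constructor <;> linarith
    · show (3 * n : ℤ) ≤ |y' k - n * (x k / n)|
      have h6 := abs_add_le (y' k - n * (x k / n)) ((n : ℤ) * (x k / n))
      rw [sub_add_cancel, hyk] at h6
      linarith
    · intro i
      obtain ⟨h4, h5⟩ := fl hn (y' i)
      rw [abs_le]
      constructor <;> linarith
    · show (3 * n : ℤ) ≤ |x k - n * (y' k / n)|
      have h6 := abs_add_le ((n : ℤ) * (y' k / n) - x k) (x k)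
      rw [sub_add_cancel, abs_sub_comm] at h6
      linarith
    · show ((2 * Q - 1) * n : ℤ) ≤ |(n * (x k / n) : ℤ) - n * (y' k / n)|
      have h6 := abs_add_le ((n : ℤ) * (y' k / n) - n * (x k / n)) ((n : ℤ) * (x k / n))
      rw [sub_add_cancel, abs_sub_comm] at h6
      linarith
  · rintro n I ⟨x, y, hx, ⟨i, hi⟩, hj⟩
    have hy1 : ∃ i, ((n : ℕ) : ℤ) ≤ |y i - (0 : Fin d → ℤ) i| := ⟨i, by omega⟩
    obtain ⟨x', h1, ⟨k, h2⟩, -, h4⟩ := exit hj hx hy1
    refine ⟨x', ?_, ⟨k, ?_⟩, y, ⟨i, ?_⟩, h4⟩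
    · rw [mem_box]
      intro i
      have := h1 i
      rwa [Pi.zero_apply, sub_zero] at this
    · rwa [Pi.zero_apply, sub_zero] at h2
    · have h5 := h1 i
      rw [Pi.zero_apply, sub_zero] at h5 hi
      have h6 := abs_add_le (y i - x' i) (x' i)
      rw [sub_add_cancel] at h6
      push_cast
      linarith

end PLS
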