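import Pool.Agent.PLS.StE

/-!
# PLS, E9: translation invariance of the laws on `ℤ^d`
-/

set_option autoImplicit false
set_option linter.unusedVariables false

open Finset Filter Topology MeasureTheory RInt

noncomputable section

namespace PLS

namespace E9x

variable {d : ℕ}

/-- the void events -/
def VV (K : Finset (Fin d → ℤ)) : Set (Set (Fin d → ℤ)) := {I | ∀ x ∈ K, x ∉ I}

theorem local_VV (K : Finset (Fin d → ℤ)) : Local K (VV K) := by
  intro I J hIJ
  constructor
  · intro h x hx hxJ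
    exact h x hx ((hIJ x hx).2 hxJ)
  · intro h x hx hxI
    exact h x hx ((hIJ x hx).1 hxI)

theorem meas_VV (K : Finset (Fin d → ℤ)) : MeasurableSet (VV K) :=
  local_measurable K _ (local_VV K)

open Classical in
theorem inter_VV (K K' : Finset (Fin d → ℤ)) : VV K ∩ VV K' = VV (K ∪ K') := by
  ext I
  constructor
  · rintro ⟨h1, h2⟩ x hx
    rcases mem_union.mp hx with hx | hx
    · exact h1 x hx
    · exact h2 x hx
  · intro h
    exact ⟨fun x hx => h x (mem_union_left _ hx), fun x hx => h x (mem_union_right _ hx)⟩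

theorem pi_VV : IsPiSystem (Set.range (VV (d := d))) := by
  classical
  rintro _ ⟨K, rfl⟩ _ ⟨K', rfl⟩ _
  exact ⟨K ∪ K', (inter_VV K K').symm⟩

theorem gen_VV : (Set.instMeasurableSpace : MeasurableSpace (Set (Fin d → ℤ))) =
    MeasurableSpace.generateFrom (Set.range VV) := by
  apply le_antisymm
  · have h : @Measurable (Set (Fin d → ℤ)) (Set (Fin d → ℤ))
        (MeasurableSpace.generateFrom (Set.range VV)) Set.instMeasurableSpace id := by
      refine (@measurable_set_iff _ _ (MeasurableSpace.generateFrom (Set.range VV)) id).2 ?_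
      intro a
      refine @measurable_to_prop _ (MeasurableSpace.generateFrom (Set.range VV)) _ ?_
      have e : (fun x : Set (Fin d → ℤ) => a ∈ id x) ⁻¹' {True} = (VV {a})ᶜ := by
        ext I
        simp [VV]
      rw [e]
      exact @MeasurableSet.compl _ _ (MeasurableSpace.generateFrom (Set.range VV))
        (MeasurableSpace.measurableSet_generateFrom ⟨{a}, rfl⟩)
    have h2 := h.comap_le
    rwa [MeasurableSpace.comap_id] at h2
  · apply MeasurableSpace.generateFrom_le
    rintro _ ⟨K, rfl⟩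
    exact meas_VV K

theorem ext_VV (ν ν' : Measure (Set (Fin d → ℤ))) [IsProbabilityMeasure ν]
    [IsProbabilityMeasure ν'] (h : ∀ K, ν (VV K) = ν' (VV K)) : ν = ν' := by
  refine ext_of_generate_finite (Set.range VV) gen_VV pi_VV ?_ (by simp)
  rintro _ ⟨K, rfl⟩
  exact h K

theorem meas_shift (z : Fin d → ℤ) :
    Measurable (fun I : Set (Fin d → ℤ) => {x : Fin d → ℤ | x + z ∈ I}) := by
  rw [measurable_set_iff]
  intro a
  exact measurable_set_mem (a + z)

theorem shift (h8 : St_G8) (hd : 3 ≤ d) (u : ℝ) (ν : Measure (Set (Fin d → ℤ)))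
    (h : IsInterlacement u ν) (z : Fin d → ℤ) :
    ν.map (fun I => {x : Fin d → ℤ | x + z ∈ I}) = ν := by
  classical
  have hp := h.prob
  have hp' : IsProbabilityMeasure (ν.map (fun I => {x : Fin d → ℤ | x + z ∈ I})) :=
    Measure.isProbabilityMeasure_map (meas_shift z).aemeasurable
  apply ext_VV
  intro K
  rw [Measure.map_apply (meas_shift z) (meas_VV K)]
  have e : (fun I : Set (Fin d → ℤ) => {x : Fin d → ℤ | x + z ∈ I}) ⁻¹' (VV K) =
      VV (K.image fun x => x + z) := by
    ext I
    constructor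
    · intro hI x hx
      obtain ⟨y, hy, rfl⟩ := mem_image.mp hx
      exact hI y hy
    · intro hI x hx
      exact hI (x + z) (mem_image_of_mem _ hx)
  have v1 := h.void (K.image fun x => x + z)
  have v2 := h.void K
  have hc : cap (K.image fun x => x + z) = cap K := by
    have := (h8 d hd).1 (Equiv.addRight z) (Equiv.refl _) (fun x i => by
      show x + uvec i + z = x + z + uvec i
      rw [add_right_comm]) K
    rw [← this]
    rfl
  rw [e]
  unfold VV
  rw [v1, v2, hc]

theorem jn_shift (z : Fin d → ℤ) {I : Set (Fin d → ℤ)} {x y : Fin d → ℤ} :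
    Jn ({w : Fin d → ℤ | w + z ∈ I}ᶜ) x y ↔ Jn Iᶜ (x + z) (y + z) := by
  constructor
  · rintro ⟨h1, h2⟩
    refine ⟨h1, ?_⟩
    refine Relation.ReflTransGen.lift (fun w => w + z) ?_ _ _ h2
    rintro a b ⟨ha, hb, i, hi⟩
    exact ⟨ha, hb, i, by rw [hi, add_right_comm]⟩
  · rintro ⟨h1, h2⟩
    refine ⟨h1, ?_⟩
    have h3 := Relation.ReflTransGen.lift (r := VAdj Iᶜ)
      (p := VAdj ({w : Fin d → ℤ | w + z ∈ I}ᶜ)) (fun w => w - z) ?_ _ _ h2
    · have e1 : x + z - z = x := add_sub_cancel_right x z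
      have e2 : y + z - z = y := add_sub_cancel_right y z
      have h4 : Relation.ReflTransGen (VAdj ({w : Fin d → ℤ | w + z ∈ I}ᶜ)) (x + z - z)
          (y + z - z) := h3
      rw [e1, e2] at h4
      exact h4
    · rintro a b ⟨ha, hb, i, hi⟩
      refine ⟨?_, ?_, i, ?_⟩
      · show ¬ (a - z + z ∈ I)
        rw [sub_add_cancel]
        exact ha
      · show ¬ (b - z + z ∈ I)
        rw [sub_add_cancel]
        exact hb
      · show b - z = a - z + uvec i
        rw [hi]
        abel

theorem Xc_pre (z : Fin d → ℤ) (n : ℕ) :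
    (fun I : Set (Fin d → ℤ) => {x : Fin d → ℤ | x + z ∈ I}) ⁻¹' (Xc d 0 n) = Xc d z n := by
  ext I
  constructor
  · rintro ⟨x, y, hx, ⟨i, hi⟩, h⟩
    refine ⟨x + z, y + z, fun i => ?_, ⟨i, ?_⟩, (jn_shift z).1 h⟩
    · have := hx i
      simpa using this
    · simpa using hi
  · rintro ⟨x, y, hx, ⟨i, hi⟩, h⟩
    refine ⟨x - z, y - z, fun i => ?_, ⟨i, ?_⟩, ?_⟩
    · have := hx i
      simpa using this
    · simpa using hi
    · refine (jn_shift z).2 ?_
      rw [sub_add_cancel, sub_add_cancel]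
      exact h

theorem Ax_pre (z : Fin d → ℤ) (m : ℕ) :
    (fun I : Set (Fin d → ℤ) => {x : Fin d → ℤ | x + z ∈ I}) ⁻¹' (Arm m) = Ax d z m := by
  ext I
  constructor
  · rintro ⟨y, hy, i, hi⟩
    have h : Jn ({w : Fin d → ℤ | w + z ∈ I}ᶜ) 0 y := hy
    rw [jn_shift z, zero_add] at h
    refine ⟨y + z, ⟨i, ?_⟩, h⟩
    simpa using hi
  · rintro ⟨y, ⟨i, hi⟩, h⟩
    refine ⟨y - z, ?_, i, ?_⟩
    · show Jn ({w : Fin d → ℤ | w + z ∈ I}ᶜ) 0 (y - z)
      rw [jn_shift z, zero_add, sub_add_cancel]
      exact h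
    · simpa using hi

end E9x

open E9x in
theorem E9 (h8 : St_G8) (e8 : St_E8) : St_E9 := by
  intro d hd u ν h z
  have hs := shift h8 hd u ν h z
  have hp := h.prob
  refine ⟨hs, fun n => ?_, fun m => ?_⟩
  · have hm : MeasurableSet (Xc d 0 n) := local_measurable _ _ ((e8 d (by omega)).1 0 n).1
    rw [← Xc_pre z n, ← map_measureReal_apply (meas_shift z) hm, hs]
  · have hm : MeasurableSet (Arm (d := d) m) := local_measurable _ _ (arm_local (by omega) m)
    rw [← Ax_pre z m, ← map_measureReal_apply (meas_shift z) hm, hs]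

end PLS
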