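import Pool.Agent.PLS.F2
import Pool.Agent.PLS.E1
import Pool.Agent.PLS.E2
import Pool.Agent.PLS.E3
import Pool.Agent.PLS.E4
import Pool.Agent.PLS.E5
import Pool.Agent.PLS.E6
import Pool.Agent.PLS.E7
import Pool.Agent.PLS.E8
import Pool.Agent.PLS.E9
import Pool.Agent.PLS.E10
import Pool.Agent.PLS.E11
import Pool.Agent.PLS.E13

/-!
# PLS, E12: assembly of part E
-/

set_option autoImplicit false
set_option linter.unusedVariables false

open Finset Filter Topology MeasureTheory RInt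

noncomputable section

namespace PLS

theorem pE1 : St_E1 := E1 D1
theorem pE2 : St_E2 := E2 D1 pE1
theorem pE3 : St_E3 := E3 D1 D2 pD4
theorem pE4 : St_E4 := E4 D1 D2
theorem pE6 : St_E6 := E6 (D7 D1) pE2 pE3 pE4 E5
theorem pE7 : St_E7 := E7 pG1 G2 pG4 (G5 G3) G6 (G7 G2 G3) pG8 pE6 pD10
theorem pE9 : St_E9 := E9 pG8 E8
theorem pE10 : St_E10 := E10 pE7 E8 pE9
theorem pE11 : St_E11 := E11 E8 pE9 pE10

/-- decoupling without sprinkling, increasing events, full range -/
theorem pE13u : DecU (fun _ A => Up A) :=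
  E13u pG1 G2 pG4 (G5 G3) G6 (G7 G2 G3) pG8 pD9 pD10

/-- decoupling without sprinkling, decreasing events, full range -/
theorem pE13d : DecU (fun _ A => Dn A) :=
  E13d pG1 G2 pG4 (G5 G3) G6 (G7 G2 G3) pG8 pE6 pD10

end PLS
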