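import Pool.Agent.PLS.StF

/-!
# PLS, F1: the laws of a family `PF0` are positively associated, invariant and ergodic
-/

set_option autoImplicit false
set_option linter.unusedVariables false

open Finset Filter Topology MeasureTheory RInt

noncomputable section

namespace PLS

theorem F1 (h10 : St_D10) (h7 : St_P7) : St_F1 := by
  intro c μ h u hu
  obtain ⟨h1, h2, h3, h4⟩ := h7 c μ h u hu
  have h5 := (h10 Pt c μ h.void h.c0).2
  exact { prob := h.void.prob u hu
          fkg := fun K A B hA hB hA' hB' => h5 u K A B hu hA hB hA' hB'
          shift := h1
          refl := h2
          swap := h3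
          erg := h4 }

end PLS
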