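import Pool.Agent.PLS.StG

/-!
# PLS [G0]: a one variable inequality
-/

set_option autoImplicit false

open Set

noncomputable section

namespace PLS

namespace G0x

/-- from a nonnegative derivative to the sign of the function -/
theorem step1 {f f' : ℝ → ℝ} (h0 : f 0 = 0)
    (hd : ∀ y ∈ Icc (-(1 / 2) : ℝ) (1 / 2), HasDerivAt f (f' y) y)
    (h1 : ∀ y ∈ Icc (-(1 / 2) : ℝ) (1 / 2), 0 ≤ f' y) :
    ∀ y ∈ Icc (-(1 / 2) : ℝ) (1 / 2), (0 ≤ y → 0 ≤ f y) ∧ (y ≤ 0 → f y ≤ 0) := by
  have hm : MonotoneOn f (Icc (-(1 / 2) : ℝ) (1 / 2)) := by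
    refine monotoneOn_of_deriv_nonneg (convex_Icc _ _)
      (fun y hy => (hd y hy).continuousAt.continuousWithinAt) ?_ ?_
    · intro y hy
      exact (hd y (interior_subset hy)).differentiableAt.differentiableWithinAt
    · intro y hy
      rw [(hd y (interior_subset hy)).deriv]
      exact h1 y (interior_subset hy)
  have hz : (0 : ℝ) ∈ Icc (-(1 / 2) : ℝ) (1 / 2) := by constructor <;> norm_num
  intro y hy
  constructor
  · intro h
    have := hm hz hy h
    rwa [h0] at this
  · intro h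
    have := hm hy hz h
    rwa [h0] at this

/-- from the sign of the derivative to a nonnegative function -/
theorem step2 {f f' : ℝ → ℝ} (h0 : f 0 = 0)
    (hd : ∀ y ∈ Icc (-(1 / 2) : ℝ) (1 / 2), HasDerivAt f (f' y) y)
    (h1 : ∀ y ∈ Icc (-(1 / 2) : ℝ) (1 / 2), (0 ≤ y → 0 ≤ f' y) ∧ (y ≤ 0 → f' y ≤ 0)) :
    ∀ y ∈ Icc (-(1 / 2) : ℝ) (1 / 2), 0 ≤ f y := by
  have hs1 : Icc (0 : ℝ) (1 / 2) ⊆ Icc (-(1 / 2) : ℝ) (1 / 2) :=
    Icc_subset_Icc (by norm_num) le_rfl
  have hs2 : Icc (-(1 / 2) : ℝ) 0 ⊆ Icc (-(1 / 2) : ℝ) (1 / 2) :=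
    Icc_subset_Icc le_rfl (by norm_num)
  have hm : MonotoneOn f (Icc (0 : ℝ) (1 / 2)) := by
    refine monotoneOn_of_deriv_nonneg (convex_Icc _ _)
      (fun y hy => (hd y (hs1 hy)).continuousAt.continuousWithinAt) ?_ ?_
    · intro y hy
      exact (hd y (hs1 (interior_subset hy))).differentiableAt.differentiableWithinAt
    · intro y hy
      rw [(hd y (hs1 (interior_subset hy))).deriv]
      exact (h1 y (hs1 (interior_subset hy))).1 (interior_subset hy).1
  have ha : AntitoneOn f (Icc (-(1 / 2) : ℝ) 0) := by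
    refine antitoneOn_of_deriv_nonpos (convex_Icc _ _)
      (fun y hy => (hd y (hs2 hy)).continuousAt.continuousWithinAt) ?_ ?_
    · intro y hy
      exact (hd y (hs2 (interior_subset hy))).differentiableAt.differentiableWithinAt
    · intro y hy
      rw [(hd y (hs2 (interior_subset hy))).deriv]
      exact (h1 y (hs2 (interior_subset hy))).2 (interior_subset hy).2
  intro y hy
  rcases le_total 0 y with h | h
  · have := hm (left_mem_Icc.2 (by norm_num)) ⟨h, hy.2⟩ h
    rwa [h0] at this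
  · have := ha ⟨hy.1, h⟩ (right_mem_Icc.2 (by norm_num)) h
    rwa [h0] at this

theorem deriv_rpow (p y : ℝ) (hy : -(1 / 2) ≤ y) :
    HasDerivAt (fun y : ℝ => (1 + y) ^ p) (p * (1 + y) ^ (p - 1)) y := by
  have h1 : HasDerivAt (fun y : ℝ => 1 + y) 1 y := (hasDerivAt_id y).const_add 1
  have h2 := h1.rpow_const (p := p) (Or.inl (by linarith : (1 : ℝ) + y ≠ 0))
  convert h2 using 1
  ring

end G0x

open G0x in
theorem G0 : St_G0 := by
  intro b hb
  let C : ℝ := b * (b + 1) * (b + 2) * (b + 3) * 2 ^ (b + 4) / 24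
  have hCdef : C = b * (b + 1) * (b + 2) * (b + 3) * 2 ^ (b + 4) / 24 := rfl
  have h2 : (0 : ℝ) < 2 ^ (b + 4) := Real.rpow_pos_of_pos (by norm_num) _
  have hC : 0 < C := by rw [hCdef]; positivity
  refine ⟨C, hC, fun y hy => ?_⟩
  have hy' : y ∈ Icc (-(1 / 2) : ℝ) (1 / 2) := ⟨(abs_le.1 hy).1, (abs_le.1 hy).2⟩
  -- the fourth derivative
  have d4 : ∀ y ∈ Icc (-(1 / 2) : ℝ) (1 / 2),
      0 ≤ 24 * C - b * (b + 1) * (b + 2) * (b + 3) * (1 + y) ^ (-b - 4) := by
    intro y hy
    have h3 : (1 + y) ^ (-b - 4) ≤ (1 / 2 : ℝ) ^ (-b - 4) :=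
      Real.rpow_le_rpow_of_nonpos (by norm_num) (by linarith [hy.1]) (by linarith)
    have h4 : (1 / 2 : ℝ) ^ (-b - 4) = 2 ^ (b + 4) := by
      rw [one_div, Real.inv_rpow (by norm_num), ← Real.rpow_neg (by norm_num)]
      congr 1
      ring
    rw [h4] at h3
    have h5 : 0 ≤ b * (b + 1) * (b + 2) * (b + 3) := by positivity
    have h6 := mul_le_mul_of_nonneg_left h3 h5
    rw [hCdef]
    linarith
  have s3 := step1 (f := fun y => -(b * (b + 1) * (b + 2)) + 24 * C * y +
      b * (b + 1) * (b + 2) * (1 + y) ^ (-b - 3))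
    (f' := fun y => 24 * C - b * (b + 1) * (b + 2) * (b + 3) * (1 + y) ^ (-b - 4))
    (by simp) (by
      intro y hy
      have h3 := (deriv_rpow (-b - 3) y hy.1).const_mul (b * (b + 1) * (b + 2))
      have h4 : HasDerivAt (fun y : ℝ => -(b * (b + 1) * (b + 2)) + 24 * C * y) (24 * C) y := by
        simpa using ((hasDerivAt_id y).const_mul (24 * C)).const_add (-(b * (b + 1) * (b + 2)))
      refine (h4.add h3).congr_deriv ?_
      rw [show -b - 3 - 1 = -b - 4 by ring]
      ring) d4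
  have s2 := step2 (f := fun y => b * (b + 1) - b * (b + 1) * (b + 2) * y + 12 * C * y ^ 2 -
      b * (b + 1) * (1 + y) ^ (-b - 2))
    (f' := fun y => -(b * (b + 1) * (b + 2)) + 24 * C * y +
      b * (b + 1) * (b + 2) * (1 + y) ^ (-b - 3))
    (by simp) (by
      intro y hy
      have h3 := (deriv_rpow (-b - 2) y hy.1).const_mul (b * (b + 1))
      have h4 : HasDerivAt (fun y : ℝ => b * (b + 1) - b * (b + 1) * (b + 2) * y + 12 * C * y ^ 2)
          (-(b * (b + 1) * (b + 2)) + 24 * C * y) y := by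
        have h5 := ((hasDerivAt_id y).const_mul (b * (b + 1) * (b + 2))).const_sub (b * (b + 1))
        have h6 := ((hasDerivAt_id y).pow 2).const_mul (12 * C)
        refine (h5.add h6).congr_deriv ?_
        simp
        ring
      refine (h4.sub h3).congr_deriv ?_
      rw [show -b - 2 - 1 = -b - 3 by ring]
      ring) s3
  have s1 := step1 (f := fun y => -b + b * (b + 1) * y - b * (b + 1) * (b + 2) / 2 * y ^ 2 +
      4 * C * y ^ 3 + b * (1 + y) ^ (-b - 1))
    (f' := fun y => b * (b + 1) - b * (b + 1) * (b + 2) * y + 12 * C * y ^ 2 -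
      b * (b + 1) * (1 + y) ^ (-b - 2))
    (by simp) (by
      intro y hy
      have h3 := (deriv_rpow (-b - 1) y hy.1).const_mul b
      have h4 : HasDerivAt (fun y : ℝ => -b + b * (b + 1) * y -
          b * (b + 1) * (b + 2) / 2 * y ^ 2 + 4 * C * y ^ 3)
          (b * (b + 1) - b * (b + 1) * (b + 2) * y + 12 * C * y ^ 2) y := by
        have h5 := ((hasDerivAt_id y).const_mul (b * (b + 1))).const_add (-b)
        have h6 := ((hasDerivAt_id y).pow 2).const_mul (b * (b + 1) * (b + 2) / 2)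
        have h7 := ((hasDerivAt_id y).pow 3).const_mul (4 * C)
        refine ((h5.sub h6).add h7).congr_deriv ?_
        simp
        ring
      refine (h4.add h3).congr_deriv ?_
      rw [show -b - 1 - 1 = -b - 2 by ring]
      ring) s2
  have s0 := step2 (f := fun y => 1 - b * y + b * (b + 1) / 2 * y ^ 2 -
      b * (b + 1) * (b + 2) / 6 * y ^ 3 + C * y ^ 4 - (1 + y) ^ (-b))
    (f' := fun y => -b + b * (b + 1) * y - b * (b + 1) * (b + 2) / 2 * y ^ 2 +
      4 * C * y ^ 3 + b * (1 + y) ^ (-b - 1))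
    (by simp) (by
      intro y hy
      have h3 := deriv_rpow (-b) y hy.1
      have h4 : HasDerivAt (fun y : ℝ => 1 - b * y + b * (b + 1) / 2 * y ^ 2 -
          b * (b + 1) * (b + 2) / 6 * y ^ 3 + C * y ^ 4)
          (-b + b * (b + 1) * y - b * (b + 1) * (b + 2) / 2 * y ^ 2 + 4 * C * y ^ 3) y := by
        have h5 := ((hasDerivAt_id y).const_mul b).const_sub 1
        have h6 := ((hasDerivAt_id y).pow 2).const_mul (b * (b + 1) / 2)
        have h7 := ((hasDerivAt_id y).pow 3).const_mul (b * (b + 1) * (b + 2) / 6)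
        have h8 := ((hasDerivAt_id y).pow 4).const_mul C
        refine (((h5.add h6).sub h7).add h8).congr_deriv ?_
        simp
        ring
      refine (h4.sub h3).congr_deriv ?_
      ring) s1
  have h := s0 y hy'
  linarith

end PLS
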