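import Pool.Agent.PLS.StG

/-!
# PLS [G1]: an explicit superharmonic function of order `‖x‖^(2-d)`
-/

set_option autoImplicit false
set_option linter.unusedVariables false

open Finset Filter Topology RInt

noncomputable section

namespace PLS

namespace G1x

variable {d : ℕ}

/-- the square of the norm -/
def Q (x : Fin d → ℤ) : ℝ := ∑ i, (x i : ℝ) ^ 2

theorem Q_nonneg (x : Fin d → ℤ) : 0 ≤ Q x := Finset.sum_nonneg fun i _ => sq_nonneg _

theorem le_Q (x : Fin d → ℤ) (i : Fin d) : (x i : ℝ) ^ 2 ≤ Q x :=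
  Finset.single_le_sum (f := fun i => (x i : ℝ) ^ 2) (fun i _ => sq_nonneg _) (Finset.mem_univ i)

theorem sum_four (x : Fin d → ℤ) : ∑ i, (x i : ℝ) ^ 4 ≤ Q x ^ 2 := by
  calc ∑ i, (x i : ℝ) ^ 4 ≤ ∑ i, (x i : ℝ) ^ 2 * Q x := by
        refine Finset.sum_le_sum fun i _ => ?_
        have h1 : (x i : ℝ) ^ 4 = (x i : ℝ) ^ 2 * (x i : ℝ) ^ 2 := by ring
        rw [h1]
        exact mul_le_mul_of_nonneg_left (le_Q x i) (sq_nonneg _)
    _ = Q x ^ 2 := by rw [← Finset.sum_mul, sq]; rfl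

theorem Q_uvec (x : Fin d → ℤ) (i : Fin d) (b : Bool) :
    Q (x + uvec (i, b)) = Q x + (1 + (if b then 2 else -2) * (x i : ℝ)) := by
  have h1 : ∀ j, (((x + uvec (i, b)) j : ℤ) : ℝ) ^ 2 = (x j : ℝ) ^ 2 +
      (if j = i then 1 + (if b then 2 else -2) * (x j : ℝ) else 0) := by
    intro j
    unfold uvec
    by_cases hj : j = i
    · subst hj
      cases b
      · simp
        ring
      · simp
        ring
    · cases b
      · simp [hj]
      · simp [hj]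
  unfold Q
  rw [Finset.sum_congr rfl fun j _ => h1 j, Finset.sum_add_distrib, Finset.sum_ite_eq',
    if_pos (Finset.mem_univ i)]

theorem Q_neg (x : Fin d → ℤ) : Q (-x) = Q x := by
  unfold Q
  refine Finset.sum_congr rfl fun i _ => ?_
  simp

theorem Q_zero : Q (0 : Fin d → ℤ) = 0 := by
  unfold Q
  simp

theorem Q_le (n : ℕ) (x : Fin d → ℤ) (hx : x ∈ box d n) : Q x ≤ d * (n : ℝ) ^ 2 := by
  have hx' : x ∈ Fintype.piFinset fun _ : Fin d => Finset.Icc (-(n : ℤ)) n := hx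
  rw [Fintype.mem_piFinset] at hx'
  calc Q x ≤ ∑ i : Fin d, (n : ℝ) ^ 2 := by
        refine Finset.sum_le_sum fun i _ => ?_
        have h1 := Finset.mem_Icc.1 (hx' i)
        have h2 : -(n : ℝ) ≤ (x i : ℝ) := by exact_mod_cast h1.1
        have h3 : (x i : ℝ) ≤ n := by exact_mod_cast h1.2
        exact sq_le_sq' h2 h3
    _ = d * (n : ℝ) ^ 2 := by
        rw [Finset.sum_const, Finset.card_univ, Fintype.card_fin, nsmul_eq_mul]

theorem le_Q_of_notMem (n : ℕ) (x : Fin d → ℤ) (hx : x ∉ box d n) : ((n : ℝ) + 1) ^ 2 ≤ Q x := by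
  have hx' : ¬ x ∈ Fintype.piFinset fun _ : Fin d => Finset.Icc (-(n : ℤ)) n := hx
  rw [Fintype.mem_piFinset] at hx'
  push Not at hx'
  obtain ⟨i, hi⟩ := hx'
  rw [Finset.mem_Icc] at hi
  refine le_trans ?_ (le_Q x i)
  have h1 : ((n : ℤ) + 1) ≤ |x i| := by
    by_contra h
    push Not at h
    apply hi
    rw [← abs_le]
    omega
  have h2 : ((n : ℝ) + 1) ≤ |(x i : ℝ)| := by exact_mod_cast h1
  calc ((n : ℝ) + 1) ^ 2 ≤ |(x i : ℝ)| ^ 2 := by
        have h3 : (0 : ℝ) ≤ (n : ℝ) + 1 := by positivity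
        exact pow_le_pow_left₀ h3 h2 2
    _ = (x i : ℝ) ^ 2 := sq_abs _

/-- one neighbour -/
theorem one_nb {b C : ℝ} (hC : ∀ y : ℝ, |y| ≤ 1 / 2 →
    (1 + y) ^ (-b) ≤ 1 - b * y + b * (b + 1) / 2 * y ^ 2 - b * (b + 1) * (b + 2) / 6 * y ^ 3 +
      C * y ^ 4) {s v : ℝ} (hs : 0 < s) (hv : 2 * |v| ≤ s) :
    (s + v) ^ (-b) ≤ s ^ (-b) * (1 - b * (v / s) + b * (b + 1) / 2 * (v / s) ^ 2 -
      b * (b + 1) * (b + 2) / 6 * (v / s) ^ 3 + C * (v / s) ^ 4) := by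
  have hy : |v / s| ≤ 1 / 2 := by
    rw [abs_div, abs_of_pos hs, div_le_iff₀ hs]
    linarith
  have h1 : s + v = s * (1 + v / s) := by
    field_simp
  have h2 : 0 ≤ 1 + v / s := by
    have := (abs_le.1 hy).1
    linarith
  rw [h1, Real.mul_rpow hs.le h2]
  exact mul_le_mul_of_nonneg_left (hC _ hy) (Real.rpow_nonneg hs.le _)

/-- two opposite neighbours -/
theorem two_nb {b C : ℝ} (hb : 0 < b) (hC : ∀ y : ℝ, |y| ≤ 1 / 2 →
    (1 + y) ^ (-b) ≤ 1 - b * y + b * (b + 1) / 2 * y ^ 2 - b * (b + 1) * (b + 2) / 6 * y ^ 3 +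
      C * y ^ 4) {s t : ℝ} (hs : 0 < s) (ht : t ^ 2 + 6 ≤ s) :
    (s + (1 + 2 * t)) ^ (-b) + (s + (1 + -2 * t)) ^ (-b) ≤
      s ^ (-b) * (2 - 2 * b / s + b * (b + 1) * (1 + 4 * t ^ 2) / s ^ 2 +
        C * (2 + 48 * t ^ 2 + 32 * t ^ 4) / s ^ 4) := by
  have h1 : 2 * |1 + 2 * t| ≤ s := by
    rcases abs_cases (1 + 2 * t) with ⟨h, _⟩ | ⟨h, _⟩
    · rw [h]; nlinarith [sq_nonneg (t - 2)]
    · rw [h]; nlinarith [sq_nonneg (t + 2)]
  have h2 : 2 * |1 + -2 * t| ≤ s := by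
    rcases abs_cases (1 + -2 * t) with ⟨h, _⟩ | ⟨h, _⟩
    · rw [h]; nlinarith [sq_nonneg (t + 2)]
    · rw [h]; nlinarith [sq_nonneg (t - 2)]
  have h3 := one_nb hC hs h1
  have h4 := one_nb hC hs h2
  refine (add_le_add h3 h4).trans ?_
  rw [← mul_add]
  refine mul_le_mul_of_nonneg_left ?_ (Real.rpow_nonneg hs.le _)
  have h5 : 0 ≤ b * (b + 1) * (b + 2) / 6 * ((2 + 24 * t ^ 2) / s ^ 3) := by positivity
  have h6 : 1 - b * ((1 + 2 * t) / s) + b * (b + 1) / 2 * ((1 + 2 * t) / s) ^ 2 -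
      b * (b + 1) * (b + 2) / 6 * ((1 + 2 * t) / s) ^ 3 + C * ((1 + 2 * t) / s) ^ 4 +
      (1 - b * ((1 + -2 * t) / s) + b * (b + 1) / 2 * ((1 + -2 * t) / s) ^ 2 -
      b * (b + 1) * (b + 2) / 6 * ((1 + -2 * t) / s) ^ 3 + C * ((1 + -2 * t) / s) ^ 4) =
      (2 - 2 * b / s + b * (b + 1) * (1 + 4 * t ^ 2) / s ^ 2 +
        C * (2 + 48 * t ^ 2 + 32 * t ^ 4) / s ^ 4) -
      b * (b + 1) * (b + 2) / 6 * ((2 + 24 * t ^ 2) / s ^ 3) := by
    field_simp
    ring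
  rw [h6]
  linarith

/-- the function -/
def hh (A b : ℝ) (x : Fin d → ℤ) : ℝ := (Q x + A) ^ (-b)

theorem sum_pair (F : (Fin d → ℤ) → ℝ) (x : Fin d → ℤ) :
    ∑ i : Fin d × Bool, F (x + uvec i) =
      ∑ i : Fin d, (F (x + uvec (i, true)) + F (x + uvec (i, false))) := by
  rw [Fintype.sum_prod_type]
  refine Finset.sum_congr rfl fun i _ => ?_
  rw [Fintype.sum_bool]

theorem superharm {b C A : ℝ} (hb : 0 < b) (hC0 : 0 < C) (hC : ∀ y : ℝ, |y| ≤ 1 / 2 →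
    (1 + y) ^ (-b) ≤ 1 - b * y + b * (b + 1) / 2 * y ^ 2 - b * (b + 1) * (b + 2) / 6 * y ^ 3 +
      C * y ^ 4) (hbd : 2 * b = (d : ℝ) - 2) (hA6 : 6 ≤ A) (hAd : 2 * (d : ℝ) ≤ A)
    (hAC : b * (b + 1) * (d - 4 * A) + 81 * C ≤ 0) (x : Fin d → ℤ) :
    ∑ i : Fin d × Bool, hh A b (x + uvec i) ≤ 2 * d * hh A b x := by
  set s : ℝ := Q x + A with hs
  have hQ := Q_nonneg x
  have hs0 : 0 < s := by linarith
  rw [sum_pair]
  have h1 : ∀ i : Fin d, hh A b (x + uvec (i, true)) + hh A b (x + uvec (i, false)) ≤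
      s ^ (-b) * (2 - 2 * b / s + b * (b + 1) * (1 + 4 * (x i : ℝ) ^ 2) / s ^ 2 +
        C * (2 + 48 * (x i : ℝ) ^ 2 + 32 * (x i : ℝ) ^ 4) / s ^ 4) := by
    intro i
    have h2 := two_nb hb hC hs0 (t := (x i : ℝ)) (by
      have := le_Q x i
      linarith)
    unfold hh
    rw [Q_uvec, Q_uvec]
    have e1 : Q x + (1 + (if true = true then (2 : ℝ) else -2) * (x i : ℝ)) + A =
        s + (1 + 2 * (x i : ℝ)) := by simp [hs]; ring
    have e2 : Q x + (1 + (if false = true then (2 : ℝ) else -2) * (x i : ℝ)) + A =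
        s + (1 + -2 * (x i : ℝ)) := by simp [hs]; ring
    rw [e1, e2]
    exact h2
  refine (Finset.sum_le_sum fun i _ => h1 i).trans ?_
  rw [← Finset.mul_sum]
  have h3 : ∑ i : Fin d, (2 - 2 * b / s + b * (b + 1) * (1 + 4 * (x i : ℝ) ^ 2) / s ^ 2 +
        C * (2 + 48 * (x i : ℝ) ^ 2 + 32 * (x i : ℝ) ^ 4) / s ^ 4) =
      d * (2 - 2 * b / s) + b * (b + 1) * (d + 4 * Q x) / s ^ 2 +
        C * (2 * d + 48 * Q x + 32 * ∑ i, (x i : ℝ) ^ 4) / s ^ 4 := by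
    rw [Finset.sum_add_distrib, Finset.sum_add_distrib, Finset.sum_const, Finset.card_univ,
      Fintype.card_fin, nsmul_eq_mul, ← Finset.sum_div, ← Finset.sum_div, ← Finset.mul_sum,
      ← Finset.mul_sum]
    simp only [Finset.sum_add_distrib, ← Finset.mul_sum, Finset.sum_const, Finset.card_univ,
      Fintype.card_fin, nsmul_eq_mul]
    unfold Q
    ring
  rw [h3]
  have h4 : C * (2 * d + 48 * Q x + 32 * ∑ i, (x i : ℝ) ^ 4) / s ^ 4 ≤ 81 * C / s ^ 2 := by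
    rw [div_le_div_iff₀ (by positivity) (by positivity)]
    have h5 : 2 * (d : ℝ) + 48 * Q x + 32 * ∑ i, (x i : ℝ) ^ 4 ≤ 81 * s ^ 2 := by
      have h6 := sum_four x
      have h7 : Q x ≤ s := by linarith
      have h8 : Q x ^ 2 ≤ s ^ 2 := pow_le_pow_left₀ hQ h7 2
      have h9 : 1 ≤ s := by linarith
      have h10 : s ≤ s ^ 2 := by nlinarith
      linarith
    have h6 : 0 < s ^ 2 := by positivity
    calc C * (2 * d + 48 * Q x + 32 * ∑ i, (x i : ℝ) ^ 4) * s ^ 2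
        ≤ C * (81 * s ^ 2) * s ^ 2 :=
          mul_le_mul_of_nonneg_right (mul_le_mul_of_nonneg_left h5 hC0.le) h6.le
      _ = 81 * C * s ^ 4 := by ring
  have h5 : (d : ℝ) * (2 - 2 * b / s) + b * (b + 1) * (d + 4 * Q x) / s ^ 2 + 81 * C / s ^ 2 ≤
      2 * d := by
    have h6 : (d : ℝ) * (2 - 2 * b / s) + b * (b + 1) * (d + 4 * Q x) / s ^ 2 + 81 * C / s ^ 2 =
        2 * d + (b * (b + 1) * (d - 4 * A) + 81 * C) / s ^ 2 := by
      have hd2 : (d : ℝ) = 2 * b + 2 := by linarith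
      have hQs : Q x = s - A := by rw [hs]; ring
      rw [hQs, hd2]
      field_simp
      ring
    rw [h6]
    have h7 : (b * (b + 1) * (d - 4 * A) + 81 * C) / s ^ 2 ≤ 0 :=
      div_nonpos_of_nonpos_of_nonneg hAC (by positivity)
    linarith
  have h6 : hh A b x = s ^ (-b) := rfl
  rw [h6, mul_comm (2 * (d : ℝ))]
  refine mul_le_mul_of_nonneg_left ?_ (Real.rpow_nonneg hs0.le _)
  linarith

end G1x

open G1x in
theorem G1 (h0 : St_G0) : St_G1 := by
  intro d hd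
  have hd3 : (3 : ℝ) ≤ d := by exact_mod_cast hd
  let b : ℝ := ((d : ℝ) - 2) / 2
  have hb : 0 < b := by show 0 < ((d : ℝ) - 2) / 2; linarith
  have hbd : 2 * b = (d : ℝ) - 2 := by show 2 * (((d : ℝ) - 2) / 2) = _; ring
  obtain ⟨C, hC0, hC⟩ := h0 b hb
  let A : ℝ := 6 + 2 * d + 81 * C / (4 * (b * (b + 1)))
  have hbb : 0 < b * (b + 1) := by positivity
  have hq : 0 < 81 * C / (4 * (b * (b + 1))) := by positivity
  have hAdef : A = 6 + 2 * d + 81 * C / (4 * (b * (b + 1))) := rfl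
  have hA6 : 6 ≤ A := by rw [hAdef]; linarith
  have hAd : 2 * (d : ℝ) ≤ A := by rw [hAdef]; linarith
  have hAC : b * (b + 1) * (d - 4 * A) + 81 * C ≤ 0 := by
    have h1 : b * (b + 1) * (d - 4 * A) + 81 * C = b * (b + 1) * (d - 24 - 8 * d) := by
      rw [hAdef]
      field_simp
      ring
    rw [h1]
    have h2 : (d : ℝ) - 24 - 8 * d ≤ 0 := by linarith
    exact mul_nonpos_of_nonneg_of_nonpos hbb.le h2
  have hA0 : 0 < A := by linarith
  have hpos : ∀ x : Fin d → ℤ, 0 < hh A b x := fun x =>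
    Real.rpow_pos_of_pos (by have := Q_nonneg x; linarith) _
  have hnb : 0 ≤ b := hb.le
  -- comparison
  have hcmp : ∀ s s' : ℝ, 0 < s → s ≤ s' → s' ^ (-b) ≤ s ^ (-b) := fun s s' hs hss =>
    Real.rpow_le_rpow_of_nonpos hs hss (by linarith)
  have hle1 : ∀ x : Fin d → ℤ, hh A b x ≤ 1 := by
    intro x
    have h1 := hcmp 1 (Q x + A) one_pos (by have := Q_nonneg x; linarith)
    rwa [Real.one_rpow] at h1
  let δ : ℝ := A ^ (-b) - (1 + A) ^ (-b)
  have hδ : 0 < δ := by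
    have h1 : (1 + A) ^ (-b) < A ^ (-b) :=
      Real.rpow_lt_rpow_of_neg hA0 (by linarith) (by linarith)
    show 0 < A ^ (-b) - (1 + A) ^ (-b)
    linarith
  have hδ' : δ = A ^ (-b) - (1 + A) ^ (-b) := rfl
  -- powers
  have hpw : ∀ n : ℕ, (((n : ℝ) + 1) ^ 2) ^ (-b) = 1 / ((n : ℝ) + 1) ^ (d - 2) := by
    intro n
    have hn : (0 : ℝ) < (n : ℝ) + 1 := by positivity
    have e1 : (((n : ℝ) + 1) ^ 2) ^ (-b) = ((n : ℝ) + 1) ^ (-((d - 2 : ℕ) : ℝ)) := by
      rw [← Real.rpow_natCast ((n : ℝ) + 1) 2, ← Real.rpow_mul hn.le]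
      congr 1
      rw [Nat.cast_sub (by omega : 2 ≤ d)]
      push_cast
      linarith
    rw [e1, Real.rpow_neg hn.le, Real.rpow_natCast, one_div]
  refine ⟨fun x => hh A b x / δ, 1 / δ, ((d : ℝ) + A) ^ (-b) / δ, ?_⟩
  refine
    { pos := fun x => div_pos (hpos x) hδ
      super := ?_
      symm := ?_
      bdd := fun x => div_le_div_of_nonneg_right (hle1 x) hδ.le
      upper := ?_
      cpos := div_pos (Real.rpow_pos_of_pos (by linarith) _) hδ
      lower := ?_ }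
  · intro x
    have hd0 : (0 : ℝ) < 2 * d := by linarith
    rw [← Finset.sum_div, div_div, mul_comm δ, ← div_div]
    by_cases hx : x = 0
    · rw [if_pos hx, hx]
      have h1 : ∀ i : Fin d × Bool, hh A b ((0 : Fin d → ℤ) + uvec i) = (1 + A) ^ (-b) := by
        rintro ⟨i, c⟩
        unfold hh
        rw [Q_uvec, Q_zero]
        congr 1
        cases c <;> simp
      rw [Finset.sum_congr rfl fun i _ => h1 i, Finset.sum_const, Finset.card_univ,
        Fintype.card_prod, Fintype.card_fin, Fintype.card_bool, nsmul_eq_mul]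
      have h2 : hh A b (0 : Fin d → ℤ) = A ^ (-b) := by
        unfold hh
        rw [Q_zero, zero_add]
      rw [h2]
      have h3 : (((d * 2 : ℕ) : ℝ) * (1 + A) ^ (-b)) / (2 * d) = (1 + A) ^ (-b) := by
        push_cast
        field_simp
      rw [h3, div_add_one hδ.ne']
      refine div_le_div_of_nonneg_right ?_ hδ.le
      rw [hδ']
      linarith
    · rw [if_neg hx, add_zero]
      refine div_le_div_of_nonneg_right ?_ hδ.le
      rw [div_le_iff₀ hd0, mul_comm]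
      exact superharm hb hC0 hC hbd hA6 hAd hAC x
  · intro x
    show hh A b (-x) / δ = hh A b x / δ
    unfold hh
    rw [Q_neg]
  · intro n x hx
    show hh A b x / δ ≤ 1 / δ / ((n : ℝ) + 1) ^ (d - 2)
    rw [div_div, mul_comm δ, ← div_div]
    refine div_le_div_of_nonneg_right ?_ hδ.le
    rw [← hpw n]
    exact hcmp _ _ (by positivity) (by have := le_Q_of_notMem n x hx; linarith)
  · intro n x hx
    show ((d : ℝ) + A) ^ (-b) / δ / ((n : ℝ) + 1) ^ (d - 2) ≤ hh A b x / δ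
    rw [div_div, mul_comm δ, ← div_div]
    refine div_le_div_of_nonneg_right ?_ hδ.le
    rw [div_eq_mul_one_div, ← hpw n, ← Real.mul_rpow (by linarith) (by positivity)]
    refine hcmp _ _ (by have := Q_nonneg x; linarith) ?_
    have h1 := Q_le n x hx
    have hn : (0 : ℝ) ≤ n := Nat.cast_nonneg n
    nlinarith [mul_nonneg hA0.le hn, mul_nonneg hA0.le (mul_nonneg hn hn),
      mul_nonneg (by linarith : (0 : ℝ) ≤ d) hn]

end PLS
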