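import Pool.Agent.PLS.StG

/-!
# PLS, module G2: the trace chain
-/

set_option autoImplicit false
set_option linter.unusedVariables false

open Finset Filter Topology MeasureTheory RInt

noncomputable section

namespace PLS

namespace G2x

variable {d : ℕ}

open Classical in
theorem frt_zero (K : Finset (Fin d → ℤ)) (x y : Fin d → ℤ) :
    frt K 0 x y = (∑ i : Fin d × Bool, if x + uvec i = y then (1 : ℝ) else 0) / (2 * d) := rfl

open Classical in
theorem frt_succ (K : Finset (Fin d → ℤ)) (n : ℕ) (x y : Fin d → ℤ) :
    frt K (n + 1) x y =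
      (∑ i : Fin d × Bool, if x + uvec i ∈ K then 0 else frt K n (x + uvec i) y) / (2 * d) := rfl

open Classical in
theorem noHit_succ (K : Finset (Fin d → ℤ)) (n : ℕ) (x : Fin d → ℤ) :
    noHit K (n + 1) x =
      (∑ i : Fin d × Bool, if x + uvec i ∈ K then 0 else noHit K n (x + uvec i)) / (2 * d) := rfl

theorem frt_nonneg (K : Finset (Fin d → ℤ)) (n : ℕ) (x y : Fin d → ℤ) : 0 ≤ frt K n x y := by
  classical
  induction n generalizing x with
  | zero =>
    rw [frt_zero]
    exact div_nonneg (Finset.sum_nonneg fun i _ => by split_ifs <;> norm_num) (by positivity)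
  | succ n ih =>
    rw [frt_succ]
    refine div_nonneg (Finset.sum_nonneg fun i _ => ?_) (by positivity)
    split_ifs
    · exact le_rfl
    · exact ih _

theorem frt_sum (hd : 1 ≤ d) (K : Finset (Fin d → ℤ)) (n : ℕ) (x : Fin d → ℤ) :
    ∑ y ∈ K, frt K n x y = noHit K n x - noHit K (n + 1) x := by
  classical
  have hd' : (2 : ℝ) * d ≠ 0 := by
    have : (0 : ℝ) < d := by exact_mod_cast hd
    positivity
  induction n generalizing x with
  | zero =>
    have h1 : noHit K 0 x = (∑ i : Fin d × Bool, (1 : ℝ)) / (2 * d) := by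
      rw [Finset.sum_const, card_dir, nsmul_eq_mul, mul_one]
      push_cast
      rw [mul_comm (d : ℝ) 2, div_self hd']
      rfl
    rw [h1, noHit_succ, ← sub_div, ← Finset.sum_sub_distrib]
    simp only [frt_zero]
    rw [← Finset.sum_div, Finset.sum_comm]
    congr 1
    refine Finset.sum_congr rfl fun i _ => ?_
    rw [Finset.sum_ite_eq K (x + uvec i) (fun _ => (1 : ℝ))]
    by_cases h : x + uvec i ∈ K
    · rw [if_pos h, if_pos h, sub_zero]
    · rw [if_neg h, if_neg h]
      show (0 : ℝ) = 1 - 1
      norm_num
  | succ n ih =>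
    rw [noHit_succ, noHit_succ K (n + 1), ← sub_div, ← Finset.sum_sub_distrib]
    simp only [frt_succ]
    rw [← Finset.sum_div, Finset.sum_comm]
    congr 1
    refine Finset.sum_congr rfl fun i _ => ?_
    by_cases h : x + uvec i ∈ K
    · simp only [if_pos h, Finset.sum_const_zero, sub_zero]
    · simp only [if_neg h]
      exact ih _

open Classical in
/-- last step recursion -/
theorem frt_last (K : Finset (Fin d → ℤ)) (n : ℕ) (x y : Fin d → ℤ) :
    frt K (n + 1) x y =
      (∑ i : Fin d × Bool, if y + uvec i ∈ K then 0 else frt K n x (y + uvec i)) / (2 * d) := by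
  induction n generalizing x with
  | zero =>
    rw [frt_succ]
    congr 1
    have h1 : ∀ i : Fin d × Bool, (if x + uvec i ∈ K then 0 else frt K 0 (x + uvec i) y) =
        (∑ j : Fin d × Bool, if x + uvec i ∈ K then 0 else
          if x + uvec i = y + uvec j then (1 : ℝ) else 0) / (2 * d) := by
      intro i
      by_cases h : x + uvec i ∈ K
      · simp only [if_pos h, Finset.sum_const_zero, zero_div]
      · simp only [if_neg h]
        rw [frt_zero]
        congr 1
        rw [← sum_neg_uvec (fun v => if x + uvec i = y + v then (1 : ℝ) else 0)]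
        refine Finset.sum_congr rfl fun j _ => ?_
        refine if_congr ?_ rfl rfl
        rw [← sub_eq_add_neg, eq_sub_iff_add_eq]
    have h2 : ∀ j : Fin d × Bool, (if y + uvec j ∈ K then 0 else frt K 0 x (y + uvec j)) =
        (∑ i : Fin d × Bool, if x + uvec i ∈ K then 0 else
          if x + uvec i = y + uvec j then (1 : ℝ) else 0) / (2 * d) := by
      intro j
      rw [frt_zero]
      by_cases h : y + uvec j ∈ K
      · rw [if_pos h]
        symm
        rw [Finset.sum_eq_zero, zero_div]
        intro i _
        by_cases h3 : x + uvec i = y + uvec j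
        · rw [h3, if_pos h]
        · rw [if_neg h3]
          split_ifs <;> rfl
      · rw [if_neg h]
        congr 1
        refine Finset.sum_congr rfl fun i _ => ?_
        by_cases h3 : x + uvec i = y + uvec j
        · rw [h3, if_neg h]
        · rw [if_neg h3]
          split_ifs <;> rfl
    rw [Finset.sum_congr rfl fun i _ => h1 i, Finset.sum_congr rfl fun j _ => h2 j,
      ← Finset.sum_div, ← Finset.sum_div, Finset.sum_comm]
  | succ n ih =>
    rw [frt_succ]
    congr 1
    have h1 : ∀ i : Fin d × Bool, (if x + uvec i ∈ K then 0 else frt K (n + 1) (x + uvec i) y) =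
        (∑ j : Fin d × Bool, if x + uvec i ∈ K then 0 else
          if y + uvec j ∈ K then 0 else frt K n (x + uvec i) (y + uvec j)) / (2 * d) := by
      intro i
      by_cases h : x + uvec i ∈ K
      · simp only [if_pos h, Finset.sum_const_zero, zero_div]
      · simp only [if_neg h]
        rw [ih]
    have h2 : ∀ j : Fin d × Bool, (if y + uvec j ∈ K then 0 else frt K (n + 1) x (y + uvec j)) =
        (∑ i : Fin d × Bool, if x + uvec i ∈ K then 0 else
          if y + uvec j ∈ K then 0 else frt K n (x + uvec i) (y + uvec j)) / (2 * d) := by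
      intro j
      by_cases h : y + uvec j ∈ K
      · simp only [if_pos h, ite_self, Finset.sum_const_zero, zero_div]
      · simp only [if_neg h]
        rw [frt_succ]
    rw [Finset.sum_congr rfl fun i _ => h1 i, Finset.sum_congr rfl fun j _ => h2 j,
      ← Finset.sum_div, ← Finset.sum_div, Finset.sum_comm]

theorem frt_symm (K : Finset (Fin d → ℤ)) (n : ℕ) (x y : Fin d → ℤ) :
    frt K n x y = frt K n y x := by
  classical
  induction n generalizing x with
  | zero =>
    rw [frt_zero, frt_zero]
    congr 1
    rw [← sum_neg_uvec (fun v => if y + v = x then (1 : ℝ) else 0)]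
    refine Finset.sum_congr rfl fun j _ => ?_
    refine if_congr ?_ rfl rfl
    rw [← sub_eq_add_neg, sub_eq_iff_eq_add]
    exact eq_comm
  | succ n ih =>
    rw [frt_succ, frt_last]
    congr 1
    refine Finset.sum_congr rfl fun i _ => ?_
    rw [ih]

theorem esc_tendsto (hd : 1 ≤ d) (K : Finset (Fin d → ℤ)) (x : Fin d → ℤ) :
    Tendsto (fun n => noHit K n x) atTop (𝓝 (esc K x)) :=
  tendsto_atTop_ciInf (noHit_anti hd K x)
    ⟨0, by rintro _ ⟨n, rfl⟩; exact noHit_nonneg K n x⟩

theorem frt_partial (hd : 1 ≤ d) (K : Finset (Fin d → ℤ)) (n : ℕ) (x : Fin d → ℤ) :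
    ∑ k ∈ Finset.range n, ∑ y ∈ K, frt K k x y = 1 - noHit K n x := by
  rw [Finset.sum_congr rfl fun k _ => frt_sum hd K k x, Finset.sum_range_sub']
  rfl

theorem frt_summable (hd : 1 ≤ d) (K : Finset (Fin d → ℤ)) (x y : Fin d → ℤ) (hy : y ∈ K) :
    Summable (fun n => frt K n x y) := by
  refine summable_of_sum_range_le (c := 1) (fun n => frt_nonneg K n x y) fun n => ?_
  calc ∑ k ∈ Finset.range n, frt K k x y ≤ ∑ k ∈ Finset.range n, ∑ z ∈ K, frt K k x z :=
        Finset.sum_le_sum fun k _ =>
          Finset.single_le_sum (f := fun z => frt K k x z) (fun z _ => frt_nonneg K k x z) hy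
    _ = 1 - noHit K n x := frt_partial hd K n x
    _ ≤ 1 := by linarith [noHit_nonneg K n x]

end G2x

open G2x in
theorem G2 : St_G2 := by
  classical
  intro d hd K
  refine ⟨frt_nonneg K, frt_sum hd K, frt_symm K, ?_, ?_, ?_, ?_, ?_⟩
  · intro x y hy
    exact ⟨frt_summable hd K x y hy, tsum_nonneg fun n => frt_nonneg K n x y⟩
  · intro x
    have h1 : HasSum (fun n => ∑ y ∈ K, frt K n x y) (∑ y ∈ K, Hk K x y) :=
      hasSum_sum fun y hy => (frt_summable hd K x y hy).hasSum
    have h2 := h1.tendsto_sum_nat
    simp only [frt_partial hd K _ x] at h2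
    exact tendsto_nhds_unique h2 (tendsto_const_nhds.sub (esc_tendsto hd K x))
  · intro x y _ _
    unfold Hk
    exact tsum_congr fun n => frt_symm K n x y
  · intro x
    have h1 := (esc_tendsto hd K x).comp (tendsto_add_atTop_nat 1)
    have h2 : Tendsto (fun n => noHit K (n + 1) x) atTop
        (𝓝 ((∑ i : Fin d × Bool, if x + uvec i ∈ K then 0 else esc K (x + uvec i)) /
          (2 * d))) := by
      simp only [noHit_succ]
      refine Tendsto.div_const (tendsto_finsetSum _ fun i _ => ?_) _
      by_cases h : x + uvec i ∈ K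
      · simp only [if_pos h]
        exact tendsto_const_nhds
      · simp only [if_neg h]
        exact esc_tendsto hd K _
    have h3 := tendsto_nhds_unique h1 h2
    rw [h3]
  · intro x
    exact ⟨esc_le K 0 x, esc_nonneg K x⟩

end PLS
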