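import Pool.Agent.PLS.G2

/-!
# PLS, module G3: domination by superharmonic functions
-/

set_option autoImplicit false
set_option linter.unusedVariables false

open Finset Filter Topology MeasureTheory RInt

noncomputable section

namespace PLS

namespace G3x

open G2x

variable {d : ℕ}

open Classical in
/-- the recursion of the sums over the returns to `K` -/
theorem S_succ (K : Finset (Fin d → ℤ)) (G : (Fin d → ℤ) → ℝ) (n : ℕ) (x : Fin d → ℤ) :
    ∑ k ∈ Finset.range (n + 1), ∑ y ∈ K, frt K k x y * G y =
      (∑ i : Fin d × Bool, if x + uvec i ∈ K then G (x + uvec i) else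
        ∑ k ∈ Finset.range n, ∑ y ∈ K, frt K k (x + uvec i) y * G y) / (2 * d) := by
  have h0 : ∑ y ∈ K, frt K 0 x y * G y =
      (∑ i : Fin d × Bool, if x + uvec i ∈ K then G (x + uvec i) else 0) / (2 * d) := by
    simp only [frt_zero, div_mul_eq_mul_div, Finset.sum_mul, ite_mul, one_mul, zero_mul]
    rw [← Finset.sum_div, Finset.sum_comm]
    congr 1
    refine Finset.sum_congr rfl fun i _ => ?_
    rw [Finset.sum_ite_eq K (x + uvec i) G]
  have h1 : ∑ k ∈ Finset.range n, ∑ y ∈ K, frt K (k + 1) x y * G y =
      (∑ i : Fin d × Bool, if x + uvec i ∈ K then 0 else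
        ∑ k ∈ Finset.range n, ∑ y ∈ K, frt K k (x + uvec i) y * G y) / (2 * d) := by
    have e1 : ∀ i : Fin d × Bool, (if x + uvec i ∈ K then 0 else
        ∑ k ∈ Finset.range n, ∑ y ∈ K, frt K k (x + uvec i) y * G y) =
        ∑ k ∈ Finset.range n, ∑ y ∈ K, (if x + uvec i ∈ K then 0 else
          frt K k (x + uvec i) y * G y) := by
      intro i
      by_cases h : x + uvec i ∈ K
      · simp only [if_pos h, Finset.sum_const_zero]
      · simp only [if_neg h]
    simp only [e1]
    rw [Finset.sum_comm (s := (Finset.univ : Finset (Fin d × Bool))), Finset.sum_div]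
    refine Finset.sum_congr rfl fun k _ => ?_
    rw [Finset.sum_comm (s := (Finset.univ : Finset (Fin d × Bool))), Finset.sum_div]
    refine Finset.sum_congr rfl fun y _ => ?_
    rw [frt_succ, div_mul_eq_mul_div, Finset.sum_mul]
    congr 1
    refine Finset.sum_congr rfl fun i _ => ?_
    rw [ite_mul, zero_mul]
  rw [Finset.sum_range_succ', h1, h0, ← add_div, ← Finset.sum_add_distrib]
  congr 1
  refine Finset.sum_congr rfl fun i _ => ?_
  by_cases h : x + uvec i ∈ K
  · rw [if_pos h, if_pos h, if_pos h, zero_add]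
  · rw [if_neg h, if_neg h, if_neg h, add_zero]

theorem S_le (K : Finset (Fin d → ℤ)) (G : (Fin d → ℤ) → ℝ) (hG : ∀ x, 0 ≤ G x)
    (hs : ∀ x, (∑ i : Fin d × Bool, G (x + uvec i)) / (2 * d) ≤ G x) (n : ℕ) (x : Fin d → ℤ) :
    ∑ k ∈ Finset.range n, ∑ y ∈ K, frt K k x y * G y ≤
      (∑ i : Fin d × Bool, G (x + uvec i)) / (2 * d) := by
  classical
  induction n generalizing x with
  | zero =>
    rw [Finset.sum_range_zero]
    exact div_nonneg (Finset.sum_nonneg fun i _ => hG _) (by positivity)
  | succ n ih =>
    rw [S_succ]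
    refine div_le_div_of_nonneg_right (Finset.sum_le_sum fun i _ => ?_) (by positivity)
    by_cases h : x + uvec i ∈ K
    · rw [if_pos h]
    · rw [if_neg h]
      exact (ih _).trans (hs _)

open Classical in
theorem U_succ (K : Finset (Fin d → ℤ)) (v : Fin d → ℤ) (n : ℕ) (x : Fin d → ℤ) :
    ∑ k ∈ Finset.range (n + 1), frt K k x v =
      (∑ i : Fin d × Bool, ((if x + uvec i = v then (1 : ℝ) else 0) +
        (if x + uvec i ∈ K then 0 else
          ∑ k ∈ Finset.range n, frt K k (x + uvec i) v))) / (2 * d) := by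
  rw [Finset.sum_range_succ', Finset.sum_add_distrib, add_div, add_comm, frt_zero]
  congr 1
  have h1 : ∀ k ∈ Finset.range n, frt K (k + 1) x v =
      (∑ i : Fin d × Bool, if x + uvec i ∈ K then 0 else frt K k (x + uvec i) v) /
        (2 * d) := fun k _ => frt_succ K k x v
  rw [Finset.sum_congr rfl h1, ← Finset.sum_div, Finset.sum_comm]
  congr 1
  refine Finset.sum_congr rfl fun i _ => ?_
  by_cases h : x + uvec i ∈ K
  · simp only [if_pos h, Finset.sum_const_zero]
  · simp only [if_neg h]

end G3x

open G2x G3x in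
theorem G3 : St_G3 := by
  classical
  intro d hd K
  refine ⟨?_, ?_⟩
  · intro G hG hs
    have hA1 := S_le K G hG hs
    have hA3 : ∀ η : ℝ, 0 < η → (∀ y ∈ K, η ≤ G y) → ∀ n x, 1 - noHit K n x ≤ G x / η := by
      intro η hη hK n x
      rw [le_div_iff₀ hη, ← frt_partial hd K n x, Finset.sum_mul]
      calc ∑ k ∈ Finset.range n, (∑ y ∈ K, frt K k x y) * η
          ≤ ∑ k ∈ Finset.range n, ∑ y ∈ K, frt K k x y * G y := by
            refine Finset.sum_le_sum fun k _ => ?_
            rw [Finset.sum_mul]
            exact Finset.sum_le_sum fun y hy =>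
              mul_le_mul_of_nonneg_left (hK y hy) (frt_nonneg K k x y)
        _ ≤ _ := hA1 n x
        _ ≤ G x := hs x
    refine ⟨hA1, ?_, hA3, ?_⟩
    · intro x
      have h1 : HasSum (fun n => ∑ y ∈ K, frt K n x y * G y) (∑ y ∈ K, Hk K x y * G y) :=
        hasSum_sum fun y hy => (frt_summable hd K x y hy).hasSum.mul_right _
      exact le_of_tendsto' h1.tendsto_sum_nat fun n => hA1 n x
    · intro η hη hK x
      exact le_of_tendsto' (tendsto_const_nhds.sub (esc_tendsto hd K x)) fun n => hA3 η hη hK n x
  · intro g C c hg n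
    induction n with
    | zero =>
      intro x v
      have h := hg.super (x - v)
      have h2 : 0 ≤ (∑ i : Fin d × Bool, g (x - v + uvec i)) / (2 * d) :=
        div_nonneg (Finset.sum_nonneg fun i _ => (hg.pos _).le) (by positivity)
      rw [Finset.sum_range_zero, zero_add]
      simp only [sub_eq_zero] at h
      linarith
    | succ n ih =>
      intro x v
      have h := hg.super (x - v)
      simp only [sub_eq_zero] at h
      refine le_trans ?_ h
      refine add_le_add ?_ le_rfl
      rw [U_succ]
      refine div_le_div_of_nonneg_right (Finset.sum_le_sum fun i _ => ?_) (by positivity)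
      have e1 : x - v + uvec i = x + uvec i - v := by abel
      rw [e1]
      refine le_trans ?_ (ih (x + uvec i) v)
      rw [add_comm]
      refine add_le_add ?_ le_rfl
      split_ifs
      · exact Finset.sum_nonneg fun k _ => frt_nonneg K k _ _
      · exact le_rfl

end PLS
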