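import Pool.Agent.PLS.StG

/-!
# PLS, module G4: decomposition of the escape probability at the first visit of a larger set
-/

set_option autoImplicit false

open Finset Filter Topology MeasureTheory RInt

noncomputable section

namespace PLS

variable {d : ℕ}

namespace G4x

/-- convolution of a summable sequence with a convergent bounded one -/
theorem conv_tendsto (a b : ℕ → ℝ) (β : ℝ) (ha : ∀ k, 0 ≤ a k) (hs : Summable a)
    (hb0 : ∀ n, 0 ≤ b n) (hb1 : ∀ n, b n ≤ 1) (hb : Tendsto b atTop (𝓝 β)) :
    Tendsto (fun n => ∑ k ∈ Finset.range n, a k * b (n - 1 - k)) atTop (𝓝 ((∑' k, a k) * β)) := by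
  have h := tendsto_tsum_of_dominated_convergence (𝓕 := atTop)
    (f := fun (n : ℕ) (k : ℕ) => if k < n then a k * b (n - 1 - k) else 0)
    (g := fun k => a k * β) (bound := a) hs ?_ ?_
  · rw [tsum_mul_right] at h
    refine h.congr fun n => ?_
    rw [tsum_eq_sum (s := Finset.range n)]
    · exact Finset.sum_congr rfl fun k hk => if_pos (Finset.mem_range.1 hk)
    · intro k hk
      exact if_neg fun hlt => hk (Finset.mem_range.2 hlt)
  · intro k
    have h1 : Tendsto (fun n : ℕ => b (n - 1 - k)) atTop (𝓝 β) := by
      refine hb.comp ?_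
      refine tendsto_atTop.2 fun m => ?_
      filter_upwards [eventually_ge_atTop (m + 1 + k)] with n hn
      omega
    refine (h1.const_mul (a k)).congr' ?_
    filter_upwards [eventually_gt_atTop k] with n hn
    rw [if_pos hn]
  · refine Eventually.of_forall fun n k => ?_
    by_cases hlt : k < n
    · simp only [if_pos hlt, Real.norm_eq_abs]
      rw [abs_of_nonneg (mul_nonneg (ha k) (hb0 _))]
      exact mul_le_of_le_one_right (ha k) (hb1 _)
    · simp only [if_neg hlt, norm_zero]
      exact ha k

theorem finite_id (K K' : Finset (Fin d → ℤ)) (hK : K' ⊆ K) (n : ℕ) :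
    ∀ x, noHit K' n x = noHit K n x +
      ∑ k ∈ Finset.range n, ∑ y ∈ K \ K', frt K k x y * noHit K' (n - 1 - k) y := by
  classical
  induction n with
  | zero => intro x; simp [noHit]
  | succ n ih =>
    intro x
    rw [Finset.sum_range_succ']
    have e0 : ∑ y ∈ K \ K', frt K 0 x y * noHit K' (n + 1 - 1 - 0) y =
        (∑ i : Fin d × Bool, if x + uvec i ∈ K \ K' then noHit K' n (x + uvec i) else 0) /
          (2 * d) := by
      simp only [frt]
      have e1 : ∀ y ∈ K \ K',
          (∑ i : Fin d × Bool, if x + uvec i = y then (1 : ℝ) else 0) / (2 * d) *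
            noHit K' (n + 1 - 1 - 0) y =
          (∑ i : Fin d × Bool, if x + uvec i = y then noHit K' n (x + uvec i) else 0) /
            (2 * d) := by
        intro y _
        rw [div_mul_eq_mul_div, Finset.sum_mul]
        congr 1
        refine Finset.sum_congr rfl fun i _ => ?_
        by_cases hi : x + uvec i = y
        · rw [if_pos hi, if_pos hi, hi, one_mul]; rfl
        · rw [if_neg hi, if_neg hi, zero_mul]
      rw [Finset.sum_congr rfl e1, ← Finset.sum_div, Finset.sum_comm]
      congr 1
      refine Finset.sum_congr rfl fun i _ => ?_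
      rw [Finset.sum_ite_eq]
    have e2 : ∑ k ∈ Finset.range n, ∑ y ∈ K \ K',
        frt K (k + 1) x y * noHit K' (n + 1 - 1 - (k + 1)) y =
        (∑ i : Fin d × Bool, if x + uvec i ∈ K then 0 else
          ∑ k ∈ Finset.range n, ∑ y ∈ K \ K', frt K k (x + uvec i) y * noHit K' (n - 1 - k) y) /
          (2 * d) := by
      have e3 : ∀ k ∈ Finset.range n, ∀ y ∈ K \ K',
          frt K (k + 1) x y * noHit K' (n + 1 - 1 - (k + 1)) y =
          (∑ i : Fin d × Bool, if x + uvec i ∈ K then 0 else
            frt K k (x + uvec i) y * noHit K' (n - 1 - k) y) / (2 * d) := by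
        intro k _ y _
        have e4 : n + 1 - 1 - (k + 1) = n - 1 - k := by omega
        rw [e4, frt, div_mul_eq_mul_div, Finset.sum_mul]
        congr 1
        refine Finset.sum_congr rfl fun i _ => ?_
        by_cases hi : x + uvec i ∈ K
        · rw [if_pos hi, if_pos hi, zero_mul]
        · rw [if_neg hi, if_neg hi]
      rw [Finset.sum_congr rfl fun k hk => Finset.sum_congr rfl (e3 k hk)]
      simp only [← Finset.sum_div]
      congr 1
      rw [Finset.sum_congr rfl fun k _ => Finset.sum_comm, Finset.sum_comm]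
      refine Finset.sum_congr rfl fun i _ => ?_
      by_cases hi : x + uvec i ∈ K
      · simp [hi]
      · simp [hi]
    rw [e0, e2, noHit, noHit, ← add_div, ← add_div, ← Finset.sum_add_distrib,
      ← Finset.sum_add_distrib]
    congr 1
    refine Finset.sum_congr rfl fun i _ => ?_
    by_cases h1 : x + uvec i ∈ K'
    · have h2 : x + uvec i ∈ K := hK h1
      simp [h1, h2]
    · by_cases h2 : x + uvec i ∈ K
      · simp [h1, h2]
      · simp only [if_neg h1, if_neg h2, Finset.mem_sdiff, h2, false_and, if_false, add_zero]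
        exact ih _

end G4x

open G4x in
theorem G4 (h : St_G2) : St_G4 := by
  intro d hd K K' hK x
  obtain ⟨hnn, -, -, hsum, -, -, -, -⟩ := h d hd K
  have hT : ∀ (Q : Finset (Fin d → ℤ)) (z : Fin d → ℤ),
      Tendsto (fun n => noHit Q n z) atTop (𝓝 (esc Q z)) := fun Q z =>
    tendsto_atTop_ciInf (noHit_anti hd Q z)
      ⟨0, by rintro _ ⟨n, rfl⟩; exact noHit_nonneg Q n z⟩
  have h1 : Tendsto (fun n => noHit K n x +
      ∑ y ∈ K \ K', ∑ k ∈ Finset.range n, frt K k x y * noHit K' (n - 1 - k) y) atTop
      (𝓝 (esc K x + ∑ y ∈ K \ K', Hk K x y * esc K' y)) := by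
    refine (hT K x).add (tendsto_finsetSum _ fun y hy => ?_)
    have hyK : y ∈ K := (Finset.mem_sdiff.1 hy).1
    exact conv_tendsto (fun k => frt K k x y) (fun n => noHit K' n y) (esc K' y)
      (fun k => hnn k x y) (hsum x y hyK).1 (fun n => noHit_nonneg K' n y)
      (fun n => noHit_le_one hd K' n y) (hT K' y)
  refine tendsto_nhds_unique (hT K' x) (h1.congr fun n => ?_)
  rw [finite_id K K' hK n x, Finset.sum_comm]

end PLS
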