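import Pool.Agent.PLS.StG

/-!
# PLS, module G5: transience of the trace chain
-/

set_option autoImplicit false
set_option linter.unusedVariables false

open Finset Filter Topology MeasureTheory RInt

noncomputable section

namespace PLS

namespace G5x

/-- the potential of the set `K` -/
def uu {d : ℕ} (g : (Fin d → ℤ) → ℝ) (K : Finset (Fin d → ℤ)) (x : Fin d → ℤ) : ℝ :=
  ∑ y ∈ K, g (x - y)

theorem avg {d : ℕ} (g : (Fin d → ℤ) → ℝ) (C c : ℝ) (hg : Pot d g C c) (K : Finset (Fin d → ℤ))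
    (x : Fin d → ℤ) :
    (∑ i : Fin d × Bool, uu g K (x + uvec i)) / (2 * d) + ∑ y ∈ K, (if x - y = 0 then (1 : ℝ) else 0)
      ≤ uu g K x := by
  have h1 : (∑ i : Fin d × Bool, uu g K (x + uvec i)) / (2 * d)
      = ∑ y ∈ K, (∑ i : Fin d × Bool, g (x - y + uvec i)) / (2 * d) := by
    unfold uu
    rw [Finset.sum_comm, Finset.sum_div]
    refine Finset.sum_congr rfl fun y _ => ?_
    congr 1
    refine Finset.sum_congr rfl fun i _ => ?_
    congr 1
    abel
  rw [h1, ← Finset.sum_add_distrib]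
  unfold uu
  exact Finset.sum_le_sum fun y _ => hg.super (x - y)

end G5x

open G5x in
theorem G5 (h3 : St_G3) : St_G5 := by
  intro d g C c hd hg K
  have hnn : ∀ x, 0 ≤ uu g K x := fun x => Finset.sum_nonneg fun y _ => (hg.pos _).le
  refine ⟨uu g K, hnn, fun x hx => ?_⟩
  have hsup : ∀ x, (∑ i : Fin d × Bool, uu g K (x + uvec i)) / (2 * d) ≤ uu g K x := by
    intro x
    have h1 := avg g C c hg K x
    have h2 : 0 ≤ ∑ y ∈ K, (if x - y = 0 then (1 : ℝ) else 0) :=
      Finset.sum_nonneg fun y _ => by split_ifs <;> norm_num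
    linarith
  have h4 := ((h3 d hd K).1 (uu g K) hnn hsup).2.1 x
  have h5 := avg g C c hg K x
  have h6 : (1 : ℝ) ≤ ∑ y ∈ K, (if x - y = 0 then (1 : ℝ) else 0) := by
    have h7 := Finset.single_le_sum (f := fun y => if x - y = 0 then (1 : ℝ) else 0)
      (fun y _ => by
        show (0 : ℝ) ≤ if x - y = 0 then (1 : ℝ) else 0
        split_ifs <;> norm_num) hx
    have h8 : (if x - x = 0 then (1 : ℝ) else 0) = 1 := if_pos (sub_self x)
    calc (1 : ℝ) = if x - x = 0 then (1 : ℝ) else 0 := h8.symm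
      _ ≤ _ := h7
  linarith

end PLS
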