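import Pool.Agent.PLS.StG

/-!
# PLS [G6]: the weights of a finite transient symmetric chain
-/

set_option autoImplicit false
set_option linter.unusedVariables false

open Finset Filter Topology

noncomputable section

namespace PLS

namespace G6x

variable {S : Type} [DecidableEq S]

/-- the weight of the sequences of length `≤ n` starting at `x` with range `T` -/
def W (K : Finset S) (H : S → S → ℝ) (e : S → ℝ) : ℕ → S → Finset S → ℝ
  | 0, _, _ => 0
  | n + 1, x, T => (if T = {x} then e x else 0) +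
      ∑ y ∈ K, H x y * ∑ T' ∈ K.powerset, if insert x T' = T then W K H e n y T' else 0

structure Hyp (K : Finset S) (H : S → S → ℝ) (e u : S → ℝ) : Prop where
  hH : ∀ x ∈ K, ∀ y ∈ K, 0 ≤ H x y ∧ H x y = H y x
  he : ∀ x ∈ K, 0 ≤ e x ∧ e x + ∑ y ∈ K, H x y = 1
  hu : ∀ x ∈ K, 0 ≤ u x ∧ ∑ y ∈ K, H x y * u y + 1 ≤ u x

variable {K : Finset S} {H : S → S → ℝ} {e u : S → ℝ}

theorem W_nonneg (h : Hyp K H e u) : ∀ (n : ℕ) (x : S), x ∈ K → ∀ T, 0 ≤ W K H e n x T := by
  intro n
  induction n with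
  | zero => intro x _ T; exact le_rfl
  | succ n ih =>
    intro x hx T
    rw [W]
    refine add_nonneg ?_ (Finset.sum_nonneg fun y hy => mul_nonneg (h.hH x hx y hy).1
      (Finset.sum_nonneg fun T' _ => ?_))
    · split_ifs
      · exact (h.he x hx).1
      · exact le_rfl
    · split_ifs
      · exact ih y hy T'
      · exact le_rfl

theorem W_mono (h : Hyp K H e u) : ∀ (n : ℕ) (x : S), x ∈ K → ∀ T,
    W K H e n x T ≤ W K H e (n + 1) x T := by
  intro n
  induction n with
  | zero => intro x hx T; exact W_nonneg h 1 x hx T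
  | succ n ih =>
    intro x hx T
    rw [W, W]
    refine add_le_add le_rfl (Finset.sum_le_sum fun y hy =>
      mul_le_mul_of_nonneg_left (Finset.sum_le_sum fun T' _ => ?_) (h.hH x hx y hy).1)
    split_ifs
    · exact ih y hy T'
    · exact le_rfl

theorem W_zero : ∀ (n : ℕ) (x : S) (T : Finset S), x ∉ T → W K H e n x T = 0 := by
  intro n
  induction n with
  | zero => intro x T _; rfl
  | succ n ih =>
    intro x T hx
    rw [W, if_neg (by rintro rfl; exact hx (Finset.mem_singleton_self x)), zero_add]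
    refine Finset.sum_eq_zero fun y _ => ?_
    rw [Finset.sum_eq_zero, mul_zero]
    intro T' _
    rw [if_neg]
    rintro rfl
    exact hx (Finset.mem_insert_self x T')

/-- regrouping -/
theorem regroup {L : Finset S} (hL : L ⊆ K) {x : S} (hx : x ∈ L) (f : Finset S → ℝ) :
    ∑ T ∈ L.powerset, ∑ T' ∈ K.powerset, (if insert x T' = T then f T' else 0) =
      ∑ T' ∈ L.powerset, f T' := by
  rw [Finset.sum_comm]
  have h1 : ∀ T' ∈ K.powerset, ∑ T ∈ L.powerset, (if insert x T' = T then f T' else 0) =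
      if T' ∈ L.powerset then f T' else 0 := by
    intro T' _
    rw [Finset.sum_ite_eq]
    have h2 : insert x T' ∈ L.powerset ↔ T' ∈ L.powerset := by
      rw [Finset.mem_powerset, Finset.mem_powerset, Finset.insert_subset_iff]
      exact ⟨fun h => h.2, fun h => ⟨hx, h⟩⟩
    simp only [h2]
  rw [Finset.sum_congr rfl h1, ← Finset.sum_filter]
  refine Finset.sum_congr ?_ fun _ _ => rfl
  ext T
  simp only [Finset.mem_filter, Finset.mem_powerset]
  exact ⟨fun h => h.2, fun h => ⟨h.trans hL, h⟩⟩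

/-- the weight of the sequences of length `≤ n` starting at `x` with range in `L` -/
def V (K : Finset S) (H : S → S → ℝ) (e : S → ℝ) (L : Finset S) (n : ℕ) (x : S) : ℝ :=
  ∑ T ∈ L.powerset, W K H e n x T

theorem V_zero_of_not_mem {L : Finset S} (n : ℕ) {x : S} (hx : x ∉ L) : V K H e L n x = 0 :=
  Finset.sum_eq_zero fun T hT => W_zero n x T fun h => hx (Finset.mem_powerset.1 hT h)

theorem V_succ {L : Finset S} (hL : L ⊆ K) {x : S} (hx : x ∈ L) (n : ℕ) :
    V K H e L (n + 1) x = e x + ∑ y ∈ L, H x y * V K H e L n y := by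
  have h1 : V K H e L (n + 1) x = ∑ T ∈ L.powerset, ((if T = {x} then e x else 0) +
      ∑ y ∈ K, H x y * ∑ T' ∈ K.powerset, if insert x T' = T then W K H e n y T' else 0) := by
    refine Finset.sum_congr rfl fun T _ => ?_
    rw [W]
  rw [h1, Finset.sum_add_distrib, Finset.sum_ite_eq', if_pos (Finset.mem_powerset.2
    (Finset.singleton_subset_iff.2 hx)), Finset.sum_comm]
  congr 1
  have h2 : ∀ y ∈ K, ∑ T ∈ L.powerset, H x y * ∑ T' ∈ K.powerset,
      (if insert x T' = T then W K H e n y T' else 0) = H x y * V K H e L n y := by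
    intro y _
    rw [← Finset.mul_sum, regroup hL hx]
    rfl
  rw [Finset.sum_congr rfl h2]
  symm
  refine Finset.sum_subset hL fun y _ hy => ?_
  rw [V_zero_of_not_mem n hy, mul_zero]

/-- the remaining mass -/
def eta (H : S → S → ℝ) (L : Finset S) : ℕ → S → ℝ
  | 0, _ => 1
  | n + 1, x => ∑ y ∈ L, H x y * eta H L n y

theorem eta_nonneg (h : Hyp K H e u) {L : Finset S} (hL : L ⊆ K) : ∀ (n : ℕ) (x : S), x ∈ L →
    0 ≤ eta H L n x := by
  intro n
  induction n with
  | zero => intro x _; exact zero_le_one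
  | succ n ih =>
    intro x hx
    exact Finset.sum_nonneg fun y hy => mul_nonneg (h.hH x (hL hx) y (hL hy)).1 (ih y hy)

theorem eta_anti (h : Hyp K H e u) {L : Finset S} (hL : L ⊆ K) : ∀ (n : ℕ) (x : S), x ∈ L →
    eta H L (n + 1) x ≤ eta H L n x := by
  intro n
  induction n with
  | zero =>
    intro x hx
    have h1 : eta H L 1 x = ∑ y ∈ L, H x y := by
      show ∑ y ∈ L, H x y * eta H L 0 y = _
      exact Finset.sum_congr rfl fun y _ => mul_one _
    have h2 : ∑ y ∈ L, H x y ≤ ∑ y ∈ K, H x y :=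
      Finset.sum_le_sum_of_subset_of_nonneg hL fun y hy _ => (h.hH x (hL hx) y hy).1
    have h3 := h.he x (hL hx)
    show eta H L 1 x ≤ 1
    rw [h1]
    linarith [h3.1, h3.2]
  | succ n ih =>
    intro x hx
    show ∑ y ∈ L, H x y * eta H L (n + 1) y ≤ ∑ y ∈ L, H x y * eta H L n y
    exact Finset.sum_le_sum fun y hy =>
      mul_le_mul_of_nonneg_left (ih y hy) (h.hH x (hL hx) y (hL hy)).1

theorem eta_sum (h : Hyp K H e u) {L : Finset S} (hL : L ⊆ K) : ∀ (n : ℕ) (x : S), x ∈ L →
    ∑ k ∈ Finset.range n, eta H L k x ≤ u x := by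
  intro n
  induction n with
  | zero =>
    intro x hx
    rw [Finset.range_zero, Finset.sum_empty]
    exact (h.hu x (hL hx)).1
  | succ n ih =>
    intro x hx
    rw [Finset.sum_range_succ']
    have h1 : ∑ k ∈ Finset.range n, eta H L (k + 1) x =
        ∑ y ∈ L, H x y * ∑ k ∈ Finset.range n, eta H L k y := by
      simp only [Finset.mul_sum]
      rw [Finset.sum_comm]
      rfl
    have h2 : ∑ y ∈ L, H x y * ∑ k ∈ Finset.range n, eta H L k y ≤ ∑ y ∈ L, H x y * u y :=
      Finset.sum_le_sum fun y hy => mul_le_mul_of_nonneg_left (ih y hy)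
        (h.hH x (hL hx) y (hL hy)).1
    have h3 : ∑ y ∈ L, H x y * u y ≤ ∑ y ∈ K, H x y * u y :=
      Finset.sum_le_sum_of_subset_of_nonneg hL fun y hy _ =>
        mul_nonneg (h.hH x (hL hx) y hy).1 (h.hu y hy).1
    have h4 := (h.hu x (hL hx)).2
    rw [h1]
    show _ + 1 ≤ u x
    linarith

theorem eta_lim (h : Hyp K H e u) {L : Finset S} (hL : L ⊆ K) {x : S} (hx : x ∈ L) :
    Tendsto (fun n => eta H L n x) atTop (𝓝 0) := by
  have h1 : ∀ n : ℕ, (n : ℝ) * eta H L n x ≤ u x := by
    intro n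
    have h2 := eta_sum h hL n x hx
    have h3 : ∑ k ∈ Finset.range n, eta H L n x ≤ ∑ k ∈ Finset.range n, eta H L k x := by
      refine Finset.sum_le_sum fun k hk => ?_
      have h4 : Antitone fun n => eta H L n x := antitone_nat_of_succ_le fun n =>
        eta_anti h hL n x hx
      exact h4 (Finset.mem_range.1 hk).le
    rw [Finset.sum_const, Finset.card_range, nsmul_eq_mul] at h3
    exact h3.trans h2
  have h2 : Tendsto (fun n : ℕ => u x / (n : ℝ)) atTop (𝓝 0) :=
    tendsto_const_div_atTop_nhds_zero_nat (u x)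
  refine tendsto_of_tendsto_of_tendsto_of_le_of_le' tendsto_const_nhds h2
    (Eventually.of_forall fun n => eta_nonneg h hL n x hx) ?_
  filter_upwards [eventually_gt_atTop 0] with n hn
  rw [le_div_iff₀ (by exact_mod_cast hn), mul_comm]
  exact h1 n

theorem V_lim (h : Hyp K H e u) {L : Finset S} (hL : L ⊆ K) (F : S → ℝ)
    (hF : ∀ x ∈ L, 0 ≤ F x ∧ F x ≤ 1 ∧ F x = e x + ∑ y ∈ L, H x y * F y) {x : S} (hx : x ∈ L) :
    Tendsto (fun n => V K H e L n x) atTop (𝓝 (F x)) := by
  have h1 : ∀ (n : ℕ) (x : S), x ∈ L → 0 ≤ F x - V K H e L n x ∧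
      F x - V K H e L n x ≤ eta H L n x := by
    intro n
    induction n with
    | zero =>
      intro x hx
      have h2 : V K H e L 0 x = 0 := Finset.sum_eq_zero fun T _ => rfl
      rw [h2, sub_zero]
      exact ⟨(hF x hx).1, (hF x hx).2.1⟩
    | succ n ih =>
      intro x hx
      have h2 : F x - V K H e L (n + 1) x = ∑ y ∈ L, H x y * (F y - V K H e L n y) := by
        rw [V_succ hL hx, (hF x hx).2.2]
        simp only [mul_sub, Finset.sum_sub_distrib]
        ring
      rw [h2]
      refine ⟨Finset.sum_nonneg fun y hy => mul_nonneg (h.hH x (hL hx) y (hL hy)).1 (ih y hy).1,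
        ?_⟩
      exact Finset.sum_le_sum fun y hy => mul_le_mul_of_nonneg_left (ih y hy).2
        (h.hH x (hL hx) y (hL hy)).1
  have h2 : Tendsto (fun n => F x - V K H e L n x) atTop (𝓝 0) :=
    tendsto_of_tendsto_of_tendsto_of_le_of_le tendsto_const_nhds (eta_lim h hL hx)
      (fun n => (h1 n x hx).1) fun n => (h1 n x hx).2
  have h3 : Tendsto (fun n => F x - (F x - V K H e L n x)) atTop (𝓝 (F x - 0)) :=
    tendsto_const_nhds.sub h2
  simpa using h3

theorem V_le_one (h : Hyp K H e u) : ∀ (n : ℕ) (x : S), x ∈ K → V K H e K n x ≤ 1 := by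
  intro n
  induction n with
  | zero =>
    intro x _
    have h2 : V K H e K 0 x = 0 := Finset.sum_eq_zero fun T _ => rfl
    rw [h2]
    exact zero_le_one
  | succ n ih =>
    intro x hx
    rw [V_succ (Finset.Subset.refl K) hx, ← (h.he x hx).2]
    refine add_le_add le_rfl (Finset.sum_le_sum fun y hy => ?_)
    calc H x y * V K H e K n y ≤ H x y * 1 :=
          mul_le_mul_of_nonneg_left (ih y hy) (h.hH x hx y hy).1
      _ = H x y := mul_one _

theorem W_le_one (h : Hyp K H e u) (n : ℕ) {x : S} (hx : x ∈ K) {T : Finset S} (hT : T ⊆ K) :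
    W K H e n x T ≤ 1 :=
  (Finset.single_le_sum (f := fun T => W K H e n x T) (fun T' _ => W_nonneg h n x hx T')
    (Finset.mem_powerset.2 hT)).trans (V_le_one h n x hx)

/-- the limit weight -/
def Wl (K : Finset S) (H : S → S → ℝ) (e : S → ℝ) (x : S) (T : Finset S) : ℝ :=
  if x ∈ K ∧ T ⊆ K then ⨆ n, W K H e n x T else 0

theorem Wl_tendsto (h : Hyp K H e u) {x : S} (hx : x ∈ K) {T : Finset S} (hT : T ⊆ K) :
    Tendsto (fun n => W K H e n x T) atTop (𝓝 (Wl K H e x T)) := by
  rw [Wl, if_pos ⟨hx, hT⟩]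
  refine tendsto_atTop_ciSup (monotone_nat_of_le_succ fun n => W_mono h n x hx T) ?_
  refine ⟨1, ?_⟩
  rintro _ ⟨n, rfl⟩
  exact W_le_one h n hx hT

theorem W_le_Wl (h : Hyp K H e u) (n : ℕ) {x : S} (hx : x ∈ K) {T : Finset S} (hT : T ⊆ K) :
    W K H e n x T ≤ Wl K H e x T :=
  (monotone_nat_of_le_succ fun n => W_mono h n x hx T).ge_of_tendsto (Wl_tendsto h hx hT) n

theorem Wl_nonneg (h : Hyp K H e u) (x : S) (T : Finset S) : 0 ≤ Wl K H e x T := by
  by_cases hx : x ∈ K ∧ T ⊆ K
  · exact (W_nonneg h 0 x hx.1 T).trans (W_le_Wl h 0 hx.1 hx.2)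
  · rw [Wl, if_neg hx]

theorem Wl_zero (h : Hyp K H e u) {x : S} {T : Finset S} (hx : x ∉ T) : Wl K H e x T = 0 := by
  rw [Wl]
  split_ifs
  · have h1 : ∀ n, W K H e n x T = 0 := fun n => W_zero n x T hx
    simp only [h1, ciSup_const]
  · rfl

theorem Wl_sum (h : Hyp K H e u) {L : Finset S} (hL : L ⊆ K) (F : S → ℝ)
    (hF : ∀ x ∈ L, 0 ≤ F x ∧ F x ≤ 1 ∧ F x = e x + ∑ y ∈ L, H x y * F y) {x : S} (hx : x ∈ L) :
    ∑ T ∈ L.powerset, Wl K H e x T = F x := by
  have h1 : Tendsto (fun n => V K H e L n x) atTop (𝓝 (∑ T ∈ L.powerset, Wl K H e x T)) :=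
    tendsto_finsetSum _ fun T hT =>
      Wl_tendsto h (hL hx) ((Finset.mem_powerset.1 hT).trans hL)
  exact tendsto_nhds_unique h1 (V_lim h hL F hF hx)

theorem Wl_rec (h : Hyp K H e u) {x : S} (hx : x ∈ K) {T : Finset S} (hT : T ⊆ K) :
    Wl K H e x T = (if T = {x} then e x else 0) +
      ∑ y ∈ K, H x y * ∑ T' ∈ K.powerset, if insert x T' = T then Wl K H e y T' else 0 := by
  have h1 : Tendsto (fun n => W K H e (n + 1) x T) atTop (𝓝 (Wl K H e x T)) :=
    (tendsto_add_atTop_iff_nat 1).2 (Wl_tendsto h hx hT)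
  refine tendsto_nhds_unique h1 ?_
  simp only [W]
  refine tendsto_const_nhds.add (tendsto_finsetSum _ fun y hy => Tendsto.const_mul _
    (tendsto_finsetSum _ fun T' hT' => ?_))
  split_ifs
  · exact Wl_tendsto h hy (Finset.mem_powerset.1 hT')
  · exact tendsto_const_nhds

/-- the weights of the subsets -/
def w (K : Finset S) (H : S → S → ℝ) (e : S → ℝ) (T : Finset S) : ℝ :=
  ∑ x ∈ K, e x * Wl K H e x T

theorem w_nonneg (h : Hyp K H e u) (T : Finset S) : 0 ≤ w K H e T :=
  Finset.sum_nonneg fun x hx => mul_nonneg (h.he x hx).1 (Wl_nonneg h x T)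

theorem w_sum (h : Hyp K H e u) {L : Finset S} (hL : L ⊆ K) (F : S → ℝ)
    (hF : ∀ x ∈ L, 0 ≤ F x ∧ F x ≤ 1 ∧ F x = e x + ∑ y ∈ L, H x y * F y) :
    ∑ T ∈ L.powerset, w K H e T = ∑ x ∈ L, e x * F x := by
  unfold w
  rw [Finset.sum_comm]
  simp only [← Finset.mul_sum]
  have h1 : ∀ x ∈ L, e x * F x = e x * ∑ T ∈ L.powerset, Wl K H e x T := fun x hx => by
    rw [Wl_sum h hL F hF hx]
  rw [Finset.sum_congr rfl h1]
  symm
  refine Finset.sum_subset hL fun x _ hx => ?_
  rw [Finset.sum_eq_zero, mul_zero]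
  intro T hT
  exact Wl_zero h fun h2 => hx (Finset.mem_powerset.1 hT h2)

theorem void (h : Hyp K H e u) (E : Finset S → S → ℝ)
    (hE : ∀ K' ⊆ K, ∀ x ∈ K, 0 ≤ E K' x ∧ E K' x ≤ 1 ∧
      E K' x = e x + ∑ y ∈ K \ K', H x y * E K' y) (K' : Finset S) (hK' : K' ⊆ K) :
    ∑ T ∈ K.powerset with ¬ Disjoint T K', w K H e T = ∑ x ∈ K', E K' x := by
  have hsub : K \ K' ⊆ K := Finset.sdiff_subset
  have h1 : ∑ T ∈ K.powerset, w K H e T = ∑ x ∈ K, e x := by
    rw [w_sum h (Finset.Subset.refl K) (fun _ => 1)]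
    · exact Finset.sum_congr rfl fun x _ => mul_one _
    · intro x hx
      refine ⟨zero_le_one, le_rfl, ?_⟩
      rw [← (h.he x hx).2]
      congr 1
      exact Finset.sum_congr rfl fun y _ => by rw [(h.he x hx).2, mul_one]
  have h2 : ∑ T ∈ K.powerset with Disjoint T K', w K H e T =
      ∑ x ∈ K \ K', e x * E K' x := by
    rw [← w_sum h hsub (E K') fun x hx => hE K' hK' x (hsub hx)]
    refine Finset.sum_congr ?_ fun _ _ => rfl
    ext T
    rw [Finset.mem_filter, Finset.mem_powerset, Finset.mem_powerset, Finset.subset_sdiff]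
  have h3 := Finset.sum_filter_add_sum_filter_not K.powerset (fun T => Disjoint T K')
    (fun T => w K H e T)
  rw [h1, h2] at h3
  -- the algebra
  have h4 : ∑ x ∈ K, E K' x = ∑ x ∈ K, e x + ∑ y ∈ K \ K', (1 - e y) * E K' y := by
    have h5 : ∑ x ∈ K, E K' x = ∑ x ∈ K, (e x + ∑ y ∈ K \ K', H x y * E K' y) :=
      Finset.sum_congr rfl fun x hx => (hE K' hK' x hx).2.2
    rw [h5, Finset.sum_add_distrib, Finset.sum_comm]
    congr 1
    refine Finset.sum_congr rfl fun y hy => ?_
    rw [← Finset.sum_mul]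
    congr 1
    have h6 := (h.he y (hsub hy)).2
    have h7 : ∑ x ∈ K, H x y = ∑ x ∈ K, H y x :=
      Finset.sum_congr rfl fun x hx => (h.hH x hx y (hsub hy)).2
    rw [h7]
    linarith
  have h5 : ∑ x ∈ K \ K', E K' x + ∑ x ∈ K', E K' x = ∑ x ∈ K, E K' x :=
    Finset.sum_sdiff hK'
  have h6 : ∑ y ∈ K \ K', (1 - e y) * E K' y =
      ∑ y ∈ K \ K', E K' y - ∑ y ∈ K \ K', e y * E K' y := by
    rw [← Finset.sum_sub_distrib]
    exact Finset.sum_congr rfl fun y _ => by ring
  linarith

/-! ### splitting -/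

/-- one side of the splitting inequality -/
def RS (K1 K2 : Finset S) (f g : Finset S → ℝ) (T : Finset S) : ℝ :=
  ∑ P ∈ K1.powerset.erase ∅, ∑ R ∈ (K1 ∪ K2).powerset with ¬ Disjoint R K2,
    (if P ∪ R = T then f P * g R else 0)

theorem RS_nonneg {K1 K2 : Finset S} {f g : Finset S → ℝ} (hf : ∀ P, 0 ≤ f P)
    (hg : ∀ R, 0 ≤ g R) (T : Finset S) : 0 ≤ RS K1 K2 f g T :=
  Finset.sum_nonneg fun P _ => Finset.sum_nonneg fun R _ => by
    split_ifs
    · exact mul_nonneg (hf P) (hg R)
    · exact le_rfl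

theorem RS_mono {K1 K2 : Finset S} {f f' g : Finset S → ℝ}
    (hf : ∀ P ∈ K1.powerset.erase ∅, f P ≤ f' P)
    (hg : ∀ R, 0 ≤ g R) (T : Finset S) : RS K1 K2 f g T ≤ RS K1 K2 f' g T :=
  Finset.sum_le_sum fun P hP => Finset.sum_le_sum fun R _ => by
    split_ifs
    · exact mul_le_mul_of_nonneg_right (hf P hP) (hg R)
    · exact le_rfl

theorem RS_add {K1 K2 : Finset S} (f f' g : Finset S → ℝ) (T : Finset S) :
    RS K1 K2 (fun P => f P + f' P) g T = RS K1 K2 f g T + RS K1 K2 f' g T := by
  unfold RS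
  rw [← Finset.sum_add_distrib]
  refine Finset.sum_congr rfl fun P _ => ?_
  rw [← Finset.sum_add_distrib]
  refine Finset.sum_congr rfl fun R _ => ?_
  split_ifs
  · ring
  · ring

theorem RS_sum {K1 K2 : Finset S} {ι : Type} (s : Finset ι) (c : ι → ℝ) (f : ι → Finset S → ℝ)
    (g : Finset S → ℝ) (T : Finset S) :
    RS K1 K2 (fun P => ∑ i ∈ s, c i * f i P) g T = ∑ i ∈ s, c i * RS K1 K2 (f i) g T := by
  unfold RS
  have h1 : ∀ P ∈ K1.powerset.erase ∅,
      ∑ R ∈ (K1 ∪ K2).powerset with ¬ Disjoint R K2,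
        (if P ∪ R = T then (∑ i ∈ s, c i * f i P) * g R else 0) =
      ∑ i ∈ s, ∑ R ∈ (K1 ∪ K2).powerset with ¬ Disjoint R K2,
        c i * (if P ∪ R = T then f i P * g R else 0) := by
    intro P _
    rw [Finset.sum_comm (s := s)]
    refine Finset.sum_congr rfl fun R _ => ?_
    split_ifs
    · rw [Finset.sum_mul]
      exact Finset.sum_congr rfl fun i _ => by ring
    · simp
  rw [Finset.sum_congr rfl h1, Finset.sum_comm]
  refine Finset.sum_congr rfl fun i _ => ?_
  simp only [Finset.mul_sum]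

/-- the term which comes from `P = {x}` -/
theorem RS_single {K1 K2 : Finset S} {x : S} (hx : x ∈ K1) (a : ℝ) (g : Finset S → ℝ)
    (T : Finset S) : RS K1 K2 (fun P => if P = {x} then a else 0) g T =
      ∑ R ∈ (K1 ∪ K2).powerset with ¬ Disjoint R K2, if insert x R = T then a * g R else 0 := by
  unfold RS
  have hmem : ({x} : Finset S) ∈ K1.powerset.erase ∅ := by
    rw [Finset.mem_erase]
    exact ⟨Finset.singleton_ne_empty x, Finset.mem_powerset.2 (Finset.singleton_subset_iff.2 hx)⟩
  rw [Finset.sum_eq_single_of_mem {x} hmem]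
  · refine Finset.sum_congr rfl fun R _ => ?_
    beta_reduce
    rw [if_pos rfl, Finset.insert_eq]
  · intro P _ hP
    refine Finset.sum_eq_zero fun R _ => ?_
    beta_reduce
    rw [if_neg hP]
    simp

/-- the regrouping `P' ↦ insert x P'` -/
theorem RS_insert {K1 K2 : Finset S} {x : S} (hx : x ∈ K1) (f g : Finset S → ℝ)
    {T : Finset S} : RS K1 K2 (fun P => ∑ P' ∈ K1.powerset.erase ∅,
        if insert x P' = P then f P' else 0) g T =
      ∑ T' ∈ (K1 ∪ K2).powerset, if insert x T' = T then RS K1 K2 f g T' else 0 := by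
  unfold RS
  -- left: ∑_P ∑_R [P ∪ R = T] (∑_{P'} [insert x P' = P] f P') g R
  have hL : ∑ P ∈ K1.powerset.erase ∅, ∑ R ∈ (K1 ∪ K2).powerset with ¬ Disjoint R K2,
      (if P ∪ R = T then (∑ P' ∈ K1.powerset.erase ∅, if insert x P' = P then f P' else 0) * g R
        else 0) =
      ∑ P' ∈ K1.powerset.erase ∅, ∑ R ∈ (K1 ∪ K2).powerset with ¬ Disjoint R K2,
        (if insert x P' ∪ R = T then f P' * g R else 0) := by
    rw [Finset.sum_comm]
    have h1 : ∀ R ∈ ((K1 ∪ K2).powerset.filter fun R => ¬ Disjoint R K2),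
        ∑ P ∈ K1.powerset.erase ∅, (if P ∪ R = T then
          (∑ P' ∈ K1.powerset.erase ∅, if insert x P' = P then f P' else 0) * g R else 0) =
        ∑ P' ∈ K1.powerset.erase ∅, (if insert x P' ∪ R = T then f P' * g R else 0) := by
      intro R _
      have h2 : ∀ P ∈ K1.powerset.erase ∅, (if P ∪ R = T then
          (∑ P' ∈ K1.powerset.erase ∅, if insert x P' = P then f P' else 0) * g R else 0) =
          ∑ P' ∈ K1.powerset.erase ∅, (if insert x P' = P then
            (if insert x P' ∪ R = T then f P' * g R else 0) else 0) := by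
        intro P _
        split_ifs with h3
        · rw [Finset.sum_mul]
          refine Finset.sum_congr rfl fun P' _ => ?_
          by_cases h4 : insert x P' = P
          · rw [if_pos h4, if_pos h4, h4, if_pos h3]
          · rw [if_neg h4, if_neg h4, zero_mul]
        · symm
          refine Finset.sum_eq_zero fun P' _ => ?_
          by_cases h4 : insert x P' = P
          · rw [if_pos h4, h4, if_neg h3]
          · rw [if_neg h4]
      rw [Finset.sum_congr rfl h2, Finset.sum_comm]
      refine Finset.sum_congr rfl fun P' hP' => ?_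
      rw [Finset.sum_ite_eq, if_pos]
      rw [Finset.mem_erase, Finset.mem_powerset] at hP' ⊢
      exact ⟨Finset.insert_ne_empty _ _, Finset.insert_subset hx hP'.2⟩
    rw [Finset.sum_congr rfl h1, Finset.sum_comm]
  rw [hL]
  -- right
  have hR : ∀ T' ∈ (K1 ∪ K2).powerset, (if insert x T' = T then
      ∑ P ∈ K1.powerset.erase ∅, ∑ R ∈ (K1 ∪ K2).powerset with ¬ Disjoint R K2,
        (if P ∪ R = T' then f P * g R else 0) else 0) =
      ∑ P ∈ K1.powerset.erase ∅, ∑ R ∈ (K1 ∪ K2).powerset with ¬ Disjoint R K2,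
        (if P ∪ R = T' then (if insert x (P ∪ R) = T then f P * g R else 0) else 0) := by
    intro T' _
    by_cases h1 : insert x T' = T
    · rw [if_pos h1]
      refine Finset.sum_congr rfl fun P _ => Finset.sum_congr rfl fun R _ => ?_
      by_cases h2 : P ∪ R = T'
      · rw [if_pos h2, if_pos h2, h2, if_pos h1]
      · rw [if_neg h2, if_neg h2]
    · rw [if_neg h1]
      symm
      refine Finset.sum_eq_zero fun P _ => Finset.sum_eq_zero fun R _ => ?_
      by_cases h2 : P ∪ R = T'
      · rw [if_pos h2, h2, if_neg h1]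
      · rw [if_neg h2]
  rw [Finset.sum_congr rfl hR]
  symm
  rw [Finset.sum_comm]
  refine Finset.sum_congr rfl fun P hP => ?_
  rw [Finset.sum_comm]
  refine Finset.sum_congr rfl fun R hR' => ?_
  rw [Finset.sum_ite_eq, if_pos]
  · rw [Finset.insert_union]
  · rw [Finset.mem_filter, Finset.mem_powerset] at hR'
    rw [Finset.mem_erase, Finset.mem_powerset] at hP
    exact Finset.mem_powerset.2 (Finset.union_subset (hP.2.trans Finset.subset_union_left) hR'.1)

theorem split_step (h : Hyp K H e u) {K1 K2 : Finset S} {κ : ℝ} (hK : K1 ∪ K2 = K)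
    (hd : Disjoint K1 K2) (hκ : 0 ≤ κ) (hc : ∀ x ∈ K1, ∀ y ∈ K2, H x y ≤ κ * e x * e y) :
    ∀ (n : ℕ) (x : S), x ∈ K1 → ∀ T ⊆ K, ¬ Disjoint T K2 →
      W K H e n x T ≤ κ * RS K1 K2 (Wl K H e x) (w K H e) T := by
  have h1K : K1 ⊆ K := hK ▸ Finset.subset_union_left
  have h2K : K2 ⊆ K := hK ▸ Finset.subset_union_right
  intro n
  induction n with
  | zero =>
    intro x hx T _ _
    exact mul_nonneg hκ (RS_nonneg (Wl_nonneg h x) (w_nonneg h) T)
  | succ n ih =>
    intro x hx T hT hTd
    have hxK := h1K hx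
    rw [W]
    have hne : T ≠ {x} := by
      rintro rfl
      apply hTd
      rw [Finset.disjoint_singleton_left]
      exact Finset.disjoint_left.1 hd hx
    rw [if_neg hne, zero_add]
    -- split the sum over y
    have hsplit : ∑ y ∈ K, H x y * ∑ T' ∈ K.powerset, (if insert x T' = T then W K H e n y T'
          else 0) =
        ∑ y ∈ K1, H x y * ∑ T' ∈ K.powerset, (if insert x T' = T then W K H e n y T' else 0) +
        ∑ y ∈ K2, H x y * ∑ T' ∈ K.powerset, (if insert x T' = T then W K H e n y T' else 0) := by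
      rw [← Finset.sum_union hd, hK]
    rw [hsplit]
    -- y ∈ K2
    have hB : ∑ y ∈ K2, H x y * ∑ T' ∈ K.powerset, (if insert x T' = T then W K H e n y T'
        else 0) ≤ κ * RS K1 K2 (fun P => if P = {x} then e x else 0) (w K H e) T := by
      rw [RS_single hx, hK, Finset.mul_sum]
      calc ∑ y ∈ K2, H x y * ∑ T' ∈ K.powerset, (if insert x T' = T then W K H e n y T' else 0)
          ≤ ∑ y ∈ K2, (κ * e x * e y) * ∑ R ∈ K.powerset with ¬ Disjoint R K2,
              (if insert x R = T then Wl K H e y R else 0) := by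
            refine Finset.sum_le_sum fun y hy => ?_
            have hyK := h2K hy
            refine mul_le_mul (hc x hx y hy) ?_ (Finset.sum_nonneg fun T' _ => ?_)
              (mul_nonneg (mul_nonneg hκ (h.he x hxK).1) (h.he y hyK).1)
            · rw [Finset.sum_filter]
              refine Finset.sum_le_sum fun T' hT' => ?_
              by_cases hd' : Disjoint T' K2
              · have hy' : y ∉ T' := fun h3 => Finset.disjoint_left.1 hd' h3 hy
                rw [W_zero n y T' hy', if_neg (not_not.2 hd'), ite_self]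
              · rw [if_pos hd']
                split_ifs
                · exact W_le_Wl h n hyK (Finset.mem_powerset.1 hT')
                · exact le_rfl
            · split_ifs
              · exact W_nonneg h n y hyK T'
              · exact le_rfl
        _ = ∑ R ∈ K.powerset with ¬ Disjoint R K2, κ * (if insert x R = T then
              e x * ∑ y ∈ K2, e y * Wl K H e y R else 0) := by
            simp only [Finset.mul_sum]
            rw [Finset.sum_comm]
            refine Finset.sum_congr rfl fun R _ => ?_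
            split_ifs
            · rw [Finset.mul_sum]
              refine Finset.sum_congr rfl fun y _ => ?_
              ring
            · simp
        _ ≤ ∑ R ∈ K.powerset with ¬ Disjoint R K2, κ * (if insert x R = T then
              e x * w K H e R else 0) := by
            refine Finset.sum_le_sum fun R _ => mul_le_mul_of_nonneg_left ?_ hκ
            split_ifs
            · refine mul_le_mul_of_nonneg_left ?_ (h.he x hxK).1
              exact Finset.sum_le_sum_of_subset_of_nonneg h2K fun y hy _ =>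
                mul_nonneg (h.he y hy).1 (Wl_nonneg h y R)
            · exact le_rfl
    -- y ∈ K1
    have hA : ∑ y ∈ K1, H x y * ∑ T' ∈ K.powerset, (if insert x T' = T then W K H e n y T'
        else 0) ≤ κ * RS K1 K2 (fun P => ∑ y ∈ K1, H x y * ∑ P' ∈ K1.powerset.erase ∅,
          if insert x P' = P then Wl K H e y P' else 0) (w K H e) T := by
      rw [RS_sum, Finset.mul_sum]
      refine Finset.sum_le_sum fun y hy => ?_
      rw [RS_insert hx, hK]
      rw [mul_left_comm]
      refine mul_le_mul_of_nonneg_left ?_ (h.hH x hxK y (h1K hy)).1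
      rw [Finset.mul_sum]
      refine Finset.sum_le_sum fun T' hT' => ?_
      by_cases h3 : insert x T' = T
      · rw [if_pos h3, if_pos h3]
        refine ih y hy T' (Finset.mem_powerset.1 hT') fun hd' => hTd ?_
        rw [← h3, Finset.disjoint_insert_left]
        exact ⟨Finset.disjoint_left.1 hd hx, hd'⟩
      · rw [if_neg h3, if_neg h3, mul_zero]
    -- together
    have hC : RS K1 K2 (fun P => if P = {x} then e x else 0) (w K H e) T +
        RS K1 K2 (fun P => ∑ y ∈ K1, H x y * ∑ P' ∈ K1.powerset.erase ∅,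
          if insert x P' = P then Wl K H e y P' else 0) (w K H e) T ≤
        RS K1 K2 (Wl K H e x) (w K H e) T := by
      rw [← RS_add]
      refine RS_mono (fun P hP => ?_) (w_nonneg h) T
      rw [Finset.mem_erase, Finset.mem_powerset] at hP
      rw [Wl_rec h hxK (hP.2.trans h1K)]
      refine add_le_add le_rfl ?_
      calc ∑ y ∈ K1, H x y * ∑ P' ∈ K1.powerset.erase ∅,
            (if insert x P' = P then Wl K H e y P' else 0)
          ≤ ∑ y ∈ K1, H x y * ∑ P' ∈ K.powerset,
            (if insert x P' = P then Wl K H e y P' else 0) := by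
            refine Finset.sum_le_sum fun y hy => mul_le_mul_of_nonneg_left ?_
              (h.hH x hxK y (h1K hy)).1
            refine Finset.sum_le_sum_of_subset_of_nonneg ?_ fun P' _ _ => ?_
            · exact (Finset.erase_subset _ _).trans (Finset.powerset_mono.2 h1K)
            · split_ifs
              · exact Wl_nonneg h y P'
              · exact le_rfl
        _ ≤ ∑ y ∈ K, H x y * ∑ P' ∈ K.powerset,
            (if insert x P' = P then Wl K H e y P' else 0) := by
            refine Finset.sum_le_sum_of_subset_of_nonneg h1K fun y hy _ =>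
              mul_nonneg (h.hH x hxK y hy).1 (Finset.sum_nonneg fun P' _ => ?_)
            split_ifs
            · exact Wl_nonneg h y P'
            · exact le_rfl
    have hD := mul_le_mul_of_nonneg_left hC hκ
    rw [mul_add] at hD
    linarith

theorem split_half (h : Hyp K H e u) {K1 K2 : Finset S} {κ : ℝ} (hK : K1 ∪ K2 = K)
    (hd : Disjoint K1 K2) (hκ : 0 ≤ κ) (hc : ∀ x ∈ K1, ∀ y ∈ K2, H x y ≤ κ * e x * e y)
    {T : Finset S} (hT : T ⊆ K) (hTd : ¬ Disjoint T K2) :
    ∑ x ∈ K1, e x * Wl K H e x T ≤ κ * RS K1 K2 (w K H e) (w K H e) T := by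
  have h1K : K1 ⊆ K := hK ▸ Finset.subset_union_left
  have h1 : ∀ x ∈ K1, Wl K H e x T ≤ κ * RS K1 K2 (Wl K H e x) (w K H e) T := by
    intro x hx
    exact le_of_tendsto' (Wl_tendsto h (h1K hx) hT) fun n =>
      split_step h hK hd hκ hc n x hx T hT hTd
  calc ∑ x ∈ K1, e x * Wl K H e x T
      ≤ ∑ x ∈ K1, e x * (κ * RS K1 K2 (Wl K H e x) (w K H e) T) :=
        Finset.sum_le_sum fun x hx => mul_le_mul_of_nonneg_left (h1 x hx) (h.he x (h1K hx)).1
    _ = κ * RS K1 K2 (fun P => ∑ x ∈ K1, e x * Wl K H e x P) (w K H e) T := by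
        rw [RS_sum, Finset.mul_sum]
        exact Finset.sum_congr rfl fun x _ => by ring
    _ ≤ κ * RS K1 K2 (w K H e) (w K H e) T := by
        refine mul_le_mul_of_nonneg_left (RS_mono (fun P _ => ?_) (w_nonneg h) T) hκ
        exact Finset.sum_le_sum_of_subset_of_nonneg h1K fun y hy _ =>
          mul_nonneg (h.he y hy).1 (Wl_nonneg h y P)

end G6x

open G6x in
theorem G6 : St_G6 := by
  intro S _ K H e u E hH he hu hE
  have h : Hyp K H e u := ⟨hH, he, hu⟩
  refine ⟨w K H e, w_nonneg h, void h E hE, ?_⟩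
  intro K1 K2 κ hK hd hκ hc T hT hT1 hT2
  rw [hK] at hT
  have hcK2 : ∀ x ∈ K2, ∀ y ∈ K1, H x y ≤ κ * e x * e y := by
    intro x hx y hy
    have h1 := hc y hy x hx
    have h2 := (hH x (hK ▸ Finset.mem_union_right _ hx) y (hK ▸ Finset.mem_union_left _ hy)).2
    rw [h2]
    calc H y x ≤ κ * e y * e x := h1
      _ = κ * e x * e y := by ring
  have hw : w K H e T = ∑ x ∈ K1, e x * Wl K H e x T + ∑ x ∈ K2, e x * Wl K H e x T := by
    rw [← Finset.sum_union hd, hK]
    rfl
  have h1 := split_half h hK hd hκ hc hT hT2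
  have h2 := split_half h ((Finset.union_comm K2 K1).trans hK) hd.symm hκ hcK2 hT hT1
  unfold RS at h1 h2
  rw [Finset.union_comm K2 K1] at h2
  rw [hw, mul_add]
  exact add_le_add h1 h2

end PLS
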