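import Pool.Agent.PLS.StG

/-!
# PLS, module G7: the trace chain between two distant sets
-/

set_option autoImplicit false
set_option linter.unusedVariables false

open Finset Filter Topology MeasureTheory RInt

noncomputable section

namespace PLS

namespace G7x

variable {d : ℕ}

theorem mem_bx {n : ℕ} {x : Fin d → ℤ} : x ∈ RInt.box d n ↔
    ∀ i, -(n : ℤ) ≤ x i ∧ x i ≤ n := by
  unfold RInt.box
  rw [Fintype.mem_piFinset]
  simp only [Finset.mem_Icc]

theorem uvec_le (i : Fin d × Bool) (j : Fin d) : -1 ≤ (uvec i : Fin d → ℤ) j ∧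
    (uvec i : Fin d → ℤ) j ≤ 1 := by
  unfold uvec
  by_cases h : j = i.1
  · subst h
    split_ifs <;> simp
  · split_ifs
    · rw [Pi.single_eq_of_ne h]
      omega
    · rw [Pi.neg_apply, Pi.single_eq_of_ne h]
      omega

theorem box_succ {t : ℕ} {x z : Fin d → ℤ} (hx : x - z ∈ box d t) (i : Fin d × Bool) :
    x + uvec i - z ∈ box d (t + 1) := by
  rw [mem_bx] at hx ⊢
  intro j
  have h1 := hx j
  have h2 := uvec_le i j
  simp only [Pi.sub_apply, Pi.add_apply] at h1 ⊢
  push_cast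
  omega

theorem box_mono {n m : ℕ} (h : n ≤ m) {x : Fin d → ℤ} (hx : x ∈ box d n) : x ∈ box d m := by
  rw [mem_bx] at hx ⊢
  intro j
  have h1 := hx j
  omega

/-- the recursion of the sums -/
theorem U_succ (K : Finset (Fin d → ℤ)) (v : Fin d → ℤ) (n : ℕ) (x : Fin d → ℤ) :
    ∑ k ∈ Finset.range (n + 1), frt K k x v =
      (∑ i : Fin d × Bool, ((if x + uvec i = v then (1 : ℝ) else 0) +
        (open Classical in if x + uvec i ∈ K then 0 else
          ∑ k ∈ Finset.range n, frt K k (x + uvec i) v))) / (2 * d) := by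
  classical
  rw [Finset.sum_range_succ', Finset.sum_add_distrib, add_div, add_comm]
  refine congrArg₂ (· + ·) rfl ?_
  · have h1 : ∀ k ∈ Finset.range n, frt K (k + 1) x v =
        (∑ i : Fin d × Bool, if x + uvec i ∈ K then 0 else frt K k (x + uvec i) v) /
          (2 * d) := by
      intro k _
      rfl
    rw [Finset.sum_congr rfl h1, ← Finset.sum_div, Finset.sum_comm]
    congr 1
    refine Finset.sum_congr rfl fun i _ => ?_
    by_cases h : x + uvec i ∈ K
    · simp only [if_pos h, Finset.sum_const_zero]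
    · simp only [if_neg h]

/-- the induction in both steps -/
theorem step (hd : 1 ≤ d) (h2 : St_G2) (K : Finset (Fin d → ℤ)) (D : Set (Fin d → ℤ))
    (v : Fin d → ℤ) (κ : ℝ) (hκ : 0 ≤ κ) (hne : ∀ x ∈ D, ∀ i, x + uvec i ≠ v)
    (hout : ∀ x ∈ D, ∀ i, x + uvec i ∉ D → ∀ n,
      ∑ k ∈ Finset.range n, frt K k (x + uvec i) v ≤ κ * esc K (x + uvec i)) :
    ∀ n, ∀ x ∈ D, ∑ k ∈ Finset.range n, frt K k x v ≤ κ * esc K x := by
  classical
  obtain ⟨-, -, -, -, -, -, g7, g8⟩ := h2 d hd K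
  intro n
  induction n with
  | zero =>
    intro x _
    rw [Finset.sum_range_zero]
    exact mul_nonneg hκ (g8 x).2
  | succ n ih =>
    intro x hx
    rw [U_succ, g7 x, ← mul_div_assoc, Finset.mul_sum]
    apply div_le_div_of_nonneg_right _ (by positivity)
    refine Finset.sum_le_sum fun i _ => ?_
    rw [if_neg (hne x hx i), zero_add]
    by_cases h : x + uvec i ∈ K
    · rw [if_pos h, if_pos h, mul_zero]
    · rw [if_neg h, if_neg h]
      by_cases hD : x + uvec i ∈ D
      · exact ih _ hD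
      · exact hout x hx i hD n

end G7x

open G7x in
theorem G7 (h2 : St_G2) (h3 : St_G3) : St_G7 := by
  classical
  intro d g C c hd hg
  have hd1 : 1 ≤ d := by omega
  have hC : 0 < C := (hg.pos 0).trans_le (hg.bdd 0)
  have hc := hg.cpos
  obtain ⟨e, he⟩ : ∃ e : ℕ, e = d - 2 := ⟨_, rfl⟩
  have he1 : 1 ≤ e := by omega
  obtain ⟨M, hM24, hMC⟩ : ∃ M : ℕ, 24 ≤ M ∧ 64 * C / c ≤ M :=
    ⟨max 24 ⌈64 * C / c⌉₊, le_max_left _ _,
      (Nat.le_ceil _).trans (by exact_mod_cast le_max_right _ _)⟩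
  have hM0 : (0 : ℝ) < M := by exact_mod_cast (show 0 < M by omega)
  refine ⟨M, 4 * (C * 4 ^ e), by positivity, ?_⟩
  intro n r z1 z2 hn hr hz K1 K2 hK1 hK2
  obtain ⟨t, ht⟩ : ∃ t : ℕ, t = r / 4 := ⟨_, rfl⟩
  have hMn : 24 * n ≤ r := (Nat.mul_le_mul_right n hM24).trans hr
  have ht1 : 4 * t ≤ r := by omega
  have ht2 : r < 4 * t + 4 := by omega
  have h3t : 3 * n ≤ t := by omega
  have ht6 : 6 ≤ t := by omega
  have hr0 : (0 : ℝ) < r := by exact_mod_cast (show 0 < r by omega)
  obtain ⟨j, hj⟩ := hz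
  -- the two large boxes are disjoint
  have hdis : ∀ x : Fin d → ℤ, x - z1 ∈ box d (t + 1) → x - z2 ∈ box d (t + 1) → False := by
    intro x hx1 hx2
    rw [mem_bx] at hx1 hx2
    have a1 := hx1 j
    have a2 := hx2 j
    simp only [Pi.sub_apply] at a1 a2
    push_cast at a1 a2
    rcases abs_cases (z1 j - z2 j) with ⟨h, _⟩ | ⟨h, _⟩ <;> omega
  have hκ : (0 : ℝ) ≤ C * 4 ^ e / (r : ℝ) ^ e := by positivity
  -- the potential between the large boxes
  have hfar : ∀ x v : Fin d → ℤ, x - z2 ∈ box d (t + 1) → v - z1 ∈ box d (t + 1) →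
      g (x - v) ≤ C * 4 ^ e / (r : ℝ) ^ e := by
    intro x v hx hv
    have hnot : x - v ∉ box d (r - 2 * (t + 1) - 1) := by
      intro hb
      rw [mem_bx] at hx hv hb
      have a1 := hx j
      have a2 := hv j
      have a3 := hb j
      simp only [Pi.sub_apply] at a1 a2 a3
      push_cast at a1 a2 a3
      rcases abs_cases (z1 j - z2 j) with ⟨h, _⟩ | ⟨h, _⟩ <;> omega
    have h1 := hg.upper _ _ hnot
    rw [← he] at h1
    refine h1.trans ?_
    have h4 : (r : ℝ) / 4 ≤ ((r - 2 * (t + 1) - 1 : ℕ) : ℝ) + 1 := by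
      have h5 : r ≤ 4 * ((r - 2 * (t + 1) - 1) + 1) := by omega
      have h6 : (r : ℝ) ≤ 4 * (((r - 2 * (t + 1) - 1 : ℕ) : ℝ) + 1) := by exact_mod_cast h5
      linarith
    calc C / (((r - 2 * (t + 1) - 1 : ℕ) : ℝ) + 1) ^ e ≤ C / ((r : ℝ) / 4) ^ e := by
          apply div_le_div_of_nonneg_left hC.le (by positivity)
          exact pow_le_pow_left₀ (by positivity) h4 e
      _ = C * 4 ^ e / (r : ℝ) ^ e := by
          rw [div_pow]
          field_simp
  obtain ⟨K, hK⟩ : ∃ K : Finset (Fin d → ℤ), K = K1 ∪ K2 := ⟨_, rfl⟩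
  obtain ⟨g1, -, g3, g4, -, -, g7, g8⟩ := h2 d hd1 K
  obtain ⟨h31, h32⟩ := h3 d hd1 K
  -- points outside of the boxes escape
  have hesc : ∀ x : Fin d → ℤ, x - z1 ∉ box d t → x - z2 ∉ box d t → 1 / 2 ≤ esc K x := by
    intro x hx1 hx2
    have hs : ∀ z y : Fin d → ℤ, (∑ i : Fin d × Bool, g (y + uvec i - z)) / (2 * d) ≤
        g (y - z) := by
      intro z y
      have h := hg.super (y - z)
      have h' : (0 : ℝ) ≤ if y - z = 0 then 1 else 0 := by split_ifs <;> norm_num
      have e1 : ∀ i : Fin d × Bool, y + uvec i - z = y - z + uvec i := fun i => by abel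
      simp only [e1]
      linarith
    have hη : (0 : ℝ) < c / ((3 * n : ℕ) + 1 : ℝ) ^ e := by positivity
    have h5 := (h31 (fun y => g (y - z1) + g (y - z2))
      (fun y => add_nonneg (hg.pos _).le (hg.pos _).le) (fun y => by
        rw [Finset.sum_add_distrib, add_div]
        exact add_le_add (hs z1 y) (hs z2 y))).2.2.2
      (c / ((3 * n : ℕ) + 1 : ℝ) ^ e) hη (fun y hy => by
        rw [hK, Finset.mem_union] at hy
        rcases hy with hy | hy
        · have h6 := hg.lower (3 * n) _ (hK1 y hy)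
          rw [← he] at h6
          linarith [hg.pos (y - z2)]
        · have h6 := hg.lower (3 * n) _ (hK2 y hy)
          rw [← he] at h6
          linarith [hg.pos (y - z1)]) x
    have h6 := hg.upper t _ hx1
    have h7 := hg.upper t _ hx2
    rw [← he] at h6 h7
    have h8 : (g (x - z1) + g (x - z2)) / (c / ((3 * n : ℕ) + 1 : ℝ) ^ e) ≤ 1 / 2 := by
      rw [div_le_iff₀ hη]
      have h9 : g (x - z1) + g (x - z2) ≤ 2 * (C / (t + 1 : ℝ) ^ e) := by linarith
      refine h9.trans ?_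
      -- `2 C / (t+1)^e ≤ (1/2) c / (3n+1)^e`
      have h10 : (((3 * n : ℕ) : ℝ) + 1) * M ≤ 16 * (t + 1) := by
        have a1 : (3 * n + 1) * M ≤ 16 * (t + 1) := by
          have b1 : (3 * n + 1) * M ≤ (4 * n) * M := Nat.mul_le_mul_right M (by omega)
          have b2 : (4 * n) * M = 4 * (M * n) := by ring
          omega
        exact_mod_cast a1
      have ht0 : (0 : ℝ) < t + 1 := by positivity
      have hq : (((3 * n : ℕ) : ℝ) + 1) / (t + 1) ≤ 16 / M := by
        rw [div_le_div_iff₀ ht0 hM0]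
        exact h10
      have h16 : (16 : ℝ) / M ≤ 1 := by
        rw [div_le_one hM0]
        exact_mod_cast (show 16 ≤ M by omega)
      have hq2 : ((((3 * n : ℕ) : ℝ) + 1) / (t + 1)) ^ e ≤ 16 / M := by
        calc ((((3 * n : ℕ) : ℝ) + 1) / (t + 1)) ^ e ≤ (16 / M) ^ e :=
              pow_le_pow_left₀ (by positivity) hq e
          _ ≤ (16 / M) ^ 1 := pow_le_pow_of_le_one (by positivity) h16 he1
          _ = 16 / M := pow_one _
      have hq3 : C * (16 / M) ≤ c / 4 := by
        have b1 : 64 * C ≤ M * c := by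
          rw [div_le_iff₀ hc] at hMC
          exact hMC
        rw [mul_div_assoc', div_le_iff₀ hM0]
        linarith
      have hp : (0 : ℝ) < (((3 * n : ℕ) : ℝ) + 1) ^ e := by positivity
      have hp' : (0 : ℝ) < (t + 1 : ℝ) ^ e := by positivity
      have hq4 : C * ((((3 * n : ℕ) : ℝ) + 1) ^ e / (t + 1 : ℝ) ^ e) ≤ c / 4 := by
        rw [← div_pow]
        exact (mul_le_mul_of_nonneg_left hq2 hC.le).trans hq3
      have hq5 : C / (t + 1 : ℝ) ^ e ≤ c / 4 / (((3 * n : ℕ) : ℝ) + 1) ^ e := by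
        rw [le_div_iff₀ hp]
        calc C / (t + 1 : ℝ) ^ e * (((3 * n : ℕ) : ℝ) + 1) ^ e =
              C * ((((3 * n : ℕ) : ℝ) + 1) ^ e / (t + 1 : ℝ) ^ e) := by ring
          _ ≤ c / 4 := hq4
      calc 2 * (C / (t + 1 : ℝ) ^ e) ≤ 2 * (c / 4 / (((3 * n : ℕ) : ℝ) + 1) ^ e) :=
            mul_le_mul_of_nonneg_left hq5 (by norm_num)
        _ = 1 / 2 * (c / (((3 * n : ℕ) : ℝ) + 1) ^ e) := by ring
    linarith
  -- step 1
  have step1 : ∀ v : Fin d → ℤ, v - z1 ∈ box d (t + 1) → v - z1 ∉ box d t →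
      ∀ n, ∀ x : Fin d → ℤ, x - z2 ∈ box d t →
      ∑ k ∈ Finset.range n, frt K k x v ≤ 2 * (C * 4 ^ e / (r : ℝ) ^ e) * esc K x := by
    intro v hv hv'
    refine step hd1 h2 K {x | x - z2 ∈ box d t} v (2 * (C * 4 ^ e / (r : ℝ) ^ e)) (by positivity)
      ?_ ?_
    · intro x hx i h
      exact hdis v hv (h ▸ box_succ hx i)
    · intro x hx i hi n
      have h4 : x + uvec i - z2 ∈ box d (t + 1) := box_succ hx i
      have h5 := h32 g C c hg n (x + uvec i) v
      have h6 : (0 : ℝ) ≤ if x + uvec i = v then 1 else 0 := by split_ifs <;> norm_num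
      have h7 := hfar (x + uvec i) v h4 hv
      have h8 := hesc (x + uvec i)
        (fun h => hdis _ (box_mono (Nat.le_succ t) h) h4) hi
      nlinarith
  -- step 2
  have step2 : ∀ y ∈ K2, ∀ n, ∀ x : Fin d → ℤ, x - z1 ∈ box d t →
      ∑ k ∈ Finset.range n, frt K k x y ≤
        4 * (C * 4 ^ e / (r : ℝ) ^ e) * esc K y * esc K x := by
    intro y hy
    have hy2 : y - z2 ∈ box d t := box_mono h3t (hK2 y hy)
    refine step hd1 h2 K {x | x - z1 ∈ box d t} y (4 * (C * 4 ^ e / (r : ℝ) ^ e) * esc K y)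
      (mul_nonneg (by positivity) (g8 y).2) ?_ ?_
    · intro x hx i h
      exact hdis y (h ▸ box_succ hx i) (box_mono (Nat.le_succ t) hy2)
    · intro x hx i hi n
      have h4 : x + uvec i - z1 ∈ box d (t + 1) := box_succ hx i
      have h5 := step1 (x + uvec i) h4 hi n y hy2
      have h6 : ∑ k ∈ Finset.range n, frt K k (x + uvec i) y =
          ∑ k ∈ Finset.range n, frt K k y (x + uvec i) :=
        Finset.sum_congr rfl fun k _ => g3 k _ _
      rw [h6]
      have h8 := hesc (x + uvec i) hi (fun h => hdis _ h4 (box_mono (Nat.le_succ t) h))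
      have h9 : 0 ≤ (C * 4 ^ e / (r : ℝ) ^ e) * esc K y := mul_nonneg hκ (g8 y).2
      nlinarith
  refine ⟨?_, ?_⟩
  · rw [Finset.disjoint_left]
    intro x hx1 hx2
    exact hdis x (box_mono (by omega) (hK1 x hx1)) (box_mono (by omega) (hK2 x hx2))
  · intro x hx y hy
    rw [← hK]
    have h4 := Real.tsum_le_of_sum_range_le (fun n => g1 n x y)
      (fun n => step2 y hy n x (box_mono h3t (hK1 x hx)))
    unfold Hk
    refine h4.trans (le_of_eq ?_)
    rw [← he]
    ring

end PLS
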