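import Pool.Agent.PLS.StG

/-!
# PLS G8: invariance, monotonicity and subadditivity of the capacity, the bound for a box
-/

set_option autoImplicit false
set_option linter.unusedVariables false

open Finset Filter Topology MeasureTheory RInt

noncomputable section

namespace PLS

namespace G8x

variable {d : ℕ}

theorem noHit_image (σ : (Fin d → ℤ) ≃ (Fin d → ℤ)) (π : (Fin d × Bool) ≃ (Fin d × Bool))
    (h : ∀ x i, σ (x + uvec i) = σ x + uvec (π i)) (K : Finset (Fin d → ℤ)) (n : ℕ)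
    (x : Fin d → ℤ) : noHit (K.image σ) n (σ x) = noHit K n x := by
  induction n generalizing x with
  | zero => rfl
  | succ n ih =>
    rw [noHit, noHit]
    congr 1
    rw [← Equiv.sum_comp π]
    refine Finset.sum_congr rfl fun i _ => ?_
    rw [← h x i, ih]
    have h2 : σ (x + uvec i) ∈ K.image σ ↔ x + uvec i ∈ K := by
      rw [Finset.mem_image]
      constructor
      · rintro ⟨y, hy, he⟩
        rw [← σ.injective he]
        exact hy
      · exact fun h => ⟨_, h, rfl⟩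
    by_cases hK : x + uvec i ∈ K
    · rw [if_pos hK, if_pos (h2.2 hK)]
    · rw [if_neg hK, if_neg (fun h => hK (h2.1 h))]

theorem cap_image (σ : (Fin d → ℤ) ≃ (Fin d → ℤ)) (π : (Fin d × Bool) ≃ (Fin d × Bool))
    (h : ∀ x i, σ (x + uvec i) = σ x + uvec (π i)) (K : Finset (Fin d → ℤ)) :
    cap (K.image σ) = cap K := by
  unfold cap
  rw [Finset.sum_image (fun x _ y _ e => σ.injective e)]
  refine Finset.sum_congr rfl fun x _ => ?_
  unfold esc
  simp only [noHit_image σ π h]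

theorem noHit_mono {K K' : Finset (Fin d → ℤ)} (h : K ⊆ K') (n : ℕ) (x : Fin d → ℤ) :
    noHit K' n x ≤ noHit K n x := by
  induction n generalizing x with
  | zero => exact le_rfl
  | succ n ih =>
    rw [noHit, noHit]
    refine div_le_div_of_nonneg_right (Finset.sum_le_sum fun i _ => ?_) (by positivity)
    by_cases h1 : x + uvec i ∈ K
    · rw [if_pos h1, if_pos (h h1)]
    · rw [if_neg h1]
      split_ifs with h2
      · exact noHit_nonneg K n _
      · exact ih _

theorem esc_mono {K K' : Finset (Fin d → ℤ)} (h : K ⊆ K') (x : Fin d → ℤ) :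
    esc K' x ≤ esc K x :=
  ciInf_mono ⟨0, by rintro _ ⟨n, rfl⟩; exact noHit_nonneg K' n x⟩ fun n => noHit_mono h n x

theorem cap_union (K K' : Finset (Fin d → ℤ)) : cap (K ∪ K') ≤ cap K + cap K' := by
  have h1 := Finset.sum_union_inter (s₁ := K) (s₂ := K') (f := esc (K ∪ K'))
  have h2 : 0 ≤ ∑ x ∈ K ∩ K', esc (K ∪ K') x := Finset.sum_nonneg fun x _ => esc_nonneg _ x
  have h3 : ∑ x ∈ K, esc (K ∪ K') x ≤ ∑ x ∈ K, esc K x :=
    Finset.sum_le_sum fun x _ => esc_mono Finset.subset_union_left x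
  have h4 : ∑ x ∈ K', esc (K ∪ K') x ≤ ∑ x ∈ K', esc K' x :=
    Finset.sum_le_sum fun x _ => esc_mono Finset.subset_union_right x
  unfold cap
  linarith

theorem cap_mono (h2 : St_G2) (h4 : St_G4) (hd : 1 ≤ d) (K K' : Finset (Fin d → ℤ))
    (hK : K' ⊆ K) : cap K' ≤ cap K := by
  obtain ⟨-, -, -, -, h5, h6, -, -⟩ := h2 d hd K
  have h4 := h4 d hd K K' hK
  have hL : ∀ y ∈ K \ K', y ∈ K := fun y hy => (Finset.mem_sdiff.1 hy).1
  -- the column sums
  have hcol : ∀ y ∈ K \ K', ∑ x ∈ K', Hk K x y = 1 - esc K y - ∑ z ∈ K \ K', Hk K y z := by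
    intro y hy
    have e1 : ∑ x ∈ K', Hk K x y = ∑ x ∈ K', Hk K y x :=
      Finset.sum_congr rfl fun x hx => h6 x y (hL y hy) (hK hx)
    have e2 : ∑ x ∈ K', Hk K y x + ∑ x ∈ K \ K', Hk K y x = ∑ x ∈ K, Hk K y x := by
      rw [add_comm]
      exact Finset.sum_sdiff hK
    rw [e1]
    have e3 := h5 y
    linarith
  have e1 : cap K' = ∑ x ∈ K', esc K x + ∑ y ∈ K \ K', (∑ x ∈ K', Hk K x y) * esc K' y := by
    unfold cap
    rw [Finset.sum_congr rfl fun x _ => h4 x, Finset.sum_add_distrib, Finset.sum_comm]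
    congr 1
    exact Finset.sum_congr rfl fun y _ => (Finset.sum_mul _ _ _).symm
  have e2 : ∑ y ∈ K \ K', (∑ x ∈ K', Hk K x y) * esc K' y =
      ∑ y ∈ K \ K', (esc K y - esc K y * esc K' y) := by
    have e3 : ∑ y ∈ K \ K', (∑ z ∈ K \ K', Hk K y z) * esc K' y =
        ∑ z ∈ K \ K', (esc K' z - esc K z) := by
      simp only [Finset.sum_mul]
      rw [Finset.sum_comm]
      refine Finset.sum_congr rfl fun z hz => ?_
      have e4 : ∑ y ∈ K \ K', Hk K y z * esc K' y = ∑ y ∈ K \ K', Hk K z y * esc K' y :=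
        Finset.sum_congr rfl fun y hy => by rw [h6 y z (hL z hz) (hL y hy)]
      rw [e4]
      have := h4 z
      linarith
    have e5 : ∑ y ∈ K \ K', (∑ x ∈ K', Hk K x y) * esc K' y =
        ∑ y ∈ K \ K', (1 - esc K y) * esc K' y -
          ∑ y ∈ K \ K', (∑ z ∈ K \ K', Hk K y z) * esc K' y := by
      rw [← Finset.sum_sub_distrib]
      refine Finset.sum_congr rfl fun y hy => ?_
      rw [hcol y hy]
      ring
    rw [e5, e3, ← Finset.sum_sub_distrib]
    refine Finset.sum_congr rfl fun y _ => ?_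
    ring
  have e3 : ∑ y ∈ K \ K', (esc K y - esc K y * esc K' y) ≤ ∑ y ∈ K \ K', esc K y := by
    refine Finset.sum_le_sum fun y _ => ?_
    have := mul_nonneg (esc_nonneg K y) (esc_nonneg K' y)
    linarith
  have e4 : ∑ y ∈ K \ K', esc K y + ∑ x ∈ K', esc K x = cap K := by
    unfold cap
    exact Finset.sum_sdiff hK
  linarith

theorem cap_le_box (h2 : St_G2) (h4 : St_G4) (hd : 3 ≤ d) (n : ℕ) (z : Fin d → ℤ)
    (K : Finset (Fin d → ℤ)) (hn : 1 ≤ n) (hK : ∀ x ∈ K, x - z ∈ box d (3 * n)) :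
    cap K ≤ 13 ^ d * (n : ℝ) ^ (d - 2) := by
  have hn' : (1 : ℝ) ≤ n := by exact_mod_cast hn
  have hsub : K ⊆ (box d (3 * n)).image (Equiv.addRight z) := by
    intro x hx
    rw [Finset.mem_image]
    exact ⟨x - z, hK x hx, by simp⟩
  have e1 := cap_mono h2 h4 (by omega) _ _ hsub
  have e2 := cap_image (Equiv.addRight z) (Equiv.refl (Fin d × Bool)) (fun x i => by
    simp only [Equiv.coe_addRight, Equiv.refl_apply]
    abel) (box d (3 * n))
  have e3 := cap_box (d := d) (by omega) (3 * n) (by omega)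
  have e4 : ((4 * ((3 * n : ℕ) : ℝ) + 1) ^ d : ℝ) ≤ (13 * n) ^ d := by
    refine pow_le_pow_left₀ (by positivity) ?_ d
    push_cast
    linarith
  have e5 : ((4 * ((3 * n : ℕ) : ℝ) + 1) ^ d / (2 * ((3 * n : ℕ) : ℝ) ^ 2) : ℝ) ≤
      13 ^ d * (n : ℝ) ^ (d - 2) := by
    rw [div_le_iff₀ (by positivity)]
    refine e4.trans ?_
    obtain ⟨m, rfl⟩ : ∃ m, d = m + 2 := ⟨d - 2, by omega⟩
    rw [Nat.add_sub_cancel, mul_pow, mul_assoc]
    refine mul_le_mul_of_nonneg_left ?_ (by positivity)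
    push_cast
    have h0 : 0 ≤ (n : ℝ) ^ m * (n : ℝ) ^ 2 := by positivity
    rw [pow_add]
    nlinarith
  exact ((e1.trans e2.le).trans e3).trans e5

end G8x

open G8x in
theorem G8 (h2 : St_G2) (h4 : St_G4) : St_G8 := by
  intro d hd
  exact ⟨fun σ π h K => cap_image σ π h K, fun K K' => cap_union K K',
    fun K K' h => cap_mono h2 h4 (by omega) K K' h,
    fun n z K hn hK => cap_le_box h2 h4 hd n z K hn hK⟩

end PLS
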