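import Pool.Agent.PLS.StG

/-!
# PLS, G9: the capacity of the union of two distant sets
-/

set_option autoImplicit false
set_option linter.unusedVariables false

open Finset Filter Topology MeasureTheory RInt

noncomputable section

namespace PLS

namespace G9x

variable {d : ℕ}

/-- union bound -/
theorem noHit_union (hd : 0 < d) (K K' : Finset (Fin d → ℤ)) (n : ℕ) (x : Fin d → ℤ) :
    noHit K n x + noHit K' n x - 1 ≤ noHit (K ∪ K') n x := by
  induction n generalizing x with
  | zero =>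
    simp only [noHit]
    norm_num
  | succ n ih =>
    have hd' : (0 : ℝ) < 2 * d := by positivity
    simp only [noHit]
    rw [← add_div, sub_le_iff_le_add, div_le_iff₀ hd', add_mul, div_mul_cancel₀ _ hd'.ne',
      one_mul, ← Finset.sum_add_distrib]
    have h1 : (2 * d : ℝ) = ∑ _i : Fin d × Bool, (1 : ℝ) := by
      rw [Finset.sum_const, card_dir, nsmul_eq_mul, mul_one]
      push_cast
      ring
    rw [h1, ← Finset.sum_add_distrib]
    refine Finset.sum_le_sum fun i _ => ?_
    have b1 := noHit_le_one hd K n (x + uvec i)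
    have b2 := noHit_le_one hd K' n (x + uvec i)
    by_cases h2 : x + uvec i ∈ K
    · have h3 : x + uvec i ∈ K ∪ K' := Finset.mem_union_left _ h2
      rw [if_pos h2, if_pos h3]
      split_ifs <;> linarith
    · by_cases h4 : x + uvec i ∈ K'
      · have h3 : x + uvec i ∈ K ∪ K' := Finset.mem_union_right _ h4
        rw [if_neg h2, if_pos h4, if_pos h3]
        linarith
      · have h3 : x + uvec i ∉ K ∪ K' := by
          rw [Finset.mem_union, not_or]
          exact ⟨h2, h4⟩
        rw [if_neg h2, if_neg h4, if_neg h3]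
        have := ih (x + uvec i)
        linarith

theorem g_zero {g : (Fin d → ℤ) → ℝ} {C c : ℝ} (hg : Pot d g C c) : 1 ≤ g 0 := by
  have h := hg.super 0
  rw [if_pos rfl] at h
  have h2 : 0 ≤ (∑ i : Fin d × Bool, g (0 + uvec i)) / (2 * d) :=
    div_nonneg (Finset.sum_nonneg fun i _ => (hg.pos _).le) (by positivity)
  linarith

/-- few visits of `K'` -/
theorem noHit_ge (h3 : St_G3) {g : (Fin d → ℤ) → ℝ} {C c : ℝ} (hd : 1 ≤ d) (hg : Pot d g C c)
    (K' : Finset (Fin d → ℤ)) (n : ℕ) (x : Fin d → ℤ) :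
    1 - noHit K' n x ≤ ∑ y ∈ K', g (x - y) := by
  have h := ((h3 d hd K').1 (fun x => ∑ y ∈ K', g (x - y))
    (fun x => Finset.sum_nonneg fun y _ => (hg.pos _).le) ?_).2.2.1 1 one_pos ?_ n x
  · rwa [div_one] at h
  · intro x
    rw [Finset.sum_comm, Finset.sum_div]
    refine Finset.sum_le_sum fun y _ => ?_
    have h := hg.super (x - y)
    have h2 : (0 : ℝ) ≤ if x - y = 0 then 1 else 0 := by split_ifs <;> norm_num
    have h4 : ∀ i : Fin d × Bool, g (x + uvec i - y) = g (x - y + uvec i) := by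
      intro i
      congr 1
      abel
    rw [Finset.sum_congr rfl fun i _ => h4 i]
    linarith
  · intro y hy
    calc (1 : ℝ) ≤ g 0 := g_zero hg
      _ = g (y - y) := by rw [sub_self]
      _ ≤ ∑ z ∈ K', g (y - z) :=
          Finset.single_le_sum (f := fun z => g (y - z)) (fun z _ => (hg.pos _).le) hy

theorem esc_union (h3 : St_G3) {g : (Fin d → ℤ) → ℝ} {C c : ℝ} (hd : 1 ≤ d) (hg : Pot d g C c)
    (K K' : Finset (Fin d → ℤ)) (x : Fin d → ℤ) :
    esc K x - ∑ y ∈ K', g (x - y) ≤ esc (K ∪ K') x := by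
  refine le_ciInf fun n => ?_
  have a1 := noHit_union hd K K' n x
  have a2 := noHit_ge h3 hd hg K' n x
  have a3 := esc_le K n x
  linarith

theorem cap_union_ge (h3 : St_G3) {g : (Fin d → ℤ) → ℝ} {C c : ℝ} (hd : 1 ≤ d)
    (hg : Pot d g C c) (K K' : Finset (Fin d → ℤ)) (hK : Disjoint K K') :
    cap K + cap K' - 2 * ∑ x ∈ K, ∑ y ∈ K', g (x - y) ≤ cap (K ∪ K') := by
  unfold cap
  rw [Finset.sum_union hK]
  have h1 : ∑ x ∈ K, (esc K x - ∑ y ∈ K', g (x - y)) ≤ ∑ x ∈ K, esc (K ∪ K') x :=
    Finset.sum_le_sum fun x _ => esc_union h3 hd hg K K' x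
  have h2 : ∑ x ∈ K', (esc K' x - ∑ y ∈ K, g (x - y)) ≤ ∑ x ∈ K', esc (K ∪ K') x :=
    Finset.sum_le_sum fun x _ => by
      rw [Finset.union_comm]
      exact esc_union h3 hd hg K' K x
  rw [Finset.sum_sub_distrib] at h1 h2
  have h4 : ∑ x ∈ K', ∑ y ∈ K, g (x - y) = ∑ x ∈ K, ∑ y ∈ K', g (x - y) := by
    rw [Finset.sum_comm]
    refine Finset.sum_congr rfl fun x _ => Finset.sum_congr rfl fun y _ => ?_
    rw [← hg.symm (x - y), neg_sub]
  rw [h4] at h2
  linarith

/-- the potential of a distant point -/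
theorem tend {g : (Fin d → ℤ) → ℝ} {C c : ℝ} (hd : 3 ≤ d) (hg : Pot d g C c) (i : Fin d)
    (x y : Fin d → ℤ) :
    Tendsto (fun k : ℕ => g (x - (y + Pi.single i (k : ℤ)))) atTop (𝓝 0) := by
  have hC : 0 ≤ C := (hg.pos 0).le.trans (hg.bdd 0)
  set a : ℕ := (x i - y i).natAbs with ha
  have hlim : Tendsto (fun k : ℕ => C / ((k - a : ℕ) : ℝ)) atTop (𝓝 0) :=
    (tendsto_const_div_atTop_nhds_zero_nat C).comp (tendsto_sub_atTop_nat a)
  refine tendsto_of_tendsto_of_tendsto_of_le_of_le' tendsto_const_nhds hlim ?_ ?_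
  · exact Eventually.of_forall fun k => (hg.pos _).le
  · filter_upwards [eventually_gt_atTop a] with k hk
    obtain ⟨n, hn⟩ : ∃ n : ℕ, k = a + (n + 1) := ⟨k - a - 1, by omega⟩
    have hnot : x - (y + Pi.single i (k : ℤ)) ∉ RInt.box d n := by
      intro hmem
      unfold RInt.box at hmem
      rw [Fintype.mem_piFinset] at hmem
      have h := hmem i
      rw [Finset.mem_Icc] at h
      simp only [Pi.sub_apply, Pi.add_apply, Pi.single_eq_same] at h
      omega
    have h1 := hg.upper n _ hnot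
    refine h1.trans ?_
    have h2 : ((k - a : ℕ) : ℝ) = (n : ℝ) + 1 := by
      rw [hn, Nat.add_sub_cancel_left]
      push_cast
      ring
    rw [h2]
    have h3 : (0 : ℝ) < (n : ℝ) + 1 := by positivity
    refine div_le_div_of_nonneg_left hC h3 ?_
    obtain ⟨e, he⟩ : ∃ e : ℕ, d - 2 = e + 1 := ⟨d - 3, by omega⟩
    rw [he, pow_succ]
    have h4 : (1 : ℝ) ≤ ((n : ℝ) + 1) ^ e := one_le_pow₀ (by linarith [Nat.cast_nonneg (α := ℝ) n])
    nlinarith

end G9x

open G9x

theorem G9 (h3 : St_G3) (h8 : St_G8) : St_G9 := by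
  intro d g C c hd hg K K' i
  obtain ⟨g1, g2, -, -⟩ := h8 d hd
  have hcap : ∀ k : ℕ, cap (K'.image fun x => x + Pi.single i (k : ℤ)) = cap K' := fun k =>
    g1 (Equiv.addRight (Pi.single i (k : ℤ))) (Equiv.refl _)
      (fun x j => by
        simp only [Equiv.coe_addRight, Equiv.refl_apply]
        abel) K'
  have hlow : Tendsto (fun k : ℕ => cap K + cap K' -
      2 * ∑ x ∈ K, ∑ y ∈ K', g (x - (y + Pi.single i (k : ℤ)))) atTop (𝓝 (cap K + cap K')) := by
    have h1 : Tendsto (fun k : ℕ => ∑ x ∈ K, ∑ y ∈ K', g (x - (y + Pi.single i (k : ℤ)))) atTop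
        (𝓝 (∑ x ∈ K, ∑ y ∈ K', 0)) :=
      tendsto_finsetSum _ fun x _ => tendsto_finsetSum _ fun y _ => tend hd hg i x y
    simp only [Finset.sum_const_zero] at h1
    have h2 := (h1.const_mul 2).const_sub (cap K + cap K')
    simpa using h2
  refine tendsto_of_tendsto_of_tendsto_of_le_of_le' hlow tendsto_const_nhds ?_ ?_
  · have hdis : ∀ᶠ k : ℕ in atTop, ∀ x ∈ K, ∀ y ∈ K', x ≠ y + Pi.single i (k : ℤ) := by
      rw [Filter.eventually_all_finset]
      intro x _
      rw [Filter.eventually_all_finset]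
      intro y _
      filter_upwards [eventually_gt_atTop (x i - y i).natAbs] with k hk heq
      have h := congrFun heq i
      simp only [Pi.add_apply, Pi.single_eq_same] at h
      omega
    filter_upwards [hdis] with k hk
    have hdisj : Disjoint K (K'.image fun x => x + Pi.single i (k : ℤ)) := by
      rw [Finset.disjoint_left]
      intro x hx hx'
      obtain ⟨y, hy, hxy⟩ := Finset.mem_image.1 hx'
      exact hk x hx y hy hxy.symm
    have h1 := cap_union_ge h3 (by omega) hg K _ hdisj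
    rw [hcap k] at h1
    have h2 : ∀ x, ∑ y ∈ K'.image (fun x => x + Pi.single i (k : ℤ)), g (x - y) =
        ∑ y ∈ K', g (x - (y + Pi.single i (k : ℤ))) := fun x =>
      Finset.sum_image fun a _ b _ hab => add_right_cancel hab
    rw [Finset.sum_congr rfl fun x _ => h2 x] at h1
    exact h1
  · refine Eventually.of_forall fun k => ?_
    have h := g2 K (K'.image fun x => x + Pi.single i (k : ℤ))
    rwa [hcap k] at h

end PLS
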