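import Pool.Agent.PLS.StP

/-!
# Products: positive association for finitely many events, and the square root trick
-/

set_option autoImplicit false
set_option linter.unusedVariables false

open Finset Filter Topology MeasureTheory RInt

noncomputable section

namespace PLS

namespace P0x

theorem local_mono {K K' : Finset Pt} {A : Set (Set Pt)} (h : Local K A) (hK : K ⊆ K') :
    Local K' A := fun I J hIJ => h I J fun x hx => hIJ x (hK hx)

theorem inter_prop {ι : Type} [DecidableEq ι] (s : Finset ι) (K : ι → Finset Pt)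
    (A : ι → Set (Set Pt)) (h : ∀ i ∈ s, Local (K i) (A i) ∧ Dn (A i)) :
    Local (s.biUnion K) (⋂ i ∈ s, A i) ∧ Dn (⋂ i ∈ s, A i) := by
  constructor
  · intro I J hIJ
    simp only [Set.mem_iInter]
    refine forall_congr' fun i => forall_congr' fun hi => ?_
    exact (h i hi).1 I J fun x hx => hIJ x (mem_biUnion.2 ⟨i, hi, hx⟩)
  · intro I hI J hJ
    simp only [Set.mem_iInter] at hI ⊢
    exact fun i hi => (h i hi).2 I (hI i hi) J hJ

theorem union_prop {ι : Type} [DecidableEq ι] (s : Finset ι) (K : ι → Finset Pt)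
    (A : ι → Set (Set Pt)) (h : ∀ i ∈ s, Local (K i) (A i) ∧ Dn (A i)) :
    Local (s.biUnion K) (⋃ i ∈ s, A i) ∧ Dn (⋃ i ∈ s, A i) := by
  constructor
  · intro I J hIJ
    simp only [Set.mem_iUnion]
    refine exists_congr fun i => exists_congr fun hi => ?_
    exact (h i hi).1 I J fun x hx => hIJ x (mem_biUnion.2 ⟨i, hi, hx⟩)
  · intro I hI J hJ
    simp only [Set.mem_iUnion] at hI ⊢
    obtain ⟨i, hi, hIi⟩ := hI
    exact ⟨i, hi, (h i hi).2 I hIi J hJ⟩

end P0x

open P0x in
theorem P0 : St_P0 := by
  intro ν hν ι s K A h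
  classical
  have hprob := hν.prob
  have hle : ∀ B : Set (Set Pt), ν.real B ≤ 1 := fun B => measureReal_le_one
  induction s using Finset.induction_on with
  | empty => simp
  | insert a s ha ih =>
    have hs : ∀ i ∈ s, Local (K i) (A i) ∧ Dn (A i) := fun i hi => h i (mem_insert_of_mem hi)
    have ha' := h a (mem_insert_self a s)
    obtain ⟨ih1, ih2⟩ := ih hs
    have hLa : Local (K a ∪ s.biUnion K) (A a) := local_mono ha'.1 subset_union_left
    constructor
    · rw [prod_insert ha, set_biInter_insert]
      obtain ⟨hL, hD⟩ := inter_prop s K A hs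
      calc ν.real (A a) * ∏ i ∈ s, ν.real (A i) ≤ ν.real (A a) * ν.real (⋂ i ∈ s, A i) :=
            mul_le_mul_of_nonneg_left ih1 measureReal_nonneg
        _ ≤ ν.real (A a ∩ ⋂ i ∈ s, A i) :=
            hν.fkg (K a ∪ s.biUnion K) _ _ hLa (local_mono hL subset_union_right) ha'.2 hD
    · rw [prod_insert ha, set_biUnion_insert]
      obtain ⟨hL, hD⟩ := union_prop s K A hs
      set B := ⋃ i ∈ s, A i with hB
      have hf := hν.fkg (K a ∪ s.biUnion K) _ _ hLa (local_mono hL subset_union_right) ha'.2 hD
      have hm : MeasurableSet B := local_measurable _ _ hL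
      have hu := measureReal_union_add_inter (μ := ν) (s := A a) hm
        (measure_ne_top ν _) (measure_ne_top ν _)
      have h1 : (1 - ν.real (A a)) * ∏ i ∈ s, (1 - ν.real (A i)) ≤
          (1 - ν.real (A a)) * (1 - ν.real B) :=
        mul_le_mul_of_nonneg_left ih2 (sub_nonneg.2 (hle _))
      nlinarith [h1, hf, hu]

end PLS
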