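import Pool.Agent.PLS.StP

/-!
# PLS, module P10: the percolation regime is open
-/

set_option autoImplicit false

open Finset Filter Topology MeasureTheory RInt

noncomputable section

namespace PLS

namespace P10x

theorem Bx_zero (x : Pt) : x ∈ Bx 0 0 ↔ x = 0 := by
  unfold Bx Rc
  simp only [Finset.mem_product, Finset.mem_Icc, Prod.fst_zero, Prod.snd_zero, Nat.cast_zero,
    sub_zero, add_zero]
  constructor
  · rintro ⟨⟨h1, h2⟩, h3, h4⟩
    exact Prod.ext (le_antisymm h2 h1) (le_antisymm h4 h3)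
  · rintro rfl
    simp

end P10x

open P10x in
theorem P10 (h1 : St_P1) (h6 : St_P6) (h9 : St_P9) : St_P10 := by
  intro c μ hF hPM u hu hth
  obtain ⟨a, L, ha, hL, h9⟩ := h9 c μ hF hPM
  obtain ⟨-, -, -, -, -, hAn, hinf⟩ := h1
  have hprob : IsProbabilityMeasure (μ u) := hF.void.prob u hu
  have hp : ∀ n, th μ u ≤ (μ u).real {I : Set Pt | Ar Iᶜ 0 0 n (Sp 0 n)} := by
    intro n
    have h := (hinf (μ u) hprob 0).2.2 n (Nat.zero_le n)
    refine le_trans (le_of_eq ?_) h
    unfold th
    congr 1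
    ext I
    simp only [Set.mem_ofPred_eq]
    constructor
    · intro hI
      exact ⟨0, (Bx_zero 0).2 rfl, hI⟩
    · rintro ⟨x, hx, hI⟩
      rw [Bx_zero] at hx
      rw [hx] at hI
      exact hI
  have hau : 0 < a * u := mul_pos ha hu
  obtain ⟨n, hn0, hn1, hn⟩ := h6 (μ u) (hPM u hu) (th μ u) hth hp (Real.exp (-L) / 2)
    ⌈L / (a * u)⌉₊ (by positivity)
  have hnL : L ≤ a * u * n := by
    have h2 : L / (a * u) ≤ n := (Nat.le_ceil _).trans (by exact_mod_cast hn0)
    rw [div_le_iff₀ hau] at h2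
    linarith
  set K := Bx 0 (3 * n) with hK
  set A : Set (Set Pt) := {I : Set Pt | An I 0 n} with hA
  have hloc : Local K A := (hAn 0 n).1
  have hcont : Tendsto (fun v : ℝ => √(c K) * |√u - √v|) (𝓝[>] u) (𝓝 0) := by
    have h2 : Continuous fun v : ℝ => √(c K) * |√u - √v| := by fun_prop
    have h3 := h2.tendsto u
    simp only [sub_self, abs_zero, mul_zero] at h3
    exact h3.mono_left nhdsWithin_le_nhds
  have hev : ∀ᶠ v in 𝓝[>] u, √(c K) * |√u - √v| < Real.exp (-L) / 2 :=
    hcont.eventually (gt_mem_nhds (by positivity))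
  obtain ⟨v, hv1, hv2⟩ := (hev.and self_mem_nhdsWithin).exists
  have huv : u < v := hv2
  have hv : 0 < v := hu.trans huv
  refine ⟨v, huv, h9 v L n hv hn1 le_rfl ?_ ?_⟩
  · refine hnL.trans (mul_le_mul_of_nonneg_right ?_ (by positivity))
    exact mul_le_mul_of_nonneg_left huv.le ha.le
  · have h2 := hF.void.main hF.c0 K A hloc u v hu hv
    have h3 := (abs_le.1 h2).1
    have h4 : (μ v).real A ≤ (μ u).real A + √(c K) * |√u - √v| := by linarith
    linarith

end PLS
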