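import Pool.Agent.PLS.StP

/-!
# PLS, module P11: continuity of the percolation function
-/

set_option autoImplicit false
set_option linter.unusedVariables false

open Finset Filter Topology MeasureTheory RInt

noncomputable section

namespace PLS

namespace P11x

/-- probabilities of local events are continuous at `u > 0` -/
theorem cont {c : Finset Pt → ℝ} {μ : ℝ → Measure (Set Pt)} (h : PF0 c μ) (K : Finset Pt)
    (A : Set (Set Pt)) (hA : Local K A) (u : ℝ) (hu : 0 < u) (ε : ℝ) (hε : 0 < ε) :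
    ∃ δ : ℝ, 0 < δ ∧ ∀ v : ℝ, 0 < v → |v - u| < δ → |(μ u).real A - (μ v).real A| < ε := by
  have hc : ContinuousAt (fun v : ℝ => √(c K) * |√u - √v|) u := by fun_prop
  rw [Metric.continuousAt_iff] at hc
  obtain ⟨δ, hδ, hd⟩ := hc ε hε
  refine ⟨δ, hδ, fun v hv hvu => ?_⟩
  have h1 := hd (x := v) (by rw [Real.dist_eq]; exact hvu)
  rw [sub_self, abs_zero, mul_zero, Real.dist_eq, sub_zero] at h1
  exact (h.void.main h.c0 K A hA u v hu hv).trans_lt ((le_abs_self _).trans_lt h1)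

theorem bx00 (x : Pt) : x ∈ Bx 0 0 ↔ x = 0 := by
  unfold Bx Rc
  rw [Finset.mem_product, Finset.mem_Icc, Finset.mem_Icc]
  constructor
  · rintro ⟨⟨h1, h2⟩, h3, h4⟩
    simp only [Prod.fst_zero, Prod.snd_zero, Nat.cast_zero, sub_zero, add_zero] at h1 h2 h3 h4
    exact Prod.ext (le_antisymm h2 h1) (le_antisymm h4 h3)
  · rintro rfl
    simp

theorem th_eq (μ : ℝ → Measure (Set Pt)) (u : ℝ) :
    th μ u = (μ u).real {I : Set Pt | ∃ x ∈ Bx 0 0, {y | Con Iᶜ x y}.Infinite} := by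
  unfold th
  congr 1
  ext I
  constructor
  · intro h
    exact ⟨0, (bx00 0).2 rfl, h⟩
  · rintro ⟨x, hx, h⟩
    rw [bx00] at hx
    subst hx
    exact h

theorem bx_mem (n : ℕ) (x : Pt) : x ∈ Bx 0 n ↔ |x.1| ≤ n ∧ |x.2| ≤ n := by
  unfold Bx Rc
  rw [Finset.mem_product, Finset.mem_Icc, Finset.mem_Icc, abs_le, abs_le]
  simp only [Prod.fst_zero, Prod.snd_zero, zero_sub, zero_add]

theorem sp_not_bx (k n : ℕ) (hkn : k < n) (y : Pt) (hy : y ∈ Sp 0 n) : y ∉ Bx 0 k := by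
  unfold Sp at hy
  rw [Finset.mem_filter] at hy
  obtain ⟨-, h⟩ := hy
  rw [bx_mem]
  rintro ⟨h1, h2⟩
  simp only [Prod.fst_zero, Prod.snd_zero, sub_zero] at h
  have hk : (k : ℤ) < n := by exact_mod_cast hkn
  rcases h with h | h <;> omega

/-- the deterministic part -/
theorem det (h0 : St_T0) (V : Set Pt) (m k n : ℕ) (hmk : m ≤ k) (hkn : k < n)
    (ha : Ar V 0 0 k (Sp 0 k)) (hb : Ar V 0 m n (Sp 0 n)) (hh : Hub V 0 m k) :
    Ar V 0 0 n (Sp 0 n) := by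
  obtain ⟨-, -, htr, -, hmono, -, -, -, hsp, -⟩ := h0
  obtain ⟨x₀, hx₀, y₀, hy₀, hc₀⟩ := ha
  rw [bx00] at hx₀
  subst hx₀
  obtain ⟨x, hx, y, hy, hc⟩ := hb
  have hsub : Bx 0 k ⊆ Bx 0 n := by
    intro w hw
    rw [bx_mem] at hw ⊢
    have hk : (k : ℤ) ≤ n := by exact_mod_cast hkn.le
    exact ⟨hw.1.trans hk, hw.2.trans hk⟩
  have hsub2 : Bx 0 m ⊆ Bx 0 k := by
    intro w hw
    rw [bx_mem] at hw ⊢
    have hk : (m : ℤ) ≤ k := by exact_mod_cast hmk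
    exact ⟨hw.1.trans hk, hw.2.trans hk⟩
  have hcV : Con V x y := (hmono _ _ x y Set.inter_subset_left).1 hc
  obtain ⟨y', hy', hc'⟩ := hsp V 0 x y k (hsub2 hx) (Or.inl (sp_not_bx k n hkn y hy)) hcV
  have h00 : (0 : Pt) ∈ Bx 0 m := by
    rw [bx_mem]
    simp
  have hcon := hh 0 h00 x hx ⟨y₀, hy₀, hc₀⟩ ⟨y', hy', hc'⟩
  have hcon' : Con (V ∩ Bx 0 n) 0 x := by
    refine (hmono _ _ 0 x ?_).1 hcon
    exact Set.inter_subset_inter_right V (by exact_mod_cast hsub)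
  exact ⟨0, (bx00 0).2 rfl, y, hy, htr _ _ _ _ hcon' hc⟩

end P11x

open P11x in
theorem P11 (h1 : St_P1) (h5 : St_P5) (h10 : St_P10) (h0 : St_T0) : St_P11 := by
  intro c μ hPF hPM
  have hF := hPF.toPF0
  obtain ⟨hAr, -, -, hHub, -, -, hlim⟩ := h1
  -- limits of arms
  have hL : ∀ u : ℝ, 0 < u → Tendsto (fun n => (μ u).real {I : Set Pt | Ar Iᶜ 0 0 n (Sp 0 n)}) atTop
      (𝓝 (th μ u)) := by
    intro u hu
    rw [th_eq]
    exact (hlim (μ u) (hPM u hu).prob 0).2.1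
  have hle : ∀ u : ℝ, 0 < u → ∀ n, th μ u ≤ (μ u).real {I : Set Pt | Ar Iᶜ 0 0 n (Sp 0 n)} := by
    intro u hu n
    rw [th_eq]
    exact (hlim (μ u) (hPM u hu).prob 0).2.2 n (Nat.zero_le n)
  have hArm : ∀ (m n : ℕ) (u v : ℝ), 0 < u → u ≤ v →
      (μ v).real {I : Set Pt | Ar Iᶜ 0 m n (Sp 0 n)} ≤
        (μ u).real {I : Set Pt | Ar Iᶜ 0 m n (Sp 0 n)} := by
    intro m n u v hu huv
    exact hF.void.mono hF.c0 _ _ (hAr 0 m n (Sp 0 n)).1 (hAr 0 m n (Sp 0 n)).2 u v hu huv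
  have hmono : ∀ u v : ℝ, 0 < u → u ≤ v → th μ v ≤ th μ u := by
    intro u v hu huv
    exact le_of_tendsto_of_tendsto' (hL v (hu.trans_le huv)) (hL u hu)
      fun n => hArm 0 n u v hu huv
  -- upper semicontinuity
  have hup : ∀ u : ℝ, 0 < u → ∀ ε : ℝ, 0 < ε → ∃ δ : ℝ, 0 < δ ∧ ∀ v : ℝ, 0 < v → |v - u| < δ →
      th μ v < th μ u + ε := by
    intro u hu ε hε
    have h2 : ∀ᶠ n in atTop, (μ u).real {I : Set Pt | Ar Iᶜ 0 0 n (Sp 0 n)} < th μ u + ε / 2 :=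
      (hL u hu).eventually_lt_const (by linarith)
    obtain ⟨n, hn⟩ := h2.exists
    obtain ⟨δ, hδ, hd⟩ := cont hF _ _ (hAr 0 0 n (Sp 0 n)).1 u hu (ε / 2) (by linarith)
    refine ⟨δ, hδ, fun v hv hvu => ?_⟩
    have h3 := abs_lt.1 (hd v hv hvu)
    have h4 := hle v hv n
    linarith [h3.1, h3.2]
  -- lower semicontinuity
  have hlow : ∀ u : ℝ, 0 < u → ∀ ε : ℝ, 0 < ε → ∃ δ : ℝ, 0 < δ ∧ ∀ v : ℝ, 0 < v → |v - u| < δ →
      th μ u - 4 * ε ≤ th μ v := by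
    intro u hu ε hε
    have hnn : 0 ≤ th μ u := measureReal_nonneg
    rcases hnn.eq_or_lt with h2 | hpos
    · refine ⟨1, one_pos, fun v hv _ => ?_⟩
      have h3 : 0 ≤ th μ v := measureReal_nonneg
      linarith
    · obtain ⟨u₁, huu₁, hpos₁⟩ := h10 c μ hPF hPM u hu hpos
      have hu₁ : 0 < u₁ := hu.trans huu₁
      obtain ⟨m, hm⟩ := (h5 (μ u₁) (hPM u₁ hu₁) (th μ u₁) hpos₁ (hle u₁ hu₁)).2 ε hε
      have hHubT := (h5 (μ u) (hPM u hu) (th μ u) hpos (hle u hu)).1 m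
      have h3 : ∀ᶠ k in atTop, (μ u).real {I : Set Pt | ¬ Hub Iᶜ 0 m k} < ε :=
        hHubT.eventually_lt_const hε
      obtain ⟨k, hk, hmk⟩ := (h3.and (eventually_ge_atTop m)).exists
      have hHubL : Local (Bx 0 k) {I : Set Pt | ¬ Hub Iᶜ 0 m k} := by
        intro I J hIJ
        exact not_congr (hHub 0 m k I J hIJ)
      obtain ⟨δ₁, hδ₁, hd₁⟩ := cont hF _ _ hHubL u hu ε hε
      obtain ⟨δ₂, hδ₂, hd₂⟩ := cont hF _ _ (hAr 0 0 k (Sp 0 k)).1 u hu ε hε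
      refine ⟨min (min δ₁ δ₂) (u₁ - u), lt_min (lt_min hδ₁ hδ₂) (by linarith), fun v hv hvu => ?_⟩
      have hv1 : |v - u| < δ₁ := lt_of_lt_of_le hvu ((min_le_left _ _).trans (min_le_left _ _))
      have hv2 : |v - u| < δ₂ := lt_of_lt_of_le hvu ((min_le_left _ _).trans (min_le_right _ _))
      have hv3 : |v - u| < u₁ - u := lt_of_lt_of_le hvu (min_le_right _ _)
      have hvu₁ : v ≤ u₁ := by
        have := (abs_lt.1 hv3).2
        linarith
      have e1 := abs_lt.1 (hd₁ v hv hv1)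
      have e2 := abs_lt.1 (hd₂ v hv hv2)
      have e3 := hle u hu k
      have hprob := (hPM v hv).prob
      refine ge_of_tendsto (hL v hv) ?_
      filter_upwards [eventually_gt_atTop k] with n hn
      have hmn : m ≤ n := hmk.trans hn.le
      have e4 : 1 - ε ≤ (μ v).real {I : Set Pt | Ar Iᶜ 0 m n (Sp 0 n)} :=
        (hm n hmn).trans (hArm m n v u₁ hv hvu₁)
      have hmeas : MeasurableSet {I : Set Pt | Ar Iᶜ 0 m n (Sp 0 n)} :=
        local_measurable _ _ (hAr 0 m n (Sp 0 n)).1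
      have e5 : (μ v).real {I : Set Pt | Ar Iᶜ 0 m n (Sp 0 n)}ᶜ ≤ ε := by
        rw [probReal_compl_eq_one_sub hmeas]
        linarith
      have hsub : {I : Set Pt | Ar Iᶜ 0 0 k (Sp 0 k)} ⊆
          ({I : Set Pt | Ar Iᶜ 0 0 n (Sp 0 n)} ∪ {I : Set Pt | Ar Iᶜ 0 m n (Sp 0 n)}ᶜ) ∪
            {I : Set Pt | ¬ Hub Iᶜ 0 m k} := by
        intro I hI
        by_cases hI1 : Hub Iᶜ 0 m k
        · left
          by_cases hI2 : Ar Iᶜ 0 m n (Sp 0 n)
          · left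
            exact det h0 Iᶜ m k n hmk hn hI hI2 hI1
          · right
            exact hI2
        · right
          exact hI1
      have e6 : (μ v).real {I : Set Pt | Ar Iᶜ 0 0 k (Sp 0 k)} ≤
          (μ v).real {I : Set Pt | Ar Iᶜ 0 0 n (Sp 0 n)} +
            (μ v).real {I : Set Pt | Ar Iᶜ 0 m n (Sp 0 n)}ᶜ +
            (μ v).real {I : Set Pt | ¬ Hub Iᶜ 0 m k} := by
        refine (measureReal_mono hsub).trans ((measureReal_union_le _ _).trans ?_)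
        gcongr
        exact measureReal_union_le _ _
      linarith [e1.1, e1.2, e2.1, e2.2]
  -- continuity
  intro u hu
  have hu' : 0 < u := hu
  rw [ContinuousWithinAt, Metric.tendsto_nhdsWithin_nhds]
  intro ε hε
  obtain ⟨δ₁, hδ₁, hd₁⟩ := hup u hu' ε hε
  obtain ⟨δ₂, hδ₂, hd₂⟩ := hlow u hu' (ε / 5) (by linarith)
  refine ⟨min δ₁ δ₂, lt_min hδ₁ hδ₂, fun v hv hvu => ?_⟩
  rw [Real.dist_eq] at hvu ⊢
  have a1 := hd₁ v hv (hvu.trans_le (min_le_left _ _))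
  have a2 := hd₂ v hv (hvu.trans_le (min_le_right _ _))
  rw [abs_lt]
  constructor <;> linarith

end PLS
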