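import Pool.Agent.PLS.StP

/-!
# PLS, P2: invariance of the probabilities of the events
-/

set_option autoImplicit false
set_option linter.unusedVariables false

open Finset Filter Topology MeasureTheory RInt

noncomputable section

namespace PLS

namespace P2x

/-- the action of a permutation of the plane on configurations -/
def tau (s : Pt ≃ Pt) : Set Pt ≃ᵐ Set Pt where
  toFun I := {x | s x ∈ I}
  invFun I := {x | s.symm x ∈ I}
  left_inv I := by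
    ext x
    simp
  right_inv I := by
    ext x
    simp
  measurable_toFun := measurable_set_iff.mpr fun x => measurable_set_mem (s x)
  measurable_invFun := measurable_set_iff.mpr fun x => measurable_set_mem (s.symm x)

theorem real_eq (ν : Measure (Set Pt)) (s : Pt ≃ Pt)
    (h : ν.map (fun I => {x : Pt | s x ∈ I}) = ν) (A B : Set (Set Pt))
    (hAB : ∀ I, I ∈ B ↔ {x : Pt | s x ∈ I} ∈ A) : ν.real B = ν.real A := by
  have h1 : ν.map (tau s) = ν := h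
  have h2 : B = tau s ⁻¹' A := Set.ext fun I => hAB I
  have h3 : ν A = ν (tau s ⁻¹' A) := by
    conv_lhs => rw [← h1]
    exact (tau s).map_apply A
  rw [h2, Measure.real, Measure.real, h3]

/-- connection in a graph -/
def RC (r : Pt → Pt → Prop) (V : Set Pt) (x y : Pt) : Prop :=
  x ∈ V ∧ Relation.ReflTransGen (fun a b => a ∈ V ∧ b ∈ V ∧ r a b) x y

theorem rc_iff (r : Pt → Pt → Prop) (s : Pt ≃ Pt) (hs : ∀ x y, r (s x) (s y) ↔ r x y)
    (V W : Set Pt) (hW : ∀ x, s x ∈ V ↔ x ∈ W) (x y : Pt) : RC r V (s x) (s y) ↔ RC r W x y := by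
  constructor
  · rintro ⟨h1, h2⟩
    refine ⟨(hW x).mp h1, ?_⟩
    have h3 := Relation.ReflTransGen.lift (p := fun a b => a ∈ W ∧ b ∈ W ∧ r a b) s.symm
      (fun a b (h : a ∈ V ∧ b ∈ V ∧ r a b) => by
        refine ⟨(hW _).mp ?_, (hW _).mp ?_, (hs _ _).mp ?_⟩
        · rw [s.apply_symm_apply]
          exact h.1
        · rw [s.apply_symm_apply]
          exact h.2.1
        · rw [s.apply_symm_apply, s.apply_symm_apply]
          exact h.2.2) _ _ h2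
    simp only [Function.onFun, s.symm_apply_apply] at h3
    exact h3
  · rintro ⟨h1, h2⟩
    exact ⟨(hW x).mpr h1, Relation.ReflTransGen.lift (p := fun a b => a ∈ V ∧ b ∈ V ∧ r a b) s
      (fun a b (h : a ∈ W ∧ b ∈ W ∧ r a b) => ⟨(hW _).mpr h.1, (hW _).mpr h.2.1,
        (hs _ _).mpr h.2.2⟩) _ _ h2⟩

/-- a symmetry of the plane -/
structure Sym (s : Pt ≃ Pt) : Prop where
  nn : ∀ x y, nn (s x) (s y) ↔ nn x y
  st : ∀ x y, st (s x) (s y) ↔ st x y
  box : ∀ (z : Pt) (n : ℕ) (x : Pt), s x ∈ Bx (s z) n ↔ x ∈ Bx z n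
  sp : ∀ (z : Pt) (n : ℕ) (x : Pt), s x ∈ Sp (s z) n ↔ x ∈ Sp z n

theorem mem_Rc (a b c d : ℤ) (x : Pt) :
    x ∈ Rc a b c d ↔ (a ≤ x.1 ∧ x.1 ≤ b) ∧ (c ≤ x.2 ∧ x.2 ≤ d) := by
  unfold Rc
  rw [Finset.mem_product, Finset.mem_Icc, Finset.mem_Icc]

theorem mem_Bx (z : Pt) (n : ℕ) (x : Pt) :
    x ∈ Bx z n ↔ |x.1 - z.1| ≤ n ∧ |x.2 - z.2| ≤ n := by
  unfold Bx
  rw [mem_Rc, abs_le, abs_le]
  constructor
  · rintro ⟨⟨h1, h2⟩, h3, h4⟩
    exact ⟨⟨by linarith, by linarith⟩, by linarith, by linarith⟩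
  · rintro ⟨⟨h1, h2⟩, h3, h4⟩
    exact ⟨⟨by linarith, by linarith⟩, by linarith, by linarith⟩

theorem mem_Sp (z : Pt) (n : ℕ) (x : Pt) :
    x ∈ Sp z n ↔ (|x.1 - z.1| ≤ n ∧ |x.2 - z.2| ≤ n) ∧ (|x.1 - z.1| = n ∨ |x.2 - z.2| = n) := by
  unfold Sp
  rw [Finset.mem_filter, mem_Bx]

section events

variable {s : Pt ≃ Pt} (hs : Sym s) (I : Set Pt)

include hs in
theorem con_iff (V W : Set Pt) (hW : ∀ x, s x ∈ V ↔ x ∈ W) (x y : Pt) :
    Con V (s x) (s y) ↔ Con W x y := rc_iff PLS.nn s hs.nn V W hW x y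

include hs in
theorem scon_iff (V W : Set Pt) (hW : ∀ x, s x ∈ V ↔ x ∈ W) (x y : Pt) :
    SCon V (s x) (s y) ↔ SCon W x y := rc_iff PLS.st s hs.st V W hW x y

include hs in
theorem box_mem (z : Pt) (n : ℕ) (x : Pt) :
    s x ∈ (Iᶜ ∩ Bx (s z) n : Set Pt) ↔ x ∈ ({x : Pt | s x ∈ I}ᶜ ∩ Bx z n : Set Pt) := by
  constructor
  · rintro ⟨h1, h2⟩
    exact ⟨h1, Finset.mem_coe.mpr ((hs.box z n x).mp (Finset.mem_coe.mp h2))⟩
  · rintro ⟨h1, h2⟩
    exact ⟨h1, Finset.mem_coe.mpr ((hs.box z n x).mpr (Finset.mem_coe.mp h2))⟩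

include hs in
theorem ar_iff (z : Pt) (m n : ℕ) (F : Set Pt) :
    Ar Iᶜ (s z) m n F ↔ Ar {x : Pt | s x ∈ I}ᶜ z m n {y | s y ∈ F} := by
  constructor
  · rintro ⟨x, hx, y, hy, h⟩
    obtain ⟨x, rfl⟩ := s.surjective x
    obtain ⟨y, rfl⟩ := s.surjective y
    exact ⟨x, (hs.box z m x).mp hx, y, hy, (con_iff hs _ _ (box_mem hs I z n) x y).mp h⟩
  · rintro ⟨x, hx, y, hy, h⟩
    exact ⟨s x, (hs.box z m x).mpr hx, s y, hy, (con_iff hs _ _ (box_mem hs I z n) x y).mpr h⟩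

include hs in
theorem hub_iff (z : Pt) (m n : ℕ) :
    Hub Iᶜ (s z) m n ↔ Hub {x : Pt | s x ∈ I}ᶜ z m n := by
  have hc := con_iff hs _ _ (box_mem hs I z n)
  constructor
  · rintro h x hx y hy ⟨x', hx', h1⟩ ⟨y', hy', h2⟩
    exact (hc x y).mp (h (s x) ((hs.box z m x).mpr hx) (s y) ((hs.box z m y).mpr hy)
      ⟨s x', (hs.sp z n x').mpr hx', (hc x x').mpr h1⟩
      ⟨s y', (hs.sp z n y').mpr hy', (hc y y').mpr h2⟩)
  · rintro h x hx y hy ⟨x', hx', h1⟩ ⟨y', hy', h2⟩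
    obtain ⟨x, rfl⟩ := s.surjective x
    obtain ⟨y, rfl⟩ := s.surjective y
    obtain ⟨x', rfl⟩ := s.surjective x'
    obtain ⟨y', rfl⟩ := s.surjective y'
    exact (hc x y).mpr (h x ((hs.box z m x).mp hx) y ((hs.box z m y).mp hy)
      ⟨x', (hs.sp z n x').mp hx', (hc x x').mp h1⟩
      ⟨y', (hs.sp z n y').mp hy', (hc y y').mp h2⟩)

include hs in
theorem an_iff (z : Pt) (n : ℕ) : An I (s z) n ↔ An {x : Pt | s x ∈ I} z n := by
  have hb : ∀ x : Pt, s x ∈ (I ∩ Bx (s z) (3 * n) : Set Pt) ↔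
      x ∈ ({x : Pt | s x ∈ I} ∩ Bx z (3 * n) : Set Pt) := by
    intro x
    constructor
    · rintro ⟨h1, h2⟩
      exact ⟨h1, Finset.mem_coe.mpr ((hs.box z _ x).mp (Finset.mem_coe.mp h2))⟩
    · rintro ⟨h1, h2⟩
      exact ⟨h1, Finset.mem_coe.mpr ((hs.box z _ x).mpr (Finset.mem_coe.mp h2))⟩
  have hc := scon_iff hs _ _ hb
  constructor
  · rintro ⟨x, hx, y, hy, h⟩
    obtain ⟨x, rfl⟩ := s.surjective x
    obtain ⟨y, rfl⟩ := s.surjective y
    exact ⟨x, (hs.box z n x).mp hx, y, (hs.sp z _ y).mp hy, (hc x y).mp h⟩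
  · rintro ⟨x, hx, y, hy, h⟩
    exact ⟨s x, (hs.box z n x).mpr hx, s y, (hs.sp z _ y).mpr hy, (hc x y).mpr h⟩

end events

/-- translations -/
theorem sym_add (z : Pt) : Sym (Equiv.addRight z) where
  nn x y := by
    simp only [PLS.nn, Equiv.coe_addRight, Prod.fst_add, Prod.snd_add]
    omega
  st x y := by
    simp only [PLS.st, Equiv.coe_addRight, Prod.fst_add, Prod.snd_add, add_sub_add_right_eq_sub]
  box w n x := by
    simp only [mem_Bx, Equiv.coe_addRight, Prod.fst_add, Prod.snd_add, add_sub_add_right_eq_sub]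
  sp w n x := by
    simp only [mem_Sp, Equiv.coe_addRight, Prod.fst_add, Prod.snd_add, add_sub_add_right_eq_sub]

/-- the reflection of the first coordinate -/
def rf : Pt ≃ Pt where
  toFun x := (-x.1, x.2)
  invFun x := (-x.1, x.2)
  left_inv x := by simp
  right_inv x := by simp

theorem abs_neg_sub_neg (a b : ℤ) : |-a - -b| = |a - b| := by
  rw [← abs_neg]
  congr 1
  ring

theorem sym_rf : Sym rf where
  nn x y := by
    show PLS.nn (-x.1, x.2) (-y.1, y.2) ↔ _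
    simp only [PLS.nn]
    omega
  st x y := by
    show PLS.st (-x.1, x.2) (-y.1, y.2) ↔ _
    simp only [PLS.st, abs_neg_sub_neg]
  box w n x := by
    show ((-x.1, x.2) : Pt) ∈ Bx (-w.1, w.2) n ↔ _
    simp only [mem_Bx, abs_neg_sub_neg]
  sp w n x := by
    show ((-x.1, x.2) : Pt) ∈ Sp (-w.1, w.2) n ↔ _
    simp only [mem_Sp, abs_neg_sub_neg]

/-- the reflection in the diagonal -/
def sw : Pt ≃ Pt := Equiv.prodComm ℤ ℤ

theorem sym_sw : Sym sw where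
  nn x y := by
    show PLS.nn (x.2, x.1) (y.2, y.1) ↔ _
    simp only [PLS.nn]
    omega
  st x y := by
    show PLS.st (x.2, x.1) (y.2, y.1) ↔ _
    simp only [PLS.st]
    exact and_comm
  box w n x := by
    show ((x.2, x.1) : Pt) ∈ Bx (w.2, w.1) n ↔ _
    simp only [mem_Bx]
    exact and_comm
  sp w n x := by
    show ((x.2, x.1) : Pt) ∈ Sp (w.2, w.1) n ↔ _
    simp only [mem_Sp]
    exact and_congr and_comm or_comm

theorem lr_iff {s : Pt ≃ Pt} (hs : Sym s) (I : Set Pt) (a b c d a' b' c' d' : ℤ)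
    (h1 : ∀ x, (s x).1 = a ↔ x.1 = a') (h2 : ∀ x, (s x).1 = b ↔ x.1 = b')
    (h3 : ∀ x, s x ∈ Rc a b c d ↔ x ∈ Rc a' b' c' d') :
    LR Iᶜ a b c d ↔ LR {x : Pt | s x ∈ I}ᶜ a' b' c' d' := by
  have hb : ∀ x : Pt, s x ∈ (Iᶜ ∩ Rc a b c d : Set Pt) ↔
      x ∈ ({x : Pt | s x ∈ I}ᶜ ∩ Rc a' b' c' d' : Set Pt) := by
    intro x
    constructor
    · rintro ⟨k1, k2⟩
      exact ⟨k1, Finset.mem_coe.mpr ((h3 x).mp (Finset.mem_coe.mp k2))⟩
    · rintro ⟨k1, k2⟩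
      exact ⟨k1, Finset.mem_coe.mpr ((h3 x).mpr (Finset.mem_coe.mp k2))⟩
  have hc := con_iff hs _ _ hb
  constructor
  · rintro ⟨x, y, hx, hy, h⟩
    obtain ⟨x, rfl⟩ := s.surjective x
    obtain ⟨y, rfl⟩ := s.surjective y
    exact ⟨x, y, (h1 x).mp hx, (h2 y).mp hy, (hc x y).mp h⟩
  · rintro ⟨x, y, hx, hy, h⟩
    exact ⟨s x, s y, (h1 x).mpr hx, (h2 y).mpr hy, (hc x y).mpr h⟩

theorem tb_iff (I : Set Pt) (a b c d : ℤ) :
    TB Iᶜ c d a b ↔ LR {x : Pt | sw x ∈ I}ᶜ a b c d := by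
  have hb : ∀ x : Pt, sw x ∈ (Iᶜ ∩ Rc c d a b : Set Pt) ↔
      x ∈ ({x : Pt | sw x ∈ I}ᶜ ∩ Rc a b c d : Set Pt) := by
    intro x
    have h3 : sw x ∈ Rc c d a b ↔ x ∈ Rc a b c d := by
      show ((x.2, x.1) : Pt) ∈ Rc c d a b ↔ _
      simp only [mem_Rc]
      exact and_comm
    constructor
    · rintro ⟨k1, k2⟩
      exact ⟨k1, Finset.mem_coe.mpr (h3.mp (Finset.mem_coe.mp k2))⟩
    · rintro ⟨k1, k2⟩
      exact ⟨k1, Finset.mem_coe.mpr (h3.mpr (Finset.mem_coe.mp k2))⟩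
  have hc := con_iff sym_sw _ _ hb
  constructor
  · rintro ⟨x, y, hx, hy, h⟩
    obtain ⟨x, rfl⟩ := sw.surjective x
    obtain ⟨y, rfl⟩ := sw.surjective y
    exact ⟨x, y, hx, hy, (hc x y).mp h⟩
  · rintro ⟨x, y, hx, hy, h⟩
    exact ⟨sw x, sw y, hx, hy, (hc x y).mpr h⟩

/-- the reflection of the second coordinate -/
theorem refl2 (ν : Measure (Set Pt)) (h : PM ν) (A B : Set (Set Pt))
    (hAB : ∀ I, I ∈ B ↔ {x : Pt | sw (rf (sw x)) ∈ I} ∈ A) : ν.real B = ν.real A := by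
  have hr : ν.map (fun I => {x : Pt | rf x ∈ I}) = ν := h.refl
  have hw : ν.map (fun I => {x : Pt | sw x ∈ I}) = ν := h.swap
  have h1 : ν.real B = ν.real {I | {x : Pt | rf (sw x) ∈ I} ∈ A} :=
    real_eq ν sw hw _ _ fun I => hAB I
  have h2 : ν.real {I | {x : Pt | rf (sw x) ∈ I} ∈ A} = ν.real {I | {x : Pt | sw x ∈ I} ∈ A} :=
    real_eq ν rf hr _ _ fun I => Iff.rfl
  have h3 : ν.real {I | {x : Pt | sw x ∈ I} ∈ A} = ν.real A :=
    real_eq ν sw hw _ _ fun I => Iff.rfl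
  rw [h1, h2, h3]

theorem sym_trans {s t : Pt ≃ Pt} (hs : Sym s) (ht : Sym t) : Sym (s.trans t) where
  nn x y := (ht.nn _ _).trans (hs.nn _ _)
  st x y := (ht.st _ _).trans (hs.st _ _)
  box z n x := (ht.box _ _ _).trans (hs.box _ _ _)
  sp z n x := (ht.sp _ _ _).trans (hs.sp _ _ _)

/-- the reflection of the second coordinate, as a permutation -/
def rf2 : Pt ≃ Pt := (sw.trans rf).trans sw

theorem sym_rf2 : Sym rf2 := sym_trans (sym_trans sym_sw sym_rf) sym_sw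

end P2x

open P2x in
theorem P2 : St_P2 := by
  intro ν hν
  have hr : ν.map (fun I => {x : Pt | rf x ∈ I}) = ν := hν.refl
  have hw : ν.map (fun I => {x : Pt | sw x ∈ I}) = ν := hν.swap
  have ht : ∀ z : Pt, ν.map (fun I => {x : Pt | Equiv.addRight z x ∈ I}) = ν := hν.shift
  have hz : ∀ z : Pt, Equiv.addRight z (0 : Pt) = z := fun z => zero_add z
  have hLR2 : ∀ a b c d : ℤ, ν.real {I : Set Pt | LR Iᶜ a b (-d) (-c)} =
      ν.real {I : Set Pt | LR Iᶜ a b c d} := by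
    intro a b c d
    refine refl2 ν hν _ _ fun I => ?_
    refine lr_iff sym_rf2 I a b (-d) (-c) a b c d (fun x => Iff.rfl) (fun x => Iff.rfl) fun x => ?_
    show ((x.1, -x.2) : Pt) ∈ Rc a b (-d) (-c) ↔ _
    simp only [mem_Rc]
    omega
  have hTB : ∀ a b c d : ℤ, ν.real {I : Set Pt | TB Iᶜ c d a b} =
      ν.real {I : Set Pt | LR Iᶜ a b c d} := by
    intro a b c d
    exact real_eq ν sw hw _ _ fun I => tb_iff I a b c d
  refine ⟨?_, ?_, ?_, ?_, ?_, ?_, ?_, hLR2, hTB, ?_⟩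
  · intro z m n F
    refine real_eq ν (Equiv.addRight z) (ht z) _ _ fun I => ?_
    have h := ar_iff (sym_add z) I 0 m n F
    rw [hz] at h
    exact h
  · intro m n F
    refine real_eq ν rf hr _ _ fun I => ?_
    exact ar_iff sym_rf I 0 m n F
  · intro m n F
    refine refl2 ν hν _ _ fun I => ?_
    exact ar_iff sym_rf2 I 0 m n F
  · intro m n F
    refine real_eq ν sw hw _ _ fun I => ?_
    exact ar_iff sym_sw I 0 m n F
  · intro z m n
    refine real_eq ν (Equiv.addRight z) (ht z) _ _ fun I => ?_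
    have h := hub_iff (sym_add z) I 0 m n
    rw [hz] at h
    exact h
  · intro z n
    refine real_eq ν (Equiv.addRight z) (ht z) _ _ fun I => ?_
    have h := an_iff (sym_add z) I 0 n
    rw [hz] at h
    exact h
  · intro z a b c d
    refine real_eq ν (Equiv.addRight z) (ht z) _ _ fun I => ?_
    refine lr_iff (sym_add z) I _ _ _ _ a b c d (fun x => ?_) (fun x => ?_) fun x => ?_
    · exact add_left_inj z.1
    · exact add_left_inj z.1
    · show x + z ∈ _ ↔ _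
      simp only [mem_Rc, Prod.fst_add, Prod.snd_add]
      omega
  · intro a b c d
    rw [hTB, hLR2]

end PLS
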