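import Pool.Agent.PLS.StP

/-!
# PLS, P3: half sides and splitting height
-/

set_option autoImplicit false
set_option linter.unusedVariables false

open Finset Filter Topology MeasureTheory RInt

noncomputable section

namespace PLS

namespace P3x

/-- two decreasing local events -/
theorem two (h0 : St_P0) {ν : Measure (Set Pt)} (hν : PM ν) {K : Finset Pt} {A B : Set (Set Pt)}
    (hA : Local K A ∧ Dn A) (hB : Local K B ∧ Dn B) :
    (1 - ν.real A) * (1 - ν.real B) ≤ 1 - ν.real (A ∪ B) := by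
  have h := (h0 ν hν Bool Finset.univ (fun _ => K) (fun b => if b = true then A else B) (by
    intro i _
    cases i
    · simpa using hB
    · simpa using hA)).2
  have e : (⋃ i ∈ (Finset.univ : Finset Bool), (if i = true then A else B)) = A ∪ B := by
    ext I
    simp only [Finset.mem_univ, Set.iUnion_true, Set.mem_iUnion, Bool.exists_bool, Set.mem_union]
    simp only [Bool.false_eq_true, if_false, if_true]
    exact or_comm
  rw [e] at h
  simpa [Fintype.prod_bool] using h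

/-- the eight reflections -/
def G (F : Set Pt) (s : Bool × Bool × Bool) : Set Pt :=
  {y | (if s.1 = true then
      ((if s.2.1 = true then -y.2 else y.2, if s.2.2 = true then -y.1 else y.1) : Pt)
      else ((if s.2.1 = true then -y.1 else y.1, if s.2.2 = true then -y.2 else y.2) : Pt)) ∈ F}

theorem inv (h2 : St_P2) {ν : Measure (Set Pt)} (hν : PM ν) (m n : ℕ) (F : Set Pt)
    (s : Bool × Bool × Bool) : ν.real {I : Set Pt | Ar Iᶜ 0 m n (G F s)} =
      ν.real {I : Set Pt | Ar Iᶜ 0 m n F} := by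
  obtain ⟨-, r1, r2, r3, -⟩ := h2 ν hν
  obtain ⟨s1, s2, s3⟩ := s
  have a1 : ∀ F : Set Pt, ν.real {I : Set Pt | Ar Iᶜ 0 m n {y | ((if s2 = true then -y.1 else y.1, y.2) : Pt) ∈ F}} =
      ν.real {I : Set Pt | Ar Iᶜ 0 m n F} := by
    intro F
    cases s2
    · simp
    · simpa using (r1 m n F).symm
  have a2 : ∀ F : Set Pt, ν.real {I : Set Pt | Ar Iᶜ 0 m n {y | ((y.1, if s3 = true then -y.2 else y.2) : Pt) ∈ F}} =
      ν.real {I : Set Pt | Ar Iᶜ 0 m n F} := by
    intro F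
    cases s3
    · simp
    · simpa using (r2 m n F).symm
  have a3 : ∀ F : Set Pt, ν.real {I : Set Pt | Ar Iᶜ 0 m n {y | ((if s2 = true then -y.1 else y.1,
      if s3 = true then -y.2 else y.2) : Pt) ∈ F}} = ν.real {I : Set Pt | Ar Iᶜ 0 m n F} := by
    intro F
    rw [← a1 F, ← a2 {y | ((if s2 = true then -y.1 else y.1, y.2) : Pt) ∈ F}]
    rfl
  cases s1
  · rw [← a3 F]
    simp [G]
  · rw [← a3 F, r3 m n {y | ((if s2 = true then -y.1 else y.1,
      if s3 = true then -y.2 else y.2) : Pt) ∈ F}]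
    simp [G]

/-- the sphere is covered by the images of the half side -/
theorem cover {n : ℕ} {y : Pt} (hy : y ∈ Sp 0 n) : ∃ s, y ∈ G (Rs n 0 n) s := by
  simp only [Sp, Bx, Rc, Finset.mem_filter, Finset.mem_product, Finset.mem_Icc, Prod.fst_zero,
    Prod.snd_zero, zero_sub, zero_add, sub_zero] at hy
  obtain ⟨⟨⟨a1, a2⟩, a3, a4⟩, h⟩ := hy
  rcases h with h | h
  · rcases abs_eq (by positivity) |>.1 h with e | e
    · rcases le_total 0 y.2 with k | k
      · exact ⟨(false, false, false), by simp [G, Rs, e]; omega⟩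
      · exact ⟨(false, false, true), by simp [G, Rs, e]; omega⟩
    · rcases le_total 0 y.2 with k | k
      · exact ⟨(false, true, false), by simp [G, Rs, e]; omega⟩
      · exact ⟨(false, true, true), by simp [G, Rs, e]; omega⟩
  · rcases abs_eq (by positivity) |>.1 h with e | e
    · rcases le_total 0 y.1 with k | k
      · exact ⟨(true, false, false), by simp [G, Rs, e]; omega⟩
      · exact ⟨(true, false, true), by simp [G, Rs, e]; omega⟩
    · rcases le_total 0 y.1 with k | k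
      · exact ⟨(true, true, false), by simp [G, Rs, e]; omega⟩
      · exact ⟨(true, true, true), by simp [G, Rs, e]; omega⟩

/-- eight arms -/
theorem eight (h0 : St_P0) (h1 : St_P1) (h2 : St_P2) {ν : Measure (Set Pt)} (hν : PM ν) (m n : ℕ) :
    (1 - ν.real {I : Set Pt | Ar Iᶜ 0 m n (Rs n 0 n)}) ^ 8 ≤
      1 - ν.real {I : Set Pt | Ar Iᶜ 0 m n (Sp 0 n)} := by
  have := hν.prob
  have h := (h0 ν hν (Bool × Bool × Bool) Finset.univ (fun _ => Bx 0 n)
    (fun s => {I : Set Pt | Ar Iᶜ 0 m n (G (Rs n 0 n) s)}) (fun s _ => h1.1 0 m n _)).2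
  have e : ∏ s : Bool × Bool × Bool, (1 - ν.real {I : Set Pt | Ar Iᶜ 0 m n (G (Rs n 0 n) s)}) =
      (1 - ν.real {I : Set Pt | Ar Iᶜ 0 m n (Rs n 0 n)}) ^ 8 := by
    rw [Finset.prod_congr rfl (fun s _ => by rw [inv h2 hν m n (Rs n 0 n) s])]
    rw [Finset.prod_const]
    rfl
  rw [e] at h
  refine h.trans (sub_le_sub_left (measureReal_mono ?_ (measure_ne_top _ _)) 1)
  rintro I ⟨x, hx, y, hy, hc⟩
  obtain ⟨s, hs⟩ := cover hy
  exact Set.mem_iUnion₂.2 ⟨s, Finset.mem_univ s, x, hx, y, hs, hc⟩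

/-- two parts of the half side -/
theorem split (h0 : St_P0) (h1 : St_P1) {ν : Measure (Set Pt)} (hν : PM ν) (m n : ℕ) (a : ℤ) :
    (1 - ν.real {I : Set Pt | Ar Iᶜ 0 m n (Rs n 0 a)}) *
      (1 - ν.real {I : Set Pt | Ar Iᶜ 0 m n (Rs n (a + 1) n)}) ≤
      1 - ν.real {I : Set Pt | Ar Iᶜ 0 m n (Rs n 0 n)} := by
  have := hν.prob
  refine (two h0 hν (h1.1 0 m n (Rs n 0 a)) (h1.1 0 m n (Rs n (a + 1) n))).trans
    (sub_le_sub_left (measureReal_mono ?_ (measure_ne_top _ _)) 1)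
  rintro I ⟨x, hx, y, hy, hc⟩
  rcases le_or_gt y.2 a with k | k
  · exact Or.inl ⟨x, hx, y, ⟨hy.1, hy.2.1, k⟩, hc⟩
  · exact Or.inr ⟨x, hx, y, ⟨hy.1, by omega, hy.2.2⟩, hc⟩

end P3x

open P3x in
theorem P3 (h0 : St_P0) (h1 : St_P1) (h2 : St_P2) : St_P3 := by
  intro ν hν m n
  have := hν.prob
  have hle : ∀ a b : ℤ, ν.real {I : Set Pt | Ar Iᶜ 0 m n (Rs n a b)} ≤ 1 :=
    fun a b => measureReal_le_one
  have hpos : ∀ a b : ℤ, 0 ≤ 1 - ν.real {I : Set Pt | Ar Iᶜ 0 m n (Rs n a b)} :=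
    fun a b => sub_nonneg.2 (hle a b)
  have key : ∀ t : ℝ, 0 ≤ t → t ^ 2 ≤ 1 - ν.real {I : Set Pt | Ar Iᶜ 0 m n (Rs n 0 n)} →
      t ^ 16 ≤ 1 - ν.real {I : Set Pt | Ar Iᶜ 0 m n (Sp 0 n)} := by
    intro t ht h
    calc t ^ 16 = (t ^ 2) ^ 8 := by ring
      _ ≤ (1 - ν.real {I : Set Pt | Ar Iᶜ 0 m n (Rs n 0 n)}) ^ 8 := by gcongr
      _ ≤ _ := eight h0 h1 h2 hν m n
  classical
  have hex : ∃ α : ℕ, ν.real {I : Set Pt | Ar Iᶜ 0 m n (Rs n (α + 1) n)} ≤
      ν.real {I : Set Pt | Ar Iᶜ 0 m n (Rs n 0 α)} := by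
    refine ⟨n, ?_⟩
    have e : {I : Set Pt | Ar Iᶜ 0 m n (Rs n (n + 1) n)} = ∅ := by
      ext I
      simp only [Set.mem_ofPred_eq, Set.mem_empty_iff_false, iff_false]
      rintro ⟨x, hx, y, hy, hc⟩
      have h3 := hy.2.1
      have h4 := hy.2.2
      omega
    rw [e]
    simp
  have hn : Nat.find hex ≤ n := Nat.find_min' hex (by
    have e : {I : Set Pt | Ar Iᶜ 0 m n (Rs n (n + 1) n)} = ∅ := by
      ext I
      simp only [Set.mem_ofPred_eq, Set.mem_empty_iff_false, iff_false]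
      rintro ⟨x, hx, y, hy, hc⟩
      have h3 := hy.2.1
      have h4 := hy.2.2
      omega
    rw [e]
    simp)
  refine ⟨Nat.find hex, hn, ?_, ?_⟩
  · refine key _ (hpos _ _) ?_
    have h3 := Nat.find_spec hex
    refine le_trans ?_ (split h0 h1 hν m n (Nat.find hex))
    rw [sq]
    exact mul_le_mul_of_nonneg_left (sub_le_sub_left h3 1) (hpos _ _)
  · refine key _ (hpos _ _) ?_
    rcases Nat.eq_zero_or_pos (Nat.find hex) with h3 | h3
    · rw [h3]
      have h4 := hpos 0 n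
      have h5 : 1 - ν.real {I : Set Pt | Ar Iᶜ 0 m n (Rs n 0 n)} ≤ 1 :=
        sub_le_self 1 measureReal_nonneg
      rw [Nat.cast_zero]
      nlinarith
    · have h4 := Nat.find_min hex (Nat.sub_lt h3 one_pos)
      have e : ((Nat.find hex - 1 : ℕ) : ℤ) + 1 = (Nat.find hex : ℤ) := by omega
      have h5 := split h0 h1 hν m n ((Nat.find hex - 1 : ℕ) : ℤ)
      rw [e] at h5 h4
      refine le_trans ?_ h5
      rw [sq]
      exact mul_le_mul_of_nonneg_right (sub_le_sub_left (not_le.1 h4).le 1) (hpos _ _)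

end PLS
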