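import Pool.Agent.PLS.StP

/-!
# PLS, module P4: crossings in the long direction at arbitrarily large scales
-/

set_option autoImplicit false
set_option linter.unusedVariables false

open Finset Filter Topology MeasureTheory RInt

noncomputable section

namespace PLS

namespace P4x

theorem shiftArm (ν : Measure (Set Pt)) (h : ∀ (z : Pt) (m n : ℕ) (F : Set Pt),
    ν.real {I : Set Pt | Ar Iᶜ z m n F} = ν.real {I : Set Pt | Ar Iᶜ 0 m n {y | y + z ∈ F}})
    (z : Pt) (m n : ℕ) (F F' : Set Pt) (hF : ∀ y : Pt, y + z ∈ F ↔ y ∈ F') :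
    ν.real {I : Set Pt | Ar Iᶜ z m n F} = ν.real {I : Set Pt | Ar Iᶜ 0 m n F'} := by
  rw [h]
  have : {y : Pt | y + z ∈ F} = F' := Set.ext fun y => hF y
  rw [this]

/-- the even seeds -/
def zE (N n : ℕ) (i : ℕ) : Pt := ((2 * i * (N - n) : ℤ), 0)

/-- the odd seeds -/
def zO (N n a : ℕ) (i : ℕ) : Pt := (((2 * i + 1) * (N - n) : ℤ), (a : ℤ))

/-- the goals of the even seeds -/
def FE (N n a' : ℕ) (i : ℕ) : Bool → Set Pt
  | true => {y | y.1 = 2 * i * (N - n) + N ∧ 0 ≤ y.2 ∧ y.2 ≤ a'}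
  | false => {y | y.1 = 2 * i * (N - n) - N ∧ 0 ≤ y.2 ∧ y.2 ≤ a'}

/-- the goals of the odd seeds -/
def FO (N n a : ℕ) (i : ℕ) : Bool → Bool → Set Pt
  | true, true => {y | y.1 = (2 * i + 1) * (N - n) + n ∧ 2 * a ≤ y.2 ∧ y.2 ≤ a + n}
  | true, false => {y | y.1 = (2 * i + 1) * (N - n) + n ∧ a - n ≤ y.2 ∧ y.2 ≤ 0}
  | false, true => {y | y.1 = (2 * i + 1) * (N - n) - n ∧ 2 * a ≤ y.2 ∧ y.2 ≤ a + n}
  | false, false => {y | y.1 = (2 * i + 1) * (N - n) - n ∧ a - n ≤ y.2 ∧ y.2 ≤ 0}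

/-- the index set of the arms -/
def sI : Finset ((ℕ × Bool) ⊕ (ℕ × Bool × Bool)) :=
  (range 11 ×ˢ univ).disjSum (range 10 ×ˢ univ)

theorem sI_card : sI.card = 62 := by
  unfold sI
  rw [card_disjSum, card_product, card_product]
  simp

/-- the domains of the arms -/
def KI (N n a : ℕ) : (ℕ × Bool) ⊕ (ℕ × Bool × Bool) → Finset Pt
  | .inl p => Bx (zE N n p.1) N
  | .inr p => Bx (zO N n a p.1) n

/-- the arms -/
def AI (m N n a a' : ℕ) : (ℕ × Bool) ⊕ (ℕ × Bool × Bool) → Set (Set Pt)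
  | .inl p => {I | Ar Iᶜ (zE N n p.1) m N (FE N n a' p.1 p.2)}
  | .inr p => {I | Ar Iᶜ (zO N n a p.1) m n (FO N n a p.1 p.2.1 p.2.2)}

theorem probE (ν : Measure (Set Pt)) (hν : PM ν) (h2 : St_P2) (m N n a' : ℕ) (i : ℕ) (b : Bool) :
    ν.real {I : Set Pt | Ar Iᶜ (zE N n i) m N (FE N n a' i b)} =
      ν.real {I : Set Pt | Ar Iᶜ 0 m N (Rs N 0 a')} := by
  obtain ⟨r1, r2, r3, -⟩ := h2 ν hν
  cases b with
  | true =>
    apply shiftArm ν r1
    intro y
    simp only [FE, zE, Rs, Set.mem_setOf_eq, Prod.fst_add, Prod.snd_add]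
    constructor
    · rintro ⟨h1, h2, h3⟩
      refine ⟨by linarith, by linarith, by linarith⟩
    · rintro ⟨h1, h2, h3⟩
      refine ⟨by linarith, by linarith, by linarith⟩
  | false =>
    rw [r2 m N (Rs N 0 a')]
    apply shiftArm ν r1
    intro y
    simp only [FE, zE, Rs, Set.mem_setOf_eq, Prod.fst_add, Prod.snd_add]
    constructor
    · rintro ⟨h1, h2, h3⟩
      refine ⟨by linarith, by linarith, by linarith⟩
    · rintro ⟨h1, h2, h3⟩
      refine ⟨by linarith, by linarith, by linarith⟩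

theorem probO (ν : Measure (Set Pt)) (hν : PM ν) (h2 : St_P2) (m N n a : ℕ) (i : ℕ) (b c : Bool) :
    ν.real {I : Set Pt | Ar Iᶜ (zO N n a i) m n (FO N n a i b c)} =
      ν.real {I : Set Pt | Ar Iᶜ 0 m n (Rs n a n)} := by
  obtain ⟨r1, r2, r3, -⟩ := h2 ν hν
  cases b with
  | true =>
    cases c with
    | true =>
      apply shiftArm ν r1
      intro y
      simp only [FO, zO, Rs, Set.mem_setOf_eq, Prod.fst_add, Prod.snd_add]
      constructor
      · rintro ⟨h1, h2, h3⟩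
        refine ⟨by linarith, by linarith, by linarith⟩
      · rintro ⟨h1, h2, h3⟩
        refine ⟨by linarith, by linarith, by linarith⟩
    | false =>
      rw [r3 m n (Rs n a n)]
      apply shiftArm ν r1
      intro y
      simp only [FO, zO, Rs, Set.mem_setOf_eq, Prod.fst_add, Prod.snd_add]
      constructor
      · rintro ⟨h1, h2, h3⟩
        refine ⟨by linarith, by linarith, by linarith⟩
      · rintro ⟨h1, h2, h3⟩
        refine ⟨by linarith, by linarith, by linarith⟩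
  | false =>
    cases c with
    | true =>
      rw [r2 m n (Rs n a n)]
      apply shiftArm ν r1
      intro y
      simp only [FO, zO, Rs, Set.mem_setOf_eq, Prod.fst_add, Prod.snd_add]
      constructor
      · rintro ⟨h1, h2, h3⟩
        refine ⟨by linarith, by linarith, by linarith⟩
      · rintro ⟨h1, h2, h3⟩
        refine ⟨by linarith, by linarith, by linarith⟩
    | false =>
      rw [r3 m n (Rs n a n), r2]
      apply shiftArm ν r1
      intro y
      simp only [FO, zO, Rs, Set.mem_setOf_eq, Prod.fst_add, Prod.snd_add]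
      constructor
      · rintro ⟨h1, h2, h3⟩
        refine ⟨by linarith, by linarith, by linarith⟩
      · rintro ⟨h1, h2, h3⟩
        refine ⟨by linarith, by linarith, by linarith⟩

/-- the hub at `z` fails with the same probability as the hub at `0` -/
theorem hubFail (ν : Measure (Set Pt)) (hν : PM ν) (h1 : St_P1) (h2 : St_P2) (z : Pt) (m m' : ℕ) :
    ν.real {I : Set Pt | ¬ Hub Iᶜ z m m'} = ν.real {I : Set Pt | ¬ Hub Iᶜ 0 m m'} := by
  have := hν.prob
  obtain ⟨-, -, -, q4, -⟩ := h1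
  obtain ⟨-, -, -, -, r5, -⟩ := h2 ν hν
  have key : ∀ w : Pt, ν.real {I : Set Pt | ¬ Hub Iᶜ w m m'} =
      1 - ν.real {I : Set Pt | Hub Iᶜ w m m'} := by
    intro w
    have hm : MeasurableSet {I : Set Pt | Hub Iᶜ w m m'} := local_measurable _ _ (q4 w m m')
    have := probReal_compl_eq_one_sub (μ := ν) hm
    rw [← this]
    rfl
  rw [key z, key 0, r5]

end P4x

open P4x in
theorem P4 (h0 : St_P0) (h1 : St_P1) (h2 : St_P2) (h3 : St_P3) (hT5 : St_T5) (hT7 : St_T7)
    (hT11 : St_T11) : St_P4 := by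
  intro ν hν m m' β η hm hβ0 hβ1 harm hhub n₀
  have := hν.prob
  choose α hα1 hα2 hα3 using h3 ν hν m
  have hk : ∀ x p : ℝ, x ≤ 1 → (1 - x) ^ 16 ≤ 1 - p → 1 - β ^ 16 ≤ p → 1 - β ≤ x := by
    intro x p hx h1 h2
    have h3 : (1 - x) ^ 16 ≤ β ^ 16 := by linarith
    have h4 := (pow_le_pow_iff_left₀ (by linarith : (0 : ℝ) ≤ 1 - x) hβ0 (by norm_num)).1 h3
    linarith
  have hA1 : ∀ n, m ≤ n → 1 - β ≤ ν.real {I : Set Pt | Ar Iᶜ 0 m n (Rs n 0 (α n))} :=
    fun n hn => hk _ _ measureReal_le_one (hα2 n) (harm n hn)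
  have hA2 : ∀ n, m ≤ n → 1 - β ≤ ν.real {I : Set Pt | Ar Iᶜ 0 m n (Rs n (α n) n)} :=
    fun n hn => hk _ _ measureReal_le_one (hα3 n) (harm n hn)
  obtain ⟨n, hn0, hnα⟩ := hT11 α (max n₀ (max m' 11)) hα1
  have hn1 : n₀ ≤ n := le_trans (le_max_left _ _) hn0
  have hn2 : m' ≤ n := le_trans (le_trans (le_max_left _ _) (le_max_right _ _)) hn0
  have hn3 : 11 ≤ n := le_trans (le_trans (le_max_right _ _) (le_max_right _ _)) hn0
  obtain ⟨N, hN⟩ : ∃ N, N = n + n / 2 := ⟨_, rfl⟩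
  rw [← hN] at hnα
  refine ⟨n, hn1, ?_⟩
  -- the product
  have hprod := (h0 ν hν ((ℕ × Bool) ⊕ (ℕ × Bool × Bool)) sI (KI N n (α n))
    (AI m N n (α n) (α N)) (by
      rintro (p | p) hp
      · exact h1.1 _ _ _ _
      · exact h1.1 _ _ _ _)).1
  have hlow : (1 - β) ^ 62 ≤ ∏ i ∈ sI, ν.real (AI m N n (α n) (α N) i) := by
    rw [← sI_card, ← prod_const]
    apply Finset.prod_le_prod
    · intro i _
      linarith
    · rintro (p | p) hp
      · show 1 - β ≤ ν.real {I | Ar Iᶜ (zE N n p.1) m N (FE N n (α N) p.1 p.2)}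
        rw [probE ν hν h2]
        exact hA1 N (by omega)
      · show 1 - β ≤ ν.real {I | Ar Iᶜ (zO N n (α n) p.1) m n (FO N n (α n) p.1 p.2.1 p.2.2)}
        rw [probO ν hν h2]
        exact hA2 n (by omega)
  -- the hubs
  set B1 : Set (Set Pt) := ⋃ i ∈ range 11, {I : Set Pt | ¬ Hub Iᶜ (zE N n i) m m'} with hB1
  set B2 : Set (Set Pt) := ⋃ i ∈ range 10, {I : Set Pt | ¬ Hub Iᶜ (zO N n (α n) i) m m'} with hB2
  have hB1' : ν.real B1 ≤ 11 * η := by
    refine (measureReal_biUnion_finset_le _ _).trans ?_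
    calc ∑ i ∈ range 11, ν.real {I : Set Pt | ¬ Hub Iᶜ (zE N n i) m m'}
        ≤ ∑ i ∈ range 11, η := by
          apply sum_le_sum
          intro i _
          rw [hubFail ν hν h1 h2]
          exact hhub
      _ = 11 * η := by
          rw [sum_const, card_range, nsmul_eq_mul]
          norm_num
  have hB2' : ν.real B2 ≤ 10 * η := by
    refine (measureReal_biUnion_finset_le _ _).trans ?_
    calc ∑ i ∈ range 10, ν.real {I : Set Pt | ¬ Hub Iᶜ (zO N n (α n) i) m m'}
        ≤ ∑ i ∈ range 10, η := by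
          apply sum_le_sum
          intro i _
          rw [hubFail ν hν h1 h2]
          exact hhub
      _ = 10 * η := by
          rw [sum_const, card_range, nsmul_eq_mul]
          norm_num
  set L : Set (Set Pt) :=
    {I : Set Pt | LR Iᶜ (-N) (2 * (10 : ℕ) * (N - n) + N) (-N) (2 * n)} with hL
  have hsub : (⋂ i ∈ sI, AI m N n (α n) (α N) i) ⊆ L ∪ (B1 ∪ B2) := by
    intro I hI
    by_contra hcon
    rw [Set.mem_union, Set.mem_union, not_or, not_or] at hcon
    obtain ⟨hc0, hc1, hc2⟩ := hcon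
    rw [Set.mem_iInter₂] at hI
    apply hc0
    show LR Iᶜ (-N) (2 * (10 : ℕ) * (N - n) + N) (-N) (2 * n)
    apply hT7 Iᶜ m m' n N 10 (α n) (α N) hm hn2 (by omega) (by omega) (hα1 n) hnα
    · intro i hi
      have hi' : i ∈ range 11 := mem_range.2 (by omega)
      refine ⟨?_, ?_, ?_⟩
      · by_contra hh
        apply hc1
        rw [hB1, Set.mem_iUnion₂]
        exact ⟨i, hi', hh⟩
      · exact hI (Sum.inl (i, true)) (by simp [sI, hi'] )
      · exact hI (Sum.inl (i, false)) (by simp [sI, hi'])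
    · intro i hi
      have hi' : i ∈ range 10 := mem_range.2 (by omega)
      refine ⟨?_, ?_, ?_, ?_, ?_⟩
      · by_contra hh
        apply hc2
        rw [hB2, Set.mem_iUnion₂]
        exact ⟨i, hi', hh⟩
      · exact hI (Sum.inr (i, true, true)) (by simp [sI, hi'])
      · exact hI (Sum.inr (i, true, false)) (by simp [sI, hi'])
      · exact hI (Sum.inr (i, false, true)) (by simp [sI, hi'])
      · exact hI (Sum.inr (i, false, false)) (by simp [sI, hi'])
  have hLp : (1 - β) ^ 62 - 21 * η ≤ ν.real L := by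
    have e1 := measureReal_mono (μ := ν) hsub
    have e2 := measureReal_union_le (μ := ν) L (B1 ∪ B2)
    have e3 := measureReal_union_le (μ := ν) B1 B2
    linarith
  refine hLp.trans ?_
  -- translation
  obtain ⟨-, -, -, -, -, -, r7, -⟩ := h2 ν hν
  have htr := r7 (((N : ℤ) - 6 * n, (N : ℤ) + 2 * n + 1) : Pt) (-N)
    (2 * (10 : ℕ) * (N - n) + N) (-N) (2 * n)
  rw [hL, ← htr]
  refine measureReal_mono ?_ (measure_ne_top _ _)
  intro I hI
  refine hT5.1 _ _ _ _ _ _ _ _ _ ?_ ?_ ?_ ?_ ?_ hI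
  · push_cast
    linarith
  · have : (0 : ℤ) ≤ n := by positivity
    linarith
  · simp only
    push_cast
    omega
  · simp only
    linarith
  · simp only
    omega

end PLS
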