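import Pool.Agent.PLS.StP

/-!
# PLS, P5: if there is percolation then all boxes have the hub property, and large boxes are connected to infinity
-/

set_option autoImplicit false
set_option linter.unusedVariables false

open Finset Filter Topology MeasureTheory RInt

noncomputable section

namespace PLS

namespace P5x

/-! ### Membership -/

theorem mem_Rc {x : Pt} {a b c d : ℤ} : x ∈ Rc a b c d ↔ (a ≤ x.1 ∧ x.1 ≤ b) ∧ c ≤ x.2 ∧ x.2 ≤ d := by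
  unfold Rc
  rw [Finset.mem_product, Finset.mem_Icc, Finset.mem_Icc]

theorem mem_Bx {x z : Pt} {n : ℕ} : x ∈ Bx z n ↔
    (z.1 - n ≤ x.1 ∧ x.1 ≤ z.1 + n) ∧ z.2 - n ≤ x.2 ∧ x.2 ≤ z.2 + n := by
  unfold Bx
  rw [mem_Rc]

theorem mem_Sp {x z : Pt} {n : ℕ} : x ∈ Sp z n ↔
    x ∈ Bx z n ∧ (|x.1 - z.1| = n ∨ |x.2 - z.2| = n) := by
  unfold Sp
  rw [Finset.mem_filter]

/-! ### Translations -/

theorem con_map {V W : Set Pt} (f : Pt → Pt) (hf : ∀ a b, nn a b → nn (f a) (f b))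
    (h : ∀ a ∈ V, f a ∈ W) {x y : Pt} (hc : Con V x y) : Con W (f x) (f y) :=
  ⟨h _ hc.1, hc.2.lift f fun a b hab => ⟨h a hab.1, h b hab.2.1, hf a b hab.2.2⟩⟩

theorem con_mono {V W : Set Pt} (h : V ⊆ W) {x y : Pt} (hc : Con V x y) : Con W x y :=
  con_map id (fun a b hab => hab) (fun a ha => h ha) hc

theorem nn_sub (w : Pt) (a b : Pt) (h : nn a b) : nn (a - w) (b - w) := by
  unfold nn at h ⊢
  simp only [Prod.fst_sub, Prod.snd_sub]
  omega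

theorem LR_shift {V : Set Pt} (w : Pt) {a b c d a' b' c' d' : ℤ} (ha : a' = a - w.1)
    (hb : b' = b - w.1) (hc : c' = c - w.2) (hd : d' = d - w.2) (h : LR V a b c d) :
    LR {x : Pt | x + w ∈ V} a' b' c' d' := by
  obtain ⟨x, y, hx, hy, hxy⟩ := h
  refine ⟨x - w, y - w, ?_, ?_, con_map (fun z => z - w) (nn_sub w) ?_ hxy⟩
  · rw [Prod.fst_sub, hx, ha]
  · rw [Prod.fst_sub, hy, hb]
  · rintro z ⟨hz, hz'⟩
    refine ⟨?_, ?_⟩
    · change z - w + w ∈ V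
      rw [sub_add_cancel]
      exact hz
    · have h1 : z ∈ Rc a b c d := hz'
      rw [mem_Rc] at h1
      change z - w ∈ Rc a' b' c' d'
      rw [mem_Rc, Prod.fst_sub, Prod.snd_sub]
      omega

theorem TB_shift {V : Set Pt} (w : Pt) {a b c d a' b' c' d' : ℤ} (ha : a' = a - w.1)
    (hb : b' = b - w.1) (hc : c' = c - w.2) (hd : d' = d - w.2) (h : TB V a b c d) :
    TB {x : Pt | x + w ∈ V} a' b' c' d' := by
  obtain ⟨x, y, hx, hy, hxy⟩ := h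
  refine ⟨x - w, y - w, ?_, ?_, con_map (fun z => z - w) (nn_sub w) ?_ hxy⟩
  · rw [Prod.snd_sub, hx, hc]
  · rw [Prod.snd_sub, hy, hd]
  · rintro z ⟨hz, hz'⟩
    refine ⟨?_, ?_⟩
    · change z - w + w ∈ V
      rw [sub_add_cancel]
      exact hz
    · have h1 : z ∈ Rc a b c d := hz'
      rw [mem_Rc] at h1
      change z - w ∈ Rc a' b' c' d'
      rw [mem_Rc, Prod.fst_sub, Prod.snd_sub]
      omega

theorem Rg_shift {V : Set Pt} (w z : Pt) {h : ℕ} (hR : Rg V z h) :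
    Rg {x : Pt | x + w ∈ V} (z - w) h := by
  obtain ⟨h1, h2, h3, h4⟩ := hR
  refine ⟨LR_shift w ?_ ?_ ?_ ?_ h1, LR_shift w ?_ ?_ ?_ ?_ h2, TB_shift w ?_ ?_ ?_ ?_ h3,
    TB_shift w ?_ ?_ ?_ ?_ h4⟩ <;>
  · simp only [Prod.fst_sub, Prod.snd_sub]
    ring

/-! ### The events -/

/-- there are rings around all finite sets -/
def TT : Set (Set Pt) := {I | ∀ m : ℕ, ∃ (z : Pt) (h : ℕ), Bx 0 m ⊆ Bx z h ∧ Rg Iᶜ z h}

theorem TT_meas (h1 : St_P1) : MeasurableSet TT := by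
  obtain ⟨-, -, -, -, hRg, -, -⟩ := h1
  have h : TT = ⋂ m : ℕ, ⋃ z : Pt, ⋃ h : ℕ, ({I : Set Pt | Bx 0 m ⊆ Bx z h} ∩
      {I : Set Pt | Rg Iᶜ z h}) := by
    ext I
    simp only [Set.mem_iInter, Set.mem_iUnion]
    exact Iff.rfl
  rw [h]
  exact MeasurableSet.iInter fun m => MeasurableSet.iUnion fun z => MeasurableSet.iUnion fun h =>
    (MeasurableSet.const _).inter (local_measurable _ _ (hRg z h).1)

theorem TT_inv (w : Pt) (I : Set Pt) (hI : I ∈ TT) : {x : Pt | x + w ∈ I} ∈ TT := by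
  intro m
  obtain ⟨z, h, h1, h2⟩ := hI (m + (w.1.natAbs + w.2.natAbs))
  refine ⟨z - w, h, ?_, Rg_shift w z h2⟩
  intro x hx
  have h3 : x + w ∈ Bx 0 (m + (w.1.natAbs + w.2.natAbs)) := by
    rw [mem_Bx] at hx ⊢
    simp only [Prod.fst_add, Prod.snd_add, Prod.fst_zero, Prod.snd_zero] at hx ⊢
    omega
  have h4 := h1 h3
  rw [mem_Bx] at h4 ⊢
  simp only [Prod.fst_add, Prod.snd_add, Prod.fst_sub, Prod.snd_sub] at h4 ⊢
  omega

/-- the box of radius `m` is connected to all the spheres -/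
def FF (m : ℕ) : Set (Set Pt) := {I | ∀ n, m ≤ n → Ar Iᶜ 0 m n (Sp 0 n)}

theorem Bx_mono {z : Pt} {m n : ℕ} (h : m ≤ n) : Bx z m ⊆ Bx z n := by
  intro x hx
  rw [mem_Bx] at hx ⊢
  omega

theorem FF_mono : Monotone FF := by
  intro m m' hm I hI n hn
  obtain ⟨x, hx, y, hy, hxy⟩ := hI n (hm.trans hn)
  exact ⟨x, Bx_mono hm hx, y, hy, hxy⟩

theorem FF_meas (h1 : St_P1) (m : ℕ) : MeasurableSet (FF m) := by
  obtain ⟨hAr, -⟩ := h1
  have h : FF m = ⋂ n : ℕ, ⋂ _ : m ≤ n, {I : Set Pt | Ar Iᶜ 0 m n (Sp 0 n)} := by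
    ext I
    simp only [Set.mem_iInter]
    exact Iff.rfl
  rw [h]
  exact MeasurableSet.iInter fun n => MeasurableSet.iInter fun _ =>
    local_measurable _ _ (hAr 0 m n _).1

theorem FF_inv (h0 : St_T0) (w : Pt) (I : Set Pt) (hI : I ∈ ⋃ m, FF m) :
    {x : Pt | x + w ∈ I} ∈ ⋃ m, FF m := by
  obtain ⟨-, -, -, -, -, -, -, -, hS, -⟩ := h0
  rw [Set.mem_iUnion] at hI ⊢
  obtain ⟨m, hm⟩ := hI
  refine ⟨m + (w.1.natAbs + w.2.natAbs), fun n hn => ?_⟩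
  obtain ⟨x, hx, y, hy, hxy⟩ := hm (n + (w.1.natAbs + w.2.natAbs) + 1) (by omega)
  have h1 : Con {x : Pt | x + w ∈ I}ᶜ (x - w) (y - w) := by
    refine con_map (fun z => z - w) (nn_sub w) ?_ hxy
    rintro z ⟨hz, -⟩
    change ¬ (z - w + w ∈ I)
    rw [sub_add_cancel]
    exact hz
  have h2 : x - w ∈ Bx 0 (m + (w.1.natAbs + w.2.natAbs)) := by
    rw [mem_Bx] at hx ⊢
    simp only [Prod.fst_sub, Prod.snd_sub, Prod.fst_zero, Prod.snd_zero] at hx ⊢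
    omega
  have h3 : y - w ∉ Bx 0 n := by
    have hy' : y ∈ Sp 0 (n + (w.1.natAbs + w.2.natAbs) + 1) := hy
    rw [mem_Sp] at hy'
    rw [mem_Bx]
    simp only [Prod.fst_sub, Prod.snd_sub, Prod.fst_zero, Prod.snd_zero, sub_zero] at hy' ⊢
    obtain ⟨-, h | h⟩ := hy'
    · rw [Int.abs_eq_natAbs] at h
      omega
    · rw [Int.abs_eq_natAbs] at h
      omega
  obtain ⟨y', hy', hc⟩ := hS _ 0 (x - w) (y - w) n (Bx_mono hn h2) (Or.inl h3) h1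
  exact ⟨x - w, h2, y', hy', hc⟩

theorem A_anti (h0 : St_T0) : Antitone fun n : ℕ => {I : Set Pt | Ar Iᶜ 0 0 n (Sp 0 n)} := by
  obtain ⟨-, -, -, -, -, -, -, -, hS, -⟩ := h0
  refine antitone_nat_of_succ_le fun n => ?_
  rintro I ⟨x, hx, y, hy, hxy⟩
  have hy' : y ∉ Bx 0 n := by
    have h1 : y ∈ Sp 0 (n + 1) := hy
    rw [mem_Sp] at h1
    rw [mem_Bx]
    simp only [Prod.fst_zero, Prod.snd_zero, sub_zero] at h1 ⊢
    obtain ⟨-, h | h⟩ := h1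
    · rw [Int.abs_eq_natAbs] at h
      omega
    · rw [Int.abs_eq_natAbs] at h
      omega
  obtain ⟨y', hy1, hy2⟩ := hS Iᶜ 0 x y n (Bx_mono (Nat.zero_le n) hx) (Or.inl hy')
    (con_mono Set.inter_subset_left hxy)
  exact ⟨x, hx, y', hy1, hy2⟩

/-! ### Rings at large scales -/

theorem hub0 (V : Set Pt) : Hub V 0 0 0 := by
  intro x hx y hy hx' _
  have e : ∀ z : Pt, z ∈ Bx 0 0 → z = 0 := by
    intro z hz
    rw [mem_Bx] at hz
    simp only [Prod.fst_zero, Prod.snd_zero, Nat.cast_zero] at hz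
    refine Prod.ext ?_ ?_
    · rw [Prod.fst_zero]
      omega
    · rw [Prod.snd_zero]
      omega
  obtain ⟨x', -, hc⟩ := hx'
  have h1 := hc.1
  rw [e x hx] at h1 ⊢
  rw [e y hy]
  exact ⟨h1, Relation.ReflTransGen.refl⟩

theorem rings (h0 : St_P0) (h1 : St_P1) (h2 : St_P2) (h4 : St_P4) (ν : Measure (Set Pt))
    (hν : PM ν) (p : ℝ) (hp : 0 < p) (hA : ∀ n, p ≤ ν.real {I : Set Pt | Ar Iᶜ 0 0 n (Sp 0 n)}) :
    ∃ c : ℝ, 0 < c ∧ ∀ n₀ : ℕ, ∃ h, n₀ ≤ h ∧ c ≤ ν.real {I : Set Pt | Rg Iᶜ 0 h} := by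
  haveI := hν.prob
  have hp1 : p ≤ 1 := (hA 0).trans measureReal_le_one
  set β : ℝ := 1 + -(p / 16) with hβ
  have hβ0 : 0 ≤ β := by
    rw [hβ]
    linarith
  have hβ1 : β ≤ 1 := by
    rw [hβ]
    linarith
  have hβ16 : 1 - β ^ 16 ≤ p := by
    have := one_add_mul_le_pow (show (-2 : ℝ) ≤ -(p / 16) by linarith) 16
    rw [← hβ] at this
    push_cast at this
    linarith
  have hc : 0 < (1 - β) ^ 62 := by
    apply pow_pos
    rw [hβ]
    linarith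
  refine ⟨((1 - β) ^ 62) ^ 4, pow_pos hc 4, fun n₀ => ?_⟩
  obtain ⟨n, hn, hLR⟩ := h4 ν hν 0 0 β 0 le_rfl hβ0 hβ1 (fun n _ => hβ16.trans (hA n)) (by
    have : {I : Set Pt | ¬ Hub Iᶜ 0 0 0} = ∅ := by
      ext I
      simp only [Set.mem_empty_iff_false, iff_false]
      exact fun h => h (hub0 _)
    rw [this, measureReal_empty]) n₀
  rw [mul_zero, sub_zero] at hLR
  refine ⟨2 * n, by omega, ?_⟩
  obtain ⟨-, hLloc, hTloc, -⟩ := h1
  obtain ⟨-, -, -, -, -, -, -, s1, s2, s3⟩ := h2 ν hν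
  have e1 := s1 (-(6 * n : ℤ)) (6 * n) (2 * n + 1) (6 * n)
  have e2 := s2 (-(6 * n : ℤ)) (6 * n) (2 * n + 1) (6 * n)
  have e3 := s3 (-(6 * n : ℤ)) (6 * n) (2 * n + 1) (6 * n)
  set K : Fin 4 → Finset Pt := ![Rc (-(6 * n : ℤ)) (6 * n) (2 * n + 1) (6 * n),
    Rc (-(6 * n : ℤ)) (6 * n) (-(6 * n)) (-(2 * n + 1)),
    Rc (2 * n + 1 : ℤ) (6 * n) (-(6 * n)) (6 * n),
    Rc (-(6 * n) : ℤ) (-(2 * n + 1)) (-(6 * n)) (6 * n)] with hK
  set A : Fin 4 → Set (Set Pt) :=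
    ![{I : Set Pt | LR Iᶜ (-(6 * n : ℤ)) (6 * n) (2 * n + 1) (6 * n)},
    {I : Set Pt | LR Iᶜ (-(6 * n : ℤ)) (6 * n) (-(6 * n)) (-(2 * n + 1))},
    {I : Set Pt | TB Iᶜ (2 * n + 1 : ℤ) (6 * n) (-(6 * n)) (6 * n)},
    {I : Set Pt | TB Iᶜ (-(6 * n) : ℤ) (-(2 * n + 1)) (-(6 * n)) (6 * n)}] with hAd
  have hAl : ∀ i ∈ (Finset.univ : Finset (Fin 4)), Local (K i) (A i) ∧ Dn (A i) := by
    intro i _
    fin_cases i
    · exact hLloc _ _ _ _
    · exact hLloc _ _ _ _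
    · exact hTloc _ _ _ _
    · exact hTloc _ _ _ _
  have h3 := (h0 ν hν (Fin 4) Finset.univ K A hAl).1
  rw [Fin.prod_univ_four] at h3
  have a0 : ν.real (A 0) = ν.real {I : Set Pt | LR Iᶜ (-(6 * n : ℤ)) (6 * n) (2 * n + 1) (6 * n)} :=
    rfl
  have a1 : ν.real (A 1) = ν.real {I : Set Pt | LR Iᶜ (-(6 * n : ℤ)) (6 * n) (2 * n + 1) (6 * n)} :=
    e1
  have a2 : ν.real (A 2) = ν.real {I : Set Pt | LR Iᶜ (-(6 * n : ℤ)) (6 * n) (2 * n + 1) (6 * n)} :=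
    e2
  have a3 : ν.real (A 3) = ν.real {I : Set Pt | LR Iᶜ (-(6 * n : ℤ)) (6 * n) (2 * n + 1) (6 * n)} :=
    e3
  rw [a0, a1, a2, a3] at h3
  have h5 : (⋂ i ∈ (Finset.univ : Finset (Fin 4)), A i) ⊆ {I : Set Pt | Rg Iᶜ 0 (2 * n)} := by
    intro I hI
    simp only [Set.mem_iInter] at hI
    have i0 := hI 0 (Finset.mem_univ _)
    have i1 := hI 1 (Finset.mem_univ _)
    have i2 := hI 2 (Finset.mem_univ _)
    have i3 := hI 3 (Finset.mem_univ _)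
    change LR Iᶜ (-(6 * n : ℤ)) (6 * n) (2 * n + 1) (6 * n) at i0
    change LR Iᶜ (-(6 * n : ℤ)) (6 * n) (-(6 * n)) (-(2 * n + 1)) at i1
    change TB Iᶜ (2 * n + 1 : ℤ) (6 * n) (-(6 * n)) (6 * n) at i2
    change TB Iᶜ (-(6 * n) : ℤ) (-(2 * n + 1)) (-(6 * n)) (6 * n) at i3
    change Rg Iᶜ 0 (2 * n)
    have b1 : (0 : Pt).1 - 3 * ((2 * n : ℕ) : ℤ) = -(6 * n : ℤ) := by
      rw [Prod.fst_zero]
      push_cast
      ring
    have b2 : (0 : Pt).1 + 3 * ((2 * n : ℕ) : ℤ) = (6 * n : ℤ) := by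
      rw [Prod.fst_zero]
      push_cast
      ring
    have b3 : (0 : Pt).2 + ((2 * n : ℕ) : ℤ) + 1 = (2 * n + 1 : ℤ) := by
      rw [Prod.snd_zero]
      push_cast
      ring
    have b4 : (0 : Pt).2 + 3 * ((2 * n : ℕ) : ℤ) = (6 * n : ℤ) := by
      rw [Prod.snd_zero]
      push_cast
      ring
    have b5 : (0 : Pt).2 - 3 * ((2 * n : ℕ) : ℤ) = -(6 * n : ℤ) := by
      rw [Prod.snd_zero]
      push_cast
      ring
    have b6 : (0 : Pt).2 - ((2 * n : ℕ) : ℤ) - 1 = -(2 * n + 1 : ℤ) := by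
      rw [Prod.snd_zero]
      push_cast
      ring
    have b7 : (0 : Pt).1 + ((2 * n : ℕ) : ℤ) + 1 = (2 * n + 1 : ℤ) := by
      rw [Prod.fst_zero]
      push_cast
      ring
    have b8 : (0 : Pt).1 - ((2 * n : ℕ) : ℤ) - 1 = -(2 * n + 1 : ℤ) := by
      rw [Prod.fst_zero]
      push_cast
      ring
    unfold Rg
    rw [b1, b2, b3, b4, b5, b6, b7, b8]
    exact ⟨i0, i1, i2, i3⟩
  calc ((1 - β) ^ 62) ^ 4 = (1 - β) ^ 62 * (1 - β) ^ 62 * (1 - β) ^ 62 * (1 - β) ^ 62 := by ring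
    _ ≤ _ := by
        refine mul_le_mul (mul_le_mul (mul_le_mul hLR hLR hc.le measureReal_nonneg) hLR hc.le ?_)
          hLR hc.le ?_
        · exact mul_nonneg measureReal_nonneg measureReal_nonneg
        · exact mul_nonneg (mul_nonneg measureReal_nonneg measureReal_nonneg) measureReal_nonneg
    _ ≤ ν.real (⋂ i ∈ (Finset.univ : Finset (Fin 4)), A i) := h3
    _ ≤ _ := measureReal_mono h5

theorem TT_one (h0 : St_P0) (h1 : St_P1) (h2 : St_P2) (h4 : St_P4) (ν : Measure (Set Pt))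
    (hν : PM ν) (p : ℝ) (hp : 0 < p) (hA : ∀ n, p ≤ ν.real {I : Set Pt | Ar Iᶜ 0 0 n (Sp 0 n)}) :
    ν.real TT = 1 := by
  haveI := hν.prob
  obtain ⟨c, hc, hR⟩ := rings h0 h1 h2 h4 ν hν p hp hA
  have hloc := h1.2.2.2.2.1
  let B : ℕ → Set (Set Pt) := fun m => ⋃ h : ℕ, ({I : Set Pt | m ≤ h} ∩ {I : Set Pt | Rg Iᶜ 0 h})
  have hBm : ∀ m, MeasurableSet (B m) := fun m => MeasurableSet.iUnion fun h =>
    (MeasurableSet.const _).inter (local_measurable _ _ (hloc 0 h).1)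
  have hBa : Antitone B := by
    intro m m' hm I hI
    obtain ⟨h, h3, h5⟩ := Set.mem_iUnion.1 hI
    exact Set.mem_iUnion.2 ⟨h, le_trans hm h3, h5⟩
  have hBc : ∀ m, c ≤ ν.real (B m) := by
    intro m
    obtain ⟨h, h3, h5⟩ := hR m
    refine h5.trans (measureReal_mono ?_)
    intro I hI
    exact Set.mem_iUnion.2 ⟨h, h3, hI⟩
  have hsub : (⋂ m, B m) ⊆ TT := by
    intro I hI m
    obtain ⟨h, h3, h5⟩ := Set.mem_iUnion.1 (Set.mem_iInter.1 hI m)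
    exact ⟨0, h, Bx_mono h3, h5⟩
  have hlim := tendsto_measure_iInter_atTop (μ := ν) (fun m => (hBm m).nullMeasurableSet) hBa
    ⟨0, measure_ne_top _ _⟩
  have hlim' := (ENNReal.tendsto_toReal (measure_ne_top ν _)).comp hlim
  have h3 : c ≤ ν.real (⋂ m, B m) := ge_of_tendsto' hlim' hBc
  have h5 : c ≤ ν.real TT := h3.trans (measureReal_mono hsub)
  rcases hν.erg TT (TT_meas h1) TT_inv with h | h
  · rw [h] at h5
    exact absurd h5 (not_le.2 hc)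
  · exact h

theorem FF_one (h1 : St_P1) (h0 : St_T0) (ν : Measure (Set Pt))
    (hν : PM ν) (p : ℝ) (hp : 0 < p) (hA : ∀ n, p ≤ ν.real {I : Set Pt | Ar Iᶜ 0 0 n (Sp 0 n)}) :
    ν.real (⋃ m, FF m) = 1 := by
  haveI := hν.prob
  have hAr := h1.1
  have hlim := tendsto_measure_iInter_atTop (μ := ν) (fun n => (local_measurable _ _
    (hAr 0 0 n (Sp 0 n)).1).nullMeasurableSet) (A_anti h0) ⟨0, measure_ne_top _ _⟩
  have hlim' := (ENNReal.tendsto_toReal (measure_ne_top ν _)).comp hlim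
  have h3 : p ≤ ν.real (⋂ n, {I : Set Pt | Ar Iᶜ 0 0 n (Sp 0 n)}) := ge_of_tendsto' hlim' hA
  have h4 : (⋂ n, {I : Set Pt | Ar Iᶜ 0 0 n (Sp 0 n)}) ⊆ ⋃ m, FF m := by
    intro I hI
    exact Set.mem_iUnion.2 ⟨0, fun n _ => Set.mem_iInter.1 hI n⟩
  have h5 : p ≤ ν.real (⋃ m, FF m) := h3.trans (measureReal_mono h4)
  rcases hν.erg (⋃ m, FF m) (MeasurableSet.iUnion fun m => FF_meas h1 m) (FF_inv h0) with h | h
  · rw [h] at h5
    exact absurd h5 (not_le.2 hp)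
  · exact h

theorem hub_lim (h1 : St_P1) (h6 : St_T6) (ν : Measure (Set Pt)) (hν : PM ν)
    (hT : ν.real TT = 1) (m : ℕ) :
    Tendsto (fun k => ν.real {I : Set Pt | ¬ Hub Iᶜ 0 m k}) atTop (𝓝 0) := by
  haveI := hν.prob
  have hH := h1.2.2.2.1
  obtain ⟨-, -, h63⟩ := h6
  let G : ℕ → Set (Set Pt) := fun k => {I : Set Pt | ∃ (z : Pt) (h : ℕ), Bx 0 m ⊆ Bx z h ∧
    Bx z (3 * h) ⊆ Bx 0 k ∧ Rg Iᶜ z h}
  have hGm : Monotone G := by
    rintro k k' hk I ⟨z, h, a1, a2, a3⟩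
    exact ⟨z, h, a1, a2.trans (Bx_mono hk), a3⟩
  have hGT : TT ⊆ ⋃ k, G k := by
    intro I hI
    obtain ⟨z, h, a1, a2⟩ := hI m
    refine Set.mem_iUnion.2 ⟨3 * h + (z.1.natAbs + z.2.natAbs), z, h, a1, ?_, a2⟩
    intro x hx
    rw [mem_Bx] at hx ⊢
    simp only [Prod.fst_zero, Prod.snd_zero] at hx ⊢
    omega
  have hGH : ∀ k, G k ⊆ {I : Set Pt | Hub Iᶜ 0 m k} := by
    rintro k I ⟨z, h, a1, a2, a3⟩
    exact h63 Iᶜ z 0 h m k a3 a1 a2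
  have hU : ν.real (⋃ k, G k) = 1 :=
    le_antisymm measureReal_le_one (hT ▸ measureReal_mono hGT)
  have hlim := tendsto_measure_iUnion_atTop (μ := ν) hGm
  have hlim' := (ENNReal.tendsto_toReal (measure_ne_top ν _)).comp hlim
  have hlim2 : Tendsto (fun k => 1 - ν.real (G k)) atTop (𝓝 0) := by
    have h3 : Tendsto (fun k => ν.real (G k)) atTop (𝓝 (ν.real (⋃ k, G k))) := hlim'
    rw [hU] at h3
    have h4 := h3.const_sub 1
    rwa [sub_self] at h4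
  refine squeeze_zero (fun k => measureReal_nonneg) (fun k => ?_) hlim2
  have hm : MeasurableSet {I : Set Pt | Hub Iᶜ 0 m k} := local_measurable _ _ (hH 0 m k)
  have h3 : ν.real {I : Set Pt | ¬ Hub Iᶜ 0 m k} = 1 - ν.real {I : Set Pt | Hub Iᶜ 0 m k} :=
    probReal_compl_eq_one_sub hm
  rw [h3]
  exact sub_le_sub_left (measureReal_mono (hGH k)) 1

end P5x

open P5x in
/-- **P5** -/
theorem P5 (h0 : St_P0) (h1 : St_P1) (h2 : St_P2) (h4 : St_P4) (t0 : St_T0) (t6 : St_T6) :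
    St_P5 := by
  intro ν hν p hp hA
  haveI := hν.prob
  refine ⟨hub_lim h1 t6 ν hν (TT_one h0 h1 h2 h4 ν hν p hp hA), fun δ hδ => ?_⟩
  have hU := FF_one h1 t0 ν hν p hp hA
  have hlim := tendsto_measure_iUnion_atTop (μ := ν) FF_mono
  have hlim' := (ENNReal.tendsto_toReal (measure_ne_top ν _)).comp hlim
  have h3 : Tendsto (fun m => ν.real (FF m)) atTop (𝓝 (ν.real (⋃ m, FF m))) := hlim'
  rw [hU] at h3
  have h5 := h3.eventually (lt_mem_nhds (show 1 - δ < 1 by linarith))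
  obtain ⟨m, hm⟩ := h5.exists
  refine ⟨m, fun n hn => ?_⟩
  refine hm.le.trans (measureReal_mono ?_)
  intro I hI
  exact hI n hn

end PLS
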