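import Pool.Agent.PLS.StP

/-!
# Annulus crossings of small probability
-/

set_option autoImplicit false
set_option linter.unusedVariables false

open Finset Filter Topology MeasureTheory RInt

noncomputable section

namespace PLS

theorem P6 (h1 : St_P1) (h2 : St_P2) (h4 : St_P4) (h5 : St_P5) (h6 : St_T6) : St_P6 := by
  intro ν hν p hp hperc δ h₀ hδ
  have hprob := hν.prob
  obtain ⟨hhub, hbig⟩ := h5 ν hν p hp hperc
  set δ' : ℝ := min δ 1 with hδ'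
  have hδ'0 : 0 < δ' := lt_min hδ one_pos
  set ε : ℝ := δ' / 332 with hε
  have hε0 : 0 < ε := by positivity
  have hε1 : ε ≤ 1 := by
    have := min_le_right δ 1
    rw [hε, div_le_one (by norm_num)]
    linarith
  obtain ⟨m, hm⟩ := hbig (ε ^ 16) (by positivity)
  obtain ⟨m', hm', hmhub⟩ : ∃ m', m ≤ m' ∧ ν.real {I : Set Pt | ¬ Hub Iᶜ 0 m m'} ≤ ε := by
    have h7 := (hhub m).eventually (ge_mem_nhds hε0)
    obtain ⟨m', h8⟩ := (h7.and (eventually_ge_atTop m)).exists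
    exact ⟨m', h8.2, h8.1⟩
  obtain ⟨n, hn, hLR⟩ := h4 ν hν m m' ε ε hm' hε0.le hε1 hm hmhub (max h₀ 1)
  have hn1 : 1 ≤ n := (le_max_right _ _).trans hn
  have hn0 : h₀ ≤ n := (le_max_left _ _).trans hn
  refine ⟨2 * n, by omega, by omega, ?_⟩
  have hbern : 1 - 62 * ε ≤ (1 - ε) ^ 62 := by
    have := one_add_mul_le_pow (a := -ε) (by linarith) 62
    have h7 : (1 : ℝ) + -ε = 1 - ε := by ring
    rw [h7] at this
    refine le_trans (le_of_eq ?_) this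
    push_cast
    ring
  obtain ⟨-, -, -, -, -, -, -, hrefl, hTB, hTB'⟩ := h2 ν hν
  obtain ⟨-, hmLR, hmTB, -, -, -, -⟩ := h1
  set E1 : Set (Set Pt) := {I : Set Pt | LR Iᶜ (-(6 * n : ℤ)) (6 * n) (2 * n + 1) (6 * n)} with hE1
  set E2 : Set (Set Pt) :=
    {I : Set Pt | LR Iᶜ (-(6 * n : ℤ)) (6 * n) (-(6 * n)) (-(2 * n + 1))} with hE2
  set E3 : Set (Set Pt) := {I : Set Pt | TB Iᶜ (2 * n + 1) (6 * n) (-(6 * n : ℤ)) (6 * n)} with hE3
  set E4 : Set (Set Pt) :=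
    {I : Set Pt | TB Iᶜ (-(6 * n : ℤ)) (-(2 * n + 1)) (-(6 * n : ℤ)) (6 * n)} with hE4
  have e1 : 1 - 83 * ε ≤ ν.real E1 := by linarith
  have e2 : 1 - 83 * ε ≤ ν.real E2 := by
    rw [hE2, hrefl (-(6 * n : ℤ)) (6 * n) (2 * n + 1) (6 * n)]
    exact e1
  have e3 : 1 - 83 * ε ≤ ν.real E3 := by
    rw [hE3, hTB (-(6 * n : ℤ)) (6 * n) (2 * n + 1) (6 * n)]
    exact e1
  have e4 : 1 - 83 * ε ≤ ν.real E4 := by
    rw [hE4, hTB' (-(6 * n : ℤ)) (6 * n) (2 * n + 1) (6 * n)]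
    exact e1
  have m1 : MeasurableSet E1 := local_measurable _ _ (hmLR _ _ _ _).1
  have m2 : MeasurableSet E2 := local_measurable _ _ (hmLR _ _ _ _).1
  have m3 : MeasurableSet E3 := local_measurable _ _ (hmTB _ _ _ _).1
  have m4 : MeasurableSet E4 := local_measurable _ _ (hmTB _ _ _ _).1
  have hsub : {I : Set Pt | An I 0 (2 * n)} ⊆ (E1ᶜ ∪ E2ᶜ) ∪ (E3ᶜ ∪ E4ᶜ) := by
    intro I hI
    by_contra hc
    simp only [Set.mem_union, Set.mem_compl_iff, not_or, not_not] at hc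
    obtain ⟨⟨c1, c2⟩, c3, c4⟩ := hc
    refine h6.2.1 I 0 (2 * n) ?_ hI
    have z1 : ((0 : Pt).1 : ℤ) = 0 := rfl
    have z2 : ((0 : Pt).2 : ℤ) = 0 := rfl
    unfold Rg
    rw [z1, z2]
    push_cast
    refine ⟨?_, ?_, ?_, ?_⟩
    · have : LR Iᶜ (-(6 * n : ℤ)) (6 * n) (2 * n + 1) (6 * n) := c1
      convert this using 1 <;> ring
    · have : LR Iᶜ (-(6 * n : ℤ)) (6 * n) (-(6 * n)) (-(2 * n + 1)) := c2
      convert this using 1 <;> ring
    · have : TB Iᶜ (2 * n + 1) (6 * n) (-(6 * n : ℤ)) (6 * n) := c3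
      convert this using 1 <;> ring
    · have : TB Iᶜ (-(6 * n : ℤ)) (-(2 * n + 1)) (-(6 * n : ℤ)) (6 * n) := c4
      convert this using 1 <;> ring
  have b1 : ν.real E1ᶜ ≤ 83 * ε := by
    rw [probReal_compl_eq_one_sub m1]
    linarith
  have b2 : ν.real E2ᶜ ≤ 83 * ε := by
    rw [probReal_compl_eq_one_sub m2]
    linarith
  have b3 : ν.real E3ᶜ ≤ 83 * ε := by
    rw [probReal_compl_eq_one_sub m3]
    linarith
  have b4 : ν.real E4ᶜ ≤ 83 * ε := by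
    rw [probReal_compl_eq_one_sub m4]
    linarith
  calc ν.real {I : Set Pt | An I 0 (2 * n)} ≤ ν.real ((E1ᶜ ∪ E2ᶜ) ∪ (E3ᶜ ∪ E4ᶜ)) :=
        measureReal_mono hsub
    _ ≤ ν.real (E1ᶜ ∪ E2ᶜ) + ν.real (E3ᶜ ∪ E4ᶜ) := measureReal_union_le _ _
    _ ≤ (ν.real E1ᶜ + ν.real E2ᶜ) + (ν.real E3ᶜ + ν.real E4ᶜ) :=
        add_le_add (measureReal_union_le _ _) (measureReal_union_le _ _)
    _ ≤ 332 * ε := by linarith
    _ = δ' := by
        rw [hε]
        ring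
    _ ≤ δ := min_le_left _ _

end PLS
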