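import Pool.Agent.PLS.StP

/-!
# PLS, module P7: invariance and ergodicity of the laws
-/

set_option autoImplicit false
set_option linter.unusedVariables false

open Finset Filter Topology MeasureTheory RInt

noncomputable section

namespace PLS

namespace P7x

/-- the void events -/
def VV (K : Finset Pt) : Set (Set Pt) := {I | ∀ x ∈ K, x ∉ I}

theorem local_VV (K : Finset Pt) : Local K (VV K) := by
  intro I J hIJ
  constructor
  · intro h x hx hxJ
    exact h x hx ((hIJ x hx).2 hxJ)
  · intro h x hx hxI
    exact h x hx ((hIJ x hx).1 hxI)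

theorem meas_VV (K : Finset Pt) : MeasurableSet (VV K) := local_measurable K _ (local_VV K)

theorem inter_VV (K K' : Finset Pt) : VV K ∩ VV K' = VV (K ∪ K') := by
  ext I
  constructor
  · rintro ⟨h1, h2⟩ x hx
    rcases mem_union.mp hx with hx | hx
    · exact h1 x hx
    · exact h2 x hx
  · intro h
    exact ⟨fun x hx => h x (mem_union_left _ hx), fun x hx => h x (mem_union_right _ hx)⟩

theorem pi_VV : IsPiSystem (Set.range VV) := by
  rintro _ ⟨K, rfl⟩ _ ⟨K', rfl⟩ _
  exact ⟨K ∪ K', (inter_VV K K').symm⟩

theorem gen_VV : (Set.instMeasurableSpace : MeasurableSpace (Set Pt)) =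
    MeasurableSpace.generateFrom (Set.range VV) := by
  apply le_antisymm
  · have h : @Measurable (Set Pt) (Set Pt) (MeasurableSpace.generateFrom (Set.range VV))
        Set.instMeasurableSpace id := by
      refine (@measurable_set_iff _ _ (MeasurableSpace.generateFrom (Set.range VV)) id).2 ?_
      intro a
      refine @measurable_to_prop _ (MeasurableSpace.generateFrom (Set.range VV)) _ ?_
      have e : (fun x : Set Pt => a ∈ id x) ⁻¹' {True} = (VV {a})ᶜ := by
        ext I
        simp [VV]
      rw [e]
      exact @MeasurableSet.compl _ _ (MeasurableSpace.generateFrom (Set.range VV))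
        (MeasurableSpace.measurableSet_generateFrom ⟨{a}, rfl⟩)
    have h2 := h.comap_le
    rwa [MeasurableSpace.comap_id] at h2
  · apply MeasurableSpace.generateFrom_le
    rintro _ ⟨K, rfl⟩
    exact meas_VV K

theorem ext_VV (ν ν' : Measure (Set Pt)) [IsProbabilityMeasure ν] [IsProbabilityMeasure ν']
    (h : ∀ K, ν (VV K) = ν' (VV K)) : ν = ν' := by
  refine ext_of_generate_finite (Set.range VV) gen_VV pi_VV ?_ (by simp)
  rintro _ ⟨K, rfl⟩
  exact h K

/-- invariance under a map of the plane -/
theorem inv_map {c : Finset Pt → ℝ} {μ : ℝ → Measure (Set Pt)} (h : PF0 c μ) (u : ℝ)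
    (hu : 0 < u) (f : Pt → Pt) (hc : ∀ K : Finset Pt, c (K.image f) = c K) :
    (μ u).map (fun I => {x : Pt | f x ∈ I}) = μ u := by
  have hp := h.void.prob u hu
  have hm : Measurable (fun I : Set Pt => {x : Pt | f x ∈ I}) := by
    rw [measurable_set_iff]
    intro a
    exact measurable_set_mem (f a)
  have hp' : IsProbabilityMeasure ((μ u).map (fun I => {x : Pt | f x ∈ I})) :=
    Measure.isProbabilityMeasure_map hm.aemeasurable
  apply ext_VV
  intro K
  rw [Measure.map_apply hm (meas_VV K)]
  have e : (fun I : Set Pt => {x : Pt | f x ∈ I}) ⁻¹' (VV K) = VV (K.image f) := by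
    ext I
    constructor
    · intro hI x hx
      obtain ⟨y, hy, rfl⟩ := mem_image.mp hx
      exact hI y hy
    · intro hI x hx
      exact hI (f x) (mem_image_of_mem f hx)
  have v1 := h.void.void u hu (K.image f)
  have v2 := h.void.void u hu K
  rw [e]
  unfold VV
  rw [v1, v2, hc]

theorem hasSum_real {Ω : Type} [MeasurableSpace Ω] (ν : Measure Ω) [IsFiniteMeasure ν]
    (B : ℕ → Set Ω) (hd : Pairwise (Function.onFun Disjoint B)) (hB : ∀ i, MeasurableSet (B i)) :
    HasSum (fun i => ν.real (B i)) (ν.real (⋃ i, B i)) := by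
  have h1 : ∑' i, ν (B i) = ν (⋃ i, B i) := (measure_iUnion hd hB).symm
  have h2 : ∑' i, ν (B i) ≠ ⊤ := by rw [h1]; exact measure_ne_top _ _
  have h3 := ENNReal.hasSum_toReal h2
  have h4 := ENNReal.tsum_toReal_eq (f := fun i => ν (B i)) (fun i => measure_ne_top _ _)
  rw [← h4, h1] at h3
  exact h3

/-- convergence on a generating system implies convergence -/
theorem tend {Ω : Type} [m0 : MeasurableSpace Ω] (ν : Measure Ω) [IsProbabilityMeasure ν]
    (C : Set (Set Ω)) (hgen : m0 = MeasurableSpace.generateFrom C) (hpi : IsPiSystem C)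
    (m : ℕ → Measure Ω) (a : ℝ) (hle : ∀ k B, MeasurableSet B → m k B ≤ ν B)
    (huniv : ∀ k, (m k).real Set.univ = a)
    (hC : ∀ B ∈ C, Tendsto (fun k => (m k).real B) atTop (𝓝 (a * ν.real B))) :
    ∀ B, MeasurableSet B → Tendsto (fun k => (m k).real B) atTop (𝓝 (a * ν.real B)) := by
  have hfin : ∀ k, IsFiniteMeasure (m k) := fun k =>
    ⟨lt_of_le_of_lt (hle k Set.univ MeasurableSet.univ) (measure_lt_top ν _)⟩
  have hler : ∀ k B, MeasurableSet B → (m k).real B ≤ ν.real B := fun k B hB =>
    ENNReal.toReal_mono (measure_ne_top ν B) (hle k B hB)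
  intro B hB
  induction B, hB using MeasurableSpace.induction_on_inter hgen hpi with
  | empty => simp
  | basic B hB => exact hC B hB
  | compl B hB ih =>
    have e : (fun k => (m k).real Bᶜ) = fun k => a - (m k).real B := by
      funext k
      rw [measureReal_compl hB, huniv]
    have e2 : a * ν.real Bᶜ = a - a * ν.real B := by
      rw [measureReal_compl hB]
      simp
      ring
    rw [e, e2]
    exact tendsto_const_nhds.sub ih
  | iUnion B hdisj hB ih =>
    have hsum : HasSum (fun i => ν.real (B i)) (ν.real (⋃ i, B i)) := hasSum_real ν B hdisj hB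
    have e : ∀ k, (m k).real (⋃ i, B i) = ∑' i, (m k).real (B i) := fun k =>
      (hasSum_real (m k) B hdisj hB).tsum_eq.symm
    have e2 : a * ν.real (⋃ i, B i) = ∑' i, a * ν.real (B i) := by
      rw [tsum_mul_left, hsum.tsum_eq]
    rw [e2]
    simp only [e]
    refine tendsto_tsum_of_dominated_convergence (bound := fun i => ν.real (B i)) hsum.summable
      ih ?_
    refine Eventually.of_forall fun k i => ?_
    rw [Real.norm_eq_abs, abs_of_nonneg measureReal_nonneg]
    exact hler k _ (hB i)

end P7x

open P7x in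
theorem P7 : St_P7 := by
  intro c μ h u hu
  have hp := h.void.prob u hu
  have hshift : ∀ z : Pt, (μ u).map (fun I => {x : Pt | x + z ∈ I}) = μ u := fun z =>
    inv_map h u hu (fun x => x + z) (fun K => h.shift K z)
  refine ⟨hshift, inv_map h u hu (fun x => ((-x.1, x.2) : Pt)) h.refl,
    inv_map h u hu Prod.swap h.swap, ?_⟩
  -- the shifts
  obtain ⟨σ, hσ⟩ : ∃ σ : ℕ → Set Pt → Set Pt,
      σ = fun (k : ℕ) (I : Set Pt) => {x : Pt | x + (((k : ℤ), 0) : Pt) ∈ I} := ⟨_, rfl⟩
  have hσm : ∀ k, Measurable (σ k) := by
    intro k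
    rw [hσ, measurable_set_iff]
    intro a
    exact measurable_set_mem _
  have hσi : ∀ k, (μ u).map (σ k) = μ u := by
    intro k
    rw [hσ]
    exact hshift _
  have hσp : ∀ k B, MeasurableSet B → μ u (σ k ⁻¹' B) = μ u B := by
    intro k B hB
    rw [← Measure.map_apply (hσm k) hB, hσi k]
  have hv : ∀ K : Finset Pt, (μ u).real (VV K) = Real.exp (-(u * c K)) := by
    intro K
    unfold Measure.real VV
    rw [h.void.void u hu K, ENNReal.toReal_ofReal (Real.exp_pos _).le]
  -- void events
  have hbase : ∀ K K' : Finset Pt, Tendsto (fun k => (μ u).real (VV K ∩ σ k ⁻¹' (VV K')))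
      atTop (𝓝 ((μ u).real (VV K) * (μ u).real (VV K'))) := by
    intro K K'
    have e : ∀ k, VV K ∩ σ k ⁻¹' (VV K') =
        VV (K ∪ K'.image fun x => x + (((k : ℤ), 0) : Pt)) := by
      intro k
      rw [← inter_VV]
      congr 1
      rw [hσ]
      ext I
      constructor
      · intro hI x hx
        obtain ⟨y, hy, rfl⟩ := mem_image.mp hx
        exact hI y hy
      · intro hI x hx
        exact hI _ (mem_image_of_mem _ hx)
    simp only [e, hv]
    rw [← Real.exp_add]
    apply (Real.continuous_exp.tendsto _).comp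
    have h1 := ((h.mix K K').const_mul u).neg
    have e2 : -(u * (c K + c K')) = -(u * c K) + -(u * c K') := by ring
    rw [e2] at h1
    exact h1
  -- first step
  have step1 : ∀ (K : Finset Pt) (B : Set (Set Pt)), MeasurableSet B →
      Tendsto (fun k => (μ u).real (VV K ∩ σ k ⁻¹' B)) atTop
        (𝓝 ((μ u).real (VV K) * (μ u).real B)) := by
    intro K
    have hm : ∀ k B, MeasurableSet B → (((μ u).restrict (VV K)).map (σ k)) B =
        μ u (VV K ∩ σ k ⁻¹' B) := by
      intro k B hB
      rw [Measure.map_apply (hσm k) hB, Measure.restrict_apply (hσm k hB), Set.inter_comm]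
    have h1 := tend (μ u) (Set.range VV) gen_VV pi_VV
      (fun k => ((μ u).restrict (VV K)).map (σ k)) ((μ u).real (VV K)) ?_ ?_ ?_
    · intro B hB
      have h2 := h1 B hB
      have e : (fun k => (((μ u).restrict (VV K)).map (σ k)).real B) =
          fun k => (μ u).real (VV K ∩ σ k ⁻¹' B) := by
        funext k
        unfold Measure.real
        rw [hm k B hB]
      rwa [e] at h2
    · intro k B hB
      rw [hm k B hB]
      exact (measure_mono Set.inter_subset_right).trans (hσp k B hB).le
    · intro k
      unfold Measure.real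
      rw [hm k _ MeasurableSet.univ]
      simp
    · rintro _ ⟨K', rfl⟩
      have e : (fun k => (((μ u).restrict (VV K)).map (σ k)).real (VV K')) =
          fun k => (μ u).real (VV K ∩ σ k ⁻¹' (VV K')) := by
        funext k
        unfold Measure.real
        rw [hm k _ (meas_VV K')]
      rw [e]
      exact hbase K K'
  -- second step
  have step2 : ∀ A B : Set (Set Pt), MeasurableSet A → MeasurableSet B →
      Tendsto (fun k => (μ u).real (A ∩ σ k ⁻¹' B)) atTop
        (𝓝 ((μ u).real B * (μ u).real A)) := by
    intro A B hA hB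
    have hm : ∀ k A, MeasurableSet A → ((μ u).restrict (σ k ⁻¹' B)) A =
        μ u (A ∩ σ k ⁻¹' B) := fun k A hA => Measure.restrict_apply hA
    have h1 := tend (μ u) (Set.range VV) gen_VV pi_VV
      (fun k => (μ u).restrict (σ k ⁻¹' B)) ((μ u).real B) ?_ ?_ ?_ A hA
    · have e : (fun k => ((μ u).restrict (σ k ⁻¹' B)).real A) =
          fun k => (μ u).real (A ∩ σ k ⁻¹' B) := by
        funext k
        unfold Measure.real
        rw [hm k A hA]
      rwa [e] at h1
    · intro k A hA
      rw [hm k A hA]
      exact measure_mono Set.inter_subset_left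
    · intro k
      unfold Measure.real
      rw [hm k _ MeasurableSet.univ, Set.univ_inter, hσp k B hB]
    · rintro _ ⟨K, rfl⟩
      have e : (fun k => ((μ u).restrict (σ k ⁻¹' B)).real (VV K)) =
          fun k => (μ u).real (VV K ∩ σ k ⁻¹' B) := by
        funext k
        unfold Measure.real
        rw [hm k _ (meas_VV K)]
      rw [e, mul_comm]
      exact step1 K B hB
  intro T hT hinv
  have hTi : ∀ k, σ k ⁻¹' T = T := by
    intro k
    ext I
    constructor
    · intro hI
      have h1 := hinv (-(((k : ℤ), 0) : Pt)) _ hI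
      have e : {x : Pt | x + -(((k : ℤ), 0) : Pt) ∈ σ k I} = I := by
        rw [hσ]
        ext x
        simp only [Set.mem_ofPred_eq, neg_add_cancel_right]
      rwa [e] at h1
    · intro hI
      have h1 := hinv (((k : ℤ), 0) : Pt) I hI
      show σ k I ∈ T
      rw [hσ]
      exact h1
  have h2 := step2 T T hT hT
  simp only [hTi, Set.inter_self] at h2
  have h3 := tendsto_nhds_unique h2 tendsto_const_nhds
  have h4 : (μ u).real T * ((μ u).real T - 1) = 0 := by linarith
  rcases mul_eq_zero.mp h4 with h5 | h5
  · exact Or.inl h5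
  · exact Or.inr (by linarith)

end PLS
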