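import Pool.Agent.PLS.StP

/-!
# PLS, P8: the recursion for the annulus crossings (helper25)
-/

set_option autoImplicit false
set_option linter.unusedVariables false

open Finset Filter Topology MeasureTheory RInt

noncomputable section

namespace PLS

open Classical in
theorem P8 (h1 : St_P1) (h2 : St_P2) (h8 : St_T8) : St_P8 := by
  intro c μ hPF hPM
  obtain ⟨M, a, ha, hdec⟩ := hPF.dec
  obtain ⟨-, -, -, -, -, hAn, -⟩ := h1
  set Q : ℕ := M + 2 with hQ
  set S : Finset (Pt × Pt) := Bx 0 Q ×ˢ Bx 0 (3 * Q) with hS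
  set N : ℕ := S.card with hN
  have hN1 : (1 : ℝ) ≤ 10 * N + 1 := by
    have : (0 : ℝ) ≤ N := Nat.cast_nonneg N
    linarith
  refine ⟨Q, a, 1 + 10 / 3 * Real.log (10 * N + 1), by omega, ha, ?_, ?_⟩
  · have := Real.log_nonneg hN1
    linarith
  intro u L n hu hn hL hLa hA
  have hp : IsProbabilityMeasure (μ u) := (hPM u hu).prob
  have hlog := Real.log_nonneg hN1
  have hL1 : 1 ≤ L := by linarith
  have hinv : ∀ z : Pt, (μ u).real {I : Set Pt | An I z n} ≤ Real.exp (-L) := by
    intro z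
    obtain ⟨-, -, -, -, -, hi, -⟩ := h2 (μ u) (hPM u hu)
    rw [hi z n]
    exact hA
  -- the pair of the two small annuli
  set z : Pt → Pt := fun i => ((n * i.1 : ℤ), (n * i.2 : ℤ)) with hz
  set C : Pt × Pt → Prop := fun p => ((M * n : ℤ) ≤ |(z p.1).1 - (z p.2).1| ∨
    (M * n : ℤ) ≤ |(z p.1).2 - (z p.2).2|) with hC
  set E : Pt × Pt → Set (Set Pt) := fun p =>
    if C p then {I : Set Pt | An I (z p.1) n} ∩ {I : Set Pt | An I (z p.2) n} else ∅ with hE
  have hsub : {I : Set Pt | An I 0 (Q * n)} ⊆ ⋃ p ∈ S, E p := by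
    intro I hI
    obtain ⟨i, hi, j, hj, hAi, hAj, hd⟩ := h8 I n Q hn (by omega) hI
    simp only [Set.mem_iUnion]
    refine ⟨(i, j), ?_, ?_⟩
    · rw [hS, Finset.mem_product]
      exact ⟨hi, hj⟩
    · have hCij : C (i, j) := by
        have hMn : (M * n : ℤ) ≤ (2 * Q - 2) * n := by
          have h3 : ((2 * Q - 2 : ℤ)) = 2 * M + 2 := by
            rw [hQ]
            push_cast
            ring
          rw [h3]
          have h4 : (0 : ℤ) ≤ n := Int.natCast_nonneg n
          have h5 : (0 : ℤ) ≤ M := Int.natCast_nonneg M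
          nlinarith
        rcases hd with hd | hd
        · exact Or.inl (hMn.trans hd)
        · exact Or.inr (hMn.trans hd)
      rw [hE]
      simp only
      rw [if_pos hCij]
      exact ⟨hAi, hAj⟩
  have hEb : ∀ p ∈ S, (μ u).real (E p) ≤ 10 * Real.exp (-(3 * L / 2)) := by
    intro p _
    rw [hE]
    simp only
    split_ifs with hp'
    · exact hdec u hu n hn (z p.1) (z p.2) hp' _ _ (hAn (z p.1) n).1 (hAn (z p.2) n).1
        (hAn (z p.1) n).2 (hAn (z p.2) n).2 L hL1 hLa (hinv _) (hinv _)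
    · rw [measureReal_empty]
      positivity
  have hfin : (10 * N + 1 : ℝ) ≤ Real.exp (3 * L / 10) := by
    rw [← Real.log_le_iff_le_exp (by linarith)]
    linarith
  calc (μ u).real {I : Set Pt | An I 0 (Q * n)}
      ≤ (μ u).real (⋃ p ∈ S, E p) := measureReal_mono hsub (measure_ne_top _ _)
    _ ≤ ∑ p ∈ S, (μ u).real (E p) := measureReal_biUnion_finset_le _ _
    _ ≤ ∑ p ∈ S, 10 * Real.exp (-(3 * L / 2)) := Finset.sum_le_sum hEb
    _ = (10 * N) * Real.exp (-(3 * L / 2)) := by
        rw [Finset.sum_const, nsmul_eq_mul, ← hN]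
        ring
    _ ≤ Real.exp (3 * L / 10) * Real.exp (-(3 * L / 2)) := by
        refine mul_le_mul_of_nonneg_right ?_ (Real.exp_pos _).le
        linarith
    _ = Real.exp (-(6 * L / 5)) := by
        rw [← Real.exp_add]
        congr 1
        ring

end PLS
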