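import Pool.Agent.PLS.StP

/-!
# PLS, P9: the finite size criterion
-/

set_option autoImplicit false
set_option linter.unusedVariables false

open Finset Filter Topology MeasureTheory RInt

noncomputable section

namespace PLS

namespace P9x

theorem con_shift {I : Set Pt} {x y : Pt} (h : Con Iᶜ x y) :
    Con ({w : Pt | w + x ∈ I}ᶜ) 0 (y - x) := by
  obtain ⟨h1, h2⟩ := h
  refine ⟨?_, ?_⟩
  · intro h3
    apply h1
    have h4 : (0 : Pt) + x ∈ I := h3
    rwa [zero_add] at h4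
  · have e : x - x = (0 : Pt) := sub_self x
    rw [← e]
    clear h1
    induction h2 with
    | refl => exact Relation.ReflTransGen.refl
    | @tail a b _ hab ih =>
      obtain ⟨ha, hb, hab⟩ := hab
      refine ih.tail ⟨?_, ?_, ?_⟩
      · intro h4
        have h5 : a - x + x ∈ I := h4
        rw [sub_add_cancel] at h5
        exact ha h5
      · intro h4
        have h5 : b - x + x ∈ I := h4
        rw [sub_add_cancel] at h5
        exact hb h5
      · unfold nn at hab ⊢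
        simp only [Prod.fst_sub, Prod.snd_sub]
        omega

theorem inf_shift {I : Set Pt} {x : Pt} (h : {y | Con Iᶜ x y}.Infinite) :
    {y | Con ({w : Pt | w + x ∈ I}ᶜ) 0 y}.Infinite := by
  have h1 : ((fun y : Pt => y - x) '' {y | Con Iᶜ x y}).Infinite :=
    h.image (fun a _ b _ hab => sub_left_injective hab)
  refine h1.mono ?_
  rintro _ ⟨y, hy, rfl⟩
  exact con_shift hy

/-- the numerical bound -/
theorem num {Q : ℕ} {L : ℝ} (h5 : 5 ≤ L) (hL : 4 * (4 * (Q : ℝ) + 1) ≤ L) (k : ℕ) :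
    (4 * (Q : ℝ) + 1) * Real.exp (-((6 / 5 : ℝ) ^ k * L)) ≤ 1 / 4 * (1 / 2) ^ k := by
  have h1 : 1 + (k : ℝ) * (1 / 5) ≤ (1 + 1 / 5 : ℝ) ^ k := one_add_mul_le_pow (by norm_num) k
  have h2 : (1 + 1 / 5 : ℝ) = 6 / 5 := by norm_num
  rw [h2] at h1
  have hk : (0 : ℝ) ≤ k := Nat.cast_nonneg k
  have h3 : L + k ≤ (6 / 5 : ℝ) ^ k * L := by
    have h4 : (1 + (k : ℝ) * (1 / 5)) * L ≤ (6 / 5 : ℝ) ^ k * L :=
      mul_le_mul_of_nonneg_right h1 (by linarith)
    have h6 : (k : ℝ) * 5 ≤ k * L := mul_le_mul_of_nonneg_left h5 hk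
    nlinarith
  have h4 : Real.exp (-((6 / 5 : ℝ) ^ k * L)) ≤ Real.exp (-L) * Real.exp (-1) ^ k := by
    have h7 : Real.exp (-1) ^ k = Real.exp (-(k : ℝ)) := by
      rw [← Real.exp_nat_mul]
      congr 1
      ring
    rw [h7, ← Real.exp_add]
    exact Real.exp_le_exp.2 (by linarith)
  have h6 : Real.exp (-1) ≤ 1 / 2 := by
    rw [Real.exp_neg]
    have h7 : (2 : ℝ) ≤ Real.exp 1 := by
      have := Real.add_one_le_exp (1 : ℝ)
      linarith
    rw [one_div]
    exact inv_anti₀ (by norm_num) h7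
  have h7 : (4 * (Q : ℝ) + 1) * Real.exp (-L) ≤ 1 / 4 := by
    rw [Real.exp_neg]
    have h8 : 4 * (4 * (Q : ℝ) + 1) ≤ Real.exp L := by
      have := Real.add_one_le_exp L
      linarith
    have h9 : 0 < Real.exp L := Real.exp_pos L
    rw [← div_eq_mul_inv, div_le_iff₀ h9]
    linarith
  have hQ : (0 : ℝ) ≤ 4 * (Q : ℝ) + 1 := by positivity
  calc (4 * (Q : ℝ) + 1) * Real.exp (-((6 / 5 : ℝ) ^ k * L))
      ≤ (4 * (Q : ℝ) + 1) * (Real.exp (-L) * Real.exp (-1) ^ k) :=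
        mul_le_mul_of_nonneg_left h4 hQ
    _ = ((4 * (Q : ℝ) + 1) * Real.exp (-L)) * Real.exp (-1) ^ k := by ring
    _ ≤ 1 / 4 * (1 / 2) ^ k := by
        have h8 : Real.exp (-1) ^ k ≤ (1 / 2 : ℝ) ^ k :=
          pow_le_pow_left₀ (Real.exp_pos _).le h6 k
        exact mul_le_mul h7 h8 (pow_nonneg (Real.exp_pos _).le k) (by norm_num)

/-- union bound for the annuli -/
theorem bound {ν : Measure (Set Pt)} [IsProbabilityMeasure ν] {B : Set (Set Pt)} (M N : ℕ)
    (z : ℕ → Pt) (hinv : ∀ z, ν.real {I : Set Pt | An I z N} = ν.real {I : Set Pt | An I 0 N})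
    (hB : ∀ I ∈ B, ∃ j : ℕ, j ≤ M ∧ An I (z j) N) :
    ν.real B ≤ ((M : ℝ) + 1) * ν.real {I : Set Pt | An I 0 N} := by
  have h1 : B ⊆ ⋃ j ∈ Finset.range (M + 1), {I : Set Pt | An I (z j) N} := by
    intro I hI
    obtain ⟨j, hj, hA⟩ := hB I hI
    exact Set.mem_iUnion₂.2 ⟨j, Finset.mem_range.2 (Nat.lt_succ_of_le hj), hA⟩
  calc ν.real B ≤ ν.real (⋃ j ∈ Finset.range (M + 1), {I : Set Pt | An I (z j) N}) :=
        measureReal_mono h1 (measure_ne_top _ _)
    _ ≤ ∑ j ∈ Finset.range (M + 1), ν.real {I : Set Pt | An I (z j) N} :=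
        measureReal_biUnion_finset_le _ _
    _ = ∑ j ∈ Finset.range (M + 1), ν.real {I : Set Pt | An I 0 N} :=
        Finset.sum_congr rfl (fun j _ => hinv (z j))
    _ = ((M : ℝ) + 1) * ν.real {I : Set Pt | An I 0 N} := by
        rw [Finset.sum_const, Finset.card_range, nsmul_eq_mul]
        push_cast
        ring

end P9x

open P9x in
theorem P9 (h2 : St_P2) (h8 : St_P8) (h9 : St_T9) (h10 : St_T10) : St_P9 := by
  intro c μ hF hM
  obtain ⟨Q, a, L₀, hQ, ha, hL₀, hrec⟩ := h8 c μ hF hM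
  refine ⟨a, L₀ + 5 + 4 * (4 * Q + 1), ha, by positivity, ?_⟩
  intro u L n hu hn hL hLn hA
  have hν := hM u hu
  have hprob := hν.prob
  have hQ0 : (0 : ℝ) ≤ Q := Nat.cast_nonneg Q
  have hLL : L₀ ≤ L := by nlinarith
  have hL5 : 5 ≤ L := by nlinarith
  have hLQ : 4 * (4 * (Q : ℝ) + 1) ≤ L := by nlinarith
  have hL0 : 0 < L := by linarith
  have hN : ∀ k : ℕ, 1 ≤ Q ^ k * n := fun k => Nat.one_le_iff_ne_zero.2
    (Nat.mul_ne_zero (pow_ne_zero k (by omega)) (by omega))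
  have hind : ∀ k : ℕ, (μ u).real {I : Set Pt | An I 0 (Q ^ k * n)} ≤
      Real.exp (-((6 / 5 : ℝ) ^ k * L)) := by
    intro k
    induction k with
    | zero => simpa using hA
    | succ k ih =>
      have h65 : (1 : ℝ) ≤ (6 / 5 : ℝ) ^ k := one_le_pow₀ (by norm_num)
      have c1 : L₀ ≤ (6 / 5 : ℝ) ^ k * L := by nlinarith
      have c2 : (6 / 5 : ℝ) ^ k * L ≤ a * u * ((Q ^ k * n : ℕ) : ℝ) := by
        have h3 : (6 / 5 : ℝ) ^ k ≤ (Q : ℝ) ^ k := by
          have h4 : (2 : ℝ) ≤ Q := by exact_mod_cast hQ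
          exact pow_le_pow_left₀ (by norm_num) (by linarith) k
        calc (6 / 5 : ℝ) ^ k * L ≤ (Q : ℝ) ^ k * (a * u * n) :=
              mul_le_mul h3 hLn hL0.le (by positivity)
          _ = a * u * ((Q ^ k * n : ℕ) : ℝ) := by
              push_cast
              ring
      have h1 := hrec u ((6 / 5 : ℝ) ^ k * L) (Q ^ k * n) hu (hN k) c1 c2 ih
      have e : Q * (Q ^ k * n) = Q ^ (k + 1) * n := by ring
      have e2 : -(6 * ((6 / 5 : ℝ) ^ k * L) / 5) = -((6 / 5 : ℝ) ^ (k + 1) * L) := by ring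
      rw [e, e2] at h1
      exact h1
  have hinv : ∀ (N : ℕ) (z : Pt), (μ u).real {I : Set Pt | An I z N} =
      (μ u).real {I : Set Pt | An I 0 N} := fun N z => (h2 (μ u) hν).2.2.2.2.2.1 z N
  have hdiv : ∀ k : ℕ, 4 * (Q ^ (k + 1) * n) / (Q ^ k * n) = 4 * Q := by
    intro k
    have e : 4 * (Q ^ (k + 1) * n) = 4 * Q * (Q ^ k * n) := by ring
    rw [e]
    exact Nat.mul_div_cancel _ (hN k)
  -- the bad events
  let B : ℕ → Set (Set Pt) := fun k => {I : Set Pt |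
    (Even k ∧ ¬ LR Iᶜ 0 (4 * ((Q ^ (k + 1) * n : ℕ) : ℤ)) 0 (4 * ((Q ^ k * n : ℕ) : ℤ))) ∨
    (Odd k ∧ ¬ TB Iᶜ 0 (4 * ((Q ^ k * n : ℕ) : ℤ)) 0 (4 * ((Q ^ (k + 1) * n : ℕ) : ℤ)))}
  have hB : ∀ k, (μ u).real (B k) ≤ 1 / 4 * (1 / 2) ^ k := by
    intro k
    have h3 : (μ u).real (B k) ≤ (((4 * Q : ℕ) : ℝ) + 1) *
        (μ u).real {I : Set Pt | An I 0 (Q ^ k * n)} := by
      rcases Nat.even_or_odd k with hk | hk
      · refine bound (4 * Q) (Q ^ k * n) (fun j => ((((Q ^ k * n : ℕ) : ℤ) * j : ℤ), 0))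
          (hinv _) ?_
        rintro I (⟨-, hI⟩ | ⟨hk', -⟩)
        · have h4 := h9.1 I (Q ^ k * n) (4 * (Q ^ (k + 1) * n)) (hN k) (by
            simpa using hI)
          rw [hdiv k] at h4
          exact h4
        · exact absurd hk (Nat.not_even_iff_odd.2 hk')
      · refine bound (4 * Q) (Q ^ k * n) (fun j => ((0 : ℤ), (((Q ^ k * n : ℕ) : ℤ) * j : ℤ)))
          (hinv _) ?_
        rintro I (⟨hk', -⟩ | ⟨-, hI⟩)
        · exact absurd hk' (Nat.not_even_iff_odd.2 hk)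
        · have h4 := h9.2 I (Q ^ k * n) (4 * (Q ^ (k + 1) * n)) (hN k) (by
            simpa using hI)
          rw [hdiv k] at h4
          exact h4
    refine h3.trans ?_
    have h4 : (((4 * Q : ℕ) : ℝ) + 1) = 4 * (Q : ℝ) + 1 := by push_cast; ring
    rw [h4]
    refine le_trans (mul_le_mul_of_nonneg_left (hind k) (by positivity)) (num hL5 hLQ k)
  -- with positive probability there is no bad event
  have hsum : (μ u) (⋃ k, B k) ≤ ENNReal.ofReal (1 / 2) := by
    have h3 : ∀ k, (μ u) (B k) ≤ ENNReal.ofReal (1 / 4 * (1 / 2) ^ k) := by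
      intro k
      rw [← ofReal_measureReal (measure_ne_top _ _)]
      exact ENNReal.ofReal_le_ofReal (hB k)
    refine (measure_iUnion_le B).trans ((ENNReal.tsum_le_tsum h3).trans ?_)
    rw [← ENNReal.ofReal_tsum_of_nonneg (fun k => by positivity)
      (summable_geometric_two.mul_left (1 / 4)), tsum_mul_left, tsum_geometric_two]
    norm_num
  have hpos : (μ u) (⋃ k, B k)ᶜ ≠ 0 := by
    intro h0
    have h3 : (1 : ENNReal) ≤ (μ u) (⋃ k, B k) + (μ u) (⋃ k, B k)ᶜ := by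
      rw [← measure_univ (μ := μ u), ← Set.union_compl_self (⋃ k, B k)]
      exact measure_union_le _ _
    rw [h0, add_zero] at h3
    have h4 := h3.trans hsum
    have h5 : ENNReal.ofReal (1 / 2) < 1 := by
      rw [← ENNReal.ofReal_one]
      exact (ENNReal.ofReal_lt_ofReal_iff one_pos).2 (by norm_num)
    exact absurd h4 (not_le.2 h5)
  have hsub : (⋃ k, B k)ᶜ ⊆ ⋃ x : Pt, {I : Set Pt | {y | Con Iᶜ x y}.Infinite} := by
    intro I hI
    have hI' : ∀ k, I ∉ B k := fun k hk => hI (Set.mem_iUnion.2 ⟨k, hk⟩)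
    have hmono : StrictMono (fun k : ℕ => Q ^ k * n) := by
      refine strictMono_nat_of_lt_succ (fun k => ?_)
      have h3 := hN k
      have e : Q ^ (k + 1) * n = Q * (Q ^ k * n) := by ring
      show Q ^ k * n < Q ^ (k + 1) * n
      rw [e]
      nlinarith
    obtain ⟨x, hx⟩ := h10 Iᶜ (fun k : ℕ => Q ^ k * n) hmono
      (fun k hk => by
        by_contra h3
        exact hI' k (Or.inl ⟨hk, h3⟩))
      (fun k hk => by
        by_contra h3
        exact hI' k (Or.inr ⟨hk, h3⟩))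
    exact Set.mem_iUnion.2 ⟨x, hx⟩
  have hne : (μ u) (⋃ x : Pt, {I : Set Pt | {y | Con Iᶜ x y}.Infinite}) ≠ 0 :=
    fun h0 => hpos (measure_mono_null hsub h0)
  obtain ⟨x, hx⟩ := exists_measure_pos_of_not_measure_iUnion_null hne
  have hmeas : AEMeasurable (fun I : Set Pt => {y : Pt | y + x ∈ I}) (μ u) := by
    by_contra h3
    have h4 := hν.shift x
    rw [Measure.map_of_not_aemeasurable h3] at h4
    have h5 : (μ u) Set.univ = 1 := measure_univ
    rw [← h4] at h5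
    simp at h5
  have h3 : (μ u) {I : Set Pt | {y | Con Iᶜ x y}.Infinite} ≤
      (μ u) {I : Set Pt | {y | Con Iᶜ 0 y}.Infinite} := by
    calc (μ u) {I : Set Pt | {y | Con Iᶜ x y}.Infinite}
        ≤ (μ u) ((fun I : Set Pt => {y : Pt | y + x ∈ I}) ⁻¹'
            {I : Set Pt | {y | Con Iᶜ 0 y}.Infinite}) :=
          measure_mono (fun I hI => inf_shift hI)
      _ ≤ ((μ u).map (fun I : Set Pt => {y : Pt | y + x ∈ I}))
            {I : Set Pt | {y | Con Iᶜ 0 y}.Infinite} := Measure.le_map_apply hmeas _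
      _ = (μ u) {I : Set Pt | {y | Con Iᶜ 0 y}.Infinite} := by rw [hν.shift x]
  exact ENNReal.toReal_pos (lt_of_lt_of_le hx h3).ne' (measure_ne_top _ _)

end PLS
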