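import Pool.Agent.PLS.StT

/-!
PLS T1: the parity function of a nearest neighbour path.
-/

set_option autoImplicit false
set_option linter.unusedVariables false

open Finset Filter Topology MeasureTheory RInt

noncomputable section

namespace PLS

namespace T1x

/-- the number of crossings of the step `q → r` -/
def e (q r : Pt) (y x : ℤ) : ZMod 2 :=
  ind (q.1 = r.1 ∧ q.1 < x ∧ ((q.2 = y ∧ r.2 = y + 1) ∨ (r.2 = y ∧ q.2 = y + 1)))

lemma two (a : ZMod 2) : a + a = 0 := by
  revert a; decide

lemma ne_coord {V : Set Pt} {q : Pt} (hq : q ∈ V) {x y : ℤ} (h : (x, y) ∉ V) :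
    ¬ (q.1 = x ∧ q.2 = y) := by
  rintro ⟨h1, h2⟩
  apply h
  have : q = (x, y) := Prod.ext h1 h2
  rwa [← this]

lemma ind_congr {p q : Prop} (h : p ↔ q) : ind p = ind q := by
  unfold ind
  by_cases hp : p
  · rw [if_pos hp, if_pos (h.1 hp)]
  · rw [if_neg hp, if_neg (fun hq => hp (h.2 hq))]

lemma ind_zero {p : Prop} (h : ¬ p) : ind p = 0 := by
  unfold ind
  rw [if_neg h]

lemma ind_one {p : Prop} (h : p) : ind p = 1 := by
  unfold ind
  rw [if_pos h]

lemma e1 {V : Set Pt} {q r : Pt} (hq : q ∈ V) (hr : r ∈ V) {x y : ℤ}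
    (h : (x, y) ∉ V ∨ (x, y + 1) ∉ V) : e q r y (x + 1) = e q r y x := by
  unfold e
  apply ind_congr
  rcases h with h | h
  · have h1 := ne_coord hq h
    have h2 := ne_coord hr h
    omega
  · have h1 := ne_coord hq h
    have h2 := ne_coord hr h
    omega

lemma e2 {V : Set Pt} {q r : Pt} (hq : q ∈ V) (hr : r ∈ V) (hqr : nn q r) {x y : ℤ}
    (h : (x, y + 1) ∉ V) : e q r y x + e q r (y + 1) x =
      ind (q.2 = y + 1 ∧ q.1 < x) + ind (r.2 = y + 1 ∧ r.1 < x) := by
  have h1 := ne_coord hq h
  have h2 := ne_coord hr h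
  unfold nn at hqr
  unfold e ind
  split_ifs <;> first | rfl | (exfalso; omega)

lemma e4 {q r : Pt} (hqr : nn q r) {x y : ℤ} (h1 : q.1 < x) (h2 : r.1 < x) :
    e q r y x = ind (y < q.2) + ind (y < r.2) := by
  unfold nn at hqr
  unfold e ind
  split_ifs <;> first | rfl | (exfalso; omega)

end T1x

open T1x in
theorem T1 : St_T1 := by
  rintro V p q ⟨hp, h⟩
  induction h with
  | refl =>
    refine ⟨fun _ _ => 0, fun _ _ _ => rfl, ?_, fun _ _ _ _ _ => rfl, ?_, fun _ _ _ _ _ => rfl,
      fun _ _ _ _ _ => rfl⟩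
    · intro x y _
      show (0 : ZMod 2) + 0 = _
      rw [add_zero, two]
    · intro b _ x y _
      rw [two]
  | @tail q r _ hqr ih =>
    obtain ⟨N, h1, h2, h3, h4, h5, h6⟩ := ih
    obtain ⟨hq, hr, hnn⟩ := hqr
    refine ⟨fun y x => N y x + e q r y x, ?_, ?_, ?_, ?_, ?_, ?_⟩
    · intro x y h
      show N y (x + 1) + e q r y (x + 1) = N y x + e q r y x
      rw [h1 x y h, e1 hq hr h]
    · intro x y h
      show N y x + e q r y x + (N (y + 1) x + e q r (y + 1) x) = _
      have ha := h2 x y h
      have hb := e2 hq hr hnn h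
      have hc := two (ind (q.2 = y + 1 ∧ q.1 < x))
      linear_combination ha + hb + hc
    · intro a ha x y hx
      show N y x + e q r y x = 0
      rw [h3 a ha x y hx, zero_add]
      unfold e
      apply ind_zero
      have := ha q hq
      omega
    · intro b hb x y hx
      show N y x + e q r y x = _
      have h7 := hb q hq
      have h8 := hb r hr
      have h9 := h4 b hb x y hx
      have h10 := e4 hnn (x := x) (y := y) (by omega) (by omega)
      have hc := two (ind (y < q.2))
      linear_combination h9 + h10 + hc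
    · intro d hd x y hy
      show N y x + e q r y x = 0
      rw [h5 d hd x y hy, zero_add]
      unfold e
      apply ind_zero
      have h7 := hd q hq
      have h8 := hd r hr
      omega
    · intro c hc x y hy
      show N y x + e q r y x = 0
      rw [h6 c hc x y hy, zero_add]
      unfold e
      apply ind_zero
      have h7 := hc q hq
      have h8 := hc r hr
      omega

end PLS
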