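import Pool.Agent.PLS.T5

/-!
# PLS, T10: an infinite cluster from crossings of longer and longer rectangles
-/

set_option autoImplicit false

namespace PLS

namespace T10x

open T5x

theorem trans {V : Set Pt} {x y z : Pt} (h : Con V x y) (h' : Con V y z) : Con V x z :=
  ⟨h.1, h.2.trans h'.2⟩

/-- The crossings of two rectangles which cross each other meet. -/
theorem meet (h0 : St_T0) (h2 : St_T2) (V : Set Pt) (a b c d a' b' c' d' : ℤ)
    (ha : a ≤ a') (hb : b' ≤ b) (hc : c' ≤ c) (hcd : c ≤ d) (hd : d ≤ d') (x y x' y' : Pt)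
    (hx : x.1 = a) (hy : y.1 = b) (hxy : Con (V ∩ Rc a b c d) x y)
    (hx' : x'.2 = c') (hy' : y'.2 = d') (hxy' : Con (V ∩ Rc a' b' c' d') x' y') :
    Con V x x' := by
  obtain ⟨t1, _, _, _, _, t6, _⟩ := h0
  have c1 := (t1 _ x y hxy).2.2
  have c2 := (t1 _ x' y' hxy').2.2
  have hTB : TB {z | Con (V ∩ Rc a' b' c' d') x' z} a' b' c' d' := by
    refine ⟨x', y', hx', hy', mono ?_ c2⟩
    intro z hz
    exact ⟨hz, (mem_right hz).2⟩
  obtain ⟨r, s, hr, hs, hrs⟩ := T5.2.1 _ a' b' c' d' a b c d hc hcd hd ha hb hTB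
  obtain ⟨z, hz1, hz2⟩ := h2 a b c d _ _ x y r s
    (by intro z hz; exact (mem_right hz).2) Set.inter_subset_right c1 hx hy (t6 _ _ _ hrs) hr hs
  exact trans (mono Set.inter_subset_left hz1) (symm (mono Set.inter_subset_left hz2.1))

end T10x

open T10x T5x in
theorem T10 (h0 : St_T0) (h2 : St_T2) : St_T10 := by
  intro V n hn he ho
  have hX : ∀ k, ∃ x y : Pt, Con V x y ∧
      ((Even k ∧ x.1 = 0 ∧ y.1 = 4 * n (k + 1) ∧ Con (V ∩ Rc 0 (4 * n (k + 1)) 0 (4 * n k)) x y) ∨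
      (Odd k ∧ x.2 = 0 ∧ y.2 = 4 * n (k + 1) ∧
        Con (V ∩ Rc 0 (4 * n k) 0 (4 * n (k + 1))) x y)) := by
    intro k
    rcases Nat.even_or_odd k with hk | hk
    · obtain ⟨x, y, hx, hy, hxy⟩ := he k hk
      exact ⟨x, y, mono Set.inter_subset_left hxy, Or.inl ⟨hk, hx, hy, hxy⟩⟩
    · obtain ⟨x, y, hx, hy, hxy⟩ := ho k hk
      exact ⟨x, y, mono Set.inter_subset_left hxy, Or.inr ⟨hk, hx, hy, hxy⟩⟩
  choose x y hxy hX using hX
  have hmeet : ∀ k, Con V (x k) (x (k + 1)) := by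
    intro k
    have m1 : n k < n (k + 1) := hn (Nat.lt_succ_self k)
    have m2 : n (k + 1) < n (k + 1 + 1) := hn (Nat.lt_succ_self _)
    rcases hX k with ⟨hk, e1, e2, e3⟩ | ⟨hk, e1, e2, e3⟩
    · rcases hX (k + 1) with ⟨hk', _⟩ | ⟨_, f1, f2, f3⟩
      · exfalso
        rw [Nat.even_add_one] at hk'
        exact hk' hk
      · exact meet h0 h2 V 0 (4 * n (k + 1)) 0 (4 * n k) 0 (4 * n (k + 1)) 0 (4 * n (k + 1 + 1))
          le_rfl le_rfl le_rfl (by omega) (by omega) _ _ _ _ e1 e2 e3 f1 f2 f3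
    · rcases hX (k + 1) with ⟨_, f1, f2, f3⟩ | ⟨hk', _⟩
      · exact symm (meet h0 h2 V 0 (4 * n (k + 1 + 1)) 0 (4 * n (k + 1)) 0 (4 * n k) 0
          (4 * n (k + 1)) le_rfl (by omega) le_rfl (by omega) le_rfl _ _ _ _ f1 f2 f3 e1 e2 e3)
      · exfalso
        rw [Nat.odd_add_one] at hk'
        exact hk' hk
  have hall : ∀ k, Con V (x 0) (x k) := by
    intro k
    induction k with
    | zero => exact ⟨(hxy 0).1, Relation.ReflTransGen.refl⟩
    | succ k ih => exact trans ih (hmeet k)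
  refine ⟨x 0, ?_⟩
  refine Set.infinite_of_injective_forall_mem (f := fun k => y (2 * k)) ?_ ?_
  · intro k l hkl
    have hyk : ∀ k, (y (2 * k)).1 = 4 * n (2 * k + 1) := by
      intro k
      rcases hX (2 * k) with ⟨_, _, e2, _⟩ | ⟨hk, _⟩
      · exact e2
      · exfalso
        rw [Nat.odd_iff] at hk
        omega
    have h : (y (2 * k)).1 = (y (2 * l)).1 := by
      simp only at hkl
      rw [hkl]
    rw [hyk, hyk] at h
    have h' : n (2 * k + 1) = n (2 * l + 1) := by omega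
    have := hn.injective h'
    omega
  · intro k
    exact trans (hall (2 * k)) (hxy (2 * k))

end PLS
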