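import Pool.Agent.PLS.StT

/-!
# PLS, T11: good pairs of scales exist
-/

set_option autoImplicit false

namespace PLS

theorem T11 : St_T11 := by
  intro α n₀ h
  by_contra hc
  push Not at hc
  have hs : ∀ k : ℕ, ∃ s : ℕ, n₀ ≤ s ∧ 2 ^ k ≤ α s + 1 ∧ 2 ^ k * s ≤ 3 ^ k * n₀ := by
    intro k
    induction k with
    | zero => exact ⟨n₀, le_refl _, by simp, by simp⟩
    | succ k ih =>
        obtain ⟨s, h1, h2, h3⟩ := ih
        refine ⟨s + s / 2, by omega, ?_, ?_⟩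
        · have h4 := hc s h1
          rw [pow_succ]
          omega
        · have h4 : 2 * (s + s / 2) ≤ 3 * s := by omega
          calc 2 ^ (k + 1) * (s + s / 2) = 2 ^ k * (2 * (s + s / 2)) := by ring
            _ ≤ 2 ^ k * (3 * s) := Nat.mul_le_mul_left _ h4
            _ = 3 * (2 ^ k * s) := by ring
            _ ≤ 3 * (3 ^ k * n₀) := Nat.mul_le_mul_left _ h3
            _ = 3 ^ (k + 1) * n₀ := by ring
  obtain ⟨k, hk⟩ := pow_unbounded_of_one_lt ((n₀ : ℝ) + 1) (by norm_num : (1 : ℝ) < 4 / 3)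
  obtain ⟨s, _, h2, h3⟩ := hs k
  have h4 : 2 ^ k ≤ s + 1 := le_trans h2 (Nat.succ_le_succ (h s))
  have h5 : 4 ^ k ≤ 3 ^ k * (n₀ + 1) := by
    calc 4 ^ k = 2 ^ k * 2 ^ k := by rw [← mul_pow]; norm_num
      _ ≤ 2 ^ k * (s + 1) := Nat.mul_le_mul_left _ h4
      _ = 2 ^ k * s + 2 ^ k := by ring
      _ ≤ 3 ^ k * n₀ + 3 ^ k := Nat.add_le_add h3 (Nat.pow_le_pow_left (by norm_num) k)
      _ = 3 ^ k * (n₀ + 1) := by ring
  have h6 : ((4 : ℝ)) ^ k ≤ 3 ^ k * (n₀ + 1) := by exact_mod_cast h5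
  rw [div_pow, lt_div_iff₀ (by positivity)] at hk
  linarith

end PLS
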