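import Pool.Agent.PLS.StT

/-!
PLS T2: a left-right path and a bottom-top star path of a rectangle meet.
-/

set_option autoImplicit false
set_option linter.unusedVariables false

open Finset Filter Topology MeasureTheory RInt

noncomputable section

namespace PLS

namespace T2x

lemma two (a : ZMod 2) : a + a = 0 := by
  revert a; decide

lemma ind_zero {p : Prop} (h : ¬ p) : ind p = 0 := by
  unfold ind
  rw [if_neg h]

lemma ind_one {p : Prop} (h : p) : ind p = 1 := by
  unfold ind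
  rw [if_pos h]

/-- a function which satisfies the horizontal and the vertical relation off `V` is constant along
star paths off `V` -/
lemma const {V W : Set Pt} (S : ℤ → ℤ → ZMod 2) (hVW : ∀ z, z ∈ W → z ∉ V)
    (hH : ∀ x y : ℤ, ((x, y) ∉ V ∨ (x, y + 1) ∉ V) → S y (x + 1) = S y x)
    (hD : ∀ x y : ℤ, (x, y + 1) ∉ V → (∃ z ∈ W, z.1 = x) → S y x = S (y + 1) x) {r s : Pt}
    (h : SCon W r s) : S r.2 r.1 = S s.2 s.1 := by
  -- one step up
  have up : ∀ a b : Pt, a ∈ W → b ∈ W → st a b → b.2 = a.2 + 1 → S a.2 a.1 = S b.2 b.1 := by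
    rintro ⟨a1, a2⟩ ⟨b1, b2⟩ ha hb hst hab
    simp only at hab ⊢
    subst hab
    unfold st at hst
    rw [abs_le, abs_le] at hst
    simp only at hst
    have ha' := hVW _ ha
    have hb' := hVW _ hb
    have hv : S a2 b1 = S (a2 + 1) b1 := hD b1 a2 hb' ⟨_, hb, rfl⟩
    rw [← hv]
    obtain h1 | h1 | h1 : b1 = a1 ∨ b1 = a1 + 1 ∨ a1 = b1 + 1 := by omega
    · rw [h1]
    · rw [h1]
      exact (hH a1 a2 (Or.inl ha')).symm
    · rw [h1]
      exact hH b1 a2 (Or.inr hb')
  have flat : ∀ a b : Pt, a ∈ W → b ∈ W → a.2 = b.2 → b.1 = a.1 + 1 → S a.2 a.1 = S b.2 b.1 := by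
    rintro ⟨a1, a2⟩ ⟨b1, b2⟩ ha hb h1 h2
    simp only at h1 h2 ⊢
    subst h1; subst h2
    exact (hH a1 a2 (Or.inl (hVW _ ha))).symm
  have step : ∀ a b : Pt, a ∈ W → b ∈ W → st a b → S a.2 a.1 = S b.2 b.1 := by
    intro a b ha hb hst
    have hst' : st b a := by
      unfold st at hst ⊢
      rw [abs_le, abs_le] at hst ⊢
      omega
    have hst2 := hst
    unfold st at hst2
    rw [abs_le, abs_le] at hst2
    obtain h1 | h1 | h1 : a.2 = b.2 ∨ b.2 = a.2 + 1 ∨ a.2 = b.2 + 1 := by omega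
    · obtain h2 | h2 | h2 : b.1 = a.1 ∨ b.1 = a.1 + 1 ∨ a.1 = b.1 + 1 := by omega
      · rw [h1, h2]
      · exact flat a b ha hb h1 h2
      · exact (flat b a hb ha h1.symm h2).symm
    · exact up a b ha hb hst h1
    · exact (up b a hb ha hst' h1).symm
  obtain ⟨_, h2⟩ := h
  induction h2 with
  | refl => rfl
  | tail _ h4 ih => rw [ih]; exact step _ _ h4.1 h4.2.1 h4.2.2

lemma mem_Rc {a b c d : ℤ} {z : Pt} (h : z ∈ (Rc a b c d : Set Pt)) :
    a ≤ z.1 ∧ z.1 ≤ b ∧ c ≤ z.2 ∧ z.2 ≤ d := by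
  have h1 : z ∈ Rc a b c d := h
  unfold Rc at h1
  rw [Finset.mem_product, Finset.mem_Icc, Finset.mem_Icc] at h1
  exact ⟨h1.1.1, h1.1.2, h1.2.1, h1.2.2⟩

lemma srange {W : Set Pt} {r s : Pt} (h : SCon W r s) : r ∈ W ∧ s ∈ W := by
  obtain ⟨h1, h2⟩ := h
  refine ⟨h1, ?_⟩
  cases h2 with
  | refl => exact h1
  | tail _ h3 => exact h3.2.1

lemma crange {W : Set Pt} {r s : Pt} (h : Con W r s) : r ∈ W ∧ s ∈ W := by
  obtain ⟨h1, h2⟩ := h
  refine ⟨h1, ?_⟩
  cases h2 with
  | refl => exact h1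
  | tail _ h3 => exact h3.2.1

end T2x

open T2x in
theorem T2 (h1 : St_T1) : St_T2 := by
  intro a b c d V W p q r s hV hW hpq hp hq hrs hr hs
  by_contra hcon
  push Not at hcon
  have hVW : ∀ z, z ∈ W → z ∉ V := fun z hz hz' => hcon z hz' hz
  obtain ⟨N, n1, n2, n3, n4, n5, n6⟩ := h1 V p q hpq
  obtain ⟨hpV, hqV⟩ := crange hpq
  obtain ⟨hrW, hsW⟩ := srange hrs
  -- the vertical relation
  have vert : ∀ x y : ℤ, (x, y + 1) ∉ V → (∃ z ∈ W, z.1 = x) →
      N y x + N (y + 1) x = ind (p.2 = y + 1) := by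
    rintro x y hxy ⟨z, hz, rfl⟩
    have hzR := mem_Rc (hW hz)
    have hpR := mem_Rc (hV hpV)
    rw [n2 _ y hxy, ind_zero (p := q.2 = y + 1 ∧ q.1 < z.1) (by omega), add_zero]
    by_cases h : p.2 = y + 1
    · have hne : p.1 ≠ z.1 := by
        intro h3
        apply hxy
        have : p = (z.1, y + 1) := Prod.ext h3 h
        rwa [← this]
      rw [ind_one h, ind_one ⟨h, by omega⟩]
    · rw [ind_zero h, ind_zero (fun h3 => h h3.1)]
  have key := const (V := V) (W := W) (fun y x => N y x + ind (y < p.2)) hVW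
    (by
      intro x y h
      show N y (x + 1) + ind (y < p.2) = N y x + ind (y < p.2)
      rw [n1 x y h])
    (by
      intro x y h hx
      show N y x + ind (y < p.2) = N (y + 1) x + ind (y + 1 < p.2)
      have h2 := vert x y h hx
      have h3 := two (N (y + 1) x)
      have h4 : ind (p.2 = y + 1) + ind (y < p.2) + ind (y + 1 < p.2) = 0 := by
        unfold ind
        split_ifs <;> first | rfl | (exfalso; omega)
      have h5 := two (ind (y + 1 < p.2))
      linear_combination h2 + h4 - h3 - h5)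
    hrs
  have key' : N r.2 r.1 + ind (r.2 < p.2) = N s.2 s.1 + ind (s.2 < p.2) := key
  have hrR := mem_Rc (hW hrW)
  have hsR := mem_Rc (hW hsW)
  have hpR := mem_Rc (hV hpV)
  -- the start
  have e1 : N r.2 r.1 + ind (r.2 < p.2) = 1 := by
    have h2 : N (r.2 - 1) r.1 = 0 := n6 c (fun z hz => (mem_Rc (hV hz)).2.2.1) _ _ (by omega)
    have h3 := vert r.1 (r.2 - 1) (by
      rw [sub_add_cancel]
      exact hVW _ hrW) ⟨r, hrW, rfl⟩
    rw [sub_add_cancel, h2, zero_add] at h3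
    rw [h3]
    unfold ind
    split_ifs <;> first | rfl | (exfalso; omega)
  have e2 : N s.2 s.1 + ind (s.2 < p.2) = 0 := by
    rw [n5 d (fun z hz => (mem_Rc (hV hz)).2.2.2) _ _ (by omega), ind_zero (by omega), add_zero]
  rw [e1, e2] at key'
  exact one_ne_zero key'

end PLS
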