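import Pool.Agent.PLS.T2

/-!
PLS T3: the pocket lemma.
-/

set_option autoImplicit false
set_option linter.unusedVariables false

open Finset Filter Topology MeasureTheory RInt

noncomputable section

namespace PLS

namespace T3x

open T2x

lemma left (h1 : St_T1) (a b : ℤ) (V W : Set Pt) (p q r s : Pt)
    (hV : ∀ z ∈ V, a ≤ z.1 ∧ z.1 ≤ b) (hW : ∀ z ∈ W, a ≤ z.1) (hpq : Con V p q) (hp : p.1 = a)
    (hq : q.1 = a) (hqr : q.2 ≤ r.2) (hrp : r.2 ≤ p.2) (hrs : SCon W r s) (hr : r.1 = a)
    (hs : b < s.1) : ∃ z, z ∈ V ∧ z ∈ W := by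
  by_contra hcon
  push Not at hcon
  have hVW : ∀ z, z ∈ W → z ∉ V := fun z hz hz' => hcon z hz' hz
  obtain ⟨N, n1, n2, n3, n4, n5, n6⟩ := h1 V p q hpq
  obtain ⟨hpV, hqV⟩ := crange hpq
  obtain ⟨hrW, hsW⟩ := srange hrs
  have coord : ∀ {u : Pt} {x y : ℤ}, u ∈ V → (x, y) ∉ V → ¬ (u.1 = x ∧ u.2 = y) := by
    rintro u x y hu hxy ⟨h3, h4⟩
    apply hxy
    have : u = (x, y) := Prod.ext h3 h4
    rwa [← this]
  -- the vertical relation
  have vert : ∀ x y : ℤ, (x, y + 1) ∉ V → (∃ z ∈ W, z.1 = x) →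
      N y x + N (y + 1) x = ind (p.2 = y + 1) + ind (q.2 = y + 1) := by
    rintro x y hxy ⟨z, hz, rfl⟩
    have hzR := hW z hz
    have hpc := coord hpV hxy
    have hqc := coord hqV hxy
    rw [n2 _ y hxy]
    congr 1
    · unfold ind
      split_ifs <;> first | rfl | (exfalso; omega)
    · unfold ind
      split_ifs <;> first | rfl | (exfalso; omega)
  have key := const (V := V) (W := W) (fun y x => N y x + ind (y < p.2) + ind (y < q.2)) hVW
    (by
      intro x y h
      show N y (x + 1) + ind (y < p.2) + ind (y < q.2) = N y x + ind (y < p.2) + ind (y < q.2)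
      rw [n1 x y h])
    (by
      intro x y h hx
      show N y x + ind (y < p.2) + ind (y < q.2) =
        N (y + 1) x + ind (y + 1 < p.2) + ind (y + 1 < q.2)
      have h2 := vert x y h hx
      have h3 := two (N (y + 1) x)
      have h4 : ∀ u : ℤ, ind (u = y + 1) + ind (y < u) + ind (y + 1 < u) = 0 := by
        intro u
        unfold ind
        split_ifs <;> first | rfl | (exfalso; omega)
      have h5 := two (ind (y + 1 < p.2))
      have h6 := two (ind (y + 1 < q.2))
      linear_combination h2 + h4 p.2 + h4 q.2 - h3 - h5 - h6)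
    hrs
  have key' : N r.2 r.1 + ind (r.2 < p.2) + ind (r.2 < q.2) =
    N s.2 s.1 + ind (s.2 < p.2) + ind (s.2 < q.2) := key
  have hrV := hVW _ hrW
  have hpr : p.2 ≠ r.2 := by
    intro h
    apply hrV
    have : r = p := Prod.ext (by rw [hr, hp]) h.symm
    rwa [this]
  have e1 : N r.2 r.1 + ind (r.2 < p.2) + ind (r.2 < q.2) = 1 := by
    rw [n3 a (fun z hz => (hV z hz).1) _ _ hr.le, ind_one (by omega), ind_zero (by omega),
      zero_add, add_zero]
  have e2 : N s.2 s.1 + ind (s.2 < p.2) + ind (s.2 < q.2) = 0 := by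
    rw [n4 b (fun z hz => (hV z hz).2) _ _ hs]
    have h5 := two (ind (s.2 < p.2))
    have h6 := two (ind (s.2 < q.2))
    linear_combination h5 + h6
  rw [e1, e2] at key'
  exact one_ne_zero key'

/-- the reflection -/
def rf (z : Pt) : Pt := (-z.1, z.2)

lemma rf_rf (z : Pt) : rf (rf z) = z := by
  unfold rf
  exact Prod.ext (neg_neg _) rfl

lemma con_rf {V : Set Pt} {p q : Pt} (h : Con V p q) : Con {z | rf z ∈ V} (rf p) (rf q) := by
  obtain ⟨h1, h2⟩ := h
  refine ⟨by show rf (rf p) ∈ V; rwa [rf_rf], ?_⟩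
  induction h2 with
  | refl => exact Relation.ReflTransGen.refl
  | @tail b c _ h4 ih =>
    refine ih.tail ⟨by show rf (rf b) ∈ V; rw [rf_rf]; exact h4.1,
      by show rf (rf c) ∈ V; rw [rf_rf]; exact h4.2.1, ?_⟩
    have h5 := h4.2.2
    unfold nn rf at *
    simp only
    omega

lemma scon_rf {V : Set Pt} {p q : Pt} (h : SCon V p q) : SCon {z | rf z ∈ V} (rf p) (rf q) := by
  obtain ⟨h1, h2⟩ := h
  refine ⟨by show rf (rf p) ∈ V; rwa [rf_rf], ?_⟩
  induction h2 with
  | refl => exact Relation.ReflTransGen.refl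
  | @tail b c _ h4 ih =>
    refine ih.tail ⟨by show rf (rf b) ∈ V; rw [rf_rf]; exact h4.1,
      by show rf (rf c) ∈ V; rw [rf_rf]; exact h4.2.1, ?_⟩
    have h5 := h4.2.2
    unfold st rf at *
    simp only
    rw [abs_le, abs_le] at h5 ⊢
    omega

end T3x

open T3x in
theorem T3 (h1 : St_T1) : St_T3 := by
  refine ⟨left h1, ?_⟩
  intro a b V W p q r s hV hW hpq hp hq hqr hrp hrs hr hs
  obtain ⟨z, hz1, hz2⟩ := left h1 (-a) (-b) {z | rf z ∈ V} {z | rf z ∈ W} (rf p) (rf q) (rf r)
    (rf s)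
    (by
      intro z hz
      have := hV _ hz
      unfold rf at this
      simp only at this
      omega)
    (by
      intro z hz
      have := hW _ hz
      unfold rf at this
      simp only at this
      omega)
    (con_rf hpq) (by unfold rf; simp only; omega) (by unfold rf; simp only; omega)
    (by unfold rf; simp only; omega) (by unfold rf; simp only; omega) (scon_rf hrs)
    (by unfold rf; simp only; omega) (by unfold rf; simp only; omega)
  exact ⟨rf z, hz1, hz2⟩

end PLS
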