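import Pool.Agent.PLS.StT

/-!
# PLS, T5: sub-crossings
-/

set_option autoImplicit false

namespace PLS

namespace T5x

theorem nn_symm {x y : Pt} (h : nn x y) : nn y x := by
  unfold nn at *
  rcases h with ⟨h1, h2⟩ | ⟨h1, h2⟩
  · exact Or.inl ⟨h1.symm, h2.symm⟩
  · exact Or.inr ⟨h1.symm, h2.symm⟩

theorem mem_right {V : Set Pt} {x y : Pt} (h : Con V x y) : y ∈ V := by
  obtain ⟨h1, h2⟩ := h
  induction h2 with
  | refl => exact h1
  | tail _ h _ => exact h.2.1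

theorem symm {V : Set Pt} {x y : Pt} (h : Con V x y) : Con V y x := by
  refine ⟨mem_right h, ?_⟩
  obtain ⟨_, h2⟩ := h
  induction h2 with
  | refl => exact Relation.ReflTransGen.refl
  | tail _ hab ih => exact Relation.ReflTransGen.head ⟨hab.2.1, hab.1, nn_symm hab.2.2⟩ ih

theorem mono {V W : Set Pt} {x y : Pt} (hVW : V ⊆ W) (h : Con V x y) : Con W x y := by
  obtain ⟨h1, h2⟩ := h
  refine ⟨hVW h1, ?_⟩
  induction h2 with
  | refl => exact Relation.ReflTransGen.refl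
  | tail _ hab ih => exact Relation.ReflTransGen.tail ih ⟨hVW hab.1, hVW hab.2.1, hab.2.2⟩

/-- A path reaching the level `t` of `f`, the part after the last visit. -/
theorem after (f : Pt → ℤ) (hf : ∀ x y, nn x y → f y ≤ f x + 1) (V : Set Pt) (t : ℤ) (x y : Pt)
    (h : Con V x y) (hx : f x ≤ t) (hy : t ≤ f y) :
    ∃ x', f x' = t ∧ Con (V ∩ {z | t ≤ f z}) x' y := by
  have key : ∀ x, Relation.ReflTransGen (fun a b => a ∈ V ∧ b ∈ V ∧ nn a b) x y → x ∈ V →
      (∃ x', f x' = t ∧ Con (V ∩ {z | t ≤ f z}) x' y) ∨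
      (t < f x ∧ Con (V ∩ {z | t ≤ f z}) x y) := by
    intro x hxy
    induction hxy using Relation.ReflTransGen.head_induction_on with
    | refl =>
        intro hV
        have hc : Con (V ∩ {z | t ≤ f z}) y y := ⟨⟨hV, hy⟩, Relation.ReflTransGen.refl⟩
        rcases lt_or_eq_of_le hy with h1 | h1
        · exact Or.inr ⟨h1, hc⟩
        · exact Or.inl ⟨y, h1.symm, hc⟩
    | @head a b hab _ ih =>
        intro _
        rcases ih hab.2.1 with h1 | ⟨h1, h2⟩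
        · exact Or.inl h1
        · have h3 : t ≤ f a := by
            have := hf a b hab.2.2
            omega
          have h4 : Con (V ∩ {z | t ≤ f z}) a y := by
            refine ⟨⟨hab.1, h3⟩, Relation.ReflTransGen.head ⟨⟨hab.1, h3⟩, h2.1, hab.2.2⟩ h2.2⟩
          rcases lt_or_eq_of_le h3 with h5 | h5
          · exact Or.inr ⟨h5, h4⟩
          · exact Or.inl ⟨a, h5.symm, h4⟩
  rcases key x h.2 h.1 with h1 | h1
  · exact h1
  · omega

/-- A path reaching the level `t` of `f`, the part before the first visit. -/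
theorem before (f : Pt → ℤ) (hf : ∀ x y, nn x y → f y ≤ f x + 1) (V : Set Pt) (t : ℤ) (x y : Pt)
    (h : Con V x y) (hx : f x ≤ t) (hy : t ≤ f y) :
    ∃ y', f y' = t ∧ Con (V ∩ {z | f z ≤ t}) x y' := by
  obtain ⟨y', h1, h2⟩ := after (fun z => - f z)
    (fun x y hxy => by have := hf y x (nn_symm hxy); omega) V (-t) y x (symm h)
    (by simpa using hy) (by simpa using hx)
  refine ⟨y', by simpa using h1, ?_⟩
  refine mono ?_ (symm h2)
  rintro z ⟨hz1, hz2⟩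
  exact ⟨hz1, by simpa using hz2⟩

theorem fst_step (x y : Pt) (h : nn x y) : y.1 ≤ x.1 + 1 := by
  unfold nn at h
  omega

theorem snd_step (x y : Pt) (h : nn x y) : y.2 ≤ x.2 + 1 := by
  unfold nn at h
  omega

theorem nn_swap {x y : Pt} (h : nn x y) : nn x.swap y.swap := by
  unfold nn at *
  simp only [Prod.fst_swap, Prod.snd_swap]
  tauto

theorem con_swap {V W : Set Pt} (hVW : ∀ z ∈ V, z.swap ∈ W) {x y : Pt} (h : Con V x y) :
    Con W x.swap y.swap := by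
  obtain ⟨h1, h2⟩ := h
  refine ⟨hVW _ h1, ?_⟩
  induction h2 with
  | refl => exact Relation.ReflTransGen.refl
  | tail _ hab ih =>
      exact Relation.ReflTransGen.tail ih ⟨hVW _ hab.1, hVW _ hab.2.1, nn_swap hab.2.2⟩

theorem mem_Rc {a b c d : ℤ} {z : Pt} :
    z ∈ (Rc a b c d : Set Pt) ↔ (a ≤ z.1 ∧ z.1 ≤ b) ∧ (c ≤ z.2 ∧ z.2 ≤ d) := by
  rw [Finset.mem_coe, Rc, Finset.mem_product, Finset.mem_Icc, Finset.mem_Icc]

end T5x

open T5x in
theorem T5 : St_T5 := by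
  refine ⟨?_, ?_, ?_⟩
  · intro V a b c d a' b' c' d' h1 h2 h3 h4 h5 h
    obtain ⟨x, y, hx, hy, hxy⟩ := h
    obtain ⟨x', hx', hxy'⟩ := after Prod.fst fst_step _ a' x y hxy (by omega) (by omega)
    obtain ⟨y', hy', hxy''⟩ := before Prod.fst fst_step _ b' x' y hxy' (by omega) (by omega)
    refine ⟨x', y', hx', hy', mono ?_ hxy''⟩
    rintro z ⟨⟨⟨hz1, hz2⟩, hz3⟩, hz4⟩
    rw [mem_Rc] at hz2
    replace hz3 : a' ≤ z.1 := hz3
    replace hz4 : z.1 ≤ b' := hz4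
    exact ⟨hz1, mem_Rc.2 ⟨⟨hz3, hz4⟩, by omega, by omega⟩⟩
  · intro V a b c d a' b' c' d' h1 h2 h3 h4 h5 h
    obtain ⟨x, y, hx, hy, hxy⟩ := h
    obtain ⟨x', hx', hxy'⟩ := after Prod.snd snd_step _ c' x y hxy (by omega) (by omega)
    obtain ⟨y', hy', hxy''⟩ := before Prod.snd snd_step _ d' x' y hxy' (by omega) (by omega)
    refine ⟨x', y', hx', hy', mono ?_ hxy''⟩
    rintro z ⟨⟨⟨hz1, hz2⟩, hz3⟩, hz4⟩
    rw [mem_Rc] at hz2
    replace hz3 : c' ≤ z.2 := hz3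
    replace hz4 : z.2 ≤ d' := hz4
    exact ⟨hz1, mem_Rc.2 ⟨⟨by omega, by omega⟩, hz3, hz4⟩⟩
  · intro V a b c d
    constructor
    · rintro ⟨x, y, hx, hy, hxy⟩
      refine ⟨x.swap, y.swap, by simpa using hx, by simpa using hy, con_swap ?_ hxy⟩
      rintro z ⟨hz1, hz2⟩
      rw [mem_Rc] at hz2
      exact ⟨hz1, mem_Rc.2 ⟨hz2.2, hz2.1⟩⟩
    · rintro ⟨x, y, hx, hy, hxy⟩
      refine ⟨x.swap, y.swap, by simpa using hx, by simpa using hy, con_swap ?_ hxy⟩
      rintro z ⟨hz1, hz2⟩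
      rw [mem_Rc] at hz2
      refine ⟨?_, mem_Rc.2 ⟨hz2.2, hz2.1⟩⟩
      simpa using hz1

end PLS
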