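import Pool.Agent.PLS.StT

/-!
# PLS, module T6: the ring of four crossings
-/

set_option autoImplicit false
set_option linter.unusedVariables false

open Finset Filter Topology MeasureTheory RInt

noncomputable section

namespace PLS

namespace T6x

theorem mem_Rc (a b c d : ℤ) (x : Pt) :
    x ∈ Rc a b c d ↔ (a ≤ x.1 ∧ x.1 ≤ b) ∧ (c ≤ x.2 ∧ x.2 ≤ d) := by
  unfold Rc
  rw [Finset.mem_product, Finset.mem_Icc, Finset.mem_Icc]

theorem mem_Bx (z : Pt) (n : ℕ) (x : Pt) :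
    x ∈ Bx z n ↔ (z.1 - n ≤ x.1 ∧ x.1 ≤ z.1 + n) ∧ (z.2 - n ≤ x.2 ∧ x.2 ≤ z.2 + n) := by
  unfold Bx
  rw [mem_Rc]

theorem mem_Sp (z : Pt) (n : ℕ) (x : Pt) :
    x ∈ Sp z n ↔ x ∈ Bx z n ∧ (|x.1 - z.1| = n ∨ |x.2 - z.2| = n) := by
  unfold Sp
  rw [Finset.mem_filter]

theorem con_swap {V : Set Pt} {x y : Pt} (h : Con V x y) :
    Con {w | w.swap ∈ V} x.swap y.swap := by
  refine ⟨h.1, ?_⟩
  refine Relation.ReflTransGen.lift Prod.swap ?_ _ _ h.2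
  rintro a b ⟨h1, h2, h3⟩
  refine ⟨h1, h2, ?_⟩
  rcases h3 with h3 | h3
  · exact Or.inr h3
  · exact Or.inl h3

theorem scon_swap {V : Set Pt} {x y : Pt} (h : SCon V x y) :
    SCon {w | w.swap ∈ V} x.swap y.swap := by
  refine ⟨h.1, ?_⟩
  refine Relation.ReflTransGen.lift Prod.swap ?_ _ _ h.2
  rintro a b ⟨h1, h2, h3⟩
  exact ⟨h1, h2, ⟨h3.2, h3.1⟩⟩

/-- a left-right crossing meets a bottom-top star crossing -/
theorem meetLR (h0 : St_T0) (h2 : St_T2) {a b c d : ℤ} {V W : Set Pt} {x y r s : Pt}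
    (hx : x.1 = a) (hy : y.1 = b) (hc : Con (V ∩ Rc a b c d) x y)
    (hrs : (r.2 = c ∧ s.2 = d) ∨ (r.2 = d ∧ s.2 = c)) (hs : SCon (W ∩ Rc a b c d) r s) :
    ∃ w, Con (V ∩ Rc a b c d) x w ∧ SCon (W ∩ Rc a b c d) r w := by
  obtain ⟨t1, t2, t3, t4, t5, t6, t7, t8, t9, t10⟩ := h0
  have hs' := (t2 _ _ _ hs).2.2
  have key : ∀ r' s' : Pt, SCon {w | SCon (W ∩ Rc a b c d) r w} r' s' → r'.2 = c → s'.2 = d →
      ∃ w, Con (V ∩ Rc a b c d) x w ∧ SCon (W ∩ Rc a b c d) r w := by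
    intro r' s' h1 h3 h4
    obtain ⟨w, hw1, hw2⟩ := h2 a b c d {w | Con (V ∩ Rc a b c d) x w}
      {w | SCon (W ∩ Rc a b c d) r w} x y r' s' (fun w hw => (t1 _ _ _ hw).1.2)
      (fun w hw => (t2 _ _ _ hw).1.2) (t1 _ _ _ hc).2.2 hx hy h1 h3 h4
    exact ⟨w, hw1, hw2⟩
  rcases hrs with ⟨h3, h4⟩ | ⟨h3, h4⟩
  · exact key r s hs' h3 h4
  · exact key s r (t2 _ _ _ hs').2.1 h4 h3

/-- a bottom-top crossing meets a left-right star crossing -/
theorem meetTB (h0 : St_T0) (h2 : St_T2) {a b c d : ℤ} {V W : Set Pt} {x y r s : Pt}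
    (hx : x.2 = c) (hy : y.2 = d) (hc : Con (V ∩ Rc a b c d) x y)
    (hrs : (r.1 = a ∧ s.1 = b) ∨ (r.1 = b ∧ s.1 = a)) (hs : SCon (W ∩ Rc a b c d) r s) :
    ∃ w, Con (V ∩ Rc a b c d) x w ∧ SCon (W ∩ Rc a b c d) r w := by
  have hRc : ∀ w : Pt, w.swap ∈ Rc a b c d ↔ w ∈ Rc c d a b := by
    intro w
    rw [mem_Rc, mem_Rc]
    constructor
    · rintro ⟨h3, h4⟩
      exact ⟨h4, h3⟩
    · rintro ⟨h3, h4⟩
      exact ⟨h4, h3⟩
  have e : ∀ X : Set Pt, {w : Pt | w.swap ∈ X ∩ (Rc a b c d : Finset Pt)} =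
      {w | w.swap ∈ X} ∩ (Rc c d a b : Finset Pt) := by
    intro X
    ext w
    constructor
    · rintro ⟨h3, h4⟩
      exact ⟨h3, Finset.mem_coe.2 ((hRc w).1 (Finset.mem_coe.1 h4))⟩
    · rintro ⟨h3, h4⟩
      exact ⟨h3, Finset.mem_coe.2 ((hRc w).2 (Finset.mem_coe.1 h4))⟩
  have hc' := con_swap hc
  have hs' := scon_swap hs
  rw [e] at hc' hs'
  obtain ⟨w, hw1, hw2⟩ := meetLR h0 h2 (x := x.swap) (y := y.swap) (r := r.swap) (s := s.swap) hx hy hc'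
    hrs hs'
  have hw1' := con_swap hw1
  have hw2' := scon_swap hw2
  rw [Prod.swap_swap] at hw1' hw2'
  have e2 : ∀ X : Set Pt, {w : Pt | w.swap ∈ {w : Pt | w.swap ∈ X} ∩ (Rc c d a b : Finset Pt)} =
      X ∩ (Rc a b c d : Finset Pt) := by
    intro X
    rw [← e]
    ext w
    show w.swap.swap ∈ X ∩ (Rc a b c d : Finset Pt) ↔ _
    rw [Prod.swap_swap]
  rw [e2] at hw1' hw2'
  exact ⟨w.swap, hw1', hw2'⟩

/-- a left-right crossing of a rectangle and a bottom-top crossing of a rectangle across it are connected -/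
theorem corner (h0 : St_T0) (h2 : St_T2) (h5 : St_T5) {V : Set Pt} {a b c d a' b' c' d' : ℤ}
    (e1 : a ≤ a') (e2 : a' ≤ b') (e3 : b' ≤ b) (e4 : c' ≤ c) (e5 : c ≤ d) (e6 : d ≤ d') {x y x' y' : Pt}
    (hx : x.1 = a) (hy : y.1 = b) (hc : Con (V ∩ Rc a b c d) x y)
    (hx' : x'.2 = c') (hy' : y'.2 = d') (hc' : Con (V ∩ Rc a' b' c' d') x' y') :
    ∃ w, Con (V ∩ Rc a b c d) x w ∧ Con (V ∩ Rc a' b' c' d') x' w := by
  obtain ⟨t1, t2, t3, t4, t5, t6, t7, t8, t9, t10⟩ := h0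
  obtain ⟨f1, f2, f3⟩ := h5
  have g1 : LR {w | Con (V ∩ Rc a b c d) x w} a b c d := by
    refine ⟨x, y, hx, hy, (t5 _ _ _ _ ?_).1 (t1 _ _ _ hc).2.2⟩
    intro w hw
    exact ⟨hw, (t1 _ _ _ hw).1.2⟩
  have g2 : TB {w | Con (V ∩ Rc a' b' c' d') x' w} a' b' c' d' := by
    refine ⟨x', y', hx', hy', (t5 _ _ _ _ ?_).1 (t1 _ _ _ hc').2.2⟩
    intro w hw
    exact ⟨hw, (t1 _ _ _ hw).1.2⟩
  obtain ⟨p, q, hp, hq, hpq⟩ := f1 _ a b c d a' b' c d e1 e2 e3 le_rfl le_rfl g1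
  obtain ⟨r, s, hr, hs, hrs⟩ := f2 _ a' b' c' d' a' b' c d e4 e5 e6 le_rfl le_rfl g2
  obtain ⟨w, hw1, hw2⟩ := h2 a' b' c d _ _ p q r s (fun w hw => hw.2) (fun w hw => hw.2) hpq hp hq
    (t6 _ _ _ hrs) hr hs
  exact ⟨w, hw1.1, hw2.1⟩

end T6x

open T6x

theorem T6 (h0 : St_T0) (h2 : St_T2) (h5 : St_T5) : St_T6 := by
  obtain ⟨t1, t2, t3, t4, t5, t6, t7, t8, t9, t10⟩ := h0
  have h0 : St_T0 := ⟨t1, t2, t3, t4, t5, t6, t7, t8, t9, t10⟩
  -- part 1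
  have part1 : ∀ (V : Set Pt) (z : Pt) (h : ℕ), Rg V z h → ∃ v, Con (V ∩ Bx z (3 * h)) v v ∧
    ∀ (W : Set Pt) (x y : Pt), x ∈ Bx z h → y ∈ Sp z (3 * h) → SCon (W ∩ Bx z (3 * h)) x y →
      ∃ w, SCon (W ∩ Bx z (3 * h)) x w ∧ Con (V ∩ Bx z (3 * h)) v w := by
    intro V z h hRg
    obtain ⟨⟨xt, yt, hxt, hyt, ct⟩, ⟨xb, yb, hxb, hyb, cb⟩, ⟨xr, yr, hxr, hyr, cr⟩,
      ⟨xl, yl, hxl, hyl, cl⟩⟩ := hRg
    have hh : 1 ≤ h := by
      have h1 := (mem_Rc _ _ _ _ _).1 (Finset.mem_coe.1 ct.1.2)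
      omega
    have hBx : ∀ w : Pt, w ∈ Bx z (3 * h) ↔ (z.1 - 3 * h ≤ w.1 ∧ w.1 ≤ z.1 + 3 * h) ∧
        (z.2 - 3 * h ≤ w.2 ∧ w.2 ≤ z.2 + 3 * h) := by
      intro w
      rw [mem_Bx]
      push_cast
      rfl
    have sub : ∀ a b c d : ℤ, z.1 - 3 * h ≤ a → b ≤ z.1 + 3 * h → z.2 - 3 * h ≤ c → d ≤ z.2 + 3 * h →
        ∀ X : Set Pt, X ∩ (Rc a b c d : Finset Pt) ⊆ X ∩ (Bx z (3 * h) : Finset Pt) := by
      intro a b c d h1 h2 h3 h4 X w hw
      refine ⟨hw.1, Finset.mem_coe.2 ((hBx w).2 ?_)⟩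
      have h5 := (mem_Rc _ _ _ _ _).1 (Finset.mem_coe.1 hw.2)
      omega
    have st_ := sub (z.1 - 3 * h) (z.1 + 3 * h) (z.2 + h + 1) (z.2 + 3 * h) (by omega) (by omega)
      (by omega) (by omega)
    have sb_ := sub (z.1 - 3 * h) (z.1 + 3 * h) (z.2 - 3 * h) (z.2 - h - 1) (by omega) (by omega)
      (by omega) (by omega)
    have sr_ := sub (z.1 + h + 1) (z.1 + 3 * h) (z.2 - 3 * h) (z.2 + 3 * h) (by omega) (by omega)
      (by omega) (by omega)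
    have sl_ := sub (z.1 - 3 * h) (z.1 - h - 1) (z.2 - 3 * h) (z.2 + 3 * h) (by omega) (by omega)
      (by omega) (by omega)
    -- the four crossings are connected
    have ktr : Con (V ∩ Bx z (3 * h)) xt xr := by
      obtain ⟨w, hw1, hw2⟩ := corner h0 h2 h5 (by omega) (by omega) (by omega) (by omega) (by omega)
        (by omega) hxt hyt ct hxr hyr cr
      exact t3 _ _ _ _ ((t5 _ _ _ _ (st_ V)).1 hw1) (t1 _ _ _ ((t5 _ _ _ _ (sr_ V)).1 hw2)).2.1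
    have ktl : Con (V ∩ Bx z (3 * h)) xt xl := by
      obtain ⟨w, hw1, hw2⟩ := corner h0 h2 h5 (by omega) (by omega) (by omega) (by omega) (by omega)
        (by omega) hxt hyt ct hxl hyl cl
      exact t3 _ _ _ _ ((t5 _ _ _ _ (st_ V)).1 hw1) (t1 _ _ _ ((t5 _ _ _ _ (sl_ V)).1 hw2)).2.1
    have ktb : Con (V ∩ Bx z (3 * h)) xt xb := by
      obtain ⟨w, hw1, hw2⟩ := corner h0 h2 h5 (by omega) (by omega) (by omega) (by omega) (by omega)
        (by omega) hxb hyb cb hxr hyr cr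
      exact t3 _ _ _ _ ktr (t1 _ _ _ (t3 _ _ _ _ ((t5 _ _ _ _ (sb_ V)).1 hw1)
        (t1 _ _ _ ((t5 _ _ _ _ (sr_ V)).1 hw2)).2.1)).2.1
    refine ⟨xt, ?_, ?_⟩
    · exact t3 _ _ _ _ ktr (t1 _ _ _ ktr).2.1
    intro W x y hx hy hxy
    rw [mem_Bx] at hx
    obtain ⟨hyB, hyS⟩ := (mem_Sp _ _ _).1 hy
    have hyB' := (hBx y).1 hyB
    have hyx := (t2 _ _ _ hxy).2.1
    -- it is enough to find a meeting point connected to `y`
    have fin : ∀ x₁ : Pt, Con (V ∩ Bx z (3 * h)) xt x₁ → ∀ a b c d : ℤ,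
        (∀ X : Set Pt, X ∩ (Rc a b c d : Finset Pt) ⊆ X ∩ (Bx z (3 * h) : Finset Pt)) →
        (∃ w, Con (V ∩ Rc a b c d) x₁ w ∧ SCon (W ∩ Rc a b c d) y w) →
        ∃ w, SCon (W ∩ Bx z (3 * h)) x w ∧ Con (V ∩ Bx z (3 * h)) xt w := by
      rintro x₁ hx₁ a b c d hsub ⟨w, hw1, hw2⟩
      exact ⟨w, t4 _ _ _ _ hxy ((t5 _ _ _ _ (hsub W)).2 hw2),
        t3 _ _ _ _ hx₁ ((t5 _ _ _ _ (hsub V)).1 hw1)⟩
    -- the part of the star path in a half-plane
    have cut : ∀ D : Set Pt, y ∈ D → x ∉ D → ∀ a b c d : ℤ,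
        (∀ w ∈ Bx z (3 * h), w ∈ D → w ∈ Rc a b c d) →
        ∃ p q : Pt, p ∈ Rc a b c d ∧ q ∉ D ∧ st p q ∧ SCon (W ∩ Rc a b c d) y p := by
      intro D hyD hxD a b c d hD
      rcases t8 _ D y x hyD hyx with h1 | ⟨p, q, h1, h3, h4, -⟩
      · exact absurd (t2 _ _ _ h1).1.2 hxD
      · have h6 : (W ∩ (Bx z (3 * h) : Finset Pt)) ∩ D ⊆ W ∩ (Rc a b c d : Finset Pt) := by
          rintro w ⟨⟨h7, h8⟩, h9⟩
          exact ⟨h7, Finset.mem_coe.2 (hD w (Finset.mem_coe.1 h8) h9)⟩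
        refine ⟨p, q, ?_, h3, h4, (t5 _ _ _ _ h6).2 h1⟩
        exact Finset.mem_coe.1 (h6 (t2 _ _ _ h1).1).2
    have hcases : y.2 = z.2 + 3 * h ∨ y.2 = z.2 - 3 * h ∨ y.1 = z.1 + 3 * h ∨ y.1 = z.1 - 3 * h := by
      rcases hyS with h1 | h1
      · rcases abs_choice (y.1 - z.1) with h3 | h3
        · right; right; left
          rw [h3] at h1
          push_cast at h1
          omega
        · right; right; right
          rw [h3] at h1
          push_cast at h1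
          omega
      · rcases abs_choice (y.2 - z.2) with h3 | h3
        · left
          rw [h3] at h1
          push_cast at h1
          omega
        · right; left
          rw [h3] at h1
          push_cast at h1
          omega
    rcases hcases with hc | hc | hc | hc
    · -- top
      obtain ⟨p, q, hp, hq, hpq, hyp⟩ := cut {w | z.2 + h + 1 ≤ w.2} (by show z.2 + h + 1 ≤ y.2; omega)
        (by show ¬ (z.2 + h + 1 ≤ x.2); omega) (z.1 - 3 * h) (z.1 + 3 * h) (z.2 + h + 1) (z.2 + 3 * h)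
        (by
          intro w hw hwD
          rw [hBx] at hw
          have hwD' : z.2 + h + 1 ≤ w.2 := hwD
          rw [mem_Rc]
          omega)
      rw [mem_Rc] at hp
      have hq' : ¬ (z.2 + h + 1 ≤ q.2) := hq
      have h6 := abs_le.1 hpq.2
      refine fin xt (t3 _ _ _ _ ktr (t1 _ _ _ ktr).2.1) _ _ _ _ st_
        (meetLR h0 h2 hxt hyt ct (Or.inr ⟨hc, ?_⟩) hyp)
      omega
    · -- bottom
      obtain ⟨p, q, hp, hq, hpq, hyp⟩ := cut {w | w.2 ≤ z.2 - h - 1} (by show y.2 ≤ z.2 - h - 1; omega)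
        (by show ¬ (x.2 ≤ z.2 - h - 1); omega) (z.1 - 3 * h) (z.1 + 3 * h) (z.2 - 3 * h) (z.2 - h - 1)
        (by
          intro w hw hwD
          rw [hBx] at hw
          have hwD' : w.2 ≤ z.2 - h - 1 := hwD
          rw [mem_Rc]
          omega)
      rw [mem_Rc] at hp
      have hq' : ¬ (q.2 ≤ z.2 - h - 1) := hq
      have h6 := abs_le.1 hpq.2
      refine fin xb ktb _ _ _ _ sb_ (meetLR h0 h2 hxb hyb cb (Or.inl ⟨hc, ?_⟩) hyp)
      omega
    · -- right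
      obtain ⟨p, q, hp, hq, hpq, hyp⟩ := cut {w | z.1 + h + 1 ≤ w.1} (by show z.1 + h + 1 ≤ y.1; omega)
        (by show ¬ (z.1 + h + 1 ≤ x.1); omega) (z.1 + h + 1) (z.1 + 3 * h) (z.2 - 3 * h) (z.2 + 3 * h)
        (by
          intro w hw hwD
          rw [hBx] at hw
          have hwD' : z.1 + h + 1 ≤ w.1 := hwD
          rw [mem_Rc]
          omega)
      rw [mem_Rc] at hp
      have hq' : ¬ (z.1 + h + 1 ≤ q.1) := hq
      have h6 := abs_le.1 hpq.1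
      refine fin xr ktr _ _ _ _ sr_ (meetTB h0 h2 hxr hyr cr (Or.inr ⟨hc, ?_⟩) hyp)
      omega
    · -- left
      obtain ⟨p, q, hp, hq, hpq, hyp⟩ := cut {w | w.1 ≤ z.1 - h - 1} (by show y.1 ≤ z.1 - h - 1; omega)
        (by show ¬ (x.1 ≤ z.1 - h - 1); omega) (z.1 - 3 * h) (z.1 - h - 1) (z.2 - 3 * h) (z.2 + 3 * h)
        (by
          intro w hw hwD
          rw [hBx] at hw
          have hwD' : w.1 ≤ z.1 - h - 1 := hwD
          rw [mem_Rc]
          omega)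
      rw [mem_Rc] at hp
      have hq' : ¬ (q.1 ≤ z.1 - h - 1) := hq
      have h6 := abs_le.1 hpq.1
      refine fin xl ktl _ _ _ _ sl_ (meetTB h0 h2 hxl hyl cl (Or.inl ⟨hc, ?_⟩) hyp)
      omega
  refine ⟨part1, ?_, ?_⟩
  · -- part 2
    rintro I z h hRg ⟨x, hx, y, hy, hxy⟩
    obtain ⟨v, -, hv⟩ := part1 Iᶜ z h hRg
    obtain ⟨w, hw1, hw2⟩ := hv I x y hx hy hxy
    exact (t1 _ _ _ hw2).1.1 (t2 _ _ _ hw1).1.1
  · -- part 3
    intro V z z' h m m' hRg hsub hsub' x hx y hy hxa hya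
    obtain ⟨v, -, hv⟩ := part1 V z h hRg
    have hh : ∀ w : Pt, w ∈ Bx z h → w ∈ Bx z (3 * h) := by
      intro w hw
      rw [mem_Bx] at hw ⊢
      push_cast
      omega
    have key : ∀ x : Pt, x ∈ Bx z' m → (∃ x' ∈ Sp z' m', Con (V ∩ Bx z' m') x x') →
        Con (V ∩ Bx z (3 * h)) v x := by
      rintro x hx ⟨x', hx', hc⟩
      have hxh := hsub hx
      have hfar : x' ∉ Bx z (3 * h) ∨ x' ∈ Sp z (3 * h) := by
        by_contra hcon
        push Not at hcon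
        obtain ⟨h1, h3⟩ := hcon
        rw [mem_Sp] at h3
        have h4 : |x'.1 - z.1| ≠ ((3 * h : ℕ) : ℤ) ∧ |x'.2 - z.2| ≠ ((3 * h : ℕ) : ℤ) := by
          constructor
          · intro h5
            exact h3 ⟨h1, Or.inl h5⟩
          · intro h5
            exact h3 ⟨h1, Or.inr h5⟩
        have h6 : z.1 - (3 * h : ℕ) < x'.1 ∧ x'.1 < z.1 + (3 * h : ℕ) ∧ z.2 - (3 * h : ℕ) < x'.2 ∧
            x'.2 < z.2 + (3 * h : ℕ) := by
          have h7 := (mem_Bx _ _ _).1 h1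
          obtain ⟨⟨h8, h9⟩, ⟨h10, h11⟩⟩ := h7
          refine ⟨?_, ?_, ?_, ?_⟩
          · rcases h8.lt_or_eq with h | h
            · exact h
            · exfalso
              apply h4.1
              rw [← h]
              simp
          · rcases h9.lt_or_eq with h | h
            · exact h
            · exfalso
              apply h4.1
              rw [h]
              simp
          · rcases h10.lt_or_eq with h | h
            · exact h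
            · exfalso
              apply h4.2
              rw [← h]
              simp
          · rcases h11.lt_or_eq with h | h
            · exact h
            · exfalso
              apply h4.2
              rw [h]
              simp
        obtain ⟨h7, h8, h9, h10⟩ := h6
        obtain ⟨hB', hS'⟩ := (mem_Sp _ _ _).1 hx'
        -- the neighbours are in the large box
        have hnb : ∀ dx dy : ℤ, |dx| ≤ 1 → |dy| ≤ 1 → ((x'.1 + dx, x'.2 + dy) : Pt) ∈ Bx z' m' := by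
          intro dx dy hdx hdy
          apply hsub'
          rw [mem_Bx]
          have h11 := abs_le.1 hdx
          have h12 := abs_le.1 hdy
          refine ⟨⟨?_, ?_⟩, ⟨?_, ?_⟩⟩
          · show z.1 - ((3 * h : ℕ) : ℤ) ≤ x'.1 + dx
            omega
          · show x'.1 + dx ≤ z.1 + ((3 * h : ℕ) : ℤ)
            omega
          · show z.2 - ((3 * h : ℕ) : ℤ) ≤ x'.2 + dy
            omega
          · show x'.2 + dy ≤ z.2 + ((3 * h : ℕ) : ℤ)
            omega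
        have n1 := (mem_Bx _ _ _).1 (hnb 1 1 (by norm_num) (by norm_num))
        have n2 := (mem_Bx _ _ _).1 (hnb (-1) (-1) (by norm_num) (by norm_num))
        obtain ⟨⟨-, n3⟩, ⟨-, n4⟩⟩ := n1
        obtain ⟨⟨n5, -⟩, ⟨n6, -⟩⟩ := n2
        have n3' : x'.1 + 1 ≤ z'.1 + m' := n3
        have n4' : x'.2 + 1 ≤ z'.2 + m' := n4
        have n5' : z'.1 - m' ≤ x'.1 + -1 := n5
        have n6' : z'.2 - m' ≤ x'.2 + -1 := n6
        rcases hS' with h11 | h11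
        · rcases abs_choice (x'.1 - z'.1) with h12 | h12 <;> rw [h12] at h11 <;> omega
        · rcases abs_choice (x'.2 - z'.2) with h12 | h12 <;> rw [h12] at h11 <;> omega
      obtain ⟨y₁, hy₁, hc₁⟩ := t9 _ z x x' (3 * h) (hh x hxh) hfar hc
      have hc₂ : Con (V ∩ Bx z (3 * h)) x y₁ := by
        refine (t5 _ _ _ _ ?_).1 hc₁
        rintro w ⟨⟨h3, -⟩, h4⟩
        exact ⟨h3, h4⟩
      obtain ⟨w, hw1, hw2⟩ := hv {w | Con (V ∩ Bx z (3 * h)) x w} x y₁ hxh hy₁ (by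
        refine t6 _ _ _ ((t5 _ _ _ _ ?_).1 (t1 _ _ _ hc₂).2.2)
        intro w hw
        exact ⟨hw, (t1 _ _ _ hw).1.2⟩)
      have h3 : Con (V ∩ Bx z (3 * h)) x w := (t2 _ _ _ hw1).1.1
      exact t3 _ _ _ _ hw2 (t1 _ _ _ h3).2.1
    have k1 := key x hx hxa
    have k2 := key y hy hya
    have k3 := t3 _ _ _ _ (t1 _ _ _ k1).2.1 k2
    refine (t5 _ _ _ _ ?_).1 k3
    rintro w ⟨h3, h4⟩
    exact ⟨h3, Finset.mem_coe.2 (hsub' (Finset.mem_coe.1 h4))⟩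

end PLS
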