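import Pool.Agent.PLS.StT

/-!
# PLS, module T7: the chain of seeds
-/

set_option autoImplicit false
set_option linter.unusedVariables false

open Finset Filter Topology MeasureTheory RInt

noncomputable section

namespace PLS

namespace T7x

theorem mem_Rc (a b c d : ℤ) (x : Pt) :
    x ∈ Rc a b c d ↔ (a ≤ x.1 ∧ x.1 ≤ b) ∧ (c ≤ x.2 ∧ x.2 ≤ d) := by
  unfold Rc
  rw [Finset.mem_product, Finset.mem_Icc, Finset.mem_Icc]

theorem mem_Bx (z : Pt) (n : ℕ) (x : Pt) :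
    x ∈ Bx z n ↔ (z.1 - n ≤ x.1 ∧ x.1 ≤ z.1 + n) ∧ (z.2 - n ≤ x.2 ∧ x.2 ≤ z.2 + n) := by
  unfold Bx
  rw [mem_Rc]

/-- a point at distance `r ≥ m'` in the first coordinate is outside the box of radius `m'` or on its sphere -/
theorem far_pt {z y : Pt} {m' r : ℕ} (hm : m' ≤ r) (hy : y ∈ Bx z r) (h : y.1 = z.1 + r ∨ y.1 = z.1 - r) :
    y ∉ Bx z m' ∨ y ∈ Sp z m' := by
  rcases Nat.lt_or_ge m' r with h1 | h1
  · left
    rw [mem_Bx]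
    rintro ⟨⟨h2, h3⟩, -⟩
    rcases h with h | h <;> omega
  · right
    have h2 : m' = r := le_antisymm hm h1
    subst h2
    unfold Sp
    rw [Finset.mem_filter]
    refine ⟨hy, Or.inl ?_⟩
    rcases h with h | h
    · rw [h]
      have h3 : z.1 + (m' : ℤ) - z.1 = (m' : ℤ) := by ring
      rw [h3]
      exact abs_of_nonneg (by positivity)
    · rw [h]
      have h3 : z.1 - (m' : ℤ) - z.1 = -(m' : ℤ) := by ring
      rw [h3, abs_neg]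
      exact abs_of_nonneg (by positivity)

/-- two arms of one seed are joined -/
theorem join (h0 : St_T0) {V : Set Pt} {z : Pt} {m m' r : ℕ} (hm : m ≤ m') (hm' : m' ≤ r)
    (hub : Hub V z m m') {x y x₂ y₂ : Pt} (hx : x ∈ Bx z m) (hc : Con (V ∩ Bx z r) x y)
    (hy : y.1 = z.1 + r ∨ y.1 = z.1 - r) (hx₂ : x₂ ∈ Bx z m) (hc₂ : Con (V ∩ Bx z r) x₂ y₂)
    (hy₂ : y₂.1 = z.1 + r ∨ y₂.1 = z.1 - r) : Con (V ∩ Bx z r) y y₂ := by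
  obtain ⟨t1, t2, t3, t4, t5, t6, t7, t8, t9, t10⟩ := h0
  have hsub : ∀ x : Pt, ∀ a b : ℕ, a ≤ b → x ∈ Bx z a → x ∈ Bx z b := by
    intro x a b hab h
    rw [mem_Bx] at h ⊢
    omega
  have harm : ∀ x y : Pt, x ∈ Bx z m → Con (V ∩ Bx z r) x y → (y.1 = z.1 + r ∨ y.1 = z.1 - r) →
      ∃ x' ∈ Sp z m', Con (V ∩ Bx z m') x x' := by
    intro x y hx hc hy
    have h1 : y ∈ Bx z r := Finset.mem_coe.1 (t1 _ _ _ hc).1.2
    obtain ⟨y', hy', h2⟩ := t9 (V ∩ Bx z r) z x y m' (hsub x m m' hm hx) (far_pt hm' h1 hy) hc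
    refine ⟨y', hy', (t5 _ _ _ _ ?_).1 h2⟩
    rintro w ⟨⟨h3, -⟩, h4⟩
    exact ⟨h3, h4⟩
  have h1 := hub x hx x₂ hx₂ (harm x y hx hc hy) (harm x₂ y₂ hx₂ hc₂ hy₂)
  have h2 : Con (V ∩ Bx z r) x x₂ := by
    refine (t5 _ _ _ _ ?_).1 h1
    rintro w ⟨h3, h4⟩
    exact ⟨h3, Finset.mem_coe.2 (hsub w m' r hm' (Finset.mem_coe.1 h4))⟩
  exact t3 _ _ _ _ (t1 _ _ _ hc).2.1 (t3 _ _ _ _ h2 hc₂)

end T7x

open T7x

theorem T7 (h0 : St_T0) (h3 : St_T3) : St_T7 := by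
  intro V m m' n N J α α' hmm hmn hnN hN2 hαn hαα hE hO
  obtain ⟨t1, t2, t3, t4, t5, t6, t7, t8, t9, t10⟩ := h0
  obtain ⟨p1, p2⟩ := h3
  have h0 : St_T0 := ⟨t1, t2, t3, t4, t5, t6, t7, t8, t9, t10⟩
  obtain ⟨δ, hδ⟩ : ∃ δ : ℤ, δ = (N : ℤ) - (n : ℤ) := ⟨_, rfl⟩
  have hδ0 : 0 < δ := by rw [hδ]; omega
  obtain ⟨R, hR⟩ : ∃ R : Set Pt, R = ((Rc (-N) (2 * J * (N - n) + N) (-N) (2 * n) : Finset Pt) : Set Pt) :=
    ⟨_, rfl⟩
  -- the boxes are in `R`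
  have hDJ : ∀ i : ℕ, i ≤ J → (0 : ℤ) ≤ 2 * i * (N - n) ∧
      (2 * i * (N - n) : ℤ) ≤ 2 * J * (N - n) := by
    intro i hi
    rw [← hδ]
    have h1 : (i : ℤ) ≤ J := by exact_mod_cast hi
    constructor
    · positivity
    · have h2 : (2 * i : ℤ) ≤ 2 * J := by omega
      exact mul_le_mul_of_nonneg_right h2 hδ0.le
  have hsubE : ∀ i : ℕ, i ≤ J → V ∩ (Bx ((2 * i * (N - n) : ℤ), 0) N : Finset Pt) ⊆ V ∩ R := by
    intro i hi x hx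
    refine ⟨hx.1, ?_⟩
    obtain ⟨h1, h2⟩ := hDJ i hi
    have h3 := (mem_Bx _ _ _).1 (Finset.mem_coe.1 hx.2)
    rw [hR]
    refine Finset.mem_coe.2 ((mem_Rc _ _ _ _ _).2 ?_)
    obtain ⟨⟨h4, h5⟩, ⟨h6, h7⟩⟩ := h3
    have h4' : (2 * i * (N - n) : ℤ) - N ≤ x.1 := h4
    have h5' : x.1 ≤ (2 * i * (N - n) : ℤ) + N := h5
    have h6' : (0 : ℤ) - N ≤ x.2 := h6
    have h7' : x.2 ≤ (0 : ℤ) + N := h7
    refine ⟨⟨?_, ?_⟩, ⟨?_, ?_⟩⟩ <;> omega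
  have hodd : ∀ i : ℕ, ((2 * i + 1) * (N - n) : ℤ) = 2 * i * (N - n) + δ := by
    intro i
    rw [hδ]
    ring
  have hnext : ∀ i : ℕ, (2 * (i + 1 : ℕ) * (N - n) : ℤ) = 2 * i * (N - n) + 2 * δ := by
    intro i
    rw [hδ]
    push_cast
    ring
  have hsubO : ∀ i : ℕ, i < J →
      V ∩ (Bx (((2 * i + 1) * (N - n) : ℤ), (α : ℤ)) n : Finset Pt) ⊆ V ∩ R := by
    intro i hi x hx
    refine ⟨hx.1, ?_⟩
    obtain ⟨h1, h2⟩ := hDJ i hi.le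
    obtain ⟨h1', h2'⟩ := hDJ (i + 1) hi
    rw [hnext i] at h2'
    have h3 := (mem_Bx _ _ _).1 (Finset.mem_coe.1 hx.2)
    rw [hR]
    refine Finset.mem_coe.2 ((mem_Rc _ _ _ _ _).2 ?_)
    obtain ⟨⟨h4, h5⟩, ⟨h6, h7⟩⟩ := h3
    have h4' : ((2 * i + 1) * (N - n) : ℤ) - n ≤ x.1 := h4
    have h5' : x.1 ≤ ((2 * i + 1) * (N - n) : ℤ) + n := h5
    have h6' : (α : ℤ) - n ≤ x.2 := h6
    have h7' : x.2 ≤ (α : ℤ) + n := h7
    rw [hodd i] at h4' h5'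
    refine ⟨⟨?_, ?_⟩, ⟨?_, ?_⟩⟩ <;> omega
  -- the arms of the even seeds
  have hEarm : ∀ i : ℕ, i ≤ J → ∃ r s : Pt, r.1 = 2 * i * (N - n) + N ∧ 0 ≤ r.2 ∧ r.2 ≤ α' ∧
      s.1 = 2 * i * (N - n) - N ∧ 0 ≤ s.2 ∧ s.2 ≤ α' ∧
      Con (V ∩ (Bx ((2 * i * (N - n) : ℤ), 0) N : Finset Pt)) r s := by
    intro i hi
    obtain ⟨hub, ⟨x, hx, r, ⟨hr1, hr2, hr3⟩, hc⟩, ⟨x₂, hx₂, s, ⟨hs1, hs2, hs3⟩, hc₂⟩⟩ := hE i hi
    exact ⟨r, s, hr1, hr2, hr3, hs1, hs2, hs3,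
      join h0 hmm (hmn.trans hnN.le) hub hx hc (Or.inl hr1) hx₂ hc₂ (Or.inr hs1)⟩
  choose r s hr1 hr2 hr3 hs1 hs2 hs3 hrs using hEarm
  -- the induction
  have key : ∀ i : ℕ, ∀ hi : i ≤ J, Con (V ∩ R) (s 0 (Nat.zero_le J)) (r i hi) := by
    intro i
    induction i with
    | zero =>
      intro hi
      exact (t5 _ _ _ _ (hsubE 0 hi)).1 (t1 _ _ _ (hrs 0 hi)).2.1
    | succ i ih =>
      intro hi
      have hi' : i < J := hi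
      have ih' := ih hi'.le
      obtain ⟨hub, ⟨x₁, hx₁, a₁, ⟨ha₁, ha₁', -⟩, hc₁⟩, ⟨x₂, hx₂, a₂, ⟨ha₂, -, ha₂'⟩, hc₂⟩,
        ⟨x₃, hx₃, a₃, ⟨ha₃, ha₃', -⟩, hc₃⟩, ⟨x₄, hx₄, a₄, ⟨ha₄, -, ha₄'⟩, hc₄⟩⟩ := hO i hi'
      have j12 := join h0 hmm hmn hub hx₁ hc₁ (Or.inl ha₁) hx₂ hc₂ (Or.inl ha₂)
      have j13 := join h0 hmm hmn hub hx₁ hc₁ (Or.inl ha₁) hx₃ hc₃ (Or.inr ha₃)
      have j34 := join h0 hmm hmn hub hx₃ hc₃ (Or.inr ha₃) hx₄ hc₄ (Or.inr ha₄)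
      have hD := hDJ i hi'.le
      have ho := hodd i
      have hn := hnext i
      -- right side of the odd seed and the even seed `i`
      have m1 : ∃ z, Con (V ∩ (Bx (((2 * i + 1) * (N - n) : ℤ), (α : ℤ)) n : Finset Pt)) a₁ z ∧
          Con (V ∩ (Bx ((2 * i * (N - n) : ℤ), 0) N : Finset Pt)) (r i hi'.le) z := by
        refine p2 (2 * i * (N - n) + N) ((2 * i + 1) * (N - n) - n)
          {z | Con (V ∩ (Bx (((2 * i + 1) * (N - n) : ℤ), (α : ℤ)) n : Finset Pt)) a₁ z}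
          {z | Con (V ∩ (Bx ((2 * i * (N - n) : ℤ), 0) N : Finset Pt)) (r i hi'.le) z}
          a₁ a₂ (r i hi'.le) (s i hi'.le) ?_ ?_ (t1 _ _ _ j12).2.2 ?_ ?_ ?_ ?_
          (t6 _ _ _ (t1 _ _ _ (hrs i hi'.le)).2.2) ?_ ?_
        · intro z hz
          have h1 := (mem_Bx _ _ _).1 (Finset.mem_coe.1 (t1 _ _ _ hz).1.2)
          obtain ⟨⟨h4, h5⟩, -⟩ := h1
          have h4' : ((2 * i + 1) * (N - n) : ℤ) - n ≤ z.1 := h4
          have h5' : z.1 ≤ ((2 * i + 1) * (N - n) : ℤ) + n := h5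
          refine ⟨h4', ?_⟩
          omega
        · intro z hz
          have h1 := (mem_Bx _ _ _).1 (Finset.mem_coe.1 (t1 _ _ _ hz).1.2)
          exact h1.1.2
        · rw [ha₁, ho]
          omega
        · rw [ha₂, ho]
          omega
        · have h1 := hr2 i hi'.le
          omega
        · have h1 := hr3 i hi'.le
          omega
        · exact hr1 i hi'.le
        · rw [hs1 i hi'.le, ho]
          omega
      have m2 : ∃ z, Con (V ∩ (Bx (((2 * i + 1) * (N - n) : ℤ), (α : ℤ)) n : Finset Pt)) a₃ z ∧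
          Con (V ∩ (Bx ((2 * (i + 1 : ℕ) * (N - n) : ℤ), 0) N : Finset Pt)) (s (i + 1) hi) z := by
        refine p1 (2 * (i + 1 : ℕ) * (N - n) - N) ((2 * i + 1) * (N - n) + n)
          {z | Con (V ∩ (Bx (((2 * i + 1) * (N - n) : ℤ), (α : ℤ)) n : Finset Pt)) a₃ z}
          {z | Con (V ∩ (Bx ((2 * (i + 1 : ℕ) * (N - n) : ℤ), 0) N : Finset Pt)) (s (i + 1) hi) z}
          a₃ a₄ (s (i + 1) hi) (r (i + 1) hi) ?_ ?_ (t1 _ _ _ j34).2.2 ?_ ?_ ?_ ?_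
          (t6 _ _ _ (t1 _ _ _ (t1 _ _ _ (hrs (i + 1) hi)).2.1).2.2) ?_ ?_
        · intro z hz
          have h1 := (mem_Bx _ _ _).1 (Finset.mem_coe.1 (t1 _ _ _ hz).1.2)
          obtain ⟨⟨h4, h5⟩, -⟩ := h1
          have h4' : ((2 * i + 1) * (N - n) : ℤ) - n ≤ z.1 := h4
          have h5' : z.1 ≤ ((2 * i + 1) * (N - n) : ℤ) + n := h5
          refine ⟨?_, h5'⟩
          omega
        · intro z hz
          have h1 := (mem_Bx _ _ _).1 (Finset.mem_coe.1 (t1 _ _ _ hz).1.2)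
          exact h1.1.1
        · rw [ha₃, ho]
          omega
        · rw [ha₄, ho]
          omega
        · have h1 := hs2 (i + 1) hi
          omega
        · have h1 := hs3 (i + 1) hi
          omega
        · exact hs1 (i + 1) hi
        · rw [hr1 (i + 1) hi, ho]
          omega
      obtain ⟨z₁, hz₁, hz₁'⟩ := m1
      obtain ⟨z₂, hz₂, hz₂'⟩ := m2
      have hEi := fun x y => (t5 _ _ x y (hsubE i hi'.le)).1
      have hEi' := fun x y => (t5 _ _ x y (hsubE (i + 1) hi)).1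
      have hOi := fun x y => (t5 _ _ x y (hsubO i hi')).1
      -- r i ~ z₁ ~ a₁ ~ a₃ ~ z₂ ~ s (i + 1) ~ r (i + 1)
      have c1 := t3 _ _ _ _ ih' (hEi _ _ hz₁')
      have c2 := t3 _ _ _ _ c1 (t1 _ _ _ (hOi _ _ hz₁)).2.1
      have c3 := t3 _ _ _ _ c2 (hOi _ _ j13)
      have c4 := t3 _ _ _ _ c3 (hOi _ _ hz₂)
      have c5 := t3 _ _ _ _ c4 (t1 _ _ _ (hEi' _ _ hz₂')).2.1
      exact t3 _ _ _ _ c5 (t1 _ _ _ (hEi' _ _ (hrs (i + 1) hi))).2.1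
  refine ⟨s 0 (Nat.zero_le J), r J le_rfl, ?_, hr1 J le_rfl, ?_⟩
  · rw [hs1 0 (Nat.zero_le J)]
    push_cast
    ring
  · have h1 := key J le_rfl
    rw [hR] at h1
    exact h1

end PLS
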