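import Pool.Agent.PLS.T5

/-!
# PLS, T8: two small annuli are crossed if a large one is
-/

set_option autoImplicit false

namespace PLS

namespace T8x

theorem mem_Bx {z x : Pt} {n : ℕ} :
    x ∈ Bx z n ↔ (z.1 - n ≤ x.1 ∧ x.1 ≤ z.1 + n) ∧ (z.2 - n ≤ x.2 ∧ x.2 ≤ z.2 + n) := by
  rw [Bx, Rc, Finset.mem_product, Finset.mem_Icc, Finset.mem_Icc]

theorem mem_Sp {z x : Pt} {n : ℕ} :
    x ∈ Sp z n ↔ x ∈ Bx z n ∧ (|x.1 - z.1| = n ∨ |x.2 - z.2| = n) := by
  rw [Sp, Finset.mem_filter]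

theorem smono {V W : Set Pt} {x y : Pt} (hVW : V ⊆ W) (h : SCon V x y) : SCon W x y := by
  obtain ⟨h1, h2⟩ := h
  refine ⟨hVW h1, ?_⟩
  induction h2 with
  | refl => exact Relation.ReflTransGen.refl
  | tail _ hab ih => exact Relation.ReflTransGen.tail ih ⟨hVW hab.1, hVW hab.2.1, hab.2.2⟩

/-- A star path from a point near `z` to a far point crosses the annulus. -/
theorem cross (h0 : St_T0) (I : Set Pt) (n : ℕ) (z x y : Pt) (h : SCon I x y)
    (hx : x ∈ Bx z n) (hy : (3 * n : ℤ) < |y.1 - z.1| ∨ (3 * n : ℤ) < |y.2 - z.2|) :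
    An I z n := by
  obtain ⟨_, _, _, _, _, _, _, _, _, h10⟩ := h0
  refine ⟨x, hx, ?_⟩
  refine h10 I z x y (3 * n) ?_ (Or.inl ?_) h
  · rw [mem_Bx] at hx ⊢
    push_cast
    omega
  · rw [mem_Bx]
    push_cast
    rcases hy with hy | hy
    · rcases abs_cases (y.1 - z.1) with h1 | h1 <;> omega
    · rcases abs_cases (y.2 - z.2) with h1 | h1 <;> omega

theorem floor_facts (n Q : ℕ) (hn : 1 ≤ n) (t : ℤ) (h1 : -(Q * n : ℤ) ≤ t) (h2 : t ≤ Q * n) :
    -(Q : ℤ) ≤ t / n ∧ t / n ≤ Q ∧ (n : ℤ) * (t / n) ≤ t ∧ t < n * (t / n) + n ∧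
      -(Q * n : ℤ) ≤ n * (t / n) := by
  have hn' : (0 : ℤ) < n := by exact_mod_cast hn
  have e := Int.mul_ediv_add_emod t n
  have e1 := Int.emod_nonneg t hn'.ne'
  have e2 := Int.emod_lt_of_pos t hn'
  have h3 : -(Q : ℤ) ≤ t / n := by
    rw [Int.le_ediv_iff_mul_le hn']
    linarith
  refine ⟨h3, ?_, by omega, by omega, ?_⟩
  · have := Int.ediv_le_ediv hn' h2
    rwa [Int.mul_ediv_cancel _ hn'.ne'] at this
  · have := mul_le_mul_of_nonneg_left h3 hn'.le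
    linarith

end T8x

open T8x T5x in
theorem T8 (h0 : St_T0) : St_T8 := by
  intro I n Q hn hQ hA
  obtain ⟨x, hx, y, hy, hxy⟩ := hA
  have hn' : (0 : ℤ) < n := by exact_mod_cast hn
  have hxy1 : SCon I x y := smono Set.inter_subset_left hxy
  have hyx1 : SCon I y x := (h0.2.1 I x y hxy1).2.1
  rw [mem_Sp] at hy
  obtain ⟨hy, hy'⟩ := hy
  rw [mem_Bx] at hx hy
  push_cast at hx hy hy'
  simp only [Prod.fst_zero, Prod.snd_zero, zero_sub, zero_add, sub_zero] at hx hy hy'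
  obtain ⟨a1, a2, a3, a4, a5⟩ := floor_facts n Q hn x.1 hx.1.1 hx.1.2
  obtain ⟨b1, b2, b3, b4, b5⟩ := floor_facts n Q hn x.2 hx.2.1 hx.2.2
  obtain ⟨c1, c2, c3, c4, c5⟩ := floor_facts n (3 * Q) hn y.1 (by push_cast; linarith)
    (by push_cast; linarith)
  obtain ⟨d1, d2, d3, d4, d5⟩ := floor_facts n (3 * Q) hn y.2 (by push_cast; linarith)
    (by push_cast; linarith)
  have hQn : (2 * n : ℤ) ≤ Q * n := by
    have : (2 : ℤ) ≤ Q := by exact_mod_cast hQ
    exact mul_le_mul_of_nonneg_right this hn'.le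
  have hexp : ((2 * Q - 2) * n : ℤ) = 2 * (Q * n) - 2 * n := by ring
  push_cast at c1 c2 d1 d2 c5 d5
  have c5' : -(3 * (Q * n) : ℤ) ≤ n * (y.1 / n) := by linarith
  have d5' : -(3 * (Q * n) : ℤ) ≤ n * (y.2 / n) := by linarith
  generalize hA1 : (n : ℤ) * (x.1 / n) = A1 at *
  generalize hA2 : (n : ℤ) * (x.2 / n) = A2 at *
  generalize hB1 : (n : ℤ) * (y.1 / n) = B1 at *
  generalize hB2 : (n : ℤ) * (y.2 / n) = B2 at *
  generalize hq : (Q : ℤ) * n = q at *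
  have far1 : (3 * n : ℤ) < |y.1 - A1| ∨ (3 * n : ℤ) < |y.2 - A2| := by
    rcases hy' with h | h
    · left
      rcases abs_cases y.1 with h1 | h1 <;> rcases abs_cases (y.1 - A1) with h2 | h2 <;> omega
    · right
      rcases abs_cases y.2 with h1 | h1 <;> rcases abs_cases (y.2 - A2) with h2 | h2 <;> omega
  have far2 : (3 * n : ℤ) < |x.1 - B1| ∨ (3 * n : ℤ) < |x.2 - B2| := by
    rcases hy' with h | h
    · left
      rcases abs_cases y.1 with h1 | h1 <;> rcases abs_cases (x.1 - B1) with h2 | h2 <;> omega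
    · right
      rcases abs_cases y.2 with h1 | h1 <;> rcases abs_cases (x.2 - B2) with h2 | h2 <;> omega
  have far3 : (2 * q - 2 * n : ℤ) ≤ |A1 - B1| ∨ (2 * q - 2 * n : ℤ) ≤ |A2 - B2| := by
    rcases hy' with h | h
    · left
      rcases abs_cases y.1 with h1 | h1 <;> rcases abs_cases (A1 - B1) with h2 | h2 <;> omega
    · right
      rcases abs_cases y.2 with h1 | h1 <;> rcases abs_cases (A2 - B2) with h2 | h2 <;> omega
  refine ⟨(x.1 / n, x.2 / n), ?_, (y.1 / n, y.2 / n), ?_, ?_, ?_, ?_⟩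
  · rw [mem_Bx]
    simp only [Prod.fst_zero, Prod.snd_zero, zero_sub, zero_add]
    exact ⟨⟨a1, a2⟩, b1, b2⟩
  · rw [mem_Bx]
    push_cast
    simp only [Prod.fst_zero, Prod.snd_zero, zero_sub, zero_add]
    exact ⟨⟨c1, c2⟩, d1, d2⟩
  · refine cross h0 I n _ x y hxy1 ?_ ?_
    · rw [mem_Bx]
      simp only [hA1, hA2]
      omega
    · simp only [hA1, hA2]
      exact far1
  · refine cross h0 I n _ y x hyx1 ?_ ?_
    · rw [mem_Bx]
      simp only [hB1, hB2]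
      omega
    · simp only [hB1, hB2]
      exact far2
  · simp only [hA1, hA2, hB1, hB2]
    rw [hexp]
    exact far3

end PLS
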