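import Pool.Agent.PLS.T8

/-!
# PLS, T9: an uncrossed rectangle gives a crossed annulus on its side
-/

set_option autoImplicit false

namespace PLS

namespace T9x

theorem scon_swap {V W : Set Pt} (hVW : ∀ z ∈ V, z.swap ∈ W) {x y : Pt} (h : SCon V x y) :
    SCon W x.swap y.swap := by
  obtain ⟨h1, h2⟩ := h
  refine ⟨hVW _ h1, ?_⟩
  induction h2 with
  | refl => exact Relation.ReflTransGen.refl
  | tail _ hab ih =>
      exact Relation.ReflTransGen.tail ih ⟨hVW _ hab.1, hVW _ hab.2.1, hab.2.2.2, hab.2.2.1⟩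

end T9x

open T9x T8x T5x in
theorem T9 (h0 : St_T0) (h4 : St_T4) : St_T9 := by
  have first : ∀ (I : Set Pt) (n a : ℕ), 1 ≤ n → ¬ LR Iᶜ 0 a 0 (4 * n) → ∃ j : ℕ, j ≤ a / n ∧
      An I ((n * j : ℤ), 0) n := by
    intro I n a hn hLR
    obtain ⟨p, q, hp, hq, hpq⟩ := h4 0 a 0 (4 * n) Iᶜ (by omega) (by omega) hLR
    have hpR : p ∈ (Rc 0 a 0 (4 * n) : Set Pt) := hpq.1.2
    rw [mem_Rc] at hpR
    have hpq' : SCon I p q := smono (by intro z hz; simpa using hz.1) hpq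
    obtain ⟨m, hm⟩ : ∃ m : ℕ, p.1 = m := ⟨p.1.toNat, by omega⟩
    have hma : m ≤ a := by omega
    have e1 := Nat.div_add_mod m n
    have e2 := Nat.mod_lt m (show 0 < n by omega)
    refine ⟨m / n, Nat.div_le_div_right hma, ?_⟩
    refine cross h0 I n _ p q hpq' ?_ ?_
    · rw [mem_Bx]
      have e3 : ((n * (m / n) : ℕ) : ℤ) + ((m % n : ℕ) : ℤ) = m := by exact_mod_cast e1
      rw [Nat.cast_mul] at e3
      simp only
      generalize hA : (n : ℤ) * ((m / n : ℕ) : ℤ) = A at *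
      omega
    · right
      simp only [sub_zero]
      rw [hq, abs_of_nonneg (by omega)]
      omega
  refine ⟨first, ?_⟩
  intro I n a hn hTB
  have h5 : ¬ LR ({x : Pt | x.swap ∈ I} : Set Pt)ᶜ 0 a 0 (4 * n) := by
    intro h
    apply hTB
    exact (T5.2.2 Iᶜ 0 a 0 (4 * n)).1 h
  obtain ⟨j, hj, x, hx, y, hy, hxy⟩ := first _ n a hn h5
  refine ⟨j, hj, x.swap, ?_, y.swap, ?_, ?_⟩
  · rw [mem_Bx] at hx ⊢
    exact ⟨hx.2, hx.1⟩
  · rw [mem_Sp, mem_Bx] at hy ⊢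
    exact ⟨⟨hy.1.2, hy.1.1⟩, hy.2.symm⟩
  · refine scon_swap ?_ hxy
    rintro z ⟨hz1, hz2⟩
    refine ⟨hz1, ?_⟩
    rw [Finset.mem_coe, mem_Bx] at hz2 ⊢
    exact ⟨hz2.2, hz2.1⟩

end PLS
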