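import Pool.Agent.PLS.StF
import Pool.Agent.PLS.F1
import Pool.Agent.PLS.P0
import Pool.Agent.PLS.P1
import Pool.Agent.PLS.P2
import Pool.Agent.PLS.P3
import Pool.Agent.PLS.P4
import Pool.Agent.PLS.P5
import Pool.Agent.PLS.P6
import Pool.Agent.PLS.P7
import Pool.Agent.PLS.P8
import Pool.Agent.PLS.P9
import Pool.Agent.PLS.P10
import Pool.Agent.PLS.P11
import Pool.Agent.PLS.T0
import Pool.Agent.PLS.T1
import Pool.Agent.PLS.T2
import Pool.Agent.PLS.T3
import Pool.Agent.PLS.T4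
import Pool.Agent.PLS.T5
import Pool.Agent.PLS.T6
import Pool.Agent.PLS.T7
import Pool.Agent.PLS.T8
import Pool.Agent.PLS.T9
import Pool.Agent.PLS.T10
import Pool.Agent.PLS.T11
import Pool.Agent.PLS.G0
import Pool.Agent.PLS.G1
import Pool.Agent.PLS.G2
import Pool.Agent.PLS.G3
import Pool.Agent.PLS.G4
import Pool.Agent.PLS.G5
import Pool.Agent.PLS.G6
import Pool.Agent.PLS.G7
import Pool.Agent.PLS.G8
import Pool.Agent.PLS.G9
import Pool.Agent.PLS.D1
import Pool.Agent.PLS.D2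
import Pool.Agent.PLS.D3
import Pool.Agent.PLS.D4
import Pool.Agent.PLS.D5
import Pool.Agent.PLS.D6
import Pool.Agent.PLS.D7
import Pool.Agent.PLS.D8
import Pool.Agent.PLS.D9
import Pool.Agent.PLS.D10
import Pool.Agent.PLS.D11
import Pool.Agent.PLS.D12
import Pool.Agent.PLS.D13

/-!
# PLS, F2: continuity of the percolation function of the planar section (assembly)
-/

set_option autoImplicit false
set_option linter.unusedVariables false

open Finset Filter Topology MeasureTheory RInt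

noncomputable section

namespace PLS

theorem pT0 : St_T0 := T0
theorem pT3 : St_T3 := T3 T1
theorem pT6 : St_T6 := T6 T0 (T2 T1) T5
theorem pT7 : St_T7 := T7 T0 pT3
theorem pG2 : St_G2 := G2
theorem pG3 : St_G3 := G3
theorem pG1 : St_G1 := G1 G0
theorem pG4 : St_G4 := G4 G2
theorem pG8 : St_G8 := G8 G2 pG4
theorem pG9 : St_G9 := G9 G3 pG8
theorem pD4 : St_D4 := D4 D1 D3
theorem pD5 : St_D5 := D5 D1 D2 pD4
theorem pD10 : St_D10 := D10 D1
theorem pD9 : St_D9 := D9 pD5 D6 (D7 D1) D8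
theorem pD11 : St_D11 := D11 pG1 G2 pG4 (G5 G3) G6 (G7 G2 G3) pG8 pD9 pD10
theorem pD12 : St_D12 := D12 pD11 pG1 pG8 pG9
theorem pF1 : St_F1 := F1 pD10 P7
theorem pP1 : St_P1 := P1 T0
theorem pP3 : St_P3 := P3 P0 pP1 P2
theorem pP4 : St_P4 := P4 P0 pP1 P2 pP3 T5 pT7 T11
theorem pP5 : St_P5 := P5 P0 pP1 P2 pP4 T0 pT6
theorem pP6 : St_P6 := P6 pP1 P2 pP4 pP5 pT6

theorem pP8 : St_P8 := P8 pP1 P2 (T8 T0)
theorem pP9 : St_P9 := P9 P2 pP8 (T9 T0 T4) (T10 T0 (T2 T1))
theorem pP10 : St_P10 := P10 pP1 pP6 pP9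
theorem pP11 : St_P11 := P11 pP1 pP5 pP10 T0

/-- the continuity of the percolation function of the planar section -/
theorem F2 : St_F2 := by
  intro d μ hd hμ
  have hPF := pD12 d μ hd hμ
  have hPM := pF1 _ _ hPF.toPF0
  have hc := pP11 _ _ hPF hPM
  have he : (fun u => (μ u).real {I : Set (Fin d → ℤ) |
      (clus ({x : Fin d → ℤ | ∀ i : Fin d, 2 ≤ i.val → x i = 0} \ I)).Infinite}) =
      th (fun u => (μ u).map (fun I => {x : Pt | emb d x ∈ I})) := by
    funext u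
    exact D13 d μ u hd
  rw [he]
  exact hc

end PLS
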