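import Pool.Agent.PLS.StG

/-!
# PLS, part D: independent clumps and the decoupling inequality without sprinkling

The types are the nonempty subsets `T` of a finite set; the type `T` is present with probability `1 - exp (-r T)`, independently. Each `def St_X : Prop` is a module: prove it in
`Pool/Agent/PLS/X.lean` as `theorem X : St_X` (namespace `PLS`). A module may take other `St_`s as hypotheses.
-/

set_option autoImplicit false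
set_option linter.unusedVariables false

open Finset Filter Topology MeasureTheory RInt

noncomputable section

namespace PLS

/-- The expectation of `h B`, `B` the set of the present types. -/
def BE {α : Type} [DecidableEq α] (Θ : Finset α) (r : α → ℝ) (h : Finset α → ℝ) : ℝ :=
  ∑ B ∈ Θ.powerset, ((∏ T ∈ B, (1 - Real.exp (-r T))) * ∏ T ∈ Θ \ B, Real.exp (-r T)) * h B

/-- the union of the present types -/
def un {S : Type} [DecidableEq S] (B : Finset (Finset S)) : Finset S := B.sup id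

/-- the nonempty subsets -/
def ne {S : Type} [DecidableEq S] (K : Finset S) : Finset (Finset S) := K.powerset.erase ∅

/-- **D1** (1.2 h). Basic facts on `BE`.

Proof. (0) `BE (insert T Θ) r h = exp (-r T) * BE Θ r h + (1 - exp (-r T)) * BE Θ r (fun B => h (insert T B))` for `T ∉ Θ` (`Finset.sum_powerset_insert`). Everything else by induction on `Θ`
with general `h`, or from the definition: (1) from (0). (3) monotone: the weights are nonnegative. (4) from (0) for the type `T` (write `Θ = insert T (Θ.erase T)`; `insert T (insert T B) = insert T B`).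
(5) induction: the factor is `exp (-r) + (1 - exp (-r)) z ≤ exp ((z-1)(1 - exp (-r))) ≤ exp ((z-1) r)`. (6) the powerset of a disjoint union. (7) types of rate `0` are absent.
(8) `∏` of the factors `exp (-r T)` over the types which meet `K'` (induction from (0)). (9) Harris: induction: with `a₀ = BE Θ h`, `a₁ = BE Θ (h ∘ insert T) ≤ a₀`, `b₀, b₁` for `h'`:
`e a₀ b₀ + (1-e) a₁ b₁ - (e a₀ + (1-e) a₁)(e b₀ + (1-e) b₁) = e (1-e) (a₀ - a₁)(b₀ - b₁) ≥ 0`. -/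
def St_D1 : Prop := ∀ (α : Type) [DecidableEq α] (Θ : Finset α) (r : α → ℝ),
  (∀ (T : α) (h : Finset α → ℝ), T ∉ Θ → BE (insert T Θ) r h =
    Real.exp (-r T) * BE Θ r h + (1 - Real.exp (-r T)) * BE Θ r (fun B => h (insert T B))) ∧
  BE Θ r (fun _ => 1) = 1 ∧
  (∀ (a b : ℝ) (h h' : Finset α → ℝ),
    BE Θ r (fun B => a * h B + b * h' B) = a * BE Θ r h + b * BE Θ r h') ∧
  ((∀ T ∈ Θ, 0 ≤ r T) → ∀ h h' : Finset α → ℝ, (∀ B ⊆ Θ, h B ≤ h' B) → BE Θ r h ≤ BE Θ r h') ∧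
  (∀ (T : α) (h : Finset α → ℝ), T ∈ Θ → BE Θ r (fun B => if T ∈ B then h B else 0) =
    (1 - Real.exp (-r T)) * BE Θ r (fun B => h (insert T B))) ∧
  (∀ (Θ' : Finset α) (z : ℝ), (∀ T ∈ Θ, 0 ≤ r T) → Θ' ⊆ Θ → 1 ≤ z →
    BE Θ r (fun B => z ^ (B ∩ Θ').card) ≤ Real.exp ((z - 1) * ∑ T ∈ Θ', r T)) ∧
  (∀ (Θ' : Finset α) (h h' : Finset α → ℝ), Disjoint Θ Θ' →
    BE (Θ ∪ Θ') r (fun B => h (B ∩ Θ) * h' (B ∩ Θ')) = BE Θ r h * BE Θ' r h') ∧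
  (∀ (Θ' : Finset α) (h : Finset α → ℝ), Θ' ⊆ Θ → (∀ T ∈ Θ \ Θ', r T = 0) →
    BE Θ r h = BE Θ' r h) ∧
  (∀ Q : α → Prop, [DecidablePred Q] → BE Θ r (fun B => if ∀ T ∈ B, ¬ Q T then 1 else 0) =
    Real.exp (-∑ T ∈ Θ with Q T, r T)) ∧
  ((∀ T ∈ Θ, 0 ≤ r T) → ∀ h h' : Finset α → ℝ,
    (∀ B ⊆ Θ, ∀ B' ⊆ B, h B ≤ h B') → (∀ B ⊆ Θ, ∀ B' ⊆ B, h' B ≤ h' B') →
    BE Θ r h * BE Θ r h' ≤ BE Θ r (fun B => h B * h' B))

/-- **D2** (0.7 h). The derivative in the rates.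

Proof. Induction on `Θ` with general `h`, by D1(0): the derivative of `exp (-ρ) BE Θ h + (1 - exp (-ρ)) BE Θ (h ∘ insert T)`, `ρ = r T + t s T`, is
`s T exp (-ρ) BE Θ (h ∘ insert T - h) + exp (-ρ) (BE Θ h)' + (1 - exp (-ρ)) (BE Θ (h ∘ insert T))'`, and `BE (insert T Θ) (h ∘ insert T - h) = exp (-ρ) BE Θ (h ∘ insert T - h)`. -/
def St_D2 : Prop := ∀ (α : Type) [DecidableEq α] (Θ : Finset α) (r s : α → ℝ)
  (h : Finset α → ℝ) (t : ℝ),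
  HasDerivAt (fun t : ℝ => BE Θ (fun T => r T + t * s T) h)
    (∑ T ∈ Θ, s T * BE Θ (fun T => r T + t * s T) (fun B => h (insert T B) - h B)) t

/-- **D3** (0.8 h). One additional clump (a Mecke inequality).

Proof. `w T * BE Θ r (g ∘ insert T) ≤ (w T + 1/u) * BE Θ r (fun B => if T ∈ B then g B else 0)` by D1(4): if `r T = 0` then `w T = 0`; if `r T > 0`: `w T / (1 - exp (-r T)) ≤ w T / (1 - exp (-u w T)) ≤ w T + 1/u`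
(`x/(1 - exp (-x)) ≤ 1 + x`; for `w T = 0` trivial). Sum over `T ∈ Θ'`: `≤ BE Θ r (fun B => g B * (∑_{T∈Θ'} w T + N/u))`, `N = (B ∩ Θ').card`. Now `g N ≤ k g + N [N > k] ≤ k g + exp (-k) exp (2N)` (`N ≤ exp N`; `g ≤ 1`), and
`BE (exp (2N)) ≤ exp ((exp 2 - 1) ∑_{Θ'} r) ≤ exp (7 ∑_{Θ'} r)` (D1(5), `exp 2 ≤ 8`). -/
def St_D3 : Prop := ∀ (α : Type) [DecidableEq α] (Θ Θ' : Finset α) (r w : α → ℝ) (u k : ℝ)
  (g : Finset α → ℝ), Θ' ⊆ Θ → 0 < u → 0 ≤ k → (∀ T ∈ Θ, 0 ≤ r T) →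
  (∀ T ∈ Θ', 0 ≤ w T ∧ u * w T ≤ r T) → (∀ B, 0 ≤ g B ∧ g B ≤ 1) →
  ∑ T ∈ Θ', w T * BE Θ r (fun B => g (insert T B)) ≤
    (∑ T ∈ Θ', w T + k / u) * BE Θ r g + Real.exp (-k + 7 * ∑ T ∈ Θ', r T) / u

/-- the increment of `f (ω ∩ K)` when the clump `T` is added -/
def dd {S : Type} [DecidableEq S] (f : Finset S → ℝ) (K T : Finset S) (B : Finset (Finset S)) : ℝ :=
  f ((un B ∪ T) ∩ K) - f (un B ∩ K)

/-- monotone functions with values in `[0,1]` -/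
def Mo {S : Type} (f : Finset S → ℝ) : Prop := (∀ A B : Finset S, A ⊆ B → f A ≤ f B) ∧
  ∀ A, 0 ≤ f A ∧ f A ≤ 1

/-- **D4** (2 h). The closing inequality: the common clumps are dominated by pairs of independent pure clumps.

Proof. `Θ = ne (K1 ∪ K2)`, `c = ∑_{T∈Θ} w T`, `E = BE Θ r`, `D1_T = dd f1 K1 T`, `D2_T = dd f2 K2 T` (functions of `B` with values in `[0,1]`; `D1_T` depends only on `T ∩ K1` and is `0` if `T ∩ K1 = ∅`, the same for `D2`;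
`D1_P (insert Q B) = D1_P B` for `Q ⊆ K2`, because `un (insert Q B) = un B ∪ Q`). `Mx` = the `T ∈ Θ` which meet `K1` and `K2`. `Ψ T = E (D1_T D2_T)`, `X = ∑_{T∈Mx} w T Ψ T` = the left side,
`M₀ = ∑_{P∈ne K1} ∑_{Q∈ne K2} w P w Q E (D1_P D2_Q)`, `τ = exp (-k₁)/u`, `b = 22 c + k₁/u`. D3 with `k = 21 u c + k₁` and `∑ r ≤ 3 u c`: for `Θ' = ne K1` or `ne K2` and `0 ≤ g ≤ 1`:
(M) `∑_{P∈Θ'} w P E (g ∘ insert P) ≤ b E g + τ`. Also `κ c ≤ 1/1000` and `κ b ≤ 1/20`.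
*Step X.* By `Split`, `X ≤ κ (X₁ + X₂)`, `X₁ = ∑_{P∈ne K1} ∑_{R∩K2≠∅} w P w R Ψ (P ∪ R)`. For `R ∈ ne K2`: `Ψ (P ∪ R) = E (D1_P D2_R)`, sum `M₀`. For `R ∈ Mx`: `D1_{P∪R} B = D1_R (insert P B) + D1_P B`,
`D2_{P∪R} B = D2_R B = D2_R (insert P B)`, so `Ψ (P ∪ R) = E ((D1_R D2_R) ∘ insert P) + E (D1_P D2_R)`; by (M) the sum is `≤ ∑_{R∈Mx} w R (b Ψ R + τ) + Y ≤ b X + c τ + Y`, `Y = ∑_{R∈Mx} w R φ R`,
`φ R = ∑_{P∈ne K1} w P E (D1_P D2_R)`. The same for `X₂` with `Z = ∑_{R∈Mx} w R ∑_{Q∈ne K2} w Q E (D1_R D2_Q)`.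
*Step Y.* By `Split` for `w R` (`φ ≥ 0` depends only on `R ∩ K2`): `Y ≤ κ (∑_{P'∈ne K1} ∑_{R'∩K2≠∅} w P' w R' φ R' + ∑_{Q'∈ne K2} ∑_{R'∩K1≠∅} w Q' w R' φ (Q' ∪ R'))`. The first sum is `≤ c (M₀ + Y)`. In the second:
`R' ∈ ne K1`: `φ (Q' ∪ R') = φ Q'`, sum `≤ c M₀`; `R' ∈ Mx`: `D2_{Q'∪R'} B = D2_{R'} (insert Q' B) + D2_{Q'} B`, so by (M) (with `g = D1_P D2_{R'}`, `∑_{P} w P ≤ c`) `∑_{Q'} w Q' φ (Q' ∪ R') ≤ b φ R' + c τ + M₀`, sum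
`≤ b Y + c² τ + c M₀`. So `Y ≤ κ (3 c M₀ + (c + b) Y + c² τ) ≤ (3 M₀ + c τ)/1000 + 0.051 Y`, `Y ≤ 0.004 M₀ + 0.002 c τ`. The same for `Z`.
*End.* `X ≤ κ (2 M₀ + 2 b X + 2 c τ + Y + Z) ≤ κ (2.008 M₀ + 2.004 c τ) + 0.1 X`, so `X ≤ 3 κ (M₀ + c τ)`. -/
def St_D4 : Prop := ∀ (S : Type) [DecidableEq S] (K1 K2 : Finset S) (w r : Finset S → ℝ)
  (κ u k₁ : ℝ) (f1 f2 : Finset S → ℝ), Disjoint K1 K2 → (∀ T, 0 ≤ w T) → 0 ≤ κ → 0 < u → 0 ≤ k₁ →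
  Split K1 K2 κ w → κ * ∑ T ∈ ne (K1 ∪ K2), w T ≤ 1 / 1000 → κ * k₁ / u ≤ 1 / 50 →
  (∀ T ∈ ne (K1 ∪ K2), 0 ≤ r T) → (∀ P ∈ ne K1, u * w P ≤ r P) → (∀ P ∈ ne K2, u * w P ≤ r P) →
  ∑ T ∈ ne (K1 ∪ K2), r T ≤ 3 * u * ∑ T ∈ ne (K1 ∪ K2), w T → Mo f1 → Mo f2 →
  ∑ T ∈ ne (K1 ∪ K2), w T * BE (ne (K1 ∪ K2)) r (fun B => dd f1 K1 T B * dd f2 K2 T B) ≤
    3 * κ * (∑ P ∈ ne K1, ∑ Q ∈ ne K2, w P * w Q *
        BE (ne (K1 ∪ K2)) r (fun B => dd f1 K1 P B * dd f2 K2 Q B) +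
      (∑ T ∈ ne (K1 ∪ K2), w T) * (Real.exp (-k₁) / u))

/-- the weights of the traces on `K1` (`P ⊆ K1`) of the clumps of `K1 ∪ K2` -/
def wm {S : Type} [DecidableEq S] (w : Finset S → ℝ) (K2 P : Finset S) : ℝ :=
  ∑ Q ∈ K2.powerset, w (P ∪ Q)

/-- **D5** (1.5 h). The interpolation.

Proof. `Θ = ne (K1 ∪ K2)`, `ν1 P = ∑_{Q∈ne K2} w (P ∪ Q)` for `P ∈ ne K1`, `ν2 Q = ∑_{P∈ne K1} w (P ∪ Q)`; so `wm w K2 P = w P + ν1 P`. Rates at time `t ∈ [0,1]`: `r_t P = u w P + (1-t) u ν1 P` for `P ∈ ne K1`, `r_t Q = u w Q + (1-t) u ν2 Q` for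
`Q ∈ ne K2`, `r_t T = t u w T` for `T ∈ Mx` (meets both); `r_1 = u w`; `∑ r_t ≤ 2 u c`. `F B = f1 (un B ∩ K1) * f2 (un B ∩ K2)`, `Φ t = BE Θ r_t F`. By D2 (`r_t = r + t s`)
`Φ' t = u ∑_{T∈Mx} w T E_t [F (insert T B) - F (insert (T∩K1) B) - F (insert (T∩K2) B) + F B] = u ∑_{T∈Mx} w T E_t [dd f1 K1 T * dd f2 K2 T]`
(`∑_{P∈ne K1} ν1 P X P = ∑_{T∈Mx} w T X (T∩K1)`: `T ↔ (T∩K1, T∩K2)`). D4: `Φ' ≤ 3uκ (M₀ + c exp (-k₁)/u) ≤ 3 u κ M₀ + exp (-k₁)`. And `M₀ = E_t [(∑_P w P dd f1 K1 P)(∑_Q w Q dd f2 K2 Q)] ≤ λ² Φ t`: by the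
hypothesis for `ω = un B ∩ K1` (`(un B ∪ P) ∩ K1 = ω ∪ P`) the first factor is in `[0, λ f1 ω]`, the second one in `[0, λ f2 (un B ∩ K2)]`. So with `γ = 3uκλ²`: `Φ' ≤ γ Φ + exp (-k₁)`, and
`exp (-γ t) Φ t - exp (-k₁) t` is nonincreasing on `[0,1]`: `Φ 1 ≤ exp γ (Φ 0 + exp (-k₁))`. `Φ 0 = BE (ne K1) (u wm w K2) (f1 ∘ un) * BE (ne K2) (u wm w K1) (f2 ∘ un)`: D1(7) (the types in `Mx` have rate `0`) and
D1(6) (`ne K1`, `ne K2` are disjoint, `un B ∩ K1 = un (B ∩ ne K1)`). -/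
def St_D5 : Prop := ∀ (S : Type) [DecidableEq S] (K1 K2 : Finset S) (w : Finset S → ℝ)
  (κ u k₁ lam : ℝ) (f1 f2 : Finset S → ℝ), Disjoint K1 K2 → (∀ T, 0 ≤ w T) → 0 ≤ κ → 0 < u →
  0 ≤ k₁ → 0 ≤ lam → Split K1 K2 κ w → κ * ∑ T ∈ ne (K1 ∪ K2), w T ≤ 1 / 1000 →
  κ * k₁ / u ≤ 1 / 50 → Mo f1 → Mo f2 →
  (∀ ω ⊆ K1, ∑ P ∈ ne K1, w P * (f1 (ω ∪ P) - f1 ω) ≤ lam * f1 ω) →
  (∀ ω ⊆ K2, ∑ P ∈ ne K2, w P * (f2 (ω ∪ P) - f2 ω) ≤ lam * f2 ω) →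
  BE (ne (K1 ∪ K2)) (fun T => u * w T) (fun B => f1 (un B ∩ K1) * f2 (un B ∩ K2)) ≤
    Real.exp (3 * u * κ * lam ^ 2) *
      (BE (ne K1) (fun P => u * wm w K2 P) (fun B => f1 (un B)) *
        BE (ne K2) (fun P => u * wm w K1 P) (fun B => f2 (un B)) + Real.exp (-k₁))

/-- one random clump out of a total mass `ch` -/
def Bo {S : Type} [DecidableEq S] (K : Finset S) (w : Finset S → ℝ) (ch : ℝ)
    (f : Finset S → ℝ) : Finset S → ℝ :=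
  fun ω => f ω + (∑ P ∈ ne K, w P * (f (ω ∪ P) - f ω)) / ch

/-- **D6** (1.2 h). The resolvent function.

Proof. `f_j = (Bo K w ch)^[j] f`, `q = ch/(lam + ch)`, `F ω = ∑' j, (1-q) q^j f_j ω`. `Bo` maps `Mo` functions to `Mo` functions (`Bo f ω = (1 - ∑ w/ch) f ω + ∑ (w P/ch) f (ω ∪ P)`, a convex combination) and
`Bo f ≥ f` for monotone `f`; so `f_j ≤ f_{j+1}`, `f ≤ F`, `Mo F`. `Bo F = ∑ (1-q) q^j f_{j+1} = (F - (1-q) f)/q ≤ F/q`, so `∑_P w P (F (ω ∪ P) - F ω) = ch (Bo F ω - F ω) ≤ ch (1/q - 1) F ω = lam F ω`.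
`F ω ≤ ∑_{j<J} (1-q) q^j f_J ω + ∑_{j≥J} (1-q) q^j ≤ f_J ω + q^J`. -/
def St_D6 : Prop := ∀ (S : Type) [DecidableEq S] (K : Finset S) (w : Finset S → ℝ) (ch lam : ℝ)
  (f : Finset S → ℝ), (∀ T, 0 ≤ w T) → ∑ P ∈ ne K, w P ≤ ch → 0 < ch → 0 < lam → Mo f →
  ∃ F : Finset S → ℝ, Mo F ∧ (∀ ω, f ω ≤ F ω) ∧
    (∀ ω, ∑ P ∈ ne K, w P * (F (ω ∪ P) - F ω) ≤ lam * F ω) ∧
    ∀ (J : ℕ) (ω : Finset S), F ω ≤ (Bo K w ch)^[J] f ω + (ch / (lam + ch)) ^ J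

/-- **D7** (1.2 h). The law of the union of the clumps as a compound Poisson law.

Proof. For `f = v_{K'} := fun ω => if Disjoint ω K' then 1 else 0` (`K' ⊆ K`): `Bo v = (1 - a/ch) v` with `a = ∑_{P∈ne K, ¬Disjoint P K'} w P` (on every `ω`), so the series is `∑ exp (-u ch) (u ch)^n/n! (1 - a/ch)^n = exp (-u a)`, and the `BE` is
`exp (-u a)` by D1(8). Both sides are linear in `f` and only depend on the values of `f` on the subsets of `K` (`(Bo)^[n] f ∅ = ∑_{T⊆K} f T * (Bo)^[n] 1_T ∅`; `un B ⊆ K`): write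
`f = ∑_{T⊆K} f T 1_T` there, and for `p T := BE … 1_T`, `p' T := ∑' n, … (Bo)^[n] 1_T ∅` the void sums agree for all `K' ⊆ K`, so `p = p'` (`RInt.semi_unique`). Summability: `|(Bo)^[n] f ∅| ≤ sup |f|`. -/
def St_D7 : Prop := ∀ (S : Type) [DecidableEq S] (K : Finset S) (w : Finset S → ℝ) (ch u : ℝ)
  (f : Finset S → ℝ), (∀ T, 0 ≤ w T) → ∑ P ∈ ne K, w P ≤ ch → 0 < ch → 0 < u → Mo f →
  HasSum (fun n : ℕ => Real.exp (-(u * ch)) * (u * ch) ^ n / n.factorial * (Bo K w ch)^[n] f ∅)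
    (BE (ne K) (fun P => u * w P) (fun B => f (un B)))

/-- **D8** (0.8 h). A shift of a Poisson variable by `J`.

Proof. With `π n = exp (-Λ) Λ^n/n!`: `p' = ∑_{N≥J} π (N-J) a N` and `π (N-J)/π N = N(N-1)…(N-J+1)/Λ^J ≤ (N/Λ)^J ≤ y_N := exp (J (N/Λ - 1))` (`x ≤ exp (x-1)`; `Nat.descFactorial_le_pow`). `y a ≤ s a + y^8/s^7` for `0 ≤ a ≤ 1` (if `y > s`
then `y ≤ y^8/s^7`). `∑ π N y_N^8 = exp (Λ (exp x - 1 - x))`, `x = 8J/Λ ≤ 1`, and `exp x - 1 - x ≤ x²`, so it is `≤ exp (64 J²/Λ)`. -/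
def St_D8 : Prop := ∀ (a : ℕ → ℝ) (Λ s p p' : ℝ) (J : ℕ), (∀ n, 0 ≤ a n ∧ a n ≤ 1) → 0 < Λ →
  8 * J ≤ Λ → 0 < s →
  HasSum (fun n : ℕ => Real.exp (-Λ) * Λ ^ n / n.factorial * a n) p →
  HasSum (fun n : ℕ => Real.exp (-Λ) * Λ ^ n / n.factorial * a (n + J)) p' →
  p' ≤ s * p + Real.exp (64 * J ^ 2 / Λ) / s ^ 7

/-- **D9** (1.2 h). The decoupling inequality for the clumps: `ρ = 1/2000000`, `c₀ = 10^(-11)`.

Proof. `c = ∑_{ne (K1∪K2)} w`, `ch = ρ/κ ≥ c`, `lam = √(L/(60uκ))`, `γ = 3uκ lam² = L/20`, `q = ch/(lam+ch)`. `J = ⌈2L(lam+ch)/lam⌉`: `q^J ≤ exp (-J lam/(lam+ch)) ≤ exp (-2L)`. `lam ≤ ch` (`κL ≤ 60ρ²u`, as `60ρ² ≥ c₀`), so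
`J ≤ 4L ch/lam + 1 ≤ 5L ch/lam`; `Λ = u ch`: `8J ≤ Λ` (iff `lam ≥ 40L/u`, from `κL ≤ u/96000`), `64J²/Λ ≤ 1600 L² ch/(u lam²) = 96000 ρ L ≤ L/16`.
For `i = 1`: `w₁ = wm w K2` on `ne K1`, `∑_{ne K1} w₁ ≤ c ≤ ch`, `f = 1_{A1}` (`Mo`). D6 with `w₁`: `F1`; as `w ≤ w₁` and `F1` is monotone, `∑_{P∈ne K1} w P (F1 (ω∪P) - F1 ω) ≤ lam F1 ω`. By D7 (for `f` and for `(Bo)^[J] f`, which is `Mo`) and D8
with `s = exp (L/8)` and `a n = (Bo)^[n] f ∅`: `BE (ne K1) (u w₁) ((Bo)^[J] f ∘ un) ≤ exp (L/8 - L) + exp (L/16 - 7L/8)`, so `BE (ne K1) (u w₁) (F1 ∘ un) ≤ exp (-7L/8) + exp (-13L/16) + exp (-2L) ≤ 3 exp (-13L/16)`.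
The same for `i = 2`. D5 with `k₁ = 2L` (`2κL/u ≤ 2c₀`) and `f ≤ F`: the left side is `≤ exp (L/20) (9 exp (-13L/8) + exp (-2L)) ≤ 10 exp (-3L/2)`. -/
def St_D9 : Prop := ∀ (S : Type) [DecidableEq S] (K1 K2 : Finset S) (w : Finset S → ℝ)
  (κ u L : ℝ) (A1 A2 : Finset S → Prop) [DecidablePred A1] [DecidablePred A2], Disjoint K1 K2 →
  (∀ T, 0 ≤ w T) → 0 < κ → 0 < u → 1 ≤ L → Split K1 K2 κ w →
  κ * ∑ T ∈ ne (K1 ∪ K2), w T ≤ 1 / 2000000 → κ * L ≤ u / 10 ^ 11 →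
  (∀ A B : Finset S, A ⊆ B → (A1 A → A1 B) ∧ (A2 A → A2 B)) →
  BE (ne K1) (fun P => u * wm w K2 P) (fun B => if A1 (un B) then 1 else 0) ≤ Real.exp (-L) →
  BE (ne K2) (fun P => u * wm w K1 P) (fun B => if A2 (un B) then 1 else 0) ≤ Real.exp (-L) →
  BE (ne (K1 ∪ K2)) (fun T => u * w T)
    (fun B => if A1 (un B ∩ K1) ∧ A2 (un B ∩ K2) then 1 else 0) ≤ 10 * Real.exp (-(3 * L / 2))

open Classical in
/-- **D10** (0.8 h). The laws `VoidFam` as laws of unions of clumps, and positive association.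

Proof. (1) `local_real`: `(μ u).real A = ∑_{T⊆K, T∈A} (μ u).real (cell K T)`, and the right side is `∑_{T⊆K, T∈A} BE (ne K) (u w) (fun B => if un B = T then 1 else 0)`. The two functions of `T` have the same void sums: for `K' ⊆ K`
`∑_{T⊆K, Disjoint T K'} (μ u).real (cell K T) = exp (-u c K')` (`VoidFam.sum`), and by D1(8) (`Disjoint (un B) K' ↔ ∀ T ∈ B, Disjoint T K'`) the other one is `exp (-∑_{T∈ne K, ¬Disjoint T K'} u w T)`; `RInt.semi_unique`.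
(2) `RInt.semi_weights` (with `p u T = (μ u).real (cell K T)`) gives weights `w` for `K`; (1) and D1(9) with `h B = if un B ∈ A then 1 else 0` (antitone as `A` is decreasing). -/
def St_D10 : Prop := ∀ (S : Type) [DecidableEq S] (c : Finset S → ℝ) (μ : ℝ → Measure (Set S)),
  VoidFam c μ → c ∅ = 0 →
  (∀ (K : Finset S) (w : Finset S → ℝ), (∀ T, 0 ≤ w T) →
    (∀ K' ⊆ K, ∑ T ∈ K.powerset with ¬ Disjoint T K', w T = c K') →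
    ∀ (u : ℝ) (A : Set (Set S)), 0 < u → Local K A → (μ u).real A =
      BE (ne K) (fun T => u * w T) (fun B => if (un B : Set S) ∈ A then 1 else 0)) ∧
  ∀ (u : ℝ) (K : Finset S) (A A' : Set (Set S)), 0 < u → Local K A → Local K A' → Dn A → Dn A' →
    (μ u).real A * (μ u).real A' ≤ (μ u).real (A ∩ A')

/-- **D11** (1 h). The decoupling inequality without sprinkling for random interlacements on `ℤ^d`, `d ≥ 3`.

Proof. G1: `Pot d g C c`. G7: `M₀`, `C'`. G8(4): `cap K ≤ 13^d n^(d-2)` for `K ⊆ z + box (3n)`. Choose `M ≥ max M₀ 1` with `2 · 13^d C'/M^(d-2) ≤ 1/2000000` (`d ≥ 3`) and `a = M/(10^11 C')`. Let `r = M n`, `K1 = z1 + box (3n)`,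
`K2 = z2 + box (3n)` (as finsets), `K = K1 ∪ K2`, `κ = C'/(Mn)^(d-2)`. G6 for `H = Hk K`, `e = esc K`, `E K' x = esc K' x`, `u` from G5 (the hypotheses: G2, G4): weights `w` with `∑_{T⊆K, ¬Disjoint T K'} w T = cap K'` for `K' ⊆ K`
and `Split K1 K2 κ w` (G7). `κ ∑_{ne K} w = κ cap K ≤ κ (cap K1 + cap K2) ≤ 1/2000000`; `κ L ≤ C' a u n/(Mn)^(d-2) ≤ C' a u/M = u/10^11`.
`IsInterlacement u (μ u)` for all `u > 0` is `VoidFam cap μ`. D10(1) for `K` and `w`: `(μ u).real (A ∩ A') = BE (ne K) (u w) (…)` with `A1 T := (T : Set _) ∈ A` (`A` is local on `K1`: `un B ∈ A ↔ un B ∩ K1 ∈ A`); D10(1) for `K1` and `wm w K2`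
(for `K' ⊆ K1`: `∑_{P⊆K1, P∩K'≠∅} wm w K2 P = ∑_{T⊆K, T∩K'≠∅} w T = cap K'`, `T ↔ (T∩K1, T∩K2)`): `(μ u).real A = BE (ne K1) (u wm w K2) (…) ≤ exp (-L)`; the same for `K2`. D9. -/
def St_D11 : Prop := ∀ d : ℕ, 3 ≤ d → ∃ (M : ℕ) (a : ℝ), 0 < a ∧
  ∀ μ : ℝ → Measure (Set (Fin d → ℤ)), (∀ u : ℝ, 0 < u → IsInterlacement u (μ u)) →
  ∀ u : ℝ, 0 < u → ∀ n : ℕ, 1 ≤ n → ∀ z z' : Fin d → ℤ, (∃ i, (M * n : ℤ) ≤ |z i - z' i|) →
  ∀ A A' : Set (Set (Fin d → ℤ)), Local ((box d (3 * n)).image fun x => x + z) A →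
    Local ((box d (3 * n)).image fun x => x + z') A' → Up A → Up A' →
    ∀ L : ℝ, 1 ≤ L → L ≤ a * u * n → (μ u).real A ≤ Real.exp (-L) →
      (μ u).real A' ≤ Real.exp (-L) → (μ u).real (A ∩ A') ≤ 10 * Real.exp (-(3 * L / 2))

/-- the embedding of the plane -/
def emb (d : ℕ) (x : Pt) : Fin d → ℤ :=
  fun i => if i.val = 0 then x.1 else if i.val = 1 then x.2 else 0

/-- **D12** (1.5 h). The planar section is a family `PF`.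

Proof. `c K = cap (K.image (emb d))`, `ν u = (μ u).map (fun I => {x | emb d x ∈ I})` (measurable: the preimage of `{J | x ∈ J}` is `{I | emb d x ∈ I}`). *void:* the preimage of `{J | ∀ x ∈ K, x ∉ J}` is `{I | ∀ y ∈ K.image emb, y ∉ I}`. `c ∅ = 0`: `cap_empty`.
*shift, refl, swap:* G8(1) with the translation by `emb d z`, the sign change of the coordinate `0` (`π` exchanges `(0, true)`, `(0, false)`), the exchange of the coordinates `0, 1` (`π` exchanges `(0,b)`, `(1,b)`); they commute with `emb`.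
*mix:* G9 with `i = 0`: `emb d (x + (k,0)) = emb d x + Pi.single 0 k`, `image_union`. *dec:* D11: the preimage of `A` is local on `(Bx z (3n)).image (emb d) ⊆ (box d (3n)).image (· + emb d z)` and increasing; `|z.1 - z'.1| = |emb d z 0 - emb d z' 0|` etc.
(`Local` on a smaller set implies `Local` on a larger set.) -/
def St_D12 : Prop := ∀ (d : ℕ) (μ : ℝ → Measure (Set (Fin d → ℤ))), 3 ≤ d →
  (∀ u : ℝ, 0 < u → IsInterlacement u (μ u)) →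
  PF (fun K => cap (K.image (emb d))) (fun u => (μ u).map (fun I => {x : Pt | emb d x ∈ I}))

/-- **D13** (0.8 h). The clusters of the plane.

Proof. `{I | (clus ({x | ∀ i : Fin d, 2 ≤ i.val → x i = 0} \ I)).Infinite}` is the preimage of `{J | {y | Con Jᶜ 0 y}.Infinite}` (measurable, P1) under `I ↦ {x | emb d x ∈ I}`: `emb d` is a bijection of the plane `ℤ × ℤ` onto
`{x | ∀ i, 2 ≤ i.val → x i = 0}` (`d ≥ 2`), `emb d 0 = 0`, and `nn x y ↔ ∃ i, emb d y = emb d x + uvec i`; so `clus (…) = emb d '' {y | Con Jᶜ 0 y}`. -/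
def St_D13 : Prop := ∀ (d : ℕ) (μ : ℝ → Measure (Set (Fin d → ℤ))) (u : ℝ), 3 ≤ d →
  (μ u).real {I : Set (Fin d → ℤ) |
    (clus ({x : Fin d → ℤ | ∀ i : Fin d, 2 ≤ i.val → x i = 0} \ I)).Infinite} =
  th (fun u => (μ u).map (fun I => {x : Pt | emb d x ∈ I})) u

end PLS
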