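import Pool.Agent.PLS.StP
import Pool.Agent.PLS.StD

/-!
# PLS, part F: assembly
-/

set_option autoImplicit false
set_option linter.unusedVariables false

open Finset Filter Topology MeasureTheory RInt

noncomputable section

namespace PLS

/-- **F1** (0.3 h). The laws of a family `PF0` are positively associated, invariant and ergodic.

Proof. `prob`: `VoidFam.prob`; `fkg`: D10(2); the rest is P7. -/
def St_F1 : Prop := ∀ (c : Finset Pt → ℝ) (μ : ℝ → Measure (Set Pt)), PF0 c μ →
  ∀ u : ℝ, 0 < u → PM (μ u)

/-- **F2** (captain). Continuity of the percolation function of the planar section of the vacant set of random interlacements, for all `d ≥ 3`.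

Proof. D12, F1, P11, D13. -/
def St_F2 : Prop := ∀ (d : ℕ) (μ : ℝ → Measure (Set (Fin d → ℤ))), 3 ≤ d →
  (∀ u : ℝ, 0 < u → IsInterlacement u (μ u)) →
  ContinuousOn (fun u => (μ u).real {I : Set (Fin d → ℤ) |
    (clus ({x : Fin d → ℤ | ∀ i : Fin d, 2 ≤ i.val → x i = 0} \ I)).Infinite}) (Set.Ioi 0)

end PLS
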