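import Pool.Agent.PLS.Defs

/-!
# PLS, part G: potential theory of simple random walk on `ℤ^d`, `d ≥ 3`, the trace chain and the Levy weights

Each `def St_X : Prop` is a module: prove it in `Pool/Agent/PLS/X.lean` as `theorem X : St_X` (namespace `PLS`). A module may take other `St_`s as hypotheses.
-/

set_option autoImplicit false
set_option linter.unusedVariables false

open Finset Filter Topology MeasureTheory RInt

noncomputable section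

namespace PLS

/-- `g` is a (super)potential: superharmonic, strictly at `0`, of the order `‖x‖^{2-d}` -/
structure Pot (d : ℕ) (g : (Fin d → ℤ) → ℝ) (C c : ℝ) : Prop where
  pos : ∀ x, 0 < g x
  super : ∀ x, (∑ i : Fin d × Bool, g (x + uvec i)) / (2 * d) + (if x = 0 then 1 else 0) ≤ g x
  symm : ∀ x, g (-x) = g x
  bdd : ∀ x, g x ≤ C
  upper : ∀ (n : ℕ) (x : Fin d → ℤ), x ∉ box d n → g x ≤ C / (n + 1 : ℝ) ^ (d - 2)
  cpos : 0 < c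
  lower : ∀ (n : ℕ) (x : Fin d → ℤ), x ∈ box d n → c / (n + 1 : ℝ) ^ (d - 2) ≤ g x

/-- **G0** (1 h). A one variable inequality.

Proof. Taylor's formula with the fourth derivative (`taylor_mean_remainder_lagrange`), or: `φ y = 1 - b y + b(b+1)/2 y² - b(b+1)(b+2)/6 y³ + C y⁴ - (1+y)^(-b)` has `φ 0 = φ' 0 = φ'' 0 = φ''' 0 = 0` and
`φ'''' y = 24 C - b(b+1)(b+2)(b+3) (1+y)^(-b-4) ≥ 0` for `|y| ≤ 1/2` if `24 C ≥ b(b+1)(b+2)(b+3) 2^(b+4)`; integrate four times (so `φ''' ≥ 0` for `y ≥ 0`, `≤ 0` for `y ≤ 0`, `φ'' ≥ 0`, and so on). -/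
def St_G0 : Prop := ∀ b : ℝ, 0 < b → ∃ C : ℝ, 0 < C ∧ ∀ y : ℝ, |y| ≤ 1 / 2 →
  (1 + y) ^ (-b) ≤ 1 - b * y + b * (b + 1) / 2 * y ^ 2 - b * (b + 1) * (b + 2) / 6 * y ^ 3 + C * y ^ 4

/-- **G1** (1.5 h). Existence of the potential: `g x = h x / δ` with `h x = (|x|² + A)^(-b)`, `b = (d-2)/2`, `|x|² = ∑ x_i²`, `A` large, `δ = h 0 - (1+A)^(-b) > 0` (the value at all the neighbours of `0`).

Proof. Let `s = |x|² + A`. The values of `h` at the neighbours of `x` are `(s + 1 ± 2x_i)^(-b) = s^(-b) (1+y)^(-b)`, `y = (1 ± 2 x_i)/s`, `|y| ≤ 1/2` if `A ≥ 6` (`x_i² + A ≥ 2 + 4|x_i|`). By G0 and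
`∑ 1 = 2d`, `∑ y = 2d/s`, `∑ y² = (2d + 8|x|²)/s²`, `∑ y³ = ∑_i (2 + 24 x_i²)/s³ ≥ 0`, `∑ y⁴ = ∑_i (2 + 48 x_i² + 32 x_i⁴)/s⁴ ≤ (2d + 48|x|² + 32|x|⁴)/s⁴ ≤ 82/s²` (if `A ≥ 2d`, `A ≥ 1`):
`∑_i h(x + e_i) / s^(-b) ≤ 2d - 2db/s + b(b+1)(d + 4|x|²)/s² + 82 C/s² = 2d + (4b(b+1) - 2db)/s + (b(b+1)(d - 4A) + 82 C)/s²`, and `4(b+1) = 2d`, so the middle term vanishes and the last one is `≤ 0`
if `A ≥ d/4 + 82C/(4b(b+1))`. So `h` is superharmonic; at `0` the difference is exactly `δ`. Bounds: for `x ∈ box d n`: `|x|² ≤ d n²`, `h x ≥ (d n² + A)^(-b) ≥ c (n+1)^(-(d-2))`; for `x ∉ box d n`: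
`|x|² ≥ (n+1)²`, `h x ≤ (n+1)^(-(d-2))`; `h x ≤ A^(-b)`. -/
def St_G1 : Prop := ∀ d : ℕ, 3 ≤ d → ∃ (g : (Fin d → ℤ) → ℝ) (C c : ℝ), Pot d g C c

variable {d : ℕ}

open Classical in
/-- the probability that the walk from `x` is outside `K` at the times `1, …, n` and at `y` at the time `n + 1` -/
def frt (K : Finset (Fin d → ℤ)) : ℕ → (Fin d → ℤ) → (Fin d → ℤ) → ℝ
  | 0, x, y => (∑ i : Fin d × Bool, if x + uvec i = y then (1 : ℝ) else 0) / (2 * d)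
  | n + 1, x, y => (∑ i : Fin d × Bool, if x + uvec i ∈ K then 0 else frt K n (x + uvec i) y) /
      (2 * d)

/-- the trace chain: the probability that the first return to `K` is at `y` -/
def Hk (K : Finset (Fin d → ℤ)) (x y : Fin d → ℤ) : ℝ := ∑' n, frt K n x y

/-- **G2** (1 h). The trace chain.

Proof. (1), (2) by induction on `n` from the recursions of `frt` and `noHit` (`noHit K 0 x - noHit K 1 x = (number of the neighbours in K)/(2d)`). (3) first the last step recursion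
`frt K (n+1) x y = (∑_i if y + uvec i ∈ K then 0 else frt K n x (y + uvec i)) / (2d)` for all `x, y` (induction on `n`, exchange the sums; for `n = 0` both sides are
`(2d)^{-2} #{(i,j) : x + uvec i = y + uvec j ∉ K}`, as the set of the `uvec i` is symmetric), then (3) by induction. (4) the partial sums over `y ∈ K` telescope to `1 - noHit K n x → 1 - esc K x`
(`noHit K n x` is antitone, `esc` is its infimum), so each nonnegative series is summable. (5) limit in the recursion of `noHit`. -/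
def St_G2 : Prop := ∀ (d : ℕ), 1 ≤ d → ∀ K : Finset (Fin d → ℤ),
  (∀ n x y, 0 ≤ frt K n x y) ∧
  (∀ n x, ∑ y ∈ K, frt K n x y = noHit K n x - noHit K (n + 1) x) ∧
  (∀ n x y, frt K n x y = frt K n y x) ∧
  (∀ x, ∀ y ∈ K, Summable (fun n => frt K n x y) ∧ 0 ≤ Hk K x y) ∧
  (∀ x, ∑ y ∈ K, Hk K x y = 1 - esc K x) ∧
  (∀ x, ∀ y ∈ K, x ∈ K → Hk K x y = Hk K y x) ∧
  (∀ x, esc K x = (∑ i : Fin d × Bool, open Classical in if x + uvec i ∈ K then 0 else esc K (x + uvec i)) / (2 * d)) ∧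
  (∀ x, esc K x ≤ 1 ∧ 0 ≤ esc K x)

/-- **G3** (0.8 h). Domination by superharmonic functions.

Proof. (1) induction on `n` for all `x`: `∑_{k<n+1} ∑_{y∈K} frt K k x y G y = (2d)^{-1} ∑_i [x+e_i ∈ K] G(x+e_i) + (2d)^{-1} ∑_i [x+e_i ∉ K] ∑_{k<n} ∑_y frt K k (x+e_i) y G y`, and the inner sum is
`≤ (2d)^{-1} ∑_j G(x+e_i+e_j) ≤ G(x+e_i)`. (2) let `U_n x = ∑_{k<n} frt K k x v`; by induction `U_n x + [x = v] ≤ g (x - v)` for all `x`: `U_{n+1} x ≤ (2d)^{-1} ∑_i ([x+e_i = v] + U_n (x+e_i)) ≤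
(2d)^{-1} ∑_i g (x + e_i - v)`, and `super` (`n = 0`: `g 0 ≥ 1`). (3) `1 - noHit K n x = ∑_{k<n} ∑_{y∈K} frt K k x y ≤ η^{-1} ∑∑ frt · G y ≤ η^{-1} G x` by G2 and (1). (4) limit of (1). -/
def St_G3 : Prop := ∀ (d : ℕ), 1 ≤ d → ∀ K : Finset (Fin d → ℤ),
  (∀ G : (Fin d → ℤ) → ℝ, (∀ x, 0 ≤ G x) →
    (∀ x, (∑ i : Fin d × Bool, G (x + uvec i)) / (2 * d) ≤ G x) →
    (∀ n x, ∑ k ∈ Finset.range n, ∑ y ∈ K, frt K k x y * G y ≤
      (∑ i : Fin d × Bool, G (x + uvec i)) / (2 * d)) ∧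
    (∀ x, ∑ y ∈ K, Hk K x y * G y ≤ (∑ i : Fin d × Bool, G (x + uvec i)) / (2 * d)) ∧
    (∀ η : ℝ, 0 < η → (∀ y ∈ K, η ≤ G y) → ∀ n x, 1 - noHit K n x ≤ G x / η) ∧
    (∀ η : ℝ, 0 < η → (∀ y ∈ K, η ≤ G y) → ∀ x, 1 - esc K x ≤ G x / η)) ∧
  (∀ (g : (Fin d → ℤ) → ℝ) (C c : ℝ), Pot d g C c → ∀ (n : ℕ) (x v : Fin d → ℤ),
    ∑ k ∈ Finset.range n, frt K k x v + (if x = v then 1 else 0) ≤ g (x - v))

/-- **G4** (1 h). Decomposition at the first visit of `K ⊇ K'`.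

Proof. By induction on `n`: `noHit K' n x = noHit K n x + ∑_{k<n} ∑_{y ∈ K∖K'} frt K k x y * noHit K' (n-1-k) y` (split the neighbours `x + e_i ∉ K'` into those in `K∖K'` and those outside `K`).
(≥): `noHit K' (n-1-k) y ≥ esc K' y`, let `n → ∞`. (≤): for `n = 2N` use `noHit K' (2N-1-k) y ≤ noHit K' N y` for `k < N` and `∑_{N≤k<2N} ∑_{y∈K} frt K k x y = noHit K N x - noHit K (2N) x → 0`; so
`esc K' x ≤ noHit K (2N) x + ∑_{y ∈ K∖K'} Hk K x y * noHit K' N y + (noHit K N x - noHit K (2N) x)`, let `N → ∞`. -/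
def St_G4 : Prop := ∀ (d : ℕ), 1 ≤ d → ∀ K K' : Finset (Fin d → ℤ), K' ⊆ K → ∀ x,
  esc K' x = esc K x + ∑ y ∈ K \ K', Hk K x y * esc K' y

/-- **G5** (0.3 h). Transience of the trace chain.

Proof. `u x = ∑_{y∈K} g (x - y)`: superharmonic, and `(2d)^{-1} ∑_i u (x + e_i) + 1 ≤ u x` for `x ∈ K` (`super` at `0` for `y = x`). G3: `∑_{y∈K} Hk K x y u y ≤ (2d)^{-1} ∑_i u (x+e_i) ≤ u x - 1`. -/
def St_G5 : Prop := ∀ (d : ℕ) (g : (Fin d → ℤ) → ℝ) (C c : ℝ), 1 ≤ d → Pot d g C c →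
  ∀ K : Finset (Fin d → ℤ), ∃ u : (Fin d → ℤ) → ℝ, (∀ x, 0 ≤ u x) ∧
    ∀ x ∈ K, ∑ y ∈ K, Hk K x y * u y + 1 ≤ u x

/-- the splitting inequality for the weights `w` on the subsets of `K1 ∪ K2` -/
def Split {S : Type} [DecidableEq S] (K1 K2 : Finset S) (κ : ℝ) (w : Finset S → ℝ) : Prop :=
  ∀ T ⊆ K1 ∪ K2, ¬ Disjoint T K1 → ¬ Disjoint T K2 →
    w T ≤ κ * (∑ P ∈ K1.powerset.erase ∅, ∑ R ∈ (K1 ∪ K2).powerset with ¬ Disjoint R K2,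
        (if P ∪ R = T then w P * w R else 0) +
      ∑ P ∈ K2.powerset.erase ∅, ∑ R ∈ (K1 ∪ K2).powerset with ¬ Disjoint R K1,
        (if P ∪ R = T then w P * w R else 0))

/-- **G6** (2.5 h). The weights of a finite transient symmetric chain (abstract). `K` finite, `H` symmetric and substochastic on `K`, `e x = 1 - ∑ H x y`; `E K' x` are the escape
probabilities of the subsets `K' ⊆ K`.

Proof. Let `W 0 x T = 0`, `W (n+1) x T = (if T = {x} then e x else 0) + ∑_{y∈K} H x y ∑_{T' ∈ K.powerset with insert x T' = T} W n y T'` (the weight of the sequences of length `≤ n+1`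
starting at `x` with range `T`). By induction: `W n x T ≥ 0`, increasing in `n`, `W n x T = 0` unless `x ∈ T`. For `K' ⊆ K`, `L = K ∖ K'`, `x ∈ L` let `V n x = ∑_{T ⊆ L} W n x T`: `V 0 = 0`,
`V (n+1) x = e x + ∑_{y∈L} H x y V n y` (`insert x T' ⊆ L ↔ T' ⊆ L` for `x ∈ L`, and `W n y T' = 0` for `y ∉ T'`). `D n x = E K' x - V n x` satisfies `D (n+1) x = ∑_{y∈L} H x y D n y`, `0 ≤ D 0 ≤ 1` on `L`, so
`0 ≤ D n ≤ η n` with `η 0 = 1`, `η (n+1) x = ∑_{y∈L} H x y η n y`; `η` is decreasing in `n` (`η 1 ≤ 1`) and `∑_{k<n} η k x ≤ u x` (induction: `1 + ∑ H x y u y ≤ u x`), so `n η (n-1) x ≤ u x` and `D n x → 0`: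
(*) `V n x → E K' x` for `x ∈ K ∖ K'`. For `K' = ∅` the same argument with the constant `1` instead of `E ∅` gives `V n x → 1` (in particular `W n x T ≤ 1`). Let `W x T = lim W n x T` and
`w T = ∑_{x∈K} e x W x T`.
*Void sums.* By (*) `∑_{T ⊆ K, T ∩ K' = ∅} w T = ∑_{x ∈ L} e x * E K' x` and `∑_{T ⊆ K} w T = ∑_{x∈K} e x`. So the sum over the `T` which meet `K'` is `∑_{x∈K} e x - ∑_{x∈L} e x E K' x`, and this is
`∑_{x∈K'} E K' x`: sum the equations `E K' x = e x + ∑_{y∈L} H x y E K' y` over `x ∈ K'`, and use `∑_{x∈K'} H x y = ∑_{x∈K'} H y x = 1 - e y - ∑_{z∈L} H y z` and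
`∑_{y∈L} H z y E K' y = E K' z - e z` for `z ∈ L`: `∑_{K'} E K' = ∑_{K'} e + ∑_{y∈L} (1 - e y) E K' y - ∑_{z∈L} (E K' z - e z) = ∑_K e - ∑_L e y E K' y`.
*Splitting.* `K = K1 ∪ K2`, `H x y ≤ κ e x e y` across (then also `H y x ≤ κ e x e y`). Claim for `x ∈ K1` and `T ⊆ K` which meets `K2`:
`W n x T ≤ κ ∑_{P ∈ K1.powerset.erase ∅} ∑_{R ⊆ K, R ∩ K2 ≠ ∅} [P ∪ R = T] W x P w R`. Induction on `n`. In `W (n+1) x T` the first term vanishes. The terms with `y ∈ K2`: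
`∑_{y∈K2} H x y ∑_{insert x T' = T} W n y T' ≤ κ e x ∑_{T' : insert x T' = T, T' ∩ K2 ≠ ∅} ∑_{y∈K2} e y W y T' ≤ κ e x ∑_{R} [{x} ∪ R = T] w R` (`y ∈ T'`). The terms with `y ∈ K1`: `T'` meets `K2` (as `T` does and
`x ∉ K2`), so by induction they are `≤ κ ∑_R w R ∑_{P} [P ∪ R = T] (∑_{y∈K1} H x y ∑_{P' ⊆ K1 : insert x P' = P} W y P')` (`insert x (P' ∪ R) = (insert x P') ∪ R`). Together:
`κ ∑_P ∑_R [P ∪ R = T] w R (e x [P = {x}] + ∑_{y∈K1} H x y ∑_{insert x P' = P} W y P') ≤ κ ∑_P ∑_R [P ∪ R = T] w R W x P` by the limit form of the recursion of `W`. Multiply by `e x` and sum over `x ∈ K1`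
(`∑_{x∈K1} e x W x P ≤ w P`): the first double sum of `Split`; the sum over `x ∈ K2` gives the second one. -/
def St_G6 : Prop := ∀ (S : Type) [DecidableEq S] (K : Finset S) (H : S → S → ℝ) (e u : S → ℝ)
  (E : Finset S → S → ℝ), (∀ x ∈ K, ∀ y ∈ K, 0 ≤ H x y ∧ H x y = H y x) →
  (∀ x ∈ K, 0 ≤ e x ∧ e x + ∑ y ∈ K, H x y = 1) →
  (∀ x ∈ K, 0 ≤ u x ∧ ∑ y ∈ K, H x y * u y + 1 ≤ u x) →
  (∀ K' ⊆ K, ∀ x ∈ K, 0 ≤ E K' x ∧ E K' x ≤ 1 ∧ E K' x = e x + ∑ y ∈ K \ K', H x y * E K' y) →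
  ∃ w : Finset S → ℝ, (∀ T, 0 ≤ w T) ∧
    (∀ K' ⊆ K, ∑ T ∈ K.powerset with ¬ Disjoint T K', w T = ∑ x ∈ K', E K' x) ∧
    ∀ (K1 K2 : Finset S) (κ : ℝ), K1 ∪ K2 = K → Disjoint K1 K2 → 0 ≤ κ →
      (∀ x ∈ K1, ∀ y ∈ K2, H x y ≤ κ * e x * e y) → Split K1 K2 κ w

/-- **G7** (1.2 h). The trace chain between two distant sets. `K1 ⊆ z1 + box (3n)`, `K2 ⊆ z2 + box (3n)`, `‖z1 - z2‖ ≥ r ≥ M n`.

Proof. `K = K1 ∪ K2`, `t = r / 4` (natural division), `D_j = {x | x - z_j ∈ box d t}`, `D_j' = {x | x - z_j ∈ box d (t+1)}`; for `M ≥ 24` we have `3n ≤ t`, and points of `D_1'`, `D_2'` have distance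
`≥ r - 2(t+1) ≥ r/4`. *Escape:* for `x ∉ D_1 ∪ D_2`: G3(3) with `G y = g (y - z_1) + g (y - z_2) ≥ η = c/(3n+1)^(d-2)` on `K`: `1 - esc K x ≤ G x / η ≤ 2 (C/c) ((3n+1)/(t+1))^(d-2) ≤ 1/2` if
`M` is large (depending on `d, C, c`). Let `κ₁ = C 4^(d-2) / r^(d-2)`, so `g (x - v) ≤ κ₁` for `x ∈ D_2'`, `v ∈ D_1'` (`upper` with `n + 1 ≥ r/4`; take `x - v ∉ box d m` with the largest possible `m`).
*Step 1:* let `v ∈ D_1'`, `v ∉ D_1`. For all `x ∈ D_2` and all `n`: `U_n x := ∑_{k<n} frt K k x v ≤ 2 κ₁ esc K x`. Induction on `n`: `U_{n+1} x = (2d)^{-1} ∑_i ([x+e_i = v] + [x+e_i ∉ K] U_n (x+e_i))`; `x+e_i ∈ D_2'` so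
`≠ v`; if `x + e_i ∈ D_2` use the induction, if not then `U_n (x+e_i) ≤ g (x+e_i-v) ≤ κ₁ ≤ 2κ₁ esc K (x+e_i)` (G3(2), escape). So `U_{n+1} x ≤ 2κ₁ (2d)^{-1} ∑_i [x+e_i ∉ K] esc K (x+e_i) = 2κ₁ esc K x` (G2(7)).
Hence for `y ∈ K2`: `∑_{k<n} frt K k v y ≤ 2 κ₁ esc K y` (symmetry).
*Step 2:* fix `y ∈ K2`. For all `x ∈ D_1`, `n`: `∑_{k<n} frt K k x y ≤ 4κ₁ esc K y esc K x`: the same induction; for `x + e_i ∉ D_1` (so `∈ D_1'`, `∉ D_2`) use step 1 and `esc K (x+e_i) ≥ 1/2`.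
So `Hk K x y ≤ 4 κ₁ esc K x esc K y`. -/
def St_G7 : Prop := ∀ (d : ℕ) (g : (Fin d → ℤ) → ℝ) (C c : ℝ), 3 ≤ d → Pot d g C c →
  ∃ (M : ℕ) (C' : ℝ), 0 < C' ∧ ∀ (n r : ℕ) (z1 z2 : Fin d → ℤ), 1 ≤ n → M * n ≤ r →
    (∃ i, (r : ℤ) ≤ |z1 i - z2 i|) → ∀ K1 K2 : Finset (Fin d → ℤ),
    (∀ x ∈ K1, x - z1 ∈ box d (3 * n)) → (∀ x ∈ K2, x - z2 ∈ box d (3 * n)) →
    Disjoint K1 K2 ∧ ∀ x ∈ K1, ∀ y ∈ K2,
      Hk (K1 ∪ K2) x y ≤ C' / (r : ℝ) ^ (d - 2) * esc (K1 ∪ K2) x * esc (K1 ∪ K2) y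

/-- **G8** (1 h). Invariance, monotonicity, subadditivity of the capacity, and the bound for a box.

Proof. (1) by induction on `n` `noHit (K.image σ) n (σ x) = noHit K n x` (reindex the sum by `π`), so the same for `esc`, and `cap (K.image σ) = ∑_{x∈K} esc (K.image σ) (σ x)`. (2) `esc (K ∪ K') x ≤ esc K x`
(`noHit` is decreasing in the set). (3) G4: `∑_{x∈K'} esc K' x = ∑_{x∈K'} esc K x + ∑_{y∈K∖K'} (∑_{x∈K'} Hk K x y) esc K' y`, and as in G6 this is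
`cap K - ∑_{y∈K∖K'} esc K y * esc K' y ≤ cap K` (symmetry of `Hk` and `∑_{x∈K} Hk K y x = 1 - esc K y`). (4) by (1) (translation) and (3) `cap K ≤ cap (box d (3n)) ≤ (12n+1)^d/(2(3n)²) ≤ 13^d n^(d-2)` (`cap_box`). -/
def St_G8 : Prop := ∀ (d : ℕ), 3 ≤ d →
  (∀ (σ : (Fin d → ℤ) ≃ (Fin d → ℤ)) (π : (Fin d × Bool) ≃ (Fin d × Bool)),
    (∀ x i, σ (x + uvec i) = σ x + uvec (π i)) →
    ∀ K : Finset (Fin d → ℤ), cap (K.image σ) = cap K) ∧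
  (∀ K K' : Finset (Fin d → ℤ), cap (K ∪ K') ≤ cap K + cap K') ∧
  (∀ K K' : Finset (Fin d → ℤ), K' ⊆ K → cap K' ≤ cap K) ∧
  (∀ (n : ℕ) (z : Fin d → ℤ) (K : Finset (Fin d → ℤ)), 1 ≤ n → (∀ x ∈ K, x - z ∈ box d (3 * n)) →
    cap K ≤ 13 ^ d * (n : ℝ) ^ (d - 2))

/-- **G9** (1 h). The capacity of the union of two distant sets.

Proof. *Lower bound:* `noHit (K ∪ K') n x ≥ noHit K n x - (1 - noHit K' n x)` (union bound, by induction on `n` from the recursions; or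
`1 - noHit (K ∪ K') n x ≤ (1 - noHit K n x) + (1 - noHit K' n x)`), and by G3(3) with `G x = ∑_{y∈K'} g (x - y)` (superharmonic, `≥ g 0 ≥ 1` on `K'`): `1 - noHit K' n x ≤ ∑_{y∈K'} g (x-y)`. So for disjoint `K, K'`:
`cap (K ∪ K') ≥ cap K + cap K' - 2 ∑_{x∈K} ∑_{y∈K'} g (x - y)` (`g` is even). *Limit:* for `K'_k = K'.image (· + k • v)`, `v = Pi.single i 1`, the double sum tends to `0` as `k → ∞` (`upper`, `d ≥ 3`), for large `k` the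
sets are disjoint, `cap K'_k = cap K'` (G8), and subadditivity (G8). -/
def St_G9 : Prop := ∀ (d : ℕ) (g : (Fin d → ℤ) → ℝ) (C c : ℝ), 3 ≤ d → Pot d g C c →
  ∀ (K K' : Finset (Fin d → ℤ)) (i : Fin d),
    Tendsto (fun k : ℕ => cap (K ∪ K'.image fun x => x + Pi.single i (k : ℤ))) atTop
      (𝓝 (cap K + cap K'))

end PLS
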