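import Pool.Agent.PLS.StT

/-!
# PLS, part P: percolation in the plane for positively associated, invariant, ergodic laws; the continuity theorem

Each `def St_X : Prop` is a module: prove it in `Pool/Agent/PLS/X.lean` as `theorem X : St_X` (namespace `PLS`). A module may take other `St_`s as hypotheses
(`theorem X (h : St_T2) … : St_X`).
-/

set_option autoImplicit false
set_option linter.unusedVariables false

open Finset Filter Topology MeasureTheory RInt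

noncomputable section

namespace PLS

/-- the right part `{n} × [a,b]` of the boundary of the box of radius `n` around `0` -/
def Rs (n : ℕ) (a b : ℤ) : Set Pt := {y | y.1 = n ∧ a ≤ y.2 ∧ y.2 ≤ b}

/-- **P0** (0.5 h). Products: positive association for finitely many decreasing local events, and the square root trick.

Proof. (1) induction on `s`: the intersection of the events of `s` is a decreasing event, local on the union of the `K i`. (2) induction on `s`, with `B = ⋃ i ∈ s, A i`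
decreasing and local: `1 - ν(A ∪ B) = 1 - ν A - ν B + ν (A ∩ B) ≥ 1 - ν A - ν B + ν A ν B = (1 - ν A)(1 - ν B)`. -/
def St_P0 : Prop := ∀ ν : Measure (Set Pt), PM ν → ∀ (ι : Type) (s : Finset ι) (K : ι → Finset Pt)
  (A : ι → Set (Set Pt)), (∀ i ∈ s, Local (K i) (A i) ∧ Dn (A i)) →
  ∏ i ∈ s, ν.real (A i) ≤ ν.real (⋂ i ∈ s, A i) ∧
  ∏ i ∈ s, (1 - ν.real (A i)) ≤ 1 - ν.real (⋃ i ∈ s, A i)

/-- **P1** (0.8 h). Locality and monotonicity of the events; the infinite cluster is a decreasing limit.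

Proof. `Con (Iᶜ ∩ Bx z n) x y` only depends on `I ∩ Bx z n` and is decreasing in `I` (T0). The last part: `{∃ x ∈ Bx 0 m, infinite cluster} = ⋂_{n ≥ m} {Ar Iᶜ 0 m n (Sp 0 n)}`: an infinite cluster has
points outside `Bx 0 n`, T0 (sphere crossing); conversely, if for every `n ≥ m` some `x_n ∈ Bx 0 m` is connected to `Sp 0 n`, then (pigeonhole, `Bx 0 m` is finite) some `x` is connected to `Sp 0 n` for infinitely
many `n`, so its cluster is infinite. The sets are measurable (`local_measurable`) and decreasing in `n ≥ m` (T0: an arm to `Sp 0 (n+1)` in `Bx 0 (n+1)` from `Bx 0 m` passes `Sp 0 n` in `Bx 0 n`); continuity of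
measures from above. -/
def St_P1 : Prop :=
  (∀ (z : Pt) (m n : ℕ) (F : Set Pt), Local (Bx z n) {I : Set Pt | Ar Iᶜ z m n F} ∧
    Dn {I : Set Pt | Ar Iᶜ z m n F}) ∧
  (∀ a b c d : ℤ, Local (Rc a b c d) {I : Set Pt | LR Iᶜ a b c d} ∧
    Dn {I : Set Pt | LR Iᶜ a b c d}) ∧
  (∀ a b c d : ℤ, Local (Rc a b c d) {I : Set Pt | TB Iᶜ a b c d} ∧
    Dn {I : Set Pt | TB Iᶜ a b c d}) ∧
  (∀ (z : Pt) (m n : ℕ), Local (Bx z n) {I : Set Pt | Hub Iᶜ z m n}) ∧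
  (∀ (z : Pt) (n : ℕ), Local (Bx z (3 * n)) {I : Set Pt | Rg Iᶜ z n} ∧
    Dn {I : Set Pt | Rg Iᶜ z n}) ∧
  (∀ (z : Pt) (n : ℕ), Local (Bx z (3 * n)) {I : Set Pt | An I z n} ∧ Up {I : Set Pt | An I z n}) ∧
  (∀ ν : Measure (Set Pt), IsProbabilityMeasure ν → ∀ m : ℕ,
    Antitone (fun n => ν.real {I : Set Pt | Ar Iᶜ 0 m (m + n) (Sp 0 (m + n))}) ∧
    Tendsto (fun n => ν.real {I : Set Pt | Ar Iᶜ 0 m n (Sp 0 n)}) atTop
      (𝓝 (ν.real {I : Set Pt | ∃ x ∈ Bx 0 m, {y | Con Iᶜ x y}.Infinite})) ∧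
    ∀ n, m ≤ n → ν.real {I : Set Pt | ∃ x ∈ Bx 0 m, {y | Con Iᶜ x y}.Infinite} ≤
      ν.real {I : Set Pt | Ar Iᶜ 0 m n (Sp 0 n)})

/-- **P2** (1 h). Invariance of the probabilities.

Proof. `ν = ν.map τ` for the symmetry `τ`, all events are measurable (P1), and the preimage of the event under `τ` is the event for the image configuration: e.g. for
`I' = {x | x + z ∈ I}`: `Ar I'ᶜ 0 m n {y | y + z ∈ F} ↔ Ar Iᶜ z m n F` (a path `x₀, …, x_k` of `I'ᶜ` in `Bx 0 n` corresponds to the path `x₀ + z, …, x_k + z` of `Iᶜ` in `Bx z n`). -/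
def St_P2 : Prop := ∀ ν : Measure (Set Pt), PM ν →
  (∀ (z : Pt) (m n : ℕ) (F : Set Pt), ν.real {I : Set Pt | Ar Iᶜ z m n F} =
    ν.real {I : Set Pt | Ar Iᶜ 0 m n {y | y + z ∈ F}}) ∧
  (∀ (m n : ℕ) (F : Set Pt), ν.real {I : Set Pt | Ar Iᶜ 0 m n F} =
    ν.real {I : Set Pt | Ar Iᶜ 0 m n {y | ((-y.1, y.2) : Pt) ∈ F}}) ∧
  (∀ (m n : ℕ) (F : Set Pt), ν.real {I : Set Pt | Ar Iᶜ 0 m n F} =
    ν.real {I : Set Pt | Ar Iᶜ 0 m n {y | ((y.1, -y.2) : Pt) ∈ F}}) ∧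
  (∀ (m n : ℕ) (F : Set Pt), ν.real {I : Set Pt | Ar Iᶜ 0 m n F} =
    ν.real {I : Set Pt | Ar Iᶜ 0 m n {y | y.swap ∈ F}}) ∧
  (∀ (z : Pt) (m n : ℕ), ν.real {I : Set Pt | Hub Iᶜ z m n} =
    ν.real {I : Set Pt | Hub Iᶜ 0 m n}) ∧
  (∀ (z : Pt) (n : ℕ), ν.real {I : Set Pt | An I z n} = ν.real {I : Set Pt | An I 0 n}) ∧
  (∀ (z : Pt) (a b c d : ℤ), ν.real {I : Set Pt | LR Iᶜ (a + z.1) (b + z.1) (c + z.2) (d + z.2)} =
    ν.real {I : Set Pt | LR Iᶜ a b c d}) ∧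
  (∀ a b c d : ℤ, ν.real {I : Set Pt | LR Iᶜ a b (-d) (-c)} =
    ν.real {I : Set Pt | LR Iᶜ a b c d}) ∧
  (∀ a b c d : ℤ, ν.real {I : Set Pt | TB Iᶜ c d a b} = ν.real {I : Set Pt | LR Iᶜ a b c d}) ∧
  (∀ a b c d : ℤ, ν.real {I : Set Pt | TB Iᶜ (-d) (-c) a b} =
    ν.real {I : Set Pt | LR Iᶜ a b c d})

/-- **P3** (0.8 h). The half sides and the splitting height. `H a b = ν (Ar Iᶜ 0 m n (Rs n a b))`, `p = ν (Ar Iᶜ 0 m n (Sp 0 n))`.

Proof. `Sp 0 n` is the union of the eight images of `Rs n 0 n` under the reflections in the axes and the diagonal; `Ar` of a union is the union; by P2 the eight arms have the same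
probability; P0(2): `(1 - H 0 n)^8 ≤ 1 - p`. Let `α` be the least natural number `≤ n` with `H 0 α ≥ H (α+1) n` (it exists: `H 0 n ≥ 0 = H (n+1) n`). As `Rs n 0 n = Rs n 0 α ∪ Rs n (α+1) n`,
P0(2) gives `(1 - H 0 α)² ≤ (1 - H 0 α)(1 - H (α+1) n) ≤ 1 - H 0 n`. If `α ≥ 1` then `H 0 (α-1) < H α n` and in the same way `(1 - H α n)² ≤ 1 - H 0 n`; if `α = 0` then `H α n = H 0 n` and
`(1 - H 0 n)² ≤ 1 - H 0 n`. -/
def St_P3 : Prop := ∀ ν : Measure (Set Pt), PM ν → ∀ m n : ℕ, ∃ α : ℕ, α ≤ n ∧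
  (1 - ν.real {I : Set Pt | Ar Iᶜ 0 m n (Rs n 0 α)}) ^ 16 ≤
    1 - ν.real {I : Set Pt | Ar Iᶜ 0 m n (Sp 0 n)} ∧
  (1 - ν.real {I : Set Pt | Ar Iᶜ 0 m n (Rs n α n)}) ^ 16 ≤
    1 - ν.real {I : Set Pt | Ar Iᶜ 0 m n (Sp 0 n)}

/-- **P4** (1.2 h). Crossings in the long direction at arbitrarily large scales.

Proof. For `n ≥ m` let `α n` be the height of P3 (`α n = 0` for `n < m`); then `1 - H ≤ β` for both arms (`(1-H)^16 ≤ β^16`). T11 gives `n ≥ max n₀ m' 11` with `α (n + n/2) ≤ 2 α n`. Let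
`N = n + n/2`, `J = 10`, `α = α n`, `α' = α N`. All the events of T7 together have probability at least `(1-β)^62 - 21 η`: by P2 each of the `2·11 + 4·10 = 62` arms has probability
`≥ 1 - β` (the arms of the even seeds are images of `Ar 0 m N (Rs N 0 α')`, the arms of the odd seeds are images of `Ar 0 m n (Rs n α n)`), they are decreasing local events, P0(1); each of the
21 hubs fails with probability `≤ η` (P2). T7: `LR Iᶜ (-N) (20(N-n)+N) (-N) (2n)` has probability `≥ (1-β)^62 - 21η`. Translate by the vector `(N - 6n, N + 2n + 1)` (P2): the same for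
`LR Iᶜ (-6n) (20(N-n) + 2N - 6n) (2n+1) (N + 4n + 1)`, and use T5(1): `20 (N-n) + 2N = 22 (n/2) + 2n ≥ 11 (n-1) + 2n ≥ 12n` for `n ≥ 11`, so the right end is `≥ 6n`, and the
upper end is `N + 4n + 1 ≤ 6n` (`N ≤ 3n/2`, `n ≥ 2`). -/
def St_P4 : Prop := ∀ ν : Measure (Set Pt), PM ν → ∀ (m m' : ℕ) (β η : ℝ), m ≤ m' → 0 ≤ β →
  β ≤ 1 → (∀ n, m ≤ n → 1 - β ^ 16 ≤ ν.real {I : Set Pt | Ar Iᶜ 0 m n (Sp 0 n)}) →
  ν.real {I : Set Pt | ¬ Hub Iᶜ 0 m m'} ≤ η →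
  ∀ n₀ : ℕ, ∃ n, n₀ ≤ n ∧ (1 - β) ^ 62 - 21 * η ≤
    ν.real {I : Set Pt | LR Iᶜ (-(6 * n : ℤ)) (6 * n) (2 * n + 1) (6 * n)}

/-- **P5** (1.5 h). If there is percolation then all boxes have the hub property, and large boxes are connected to infinity with probability close to 1.

Proof. (i) P4 with `m = m' = 0`, `η = 0` (`Hub V 0 0 0` always holds: `Bx 0 0 = {0}`) and `β = (1-p)^(1/16) < 1`: there is `c₀ = (1-β)^62 > 0` such that for infinitely many `n` the rectangle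
`LR Iᶜ (-6n) (6n) (2n+1) (6n)` is crossed with probability `≥ c₀`; the ring `Rg Iᶜ 0 (2n)` consists of four such crossings (P2), so by P0 its probability is `≥ c₀^4`.
(ii) `T = {I | ∀ m, ∃ z h, Bx 0 m ⊆ Bx z h ∧ Rg Iᶜ z h}` is measurable (countable unions and intersections of local events) and invariant under translations
(`Rg {x | x + w ∈ I}ᶜ z h ↔ Rg Iᶜ (z + w) h`; if `Bx 0 (m + |w|) ⊆ Bx z h` then `Bx 0 m ⊆ Bx (z - w) h`). `T ⊇ ⋂_m ⋃_{h ≥ m} {Rg Iᶜ 0 h}`, a decreasing intersection of events of probability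
`≥ c₀^4`, so `ν T ≥ c₀^4 > 0` and `ν T = 1` (`erg`).
(iii) for fixed `m` let `G k = {I | ∃ z h, Bx 0 m ⊆ Bx z h ∧ Bx z (3h) ⊆ Bx 0 k ∧ Rg Iᶜ z h}`: increasing in `k` with union `⊇ T`, so `ν (G k) → 1`; by T6(3) `G k ⊆ {Hub Iᶜ 0 m k}`.
(iv) `T' = {I | ∃ x, {y | Con Iᶜ x y}.Infinite}` is invariant, `ν T' ≥ ν {0 ↔ ∞} = lim ν (Ar Iᶜ 0 0 n (Sp 0 n)) ≥ p > 0` (P1), so `ν T' = 1`; `T'` is the increasing union of
`{∃ x ∈ Bx 0 m, …infinite}`, so for some `m` this event has probability `≥ 1 - δ`; P1. -/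
def St_P5 : Prop := ∀ ν : Measure (Set Pt), PM ν → ∀ p : ℝ, 0 < p →
  (∀ n, p ≤ ν.real {I : Set Pt | Ar Iᶜ 0 0 n (Sp 0 n)}) →
  (∀ m : ℕ, Tendsto (fun k => ν.real {I : Set Pt | ¬ Hub Iᶜ 0 m k}) atTop (𝓝 0)) ∧
  ∀ δ : ℝ, 0 < δ → ∃ m : ℕ, ∀ n, m ≤ n → 1 - δ ≤ ν.real {I : Set Pt | Ar Iᶜ 0 m n (Sp 0 n)}

/-- **P6** (0.7 h). If there is percolation then there are arbitrarily large annuli which are crossed by `I` with arbitrarily small probability.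

Proof. Let `ε = δ / 332` (w.l.o.g. `δ ≤ 1`). P5: `m` with `1 - ε^16 ≤ ν (Ar Iᶜ 0 m n (Sp 0 n))` for `n ≥ m`, and `m' ≥ m` with `ν (¬ Hub Iᶜ 0 m m') ≤ ε`. P4 with `β = η = ε`: there is `n ≥ max n₀ 1` with
`ν (LR Iᶜ (-6n) (6n) (2n+1) (6n)) ≥ (1-ε)^62 - 21 ε ≥ 1 - 83 ε`. By P2 the four crossings of `Rg Iᶜ 0 (2n)` have the same probability, so `ν (¬ Rg Iᶜ 0 (2n)) ≤ 332 ε = δ`. By T6(2)
`{An I 0 (2n)} ⊆ {¬ Rg Iᶜ 0 (2n)}`. -/
def St_P6 : Prop := ∀ ν : Measure (Set Pt), PM ν → ∀ p : ℝ, 0 < p →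
  (∀ n, p ≤ ν.real {I : Set Pt | Ar Iᶜ 0 0 n (Sp 0 n)}) →
  ∀ (δ : ℝ) (h₀ : ℕ), 0 < δ → ∃ h, h₀ ≤ h ∧ 1 ≤ h ∧ ν.real {I : Set Pt | An I 0 h} ≤ δ

/-- **P7** (1.2 h). The laws of a family `PF0` are invariant and ergodic.

Proof. The events `V_K = {I | ∀ x ∈ K, x ∉ I}` form a π-system which generates the σ-algebra of `Set Pt` (the product σ-algebra: generated by the sets `{I | x ∈ I}`, complements of `V_{x}`).
*Invariance:* `(μ u).map τ` is a probability measure with the same values on the `V_K` (`τ⁻¹ V_K = V_{K'}` with `K' = K.image (fun x => x + z)` etc.), so it is `μ u`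
(`MeasureTheory.ext_of_generate_finite`).
*Ergodicity:* let `σ_k I = {x | x + (k,0) ∈ I}`, `ν = μ u`. Claim: `ν.real (A ∩ σ_k⁻¹ B) → ν.real A * ν.real B` for all measurable `A, B`. For `A = V_K`, `B = V_{K'}`: `A ∩ σ_k⁻¹ B = V_{K ∪ (K' + (k,0))}`,
and `exp (-u c(K ∪ (K'+(k,0)))) → exp (-u c K) exp (-u c K')` (`mix`). For fixed `A = V_K` the class of the `B` for which the claim holds is closed under complements
(`ν (A ∩ σ⁻¹ Bᶜ) = ν A - ν (A ∩ σ⁻¹ B)`) and countable disjoint unions (`∑_{i>n} ν (σ_k⁻¹ B_i) = ∑_{i>n} ν B_i` uniformly in `k`), so it holds for all measurable `B`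
(`MeasurableSpace.induction_on_inter`); then fix `B` and do the same in `A`. For `T` invariant: `σ_k⁻¹ T = T` (`⊇` is the hypothesis for `z = (k,0)`; `⊆`: apply the hypothesis with `-z`), so `ν T = (ν T)²`. -/
def St_P7 : Prop := ∀ (c : Finset Pt → ℝ) (μ : ℝ → Measure (Set Pt)), PF0 c μ → ∀ u : ℝ, 0 < u →
  (∀ z : Pt, (μ u).map (fun I => {x : Pt | x + z ∈ I}) = μ u) ∧
  (μ u).map (fun I => {x : Pt | ((-x.1, x.2) : Pt) ∈ I}) = μ u ∧
  (μ u).map (fun I => {x : Pt | x.swap ∈ I}) = μ u ∧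
  ∀ T : Set (Set Pt), MeasurableSet T → (∀ z : Pt, ∀ I ∈ T, {x : Pt | x + z ∈ I} ∈ T) →
    (μ u).real T = 0 ∨ (μ u).real T = 1

/-- **P8** (0.7 h). The recursion for the annulus crossings: from the scale `n` to the scale `Qn`, `Q = M + 2`.

Proof. T8: `{An I 0 (Qn)} ⊆ ⋃_{i ∈ Bx 0 Q, j ∈ Bx 0 (3Q)} ({An I (n i) n} ∩ {An I (n j) n})`, over the pairs with `(2Q-2) n ≤ |n i.k - n j.k|` for some coordinate `k`, and `(2Q-2)n ≥ M n`. Each of these has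
probability `≤ 10 exp (-3L/2)` by `dec` (with P1: local and increasing, P2: translation invariance). So `(μ u).real {An I 0 (Qn)} ≤ 10 |Bx 0 Q| |Bx 0 (3Q)| exp (-3L/2) ≤ exp (-6L/5)` for `L ≥ L₀`
(`L₀ ≥ 1` with `10 |Bx 0 Q| |Bx 0 (3Q)| ≤ exp (3 L₀/10)`). (`a` and `M` are those of `dec`, `PM (μ u)` is a hypothesis here.) -/
def St_P8 : Prop := ∀ (c : Finset Pt → ℝ) (μ : ℝ → Measure (Set Pt)), PF c μ →
  (∀ u : ℝ, 0 < u → PM (μ u)) → ∃ (Q : ℕ) (a L₀ : ℝ), 2 ≤ Q ∧ 0 < a ∧ 1 ≤ L₀ ∧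
    ∀ (u L : ℝ) (n : ℕ), 0 < u → 1 ≤ n → L₀ ≤ L → L ≤ a * u * n →
      (μ u).real {I : Set Pt | An I 0 n} ≤ Real.exp (-L) →
      (μ u).real {I : Set Pt | An I 0 (Q * n)} ≤ Real.exp (-(6 * L / 5))

/-- **P9** (1 h). The finite size criterion: if the annulus crossing probability is small at one large scale then the vacant set percolates.

Proof. `Q, a, L₀` from P8. Take `L₁ ≥ L₀` with `(4Q+1) ∑_k exp (-(6/5)^k L₁) < 1` (`(6/5)^k ≥ 1 + k/5`). Let `L₁ ≤ L ≤ a u n` and `(μ u).real {An I 0 n} ≤ exp (-L)`. By induction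
`(μ u).real {An I 0 (Q^k n)} ≤ exp (-(6/5)^k L)` (`(6/5)^k L ≤ a u Q^k n`). Let `n_k = Q^k n`. T9: `{¬ LR Iᶜ 0 (4n_{k+1}) 0 (4n_k)} ⊆ ⋃_{j ≤ 4Q} {An I (n_k j, 0) n_k}`, probability
`≤ (4Q+1) exp (-(6/5)^k L)` (P2); the same for `TB Iᶜ 0 (4n_k) 0 (4n_{k+1})`. The sum over `k` is `< 1`, so with positive probability all the crossings of T10 exist and there is an infinite cluster.
So for some `x` (countably many) `{y | Con Iᶜ x y}.Infinite` has positive probability, and by translation invariance `th μ u > 0`. -/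
def St_P9 : Prop := ∀ (c : Finset Pt → ℝ) (μ : ℝ → Measure (Set Pt)), PF c μ →
  (∀ u : ℝ, 0 < u → PM (μ u)) → ∃ a L₁ : ℝ, 0 < a ∧ 0 < L₁ ∧
    ∀ (u L : ℝ) (n : ℕ), 0 < u → 1 ≤ n → L₁ ≤ L → L ≤ a * u * n →
      (μ u).real {I : Set Pt | An I 0 n} ≤ Real.exp (-L) → 0 < th μ u

/-- **P10** (0.7 h). The percolation regime is open.

Proof. `a, L₁` from P9. Let `th μ u > 0`, `L = L₁`. By P1 `th μ u ≤ (μ u).real {Ar Iᶜ 0 0 n (Sp 0 n)}` for all `n`. P6 with `δ = exp (-L)/2`, `h₀ ≥ L / (a u)`: there is `n ≥ h₀` with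
`(μ u).real {An I 0 n} ≤ exp (-L)/2`. By `VoidFam.main` (`A = {An I 0 n}`, local on `Bx 0 (3n)`), `(μ v).real {An I 0 n} → (μ u).real {An I 0 n}` as `v → u`, so there is `v > u` with
`(μ v).real {An I 0 n} ≤ exp (-L)`, and `L ≤ a u n ≤ a v n`. P9: `th μ v > 0`. -/
def St_P10 : Prop := ∀ (c : Finset Pt → ℝ) (μ : ℝ → Measure (Set Pt)), PF c μ →
  (∀ u : ℝ, 0 < u → PM (μ u)) → ∀ u : ℝ, 0 < u → 0 < th μ u → ∃ v, u < v ∧ 0 < th μ v

/-- **P11** (1.2 h). Continuity.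

Proof. Let `θ_n(u) = (μ u).real {Ar Iᶜ 0 0 n (Sp 0 n)}`: continuous in `u > 0` (`VoidFam.main`, P1), nonincreasing in `u` (`VoidFam.mono`), decreasing in `n` to `th μ u` (P1). So `th μ` is nonincreasing
and for `v → u`: `limsup th μ v ≤ θ_n(u)` for all `n`, i.e. `limsup th μ v ≤ th μ u`.
*Left continuity:* for `v < u`, `th μ u ≤ th μ v`. *Right continuity:* trivial if `th μ u = 0` (`0 ≤ th μ v ≤ th μ u`). Let `th μ u > 0`; P10: `u₁ > u` with `th μ u₁ > 0`. Let `ε > 0`. P5 for `μ u₁`: `m` with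
`1 - ε ≤ (μ u₁).real {Ar Iᶜ 0 m n (Sp 0 n)}` for all `n ≥ m`, so (P1, limit) `(μ u₁).real E ≥ 1 - ε` for `E = {∃ x ∈ Bx 0 m, {y | Con Iᶜ x y}.Infinite}`; by monotonicity of the decreasing local events and the limit
`(μ v).real E ≥ 1 - ε` for all `0 < v ≤ u₁`. P5 for `μ u`: `k ≥ m` with `(μ u).real {¬ Hub Iᶜ 0 m k} ≤ ε`. For `v > u` close to `u` (continuity of local events): `(μ v).real {¬ Hub Iᶜ 0 m k} ≤ 2ε` and
`(μ v).real {Ar Iᶜ 0 0 k (Sp 0 k)} ≥ (μ u).real {Ar Iᶜ 0 0 k (Sp 0 k)} - ε ≥ th μ u - ε`. On `{Ar Iᶜ 0 0 k (Sp 0 k)} ∩ E ∩ {Hub Iᶜ 0 m k}` the cluster of `0` is infinite: `x ∈ Bx 0 m` has an infinite cluster, so it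
has an arm to `Sp 0 k` in `Bx 0 k` (T0), `0` has one too, so `0` and `x` are connected. Hence `th μ v ≥ th μ u - ε - ε - 2ε`. -/
def St_P11 : Prop := ∀ (c : Finset Pt → ℝ) (μ : ℝ → Measure (Set Pt)), PF c μ →
  (∀ u : ℝ, 0 < u → PM (μ u)) → ContinuousOn (th μ) (Set.Ioi 0)

end PLS
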