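import Pool.Agent.PLS.Defs

/-!
# PLS, part T: planar topology and deterministic percolation statements

Each `def St_X : Prop` is a module: prove it in `Pool/Agent/PLS/X.lean` as `theorem X : St_X` (namespace `PLS`). The docstrings contain the complete proofs.
A module may use the other statements of this file (as hypotheses or through the files, when they are landed).
-/

set_option autoImplicit false
set_option linter.unusedVariables false

open Finset Filter Topology MeasureTheory RInt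

noncomputable section

namespace PLS

open Classical in
/-- the indicator in `ZMod 2` -/
def ind (p : Prop) : ZMod 2 := if p then 1 else 0

/-- **T0** (0.7 h). Elementary facts on paths. All are proved by induction on `Relation.ReflTransGen` (`Con` and `SCon` are treated in the same way).
(1)-(3) symmetry, transitivity, monotonicity, end points, a path lies in its own component.
(4) a nearest neighbour path is a star path.
(5) the first exit from `D`: follow the path; as long as it is in `D` it is a path of `V ∩ D`; at the first step which leaves `D` we have the second alternative.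
(6), (7) apply (5) with `D = Bx z n`: a point of `Bx z n` with a (nearest or star) neighbour outside `Bx z n` lies on `Sp z n`. -/
def St_T0 : Prop :=
  (∀ (V : Set Pt) (x y : Pt), Con V x y → y ∈ V ∧ Con V y x ∧ Con {z | Con V x z} x y) ∧
  (∀ (V : Set Pt) (x y : Pt), SCon V x y → y ∈ V ∧ SCon V y x ∧ SCon {z | SCon V x z} x y) ∧
  (∀ (V : Set Pt) (x y z : Pt), Con V x y → Con V y z → Con V x z) ∧
  (∀ (V : Set Pt) (x y z : Pt), SCon V x y → SCon V y z → SCon V x z) ∧
  (∀ (V W : Set Pt) (x y : Pt), V ⊆ W → (Con V x y → Con W x y) ∧ (SCon V x y → SCon W x y)) ∧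
  (∀ (V : Set Pt) (x y : Pt), Con V x y → SCon V x y) ∧
  (∀ (V D : Set Pt) (x y : Pt), x ∈ D → Con V x y → Con (V ∩ D) x y ∨
    ∃ a b, Con (V ∩ D) x a ∧ b ∉ D ∧ nn a b ∧ Con V b y) ∧
  (∀ (V D : Set Pt) (x y : Pt), x ∈ D → SCon V x y → SCon (V ∩ D) x y ∨
    ∃ a b, SCon (V ∩ D) x a ∧ b ∉ D ∧ st a b ∧ SCon V b y) ∧
  (∀ (V : Set Pt) (z x y : Pt) (n : ℕ), x ∈ Bx z n → y ∉ Bx z n ∨ y ∈ Sp z n → Con V x y →
    ∃ y' ∈ Sp z n, Con (V ∩ Bx z n) x y') ∧
  (∀ (V : Set Pt) (z x y : Pt) (n : ℕ), x ∈ Bx z n → y ∉ Bx z n ∨ y ∈ Sp z n → SCon V x y →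
    ∃ y' ∈ Sp z n, SCon (V ∩ Bx z n) x y')

/-- **T1** (1 h). The parity function of a nearest neighbour path `π` from `p` to `q`. `N y x` is the parity of the number of the steps of `π` between
`(x', y)` and `(x', y+1)` with `x' < x`.

Proof. Induction on the path (`Relation.ReflTransGen`, adding a step `q → q'` at the end). For the empty path `p = q` take `N = 0` (in (2) and (4) the two
indicators are equal and `1 + 1 = 0`). For a step `q → q'` add
`e y x = ind ({q, q'} = {(x', y), (x', y+1)} with x' = q.1 = q'.1 < x)`.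
(1) `e y (x+1) ≠ e y x` only if `{q,q'} = {(x,y),(x,y+1)}`, both in `V`. (2) if `(x,y+1) ∉ V` then
`e y x + e (y+1) x = ind (q.2 = y+1 ∧ q.1 < x) + ind (q'.2 = y+1 ∧ q'.1 < x)`: a vertical step at a column `x' < x` changes the right side iff it is between
the rows `y, y+1` or `y+1, y+2`; a horizontal step changes the right side only if it is between `(x-1,y+1)` and `(x,y+1)`, impossible. (3), (5), (6): the
points of a counted step are in `V`. (4) all the vertical steps are counted, and `e y x = ind (y < q.2) + ind (y < q'.2)`. -/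
def St_T1 : Prop := ∀ (V : Set Pt) (p q : Pt), Con V p q → ∃ N : ℤ → ℤ → ZMod 2,
  (∀ x y : ℤ, ((x, y) ∉ V ∨ (x, y + 1) ∉ V) → N y (x + 1) = N y x) ∧
  (∀ x y : ℤ, (x, y + 1) ∉ V → N y x + N (y + 1) x =
    ind (p.2 = y + 1 ∧ p.1 < x) + ind (q.2 = y + 1 ∧ q.1 < x)) ∧
  (∀ a : ℤ, (∀ z ∈ V, a ≤ z.1) → ∀ x y : ℤ, x ≤ a → N y x = 0) ∧
  (∀ b : ℤ, (∀ z ∈ V, z.1 ≤ b) → ∀ x y : ℤ, b < x → N y x = ind (y < p.2) + ind (y < q.2)) ∧
  (∀ d : ℤ, (∀ z ∈ V, z.2 ≤ d) → ∀ x y : ℤ, d ≤ y → N y x = 0) ∧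
  (∀ c : ℤ, (∀ z ∈ V, c ≤ z.2) → ∀ x y : ℤ, y < c → N y x = 0)

/-- **T2** (1 h). A left-right nearest neighbour path and a bottom-top star path of a rectangle meet.

Proof. Suppose `V ∩ W = ∅`. Take `N` from T1 for the path in `V` from `p` to `q` and put `s (x, y) = N y x + ind (y < p.2)`.
Claim: `s` is constant along the star path (all its points are in `W ⊆ Rc a b c d`, not in `V`).
*Vertical relation:* if `a ≤ x ≤ b` and `(x, y+1) ∉ V`, then `N y x + N (y+1) x = ind (p.2 = y+1)`: in T1(2) `q.1 = b` is not `< x`; if `p.2 = y+1` then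
`p ≠ (x, y+1)` (as `p ∈ V`) so `p.1 = a < x`. Hence `s (x,y) = s (x,y+1)` (as `ind (p.2 = y+1) + ind (y < p.2) + ind (y+1 < p.2) = 0`).
*Horizontal relation:* T1(1): if `(x,y) ∉ V` or `(x, y+1) ∉ V` then `N y (x+1) = N y x`.
Steps: `(x,y) → (x+1,y)`: horizontal relation. `(x,y) → (x,y+1)`: vertical relation. `(x,y) → (x+1,y+1)`: first `N y (x+1) = N y x` since `(x,y) ∉ V`, then the
vertical relation in the column `x+1` (`(x+1,y+1) ∉ V`). `(x,y) → (x-1,y+1)`: `N y x = N y (x-1)` as `(x-1,y+1) ∉ V`, then the vertical relation in the column `x-1`.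
The reverse steps are the same.
Start `r = (x, c)`: T1(6): `N (c-1) x = 0` and the vertical relation (`(x,c) ∉ V`) give `N c x = ind (p.2 = c)`, so `s r = ind (p.2 = c) + ind (c < p.2) = 1`.
End `s = (x', d)`: `N d x' = 0` by T1(5), `ind (d < p.2) = 0`. Contradiction. -/
def St_T2 : Prop := ∀ (a b c d : ℤ) (V W : Set Pt) (p q r s : Pt),
  V ⊆ Rc a b c d → W ⊆ Rc a b c d → Con V p q → p.1 = a → q.1 = b → SCon W r s → r.2 = c →
  s.2 = d → ∃ z, z ∈ V ∧ z ∈ W

/-- **T3** (1 h). The pocket lemma. A path `π` in `V ⊆ {a ≤ x ≤ b}` from `p = (a, y₁)` to `q = (a, y₂)`, a star path in `W ⊆ {a ≤ x}` from `r = (a, y₀)`,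
`y₂ ≤ y₀ ≤ y₁`, to a point with first coordinate `> b`: they meet.

Proof. Suppose `V ∩ W = ∅`, so `y₂ < y₀ < y₁`. `N` from T1, `s (x, y) = N y x + ind (y < y₁) + ind (y < y₂)`. As in T2 `s` is constant along the star path
(vertical relation: if `a ≤ x` and `(x,y+1) ∉ V` then `N y x + N (y+1) x = ind (y₁ = y+1) + ind (y₂ = y+1)`, because `p, q ≠ (x,y+1)`).
Start: `N y₀ a = 0` (T1(3)), `s r = 1 + 0 = 1`. End `(x, y)`, `b < x`: T1(4): `N y x = ind (y < y₁) + ind (y < y₂)`, so `s = 0`. Contradiction.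
The second part is the reflection `(x,y) ↦ (-x,y)` of the first. -/
def St_T3 : Prop :=
  (∀ (a b : ℤ) (V W : Set Pt) (p q r s : Pt),
    (∀ z ∈ V, a ≤ z.1 ∧ z.1 ≤ b) → (∀ z ∈ W, a ≤ z.1) → Con V p q → p.1 = a → q.1 = a →
    q.2 ≤ r.2 → r.2 ≤ p.2 → SCon W r s → r.1 = a → b < s.1 → ∃ z, z ∈ V ∧ z ∈ W) ∧
  (∀ (a b : ℤ) (V W : Set Pt) (p q r s : Pt),
    (∀ z ∈ V, b ≤ z.1 ∧ z.1 ≤ a) → (∀ z ∈ W, z.1 ≤ a) → Con V p q → p.1 = a → q.1 = a →
    q.2 ≤ r.2 → r.2 ≤ p.2 → SCon W r s → r.1 = a → s.1 < b → ∃ z, z ∈ V ∧ z ∈ W)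

/-- **T4** (1.5 h). The Hex lemma: no left-right crossing by a nearest neighbour path of `V` implies a bottom-top crossing by a star path of `Vᶜ`.

Proof. Let `A = {z | z.1 = a - 1} ∪ {z | ∃ x, x.1 = a ∧ Con (V ∩ Rc a b c d) x z}`; `A` has no point with first coordinate `b` (no crossing). An edge of the extended
rectangle `[a-1,b] × [c,d]` is an *interface* if exactly one end point is in `A`; its end point `o ∉ A` (the outer one) is in `Rc a b c d` and not in `V`: if `o ∈ V`, the
inner end `i` is in the column `a-1` (then `o.1 = a` and `o ∈ A` by the trivial path) or `Con (V ∩ Rc) x i` (then `Con (V ∩ Rc) x o`, `o ∈ A`).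
Let `O = {o | ∃ p, p.2 = c ∧ SCon (Vᶜ ∩ Rc a b c d) p o}` and suppose that `O` has no point with second coordinate `d`. Let `rh x y : ZMod 2` be the indicator that the edge
`(x,y)-(x+1,y)` is an interface with outer end in `O`, `rv x y` the same for `(x,y)-(x,y+1)`. For every plaquette (`a-1 ≤ x < b`, `c ≤ y < d`):
`rh x y + rh x (y+1) + rv x y + rv (x+1) y = 0`: the number of interfaces among the four sides is even, and all their outer ends are corners of the plaquette, so they are star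
neighbours or equal, all in `Vᶜ ∩ Rc`: either all of them are in `O` or none. Sum over all plaquettes (telescoping in characteristic 2):
`∑_{x=a-1}^{b-1} (rh x c + rh x d) + ∑_{y=c}^{d-1} (rv (a-1) y + rv b y) = 0`.
Now `rv (a-1) y = 0` (both ends in `A`), `rv b y = 0` (no end in `A`), `rh x d = 0` (the outer end would be a point of `O` in the row `d`), and `rh x c` = indicator that
`(x,c)-(x+1,c)` is an interface (its outer end is in the row `c`, so in `O`), so `∑_x rh x c = ind ((a-1,c) ∈ A) + ind ((b,c) ∈ A) = 1 + 0 = 1`. Contradiction.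
(Sums over integer intervals: use `x = a - 1 + i`, `i ∈ range (b - a + 1).toNat`, or induction.) -/
def St_T4 : Prop := ∀ (a b c d : ℤ) (V : Set Pt), a ≤ b → c ≤ d → ¬ LR V a b c d →
  ∃ p q : Pt, p.2 = c ∧ q.2 = d ∧ SCon (Vᶜ ∩ Rc a b c d) p q

/-- **T5** (0.8 h). (1), (2) sub-crossings: a crossing of a longer and thinner rectangle gives a crossing of a shorter and wider one. (3) the reflection in the diagonal
exchanges `LR` and `TB`.

Proof. (1) Path from `x` (`x.1 = a ≤ a'`) to `y` (`y.1 = b ≥ b'`). The reversed path from `y` with `D = {z | a' ≤ z.1}` (T0): either it stays in `D` (then its end `x` has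
`x.1 = a = a'`), or it has a first exit, whose last point in `D` has first coordinate `a'`. So there is a path from a point of the column `a'` to `y` in
`V ∩ Rc a b c d ∩ {a' ≤ z.1}`. Then follow it from the column `a'` to the first exit from `{z.1 ≤ b'}`. (2) the same (or from (1), (3)). -/
def St_T5 : Prop :=
  (∀ (V : Set Pt) (a b c d a' b' c' d' : ℤ), a ≤ a' → a' ≤ b' → b' ≤ b → c' ≤ c → d ≤ d' →
    LR V a b c d → LR V a' b' c' d') ∧
  (∀ (V : Set Pt) (a b c d a' b' c' d' : ℤ), c ≤ c' → c' ≤ d' → d' ≤ d → a' ≤ a → b ≤ b' →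
    TB V a b c d → TB V a' b' c' d') ∧
  (∀ (V : Set Pt) (a b c d : ℤ), LR {x | x.swap ∈ V} a b c d ↔ TB V c d a b)

/-- **T6** (1.5 h). The ring. (1) a star path `W` from the box of radius `h` to the boundary of the box of radius `3h` crosses one of the four rectangles in the short
direction, so it meets the crossing of `V` in that rectangle. (2) Hence if the ring is crossed by `Iᶜ` there is no star crossing of the annulus by `I`.
(3) The ring gives the hub property for every box `Bx z' m ⊆ Bx z h`.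

Proof. (1) `V' = {w | Con (V ∩ Bx z (3h)) v w}` will be the common component of the four crossings. Let the star path go from `x ∈ Bx z h` to `y ∈ Sp z (3h)` in `Bx z (3h)`.
`y` is on one of the four sides, say the top one, `y.2 = z.2 + 3h`. The reversed path from `y` with `D = {w | z.2 + h + 1 ≤ w.2}`: it leaves `D` (as `x ∉ D`), so there is a star
path of `W ∩ Bx z (3h) ∩ D ⊆ Rc (z.1-3h) (z.1+3h) (z.2+h+1) (z.2+3h)` from a point `p` with `p.2 = z.2+h+1` (a star step changes the second coordinate by at most one) to `y`.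
By T2 it meets the left-right crossing of this rectangle. The other three sides: by symmetry (for the left and the right side use T2 in the form with the coordinates
exchanged: apply T2 to the images under `Prod.swap`).
The four crossings are connected to each other: e.g. the top one and the right one: by T5 the top one contains a left-right crossing of the corner square
`Rc (z.1+h+1) (z.1+3h) (z.2+h+1) (z.2+3h)` and the right one contains a bottom-top crossing of it; they meet by T2. (Apply T5 to the component of the crossing instead of `V`, to get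
points of the same component.)
(2) a meeting point is in `Iᶜ` and in `I`.
(3) `x, y ∈ Bx z' m ⊆ Bx z h`; the arm from `x` to `x' ∈ Sp z' m'` in `V ∩ Bx z' m'`. `x'` is not in `Bx z (3h)` or it is on `Sp z (3h)` (a point of `Bx z (3h)` not on `Sp z (3h)`
has all its neighbours in `Bx z (3h) ⊆ Bx z' m'`, but a point of `Sp z' m'` has a neighbour outside `Bx z' m'`). By T0 there is a sub-arm from `x` to `Sp z (3h)` in
`V ∩ Bx z (3h)`, a nearest neighbour path, so a star path; by (1) it meets the ring. The same for `y`. So `x` and `y` are both connected to the ring in `V ∩ Bx z (3h)`. -/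
def St_T6 : Prop :=
  (∀ (V : Set Pt) (z : Pt) (h : ℕ), Rg V z h → ∃ v, Con (V ∩ Bx z (3 * h)) v v ∧
    ∀ (W : Set Pt) (x y : Pt), x ∈ Bx z h → y ∈ Sp z (3 * h) → SCon (W ∩ Bx z (3 * h)) x y →
      ∃ w, SCon (W ∩ Bx z (3 * h)) x w ∧ Con (V ∩ Bx z (3 * h)) v w) ∧
  (∀ (I : Set Pt) (z : Pt) (h : ℕ), Rg Iᶜ z h → ¬ An I z h) ∧
  (∀ (V : Set Pt) (z z' : Pt) (h m m' : ℕ), Rg V z h → Bx z' m ⊆ Bx z h →
    Bx z (3 * h) ⊆ Bx z' m' → Hub V z' m m')

/-- **T7** (1.5 h). The chain of seeds. `δ = N - n`; the even seeds are at `(2iδ, 0)`, `i = 0, …, J`, with boxes of radius `N`, the odd seeds are at `((2i+1)δ, α)`,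
`i = 0, …, J-1`, with boxes of radius `n`.

Proof. Let `C_i` be the component (in `V ∩ Rc (-N) (2Jδ+N) (-N) (2n)`) of the arms of the seed `i`: by the hub property any two arms of one seed, which end on the boundary
of its box (radius `≥ m'`), are connected inside the box of radius `m'` (T0: an arm from `x ∈ Bx z m` passes a point of `Sp z m'` inside `Bx z m'`).
*Even seed `z = (2iδ,0)` and the odd seed `w = ((2i+1)δ, α)`:* the line `x₁ = 2iδ + N = (2i+1)δ + n` is the right side of both boxes. The path `π`: from the end point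
`p = (2iδ+N, y₁)`, `2α ≤ y₁`, of the upper right arm of `w` through `w` to the end point `q = (2iδ+N, y₂)`, `y₂ ≤ 0`, of the lower right arm of `w`; it lies in `Bx w n`, so in
`{(2i+1)δ - n ≤ x₁ ≤ 2iδ+N}`. The path `γ`: from the end point `(2iδ+N, y₀)`, `0 ≤ y₀ ≤ α' ≤ 2α`, of the right arm of `z` through `z` to the end point of the left arm of `z`, in the
column `2iδ - N < (2i+1)δ - n` (as `n < N`). By T3 (second part) they meet, so `C_{2i} = C_{2i+1}`.
*Odd seed `w = ((2i+1)δ, α)` and even seed `z = (2(i+1)δ, 0)`:* the same, reflected: the line `x₁ = 2(i+1)δ - N = (2i+1)δ - n` is the left side of both boxes, `π` uses the two left arms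
of `w`, `γ` goes from the left arm of `z` to its right arm, `2(i+1)δ + N > (2i+1)δ + n`; T3 (first part).
So all the arms are connected; the left arm of the seed `0` ends in the column `-N`, the right arm of the seed `2J` ends in the column `2Jδ + N`. All the boxes are in
`Rc (-N) (2Jδ+N) (-N) (2n)`: `N ≤ 2n`, `α + n ≤ 2n`, `α - n ≥ -N`. (Nearest neighbour paths are star paths, T0.) -/
def St_T7 : Prop := ∀ (V : Set Pt) (m m' n N J α α' : ℕ), m ≤ m' → m' ≤ n → n < N → N ≤ 2 * n →
  α ≤ n → α' ≤ 2 * α →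
  (∀ i : ℕ, i ≤ J → Hub V ((2 * i * (N - n) : ℤ), 0) m m' ∧
    Ar V ((2 * i * (N - n) : ℤ), 0) m N {y | y.1 = 2 * i * (N - n) + N ∧ 0 ≤ y.2 ∧ y.2 ≤ α'} ∧
    Ar V ((2 * i * (N - n) : ℤ), 0) m N {y | y.1 = 2 * i * (N - n) - N ∧ 0 ≤ y.2 ∧ y.2 ≤ α'}) →
  (∀ i : ℕ, i < J → Hub V (((2 * i + 1) * (N - n) : ℤ), (α : ℤ)) m m' ∧
    Ar V (((2 * i + 1) * (N - n) : ℤ), (α : ℤ)) m n
      {y | y.1 = (2 * i + 1) * (N - n) + n ∧ 2 * α ≤ y.2 ∧ y.2 ≤ α + n} ∧
    Ar V (((2 * i + 1) * (N - n) : ℤ), (α : ℤ)) m n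
      {y | y.1 = (2 * i + 1) * (N - n) + n ∧ α - n ≤ y.2 ∧ y.2 ≤ 0} ∧
    Ar V (((2 * i + 1) * (N - n) : ℤ), (α : ℤ)) m n
      {y | y.1 = (2 * i + 1) * (N - n) - n ∧ 2 * α ≤ y.2 ∧ y.2 ≤ α + n} ∧
    Ar V (((2 * i + 1) * (N - n) : ℤ), (α : ℤ)) m n
      {y | y.1 = (2 * i + 1) * (N - n) - n ∧ α - n ≤ y.2 ∧ y.2 ≤ 0}) →
  LR V (-N) (2 * J * (N - n) + N) (-N) (2 * n)

/-- **T8** (0.7 h). Two small annuli are crossed if a large one is.

Proof. Let the star path go from `x₁ ∈ Bx 0 (Qn)` to `x₂ ∈ Sp 0 (3Qn)` in `I`. `i = (x₁.1 / n, x₁.2 / n)` (floor), `j = (x₂.1 / n, x₂.2 / n)`: `|x₁.k - n i.k| ≤ n - 1`, `|i.k| ≤ Q`,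
`|j.k| ≤ 3Q`. For the coordinate `k` with `|x₂.k| = 3Qn`: `|x₁.k - x₂.k| ≥ 2Qn`, so `|n i.k - n j.k| ≥ 2Qn - 2(n-1) ≥ (2Q-2)n`. The path starts in `Bx (n i) n` and ends at
distance `≥ 2Qn - n ≥ 3n` (`Q ≥ 2`) from `n i`; by T0 (sphere crossing) `An I (n i) n`. The reversed path starts in `Bx (n j) n` and ends at distance `≥ 3n` from `n j`. -/
def St_T8 : Prop := ∀ (I : Set Pt) (n Q : ℕ), 1 ≤ n → 2 ≤ Q → An I 0 (Q * n) →
  ∃ i ∈ Bx 0 Q, ∃ j ∈ Bx 0 (3 * Q), An I ((n * i.1 : ℤ), (n * i.2 : ℤ)) n ∧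
    An I ((n * j.1 : ℤ), (n * j.2 : ℤ)) n ∧
    (((2 * Q - 2) * n : ℤ) ≤ |(n * i.1 : ℤ) - n * j.1| ∨
      ((2 * Q - 2) * n : ℤ) ≤ |(n * i.2 : ℤ) - n * j.2|)

/-- **T9** (0.8 h). If a long rectangle `[0,a] × [0,4n]` is not crossed by `Iᶜ` in the long direction then `I` crosses an annulus of radii `n`, `3n` centred on the bottom side; the
same for vertical rectangles.

Proof. (1) T4: there is a star path of `I` in `Rc 0 a 0 (4n)` from `p`, `p.2 = 0`, to `q`, `q.2 = 4n`. `j = p.1 / n ≤ a / n`: `p ∈ Bx (n j, 0) n`, and `q` has distance `4n > 3n` from `(n j, 0)`;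
T0 (sphere crossing). (2) apply (1) to `{x | x.swap ∈ I}`, T5(3). -/
def St_T9 : Prop :=
  (∀ (I : Set Pt) (n a : ℕ), 1 ≤ n → ¬ LR Iᶜ 0 a 0 (4 * n) → ∃ j : ℕ, j ≤ a / n ∧
    An I ((n * j : ℤ), 0) n) ∧
  (∀ (I : Set Pt) (n a : ℕ), 1 ≤ n → ¬ TB Iᶜ 0 (4 * n) 0 a → ∃ j : ℕ, j ≤ a / n ∧
    An I ((0 : ℤ), (n * j : ℤ)) n)

/-- **T10** (1 h). An infinite cluster from crossings of longer and longer rectangles, alternately horizontal and vertical: `R_k = [0, 4n_{k+1}] × [0, 4n_k]` for even `k`,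
`[0, 4n_k] × [0, 4n_{k+1}]` for odd `k`.

Proof. The crossings `π_k` and `π_{k+1}` meet: for even `k`, `π_k` is a left-right crossing of `Rc 0 (4n_{k+1}) 0 (4n_k)` and (T5) the component of `π_{k+1}` contains a bottom-top
crossing of this rectangle (`π_{k+1}` crosses `Rc 0 (4n_{k+1}) 0 (4n_{k+2})` from bottom to top, and `4n_k ≤ 4n_{k+2}`); T2. For odd `k` the same with the coordinates exchanged.
Hence all `π_k` are in one component of `V`; the component contains points with first coordinate `4n_{k+1}` for all even `k`, and `n_k` is strictly increasing, so it is infinite. -/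
def St_T10 : Prop := ∀ (V : Set Pt) (n : ℕ → ℕ), StrictMono n →
  (∀ k, Even k → LR V 0 (4 * n (k + 1)) 0 (4 * n k)) →
  (∀ k, Odd k → TB V 0 (4 * n k) 0 (4 * n (k + 1))) → ∃ x : Pt, {y | Con V x y}.Infinite

/-- **T11** (0.5 h). Arithmetic: good pairs of scales exist.

Proof. Otherwise `α (n + n/2) ≥ 2 α n + 1` for all `n ≥ n₀` (w.l.o.g. `n₀ ≥ 1`). Let `n_0 = n₀`, `n_{k+1} = n_k + n_k / 2`. Then `α (n_k) + 1 ≥ 2^k` by induction, but
`α (n_k) ≤ n_k ≤ (3/2)^k n₀`; so `2^k ≤ (3/2)^k n₀ + 1` for all `k`, contradiction for large `k`. -/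
def St_T11 : Prop := ∀ (α : ℕ → ℕ) (n₀ : ℕ), (∀ n, α n ≤ n) →
  ∃ n, n₀ ≤ n ∧ α (n + n / 2) ≤ 2 * α n

end PLS
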