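import Pool.Agent.PLS.StT

/-!
# PLS T4: the Hex lemma (double counting mod 2)
-/

set_option autoImplicit false
set_option linter.unusedVariables false

open Finset Filter Topology MeasureTheory RInt

noncomputable section

namespace PLS

namespace T4x

theorem con_mem {V : Set Pt} {x y : Pt} (h : Con V x y) : y ∈ V := by
  obtain ⟨hx, h⟩ := h
  rcases Relation.ReflTransGen.cases_tail h with h' | ⟨z, -, hz⟩
  · rw [h']
    exact hx
  · exact hz.2.1

theorem con_step {V : Set Pt} {x y z : Pt} (h : Con V x y) (hz : z ∈ V) (hn : nn y z) :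
    Con V x z := ⟨h.1, h.2.tail ⟨con_mem h, hz, hn⟩⟩

theorem scon_mem {V : Set Pt} {x y : Pt} (h : SCon V x y) : y ∈ V := by
  obtain ⟨hx, h⟩ := h
  rcases Relation.ReflTransGen.cases_tail h with h' | ⟨z, -, hz⟩
  · rw [h']
    exact hx
  · exact hz.2.1

theorem scon_step {V : Set Pt} {x y z : Pt} (h : SCon V x y) (hz : z ∈ V) (hn : st y z) :
    SCon V x z := ⟨h.1, h.2.tail ⟨scon_mem h, hz, hn⟩⟩

theorem z2 : (1 : ZMod 2) + 1 = 0 := by decide

/-- the four sides of a plaquette -/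
theorem plaq (a1 a2 a3 a4 o1 o2 o3 o4 : Prop)
    (h12 : ¬ a1 → ¬ a2 → a4 → a3 → (o1 ↔ o2)) (h23 : ¬ a2 → ¬ a3 → a1 → a4 → (o2 ↔ o3))
    (h34 : ¬ a3 → ¬ a4 → a2 → a1 → (o3 ↔ o4)) (h41 : ¬ a4 → ¬ a1 → a3 → a2 → (o4 ↔ o1))
    (h13 : ¬ a1 → ¬ a3 → (a2 ∨ a4) → (o1 ↔ o3)) (h24 : ¬ a2 → ¬ a4 → (a1 ∨ a3) → (o2 ↔ o4)) :
    (ind (a1 ∧ ¬ a2 ∧ o2) + ind (a2 ∧ ¬ a1 ∧ o1)) + (ind (a4 ∧ ¬ a3 ∧ o3) + ind (a3 ∧ ¬ a4 ∧ o4)) +
    ((ind (a1 ∧ ¬ a4 ∧ o4) + ind (a4 ∧ ¬ a1 ∧ o1)) +
      (ind (a2 ∧ ¬ a3 ∧ o3) + ind (a3 ∧ ¬ a2 ∧ o2))) = 0 := by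
  unfold ind
  by_cases k1 : a1 <;> by_cases k2 : a2 <;> by_cases k3 : a3 <;> by_cases k4 : a4 <;>
    by_cases l1 : o1 <;> by_cases l2 : o2 <;> by_cases l3 : o3 <;> by_cases l4 : o4 <;>
    simp [k1, k2, k3, k4, l1, l2, l3, l4, z2] at h12 h23 h34 h41 h13 h24 ⊢

/-- the indicator of an interface with outer end in `O` -/
def f (A O : Pt → Prop) (P Q : Pt) : ZMod 2 :=
  ind (A P ∧ ¬ A Q ∧ O Q) + ind (A Q ∧ ¬ A P ∧ O P)

theorem st_of {x y x' y' : ℤ} (h1 : x' ≤ x + 1) (h2 : x ≤ x' + 1) (h3 : y' ≤ y + 1)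
    (h4 : y ≤ y' + 1) : st (x, y) (x', y') := by
  refine ⟨abs_le.2 ⟨?_, ?_⟩, abs_le.2 ⟨?_, ?_⟩⟩
  · change -1 ≤ x - x'
    omega
  · change x - x' ≤ 1
    omega
  · change -1 ≤ y - y'
    omega
  · change y - y' ≤ 1
    omega

theorem st_symm {P Q : Pt} (h : st P Q) : st Q P := by
  unfold st at h ⊢
  rw [abs_sub_comm, abs_sub_comm Q.2]
  exact h

theorem ind_pos {p : Prop} (h : p) : ind p = 1 := if_pos h

theorem ind_neg {p : Prop} (h : ¬ p) : ind p = 0 := if_neg h

theorem core (A O W : Pt → Prop) (a b c d : ℤ) (hab : a ≤ b) (hcd : c ≤ d)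
    (hW : ∀ x y x' y' : ℤ, a - 1 ≤ x → x ≤ b → c ≤ y → y ≤ d → a - 1 ≤ x' → x' ≤ b → c ≤ y' →
      y' ≤ d → nn (x, y) (x', y') → A (x, y) → ¬ A (x', y') → W (x', y'))
    (hO : ∀ P Q : Pt, W P → W Q → st P Q → O P → O Q)
    (hL : ∀ y, c ≤ y → y ≤ d → A (a - 1, y)) (hR : ∀ y, c ≤ y → y ≤ d → ¬ A (b, y))
    (hT : ∀ x, ¬ O (x, d)) (hB : ∀ x, W (x, c) → O (x, c)) : False := by
  have hiff : ∀ P Q : Pt, W P → W Q → st P Q → (O P ↔ O Q) := fun P Q hP hQ h =>
    ⟨hO P Q hP hQ h, hO Q P hQ hP (st_symm h)⟩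
  have hpl : ∀ x y : ℤ, a - 1 ≤ x → x + 1 ≤ b → c ≤ y → y + 1 ≤ d →
      f A O (x, y) (x + 1, y) + f A O (x, y + 1) (x + 1, y + 1) +
        (f A O (x, y) (x, y + 1) + f A O (x + 1, y) (x + 1, y + 1)) = 0 := by
    intro x y h1 h2 h3 h4
    -- W at the four corners
    have n12 : nn (x, y) (x + 1, y) := Or.inr ⟨rfl, Or.inr rfl⟩
    have n21 : nn (x + 1, y) (x, y) := Or.inr ⟨rfl, Or.inl rfl⟩
    have n43 : nn (x, y + 1) (x + 1, y + 1) := Or.inr ⟨rfl, Or.inr rfl⟩
    have n34 : nn (x + 1, y + 1) (x, y + 1) := Or.inr ⟨rfl, Or.inl rfl⟩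
    have n14 : nn (x, y) (x, y + 1) := Or.inl ⟨rfl, Or.inr rfl⟩
    have n41 : nn (x, y + 1) (x, y) := Or.inl ⟨rfl, Or.inl rfl⟩
    have n23 : nn (x + 1, y) (x + 1, y + 1) := Or.inl ⟨rfl, Or.inr rfl⟩
    have n32 : nn (x + 1, y + 1) (x + 1, y) := Or.inl ⟨rfl, Or.inl rfl⟩
    have w1 : (A (x + 1, y) ∨ A (x, y + 1)) → ¬ A (x, y) → W (x, y) := by
      rintro (h | h) h'
      · exact hW _ _ _ _ (by omega) (by omega) (by omega) (by omega) (by omega) (by omega)
          (by omega) (by omega) n21 h h'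
      · exact hW _ _ _ _ (by omega) (by omega) (by omega) (by omega) (by omega) (by omega)
          (by omega) (by omega) n41 h h'
    have w2 : (A (x, y) ∨ A (x + 1, y + 1)) → ¬ A (x + 1, y) → W (x + 1, y) := by
      rintro (h | h) h'
      · exact hW _ _ _ _ (by omega) (by omega) (by omega) (by omega) (by omega) (by omega)
          (by omega) (by omega) n12 h h'
      · exact hW _ _ _ _ (by omega) (by omega) (by omega) (by omega) (by omega) (by omega)
          (by omega) (by omega) n32 h h'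
    have w3 : (A (x + 1, y) ∨ A (x, y + 1)) → ¬ A (x + 1, y + 1) → W (x + 1, y + 1) := by
      rintro (h | h) h'
      · exact hW _ _ _ _ (by omega) (by omega) (by omega) (by omega) (by omega) (by omega)
          (by omega) (by omega) n23 h h'
      · exact hW _ _ _ _ (by omega) (by omega) (by omega) (by omega) (by omega) (by omega)
          (by omega) (by omega) n43 h h'
    have w4 : (A (x, y) ∨ A (x + 1, y + 1)) → ¬ A (x, y + 1) → W (x, y + 1) := by
      rintro (h | h) h'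
      · exact hW _ _ _ _ (by omega) (by omega) (by omega) (by omega) (by omega) (by omega)
          (by omega) (by omega) n14 h h'
      · exact hW _ _ _ _ (by omega) (by omega) (by omega) (by omega) (by omega) (by omega)
          (by omega) (by omega) n34 h h'
    refine plaq (A (x, y)) (A (x + 1, y)) (A (x + 1, y + 1)) (A (x, y + 1)) (O (x, y))
      (O (x + 1, y)) (O (x + 1, y + 1)) (O (x, y + 1)) ?_ ?_ ?_ ?_ ?_ ?_
    · intro k1 k2 k4 k3
      exact hiff _ _ (w1 (Or.inr k4) k1) (w2 (Or.inr k3) k2)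
        (st_of (by omega) (by omega) (by omega) (by omega))
    · intro k2 k3 k1 k4
      exact hiff _ _ (w2 (Or.inl k1) k2) (w3 (Or.inr k4) k3)
        (st_of (by omega) (by omega) (by omega) (by omega))
    · intro k3 k4 k2 k1
      exact hiff _ _ (w3 (Or.inl k2) k3) (w4 (Or.inl k1) k4)
        (st_of (by omega) (by omega) (by omega) (by omega))
    · intro k4 k1 k3 k2
      exact hiff _ _ (w4 (Or.inr k3) k4) (w1 (Or.inl k2) k1)
        (st_of (by omega) (by omega) (by omega) (by omega))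
    · intro k1 k3 k
      exact hiff _ _ (w1 k k1) (w3 k k3) (st_of (by omega) (by omega) (by omega) (by omega))
    · intro k2 k4 k
      exact hiff _ _ (w2 k k2) (w4 k k4) (st_of (by omega) (by omega) (by omega) (by omega))
  -- the sum over one row
  have dz1 : ∀ s t p q r : ZMod 2, s = p + q → t + (q + r) = 0 → s + t = p + r := by decide
  have hrow : ∀ (m : ℕ) (y : ℤ), c ≤ y → y + 1 ≤ d → a - 1 + m ≤ b →
      ∑ i ∈ Finset.range m, (f A O (a - 1 + i, y) (a - 1 + i + 1, y) +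
        f A O (a - 1 + i, y + 1) (a - 1 + i + 1, y + 1)) =
      f A O (a - 1, y) (a - 1, y + 1) + f A O (a - 1 + m, y) (a - 1 + m, y + 1) := by
    intro m y h3 h4
    induction m with
    | zero =>
      intro _
      have : ∀ p : ZMod 2, 0 = p + p := by decide
      simpa using this _
    | succ m ih =>
      intro hm
      push_cast at hm
      rw [Finset.sum_range_succ]
      have h := hpl (a - 1 + m) y (by omega) (by omega) h3 h4
      have e : a - 1 + ((m + 1 : ℕ) : ℤ) = a - 1 + m + 1 := by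
        push_cast
        ring
      rw [e]
      exact dz1 _ _ _ _ _ (ih (by omega)) h
  obtain ⟨m, hm⟩ : ∃ m : ℕ, a - 1 + (m : ℤ) = b := ⟨(b - a + 1).toNat, by omega⟩
  obtain ⟨R, hRd⟩ : ∃ R : ℤ → ZMod 2, R = fun y =>
    ∑ i ∈ Finset.range m, f A O (a - 1 + i, y) (a - 1 + i + 1, y) := ⟨_, rfl⟩
  have dz2 : ∀ s t : ZMod 2, s + t = 0 + 0 → t = s := by decide
  have hstep : ∀ y, c ≤ y → y + 1 ≤ d → R (y + 1) = R y := by
    intro y h3 h4
    have h := hrow m y h3 h4 hm.le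
    rw [Finset.sum_add_distrib, hm] at h
    have e1 : f A O (a - 1, y) (a - 1, y + 1) = 0 := by
      unfold f
      rw [ind_neg (fun h => h.2.1 (hL _ (by omega) (by omega))),
        ind_neg (fun h => h.2.1 (hL _ (by omega) (by omega))), add_zero]
    have e2 : f A O (b, y) (b, y + 1) = 0 := by
      unfold f
      rw [ind_neg (fun h => hR _ (by omega) (by omega) h.1),
        ind_neg (fun h => hR _ (by omega) (by omega) h.1), add_zero]
    rw [e1, e2] at h
    rw [hRd]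
    exact dz2 _ _ h
  have hall : ∀ k : ℕ, c + k ≤ d → R (c + k) = R c := by
    intro k
    induction k with
    | zero =>
      intro _
      rw [Nat.cast_zero, add_zero]
    | succ k ih =>
      intro hk
      push_cast at hk
      have e : c + ((k + 1 : ℕ) : ℤ) = c + k + 1 := by
        push_cast
        ring
      rw [e, hstep _ (by omega) (by omega)]
      exact ih (by omega)
  have hRdc : R d = R c := by
    have h := hall (d - c).toNat (by omega)
    have e : c + ((d - c).toNat : ℤ) = d := by omega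
    rw [e] at h
    exact h
  have hRd0 : R d = 0 := by
    rw [hRd]
    refine Finset.sum_eq_zero fun i _ => ?_
    unfold f
    rw [ind_neg (fun h => hT _ h.2.2), ind_neg (fun h => hT _ h.2.2), add_zero]
  have hRc : R c = 1 := by
    rw [hRd]
    have hf : ∀ i ∈ Finset.range m, f A O (a - 1 + i, c) (a - 1 + i + 1, c) =
        ind (A (a - 1 + i, c)) + ind (A (a - 1 + i + 1, c)) := by
      intro i hi
      rw [Finset.mem_range] at hi
      unfold f
      by_cases k1 : A (a - 1 + i, c)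
      · by_cases k2 : A (a - 1 + i + 1, c)
        · rw [ind_neg (fun h => h.2.1 k2), ind_neg (fun h => h.2.1 k1), ind_pos k1, ind_pos k2]
          decide
        · have h : O (a - 1 + i + 1, c) := hB _ (hW (a - 1 + i) c _ _ (by omega) (by omega)
            (by omega) (by omega) (by omega) (by omega) (by omega) (by omega)
            (Or.inr ⟨rfl, Or.inr rfl⟩) k1 k2)
          rw [ind_pos ⟨k1, k2, h⟩, ind_neg (fun h => k2 h.1), ind_pos k1, ind_neg k2]
      · by_cases k2 : A (a - 1 + i + 1, c)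
        · have h : O (a - 1 + i, c) := hB _ (hW (a - 1 + i + 1) c _ _ (by omega) (by omega)
            (by omega) (by omega) (by omega) (by omega) (by omega) (by omega)
            (Or.inr ⟨rfl, Or.inl rfl⟩) k2 k1)
          rw [ind_neg (fun h => k1 h.1), ind_pos ⟨k2, k1, h⟩, ind_neg k1, ind_pos k2]
        · rw [ind_neg (fun h => k1 h.1), ind_neg (fun h => k2 h.1), ind_neg k1, ind_neg k2]
    refine (Finset.sum_congr rfl hf).trans ?_
    have htel : ∀ (m : ℕ), ∑ i ∈ Finset.range m,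
        (ind (A (a - 1 + i, c)) + ind (A (a - 1 + i + 1, c))) =
        ind (A (a - 1, c)) + ind (A (a - 1 + m, c)) := by
      intro m
      induction m with
      | zero =>
        have : ∀ p : ZMod 2, 0 = p + p := by decide
        simpa using this _
      | succ m ih =>
        rw [Finset.sum_range_succ, ih]
        have e : a - 1 + ((m + 1 : ℕ) : ℤ) = a - 1 + m + 1 := by
          push_cast
          ring
        rw [e]
        have : ∀ p q r : ZMod 2, p + q + (q + r) = p + r := by decide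
        exact this _ _ _
    rw [htel, hm, ind_pos (hL c le_rfl hcd), ind_neg (hR c le_rfl hcd), add_zero]
  rw [hRd0, hRc] at hRdc
  exact absurd hRdc (by decide)

theorem mem_Rc {a b c d : ℤ} {z : Pt} :
    z ∈ (Rc a b c d : Set Pt) ↔ (a ≤ z.1 ∧ z.1 ≤ b) ∧ c ≤ z.2 ∧ z.2 ≤ d := by
  unfold Rc
  rw [Finset.mem_coe, Finset.mem_product, Finset.mem_Icc, Finset.mem_Icc]

end T4x

open T4x in
theorem T4 : St_T4 := by
  intro a b c d V hab hcd hLR
  by_contra hcon
  refine core (fun z => z.1 = a - 1 ∨ ∃ x : Pt, x.1 = a ∧ Con (V ∩ Rc a b c d) x z)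
    (fun z => ∃ p : Pt, p.2 = c ∧ SCon (Vᶜ ∩ Rc a b c d) p z)
    (fun z => z ∈ Vᶜ ∩ (Rc a b c d : Set Pt)) a b c d hab hcd ?_ ?_ ?_ ?_ ?_ ?_
  · intro x y x' y' h1 h2 h3 h4 h5 h6 h7 h8 hn hA hA'
    have hx' : a ≤ x' := by
      by_contra h
      exact hA' (Or.inl (by change x' = a - 1; omega))
    have hR : ((x', y') : Pt) ∈ (Rc a b c d : Set Pt) := mem_Rc.2 ⟨⟨hx', h6⟩, h7, h8⟩
    refine ⟨fun hV => hA' (Or.inr ?_), hR⟩
    rcases hA with hA | ⟨p, hp, hA⟩
    · have hA0 : x = a - 1 := hA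
      have hn0 : (x = x' ∧ (y = y' + 1 ∨ y' = y + 1)) ∨ (y = y' ∧ (x = x' + 1 ∨ x' = x + 1)) := hn
      exact ⟨(x', y'), by change x' = a; omega, ⟨hV, hR⟩, Relation.ReflTransGen.refl⟩
    · exact ⟨p, hp, con_step hA ⟨hV, hR⟩ hn⟩
  · rintro P Q hP hQ h ⟨p, hp, hs⟩
    exact ⟨p, hp, scon_step hs hQ h⟩
  · intro y h1 h2
    exact Or.inl rfl
  · rintro y h1 h2 (h | ⟨x, hx, h⟩)
    · have h0 : b = a - 1 := h
      omega
    · exact hLR ⟨x, (b, y), hx, rfl, h⟩
  · rintro x ⟨p, hp, h⟩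
    exact hcon ⟨p, (x, d), hp, rfl, h⟩
  · intro x h
    exact ⟨(x, c), rfl, h, Relation.ReflTransGen.refl⟩

end PLS
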